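import Pool.Agent.W_7d29a1_AM.Base73

/-!
Amplification for every law, leaf A6, pieces: the Hölder bound of the last term and the lower
weight.
-/

set_option autoImplicit false

namespace Pool.Agent.W_7d29a1_AM

open MeasureTheory ProbabilityTheory Filter Topology Pool.Agent.W_MP_7d29a1_pr
  Pool.Agent.W_7d29a1_h46 Pool.Agent.W_7d29a1_h46u Pool.Agent.W_7d29a1_D2.B35
  Pool.Agent.W_7d29a1_Q29 Pool.Agent.W_7d29a1_R34 Pool.Agent.W_7d29a1_SP

/-- Hölder's inequality with a support. -/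
lemma hold94 {α : Type*} [MeasurableSpace α] {μ : Measure α} [IsProbabilityMeasure μ] {W : α → ℝ}
    (hW : Measurable W) (h0 : ∀ a, 0 ≤ W a) (hi : Integrable (fun a => W a ^ 2) μ) {S : Set α}
    (hS : MeasurableSet S) (hWS : ∀ a, a ∉ S → W a = 0) :
    (∫ a, W a ^ (4 / 3 : ℝ) ∂μ) ^ (3 / 4 : ℝ) ≤
      (∫ a, W a ^ 2 ∂μ) ^ (1 / 2 : ℝ) * (μ.real S) ^ (1 / 4 : ℝ) := by
  have hpq : (3 / 2 : ℝ).HolderConjugate 3 := by
    rw [Real.holderConjugate_iff]
    norm_num
  have hf0 : ∀ a, 0 ≤ W a ^ (4 / 3 : ℝ) := fun a => Real.rpow_nonneg (h0 a) _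
  have hfm : Measurable fun a => W a ^ (4 / 3 : ℝ) := hW.pow_const _
  have hfp : ∀ a, (W a ^ (4 / 3 : ℝ)) ^ (3 / 2 : ℝ) = W a ^ 2 := by
    intro a
    rw [← Real.rpow_mul (h0 a)]
    norm_num
  have h1 : MemLp (fun a => W a ^ (4 / 3 : ℝ)) (ENNReal.ofReal (3 / 2)) μ := by
    rw [← integrable_norm_rpow_iff hfm.aestronglyMeasurable (by simp) (by simp)]
    rw [ENNReal.toReal_ofReal (by norm_num)]
    refine hi.congr (Eventually.of_forall fun a => ?_)
    show W a ^ 2 = ‖W a ^ (4 / 3 : ℝ)‖ ^ (3 / 2 : ℝ)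
    rw [Real.norm_eq_abs, abs_of_nonneg (hf0 a), hfp a]
  have hgm : Measurable (S.indicator fun _ => (1 : ℝ)) := measurable_const.indicator hS
  have hg0 : ∀ a, 0 ≤ S.indicator (fun _ => (1 : ℝ)) a := fun a =>
    Set.indicator_nonneg (fun _ _ => zero_le_one) _
  have h2 : MemLp (S.indicator fun _ => (1 : ℝ)) (ENNReal.ofReal 3) μ :=
    MemLp.of_bound hgm.aestronglyMeasurable 1 (Eventually.of_forall fun a => by
      rw [Real.norm_eq_abs, abs_of_nonneg (hg0 a)]
      exact Set.indicator_le_self' (fun _ _ => zero_le_one) a |>.trans le_rfl)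
  have h3 := integral_mul_le_Lp_mul_Lq_of_nonneg hpq (Eventually.of_forall hf0)
    (Eventually.of_forall hg0) h1 h2
  have h4 : ∀ a, W a ^ (4 / 3 : ℝ) * S.indicator (fun _ => (1 : ℝ)) a = W a ^ (4 / 3 : ℝ) := by
    intro a
    by_cases ha : a ∈ S
    · rw [Set.indicator_of_mem ha, mul_one]
    · rw [hWS a ha, Real.zero_rpow (by norm_num), zero_mul]
  have h5 : ∀ a, S.indicator (fun _ => (1 : ℝ)) a ^ (3 : ℝ) = S.indicator (fun _ => (1 : ℝ)) a := by
    intro a
    by_cases ha : a ∈ S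
    · rw [Set.indicator_of_mem ha, Real.one_rpow]
    · rw [Set.indicator_of_notMem ha, Real.zero_rpow (by norm_num)]
  simp_rw [h4, h5, hfp] at h3
  rw [integral_indicator_const _ hS, smul_eq_mul, mul_one] at h3
  have hI0 : 0 ≤ ∫ a, W a ^ (4 / 3 : ℝ) ∂μ := integral_nonneg hf0
  have hJ0 : 0 ≤ ∫ a, W a ^ 2 ∂μ := integral_nonneg fun a => sq_nonneg _
  have h6 := Real.rpow_le_rpow hI0 h3 (by norm_num : (0 : ℝ) ≤ 3 / 4)
  refine h6.trans (le_of_eq ?_)
  rw [Real.mul_rpow (Real.rpow_nonneg hJ0 _) (Real.rpow_nonneg measureReal_nonneg _),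
    ← Real.rpow_mul hJ0, ← Real.rpow_mul measureReal_nonneg]
  norm_num

variable {ρ : Measure ℝ} {β : ℝ} {N : ℕ}

/-- The growth of a function of the class. -/
lemma cls_growth94 {V : (Fin N → ℝ) → ℝ} {p : Fin N → (Fin N → ℝ) → ℝ} (hβ : 0 < β)
    (h : Cls β V p) (y : Fin N → ℝ) : V y ≤ V 0 + β * ∑ i, |y i| := by
  have h1 := h.conv y 0
  have h2 : ∑ i, (-|y i|) ≤ ∑ i, ((0 : Fin N → ℝ) i - y i) * p i y := by
    refine Finset.sum_le_sum fun i _ => ?_
    have h3 := h.p0 i y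
    have h4 := h.p1 i y
    rw [Pi.zero_apply, zero_sub]
    have h5 := le_abs_self (y i)
    have h6 := abs_nonneg (y i)
    have h7 := neg_abs_le (y i)
    nlinarith
  rw [Finset.sum_neg_distrib] at h2
  nlinarith

lemma int_sq94 (hρ : EM ρ) : Integrable (fun t : ℝ => t ^ 2) ρ := by
  refine ((hρ 1).add (hρ (-1))).const_mul 2 |>.mono' (by fun_prop) (Eventually.of_forall fun t => ?_)
  rw [Real.norm_eq_abs, abs_of_nonneg (sq_nonneg t)]
  simp only [Pi.add_apply]
  have h1 := Real.quadratic_le_exp_of_nonneg (abs_nonneg t)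
  rw [sq_abs] at h1
  have h2 := abs_nonneg t
  have h3 : Real.exp |t| ≤ Real.exp (1 * t) + Real.exp (-1 * t) := by
    rcases abs_cases t with ⟨h, -⟩ | ⟨h, -⟩ <;> rw [h]
    · rw [one_mul]
      linarith [Real.exp_pos (-1 * t)]
    · rw [neg_one_mul]
      linarith [Real.exp_pos (1 * t)]
  nlinarith

/-- The square of a function of the class is integrable. -/
lemma cls_int_sq94 [IsProbabilityMeasure ρ] (hρ : EM ρ) {V : (Fin N → ℝ) → ℝ}
    {p : Fin N → (Fin N → ℝ) → ℝ} (hβ : 0 < β) (h : Cls β V p) :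
    Integrable (fun y => V y ^ 2) (PN ρ N) := by
  have hsq : ∀ i : Fin N, Integrable (fun y : Fin N → ℝ => y i ^ 2) (PN ρ N) := fun i =>
    (measurePreserving_eval (fun _ : Fin N => ρ) i).integrable_comp_of_integrable (int_sq94 hρ)
  have hdom : Integrable (fun y : Fin N → ℝ => 2 * V 0 ^ 2 + 2 * β ^ 2 * (N * ∑ i, y i ^ 2))
      (PN ρ N) := by
    refine (integrable_const _).add (Integrable.const_mul (Integrable.const_mul ?_ _) _)
    exact integrable_finset_sum _ fun i _ => hsq i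
  refine hdom.mono' (h.meas.pow_const 2).aestronglyMeasurable (Eventually.of_forall fun y => ?_)
  rw [Real.norm_eq_abs, abs_of_nonneg (sq_nonneg _)]
  have h1 := cls_growth94 hβ h y
  have h2 := h.nonneg y
  have h3 : V y ^ 2 ≤ (V 0 + β * ∑ i, |y i|) ^ 2 := pow_le_pow_left₀ h2 h1 2
  have h4 : (∑ i, |y i|) ^ 2 ≤ N * ∑ i, y i ^ 2 := by
    have := sq_sum_le_card_mul_sum_sq (s := (Finset.univ : Finset (Fin N))) (f := fun i => |y i|)
    simpa [sq_abs] using this
  have h5 : (V 0 + β * ∑ i, |y i|) ^ 2 ≤ 2 * V 0 ^ 2 + 2 * (β * ∑ i, |y i|) ^ 2 := by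
    nlinarith [sq_nonneg (V 0 - β * ∑ i, |y i|)]
  have h6 : (β * ∑ i, |y i|) ^ 2 ≤ β ^ 2 * (N * ∑ i, y i ^ 2) := by
    rw [mul_pow]
    exact mul_le_mul_of_nonneg_left h4 (sq_nonneg β)
  linarith

/-- **P1.** The Hölder bound of the last term. -/
lemma hol94 [IsProbabilityMeasure ρ] (hρ : EM ρ) {V : (Fin N → ℝ) → ℝ}
    {p : Fin N → (Fin N → ℝ) → ℝ} (hβ : 0 < β) (h : Cls β V p) {x₀ : ℝ} (hx : 0 ≤ x₀) :
    (∫ y, (max (V y - x₀) 0) ^ (4 / 3 : ℝ) ∂PN ρ N) ^ (3 / 4 : ℝ) ≤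
      (∫ y, V y ^ 2 ∂PN ρ N) ^ (1 / 2 : ℝ) * ((PN ρ N).real {y | x₀ ≤ V y}) ^ (1 / 4 : ℝ) := by
  haveI : IsProbabilityMeasure (PN ρ N) := by unfold PN; infer_instance
  have hV := cls_int_sq94 hρ hβ h
  have hWm : Measurable fun y => max (V y - x₀) 0 := (h.meas.sub_const _).max measurable_const
  have hle : ∀ y, (max (V y - x₀) 0) ^ 2 ≤ V y ^ 2 := fun y =>
    pow_le_pow_left₀ (le_max_right _ _) (max_le (by linarith) (h.nonneg y)) 2
  have hWi : Integrable (fun y => (max (V y - x₀) 0) ^ 2) (PN ρ N) :=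
    hV.mono' (hWm.pow_const 2).aestronglyMeasurable (Eventually.of_forall fun y => by
      rw [Real.norm_eq_abs, abs_of_nonneg (sq_nonneg _)]
      exact hle y)
  have h1 := hold94 (μ := PN ρ N) hWm (fun y => le_max_right _ _) hWi
    (S := {y | x₀ ≤ V y}) (measurableSet_le measurable_const h.meas) (fun y hy => by
      have : V y < x₀ := not_le.1 hy
      exact max_eq_right (by linarith))
  refine h1.trans (mul_le_mul_of_nonneg_right ?_ (Real.rpow_nonneg measureReal_nonneg _))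
  exact Real.rpow_le_rpow (integral_nonneg fun y => sq_nonneg _) (integral_mono hWi hV hle)
    (by norm_num)

/-- **P3.** The lower weight. -/
lemma minus94 [IsProbabilityMeasure ρ] {l : ℝ} (hl : 0 < l) (hl1 : l ≤ 1)
    (hM : Wt l (-1) (fM l) (fun _ => 1)) {V : (Fin N → ℝ) → ℝ} {p : Fin N → (Fin N → ℝ) → ℝ}
    (h : Cls β V p) {c q : ℝ} (hq : 0 < q)
    (hK : c * l ^ 2 * Nt ρ (fM l) (fun _ => 1) N V p ≤
      Ef ρ (fM l) V (fun y => Real.log (fM l (V y))) - Real.log (gf ρ (fM l) V))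
    (hP : q ≤ (PN ρ N).real {y | V y ≤ Real.log 2}) :
    l * Ef ρ (fM l) V V + c * l ^ 2 * Nt ρ (fM l) (fun _ => 1) N V p ≤
      Real.log 2 + Real.log (1 / q) := by
  haveI : IsProbabilityMeasure (PN ρ N) := by unfold PN; infer_instance
  have h1 : Ef ρ (fM l) V (fun y => Real.log (fM l (V y))) = -(l * Ef ρ (fM l) V V) := by
    unfold Ef
    have : ∀ y, Real.log (fM l (V y)) * fM l (V y) = -l * (V y * fM l (V y)) := by
      intro y
      have : Real.log (fM l (V y)) = -(l * V y) := by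
        unfold fM
        rw [Real.log_exp]
      rw [this]
      ring
    simp_rw [this]
    rw [integral_const_mul]
    ring
  have hS : MeasurableSet {y | V y ≤ Real.log 2} := measurableSet_le h.meas measurable_const
  have h2 : q / 2 ≤ gf ρ (fM l) V := by
    have h3 : ∀ y, ({y | V y ≤ Real.log 2}).indicator (fun _ => (1 / 2 : ℝ)) y ≤ fM l (V y) := by
      intro y
      by_cases hy : V y ≤ Real.log 2
      · rw [Set.indicator_of_mem (show y ∈ {y | V y ≤ Real.log 2} from hy)]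
        unfold fM
        have h4 : Real.exp (-Real.log 2) = 1 / 2 := by
          rw [Real.exp_neg, Real.exp_log two_pos]
          norm_num
        rw [← h4, Real.exp_le_exp]
        have h5 := h.nonneg y
        nlinarith
      · rw [Set.indicator_of_notMem (show y ∉ {y | V y ≤ Real.log 2} from hy)]
        exact (hM.pos _).le
    have h6 := integral_mono (μ := PN ρ N) ((integrable_const (1 / 2 : ℝ)).indicator hS)
      (int_f (ρ := ρ) hM h) h3
    rw [integral_indicator_const _ hS, smul_eq_mul] at h6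
    unfold gf
    linarith
  have h7 : -Real.log (gf ρ (fM l) V) ≤ Real.log 2 + Real.log (1 / q) := by
    have h8 := Real.log_le_log (by positivity) h2
    rw [Real.log_div hq.ne' two_ne_zero] at h8
    rw [one_div, Real.log_inv]
    linarith
  rw [h1] at hK
  linarith

end Pool.Agent.W_7d29a1_AM
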