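import Pool.Agent.W_7d29a1_AM.DefsAM

/-!
ConP: consequences of the one site calculus (helper73).
-/

namespace Pool.Agent.W_7d29a1_AM

open MeasureTheory ProbabilityTheory Filter Topology Pool.Agent.W_MP_7d29a1_pr
  Pool.Agent.W_7d29a1_h46u

variable {ρ : Measure ℝ} [IsProbabilityMeasure ρ] {β : ℝ}

/-- Two separated half lines of positive mass. -/
lemma two73 (hnc : ∀ c : ℝ, ρ {c} ≠ 1) : ∃ a b : ℝ, a < b ∧ 0 < ρ (Set.Iic a) ∧ 0 < ρ (Set.Ici b) := by
  by_contra hcon
  push Not at hcon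
  have h1 : ∀ a b : ℝ, a < b → 0 < ρ (Set.Iic a) → ρ (Set.Ici b) = 0 := fun a b hab ha =>
    le_antisymm (hcon a b hab ha) zero_le
  obtain ⟨S, hS⟩ : ∃ S : Set ℝ, S = {x | 0 < ρ (Set.Iic x)} := ⟨_, rfl⟩
  have hne : S.Nonempty := by
    have h2 : Tendsto (fun n : ℕ => ρ (Set.Iic (n : ℝ))) atTop (𝓝 (ρ Set.univ)) := by
      have h3 : (⋃ n : ℕ, Set.Iic (n : ℝ)) = Set.univ := by
        ext x
        simp only [Set.mem_iUnion, Set.mem_Iic, Set.mem_univ, iff_true]
        exact exists_nat_ge x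
      rw [← h3]
      exact tendsto_measure_iUnion_atTop fun m n hmn => Set.Iic_subset_Iic.2 (by exact_mod_cast hmn)
    rw [measure_univ] at h2
    obtain ⟨n, hn⟩ := ((tendsto_order.1 h2).1 0 (by norm_num)).exists
    exact ⟨n, by rw [hS]; exact hn⟩
  have hbd : BddBelow S := by
    have h2 : Tendsto (fun n : ℕ => ρ (Set.Iic (-(n : ℝ)))) atTop (𝓝 0) := by
      have h3 : (⋂ n : ℕ, Set.Iic (-(n : ℝ))) = ∅ := by
        ext x
        simp only [Set.mem_iInter, Set.mem_Iic, Set.mem_empty_iff_false, iff_false, not_forall,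
          not_le]
        obtain ⟨n, hn⟩ := exists_nat_gt (-x)
        exact ⟨n, by linarith⟩
      have h4 := tendsto_measure_iInter_atTop (μ := ρ) (s := fun n : ℕ => Set.Iic (-(n : ℝ)))
        (fun n => measurableSet_Iic.nullMeasurableSet)
        (fun m n hmn => Set.Iic_subset_Iic.2 (neg_le_neg (by exact_mod_cast hmn)))
        ⟨0, measure_ne_top _ _⟩
      rw [h3, measure_empty] at h4
      exact h4
    by_contra hnb
    have h5 : ∀ x : ℝ, 0 < ρ (Set.Iic x) := by
      intro x
      rw [not_bddBelow_iff] at hnb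
      obtain ⟨y, hy, hyx⟩ := hnb x
      rw [hS] at hy
      exact lt_of_lt_of_le hy (measure_mono (Set.Iic_subset_Iic.2 hyx.le))
    have h6 : ∀ b : ℝ, ρ (Set.Ici b) = 0 := fun b => h1 (b - 1) b (by linarith) (h5 _)
    have h7 : ∀ n : ℕ, ρ (Set.Iic (-(n : ℝ))) = 1 := by
      intro n
      have h8 : (Set.Iic (-(n : ℝ)))ᶜ ⊆ Set.Ici (-(n : ℝ)) := fun y hy => by
        simp only [Set.mem_compl_iff, Set.mem_Iic, not_le] at hy
        exact hy.le
      have h9 : ρ (Set.Iic (-(n : ℝ)))ᶜ = 0 := measure_mono_null h8 (h6 _)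
      rw [prob_compl_eq_zero_iff measurableSet_Iic] at h9
      exact h9
    simp only [h7] at h2
    have := tendsto_nhds_unique h2 tendsto_const_nhds
    norm_num at this
  obtain ⟨m, hm⟩ : ∃ m, m = sInf S := ⟨_, rfl⟩
  have hlt : ∀ x, x < m → ρ (Set.Iic x) = 0 := by
    intro x hx
    by_contra h2
    have : x ∈ S := by rw [hS]; exact pos_iff_ne_zero.2 h2
    have := csInf_le hbd this
    rw [← hm] at this
    linarith
  have hgt : ∀ x, m < x → ρ (Set.Ici x) = 0 := by
    intro x hx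
    rw [hm] at hx
    obtain ⟨a, ha, hax⟩ := exists_lt_of_csInf_lt hne hx
    rw [hS] at ha
    exact h1 a x hax ha
  have hlo : ρ (Set.Iio m) = 0 := by
    have : Set.Iio m ⊆ ⋃ n : ℕ, Set.Iic (m - 1 / ((n : ℝ) + 1)) := by
      intro x hx
      have hx' : 0 < m - x := by have : x < m := hx; linarith
      obtain ⟨n, hn⟩ := exists_nat_one_div_lt hx'
      exact Set.mem_iUnion.2 ⟨n, by show x ≤ _; linarith⟩
    refine measure_mono_null this (measure_iUnion_null fun n => hlt _ ?_)
    have : 0 < 1 / ((n : ℝ) + 1) := by positivity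
    linarith
  have hhi : ρ (Set.Ioi m) = 0 := by
    have : Set.Ioi m ⊆ ⋃ n : ℕ, Set.Ici (m + 1 / ((n : ℝ) + 1)) := by
      intro x hx
      have hx' : 0 < x - m := by have : m < x := hx; linarith
      obtain ⟨n, hn⟩ := exists_nat_one_div_lt hx'
      exact Set.mem_iUnion.2 ⟨n, by show _ ≤ x; linarith⟩
    refine measure_mono_null this (measure_iUnion_null fun n => hgt _ ?_)
    have : 0 < 1 / ((n : ℝ) + 1) := by positivity
    linarith
  have hc : ρ {m}ᶜ = 0 := by
    have : ({m}ᶜ : Set ℝ) ⊆ Set.Iio m ∪ Set.Ioi m := by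
      intro x hx
      rcases lt_or_gt_of_ne (show x ≠ m from hx) with h | h
      · exact Or.inl h
      · exact Or.inr h
    exact measure_mono_null this (measure_union_null hlo hhi)
  rw [prob_compl_eq_zero_iff (measurableSet_singleton m)] at hc
  exact hnc m hc

/-- The sets of the one site calculus. -/
lemma lh73 (hnc : ∀ c : ℝ, ρ {c} ≠ 1) : ∃ (c R : ℝ) (L H : Set ℝ), LHs ρ c R L H := by
  obtain ⟨a, b, hab, ha, hb⟩ := two73 hnc
  have e1 : ∃ n : ℕ, 0 < ρ (Set.Icc (-(n : ℝ)) a) := by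
    by_contra hcon
    push Not at hcon
    have : Set.Iic a ⊆ ⋃ n : ℕ, Set.Icc (-(n : ℝ)) a := by
      intro x hx
      obtain ⟨n, hn⟩ := exists_nat_ge (-x)
      exact Set.mem_iUnion.2 ⟨n, by linarith, hx⟩
    have h2 := measure_mono_null this (measure_iUnion_null fun n => le_antisymm (hcon n) zero_le)
    exact ha.ne' h2
  have e2 : ∃ n : ℕ, 0 < ρ (Set.Icc b (n : ℝ)) := by
    by_contra hcon
    push Not at hcon
    have : Set.Ici b ⊆ ⋃ n : ℕ, Set.Icc b (n : ℝ) := by
      intro x hx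
      obtain ⟨n, hn⟩ := exists_nat_ge x
      exact Set.mem_iUnion.2 ⟨n, hx, hn⟩
    have h2 := measure_mono_null this (measure_iUnion_null fun n => le_antisymm (hcon n) zero_le)
    exact hb.ne' h2
  obtain ⟨n, hn⟩ := e1
  obtain ⟨k, hk⟩ := e2
  have hn' : 0 < ρ.real (Set.Icc (-(n : ℝ)) a) := ENNReal.toReal_pos hn.ne' (measure_ne_top _ _)
  have hk' : 0 < ρ.real (Set.Icc b (k : ℝ)) := ENNReal.toReal_pos hk.ne' (measure_ne_top _ _)
  refine ⟨min (min (ρ.real (Set.Icc (-(n : ℝ)) a)) (ρ.real (Set.Icc b (k : ℝ)))) (b - a),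
    (n : ℝ) + k + |a| + |b|, Set.Icc (-(n : ℝ)) a, Set.Icc b (k : ℝ), ?_⟩
  have hn0 : (0 : ℝ) ≤ n := Nat.cast_nonneg n
  have hk0 : (0 : ℝ) ≤ k := Nat.cast_nonneg k
  refine ⟨lt_min (lt_min hn' hk') (by linarith), measurableSet_Icc, measurableSet_Icc,
    (min_le_left _ _).trans (min_le_left _ _), (min_le_left _ _).trans (min_le_right _ _),
    fun l hl h hh => (min_le_right _ _).trans (by linarith [hl.2, hh.1]), fun l hl => ?_,
    fun h hh => ?_⟩
  · rw [abs_le]
    constructor
    · linarith [hl.1, abs_nonneg a, abs_nonneg b]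
    · linarith [hl.2, le_abs_self a, abs_nonneg b]
  · rw [abs_le]
    constructor
    · linarith [hh.1, abs_nonneg a, neg_abs_le b]
    · linarith [hh.2, abs_nonneg a, abs_nonneg b]

omit [IsProbabilityMeasure ρ] in
lemma em_abs73 (hρ : EM ρ) {a : ℝ} (_ha : 0 ≤ a) : Integrable (fun z => Real.exp (a * |z|)) ρ := by
  refine Integrable.mono' ((hρ a).add (hρ (-a)))
    (by fun_prop : Measurable fun z : ℝ => Real.exp (a * |z|)).aestronglyMeasurable
    (Eventually.of_forall fun z => ?_)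
  rw [Real.norm_eq_abs, abs_of_pos (Real.exp_pos _)]
  show _ ≤ Real.exp (a * z) + Real.exp (-a * z)
  rcases abs_cases z with h | h
  · rw [h.1]
    linarith [Real.exp_pos (-a * z)]
  · rw [h.1, show a * -z = -a * z by ring]
    linarith [Real.exp_pos (a * z)]

lemma em_neg73 {a : ℝ} (ha : 0 ≤ a) : Integrable (fun z => Real.exp (-(a * |z|))) ρ := by
  refine Integrable.of_bound
    (by fun_prop : Measurable fun z : ℝ => Real.exp (-(a * |z|))).aestronglyMeasurable 1
    (Eventually.of_forall fun z => ?_)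
  rw [Real.norm_eq_abs, abs_of_pos (Real.exp_pos _), Real.exp_le_one_iff]
  have := mul_nonneg ha (abs_nonneg z)
  linarith

lemma em_neg_pos73 {a : ℝ} (ha : 0 ≤ a) : 0 < ∫ z, Real.exp (-(a * |z|)) ∂ρ := by
  rw [integral_pos_iff_support_of_nonneg (fun y => (Real.exp_pos _).le) (em_neg73 ha)]
  have : Function.support (fun z : ℝ => Real.exp (-(a * |z|))) = Set.univ := by
    ext y
    simp
  rw [this]
  simp

/-- Harnack constants: `F w' ≤ exp (a |w' - w|) F w`. -/
lemma har73 (hρ : EM ρ) {a : ℝ} (ha : 0 ≤ a) {F : ℝ → ℝ} (hF : Integrable F ρ)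
    (h : ∀ w w', F w' ≤ Real.exp (a * |w' - w|) * F w) (h0 : ∀ w, 0 ≤ F w) (w : ℝ) :
    (∫ z, F z ∂ρ) ≤ (∫ z, Real.exp (a * |z|) ∂ρ) * Real.exp (a * |w|) * F w ∧
      F w * (∫ z, Real.exp (-(a * |z|)) ∂ρ) ≤ Real.exp (a * |w|) * ∫ z, F z ∂ρ := by
  have h1 : ∀ z w : ℝ, F z ≤ Real.exp (a * |z|) * (Real.exp (a * |w|) * F w) := by
    intro z w
    refine (h w z).trans ?_
    rw [← mul_assoc, ← Real.exp_add]
    refine mul_le_mul_of_nonneg_right (Real.exp_le_exp.2 ?_) (h0 w)
    have := abs_sub z w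
    nlinarith
  constructor
  · have h2 := integral_mono hF ((em_abs73 hρ ha).mul_const (Real.exp (a * |w|) * F w))
      (fun z => h1 z w)
    rw [integral_mul_const] at h2
    calc _ ≤ _ := h2
      _ = _ := by ring
  · have h2 : ∀ z, F w * Real.exp (-(a * |z|)) ≤ Real.exp (a * |w|) * F z := by
      intro z
      have h3 := h1 w z
      have h4 := mul_le_mul_of_nonneg_right h3 (Real.exp_pos (-(a * |z|))).le
      refine h4.trans (le_of_eq ?_)
      have : Real.exp (a * |z|) * Real.exp (-(a * |z|)) = 1 := by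
        rw [← Real.exp_add]
        simp
      calc Real.exp (a * |w|) * (Real.exp (a * |z|) * F z) * Real.exp (-(a * |z|)) =
            Real.exp (a * |w|) * F z * (Real.exp (a * |z|) * Real.exp (-(a * |z|))) := by ring
        _ = _ := by rw [this, mul_one]
    have h3 := integral_mono ((em_neg73 (ρ := ρ) ha).const_mul (F w))
      (hF.const_mul (Real.exp (a * |w|))) h2
    rwa [integral_const_mul, integral_const_mul] at h3

/-- ConP. -/
theorem conP73 (hρ : EM ρ) (hnc : ∀ c : ℝ, ρ {c} ≠ 1) (hβ : 0 < β) : ConP ρ β := by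
  obtain ⟨c0, R, L, H, hL⟩ := lh73 hnc
  obtain ⟨M1, hM1⟩ : ∃ M, M = ∫ z, Real.exp (β * |z|) ∂ρ := ⟨_, rfl⟩
  obtain ⟨M2, hM2⟩ : ∃ M, M = ∫ z, Real.exp (2 * β * |z|) ∂ρ := ⟨_, rfl⟩
  obtain ⟨M5, hM5⟩ : ∃ M, M = ∫ z, Real.exp (5 * β * |z|) ∂ρ := ⟨_, rfl⟩
  obtain ⟨m1, hm1⟩ : ∃ M, M = ∫ z, Real.exp (-(β * |z|)) ∂ρ := ⟨_, rfl⟩
  obtain ⟨m2, hm2⟩ : ∃ M, M = ∫ z, Real.exp (-(2 * β * |z|)) ∂ρ := ⟨_, rfl⟩
  have hm1p : 0 < m1 := by rw [hm1]; exact em_neg_pos73 hβ.le
  have hm2p : 0 < m2 := by rw [hm2]; exact em_neg_pos73 (by positivity)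
  have hone : ∀ a : ℝ, 0 ≤ a → 1 ≤ ∫ z, Real.exp (a * |z|) ∂ρ := by
    intro a ha
    have := integral_mono (integrable_const (1 : ℝ)) (em_abs73 hρ ha) fun z => by
      show (1 : ℝ) ≤ Real.exp (a * |z|)
      rw [Real.one_le_exp_iff]
      positivity
    simpa using this
  have hM1p : 1 ≤ M1 := by rw [hM1]; exact hone β hβ.le
  have hM2p : 1 ≤ M2 := by rw [hM2]; exact hone (2 * β) (by positivity)
  have hM5p : 1 ≤ M5 := by rw [hM5]; exact hone (5 * β) (by positivity)
  obtain ⟨C, hC⟩ : ∃ C, C = 1 + M5 / m2 + M1 / m2 + Real.exp (β * R) / m1 + 7 * β := ⟨_, rfl⟩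
  have q1 : 0 ≤ M5 / m2 := by positivity
  have q2 : 0 ≤ M1 / m2 := by positivity
  have q3 : 0 ≤ Real.exp (β * R) / m1 := by positivity
  obtain ⟨c, hc⟩ : ∃ c, c = min c0 (min (1 / (M2 * Real.exp (2 * β * R)))
    (β * c0 / (M2 * Real.exp (4 * β * R)))) := ⟨_, rfl⟩
  have hc0 := hL.c0
  have hcp : 0 < c := by
    rw [hc]
    refine lt_min hc0 (lt_min (by positivity) (by positivity))
  have hcc0 : c ≤ c0 := by rw [hc]; exact min_le_left _ _
  have hc1 : c ≤ 1 / (M2 * Real.exp (2 * β * R)) := by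
    rw [hc]; exact (min_le_right _ _).trans (min_le_left _ _)
  have hc2 : c ≤ β * c0 / (M2 * Real.exp (4 * β * R)) := by
    rw [hc]; exact (min_le_right _ _).trans (min_le_right _ _)
  refine ⟨c, R, C, L, H, ⟨hcp, hL.mL, hL.mH, hcc0.trans hL.L0, hcc0.trans hL.H0,
    fun l hl h hh => hcc0.trans (hL.sep l hl h hh), hL.bL, hL.bH⟩, by rw [hC]; linarith, ?_⟩
  intro l σ G K hl hl1 hσ S
  obtain ⟨CG, hCG⟩ := S.bddG
  have iG : Integrable G ρ := Integrable.of_bound S.measG.aestronglyMeasurable CG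
    (Eventually.of_forall fun w => by
      rw [Real.norm_eq_abs, abs_of_pos (S.G0 w)]; exact hCG w)
  have iK : Integrable K ρ := iG.mono' S.measK.aestronglyMeasurable
    (Eventually.of_forall fun w => by
      rw [Real.norm_eq_abs, abs_of_nonneg (S.K0 w)]; exact S.KG w)
  obtain ⟨Gb, hGb⟩ : ∃ g, g = ∫ z, G z ∂ρ := ⟨_, rfl⟩
  obtain ⟨Kb, hKb⟩ : ∃ g, g = ∫ z, K z ∂ρ := ⟨_, rfl⟩
  have hG := har73 hρ hβ.le iG S.rG fun w => (S.G0 w).le
  have hK := har73 hρ (by positivity : 0 ≤ 2 * β) iK S.rK S.K0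
  rw [← hM1, ← hm1, ← hGb] at hG
  rw [← hM2, ← hm2, ← hKb] at hK
  rw [← hGb, ← hKb]
  have hGbp : 0 < Gb := by
    rw [hGb, integral_pos_iff_support_of_nonneg (fun y => (S.G0 y).le) iG]
    have : Function.support G = Set.univ := by
      ext y
      simp [(S.G0 y).ne']
    rw [this]
    simp
  have hKbp : 0 ≤ Kb := by rw [hKb]; exact integral_nonneg S.K0
  have hπ : 0 ≤ Kb / Gb := by positivity
  -- the increments
  have hinc : ∀ w z, |G w - G z| ≤ Real.exp (5 * β * |z|) * (l * Real.exp (5 * β * |w|) * K w) := by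
    have hσa : ∀ x : ℝ, |x| = |σ * x| := by
      intro x
      rcases hσ with h | h <;> simp [h]
    have key : ∀ u v : ℝ, u ≤ v → |G v - G u| ≤ l * (β * (v - u)) * Real.exp (2 * β * (v - u)) * K u := by
      intro u v huv
      have h1 := S.lo u v huv
      have h2 := S.up u v huv
      have h3 : 0 ≤ l * β * (v - u) * Real.exp (-(β * (v - u))) * K u :=
        mul_nonneg (mul_nonneg (mul_nonneg (by positivity) (by linarith)) (Real.exp_pos _).le)
          (S.K0 u)
      rw [hσa, abs_of_nonneg (h3.trans h1)]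
      calc _ ≤ _ := h2
        _ = _ := by ring
    have hx : ∀ D : ℝ, 0 ≤ D → β * D ≤ Real.exp (β * D) := fun D _ => by
      linarith [Real.add_one_le_exp (β * D)]
    have hfin : ∀ w z : ℝ, Real.exp (5 * β * |w - z|) * (l * K w) ≤
        Real.exp (5 * β * |z|) * (l * Real.exp (5 * β * |w|) * K w) := by
      intro w z
      have h1 : Real.exp (5 * β * |w - z|) ≤ Real.exp (5 * β * |z|) * Real.exp (5 * β * |w|) := by
        rw [← Real.exp_add]
        refine Real.exp_le_exp.2 ?_
        have := abs_sub w z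
        nlinarith
      calc _ ≤ (Real.exp (5 * β * |z|) * Real.exp (5 * β * |w|)) * (l * K w) :=
            mul_le_mul_of_nonneg_right h1 (mul_nonneg hl.le (S.K0 w))
        _ = _ := by ring
    intro w z
    refine le_trans ?_ (hfin w z)
    rcases le_total w z with h | h
    · rw [abs_sub_comm, abs_sub_comm w z, abs_of_nonneg (by linarith : 0 ≤ z - w)]
      refine (key w z h).trans ?_
      have hD : 0 ≤ z - w := by linarith
      have h2 : β * (z - w) * Real.exp (2 * β * (z - w)) ≤ Real.exp (5 * β * (z - w)) := by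
        calc _ ≤ Real.exp (β * (z - w)) * Real.exp (2 * β * (z - w)) :=
              mul_le_mul_of_nonneg_right (hx _ hD) (Real.exp_pos _).le
          _ = Real.exp (3 * β * (z - w)) := by rw [← Real.exp_add]; congr 1; ring
          _ ≤ _ := Real.exp_le_exp.2 (by nlinarith)
      calc _ = (β * (z - w) * Real.exp (2 * β * (z - w))) * (l * K w) := by ring
        _ ≤ _ := mul_le_mul_of_nonneg_right h2 (mul_nonneg hl.le (S.K0 w))
    · rw [abs_of_nonneg (by linarith : 0 ≤ w - z)]
      refine (key z w h).trans ?_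
      have hD : 0 ≤ w - z := by linarith
      have h3 := S.rK w z
      rw [abs_sub_comm, abs_of_nonneg hD] at h3
      have h2 : β * (w - z) * Real.exp (2 * β * (w - z)) * Real.exp (2 * β * (w - z)) ≤
          Real.exp (5 * β * (w - z)) := by
        calc _ ≤ Real.exp (β * (w - z)) * Real.exp (2 * β * (w - z)) *
              Real.exp (2 * β * (w - z)) :=
              mul_le_mul_of_nonneg_right (mul_le_mul_of_nonneg_right (hx _ hD)
                (Real.exp_pos _).le) (Real.exp_pos _).le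
          _ = Real.exp (5 * β * (w - z)) := by rw [← Real.exp_add, ← Real.exp_add]; congr 1; ring
      calc _ ≤ l * (β * (w - z)) * Real.exp (2 * β * (w - z)) *
            (Real.exp (2 * β * (w - z)) * K w) :=
            mul_le_mul_of_nonneg_left h3 (mul_nonneg (mul_nonneg hl.le
              (mul_nonneg hβ.le hD)) (Real.exp_pos _).le)
        _ = (β * (w - z) * Real.exp (2 * β * (w - z)) * Real.exp (2 * β * (w - z))) *
            (l * K w) := by ring
        _ ≤ _ := mul_le_mul_of_nonneg_right h2 (mul_nonneg hl.le (S.K0 w))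
  have hpt : ∀ w, |G w - Gb| ≤ M5 * (l * Real.exp (5 * β * |w|) * K w) := by
    intro w
    have h1 : G w - Gb = ∫ z, (G w - G z) ∂ρ := by
      rw [integral_sub (integrable_const _) iG, ← hGb]
      simp
    rw [h1, ← Real.norm_eq_abs, hM5, ← integral_mul_const]
    exact norm_integral_le_of_norm_le ((em_abs73 hρ (by positivity : 0 ≤ 5 * β)).mul_const _)
      (Eventually.of_forall fun z => by rw [Real.norm_eq_abs]; exact hinc w z)
  have hKw : ∀ w, K w ≤ Real.exp (2 * β * |w|) * Kb / m2 := fun w => by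
    rw [le_div_iff₀ hm2p]
    exact (hK w).2
  have hKL : ∀ w ∈ L, Kb / (M2 * Real.exp (2 * β * R)) ≤ K w := by
    intro w hw
    have h1 := (hK w).1
    have h2 : Real.exp (2 * β * |w|) ≤ Real.exp (2 * β * R) :=
      Real.exp_le_exp.2 (mul_le_mul_of_nonneg_left (hL.bL w hw) (by positivity))
    rw [div_le_iff₀ (by positivity)]
    calc Kb ≤ M2 * Real.exp (2 * β * |w|) * K w := h1
      _ ≤ M2 * Real.exp (2 * β * R) * K w :=
          mul_le_mul_of_nonneg_right (mul_le_mul_of_nonneg_left h2 (by linarith)) (S.K0 w)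
      _ = _ := by ring
  have hexp : ∀ (w : ℝ) (a : ℝ), a ≤ C → Real.exp (a * |w|) ≤ Real.exp (C * |w|) := fun w a ha =>
    Real.exp_le_exp.2 (mul_le_mul_of_nonneg_right ha (abs_nonneg w))
  refine ⟨fun w => ?_, fun w => ?_, fun w hw => ?_, fun w hw w' hw' => ?_, fun w hw => ?_⟩
  · have h1 : G w / Gb - 1 = (G w - Gb) / Gb := by field_simp
    rw [h1, abs_div, abs_of_pos hGbp, ← mul_div_assoc]
    refine div_le_div_of_nonneg_right ?_ hGbp.le
    refine (hpt w).trans ?_
    calc M5 * (l * Real.exp (5 * β * |w|) * K w) ≤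
          M5 * (l * Real.exp (5 * β * |w|) * (Real.exp (2 * β * |w|) * Kb / m2)) :=
          mul_le_mul_of_nonneg_left (mul_le_mul_of_nonneg_left (hKw w) (by positivity))
            (by linarith)
      _ = l * (M5 / m2) * (Real.exp (5 * β * |w|) * Real.exp (2 * β * |w|)) * Kb := by ring
      _ = l * (M5 / m2) * Real.exp (7 * β * |w|) * Kb := by
          rw [← Real.exp_add]; congr 3; ring
      _ ≤ l * C * Real.exp (C * |w|) * Kb := by
          refine mul_le_mul_of_nonneg_right ?_ hKbp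
          refine mul_le_mul ?_ (hexp w _ (by rw [hC]; linarith)) (Real.exp_pos _).le
            (by rw [hC]; positivity)
          exact mul_le_mul_of_nonneg_left (by rw [hC]; linarith) hl.le
  · have hGw := S.G0 w
    rw [div_le_iff₀ hGw]
    have h1 : 1 ≤ M1 * Real.exp (β * |w|) * G w / Gb := by
      rw [le_div_iff₀ hGbp, one_mul]
      exact (hG w).1
    calc K w ≤ Real.exp (2 * β * |w|) * Kb / m2 := hKw w
      _ ≤ Real.exp (2 * β * |w|) * Kb / m2 * (M1 * Real.exp (β * |w|) * G w / Gb) :=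
          le_mul_of_one_le_right (by positivity) h1
      _ = (M1 / m2) * (Real.exp (2 * β * |w|) * Real.exp (β * |w|)) * (Kb / Gb) * G w := by
          field_simp
      _ = (M1 / m2) * Real.exp (3 * β * |w|) * (Kb / Gb) * G w := by
          rw [← Real.exp_add]; congr 4; ring
      _ ≤ C * Real.exp (C * |w|) * (Kb / Gb) * G w := by
          refine mul_le_mul_of_nonneg_right (mul_le_mul_of_nonneg_right ?_ hπ) hGw.le
          refine mul_le_mul (by rw [hC]; linarith) (hexp w _ (by rw [hC]; linarith))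
            (Real.exp_pos _).le (by rw [hC]; positivity)
  · rw [← mul_div_assoc]
    refine div_le_div_of_nonneg_right ?_ hGbp.le
    refine le_trans ?_ (hKL w hw)
    calc c * Kb ≤ 1 / (M2 * Real.exp (2 * β * R)) * Kb := mul_le_mul_of_nonneg_right hc1 hKbp
      _ = _ := by ring
  · have h1 : σ * (G w' / Gb - G w / Gb) = σ * (G w' - G w) / Gb := by ring
    rw [h1, ← mul_div_assoc]
    refine div_le_div_of_nonneg_right ?_ hGbp.le
    have hsep := hL.sep w hw w' hw'
    have hww : w ≤ w' := by linarith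
    have h2 := S.lo w w' hww
    refine le_trans ?_ h2
    have h3 : w' - w ≤ 2 * R := by
      have := (abs_le.1 (hL.bL w hw)).1
      have := (abs_le.1 (hL.bH w' hw')).2
      linarith
    have h4 : Real.exp (-(2 * β * R)) ≤ Real.exp (-(β * (w' - w))) :=
      Real.exp_le_exp.2 (by nlinarith)
    have h5 := hKL w hw
    have h6 : 0 ≤ Kb / (M2 * Real.exp (2 * β * R)) := by positivity
    calc c * l * Kb ≤ β * c0 / (M2 * Real.exp (4 * β * R)) * l * Kb :=
          mul_le_mul_of_nonneg_right (mul_le_mul_of_nonneg_right hc2 hl.le) hKbp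
      _ = l * β * c0 * Real.exp (-(2 * β * R)) * (Kb / (M2 * Real.exp (2 * β * R))) := by
          have e1 : Real.exp (4 * β * R) = Real.exp (2 * β * R) * Real.exp (2 * β * R) := by
            rw [← Real.exp_add]; congr 1; ring
          rw [e1, Real.exp_neg]
          field_simp
      _ ≤ l * β * (w' - w) * Real.exp (-(β * (w' - w))) * K w := by
          refine mul_le_mul (mul_le_mul (mul_le_mul_of_nonneg_left hsep (by positivity)) h4
            (Real.exp_pos _).le (mul_nonneg (by positivity) (by linarith))) h5 h6 ?_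
          exact mul_nonneg (mul_nonneg (by positivity) (by linarith)) (Real.exp_pos _).le
  · have h1 := (hG w).2
    have hwR : |w| ≤ R := by
      rcases hw with h | h
      · exact hL.bL w h
      · exact hL.bH w h
    rw [div_le_iff₀ hGbp]
    have h2 : G w ≤ Real.exp (β * |w|) * Gb / m1 := by
      rw [le_div_iff₀ hm1p]
      exact h1
    have h3 : Real.exp (β * |w|) ≤ Real.exp (β * R) :=
      Real.exp_le_exp.2 (mul_le_mul_of_nonneg_left hwR hβ.le)
    calc G w ≤ Real.exp (β * |w|) * Gb / m1 := h2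
      _ = Real.exp (β * |w|) * (Gb / m1) := by ring
      _ ≤ Real.exp (β * R) * (Gb / m1) := mul_le_mul_of_nonneg_right h3 (by positivity)
      _ = Real.exp (β * R) / m1 * Gb := by ring
      _ ≤ C * Gb := mul_le_mul_of_nonneg_right (by rw [hC]; linarith) hGbp.le

end Pool.Agent.W_7d29a1_AM
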