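import Pool.Agent.W_7d29a1_AM.LemGb66

/-!
Amplification for every law, leaf A5 (the upgrade): induction on the number of sites.
-/

namespace Pool.Agent.W_7d29a1_AM

open MeasureTheory ProbabilityTheory Filter Topology Pool.Agent.W_MP_7d29a1_pr
  Pool.Agent.W_7d29a1_h46 Pool.Agent.W_7d29a1_h46u

variable {ρ : Measure ℝ} [IsProbabilityMeasure ρ] {β : ℝ}

/-- **Leaf A5.** -/
theorem lemG66 (hρ : EM ρ) (hβ : 0 < β) (hW : WtP) (hS : SiteP ρ β) (hC : ConP ρ β) :
    LemG ρ β := by
  obtain ⟨c₀, R, C₁, L, H, hLH, -, hcon⟩ := hC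
  have hc₀ := hLH.c0
  refine ⟨β * c₀ ^ 3, 11 / 4 * (1 / c₀) ^ 4, by positivity, by positivity,
    fun l B hl hl1 hB => ?_⟩
  obtain ⟨C, hC⟩ : ∃ C : ℝ, C = 11 / 4 * (1 / c₀) ^ 4 := ⟨_, rfl⟩
  have hC0 : 0 ≤ C := by
    rw [hC]
    positivity
  rw [← hC]
  have hw := (hW l B hl hl1 hB).1
  obtain ⟨f, hf⟩ : ∃ f : ℝ → ℝ, f = fP l B := ⟨_, rfl⟩
  obtain ⟨x, hx⟩ : ∃ x : ℝ → ℝ, x = chi B := ⟨_, rfl⟩
  have hfle : ∀ v, f v ≤ Real.exp (l * B) := by
    intro v
    rw [hf]
    exact fP_le66 hl B v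
  rw [← hf, ← hx] at hw ⊢
  intro N
  induction N with
  | zero =>
    intro V p Y e θ x₀ v hV hY hY0 hYM he he0 heM hcp hθ0 hθ1 hx0 hv
    obtain ⟨y0, hy0⟩ : ∃ y0 : Fin 0 → ℝ, y0 = fun i => i.elim0 := ⟨_, rfl⟩
    have e1 : Ef ρ f V e = e y0 := by
      unfold Ef gf
      rw [int_zero _ y0, int_zero _ y0]
      exact mul_div_cancel_right₀ _ (hw.pos _).ne'
    have e2 : Ns ρ f x 0 V p v = 0 := rfl
    have e3 : gf ρ f V = f (V y0) := by
      unfold gf
      rw [int_zero _ y0]
    have e4 : ∫ y, (max (Y y - x₀) 0) ^ (4 / 3 : ℝ) ∂PN ρ 0 =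
        (max (Y y0 - x₀) 0) ^ (4 / 3 : ℝ) := int_zero _ y0
    rw [e1, e2, e3, e4, rpow43_66 (le_max_right _ _), mul_zero, add_zero]
    have h1 : e y0 ≤ Y y0 := by simpa using hcp y0 y0 fun i => i.elim0
    have h2 : 1 ≤ Real.exp (l * B) / f (V y0) := (one_le_div (hw.pos _)).2 (hfle _)
    have h3 : 1 ≤ Real.exp (C * θ ^ 2 * v) := Real.one_le_exp (by positivity)
    have h4 : 1 ≤ Real.exp (l * B) / f (V y0) * Real.exp (C * θ ^ 2 * v) := by nlinarith
    have h5 : Y y0 - x₀ ≤ max (Y y0 - x₀) 0 := le_max_left _ _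
    have h6 : 0 ≤ max (Y y0 - x₀) 0 := le_max_right _ _
    nlinarith
  | succ N ih =>
    intro V p Y e θ x₀ v hV hY hY0 hYM he he0 heM hcp hθ0 hθ1 hx0 hv
    obtain ⟨MY, hMY⟩ := hYM
    obtain ⟨Me, hMe⟩ := heM
    have hMe0 : 0 ≤ Me := (he0 fun _ => 0).trans (hMe _)
    have hMY0 : 0 ≤ MY := by
      have h1 := (hY0 fun _ => 0).trans (hMY fun _ => 0)
      simpa using h1
    have hexp0 : 0 < Real.exp (l * B) := Real.exp_pos _
    have hgb : 0 < gf ρ f V := gf_pos hw hV
    -- the moment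
    have hZi := gint66 hρ hY hY0 hMY hx0
    have hZm : Measurable fun y => (max (Y y - x₀) 0) ^ (4 / 3 : ℝ) :=
      ((hY.sub_const x₀).max measurable_const).pow_const _
    have hS0 : 0 ≤ (∫ y, (max (Y y - x₀) 0) ^ (4 / 3 : ℝ) ∂PN ρ (N + 1)) ^ (3 / 4 : ℝ) :=
      Real.rpow_nonneg (integral_nonneg fun y => Real.rpow_nonneg (le_max_right _ _) _) _
    have hfb : ∀ v', 0 < f v' := hw.pos
    have heint : Integrable (fun y => e y * f (V y)) (PN ρ (N + 1)) :=
      int_Ff hw hV he (M := Me * Real.exp (l * B)) fun y => by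
        rw [abs_of_nonneg (mul_nonneg (he0 y) (hfb _).le)]
        exact mul_le_mul (hMe y) (hfle _) (hfb _).le hMe0
    by_cases hπ : pif ρ f x V p ^ 2 ≤ v
    · obtain ⟨π, hπd⟩ : ∃ π : ℝ, π = pif ρ f x V p := ⟨_, rfl⟩
      have hπ0 : 0 ≤ π := by
        rw [hπd]
        exact pif0 hw hV
      have hπ1 : π ≤ 1 := by
        rw [hπd]
        exact pif1 hw hV
      have eNs : Ns ρ f x (N + 1) V p v = π ^ 2 +
          ∫ w, rf ρ f V w * Ns ρ f x N (fx V w) (fq p w) (v - π ^ 2) ∂ρ := by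
        simp only [Ns]
        rw [if_pos hπ, hπd]
      rw [← hπd] at hπ
      have hv' : 0 ≤ v - π ^ 2 := by linarith
      -- the pieces
      obtain ⟨s, hs⟩ : ∃ s : ℝ → ℝ, s = fun w => (∫ y, (max (fx Y w y - x₀) 0) ^ (4 / 3 : ℝ)
        ∂PN ρ N) ^ (3 / 4 : ℝ) := ⟨_, rfl⟩
      have hs0 : ∀ w, 0 ≤ s w := by
        intro w
        rw [hs]
        exact Real.rpow_nonneg (integral_nonneg fun y => Real.rpow_nonneg (le_max_right _ _) _) _
      have hs43 : ∀ w, s w ^ (4 / 3 : ℝ) = ∫ y, (max (fx Y w y - x₀) 0) ^ (4 / 3 : ℝ)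
          ∂PN ρ N := by
        intro w
        rw [hs]
        exact rpow34_66 (integral_nonneg fun y => Real.rpow_nonneg (le_max_right _ _) _)
      have hZc : Integrable (fun z : ℝ × (Fin N → ℝ) =>
          (max (Y (Fin.cons z.1 z.2) - x₀) 0) ^ (4 / 3 : ℝ)) (ρ.prod (PN ρ N)) :=
        (mp_cons (ρ := ρ) (N := N)).integrable_comp_of_integrable hZi
      have hsi : Integrable (fun w => s w ^ (4 / 3 : ℝ)) ρ := by
        refine hZc.integral_prod_left.congr (Eventually.of_forall fun w => ?_)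
        exact (hs43 w).symm
      have hsm : Measurable s := by
        rw [hs]
        have h1 : Measurable fun z : ℝ × (Fin N → ℝ) =>
            (max (Y (Fin.cons z.1 z.2) - x₀) 0) ^ (4 / 3 : ℝ) := meas_cons2 hZm
        have h2 := (h1.stronglyMeasurable.integral_prod_right' (ν := PN ρ N)).measurable
        exact h2.pow_const _
      have hsS : ∫ w, s w ^ (4 / 3 : ℝ) ∂ρ =
          ∫ y, (max (Y y - x₀) 0) ^ (4 / 3 : ℝ) ∂PN ρ (N + 1) := by
        rw [peel hZi]
        exact integral_congr_ae (Eventually.of_forall fun w => hs43 w)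
      obtain ⟨E, hE⟩ : ∃ E : ℝ → ℝ, E = fun w => Ef ρ f (fx V w) (fx e w) := ⟨_, rfl⟩
      obtain ⟨T, hT⟩ : ∃ T : ℝ → ℝ, T = fun w => Ns ρ f x N (fx V w) (fq p w) (v - π ^ 2) :=
        ⟨_, rfl⟩
      obtain ⟨K, hK⟩ : ∃ K : ℝ → ℝ, K = Kf ρ f x V p := ⟨_, rfl⟩
      have hGpos : ∀ w, 0 < gf ρ f (fx V w) := fun w => gf_pos hw (cls_fx hV w)
      have hrf0 : ∀ w, 0 ≤ rf ρ f V w := rf_nonneg hw hV
      obtain ⟨κ, hκ⟩ : ∃ κ : ℝ, κ = Real.exp (l * B) / gf ρ f V *
        Real.exp (C * θ ^ 2 * (v - π ^ 2)) := ⟨_, rfl⟩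
      have hκ0 : 0 ≤ κ := by
        rw [hκ]
        positivity
      -- the pairs
      have key : ∀ w₁ w₂, w₁ ≤ w₂ → rf ρ f V w₁ * (E w₁ + β * c₀ ^ 3 * θ * T w₁ - x₀) +
          β * (w₂ - w₁) * (K w₁ / gf ρ f V) ≤ κ * s w₂ := by
        intro w₁ w₂ h12
        have hD : 0 ≤ β * (w₂ - w₁) := mul_nonneg hβ.le (by linarith)
        have hp0m : Measurable fun y : Fin N → ℝ => p 0 (Fin.cons w₁ y) := meas_fx (hV.measp 0) w₁
        have hem : Measurable fun y : Fin N → ℝ => e (Fin.cons w₁ y) := meas_fx he w₁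
        have h1 := ih (fx V w₁) (fq p w₁) (fx Y w₂)
          (fun y => e (Fin.cons w₁ y) + β * (w₂ - w₁) * p 0 (Fin.cons w₁ y)) θ x₀ (v - π ^ 2)
          (cls_fx hV w₁) (meas_fx hY w₂) (fun y => hY0 _)
          ⟨MY * (1 + |w₂|), fun y => by
            have h2 := hMY (Fin.cons w₂ y)
            rw [Fin.sum_univ_succ] at h2
            simp only [Fin.cons_zero, Fin.cons_succ] at h2
            have h3 : 0 ≤ ∑ i, |y i| := Finset.sum_nonneg fun i _ => abs_nonneg _
            have h4 : 1 + (|w₂| + ∑ i, |y i|) ≤ (1 + |w₂|) * (1 + ∑ i, |y i|) := by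
              nlinarith [abs_nonneg w₂, mul_nonneg (abs_nonneg w₂) h3]
            have h5 := mul_le_mul_of_nonneg_left h4 hMY0
            show Y (Fin.cons w₂ y) ≤ _
            linarith⟩
          (hem.add (hp0m.const_mul _))
          (fun y => add_nonneg (he0 _) (mul_nonneg hD (hV.p0 0 _)))
          ⟨Me + β * (w₂ - w₁), fun y => by
            have h2 := hV.p1 0 (Fin.cons w₁ y)
            have h3 := hMe (Fin.cons w₁ y)
            have h4 := mul_le_mul_of_nonneg_left h2 hD
            linarith⟩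
          (fun y y₂ hyy => by
            have h2 := hcp (Fin.cons w₁ y) (Fin.cons w₂ y₂) (by
              intro i
              refine Fin.cases ?_ (fun j => ?_) i
              · simpa using h12
              · simpa using hyy j)
            rw [Fin.sum_univ_succ] at h2
            simp only [Fin.cons_zero, Fin.cons_succ] at h2
            show e (Fin.cons w₁ y) + β * (w₂ - w₁) * p 0 (Fin.cons w₁ y) +
              β * ∑ i, (y₂ i - y i) * p i.succ (Fin.cons w₁ y) ≤ Y (Fin.cons w₂ y₂)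
            linarith)
          hθ0 hθ1 hx0 hv'
        obtain ⟨G1, hG1⟩ : ∃ G1 : ℝ, G1 = gf ρ f (fx V w₁) := ⟨_, rfl⟩
        have hG1p : 0 < G1 := by
          rw [hG1]
          exact hGpos w₁
        -- linearity
        have i1 : Integrable (fun y => fx e w₁ y * f (fx V w₁ y)) (PN ρ N) :=
          int_Ff hw (cls_fx hV w₁) hem (M := Me * Real.exp (l * B)) fun y => by
            rw [abs_of_nonneg (show 0 ≤ fx e w₁ y * f (fx V w₁ y) from
              mul_nonneg (he0 (Fin.cons w₁ y)) (hfb _).le)]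
            exact mul_le_mul (hMe _) (hfle _) (hfb _).le hMe0
        have i2 : Integrable (fun y : Fin N → ℝ => p 0 (Fin.cons w₁ y) * f (fx V w₁ y))
            (PN ρ N) :=
          int_Ff hw (cls_fx hV w₁) hp0m (M := 1 * Real.exp (l * B)) fun y => by
            rw [abs_of_nonneg (mul_nonneg (hV.p0 _ _) (hfb _).le)]
            exact mul_le_mul (hV.p1 _ _) (hfle _) (hfb _).le zero_le_one
        have e1 : Ef ρ f (fx V w₁) (fun y => e (Fin.cons w₁ y) +
            β * (w₂ - w₁) * p 0 (Fin.cons w₁ y)) = E w₁ +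
            β * (w₂ - w₁) * ((∫ y, p 0 (Fin.cons w₁ y) * f (fx V w₁ y) ∂PN ρ N) / G1) := by
          rw [hE, hG1]
          unfold Ef
          have h2 : ∀ y : Fin N → ℝ, (e (Fin.cons w₁ y) + β * (w₂ - w₁) *
              p 0 (Fin.cons w₁ y)) * f (fx V w₁ y) = fx e w₁ y * f (fx V w₁ y) +
              β * (w₂ - w₁) * (p 0 (Fin.cons w₁ y) * f (fx V w₁ y)) := by
            intro y
            show _ = e (Fin.cons w₁ y) * f (fx V w₁ y) + _
            ring
          simp only [h2]
          rw [integral_add i1 (i2.const_mul _), integral_const_mul, add_div]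
          ring
        have h2 : K w₁ ≤ ∫ y, p 0 (Fin.cons w₁ y) * f (fx V w₁ y) ∂PN ρ N := by
          rw [hK]
          refine integral_mono_of_nonneg (Eventually.of_forall fun y =>
            mul_nonneg (mul_nonneg (hV.p0 _ _) (hw.x0 _)) (hfb _).le) i2
            (Eventually.of_forall fun y => ?_)
          show p 0 (Fin.cons w₁ y) * x (fx V w₁ y) * f (fx V w₁ y) ≤
            p 0 (Fin.cons w₁ y) * f (fx V w₁ y)
          refine mul_le_mul_of_nonneg_right ?_ (hfb _).le
          have h3 := hw.x1 (fx V w₁ y)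
          have h4 := hV.p0 0 (Fin.cons w₁ y)
          nlinarith
        rw [e1] at h1
        have h3 : β * (w₂ - w₁) * (K w₁ / G1) ≤ β * (w₂ - w₁) *
            ((∫ y, p 0 (Fin.cons w₁ y) * f (fx V w₁ y) ∂PN ρ N) / G1) :=
          mul_le_mul_of_nonneg_left (div_le_div_of_nonneg_right h2 hG1p.le) hD
        have h4 : E w₁ + β * c₀ ^ 3 * θ * T w₁ - x₀ + β * (w₂ - w₁) * (K w₁ / G1) ≤
            Real.exp (l * B) / G1 * Real.exp (C * θ ^ 2 * (v - π ^ 2)) * s w₂ := by
          rw [hT, hs]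
          rw [← hG1] at h1
          show E w₁ + β * c₀ ^ 3 * θ * Ns ρ f x N (fx V w₁) (fq p w₁) (v - π ^ 2) - x₀ +
            β * (w₂ - w₁) * (K w₁ / G1) ≤ Real.exp (l * B) / G1 *
            Real.exp (C * θ ^ 2 * (v - π ^ 2)) *
            (∫ y, (max (fx Y w₂ y - x₀) 0) ^ (4 / 3 : ℝ) ∂PN ρ N) ^ (3 / 4 : ℝ)
          linarith
        have h5 : rf ρ f V w₁ = G1 / gf ρ f V := by
          rw [hG1]
          rfl
        have h6 := mul_le_mul_of_nonneg_left h4 (div_nonneg hG1p.le hgb.le)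
        rw [h5, hκ]
        have h7 : G1 / gf ρ f V * (E w₁ + β * c₀ ^ 3 * θ * T w₁ - x₀ +
            β * (w₂ - w₁) * (K w₁ / G1)) = G1 / gf ρ f V * (E w₁ + β * c₀ ^ 3 * θ * T w₁ - x₀) +
            β * (w₂ - w₁) * (K w₁ / gf ρ f V) := by
          field_simp
        have h8 : G1 / gf ρ f V * (Real.exp (l * B) / G1 *
            Real.exp (C * θ ^ 2 * (v - π ^ 2)) * s w₂) = Real.exp (l * B) / gf ρ f V *
            Real.exp (C * θ ^ 2 * (v - π ^ 2)) * s w₂ := by
          field_simp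
        rw [h7, h8] at h6
        exact h6
      -- one site
      have hSite := hS l 1 f x hl hl1 hw N V p hV
      have hc3 := (hcon l 1 _ _ hl hl1 (Or.inl rfl) hSite).2.2.1
      rw [← pif_peel hw hV, ← gf_peel hw hV, ← hπd, ← hK] at hc3
      have hKnn : ∀ w, 0 ≤ K w := by
        intro w
        rw [hK]
        exact hSite.K0 w
      obtain ⟨hri, hr1⟩ := rf_int (ρ := ρ) hw hV
      have hEm : Measurable E := by
        rw [hE]
        exact meas_Ef hw.measf hV.meas he
      have hTm : Measurable T := by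
        rw [hT]
        exact meas_Ns hw.measf hw.measx hV.meas hV.measp _
      have hEb : ∀ w, |E w| ≤ Me := by
        intro w
        rw [hE]
        have i1 : Integrable (fun y => fx e w y * f (fx V w y)) (PN ρ N) :=
          int_Ff hw (cls_fx hV w) (meas_fx he w) (M := Me * Real.exp (l * B)) fun y => by
            rw [abs_of_nonneg (show 0 ≤ fx e w y * f (fx V w y) from
              mul_nonneg (he0 (Fin.cons w y)) (hfb _).le)]
            exact mul_le_mul (hMe _) (hfle _) (hfb _).le hMe0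
        have h1 : 0 ≤ ∫ y, fx e w y * f (fx V w y) ∂PN ρ N :=
          integral_nonneg fun y => mul_nonneg (he0 _) (hfb _).le
        have h2 : ∫ y, fx e w y * f (fx V w y) ∂PN ρ N ≤ Me * gf ρ f (fx V w) := by
          unfold gf
          rw [← integral_const_mul]
          exact integral_mono i1 ((int_f hw (cls_fx hV w)).const_mul Me) fun y =>
            mul_le_mul_of_nonneg_right (hMe _) (hfb _).le
        show |(∫ y, fx e w y * f (fx V w y) ∂PN ρ N) / gf ρ f (fx V w)| ≤ Me
        rw [abs_of_nonneg (div_nonneg h1 (hGpos w).le), div_le_iff₀ (hGpos w)]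
        exact h2
      have hTb : ∀ w, |T w| ≤ N := by
        intro w
        rw [hT]
        have h1 := Ns0 (ρ := ρ) hw (cls_fx hV w) (v - π ^ 2)
        have h2 := Ns1 (ρ := ρ) hw (cls_fx hV w) (v - π ^ 2)
        show |Ns ρ f x N (fx V w) (fq p w) (v - π ^ 2)| ≤ N
        rw [abs_of_nonneg h1]
        exact h2
      have hrE : Integrable (fun w => rf ρ f V w * E w) ρ :=
        hri.mul_bdd (c := Me) hEm.aestronglyMeasurable (Eventually.of_forall fun w => hEb w)
      have hrT : Integrable (fun w => rf ρ f V w * T w) ρ :=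
        hri.mul_bdd (c := (N : ℝ)) hTm.aestronglyMeasurable (Eventually.of_forall fun w => hTb w)
      have hPeq : ∀ w, rf ρ f V w * (E w + β * c₀ ^ 3 * θ * T w - x₀) =
          (rf ρ f V w * E w + β * c₀ ^ 3 * θ * (rf ρ f V w * T w)) - x₀ * rf ρ f V w := by
        intro w
        ring
      have i4 : Integrable (fun w => rf ρ f V w * E w +
          β * c₀ ^ 3 * θ * (rf ρ f V w * T w)) ρ := hrE.add (hrT.const_mul _)
      have hPi : Integrable (fun w => rf ρ f V w * (E w + β * c₀ ^ 3 * θ * T w - x₀)) ρ := by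
        simp only [hPeq]
        exact i4.sub (hri.const_mul _)
      have hPint : ∫ w, rf ρ f V w * (E w + β * c₀ ^ 3 * θ * T w - x₀) ∂ρ =
          Ef ρ f V e + β * c₀ ^ 3 * θ * (∫ w, rf ρ f V w * T w ∂ρ) - x₀ := by
        simp only [hPeq]
        rw [integral_sub i4 (hri.const_mul _), integral_add hrE (hrT.const_mul _),
          integral_const_mul, integral_const_mul, hr1, mul_one,
          Ef_peel hw hV he (M := Me * Real.exp (l * B)) fun y => by
            rw [abs_of_nonneg (mul_nonneg (he0 y) (hfb _).le)]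
            exact mul_le_mul (hMe y) (hfle _) (hfb _).le hMe0, hE]
      have hstep := step66 hLH (a := θ * π) (κ := κ) (γ := β * c₀ * (c₀ * π))
        (mul_nonneg hθ0 hπ0) (by nlinarith) hκ0 (by positivity) hPi hsm hs0 hsi
        (fun w => by
          have h1 := key w w le_rfl
          rw [sub_self, mul_zero, zero_mul, add_zero] at h1
          exact h1)
        (fun w₁ hw₁ w₂ hw₂ => by
          have h1 := key w₁ w₂ (by linarith [hLH.sep w₁ hw₁ w₂ hw₂])
          have h2 := hc3 w₁ hw₁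
          have h3 := hLH.sep w₁ hw₁ w₂ hw₂
          have h4 : β * c₀ * (c₀ * π) ≤ β * (w₂ - w₁) * (K w₁ / gf ρ f V) := by
            refine mul_le_mul (mul_le_mul_of_nonneg_left h3 hβ.le) h2 (by positivity) ?_
            exact mul_nonneg hβ.le (by linarith)
          linarith)
      rw [hPint, hsS] at hstep
      rw [eNs]
      have e5 : κ * (Real.exp (11 / 4 * (1 / c₀) ^ 4 * (θ * π) ^ 2) *
          (∫ y, (max (Y y - x₀) 0) ^ (4 / 3 : ℝ) ∂PN ρ (N + 1)) ^ (3 / 4 : ℝ)) =
          Real.exp (l * B) / gf ρ f V * Real.exp (C * θ ^ 2 * v) *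
          (∫ y, (max (Y y - x₀) 0) ^ (4 / 3 : ℝ) ∂PN ρ (N + 1)) ^ (3 / 4 : ℝ) := by
        rw [hκ, ← hC]
        have h1 : Real.exp (C * θ ^ 2 * v) = Real.exp (C * θ ^ 2 * (v - π ^ 2)) *
            Real.exp (C * (θ * π) ^ 2) := by
          rw [← Real.exp_add]
          congr 1
          ring
        rw [h1]
        ring
      rw [e5] at hstep
      have e6 : ∫ w, rf ρ f V w * T w ∂ρ =
          ∫ w, rf ρ f V w * Ns ρ f x N (fx V w) (fq p w) (v - π ^ 2) ∂ρ := by
        rw [hT]
      rw [e6] at hstep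
      have e7 : θ * π * (β * c₀ * (c₀ * π)) * c₀ = β * c₀ ^ 3 * θ * π ^ 2 := by ring
      rw [e7] at hstep
      linarith
    · have eNs : Ns ρ f x (N + 1) V p v = 0 := by
        simp only [Ns]
        rw [if_neg hπ]
      rw [eNs, mul_zero, add_zero]
      have hm1 : Measurable fun y => max (Y y - x₀) 0 := (hY.sub_const x₀).max measurable_const
      have h1 := jen66 (PN ρ (N + 1)) hm1 (fun y => le_max_right _ _) hZi
      have hZ1 : Integrable (fun y => max (Y y - x₀) 0) (PN ρ (N + 1)) := by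
        refine ((integrable_const (1 : ℝ)).add hZi).mono' hm1.aestronglyMeasurable
          (Eventually.of_forall fun y => ?_)
        rw [Real.norm_eq_abs, abs_of_nonneg (le_max_right _ _)]
        exact le_rpow43_66 (le_max_right _ _)
      have h2 : ∫ y, e y * f (V y) ∂PN ρ (N + 1) ≤ x₀ * gf ρ f V +
          Real.exp (l * B) * ∫ y, max (Y y - x₀) 0 ∂PN ρ (N + 1) := by
        unfold gf
        rw [← integral_const_mul, ← integral_const_mul,
          ← integral_add ((int_f hw hV).const_mul x₀) (hZ1.const_mul _)]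
        refine integral_mono heint (((int_f hw hV).const_mul x₀).add (hZ1.const_mul _))
          fun y => ?_
        have h3 : e y ≤ Y y := by simpa using hcp y y fun i => le_rfl
        have h4 : Y y ≤ x₀ + max (Y y - x₀) 0 := by linarith [le_max_left (Y y - x₀) 0]
        have h5 : 0 ≤ max (Y y - x₀) 0 := le_max_right _ _
        have h6 := hfle (V y)
        have h7 := hfb (V y)
        show e y * f (V y) ≤ x₀ * f (V y) + Real.exp (l * B) * max (Y y - x₀) 0
        nlinarith
      have h3 : Ef ρ f V e ≤ x₀ + Real.exp (l * B) / gf ρ f V *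
          ∫ y, max (Y y - x₀) 0 ∂PN ρ (N + 1) := by
        unfold Ef
        rw [div_le_iff₀ hgb]
        refine h2.trans (le_of_eq ?_)
        field_simp
      have h4 : 1 ≤ Real.exp (C * θ ^ 2 * v) := Real.one_le_exp (by positivity)
      have h5 : 0 ≤ Real.exp (l * B) / gf ρ f V := by positivity
      have h6 := mul_le_mul_of_nonneg_left h1 h5
      have h7 : Real.exp (l * B) / gf ρ f V *
          (∫ y, (max (Y y - x₀) 0) ^ (4 / 3 : ℝ) ∂PN ρ (N + 1)) ^ (3 / 4 : ℝ) ≤
          Real.exp (l * B) / gf ρ f V * Real.exp (C * θ ^ 2 * v) *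
          (∫ y, (max (Y y - x₀) 0) ^ (4 / 3 : ℝ) ∂PN ρ (N + 1)) ^ (3 / 4 : ℝ) := by
        refine mul_le_mul_of_nonneg_right ?_ hS0
        nlinarith
      linarith

end Pool.Agent.W_7d29a1_AM
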