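import Pool.Agent.W_7d29a1_AM.Base73

/-! Leaf A4 of the amplification for every law: the entropy (helper44). -/

namespace Pool.Agent.W_7d29a1_AM

open MeasureTheory ProbabilityTheory Filter Topology

/-- The pointwise entropy bound. -/
lemma ent44 {r C : ℝ} (h0 : 0 < r) (hr : r ≤ C) (hC : 1 ≤ C) :
    (r - 1) ^ 2 / (4 * C) ≤ r * Real.log r - r + 1 := by
  set s := Real.sqrt r with hs
  have hs0 : 0 < s := Real.sqrt_pos.mpr h0
  have hss : s * s = r := Real.mul_self_sqrt h0.le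
  have hl : 1 - s⁻¹ ≤ Real.log s := Real.one_sub_inv_le_log_of_pos hs0
  have hlr : Real.log r = 2 * Real.log s := by
    rw [← hss, Real.log_mul hs0.ne' hs0.ne']; ring
  have h1 : s * s * (1 - s⁻¹) ≤ s * s * Real.log s :=
    mul_le_mul_of_nonneg_left hl (by positivity)
  have h2 : s * s * (1 - s⁻¹) = s * s - s := by field_simp
  have h3 : (s - 1) ^ 2 ≤ r * Real.log r - r + 1 := by
    rw [hlr, ← hss]; nlinarith
  refine le_trans ?_ h3
  rw [div_le_iff₀ (by linarith)]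
  have h4 : (r - 1) ^ 2 = (s - 1) ^ 2 * (s + 1) ^ 2 := by rw [← hss]; ring
  rw [h4]
  refine mul_le_mul_of_nonneg_left ?_ (sq_nonneg _)
  have : (s + 1) ^ 2 ≤ 2 * (s * s + 1) := by nlinarith [sq_nonneg (s - 1)]
  rw [hss] at this
  linarith

/-- `x log x` is bounded on bounded sets. -/
lemma xlx44 {x M : ℝ} (h0 : 0 ≤ x) (hx : x ≤ M) : |x * Real.log x| ≤ 1 + M ^ 2 := by
  rcases h0.eq_or_lt with h | h
  · rw [← h]; simp; positivity
  · have h1 := Real.log_le_sub_one_of_pos h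
    have h2 := Real.one_sub_inv_le_log_of_pos h
    have h3 : x * (1 - x⁻¹) ≤ x * Real.log x := mul_le_mul_of_nonneg_left h2 h.le
    have h4 : x * (1 - x⁻¹) = x - 1 := by field_simp
    have h5 : x * Real.log x ≤ x * (x - 1) := mul_le_mul_of_nonneg_left h1 h.le
    rw [abs_le]
    constructor
    · nlinarith
    · nlinarith

variable {ρ : Measure ℝ} [IsProbabilityMeasure ρ] {β : ℝ}

/-- One site. -/
lemma one44 {c R C : ℝ} {L H : Set ℝ} (hLH : LHs ρ c R L H) (hC1 : 1 ≤ C)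
    {l σ : ℝ} (hl : 0 < l) (hσ : σ = 1 ∨ σ = -1) {G : ℝ → ℝ} {g κ : ℝ} (hg : 0 < g)
    (hκ : 0 ≤ κ) (hG0 : ∀ w, 0 < G w) (hGi : Integrable (fun w => G w / g) ρ)
    (hG1 : ∫ w, G w / g ∂ρ = 1) (hEi : Integrable (fun w => G w / g * Real.log (G w / g)) ρ)
    (hd : ∀ w ∈ L, ∀ w' ∈ H, c * l * κ ≤ σ * (G w' / g - G w / g))
    (hb : ∀ w ∈ L ∪ H, G w / g ≤ C) :
    c ^ 3 / (16 * C) * l ^ 2 * κ ^ 2 ≤ ∫ w, G w / g * Real.log (G w / g) ∂ρ := by
  classical
  set r : ℝ → ℝ := fun w => G w / g with hr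
  have hr0 : ∀ w, 0 < r w := fun w => div_pos (hG0 w) hg
  have hc := hLH.c0
  set φ : ℝ → ℝ := fun w => r w * Real.log (r w) - r w + 1 with hφ
  have hφi : Integrable φ ρ := (hEi.sub hGi).add (integrable_const _)
  have hφ0 : ∀ w, 0 ≤ φ w := by
    intro w
    have h := ent44 (hr0 w) (le_max_left (r w) 1) (le_max_right (r w) 1)
    refine le_trans ?_ h
    have : 0 < max (r w) 1 := lt_of_lt_of_le one_pos (le_max_right _ _)
    positivity
  have hφI : ∫ w, φ w ∂ρ = ∫ w, r w * Real.log (r w) ∂ρ := by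
    have h1 : ∫ w, φ w ∂ρ = ∫ w, (r w * Real.log (r w) - r w) ∂ρ + ∫ w, (1 : ℝ) ∂ρ :=
      integral_add (hEi.sub hGi) (integrable_const _)
    have h2 : ∫ w, (r w * Real.log (r w) - r w) ∂ρ = ∫ w, r w * Real.log (r w) ∂ρ - ∫ w, r w ∂ρ :=
      integral_sub hEi hGi
    rw [h1, h2, hG1]; simp
  rw [← hφI]
  -- a set of mass at least c where `|r - 1|` is large
  have hσ2 : σ ^ 2 = 1 := by rcases hσ with h | h <;> rw [h] <;> norm_num
  have key : ∃ A : Set ℝ, MeasurableSet A ∧ c ≤ ρ.real A ∧ A ⊆ L ∪ H ∧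
      ∀ w ∈ A, (c * l * κ) ^ 2 / 4 ≤ (r w - 1) ^ 2 := by
    have hδ : 0 ≤ c * l * κ := by positivity
    by_cases hall : ∀ w ∈ L, c * l * κ / 2 ≤ σ * (1 - r w)
    · refine ⟨L, hLH.mL, hLH.L0, Set.subset_union_left, fun w hw => ?_⟩
      have h1 := hall w hw
      have h2 : (c * l * κ / 2) ^ 2 ≤ (σ * (1 - r w)) ^ 2 := by
        apply pow_le_pow_left₀ (by positivity) h1
      have h3 : (σ * (1 - r w)) ^ 2 = (r w - 1) ^ 2 := by
        rw [mul_pow, hσ2]; ring
      rw [h3] at h2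
      linarith
    · push Not at hall
      obtain ⟨w₀, hw₀, h0⟩ := hall
      refine ⟨H, hLH.mH, hLH.H0, Set.subset_union_right, fun w hw => ?_⟩
      have h1 : c * l * κ ≤ σ * (r w - r w₀) := hd w₀ hw₀ w hw
      have h1' : c * l * κ / 2 ≤ σ * (r w - 1) := by nlinarith
      have h2 : (c * l * κ / 2) ^ 2 ≤ (σ * (r w - 1)) ^ 2 := by
        apply pow_le_pow_left₀ (by positivity) h1'
      have h3 : (σ * (r w - 1)) ^ 2 = (r w - 1) ^ 2 := by
        rw [mul_pow, hσ2]; ring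
      rw [h3] at h2
      linarith
  obtain ⟨A, hA, hcA, hAs, hAr⟩ := key
  have hset : ∫ w in A, φ w ∂ρ ≤ ∫ w, φ w ∂ρ :=
    setIntegral_le_integral hφi (Eventually.of_forall hφ0)
  refine le_trans ?_ hset
  have hconst : ∫ w in A, (c * l * κ) ^ 2 / (16 * C) ∂ρ ≤ ∫ w in A, φ w ∂ρ := by
    refine setIntegral_mono_on (integrable_const _) hφi.integrableOn hA fun w hw => ?_
    have h1 := ent44 (hr0 w) (hb w (hAs hw)) hC1
    refine le_trans ?_ h1
    have h2 := hAr w hw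
    rw [div_le_div_iff₀ (by positivity) (by positivity)]
    nlinarith
  refine le_trans ?_ hconst
  rw [setIntegral_const, smul_eq_mul]
  have h5 : c * ((c * l * κ) ^ 2 / (16 * C)) ≤ ρ.real A * ((c * l * κ) ^ 2 / (16 * C)) :=
    mul_le_mul_of_nonneg_right hcA (by positivity)
  refine le_trans (le_of_eq ?_) h5
  field_simp

/-- A4: the entropy. -/
theorem lemK44 (hS : SiteP ρ β) (hC : ConP ρ β) : LemK ρ β := by
  classical
  obtain ⟨c, R, C, L, H, hLH, hC1, hcon⟩ := hC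
  have hc := hLH.c0
  refine ⟨c ^ 3 / (16 * C), by positivity, ?_⟩
  intro l σ f x hl hl1 hσ hW N
  set c' := c ^ 3 / (16 * C) with hc'
  have hc'0 : 0 < c' := by positivity
  induction N with
  | zero =>
    intro V p hV
    have y₀ : Fin 0 → ℝ := fun i => i.elim0
    have h1 : gf ρ f V = f (V y₀) := int_zero (ρ := ρ) (fun y => f (V y)) y₀
    have h2 : Ef ρ f V (fun y => Real.log (f (V y))) = Real.log (f (V y₀)) := by
      unfold Ef
      rw [h1, int_zero (ρ := ρ) (fun y => Real.log (f (V y)) * f (V y)) y₀,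
        mul_div_cancel_right₀ _ (hW.pos _).ne']
    rw [h1, h2]
    simp [Nt]
  | succ N ih =>
    intro V p hV
    have hsite := hS l σ f x hl hl1 hW N V p hV
    obtain ⟨-, -, -, hd, hb⟩ := hcon l σ _ _ hl hl1 hσ hsite
    have hgV : 0 < gf ρ f V := gf_pos hW hV
    have hgp : ∫ w, gf ρ f (fx V w) ∂ρ = gf ρ f V := (gf_peel hW hV).symm
    have hpi : pif ρ f x V p = (∫ w, Kf ρ f x V p w ∂ρ) / gf ρ f V := by
      rw [pif_peel hW hV, hgp]
    have hpi0 : 0 ≤ pif ρ f x V p := pif0 hW hV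
    rw [hgp, ← hpi] at hd
    rw [hgp] at hb
    obtain ⟨hri, hr1⟩ := rf_int (ρ := ρ) hW hV
    have hr0 : ∀ w, 0 ≤ rf ρ f V w := rf_nonneg hW hV
    obtain ⟨CG, hCG⟩ := hsite.bddG
    have hrb : ∀ w, rf ρ f V w ≤ CG / gf ρ f V := fun w =>
      div_le_div_of_nonneg_right (hCG w) hgV.le
    have hmr : Measurable (rf ρ f V) := (meas_gf hW.measf hV.meas).div_const _
    have hEi : Integrable (fun w => rf ρ f V w * Real.log (rf ρ f V w)) ρ := by
      refine Integrable.of_bound (hmr.mul hmr.log).aestronglyMeasurable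
        (1 + (CG / gf ρ f V) ^ 2) (Eventually.of_forall fun w => ?_)
      rw [Real.norm_eq_abs]
      exact xlx44 (hr0 w) (hrb w)
    have hone := one44 hLH hC1 hl hσ hgV hpi0 hsite.G0 hri hr1 hEi hd hb
    -- the peeled entropy
    set F : (Fin (N + 1) → ℝ) → ℝ := fun y => Real.log (f (V y)) with hF
    have hFm : Measurable F := (hW.measf.comp hV.meas).log
    obtain ⟨M, hM⟩ := hW.bdl
    have hMb : ∀ y, |F y * f (V y)| ≤ M := fun y => hM _ (hV.nonneg y)
    rw [Ef_peel hW hV hFm hMb]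
    have hNti : Integrable (fun w => rf ρ f V w * Nt ρ f x N (fx V w) (fq p w)) ρ := by
      refine hri.mul_bdd (c := N) (meas_Nt hW.measf hW.measx hV.meas hV.measp).aestronglyMeasurable
        (Eventually.of_forall fun w => ?_)
      rw [Real.norm_eq_abs, abs_of_nonneg (Nt0 hW (cls_fx hV w))]
      exact Nt1 hW (cls_fx hV w)
    have hLi : Integrable (fun w => rf ρ f V w * Ef ρ f (fx V w) (fx F w)) ρ := by
      refine Integrable.of_bound (hmr.mul (meas_Ef hW.measf hV.meas hFm)).aestronglyMeasurable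
        (M / gf ρ f V) (Eventually.of_forall fun w => ?_)
      have hgw : 0 < gf ρ f (fx V w) := gf_pos hW (cls_fx hV w)
      have h1 : rf ρ f V w * Ef ρ f (fx V w) (fx F w) =
          (∫ y, fx F w y * f (fx V w y) ∂PN ρ N) / gf ρ f V := by
        unfold rf Ef
        field_simp
      rw [h1, Real.norm_eq_abs, abs_div, abs_of_pos hgV]
      refine div_le_div_of_nonneg_right ?_ hgV.le
      have h2 : |∫ y, fx F w y * f (fx V w y) ∂PN ρ N| ≤ ∫ y, M ∂PN ρ N := by
        rw [← Real.norm_eq_abs]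
        refine norm_integral_le_of_norm_le (integrable_const _) (Eventually.of_forall fun y => ?_)
        rw [Real.norm_eq_abs]
        exact hMb (Fin.cons w y)
      simpa using h2
    have hpt : ∀ w, c' * l ^ 2 * (rf ρ f V w * Nt ρ f x N (fx V w) (fq p w)) +
        rf ρ f V w * Real.log (rf ρ f V w) + rf ρ f V w * Real.log (gf ρ f V) ≤
        rf ρ f V w * Ef ρ f (fx V w) (fx F w) := by
      intro w
      have hgw : 0 < gf ρ f (fx V w) := gf_pos hW (cls_fx hV w)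
      have h1 := ih (fx V w) (fq p w) (cls_fx hV w)
      have h2 : Real.log (rf ρ f V w) = Real.log (gf ρ f (fx V w)) - Real.log (gf ρ f V) :=
        Real.log_div hgw.ne' hgV.ne'
      rw [h2]
      have h3 : c' * l ^ 2 * Nt ρ f x N (fx V w) (fq p w) + Real.log (gf ρ f (fx V w)) ≤
          Ef ρ f (fx V w) (fx F w) := by
        have : Ef ρ f (fx V w) (fx F w) =
          Ef ρ f (fx V w) (fun y => Real.log (f (fx V w y))) := rfl
        rw [this]; linarith
      have h4 := mul_le_mul_of_nonneg_left h3 (hr0 w)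
      nlinarith
    have hint : ∫ w, (c' * l ^ 2 * (rf ρ f V w * Nt ρ f x N (fx V w) (fq p w)) +
        rf ρ f V w * Real.log (rf ρ f V w) + rf ρ f V w * Real.log (gf ρ f V)) ∂ρ ≤
        ∫ w, rf ρ f V w * Ef ρ f (fx V w) (fx F w) ∂ρ :=
      integral_mono (((hNti.const_mul _).add hEi).add (hri.mul_const _)) hLi hpt
    have hs1 : ∫ w, (c' * l ^ 2 * (rf ρ f V w * Nt ρ f x N (fx V w) (fq p w)) +
        rf ρ f V w * Real.log (rf ρ f V w) + rf ρ f V w * Real.log (gf ρ f V)) ∂ρ =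
        ∫ w, (c' * l ^ 2 * (rf ρ f V w * Nt ρ f x N (fx V w) (fq p w)) +
          rf ρ f V w * Real.log (rf ρ f V w)) ∂ρ + ∫ w, rf ρ f V w * Real.log (gf ρ f V) ∂ρ :=
      integral_add ((hNti.const_mul _).add hEi) (hri.mul_const _)
    have hs2 : ∫ w, (c' * l ^ 2 * (rf ρ f V w * Nt ρ f x N (fx V w) (fq p w)) +
        rf ρ f V w * Real.log (rf ρ f V w)) ∂ρ =
        ∫ w, c' * l ^ 2 * (rf ρ f V w * Nt ρ f x N (fx V w) (fq p w)) ∂ρ +
          ∫ w, rf ρ f V w * Real.log (rf ρ f V w) ∂ρ :=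
      integral_add (hNti.const_mul _) hEi
    rw [hs1, hs2, integral_const_mul, integral_mul_const, hr1, one_mul] at hint
    have hNt : Nt ρ f x (N + 1) V p = pif ρ f x V p ^ 2 +
        ∫ w, rf ρ f V w * Nt ρ f x N (fx V w) (fq p w) ∂ρ := rfl
    rw [hNt]
    have hone' : c' * l ^ 2 * pif ρ f x V p ^ 2 ≤ ∫ w, rf ρ f V w * Real.log (rf ρ f V w) ∂ρ :=
      hone
    nlinarith

end Pool.Agent.W_7d29a1_AM
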