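import Pool.Agent.W_7d29a1_AM.DefsAM

/-!
Leaf A1: the one site calculus of a function of the class.
-/

namespace Pool.Agent.W_7d29a1_AM

open MeasureTheory ProbabilityTheory Filter Topology

namespace S86

variable {ρ : Measure ℝ} {β l σ : ℝ} {f x : ℝ → ℝ} {N : ℕ}

lemma inst86 (ρ : Measure ℝ) [IsProbabilityMeasure ρ] (N : ℕ) : IsProbabilityMeasure (PN ρ N) := by
  unfold PN
  infer_instance

lemma meas_cons86 {F : (Fin (N + 1) → ℝ) → ℝ} (hF : Measurable F) :
    Measurable fun z : ℝ × (Fin N → ℝ) => F (Fin.cons z.1 z.2) := by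
  refine hF.comp ?_
  rw [measurable_pi_iff]
  intro i
  refine Fin.cases ?_ (fun j => ?_) i
  · simp only [Fin.cons_zero]
    exact measurable_fst
  · simp only [Fin.cons_succ]
    exact (measurable_pi_apply j).comp measurable_snd

lemma meas_fx86 {F : (Fin (N + 1) → ℝ) → ℝ} (hF : Measurable F) (w : ℝ) :
    Measurable fun y : Fin N → ℝ => F (Fin.cons w y) :=
  (meas_cons86 hF).comp (measurable_const.prodMk measurable_id)

lemma meas_int86 [IsProbabilityMeasure ρ] {F : ℝ × (Fin N → ℝ) → ℝ} (hF : Measurable F) :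
    Measurable fun w => ∫ y, F (w, y) ∂PN ρ N := by
  have := inst86 ρ N
  exact (hF.stronglyMeasurable.integral_prod_right' (ν := PN ρ N)).measurable

/-- The two-sided control of the increment. -/
lemma inc86 {V : (Fin (N + 1) → ℝ) → ℝ} {p : Fin (N + 1) → (Fin (N + 1) → ℝ) → ℝ}
    (h : Cls β V p) (w w' : ℝ) (y : Fin N → ℝ) :
    V (Fin.cons w y) + β * ((w' - w) * p 0 (Fin.cons w y)) ≤ V (Fin.cons w' y) := by
  have h1 := h.conv (Fin.cons w y) (Fin.cons w' y)
  rw [Fin.sum_univ_succ] at h1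
  simpa using h1

lemma rat86 {V : (Fin (N + 1) → ℝ) → ℝ} {p : Fin (N + 1) → (Fin (N + 1) → ℝ) → ℝ}
    (h : Cls β V p) (w w' : ℝ) (y : Fin N → ℝ) :
    p 0 (Fin.cons w' y) ≤ Real.exp (β * |w' - w|) * p 0 (Fin.cons w y) := by
  have h1 := h.rat 0 (Fin.cons w y) (Fin.cons w' y) (fun j hj => by
    obtain ⟨k, rfl⟩ := Fin.exists_succ_eq.2 hj
    simp)
  simpa using h1

lemma lip86 (hβ : 0 < β) {V : (Fin (N + 1) → ℝ) → ℝ} {p : Fin (N + 1) → (Fin (N + 1) → ℝ) → ℝ}
    (h : Cls β V p) (w w' : ℝ) (y : Fin N → ℝ) :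
    |V (Fin.cons w' y) - V (Fin.cons w y)| ≤ β * |w' - w| := by
  have key : ∀ a b : ℝ, V (Fin.cons a y) - V (Fin.cons b y) ≤ β * |a - b| := by
    intro a b
    have h1 := inc86 h a b y
    have h2 := h.p0 0 (Fin.cons a y)
    have h3 := h.p1 0 (Fin.cons a y)
    have h4 : -((b - a) * p 0 (Fin.cons a y)) ≤ |a - b| := by
      have h5 : (a - b) * p 0 (Fin.cons a y) ≤ |a - b| * p 0 (Fin.cons a y) :=
        mul_le_mul_of_nonneg_right (le_abs_self _) h2
      have h6 : |a - b| * p 0 (Fin.cons a y) ≤ |a - b| :=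
        mul_le_of_le_one_right (abs_nonneg _) h3
      nlinarith
    have h7 := mul_le_mul_of_nonneg_left h4 hβ.le
    nlinarith
  rw [abs_le]
  constructor
  · have h1 := key w w'
    rw [abs_sub_comm] at h1
    linarith
  · exact key w' w

lemma int86 [IsProbabilityMeasure ρ] {F : (Fin N → ℝ) → ℝ} (hF : Measurable F) {C : ℝ}
    (h0 : ∀ y, 0 ≤ F y) (hC : ∀ y, F y ≤ C) : Integrable F (PN ρ N) := by
  have := inst86 ρ N
  refine Integrable.of_bound (C := C) hF.aestronglyMeasurable (Eventually.of_forall fun y => ?_)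
  rw [Real.norm_eq_abs, abs_of_nonneg (h0 y)]
  exact hC y

end S86

open S86

/-- **Leaf A1.** -/
theorem siteP86 {ρ : Measure ℝ} [IsProbabilityMeasure ρ] {β : ℝ} (hβ : 0 < β) : SiteP ρ β := by
  intro l σ f x hl hl1 hW N V p h
  have := inst86 ρ N
  obtain ⟨C, hC⟩ := hW.bdd
  have hfi : ∀ w, Integrable (fun y => f (fx V w y)) (PN ρ N) := fun w =>
    int86 (hW.measf.comp (meas_fx86 h.meas w)) (fun y => (hW.pos _).le)
      (fun y => hC _ (h.nonneg _))
  have hmK : ∀ w, Measurable fun y : Fin N → ℝ =>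
      p 0 (Fin.cons w y) * x (fx V w y) * f (fx V w y) := fun w =>
    ((meas_fx86 (h.measp 0) w).mul (hW.measx.comp (meas_fx86 h.meas w))).mul
      (hW.measf.comp (meas_fx86 h.meas w))
  have hK0 : ∀ w (y : Fin N → ℝ), 0 ≤ p 0 (Fin.cons w y) * x (fx V w y) * f (fx V w y) :=
    fun w y => mul_nonneg (mul_nonneg (h.p0 _ _) (hW.x0 _)) (hW.pos _).le
  have hKf : ∀ w (y : Fin N → ℝ),
      p 0 (Fin.cons w y) * x (fx V w y) * f (fx V w y) ≤ f (fx V w y) := fun w y => by
    have h1 : p 0 (Fin.cons w y) * x (fx V w y) ≤ 1 :=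
      mul_le_one₀ (h.p1 _ _) (hW.x0 _) (hW.x1 _)
    exact mul_le_of_le_one_left (hW.pos _).le h1
  have hKi : ∀ w, Integrable (fun y : Fin N → ℝ =>
      p 0 (Fin.cons w y) * x (fx V w y) * f (fx V w y)) (PN ρ N) := fun w =>
    int86 (hmK w) (hK0 w) (fun y => (hKf w y).trans (hC _ (h.nonneg _)))
  refine ⟨?_, ?_, ⟨C, fun w => ?_⟩, fun w => ?_, fun w => ?_, fun w => ?_, fun w w' => ?_,
    fun w w' => ?_, fun w w' hw => ?_, fun w w' hw => ?_⟩
  · exact meas_int86 (F := fun z => f (V (Fin.cons z.1 z.2))) (hW.measf.comp (meas_cons86 h.meas))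
  · exact meas_int86 (F := fun z => p 0 (Fin.cons z.1 z.2) * x (V (Fin.cons z.1 z.2)) *
      f (V (Fin.cons z.1 z.2))) (((meas_cons86 (h.measp 0)).mul
        (hW.measx.comp (meas_cons86 h.meas))).mul (hW.measf.comp (meas_cons86 h.meas)))
  · have h1 := integral_mono (hfi w) (integrable_const C) (fun y => hC _ (h.nonneg _))
    simpa [gf] using h1
  · show 0 < ∫ y, f (fx V w y) ∂PN ρ N
    rw [integral_pos_iff_support_of_nonneg (fun y => (hW.pos _).le) (hfi w)]
    have h2 : Function.support (fun y : Fin N → ℝ => f (fx V w y)) = Set.univ :=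
      Set.eq_univ_of_forall fun y => (hW.pos _).ne'
    rw [h2, measure_univ]
    exact one_pos
  · exact integral_nonneg (hK0 w)
  · exact integral_mono (hKi w) (hfi w) (hKf w)
  · -- rK
    unfold Kf
    rw [← integral_const_mul]
    refine integral_mono (hKi w') ((hKi w).const_mul _) fun y => ?_
    have h1 := rat86 h w w' y
    have h2 := hW.rat (fx V w y) (fx V w' y)
    have h3 := lip86 hβ h w w' y
    have h4 : Real.exp |fx V w' y - fx V w y| ≤ Real.exp (β * |w' - w|) := Real.exp_le_exp.2 h3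
    have h5 : 0 ≤ x (fx V w y) * f (fx V w y) := mul_nonneg (hW.x0 _) (hW.pos _).le
    have h6 : x (fx V w' y) * f (fx V w' y) ≤
        Real.exp (β * |w' - w|) * (x (fx V w y) * f (fx V w y)) :=
      h2.trans (mul_le_mul_of_nonneg_right h4 h5)
    show p 0 (Fin.cons w' y) * x (fx V w' y) * f (fx V w' y) ≤
      Real.exp (2 * β * |w' - w|) * (p 0 (Fin.cons w y) * x (fx V w y) * f (fx V w y))
    calc p 0 (Fin.cons w' y) * x (fx V w' y) * f (fx V w' y) =
        p 0 (Fin.cons w' y) * (x (fx V w' y) * f (fx V w' y)) := by ring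
      _ ≤ (Real.exp (β * |w' - w|) * p 0 (Fin.cons w y)) *
          (Real.exp (β * |w' - w|) * (x (fx V w y) * f (fx V w y))) :=
          mul_le_mul h1 h6 (mul_nonneg (hW.x0 _) (hW.pos _).le)
            (mul_nonneg (Real.exp_pos _).le (h.p0 _ _))
      _ = _ := by
        rw [show 2 * β * |w' - w| = β * |w' - w| + β * |w' - w| by ring, Real.exp_add]
        ring
  · -- rG
    show gf ρ f (fx V w') ≤ Real.exp (β * |w' - w|) * gf ρ f (fx V w)
    unfold gf
    rw [← integral_const_mul]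
    refine integral_mono (hfi w') ((hfi w).const_mul _) fun y => ?_
    have h2 := hW.ratf (fx V w y) (fx V w' y)
    have h3 := lip86 hβ h w w' y
    have h4 : Real.exp |fx V w' y - fx V w y| ≤ Real.exp (β * |w' - w|) := Real.exp_le_exp.2 h3
    exact h2.trans (mul_le_mul_of_nonneg_right h4 (hW.pos _).le)
  · -- lo
    show l * β * (w' - w) * Real.exp (-(β * (w' - w))) * Kf ρ f x V p w ≤
      σ * (gf ρ f (fx V w') - gf ρ f (fx V w))
    unfold Kf gf
    rw [← integral_sub (hfi w') (hfi w), ← integral_const_mul, ← integral_const_mul]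
    refine integral_mono ((hKi w).const_mul _) (((hfi w').sub (hfi w)).const_mul σ) fun y => ?_
    have h1 := inc86 h w w' y
    have hp0 := h.p0 0 (Fin.cons w y)
    have hw0 : 0 ≤ w' - w := by linarith
    have hδ0 : β * ((w' - w) * p 0 (Fin.cons w y)) ≤ fx V w' y - fx V w y := by
      unfold fx
      linarith
    have hδn : 0 ≤ β * ((w' - w) * p 0 (Fin.cons w y)) := by positivity
    have hle : fx V w y ≤ fx V w' y := by linarith
    have h3 := lip86 hβ h w w' y
    rw [abs_of_nonneg hw0] at h3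
    have hδ1 : fx V w' y - fx V w y ≤ β * (w' - w) := (le_abs_self _).trans h3
    have h4 := hW.lo (fx V w y) (fx V w' y) hle
    refine le_trans ?_ h4
    have h5 : Real.exp (-(β * (w' - w))) ≤ Real.exp (-(fx V w' y - fx V w y)) :=
      Real.exp_le_exp.2 (by linarith)
    have hxf : 0 ≤ x (fx V w y) * f (fx V w y) := mul_nonneg (hW.x0 _) (hW.pos _).le
    have h6 : Real.exp (-(β * (w' - w))) * (β * ((w' - w) * p 0 (Fin.cons w y))) ≤
        Real.exp (-(fx V w' y - fx V w y)) * (fx V w' y - fx V w y) :=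
      mul_le_mul h5 hδ0 hδn (Real.exp_pos _).le
    have h7 := mul_le_mul_of_nonneg_right (mul_le_mul_of_nonneg_left h6 hl.le) hxf
    calc l * β * (w' - w) * Real.exp (-(β * (w' - w))) *
          (p 0 (Fin.cons w y) * x (fx V w y) * f (fx V w y)) =
        l * (Real.exp (-(β * (w' - w))) * (β * ((w' - w) * p 0 (Fin.cons w y)))) *
          (x (fx V w y) * f (fx V w y)) := by ring
      _ ≤ l * (Real.exp (-(fx V w' y - fx V w y)) * (fx V w' y - fx V w y)) *
          (x (fx V w y) * f (fx V w y)) := h7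
      _ = _ := by ring
  · -- up
    show σ * (gf ρ f (fx V w') - gf ρ f (fx V w)) ≤
      l * β * (w' - w) * Real.exp (2 * β * (w' - w)) * Kf ρ f x V p w
    unfold Kf gf
    rw [← integral_sub (hfi w') (hfi w), ← integral_const_mul, ← integral_const_mul]
    refine integral_mono (((hfi w').sub (hfi w)).const_mul σ) ((hKi w).const_mul _) fun y => ?_
    have h1 := inc86 h w w' y
    have h1' := inc86 h w' w y
    have hp0 := h.p0 0 (Fin.cons w y)
    have hw0 : 0 ≤ w' - w := by linarith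
    have hδn : 0 ≤ β * ((w' - w) * p 0 (Fin.cons w y)) := by positivity
    have hle : fx V w y ≤ fx V w' y := by
      unfold fx
      linarith
    have hr := rat86 h w w' y
    rw [abs_of_nonneg hw0] at hr
    have hδ2 : fx V w' y - fx V w y ≤
        β * ((w' - w) * (Real.exp (β * (w' - w)) * p 0 (Fin.cons w y))) := by
      have h8 : fx V w' y - fx V w y ≤ β * ((w' - w) * p 0 (Fin.cons w' y)) := by
        unfold fx
        nlinarith
      exact h8.trans (mul_le_mul_of_nonneg_left (mul_le_mul_of_nonneg_left hr hw0) hβ.le)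
    have h3 := lip86 hβ h w w' y
    rw [abs_of_nonneg hw0] at h3
    have hδ1 : fx V w' y - fx V w y ≤ β * (w' - w) := (le_abs_self _).trans h3
    have h4 := hW.up (fx V w y) (fx V w' y) hle
    refine h4.trans ?_
    have h5 : Real.exp (fx V w' y - fx V w y) ≤ Real.exp (β * (w' - w)) :=
      Real.exp_le_exp.2 hδ1
    have hxf : 0 ≤ x (fx V w y) * f (fx V w y) := mul_nonneg (hW.x0 _) (hW.pos _).le
    have h6 : Real.exp (fx V w' y - fx V w y) * (fx V w' y - fx V w y) ≤
        Real.exp (β * (w' - w)) *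
          (β * ((w' - w) * (Real.exp (β * (w' - w)) * p 0 (Fin.cons w y)))) :=
      mul_le_mul h5 hδ2 (by linarith) (Real.exp_pos _).le
    have h7 := mul_le_mul_of_nonneg_right (mul_le_mul_of_nonneg_left h6 hl.le) hxf
    calc l * Real.exp (fx V w' y - fx V w y) * (fx V w' y - fx V w y) *
          (x (fx V w y) * f (fx V w y)) =
        l * (Real.exp (fx V w' y - fx V w y) * (fx V w' y - fx V w y)) *
          (x (fx V w y) * f (fx V w y)) := by ring
      _ ≤ l * (Real.exp (β * (w' - w)) *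
          (β * ((w' - w) * (Real.exp (β * (w' - w)) * p 0 (Fin.cons w y))))) *
          (x (fx V w y) * f (fx V w y)) := h7
      _ = l * β * (w' - w) * Real.exp (2 * β * (w' - w)) *
          (p 0 (Fin.cons w y) * x (fx V w y) * f (fx V w y)) := by
        rw [show 2 * β * (w' - w) = β * (w' - w) + β * (w' - w) by ring, Real.exp_add]
        ring

end Pool.Agent.W_7d29a1_AM
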