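import Pool.Agent.W_7d29a1_AM.DefsAM

/-!
Leaf A0: the two weights.
-/

namespace Pool.Agent.W_7d29a1_AM

open MeasureTheory ProbabilityTheory Filter Topology

theorem W0_exp_sub {x : ℝ} (_ : 0 ≤ x) : x * Real.exp (-x) ≤ 1 - Real.exp (-x) := by
  have h1 : x + 1 ≤ Real.exp x := Real.add_one_le_exp x
  have h2 : Real.exp x * Real.exp (-x) = 1 := by rw [← Real.exp_add]; simp
  have h3 : (x + 1) * Real.exp (-x) ≤ Real.exp x * Real.exp (-x) :=
    mul_le_mul_of_nonneg_right h1 (Real.exp_pos _).le
  linarith

theorem W0_exp_up {x : ℝ} : Real.exp x - 1 ≤ x * Real.exp x := by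
  have h1 : -x + 1 ≤ Real.exp (-x) := Real.add_one_le_exp (-x)
  have h2 : Real.exp x * Real.exp (-x) = 1 := by rw [← Real.exp_add]; simp
  have h3 : (-x + 1) * Real.exp x ≤ Real.exp (-x) * Real.exp x :=
    mul_le_mul_of_nonneg_right h1 (Real.exp_pos _).le
  linarith

theorem chi_pos (B v : ℝ) : 0 < chi B v := by
  unfold chi; have := Real.exp_pos (v - B); positivity

theorem chi_le_one (B v : ℝ) : chi B v ≤ 1 := by
  unfold chi
  have := Real.exp_pos (v - B)
  rw [div_le_one (by linarith)]; linarith

theorem chi_anti (B : ℝ) {v v' : ℝ} (h : v ≤ v') : chi B v' ≤ chi B v := by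
  unfold chi
  have h1 := Real.exp_pos (v - B)
  have h2 : Real.exp (v - B) ≤ Real.exp (v' - B) := Real.exp_le_exp.mpr (by linarith)
  exact one_div_le_one_div_of_le (by linarith) (by linarith)

theorem chi_rat (B : ℝ) {v v' : ℝ} (h : v ≤ v') :
    chi B v ≤ Real.exp (v' - v) * chi B v' := by
  unfold chi
  have h1 := Real.exp_pos (v - B)
  have h2 := Real.exp_pos (v' - B)
  have h3 : Real.exp (v' - B) = Real.exp (v' - v) * Real.exp (v - B) := by
    rw [← Real.exp_add]; congr 1; ring
  have h4 : 1 ≤ Real.exp (v' - v) := Real.one_le_exp (by linarith)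
  rw [mul_one_div, div_le_div_iff₀ (by linarith) (by linarith), h3]
  nlinarith [Real.exp_pos (v' - v)]

/-- The increment of the truncation. -/
theorem Uf_lo (B : ℝ) {v v' : ℝ} (h : v ≤ v') :
    chi B v * ((v' - v) * Real.exp (-(v' - v))) ≤ Uf B v' - Uf B v := by
  have h1 := Real.exp_pos (v - B)
  have h2 := Real.exp_pos (v' - B)
  have h0 := W0_exp_sub (sub_nonneg.mpr h)
  have hc := (chi_pos B v).le
  have h5 : Uf B v' - Uf B v =
      -Real.log ((Real.exp (-(v' - v)) * (1 + Real.exp (v' - B))) / (1 + Real.exp (v - B))) := by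
    unfold Uf
    rw [Real.log_div (by positivity) (by positivity),
      Real.log_mul (Real.exp_pos _).ne' (by positivity), Real.log_exp]
    ring
  have h6 : (Real.exp (-(v' - v)) * (1 + Real.exp (v' - B))) / (1 + Real.exp (v - B)) =
      1 - chi B v * (1 - Real.exp (-(v' - v))) := by
    have h7 : Real.exp (-(v' - v)) * Real.exp (v' - B) = Real.exp (v - B) := by
      rw [← Real.exp_add]; congr 1; ring
    unfold chi
    rw [mul_add, h7]
    field_simp
    ring
  have h8 : Real.log (1 - chi B v * (1 - Real.exp (-(v' - v)))) ≤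
      -(chi B v * (1 - Real.exp (-(v' - v)))) := by
    have hpos : 0 < 1 - chi B v * (1 - Real.exp (-(v' - v))) := by
      rw [← h6]; positivity
    have := Real.log_le_sub_one_of_pos hpos
    linarith
  rw [h5, h6]
  have h9 := mul_le_mul_of_nonneg_left h0 hc
  linarith

theorem Uf_up (B : ℝ) {v v' : ℝ} :
    Uf B v' - Uf B v ≤ chi B v * (v' - v) := by
  have h1 := Real.exp_pos (v - B)
  have h2 := Real.exp_pos (v' - B)
  have hc := chi_pos B v
  -- convexity of exp
  have hconv := convexOn_exp.2 (Set.mem_univ (0 : ℝ)) (Set.mem_univ (v' - v)) hc.le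
    (sub_nonneg.mpr (chi_le_one B v)) (by ring)
  simp only [smul_eq_mul, mul_zero, zero_add, Real.exp_zero, mul_one] at hconv
  have h3 : chi B v + (1 - chi B v) * Real.exp (v' - v) =
      (1 + Real.exp (v' - B)) / (1 + Real.exp (v - B)) := by
    have h7 : Real.exp (v' - v) * Real.exp (v - B) = Real.exp (v' - B) := by
      rw [← Real.exp_add]; congr 1; ring
    rw [← h7]
    unfold chi
    field_simp
    ring
  rw [h3] at hconv
  have h4 : (1 - chi B v) * (v' - v) ≤
      Real.log ((1 + Real.exp (v' - B)) / (1 + Real.exp (v - B))) := by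
    rw [Real.le_log_iff_exp_le (by positivity)]; exact hconv
  rw [Real.log_div (by positivity) (by positivity)] at h4
  unfold Uf
  linarith

theorem Uf_mono (B : ℝ) {v v' : ℝ} (h : v ≤ v') : Uf B v ≤ Uf B v' := by
  have := Uf_lo B h
  have h1 : 0 ≤ chi B v * ((v' - v) * Real.exp (-(v' - v))) :=
    mul_nonneg (chi_pos B v).le (mul_nonneg (by linarith) (Real.exp_pos _).le)
  linarith

theorem Uf_lip (B : ℝ) {v v' : ℝ} (h : v ≤ v') : Uf B v' - Uf B v ≤ v' - v := by
  have h1 := Uf_up B (v := v) (v' := v')
  have h2 := mul_le_mul_of_nonneg_right (chi_le_one B v) (sub_nonneg.mpr h)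
  linarith

theorem Uf_le (B v : ℝ) : Uf B v ≤ B := by
  unfold Uf
  have h1 : v - B ≤ Real.log (1 + Real.exp (v - B)) := by
    rw [Real.le_log_iff_exp_le (by have := Real.exp_pos (v - B); positivity)]
    linarith
  linarith

theorem Uf_ge {B v : ℝ} (hB : 0 ≤ B) (hv : 0 ≤ v) : -1 ≤ Uf B v := by
  unfold Uf
  have h1 : Real.log (1 + Real.exp (v - B)) ≤ v + 1 := by
    rw [Real.log_le_iff_le_exp (by have := Real.exp_pos (v - B); positivity)]
    have h2 : Real.exp (v - B) ≤ Real.exp v := Real.exp_le_exp.mpr (by linarith)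
    have h3 : 1 ≤ Real.exp v := Real.one_le_exp hv
    have h4 : (1 : ℝ) + 1 ≤ Real.exp 1 := Real.add_one_le_exp 1
    rw [Real.exp_add]
    nlinarith [Real.exp_pos v]
  linarith

/-- Leaf A0. -/
theorem wt64 : WtP := by
  intro l B hl0 hl1 hB
  refine ⟨?_, ?_⟩
  · have hf0 : ∀ v, 0 < fP l B v := fun v => Real.exp_pos _
    have hratf : ∀ v v', fP l B v' ≤ Real.exp |v' - v| * fP l B v := by
      intro v v'
      unfold fP
      rw [← Real.exp_add]
      apply Real.exp_le_exp.mpr
      rcases le_total v v' with h | h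
      · rw [abs_of_nonneg (by linarith)]
        have h1 := Uf_lip B h
        have h2 : l * (Uf B v' - Uf B v) ≤ 1 * (Uf B v' - Uf B v) :=
          mul_le_mul_of_nonneg_right hl1 (by have := Uf_mono B h; linarith)
        linarith
      · have h1 := mul_le_mul_of_nonneg_left (Uf_mono B h) hl0.le
        have h2 := abs_nonneg (v' - v)
        linarith
    refine ⟨?_, ?_, hf0, fun v => (chi_pos B v).le, chi_le_one B, ?_, ?_, ?_, ?_, ?_, hratf⟩
    · unfold fP Uf; fun_prop
    · unfold chi; fun_prop
    · refine ⟨Real.exp (l * B), fun v _ => ?_⟩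
      exact Real.exp_le_exp.mpr (mul_le_mul_of_nonneg_left (Uf_le B v) hl0.le)
    · refine ⟨(B + 1) * Real.exp (l * B), fun v hv => ?_⟩
      have h1 : Real.log (fP l B v) = l * Uf B v := by unfold fP; rw [Real.log_exp]
      rw [h1, abs_mul, abs_of_pos (hf0 v)]
      apply mul_le_mul _ _ (hf0 v).le (by linarith)
      · rw [abs_mul, abs_of_pos hl0]
        have h2 : |Uf B v| ≤ B + 1 := by
          rw [abs_le]; have := Uf_le B v; have := Uf_ge hB hv; constructor <;> linarith
        calc l * |Uf B v| ≤ 1 * |Uf B v| := mul_le_mul_of_nonneg_right hl1 (abs_nonneg _)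
          _ ≤ B + 1 := by linarith
      · exact Real.exp_le_exp.mpr (mul_le_mul_of_nonneg_left (Uf_le B v) hl0.le)
    · -- lower
      intro v v' h
      have h1 := Uf_lo B h
      have h2 : fP l B v' = Real.exp (l * (Uf B v' - Uf B v)) * fP l B v := by
        unfold fP; rw [← Real.exp_add]; congr 1; ring
      have h3 : l * (Uf B v' - Uf B v) + 1 ≤ Real.exp (l * (Uf B v' - Uf B v)) :=
        Real.add_one_le_exp _
      have h4 := mul_le_mul_of_nonneg_left h1 hl0.le
      have h5 : l * (chi B v * ((v' - v) * Real.exp (-(v' - v)))) ≤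
          Real.exp (l * (Uf B v' - Uf B v)) - 1 := by linarith
      have h6 := mul_le_mul_of_nonneg_right h5 (hf0 v).le
      rw [h2]
      calc l * Real.exp (-(v' - v)) * (v' - v) * (chi B v * fP l B v)
          = l * (chi B v * ((v' - v) * Real.exp (-(v' - v)))) * fP l B v := by ring
        _ ≤ _ := by linarith
    · -- upper
      intro v v' h
      have h1 := Uf_up B (v := v) (v' := v')
      have h2 : fP l B v' = Real.exp (l * (Uf B v' - Uf B v)) * fP l B v := by
        unfold fP; rw [← Real.exp_add]; congr 1; ring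
      have hU0 : 0 ≤ Uf B v' - Uf B v := by have := Uf_mono B h; linarith
      have h3 : Real.exp (l * (Uf B v' - Uf B v)) - 1 ≤
          l * (Uf B v' - Uf B v) * Real.exp (l * (Uf B v' - Uf B v)) := W0_exp_up
      have h4 : Real.exp (l * (Uf B v' - Uf B v)) ≤ Real.exp (v' - v) := by
        apply Real.exp_le_exp.mpr
        have := Uf_lip B h
        have h7 : l * (Uf B v' - Uf B v) ≤ 1 * (Uf B v' - Uf B v) :=
          mul_le_mul_of_nonneg_right hl1 hU0
        linarith
      have h5 : l * (Uf B v' - Uf B v) * Real.exp (l * (Uf B v' - Uf B v)) ≤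
          l * (chi B v * (v' - v)) * Real.exp (v' - v) := by
        apply mul_le_mul _ h4 (Real.exp_pos _).le
        · exact mul_nonneg hl0.le (mul_nonneg (chi_pos B v).le (by linarith))
        · exact mul_le_mul_of_nonneg_left h1 hl0.le
      have h6 := mul_le_mul_of_nonneg_right (h3.trans h5) (hf0 v).le
      rw [h2]
      calc 1 * (Real.exp (l * (Uf B v' - Uf B v)) * fP l B v - fP l B v)
          = (Real.exp (l * (Uf B v' - Uf B v)) - 1) * fP l B v := by ring
        _ ≤ _ := h6
        _ = _ := by ring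
    · -- ratio
      intro v v'
      rcases le_total v v' with h | h
      · have h1 := chi_anti B h
        have h2 := hratf v v'
        calc chi B v' * fP l B v' ≤ chi B v * (Real.exp |v' - v| * fP l B v) :=
              mul_le_mul h1 h2 (hf0 v').le (chi_pos B v).le
          _ = _ := by ring
      · have h1 := chi_rat B h
        have h2 : fP l B v' ≤ fP l B v :=
          Real.exp_le_exp.mpr (mul_le_mul_of_nonneg_left (Uf_mono B h) hl0.le)
        have h3 : |v' - v| = v - v' := by rw [abs_of_nonpos (by linarith)]; ring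
        rw [h3]
        calc chi B v' * fP l B v' ≤ Real.exp (v - v') * chi B v * fP l B v :=
              mul_le_mul h1 h2 (hf0 v').le
                (mul_nonneg (Real.exp_pos _).le (chi_pos B v).le)
          _ = _ := by ring
  · have hf0 : ∀ v, 0 < fM l v := fun v => Real.exp_pos _
    have hratf : ∀ v v', fM l v' ≤ Real.exp |v' - v| * fM l v := by
      intro v v'
      unfold fM
      rw [← Real.exp_add]
      apply Real.exp_le_exp.mpr
      have h1 : l * (v - v') ≤ |v' - v| := by
        rw [abs_sub_comm]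
        calc l * (v - v') ≤ l * |v - v'| := mul_le_mul_of_nonneg_left (le_abs_self _) hl0.le
          _ ≤ 1 * |v - v'| := mul_le_mul_of_nonneg_right hl1 (abs_nonneg _)
          _ = _ := one_mul _
      linarith
    have hid : ∀ v v', fM l v' = Real.exp (-(l * (v' - v))) * fM l v := by
      intro v v'; unfold fM; rw [← Real.exp_add]; congr 1; ring
    refine ⟨?_, measurable_const, hf0, fun _ => zero_le_one, fun _ => le_rfl, ?_, ?_, ?_, ?_, ?_,
      hratf⟩
    · unfold fM; fun_prop
    · refine ⟨1, fun v hv => ?_⟩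
      unfold fM
      exact Real.exp_le_one_iff.mpr (by have := mul_nonneg hl0.le hv; linarith)
    · refine ⟨1, fun v hv => ?_⟩
      have h1 : Real.log (fM l v) = -(l * v) := by unfold fM; rw [Real.log_exp]
      have hlv : 0 ≤ l * v := mul_nonneg hl0.le hv
      rw [h1, abs_mul, abs_neg, abs_of_nonneg hlv, abs_of_pos (hf0 v)]
      have := W0_exp_sub hlv
      have h2 := Real.exp_pos (-(l * v))
      unfold fM
      linarith
    · intro v v' h
      rw [hid v v']
      have hD : 0 ≤ v' - v := by linarith
      have hlD : 0 ≤ l * (v' - v) := mul_nonneg hl0.le hD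
      have h1 := W0_exp_sub hlD
      have h2 : Real.exp (-(v' - v)) ≤ Real.exp (-(l * (v' - v))) := by
        apply Real.exp_le_exp.mpr
        have : l * (v' - v) ≤ 1 * (v' - v) := mul_le_mul_of_nonneg_right hl1 hD
        linarith
      have h3 := mul_le_mul_of_nonneg_left h2 hlD
      have h4 := mul_le_mul_of_nonneg_right (h3.trans h1) (hf0 v).le
      calc l * Real.exp (-(v' - v)) * (v' - v) * (1 * fM l v)
          = l * (v' - v) * Real.exp (-(v' - v)) * fM l v := by ring
        _ ≤ _ := h4
        _ = _ := by ring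
    · intro v v' h
      rw [hid v v']
      have hD : 0 ≤ v' - v := by linarith
      have hlD : 0 ≤ l * (v' - v) := mul_nonneg hl0.le hD
      have h1 : -(l * (v' - v)) + 1 ≤ Real.exp (-(l * (v' - v))) := Real.add_one_le_exp _
      have h2 : 1 ≤ Real.exp (v' - v) := Real.one_le_exp hD
      have h3 : 1 - Real.exp (-(l * (v' - v))) ≤ l * (v' - v) * Real.exp (v' - v) := by
        have := mul_le_mul_of_nonneg_left h2 hlD
        linarith
      have h4 := mul_le_mul_of_nonneg_right h3 (hf0 v).le
      calc -1 * (Real.exp (-(l * (v' - v))) * fM l v - fM l v)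
          = (1 - Real.exp (-(l * (v' - v)))) * fM l v := by ring
        _ ≤ _ := h4
        _ = _ := by ring
    · intro v v'
      simpa using hratf v v'

end Pool.Agent.W_7d29a1_AM
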