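import Pool.Agent.W_7d29a1_AM.AmpU5
import Pool.Agent.W_7d29a1_AM.AmpC94
import Pool.Agent.W_7d29a1_AM.Wt64
import Pool.Agent.W_7d29a1_AM.SiteP86
import Pool.Agent.W_7d29a1_AM.Con73
import Pool.Agent.W_7d29a1_AM.Cou35
import Pool.Agent.W_7d29a1_AM.LemD73
import Pool.Agent.W_7d29a1_AM.LemK44
import Pool.Agent.W_7d29a1_AM.LemG66

/-!
Amplification of the upper deviations of the free energy for every law with exponential moments,
every dimension: all leaves together (helper5).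
-/

namespace Pool.Agent.W_7d29a1_AM

open MeasureTheory ProbabilityTheory Pool.Agent.W_MP_7d29a1_pr Pool.Agent.W_7d29a1_h46
  Pool.Agent.W_7d29a1_h46u

/-- Amplification in the class, every law. -/
theorem ampCAll {ρ : Measure ℝ} [IsProbabilityMeasure ρ] (hρ : EM ρ) (hnc : ∀ c : ℝ, ρ {c} ≠ 1)
    {β : ℝ} (hβ : 0 < β) : AmpC ρ β := by
  have h1 : SiteP ρ β := siteP86 hβ
  have h2 : ConP ρ β := conP73 hρ hnc hβ
  have h3 : CouP ρ β := couP35 hρ hβ h2
  exact ampC94 hρ hβ wt64 (lemD73 hβ wt64 h1 h3) (lemK44 h1 h2) (lemG66 hρ hβ wt64 h1 h2)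

/-- **AMP for every law**: amplification of the upper deviations of the free energy. -/
theorem ampAll {d : ℕ} (hd : 0 < d) {ρ : Measure ℝ} [IsProbabilityMeasure ρ] (hρ : EM ρ)
    (hnc : ∀ c : ℝ, ρ {c} ≠ 1) {β : ℝ} (hβ : 0 < β) : AmpU ρ β d :=
  ampU5 hd hρ hβ.le (ampCAll hρ hnc hβ)

end Pool.Agent.W_7d29a1_AM
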