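import Pool.Agent.W_7d29a1_AM.AmpA94

/-!
Amplification for every law, leaf A6, pieces: the upper weight.
-/

set_option autoImplicit false

namespace Pool.Agent.W_7d29a1_AM

open MeasureTheory ProbabilityTheory Filter Topology Pool.Agent.W_MP_7d29a1_pr
  Pool.Agent.W_7d29a1_h46 Pool.Agent.W_7d29a1_h46u Pool.Agent.W_7d29a1_D2.B35
  Pool.Agent.W_7d29a1_Q29 Pool.Agent.W_7d29a1_R34 Pool.Agent.W_7d29a1_SP

lemma Uf_le94 (B v : ℝ) : Uf B v ≤ B := by
  unfold Uf
  have h1 : Real.log (Real.exp (v - B)) ≤ Real.log (1 + Real.exp (v - B)) :=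
    Real.log_le_log (Real.exp_pos _) (by linarith)
  rw [Real.log_exp] at h1
  linarith

lemma Uf_le_self94 (B v : ℝ) : Uf B v ≤ v := by
  unfold Uf
  have h1 : 0 ≤ Real.log (1 + Real.exp (v - B)) :=
    Real.log_nonneg (by linarith [Real.exp_pos (v - B)])
  linarith

lemma Uf_ge94 {B v : ℝ} (hB : 0 ≤ B) (hv : 0 ≤ v) : -Real.log 2 ≤ Uf B v := by
  unfold Uf
  have h1 : Real.log (1 + Real.exp (v - B)) ≤ Real.log (2 * Real.exp v) := by
    refine Real.log_le_log (by positivity) ?_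
    have h2 : Real.exp (v - B) ≤ Real.exp v := Real.exp_le_exp.2 (by linarith)
    have h3 : 1 ≤ Real.exp v := Real.one_le_exp hv
    linarith
  rw [Real.log_mul two_ne_zero (Real.exp_pos _).ne', Real.log_exp] at h1
  linarith

lemma Uf_mono94 (B : ℝ) {v w : ℝ} (h : v ≤ w) : Uf B v ≤ Uf B w := by
  unfold Uf
  have h1 : Real.log (1 + Real.exp (w - B)) ≤ Real.log (Real.exp (w - v) * (1 + Real.exp (v - B))) := by
    refine Real.log_le_log (by positivity) ?_
    rw [mul_add, mul_one, ← Real.exp_add]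
    have h2 : 1 ≤ Real.exp (w - v) := Real.one_le_exp (by linarith)
    have h3 : w - v + (v - B) = w - B := by ring
    rw [h3]
    linarith
  rw [Real.log_mul (Real.exp_pos _).ne' (by positivity), Real.log_exp] at h1
  linarith

lemma Uf_meas94 (B : ℝ) : Measurable (Uf B) := by
  unfold Uf
  fun_prop

lemma Uf_abs94 {B v : ℝ} (hB : 0 ≤ B) (hv : 0 ≤ v) : |Uf B v| ≤ B + 1 := by
  rw [abs_le]
  have h1 := Uf_ge94 hB hv
  have h2 := Uf_le94 B v
  have h3 : Real.log 2 ≤ 1 := by linarith [Real.log_two_lt_d9]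
  constructor <;> linarith

lemma chi_pos94 (B v : ℝ) : 0 < chi B v := by
  unfold chi
  positivity

lemma chi_ge94 {B v : ℝ} (hv : 0 ≤ v) (hB : 2 * v ≤ B) : Uf B v - 1 ≤ chi B v * v := by
  have h1 := Uf_le_self94 B v
  have h2 : v - 1 ≤ chi B v * v := by
    unfold chi
    have h3 : 0 < 1 + Real.exp (v - B) := by positivity
    rw [one_div, inv_mul_eq_div, le_div_iff₀ h3]
    have h4 : Real.exp (v - B) ≤ Real.exp (-v) := Real.exp_le_exp.2 (by linarith)
    have h5 : v * Real.exp (-v) ≤ 1 := by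
      have h6 := Real.add_one_le_exp v
      rw [Real.exp_neg, mul_inv_le_iff₀ (Real.exp_pos _)]
      linarith
    have h7 : v * Real.exp (v - B) ≤ 1 := (mul_le_mul_of_nonneg_left h4 hv).trans h5
    nlinarith [Real.exp_pos (v - B)]
  linarith

lemma chi_mul_le94 {B : ℝ} (hB : 0 ≤ B) (v : ℝ) : chi B v * v ≤ B + 1 := by
  unfold chi
  have h1 : 0 < 1 + Real.exp (v - B) := by positivity
  rw [one_div, inv_mul_eq_div, div_le_iff₀ h1]
  have h2 := Real.add_one_le_exp (v - B)
  have h3 := Real.exp_pos (v - B)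
  nlinarith

/-- The weight at the sites where `s ≤ v`. -/
lemma fP_ge94 {l B s v : ℝ} (hl : 0 < l) (hl1 : l ≤ 1) (hs : 1 ≤ s) (hB : 2 * s ≤ B)
    (hv : s ≤ v) : Real.exp (l * s) / 2 ≤ fP l B v := by
  unfold fP
  have h1 : s - 1 / 2 ≤ Uf B v := by
    refine le_trans ?_ (Uf_mono94 B hv)
    unfold Uf
    have h2 : Real.log (1 + Real.exp (s - B)) ≤ Real.exp (s - B) := by
      have := Real.log_le_sub_one_of_pos (show 0 < 1 + Real.exp (s - B) by positivity)
      linarith
    have h3 : Real.exp (s - B) ≤ Real.exp (-1) := Real.exp_le_exp.2 (by linarith)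
    have h4 : Real.exp (-1) ≤ 1 / 2 := by
      have := Real.exp_neg_one_lt_half
      linarith
    linarith
  have h5 : l * s - 1 / 2 ≤ l * Uf B v := by nlinarith
  have h6 : (1 : ℝ) / 2 ≤ Real.exp (-(1 / 2)) := by
    have := Real.add_one_le_exp (-(1 / 2 : ℝ))
    linarith
  calc Real.exp (l * s) / 2 = Real.exp (l * s) * (1 / 2) := by ring
    _ ≤ Real.exp (l * s) * Real.exp (-(1 / 2)) :=
        mul_le_mul_of_nonneg_left h6 (Real.exp_pos _).le
    _ = Real.exp (l * s - 1 / 2) := by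
        rw [← Real.exp_add]
        congr 1
    _ ≤ _ := Real.exp_le_exp.2 h5

variable {ρ : Measure ℝ} {β : ℝ} {N : ℕ}

/-- **P2a.** The lower bound of the normalisation. -/
lemma gfP_low94 [IsProbabilityMeasure ρ] {l B s q : ℝ} (hl : 0 < l) (hl1 : l ≤ 1) (hs : 1 ≤ s)
    (hB : 2 * s ≤ B) (hP : Wt l 1 (fP l B) (chi B)) {V : (Fin N → ℝ) → ℝ}
    {p : Fin N → (Fin N → ℝ) → ℝ} (h : Cls β V p)
    (hq : q ≤ (PN ρ N).real {y | s ≤ V y}) : q * (Real.exp (l * s) / 2) ≤ gf ρ (fP l B) V := by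
  haveI : IsProbabilityMeasure (PN ρ N) := by unfold PN; infer_instance
  have hS : MeasurableSet {y | s ≤ V y} := measurableSet_le measurable_const h.meas
  have h3 : ∀ y, ({y | s ≤ V y}).indicator (fun _ => Real.exp (l * s) / 2) y ≤ fP l B (V y) := by
    intro y
    by_cases hy : s ≤ V y
    · rw [Set.indicator_of_mem (show y ∈ {y | s ≤ V y} from hy)]
      exact fP_ge94 hl hl1 hs hB hy
    · rw [Set.indicator_of_notMem (show y ∉ {y | s ≤ V y} from hy)]
      exact (hP.pos _).le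
  have h6 := integral_mono (μ := PN ρ N) ((integrable_const (Real.exp (l * s) / 2)).indicator hS)
    (int_f (ρ := ρ) hP h) h3
  rw [integral_indicator_const _ hS, smul_eq_mul] at h6
  refine le_trans ?_ h6
  exact mul_le_mul_of_nonneg_right hq (by positivity)

/-- **P2b.** The logarithm of the weight. -/
lemma log_fP94 {l B : ℝ} (V : (Fin N → ℝ) → ℝ) :
    Ef ρ (fP l B) V (fun y => Real.log (fP l B (V y))) =
      l * Ef ρ (fP l B) V (fun y => Uf B (V y)) := by
  unfold Ef
  have : ∀ y, Real.log (fP l B (V y)) * fP l B (V y) = l * (Uf B (V y) * fP l B (V y)) := by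
    intro y
    have : Real.log (fP l B (V y)) = l * Uf B (V y) := by
      unfold fP
      rw [Real.log_exp]
    rw [this]
    ring
  simp_rw [this]
  rw [integral_const_mul]
  ring

lemma Ef_mono94 [IsProbabilityMeasure ρ] {l σ : ℝ} {f x : ℝ → ℝ} (hW : Wt l σ f x)
    {V F G : (Fin N → ℝ) → ℝ} {p : Fin N → (Fin N → ℝ) → ℝ} (h : Cls β V p)
    (hF : Integrable (fun y => F y * f (V y)) (PN ρ N))
    (hG : Integrable (fun y => G y * f (V y)) (PN ρ N)) (hFG : ∀ y, F y ≤ G y) :
    Ef ρ f V F ≤ Ef ρ f V G := by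
  unfold Ef
  refine div_le_div_of_nonneg_right (integral_mono hF hG fun y => ?_) (gf_pos hW h).le
  exact mul_le_mul_of_nonneg_right (hFG y) (hW.pos _).le

lemma Ef_const94 [IsProbabilityMeasure ρ] {l σ : ℝ} {f x : ℝ → ℝ} (hW : Wt l σ f x)
    {V : (Fin N → ℝ) → ℝ} {p : Fin N → (Fin N → ℝ) → ℝ} (h : Cls β V p) (c : ℝ) :
    Ef ρ f V (fun _ => c) = c := by
  unfold Ef
  rw [integral_const_mul]
  exact mul_div_cancel_right₀ c (gf_pos (ρ := ρ) hW h).ne'

/-- **P2c.** `E_f χ(V) V` against `E_f U`. -/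
lemma chi_Ef94 [IsProbabilityMeasure ρ] {l B x₀ : ℝ} (hl : 0 < l) (hB : 0 ≤ B)
    (hx : 2 * x₀ ≤ B) (hP : Wt l 1 (fP l B) (chi B)) {V : (Fin N → ℝ) → ℝ}
    {p : Fin N → (Fin N → ℝ) → ℝ} (h : Cls β V p) :
    Ef ρ (fP l B) V (fun y => Uf B (V y)) - 1 -
        B * (Real.exp (l * B) * (PN ρ N).real {y | x₀ ≤ V y} / gf ρ (fP l B) V) ≤
      Ef ρ (fP l B) V (fun y => chi B (V y) * V y) := by
  haveI : IsProbabilityMeasure (PN ρ N) := by unfold PN; infer_instance
  set S : Set (Fin N → ℝ) := {y | x₀ ≤ V y} with hSd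
  have hS : MeasurableSet S := measurableSet_le measurable_const h.meas
  have hg := gf_pos (ρ := ρ) hP h
  have hfle : ∀ y, fP l B (V y) ≤ Real.exp (l * B) := fun y =>
    Real.exp_le_exp.2 (mul_le_mul_of_nonneg_left (Uf_le94 B _) hl.le)
  have hU : Integrable (fun y => Uf B (V y) * fP l B (V y)) (PN ρ N) :=
    int_Ff hP h ((Uf_meas94 B).comp h.meas) (M := (B + 1) * Real.exp (l * B)) fun y => by
      rw [abs_mul, abs_of_pos (hP.pos _)]
      exact mul_le_mul (Uf_abs94 hB (h.nonneg y)) (hfle y) (hP.pos _).le (by linarith)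
  have hC : Integrable (fun y => (chi B (V y) * V y) * fP l B (V y)) (PN ρ N) :=
    int_Ff hP h ((hP.measx.comp h.meas).mul h.meas) (M := (B + 1) * Real.exp (l * B)) fun y => by
      rw [abs_mul, abs_of_pos (hP.pos _),
        abs_of_nonneg (mul_nonneg (chi_pos94 _ _).le (h.nonneg y))]
      exact mul_le_mul (chi_mul_le94 hB _) (hfle y) (hP.pos _).le (by linarith)
  have h1 : Integrable (fun y => (1 : ℝ) * fP l B (V y)) (PN ρ N) := by
    simpa using int_f (ρ := ρ) hP h
  have hI : Integrable (fun y => B * (S.indicator (fun _ => Real.exp (l * B)) y)) (PN ρ N) :=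
    ((integrable_const _).indicator hS).const_mul B
  have key : ∀ y, Uf B (V y) * fP l B (V y) - 1 * fP l B (V y) -
      B * (S.indicator (fun _ => Real.exp (l * B)) y) ≤ (chi B (V y) * V y) * fP l B (V y) := by
    intro y
    have hf := hP.pos (V y)
    by_cases hy : x₀ ≤ V y
    · rw [Set.indicator_of_mem (show y ∈ S from hy)]
      have h2 := Uf_le94 B (V y)
      have h3 : 0 ≤ (chi B (V y) * V y) * fP l B (V y) :=
        mul_nonneg (mul_nonneg (chi_pos94 _ _).le (h.nonneg y)) hf.le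
      have h4 : Uf B (V y) * fP l B (V y) ≤ B * fP l B (V y) :=
        mul_le_mul_of_nonneg_right h2 hf.le
      have h5 : B * fP l B (V y) ≤ B * Real.exp (l * B) :=
        mul_le_mul_of_nonneg_left (hfle y) hB
      linarith
    · rw [Set.indicator_of_notMem (show y ∉ S from hy), mul_zero, sub_zero]
      have h2 : Uf B (V y) - 1 ≤ chi B (V y) * V y :=
        chi_ge94 (h.nonneg y) (by linarith [not_le.1 hy])
      have := mul_le_mul_of_nonneg_right h2 hf.le
      linarith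
  have h6 := integral_mono ((hU.sub h1).sub hI) hC key
  have h7 : ∫ y, (Uf B (V y) * fP l B (V y) - 1 * fP l B (V y) -
      B * (S.indicator (fun _ => Real.exp (l * B)) y)) ∂PN ρ N =
      (∫ y, Uf B (V y) * fP l B (V y) ∂PN ρ N) - gf ρ (fP l B) V -
        B * (Real.exp (l * B) * (PN ρ N).real S) := by
    rw [integral_sub (f := fun y => Uf B (V y) * fP l B (V y) - 1 * fP l B (V y)) (hU.sub h1) hI,
      integral_sub hU h1, integral_const_mul, integral_const_mul, integral_indicator_const _ hS,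
      smul_eq_mul]
    unfold gf
    simp only [one_mul]
    ring
  have h8 : (∫ y, Uf B (V y) * fP l B (V y) ∂PN ρ N) - gf ρ (fP l B) V -
      B * (Real.exp (l * B) * (PN ρ N).real S) ≤
      ∫ y, (chi B (V y) * V y) * fP l B (V y) ∂PN ρ N := by
    rw [← h7]
    exact h6
  unfold Ef
  rw [le_div_iff₀ hg]
  have h9 : ((∫ y, Uf B (V y) * fP l B (V y) ∂PN ρ N) / gf ρ (fP l B) V - 1 -
      B * (Real.exp (l * B) * (PN ρ N).real S / gf ρ (fP l B) V)) * gf ρ (fP l B) V =
      (∫ y, Uf B (V y) * fP l B (V y) ∂PN ρ N) - gf ρ (fP l B) V -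
        B * (Real.exp (l * B) * (PN ρ N).real S) := by
    field_simp
  rw [h9]
  exact h8

end Pool.Agent.W_7d29a1_AM
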