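import Pool.Agent.W_7d29a1_AM.AmpL27

/-!
Leaf A6 of the amplification for every law: amplification in the class, from the two weights,
the large gradient, the entropy and the upgrade (helper27).
-/

namespace Pool.Agent.W_7d29a1_AM

open MeasureTheory ProbabilityTheory Filter Topology Pool.Agent.W_MP_7d29a1_pr
  Pool.Agent.W_7d29a1_h46 Pool.Agent.W_7d29a1_h46u

namespace A27

variable {ρ : Measure ℝ} [IsProbabilityMeasure ρ] {β l : ℝ} {N : ℕ} {V : (Fin N → ℝ) → ℝ}
  {p : Fin N → (Fin N → ℝ) → ℝ}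

lemma e16 {x : ℝ} (hx : 3 ≤ x) : 16 ≤ Real.exp x := by
  have h1 := Real.exp_one_gt_d9
  have h2 : Real.exp 3 = Real.exp 1 ^ 3 := by
    rw [← Real.exp_nat_mul]
    norm_num
  have h3 : Real.exp 3 ≤ Real.exp x := Real.exp_le_exp.2 hx
  have h4 : (2.7 : ℝ) ^ 3 ≤ Real.exp 1 ^ 3 := pow_le_pow_left₀ (by norm_num) (by linarith) 3
  rw [h2] at h3
  linarith

/-- The contradiction, with free numbers. -/
theorem core (hρ : EM ρ) (hβ : 0 < β) (hW : WtP) {CD cK cG CG : ℝ} (hCD : 0 < CD) (hcK : 0 < cK)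
    (hcG : 0 < cG) (hCG : 0 < CG) {D K U Θ a L s q : ℝ} (hD : 1 ≤ D)
    (hK : K = 128 + 128 * CD / cK) (hU : U = 256 * D ^ 2 / cK) (hΘ : Θ = 128 * CD * K * D / cG)
    (haa : a = D * K + 8 + CG * Θ ^ 2 * U) (hL : 1 ≤ L) (hKs : K * L ≤ s) (hΘs : Θ * L ≤ s)
    (hq : 0 < q) (hqL : Real.exp (-L) ≤ q)
    (h : Cls β V p) (h1 : q ≤ (PN ρ N).real {y | V y ≤ Real.log 2})
    (h2 : q ≤ (PN ρ N).real {y | s ≤ V y}) (h3 : ∫ y, V y ^ 2 ∂PN ρ N ≤ (s / q) ^ 2)
    (h4 : (PN ρ N).real {y | D * s ≤ V y} ≤ Real.exp (-(4 * a * L)))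
    (HD : ∀ l B : ℝ, 0 < l → l ≤ 1 → 0 ≤ B → ∀ u : ℝ, 0 < u →
      Ef ρ (fP l B) V (fun y => chi B (V y) * (V y - 0)) -
          CD * l * Ns ρ (fP l B) (chi B) N V p u -
          (B + 1) / u * (Nt ρ (fP l B) (chi B) N V p + u - u) ≤
        Ef ρ (fM l) V V + CD * l * Nt ρ (fM l) (fun _ => 1) N V p)
    (HK : ∀ (l σ : ℝ) (f x : ℝ → ℝ), 0 < l → l ≤ 1 → (σ = 1 ∨ σ = -1) → Wt l σ f x →
      cK * l ^ 2 * Nt ρ f x N V p ≤ Ef ρ f V (fun y => Real.log (f (V y))) - Real.log (gf ρ f V))
    (HG : ∀ l B : ℝ, 0 < l → l ≤ 1 → 0 ≤ B → ∀ θ x₀ v : ℝ, 0 ≤ θ → θ ≤ 1 → 0 ≤ x₀ → 0 ≤ v →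
      cG * θ * Ns ρ (fP l B) (chi B) N V p v ≤
        x₀ + Real.exp (l * B) / gf ρ (fP l B) V * Real.exp (CG * θ ^ 2 * v) *
          (∫ y, (max (V y - x₀) 0) ^ (4 / 3 : ℝ) ∂PN ρ N) ^ (3 / 4 : ℝ)) : False := by
  have hK0 : 128 ≤ K := by
    rw [hK]
    have : 0 ≤ 128 * CD / cK := by positivity
    linarith
  have hKp : 0 < K := by linarith
  have hU0 : 0 < U := by
    rw [hU]
    positivity
  have hΘ0 : 0 < Θ := by
    rw [hΘ]
    positivity
  have hLp : 0 < L := by linarith
  have hs : 0 < s := lt_of_lt_of_le (by positivity) hKs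
  have h128 : 128 * L ≤ K * L := mul_le_mul_of_nonneg_right hK0 hLp.le
  have hKL : 128 ≤ K * L := by linarith
  have hs1 : 1 ≤ s := by linarith
  have hDs : s ≤ D * s := le_mul_of_one_le_left hs.le hD
  set l := K * L / s with hldef
  have hl : 0 < l := by positivity
  have hl1 : l ≤ 1 := by
    rw [hldef, div_le_one hs]
    exact hKs
  have hls : l * s = K * L := by
    rw [hldef]
    field_simp
  set B := D * s with hB
  have hB0 : 0 ≤ B := by positivity
  have hsB : s ≤ B := hDs
  have hlB : l * B = D * K * L := by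
    rw [hB, show l * (D * s) = D * (l * s) by ring, hls]
    ring
  obtain ⟨hWp, hWm⟩ := hW l B hl hl1 hB0
  set gp := gf ρ (fP l B) V with hgp
  set gm := gf ρ (fM l) V with hgm
  have hgp0 : 0 < gp := gf_pos hWp h
  have hgm0 : 0 < gm := gf_pos hWm h
  have hgp1 : q * (Real.exp (K * L) / 2) ≤ gp := by
    have := gp_lo hl hl1 hWp h hsB h2
    rwa [hls] at this
  have hgm1 : q * (1 / 2) ≤ gm := gm_lo (l := l) hl1 hWm h h1
  -- the two exponential comparisons

  have x1 : Real.exp (l * (s / 2)) ≤ gp / 8 := by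
    have e1 : l * (s / 2) = K * L / 2 := by
      rw [show l * (s / 2) = l * s / 2 by ring, hls]
    have e2 : 16 ≤ Real.exp (K * L / 2 - L) := e16 (by linarith)
    have e3 : Real.exp (K * L / 2 - L) * Real.exp (K * L / 2) =
        Real.exp (-L) * Real.exp (K * L) := by
      rw [← Real.exp_add, ← Real.exp_add]
      congr 1
      ring
    have e4 := mul_le_mul_of_nonneg_right e2 (Real.exp_pos (K * L / 2)).le
    have e5 := mul_le_mul_of_nonneg_right hqL (Real.exp_pos (K * L)).le
    rw [e1]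
    linarith
  have x2 : Real.exp (l * B) * (PN ρ N).real {y | B ≤ V y} ≤ gp / 8 := by
    have e1 := mul_le_mul_of_nonneg_left h4 (Real.exp_pos (l * B)).le
    have e2 : Real.exp (l * B) * Real.exp (-(4 * a * L)) ≤ Real.exp (-L) * Real.exp (K * L) *
        Real.exp (-3) := by
      rw [← Real.exp_add, ← Real.exp_add, ← Real.exp_add]
      apply Real.exp_le_exp.2
      rw [hlB]
      have e3 : D * K + 8 ≤ a := by
        rw [haa]
        have : 0 ≤ CG * Θ ^ 2 * U := by positivity
        linarith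
      have e4 : (D * K + 8) * L ≤ a * L := mul_le_mul_of_nonneg_right e3 hLp.le
      have e5 : 0 ≤ D * K * L := by positivity
      have e6 : 0 ≤ K * L := by positivity
      linarith
    have e3 : 16 ≤ Real.exp 3 := e16 le_rfl
    have e4 : Real.exp (-3) ≤ 1 / 16 := by
      rw [Real.exp_neg, ← one_div]
      exact one_div_le_one_div_of_le (by norm_num) e3
    have e5 := mul_le_mul_of_nonneg_right hqL (Real.exp_pos (K * L)).le
    have e6 : Real.exp (-L) * Real.exp (K * L) * Real.exp (-3) ≤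
        q * Real.exp (K * L) * (1 / 16) :=
      mul_le_mul e5 e4 (Real.exp_pos _).le (by positivity)
    linarith
  -- the mean under the upper tilt

  have x3 : 3 * s / 16 ≤ Ef ρ (fP l B) V (fun y => chi B (V y) * (V y - 0)) := by
    have e1 := up_lo hρ hβ hl hWp h hs
    unfold Ef
    rw [le_div_iff₀ hgp0]
    refine le_trans ?_ e1
    have e2 : 3 / 4 * gp ≤ gp - Real.exp (l * (s / 2)) -
        Real.exp (l * B) * (PN ρ N).real {y | B ≤ V y} := by linarith
    have e3 := mul_le_mul_of_nonneg_left e2 (by positivity : 0 ≤ s / 4)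
    linarith
  -- the mean under the lower tilt

  have x4 : Ef ρ (fM l) V V ≤ s / 16 := by
    have e1 := lo_up hρ hβ hl hWm h hs
    unfold Ef
    rw [div_le_iff₀ hgm0]
    refine e1.trans ?_
    have e2 : 2 / l * Real.exp (-(l * s / 64)) ≤ s / 32 * gm := by
      rw [hls]
      have e3 : 2 / l = 2 * s / (K * L) := by
        rw [hldef]
        field_simp
      have e4 : 2 * s / (K * L) ≤ s / 64 := by
        rw [div_le_div_iff₀ (by positivity) (by norm_num)]
        have e5 := mul_le_mul_of_nonneg_left hKL hs.le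
        linarith
      have e5 : Real.exp (-(K * L / 64)) ≤ Real.exp (-L) :=
        Real.exp_le_exp.2 (by linarith)
      have e6 : 2 / l * Real.exp (-(K * L / 64)) ≤ s / 64 * q := by
        rw [e3]
        exact mul_le_mul e4 (e5.trans hqL) (Real.exp_pos _).le (by positivity)
      have e7 := mul_le_mul_of_nonneg_left hgm1 (by positivity : 0 ≤ s / 32)
      linarith
    linarith
  -- the sum of squares, lower tilt

  have hlog2 : Real.log 2 ≤ 1 := by
    have := Real.log_le_sub_one_of_pos (show (0 : ℝ) < 2 by norm_num)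
    linarith
  have x5 : CD * l * Nt ρ (fM l) (fun _ => 1) N V p ≤ s / 64 := by
    have e1 := HK l (-1) (fM l) (fun _ => 1) hl hl1 (Or.inr rfl) hWm
    have e2 : Ef ρ (fM l) V (fun y => Real.log (fM l (V y))) ≤ 0 :=
      ent_le hWm h le_rfl fun v hv => by
        unfold fM
        rw [Real.log_exp]
        have : 0 ≤ l * v := by positivity
        linarith
    have e3 : -(2 * L) ≤ Real.log gm := by
      rw [Real.le_log_iff_exp_le hgm0]
      refine le_trans ?_ hgm1
      have e4 : Real.exp (-(2 * L)) = Real.exp (-L) * Real.exp (-L) := by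
        rw [← Real.exp_add]
        congr 1
        ring
      rw [e4]
      refine mul_le_mul hqL ?_ (Real.exp_pos _).le hq.le
      have e5 : Real.exp (-L) ≤ Real.exp (-1) := Real.exp_le_exp.2 (by linarith)
      have e6 := Real.exp_one_gt_d9
      have e7 : Real.exp (-1) ≤ 1 / 2 := by
        rw [Real.exp_neg, ← one_div]
        exact one_div_le_one_div_of_le (by norm_num) (by linarith)
      linarith
    have e8 : cK * l ^ 2 * Nt ρ (fM l) (fun _ => 1) N V p ≤ 2 * L := by linarith
    have e9 : 128 * CD ≤ cK * K := by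
      have : cK * K = 128 * cK + 128 * CD := by
        rw [hK]
        field_simp
      rw [this]
      linarith
    have e10 : 0 ≤ l * Nt ρ (fM l) (fun _ => 1) N V p := mul_nonneg hl.le (Nt0 hWm h)
    have e11 : cK * K * (l * Nt ρ (fM l) (fun _ => 1) N V p) * L ≤ 2 * s * L := by
      have e12 := mul_le_mul_of_nonneg_right e8 hs.le
      have e13 : cK * l ^ 2 * Nt ρ (fM l) (fun _ => 1) N V p * s =
          cK * K * (l * Nt ρ (fM l) (fun _ => 1) N V p) * L := by
        calc _ = cK * (l * Nt ρ (fM l) (fun _ => 1) N V p) * (l * s) := by ring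
          _ = _ := by rw [hls]; ring
      linarith
    have e14 := le_of_mul_le_mul_right e11 hLp
    have e15 := mul_le_mul_of_nonneg_right e9 e10
    linarith
  -- the sum of squares, upper tilt

  have hgp2 : 1 ≤ gp := by
    have e1 : 16 ≤ Real.exp (K * L - L) := e16 (by linarith)
    have e2 : Real.exp (K * L - L) = Real.exp (-L) * Real.exp (K * L) := by
      rw [← Real.exp_add]
      congr 1
      ring
    have e3 := mul_le_mul_of_nonneg_right hqL (Real.exp_pos (K * L)).le
    linarith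
  set u := U * s ^ 2 / L with hu
  have hu0 : 0 < u := by positivity
  have huL : u * L = U * s ^ 2 := by
    rw [hu]
    field_simp
  have x6 : (B + 1) / u * (Nt ρ (fP l B) (chi B) N V p + u - u) ≤ s / 64 := by
    have e1 := HK l 1 (fP l B) (chi B) hl hl1 (Or.inl rfl) hWp
    have e2 : Ef ρ (fP l B) V (fun y => Real.log (fP l B (V y))) ≤ l * B :=
      ent_le hWp h (by positivity) fun v hv => by
        unfold fP
        rw [Real.log_exp]
        exact mul_le_mul_of_nonneg_left (uB B v) hl.le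
    have e3 : 0 ≤ Real.log gp := Real.log_nonneg hgp2
    have e4 : cK * l ^ 2 * Nt ρ (fP l B) (chi B) N V p ≤ D * K * L := by linarith
    have e5 : 0 ≤ Nt ρ (fP l B) (chi B) N V p := Nt0 hWp h
    set n := Nt ρ (fP l B) (chi B) N V p with hn
    have e6 : cK * K * L * n ≤ D * s ^ 2 := by
      have e7 := mul_le_mul_of_nonneg_right e4 (sq_nonneg s)
      have e8 : cK * l ^ 2 * n * s ^ 2 = (cK * K * L * n) * (K * L) := by
        calc _ = cK * n * (l * s) ^ 2 := by ring
          _ = _ := by rw [hls]; ring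
      have e9 : D * K * L * s ^ 2 = (D * s ^ 2) * (K * L) := by ring
      rw [e8, e9] at e7
      exact le_of_mul_le_mul_right e7 (by positivity)
    rw [add_sub_cancel_right, div_mul_eq_mul_div, div_le_iff₀ hu0]
    have e10 : B + 1 ≤ 2 * (D * s) := by
      rw [hB]
      linarith
    have e11 : (B + 1) * n * (cK * K * L) ≤ s / 64 * u * (cK * K * L) := by
      have e12 : (B + 1) * (cK * K * L * n) ≤ 2 * (D * s) * (D * s ^ 2) :=
        mul_le_mul e10 e6 (by positivity) (by positivity)
      have e13 : s / 64 * u * (cK * K * L) = s / 64 * (cK * K) * (u * L) := by ring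
      have e14 : U * cK = 256 * D ^ 2 := by
        rw [hU]
        field_simp
      have e15 : s / 64 * (cK * K) * (U * s ^ 2) = 4 * (D ^ 2 * K * s ^ 3) := by
        calc _ = s / 64 * K * s ^ 2 * (U * cK) := by ring
          _ = _ := by rw [e14]; ring
      rw [e13, huL, e15]
      have e16 : 2 * (D * s) * (D * s ^ 2) = 2 * (D ^ 2 * s ^ 3) := by ring
      have e17 : 0 ≤ D ^ 2 * s ^ 3 := by positivity
      have e18 : D ^ 2 * s ^ 3 * 1 ≤ D ^ 2 * s ^ 3 * K :=
        mul_le_mul_of_nonneg_left (by linarith) e17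
      linarith
    exact le_of_mul_le_mul_right e11 (by positivity)
  -- the stopped sum of squares

  have x7 : CD * l * Ns ρ (fP l B) (chi B) N V p u ≤ s / 64 := by
    set n := Ns ρ (fP l B) (chi B) N V p u with hn
    have e1 := HG l B hl hl1 hB0 (Θ * L / s) B u (by positivity)
      (by rw [div_le_one hs]; exact hΘs) hB0 hu0.le
    have e2 : (∫ y, (max (V y - B) 0) ^ (4 / 3 : ℝ) ∂PN ρ N) ^ (3 / 4 : ℝ) ≤
        8 * (s / q) * Real.exp (-(a * L)) := by
      refine hol h.meas (mem2 hρ hβ h) h.nonneg hB0 (by positivity) (Real.exp_pos _) h3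
        (h4.trans (le_of_eq ?_))
      rw [← Real.exp_nat_mul]
      congr 1
      push_cast
      ring
    have e3 : CG * (Θ * L / s) ^ 2 * u = CG * Θ ^ 2 * U * L := by
      rw [hu]
      field_simp
    have e4 : Real.exp (l * B) / gp ≤ Real.exp (D * K * L) := by
      rw [hlB, div_le_iff₀ hgp0]
      exact le_mul_of_one_le_right (Real.exp_pos _).le hgp2
    have e5 : s / q ≤ s * Real.exp L := by
      rw [div_le_iff₀ hq, mul_assoc]
      have e6 : 1 ≤ Real.exp L * q := by
        have e7 := mul_le_mul_of_nonneg_left hqL (Real.exp_pos L).le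
        rw [← Real.exp_add, add_neg_cancel, Real.exp_zero] at e7
        exact e7
      exact le_mul_of_one_le_right hs.le e6
    have e6 : Real.exp (l * B) / gp * Real.exp (CG * (Θ * L / s) ^ 2 * u) *
        (∫ y, (max (V y - B) 0) ^ (4 / 3 : ℝ) ∂PN ρ N) ^ (3 / 4 : ℝ) ≤ s := by
      rw [e3]
      have e7 : 0 ≤ (∫ y, (max (V y - B) 0) ^ (4 / 3 : ℝ) ∂PN ρ N) ^ (3 / 4 : ℝ) :=
        Real.rpow_nonneg (integral_nonneg fun y => Real.rpow_nonneg (le_max_right _ _) _) _
      calc _ ≤ Real.exp (D * K * L) * Real.exp (CG * Θ ^ 2 * U * L) *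
            (8 * (s * Real.exp L) * Real.exp (-(a * L))) := by
            refine mul_le_mul (mul_le_mul_of_nonneg_right e4 (Real.exp_pos _).le)
              (e2.trans ?_) e7 (by positivity)
            gcongr
        _ = 8 * s * (Real.exp (D * K * L) * Real.exp (CG * Θ ^ 2 * U * L) *
            Real.exp L * Real.exp (-(a * L))) := by ring
        _ = 8 * s * Real.exp (-(7 * L)) := by
            rw [← Real.exp_add, ← Real.exp_add, ← Real.exp_add]
            congr 2
            rw [haa]
            ring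
        _ ≤ s := by
            have e8 : 16 ≤ Real.exp (7 * L) := e16 (by linarith)
            have e9 : Real.exp (-(7 * L)) ≤ 1 / 16 := by
              rw [Real.exp_neg, ← one_div]
              exact one_div_le_one_div_of_le (by norm_num) e8
            have e10 := mul_le_mul_of_nonneg_left e9 (by positivity : 0 ≤ 8 * s)
            linarith
    have e7 : cG * (Θ * L / s) * n ≤ 2 * (D * s) := by linarith
    have e8 : cG * (Θ * L / s) * n = 128 * D * (CD * l * n) := by
      rw [hΘ, hldef]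
      field_simp
    rw [e8] at e7
    have e9 : 128 * (CD * l * n) * D ≤ 2 * s * D := by linarith
    have e10 := le_of_mul_le_mul_right e9 (by linarith)
    linarith
  have x8 := HD l B hl hl1 hB0 u hu0
  linarith

end A27

/-- A6: amplification in the class. -/
theorem ampC27 {ρ : Measure ℝ} [IsProbabilityMeasure ρ] {β : ℝ} (hρ : EM ρ) (hβ : 0 < β)
    (hW : WtP) (hD : LemD ρ β) (hK : LemK ρ β) (hG : LemG ρ β) : AmpC ρ β := by
  obtain ⟨CD, hCD, HD⟩ := hD
  obtain ⟨cK, hcK, HK⟩ := hK
  obtain ⟨cG, CG, hcG, hCG, HG⟩ := hG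
  intro D hD1
  set K := 128 + 128 * CD / cK with hKd
  set U := 256 * D ^ 2 / cK with hUd
  set Θ := 128 * CD * K * D / cG with hΘd
  set a := D * K + 8 + CG * Θ ^ 2 * U with had
  have hK0 : 0 < K := by positivity
  have hΘ0 : 0 < Θ := by positivity
  have hU0 : 0 < U := by positivity
  have ha0 : 0 < a := by positivity
  refine ⟨K + Θ + 12 * a + 1, by linarith, ?_⟩
  intro N V p h q s hq hq2 hs h1 h2 h3
  by_contra hcon
  push Not at hcon
  set t := Real.log (1 / q) with ht
  have ht0 : 1 / 2 ≤ t := by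
    have e1 : Real.log 2 ≤ t := by
      rw [ht]
      apply Real.log_le_log (by norm_num)
      rw [le_div_iff₀ hq]
      linarith
    have e2 := Real.log_two_gt_d9
    linarith
  have hqt : q = Real.exp (-t) := by
    rw [ht, one_div, Real.log_inv, neg_neg, Real.exp_log hq]
  have hL : 1 ≤ 1 + t := by linarith
  have m1 : K * (1 + t) ≤ (K + Θ + 12 * a + 1) * (1 + t) :=
    mul_le_mul_of_nonneg_right (by linarith) (by linarith)
  have m2 : Θ * (1 + t) ≤ (K + Θ + 12 * a + 1) * (1 + t) :=
    mul_le_mul_of_nonneg_right (by linarith) (by linarith)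
  refine A27.core (V := V) (p := p) hρ hβ hW hCD hcK hcG hCG hD1 hKd hUd hΘd had hL
    (m1.trans hs) (m2.trans hs) hq ?_ h h1 h2 h3 ?_ ?_ ?_ ?_
  · rw [hqt]
    exact Real.exp_le_exp.2 (by linarith)
  · refine hcon.le.trans ?_
    rw [Real.rpow_def_of_pos hq]
    apply Real.exp_le_exp.2
    have e1 : Real.log q = -t := by
      rw [hqt, Real.log_exp]
    rw [e1]
    have e2 : 12 * a * t ≤ (K + Θ + 12 * a + 1) * t :=
      mul_le_mul_of_nonneg_right (by linarith) (by linarith)
    have e3 : a * (1 / 2) ≤ a * t := mul_le_mul_of_nonneg_left ht0 ha0.le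
    linarith
  · intro l B hl hl1 hB u hu
    exact HD l B hl hl1 hB N V V p p (fun _ => 0) u u h h measurable_const (fun _ => le_rfl)
      ⟨0, fun _ => le_rfl⟩ (fun y y₁ => by
        rw [sub_zero]
        exact h.conv y₁ y) hu hu.le le_rfl
  · intro l σ f x hl hl1 hσ hf
    exact HK l σ f x hl hl1 hσ hf N V p h
  · intro l B hl hl1 hB θ x₀ v hθ hθ1 hx hv
    have e1 := HG l B hl hl1 hB N V p V (fun _ => 0) θ x₀ v h h.meas h.nonneg
      ⟨V 0 + β, fun y => by
        have e2 := A27.vle hβ h y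
        have e3 := h.nonneg 0
        have e4 : 0 ≤ ∑ i, |y i| := Finset.sum_nonneg fun i _ => abs_nonneg _
        have e5 := mul_nonneg e3 e4
        linarith⟩ measurable_const (fun _ => le_rfl) ⟨0, fun _ => le_rfl⟩
      (fun y y₂ _ => by
        have e2 := h.conv y y₂
        have e3 := h.nonneg y
        linarith) hθ hθ1 hx hv
    have e5 : Ef ρ (fP l B) V (fun _ => 0) = 0 := by
      unfold Ef
      simp
    rw [e5, zero_add] at e1
    exact e1

end Pool.Agent.W_7d29a1_AM
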