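import Pool.Agent.W_7d29a1_AM.LemG96

/-!
Amplification for every law, leaf A6: amplification in the class, second text (helper96).
-/

set_option autoImplicit false

namespace Pool.Agent.W_7d29a1_AM

open MeasureTheory ProbabilityTheory Filter Topology Pool.Agent.W_MP_7d29a1_pr
  Pool.Agent.W_7d29a1_h46 Pool.Agent.W_7d29a1_h46u

namespace C96

open G96

variable {ρ : Measure ℝ} {β : ℝ} {N : ℕ}

lemma gf_ge [IsProbabilityMeasure ρ] {l σ : ℝ} {f x : ℝ → ℝ} (hW : Wt l σ f x)
    {V : (Fin N → ℝ) → ℝ} {p : Fin N → (Fin N → ℝ) → ℝ} (h : Cls β V p)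
    {A : Set (Fin N → ℝ)} (hA : MeasurableSet A) {a q : ℝ} (ha : 0 ≤ a)
    (hq : q ≤ (PN ρ N).real A) (hfa : ∀ y ∈ A, a ≤ f (V y)) : q * a ≤ gf ρ f V := by
  have i1 := int_f (ρ := ρ) hW h
  calc q * a ≤ (PN ρ N).real A * a := mul_le_mul_of_nonneg_right hq ha
    _ = ∫ y in A, a ∂PN ρ N := by rw [setIntegral_const, smul_eq_mul]
    _ ≤ ∫ y in A, f (V y) ∂PN ρ N :=
        setIntegral_mono_on (integrable_const _).integrableOn i1.integrableOn hA hfa
    _ ≤ ∫ y, f (V y) ∂PN ρ N :=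
        setIntegral_le_integral i1 (Eventually.of_forall fun y => (hW.pos _).le)

/-- Linear growth. -/
lemma grow {V : (Fin N → ℝ) → ℝ} {p : Fin N → (Fin N → ℝ) → ℝ} (hβ : 0 ≤ β) (h : Cls β V p)
    (y : Fin N → ℝ) : V y ≤ (V 0 + β) * (1 + ∑ i, |y i|) := by
  have h1 := h.conv y 0
  have h2 : ∑ i, ((0 : Fin N → ℝ) i - y i) * p i y ≥ -∑ i, |y i| := by
    rw [ge_iff_le, ← Finset.sum_neg_distrib]
    refine Finset.sum_le_sum fun i _ => ?_
    simp only [Pi.zero_apply, zero_sub]
    have e1 := h.p0 i y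
    have e2 := h.p1 i y
    have e3 : |y i| * p i y ≤ |y i| := mul_le_of_le_one_right (abs_nonneg _) e2
    have e4 : y i * p i y ≤ |y i| * p i y := mul_le_mul_of_nonneg_right (le_abs_self _) e1
    linarith
  have h3 := mul_le_mul_of_nonneg_left h2 hβ
  have h4 : 0 ≤ ∑ i, |y i| := Finset.sum_nonneg fun i _ => abs_nonneg _
  have h5 := h.nonneg 0
  have h6 : β * (-∑ i, |y i|) = -(β * ∑ i, |y i|) := by ring
  rw [h6] at h3
  have h7 := mul_nonneg h5 h4
  nlinarith

lemma sq_intV (hρ : EM ρ) [IsProbabilityMeasure ρ] {V : (Fin N → ℝ) → ℝ}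
    {p : Fin N → (Fin N → ℝ) → ℝ} (hβ : 0 ≤ β) (h : Cls β V p) :
    Integrable (fun y => V y ^ 2) (PN ρ N) := by
  have hi : Integrable (fun y : Fin N → ℝ => (V 0 + β) ^ 2 * ((N + 1) * (1 + ∑ i, (y i) ^ 2)))
      (PN ρ N) :=
    (((integrable_const _).add
      (integrable_finsetSum _ fun i _ => coord_int hρ i)).const_mul _).const_mul _
  refine hi.mono' (h.meas.pow_const _).aestronglyMeasurable (Eventually.of_forall fun y => ?_)
  rw [Real.norm_of_nonneg (sq_nonneg _)]
  have h3 : V y ^ 2 ≤ ((V 0 + β) * (1 + ∑ i, |y i|)) ^ 2 :=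
    pow_le_pow_left₀ (h.nonneg y) (grow hβ h y) 2
  have h4 : (1 + ∑ i, |y i|) ^ 2 ≤ (N + 1) * (1 + ∑ i, (y i) ^ 2) := by
    have e2 : (∑ i, |y i|) ^ 2 ≤ N * ∑ i, (y i) ^ 2 := by
      have := sq_sum_le_card_mul_sum_sq (s := (Finset.univ : Finset (Fin N))) (f := fun i => |y i|)
      simpa [sq_abs] using this
    exact sq_aux (Nat.cast_nonneg N) (Finset.sum_nonneg fun i _ => sq_nonneg _) e2
  rw [mul_pow] at h3
  exact h3.trans (mul_le_mul_of_nonneg_left h4 (sq_nonneg _))

/-- The tail. -/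
lemma tail [IsProbabilityMeasure ρ] {V : (Fin N → ℝ) → ℝ} (hV : Measurable V)
    (h0 : ∀ y, 0 ≤ V y) (hI : Integrable (fun y => V y ^ 2) (PN ρ N)) {x₀ : ℝ} (hx : 0 ≤ x₀) :
    (∫ y, (max (V y - x₀) 0) ^ (4 / 3 : ℝ) ∂PN ρ N) ^ (3 / 4 : ℝ) ≤
      (∫ y, V y ^ 2 ∂PN ρ N) ^ (1 / 2 : ℝ) *
        ((PN ρ N).real {y | x₀ ≤ V y}) ^ (1 / 4 : ℝ) := by
  have hp : Real.HolderConjugate (3 / 2) 3 := by
    rw [Real.holderConjugate_iff]
    norm_num
  have hA : MeasurableSet {y | x₀ ≤ V y} := measurableSet_le measurable_const hV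
  obtain ⟨g, hg⟩ : ∃ g : (Fin N → ℝ) → ℝ, g = fun y => (max (V y - x₀) 0) ^ (4 / 3 : ℝ) :=
    ⟨_, rfl⟩
  obtain ⟨k, hk⟩ : ∃ k : (Fin N → ℝ) → ℝ, k = {y | x₀ ≤ V y}.indicator (fun _ => 1) := ⟨_, rfl⟩
  have hg0 : ∀ y, 0 ≤ g y := fun y => by
    rw [hg]; exact Real.rpow_nonneg (le_max_right _ _) _
  have hgm : Measurable g := by
    rw [hg]; exact ((hV.sub_const _).max measurable_const).pow_const _
  have hk0 : ∀ y, 0 ≤ k y := fun y => by
    rw [hk]; exact Set.indicator_nonneg (fun _ _ => zero_le_one) _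
  have hkm : Measurable k := by rw [hk]; exact measurable_const.indicator hA
  have hk1 : ∀ y, k y ≤ 1 := fun y => by
    rw [hk]
    exact Set.indicator_le_self' (fun _ _ => zero_le_one) _
  have hgp : ∀ y, g y ^ (3 / 2 : ℝ) = (max (V y - x₀) 0) ^ 2 := fun y => by
    rw [hg]
    simp only
    rw [← Real.rpow_mul (le_max_right _ _), ← Real.rpow_natCast _ 2]
    norm_num
  have hgle : ∀ y, g y ^ (3 / 2 : ℝ) ≤ V y ^ 2 := fun y => by
    rw [hgp]
    exact pow_le_pow_left₀ (le_max_right _ _) (max_le (by linarith) (h0 y)) 2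
  have hgi : Integrable (fun y => g y ^ (3 / 2 : ℝ)) (PN ρ N) :=
    hI.mono' (hgm.pow_const _).aestronglyMeasurable (Eventually.of_forall fun y => by
      rw [Real.norm_of_nonneg (Real.rpow_nonneg (hg0 y) _)]; exact hgle y)
  have h1 : MemLp g (ENNReal.ofReal (3 / 2)) (PN ρ N) := by
    rw [← integrable_norm_rpow_iff hgm.aestronglyMeasurable (by simp) (by simp)]
    refine hgi.congr (Eventually.of_forall fun y => ?_)
    simp only
    rw [Real.norm_of_nonneg (hg0 y), ENNReal.toReal_ofReal (by norm_num)]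
  have h2 : MemLp k (ENNReal.ofReal 3) (PN ρ N) :=
    MemLp.of_bound hkm.aestronglyMeasurable 1 (Eventually.of_forall fun w => by
      rw [Real.norm_of_nonneg (hk0 w)]; exact hk1 w)
  have h3 := integral_mul_le_Lp_mul_Lq_of_nonneg hp (Eventually.of_forall hg0)
    (Eventually.of_forall hk0) h1 h2
  have e1 : ∀ y, g y * k y = (max (V y - x₀) 0) ^ (4 / 3 : ℝ) := fun y => by
    rw [hg, hk]
    by_cases hy : x₀ ≤ V y
    · simp [Set.indicator, hy]
    · have : max (V y - x₀) 0 = 0 := max_eq_right (by push Not at hy; linarith)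
      simp [Set.indicator, hy, this]
  have e2 : ∫ y, k y ^ (3 : ℝ) ∂PN ρ N = (PN ρ N).real {y | x₀ ≤ V y} := by
    have : (fun y => k y ^ (3 : ℝ)) = {y | x₀ ≤ V y}.indicator (fun _ => (1 : ℝ)) := by
      funext y
      rw [hk]
      by_cases hy : x₀ ≤ V y
      · simp [Set.indicator, hy]
      · simp [Set.indicator, hy]
    rw [this, integral_indicator hA, setIntegral_const, smul_eq_mul, mul_one]
  simp only [e1] at h3
  rw [e2] at h3
  have hI0 : 0 ≤ ∫ y, V y ^ 2 ∂PN ρ N := integral_nonneg fun y => sq_nonneg _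
  have h4 : (∫ y, g y ^ (3 / 2 : ℝ) ∂PN ρ N) ^ (1 / (3 / 2) : ℝ) ≤
      (∫ y, V y ^ 2 ∂PN ρ N) ^ (1 / (3 / 2) : ℝ) :=
    Real.rpow_le_rpow (integral_nonneg fun y => Real.rpow_nonneg (hg0 y) _)
      (integral_mono hgi hI hgle) (by norm_num)
  have hP0 : 0 ≤ (PN ρ N).real {y | x₀ ≤ V y} := measureReal_nonneg
  have h5 := h3.trans (mul_le_mul_of_nonneg_right h4 (Real.rpow_nonneg hP0 _))
  have h6 := Real.rpow_le_rpow (z := (3 / 4 : ℝ)) (integral_nonneg fun y =>
    Real.rpow_nonneg (le_max_right _ _) _) h5 (by norm_num)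
  refine h6.trans (le_of_eq ?_)
  rw [Real.mul_rpow (Real.rpow_nonneg hI0 _) (Real.rpow_nonneg hP0 _), ← Real.rpow_mul hI0,
    ← Real.rpow_mul hP0]
  norm_num

/-- The truncation near the top. -/
lemma chi_low {D s v : ℝ} (hD : 1 ≤ D) (hs : 0 ≤ s) (hv : 0 ≤ v) :
    Uf (2 * D * s) v - 1 - 2 * D * s * {z : ℝ | D * s ≤ z}.indicator (fun _ => 1) v ≤
      chi (2 * D * s) v * v := by
  have hDs : 0 ≤ D * s := by positivity
  have hc : 0 ≤ chi (2 * D * s) v * v := mul_nonneg (chi_pos _ _).le hv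
  by_cases h : D * s ≤ v
  · have e1 : {z : ℝ | D * s ≤ z}.indicator (fun _ => (1 : ℝ)) v = 1 := by
      simp [Set.indicator, h]
    rw [e1]
    have := Uf_le (2 * D * s) v
    linarith
  · have e1 : {z : ℝ | D * s ≤ z}.indicator (fun _ => (1 : ℝ)) v = 0 := by
      simp [Set.indicator, h]
    rw [e1, mul_zero, sub_zero]
    push Not at h
    have e2 : Uf (2 * D * s) v ≤ v := by
      unfold Uf
      have : 0 ≤ Real.log (1 + Real.exp (v - 2 * D * s)) :=
        Real.log_nonneg (by linarith [Real.exp_pos (v - 2 * D * s)])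
      linarith
    have e3 : v - 1 ≤ chi (2 * D * s) v * v := by
      unfold chi
      have hE := Real.exp_pos (v - 2 * D * s)
      obtain ⟨E, hEd⟩ : ∃ E, E = Real.exp (v - 2 * D * s) := ⟨_, rfl⟩
      rw [← hEd] at hE ⊢
      rw [one_div, inv_mul_eq_div, le_div_iff₀ (by linarith)]
      have e4 : v * E ≤ 1 := by
        have e5 : E ≤ Real.exp (-v) := by
          rw [hEd]
          exact Real.exp_le_exp.mpr (by linarith)
        have e6 : v * Real.exp (-v) ≤ 1 := by
          have e7 := Real.add_one_le_exp v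
          have e8 : Real.exp v * Real.exp (-v) = 1 := by rw [← Real.exp_add]; simp
          have e9 := Real.exp_pos (-v)
          nlinarith
        exact (mul_le_mul_of_nonneg_left e5 hv).trans e6
      nlinarith
    linarith

lemma chi_mul96 {B v : ℝ} (hB : 0 ≤ B) (hv : 0 ≤ v) : chi B v * v ≤ B + 1 := by
  rcases le_total v B with h | h
  · have := mul_le_mul (chi_le_one B v) h hv zero_le_one
    linarith
  · unfold chi
    rw [one_div, inv_mul_eq_div, div_le_iff₀ (by positivity)]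
    have e1 := Real.add_one_le_exp (v - B)
    have e2 := mul_le_mul_of_nonneg_left e1 (by linarith : 0 ≤ B + 1)
    have e3 : 0 ≤ B * (v - B) := mul_nonneg hB (by linarith)
    nlinarith

end C96

open C96 G96 in
/-- A6: amplification in the class. -/
theorem ampC96 {ρ : Measure ℝ} [IsProbabilityMeasure ρ] {β : ℝ} (hρ : EM ρ) (hβ : 0 < β)
    (h0 : WtP) (hD' : LemD ρ β) (hK' : LemK ρ β) (hG' : LemG ρ β) : AmpC ρ β := by
  obtain ⟨CD, hCD, hD⟩ := hD'
  obtain ⟨cK, hcK, hK⟩ := hK'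
  obtain ⟨cG, CG, hcG, hCG, hG⟩ := hG'
  intro D hD1
  obtain ⟨K, hKd⟩ : ∃ K, K = (8 / 3) * (4 + 2 * CD / cK) + 2 := ⟨_, rfl⟩
  obtain ⟨Cv, hCv⟩ : ∃ Cv, Cv = 48 * D ^ 2 / cK := ⟨_, rfl⟩
  obtain ⟨t, ht⟩ : ∃ t, t = 12 * CD * D / cG := ⟨_, rfl⟩
  have hD0 : 0 < D := by linarith
  have hK2 : 2 < K := by
    have : 0 < (8 / 3) * (4 + 2 * CD / cK) := by positivity
    linarith
  have hK0 : 0 < K := by linarith
  have hCv0 : 0 < Cv := by rw [hCv]; positivity
  have ht0 : 0 < t := by rw [ht]; positivity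
  obtain ⟨C, hC⟩ : ∃ C, C = K + t * K + 8 + 2 * D * K + 32 * D +
    4 * (1 + 2 * D * K + CG * t ^ 2 * Cv * K) := ⟨_, rfl⟩
  have n1 : 0 < t * K := by positivity
  have n2 : 0 < D * K := by positivity
  have n3 : 0 < CG * t ^ 2 * Cv * K := by positivity
  have hC1 : 1 ≤ C := by rw [hC]; linarith
  refine ⟨C, hC1, ?_⟩
  intro N V p hV q s hq0 hq2 hCs hqlow hqs hV2
  by_contra hcon
  push Not at hcon
  obtain ⟨Lg, hLg⟩ : ∃ Lg, Lg = Real.log (1 / q) := ⟨_, rfl⟩
  rw [← hLg] at hCs
  have hqexp : q = Real.exp (-Lg) := by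
    rw [hLg, one_div, Real.log_inv, neg_neg, Real.exp_log hq0]
  have hlog2 : (1 / 2 : ℝ) ≤ Real.log 2 := by
    have := Real.log_two_gt_d9
    linarith
  have hLg2 : Real.log 2 ≤ Lg := by
    rw [hLg]
    apply Real.log_le_log (by norm_num)
    rw [le_div_iff₀ hq0]
    linarith
  have hLg0 : 0 < Lg := by linarith
  have hCLg : C * Lg ≤ s := by
    have : C * (1 + Lg) = C + C * Lg := by ring
    linarith
  have hs8 : 8 ≤ s := by
    have : 8 ≤ C := by rw [hC]; linarith
    have e1 := mul_nonneg (by linarith : (0 : ℝ) ≤ C) hLg0.le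
    have : C * (1 + Lg) = C + C * Lg := by ring
    linarith
  have hs0 : 0 < s := by linarith
  obtain ⟨l, hl⟩ : ∃ l, l = K * Lg / s := ⟨_, rfl⟩
  have hls : l * s = K * Lg := by rw [hl]; field_simp
  have hl0 : 0 < l := by rw [hl]; positivity
  have hKs : K * Lg ≤ s := by
    have : K * Lg ≤ C * Lg := mul_le_mul_of_nonneg_right (by rw [hC]; linarith) hLg0.le
    linarith
  have hl1 : l ≤ 1 := by
    rw [hl, div_le_one hs0]
    exact hKs
  have htl1 : t * l ≤ 1 := by
    rw [hl, ← mul_div_assoc, div_le_one hs0]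
    have : t * K * Lg ≤ C * Lg := mul_le_mul_of_nonneg_right (by rw [hC]; linarith) hLg0.le
    linarith
  obtain ⟨B, hB⟩ : ∃ B, B = 2 * D * s := ⟨_, rfl⟩
  have hB0 : 0 ≤ B := by rw [hB]; positivity
  obtain ⟨hWP, hWM⟩ := h0 l B hl0 hl1 hB0
  have hDs : s ≤ D * s := le_mul_of_one_le_left hs0.le hD1
  have hlB : l * B = 2 * D * K * Lg := by
    rw [hB]
    linear_combination 2 * D * hls
  obtain ⟨g, hg⟩ : ∃ g, g = gf ρ (fP l B) V := ⟨_, rfl⟩
  obtain ⟨gm, hgm⟩ : ∃ gm, gm = gf ρ (fM l) V := ⟨_, rfl⟩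
  have hg0 : 0 < g := by rw [hg]; exact gf_pos hWP hV
  have hgm0 : 0 < gm := by rw [hgm]; exact gf_pos hWM hV
  -- lower bound of g
  have hUs : s - Real.log 2 ≤ Uf B s := by
    unfold Uf
    have e1 : Real.exp (s - B) ≤ 1 := by
      rw [← Real.exp_zero]
      exact Real.exp_le_exp.mpr (by rw [hB]; linarith)
    have e2 : Real.log (1 + Real.exp (s - B)) ≤ Real.log 2 :=
      Real.log_le_log (by positivity) (by linarith)
    linarith
  have hglow : (K - 2) * Lg ≤ Real.log g := by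
    have e1 : q * fP l B s ≤ g := by
      rw [hg]
      refine gf_ge hWP hV (A := {y | s ≤ V y}) (measurableSet_le measurable_const hV.meas)
        (hWP.pos s).le hqs ?_
      intro y hy
      unfold fP
      exact Real.exp_le_exp.mpr (mul_le_mul_of_nonneg_left (Uf_mono B hy) hl0.le)
    have e2 : Real.exp ((K - 2) * Lg) ≤ q * fP l B s := by
      rw [hqexp]
      unfold fP
      rw [← Real.exp_add]
      apply Real.exp_le_exp.mpr
      have e3 := mul_le_mul_of_nonneg_left hUs hl0.le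
      have e4 : l * Real.log 2 ≤ Lg := by
        have : l * Real.log 2 ≤ 1 * Real.log 2 := mul_le_mul_of_nonneg_right hl1 (by linarith)
        linarith
      linarith
    rw [Real.le_log_iff_exp_le hg0]
    exact e2.trans e1
  have hg1 : 1 ≤ g := by
    have e1 : 0 ≤ Real.log g := le_trans (mul_nonneg (by linarith) hLg0.le) hglow
    exact (Real.log_nonneg_iff hg0).mp e1
  have hgmlow : -(2 * Lg) ≤ Real.log gm := by
    have e1 : q * Real.exp (-(l * Real.log 2)) ≤ gm := by
      rw [hgm]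
      refine gf_ge hWM hV (A := {y | V y ≤ Real.log 2}) (measurableSet_le hV.meas measurable_const)
        (Real.exp_pos _).le hqlow ?_
      intro y hy
      unfold fM
      exact Real.exp_le_exp.mpr (neg_le_neg (mul_le_mul_of_nonneg_left hy hl0.le))
    rw [Real.le_log_iff_exp_le hgm0]
    refine le_trans ?_ e1
    rw [hqexp, ← Real.exp_add]
    apply Real.exp_le_exp.mpr
    have : l * Real.log 2 ≤ 1 * Real.log 2 := mul_le_mul_of_nonneg_right hl1 (by linarith)
    linarith
  -- the entropies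
  obtain ⟨Nt1', hNt⟩ : ∃ n, n = Nt ρ (fP l B) (chi B) N V p := ⟨_, rfl⟩
  obtain ⟨Ntm, hNtm⟩ : ∃ n, n = Nt ρ (fM l) (fun _ => 1) N V p := ⟨_, rfl⟩
  have hNt0 : 0 ≤ Nt1' := by rw [hNt]; exact Nt0 hWP hV
  have hNtm0 : 0 ≤ Ntm := by rw [hNtm]; exact Nt0 hWM hV
  obtain ⟨E, hE⟩ : ∃ E, E = Ef ρ (fP l B) V (fun y => Real.log (fP l B (V y))) := ⟨_, rfl⟩
  obtain ⟨Em, hEm⟩ : ∃ Em, Em = Ef ρ (fM l) V V := ⟨_, rfl⟩
  have k1 : cK * l ^ 2 * Nt1' ≤ E - Real.log g := by
    rw [hNt, hE, hg]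
    exact hK l 1 (fP l B) (chi B) hl0 hl1 (Or.inl rfl) hWP N V p hV
  have k2 : cK * l ^ 2 * Ntm ≤ -(l * Em) - Real.log gm := by
    have e1 := hK l (-1) (fM l) (fun _ => 1) hl0 hl1 (Or.inr rfl) hWM N V p hV
    have e2 : Ef ρ (fM l) V (fun y => Real.log (fM l (V y))) = -(l * Em) := by
      rw [hEm]
      unfold Ef
      have e3 : (fun y => Real.log (fM l (V y)) * fM l (V y)) =
          fun y => (-l) * (V y * fM l (V y)) := by
        funext y
        have : Real.log (fM l (V y)) = -(l * V y) := by unfold fM; rw [Real.log_exp]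
        rw [this]
        ring
      rw [e3, integral_const_mul]
      ring
    rw [e2, ← hNtm, ← hgm] at e1
    exact e1
  have hEm0 : 0 ≤ Em := by
    rw [hEm]
    unfold Ef
    exact div_nonneg (integral_nonneg fun y => mul_nonneg (hV.nonneg y) (hWM.pos _).le)
      (gf_pos hWM hV).le
  -- integrability for the upper weight
  obtain ⟨Cb, hCb⟩ := hWP.bdl
  have iL : Integrable (fun y => Real.log (fP l B (V y)) * fP l B (V y)) (PN ρ N) :=
    int_Ff hWP hV (F := fun y => Real.log (fP l B (V y)))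
      (Real.measurable_log.comp (hWP.measf.comp hV.meas)) (M := Cb) fun y => hCb _ (hV.nonneg y)
  have iF := int_f (ρ := ρ) hWP hV
  have hlogf : ∀ v, Real.log (fP l B v) = l * Uf B v := fun v => by unfold fP; rw [Real.log_exp]
  have k3 : E ≤ l * B := by
    rw [hE]
    unfold Ef
    rw [div_le_iff₀ (gf_pos hWP hV)]
    unfold gf
    rw [← integral_const_mul]
    refine integral_mono iL (iF.const_mul _) fun y => ?_
    simp only
    refine mul_le_mul_of_nonneg_right ?_ (hWP.pos _).le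
    rw [hlogf]
    exact mul_le_mul_of_nonneg_left (Uf_le B _) hl0.le
  obtain ⟨P, hP⟩ : ∃ P, P = (PN ρ N).real {y | D * s ≤ V y} := ⟨_, rfl⟩
  rw [← hP] at hcon
  have hP0 : 0 ≤ P := by rw [hP]; exact measureReal_nonneg
  have hPexp : P ≤ Real.exp (-(C * Lg)) := by
    refine hcon.le.trans (le_of_eq ?_)
    rw [hqexp, ← Real.exp_mul]
    congr 1
    ring
  obtain ⟨T, hT⟩ : ∃ T, T = Ef ρ (fP l B) V (fun y => chi B (V y) * (V y - 0)) := ⟨_, rfl⟩
  have hA : MeasurableSet {y | D * s ≤ V y} := measurableSet_le measurable_const hV.meas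
  have k4 : E / l - 1 - 2 * D * s * (Real.exp (l * B) * P) ≤ T := by
    have hfle : ∀ v, fP l B v ≤ Real.exp (l * B) := fun v => fP_le hl0.le v
    have iT : Integrable (fun y => chi B (V y) * (V y - 0) * fP l B (V y)) (PN ρ N) := by
      refine int_Ff hWP hV (F := fun y => chi B (V y) * (V y - 0))
        ((hWP.measx.comp hV.meas).mul (hV.meas.sub_const _)) (M := (B + 1) * Real.exp (l * B))
        fun y => ?_
      have hn := hV.nonneg y
      have hch := (chi_pos B (V y)).le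
      rw [abs_of_nonneg (mul_nonneg (mul_nonneg hch (by linarith)) (hWP.pos _).le)]
      refine mul_le_mul ?_ (hfle _) (hWP.pos _).le (by linarith)
      rw [sub_zero]
      exact chi_mul96 hB0 hn
    have iI : Integrable (fun y => {y | D * s ≤ V y}.indicator (fun _ => (1 : ℝ)) y *
        fP l B (V y)) (PN ρ N) := by
      refine int_Ff hWP hV (F := {y | D * s ≤ V y}.indicator (fun _ => (1 : ℝ)))
        (measurable_const.indicator hA) (M := 1 * Real.exp (l * B)) fun y => ?_
      rw [abs_mul, abs_of_pos (hWP.pos _)]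
      refine mul_le_mul ?_ (hfle _) (hWP.pos _).le zero_le_one
      by_cases hy : D * s ≤ V y <;> simp [Set.indicator, hy]
    have e1 : ∫ y, (1 / l * (Real.log (fP l B (V y)) * fP l B (V y)) - fP l B (V y) -
        2 * D * s * ({y | D * s ≤ V y}.indicator (fun _ => (1 : ℝ)) y * fP l B (V y)))
          ∂PN ρ N ≤ ∫ y, chi B (V y) * (V y - 0) * fP l B (V y) ∂PN ρ N := by
      refine integral_mono (((iL.const_mul _).sub iF).sub (iI.const_mul _)) iT fun y => ?_
      simp only
      have e2 := chi_low (v := V y) hD1 hs0.le (hV.nonneg y)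
      rw [← hB] at e2
      have e3 := mul_le_mul_of_nonneg_right e2 (hWP.pos (V y)).le
      rw [hlogf]
      have e4 : {z : ℝ | D * s ≤ z}.indicator (fun _ => (1 : ℝ)) (V y) =
          {y | D * s ≤ V y}.indicator (fun _ => (1 : ℝ)) y := by
        by_cases hy : D * s ≤ V y <;> simp [Set.indicator, hy]
      rw [e4, hB] at e3
      rw [sub_zero]
      have e5 : 1 / l * (l * Uf B (V y) * fP l B (V y)) = Uf B (V y) * fP l B (V y) := by
        field_simp
      rw [e5]
      rw [← hB] at e3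
      have e6 : (Uf B (V y) - 1 - B * {y | D * s ≤ V y}.indicator (fun _ => (1 : ℝ)) y) *
          fP l B (V y) = Uf B (V y) * fP l B (V y) - fP l B (V y) -
          2 * D * s * ({y | D * s ≤ V y}.indicator (fun _ => (1 : ℝ)) y * fP l B (V y)) := by
        rw [hB]; ring
      rw [e6] at e3
      exact e3
    have e7 : ∫ y, (1 / l * (Real.log (fP l B (V y)) * fP l B (V y)) - fP l B (V y) -
        2 * D * s * ({y | D * s ≤ V y}.indicator (fun _ => (1 : ℝ)) y * fP l B (V y)))
          ∂PN ρ N = 1 / l * ∫ y, Real.log (fP l B (V y)) * fP l B (V y) ∂PN ρ N - g -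
            2 * D * s * ∫ y, {y | D * s ≤ V y}.indicator (fun _ => (1 : ℝ)) y * fP l B (V y)
              ∂PN ρ N := by
      have j1 : Integrable (fun y => 1 / l * (Real.log (fP l B (V y)) * fP l B (V y)))
        (PN ρ N) := iL.const_mul _
      have j2 : Integrable (fun y => 1 / l * (Real.log (fP l B (V y)) * fP l B (V y)) -
        fP l B (V y)) (PN ρ N) := j1.sub iF
      have j3 : Integrable (fun y => 2 * D * s * ({y | D * s ≤ V y}.indicator
        (fun _ => (1 : ℝ)) y * fP l B (V y))) (PN ρ N) := iI.const_mul _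
      rw [integral_sub j2 j3, integral_sub j1 iF, integral_const_mul, integral_const_mul, hg]
      rfl
    have e8 : ∫ y, {y | D * s ≤ V y}.indicator (fun _ => (1 : ℝ)) y * fP l B (V y) ∂PN ρ N ≤
        Real.exp (l * B) * P := by
      have e9 : ∫ y, {y | D * s ≤ V y}.indicator (fun _ => (1 : ℝ)) y * fP l B (V y) ∂PN ρ N ≤
          ∫ y, {y | D * s ≤ V y}.indicator (fun _ => Real.exp (l * B)) y ∂PN ρ N := by
        refine integral_mono iI ((integrable_const _).indicator hA) fun y => ?_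
        by_cases hy : D * s ≤ V y
        · simp only [Set.indicator, Set.mem_setOf_eq, hy, if_true, one_mul]
          exact hfle _
        · simp [Set.indicator, hy]
      refine e9.trans (le_of_eq ?_)
      rw [integral_indicator hA, setIntegral_const, smul_eq_mul, hP, mul_comm]
    rw [e7] at e1
    have e10 : E * g = ∫ y, Real.log (fP l B (V y)) * fP l B (V y) ∂PN ρ N := by
      rw [hE, hg]
      unfold Ef
      exact div_mul_cancel₀ _ (gf_pos hWP hV).ne'
    have e11 : T * g = ∫ y, chi B (V y) * (V y - 0) * fP l B (V y) ∂PN ρ N := by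
      rw [hT, hg]
      unfold Ef
      exact div_mul_cancel₀ _ (gf_pos hWP hV).ne'
    rw [← e10, ← e11] at e1
    have e12 : 0 ≤ 2 * D * s := by positivity
    have e13 := mul_le_mul_of_nonneg_left e8 e12
    have e14 : 0 ≤ 2 * D * s * (Real.exp (l * B) * P) := by positivity
    have e15 : 2 * D * s * (Real.exp (l * B) * P) ≤ 2 * D * s * (Real.exp (l * B) * P) * g :=
      le_mul_of_one_le_right e14 hg1
    have e16 : (E / l - 1 - 2 * D * s * (Real.exp (l * B) * P)) * g ≤ T * g := by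
      have e17 : 1 / l * (E * g) = E / l * g := by ring
      have e18 : (E / l - 1 - 2 * D * s * (Real.exp (l * B) * P)) * g =
          E / l * g - g - 2 * D * s * (Real.exp (l * B) * P) * g := by ring
      rw [e17] at e1
      rw [e18]
      linarith
    exact le_of_mul_le_mul_right e16 hg0
  have k5 : 2 * D * s * (Real.exp (l * B) * P) ≤ s / 8 := by
    have e1 : Real.exp (l * B) * P ≤ Real.exp (-(32 * D * Lg)) := by
      refine (mul_le_mul_of_nonneg_left hPexp (Real.exp_pos _).le).trans ?_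
      rw [← Real.exp_add, hlB]
      apply Real.exp_le_exp.mpr
      have : (2 * D * K + 32 * D) * Lg ≤ C * Lg :=
        mul_le_mul_of_nonneg_right (by rw [hC]; linarith) hLg0.le
      linarith
    have e2 : Real.exp (-(32 * D * Lg)) * (16 * D) ≤ 1 := by
      have e3 : 16 * D ≤ Real.exp (32 * D * Lg) := by
        have e4 : 32 * D * (1 / 2) ≤ 32 * D * Lg :=
          mul_le_mul_of_nonneg_left (by linarith) (by positivity)
        have e5 := Real.add_one_le_exp (32 * D * Lg)
        linarith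
      have e6 : Real.exp (-(32 * D * Lg)) * Real.exp (32 * D * Lg) = 1 := by
        rw [← Real.exp_add]; simp
      have e7 := mul_le_mul_of_nonneg_left e3 (Real.exp_pos (-(32 * D * Lg))).le
      linarith
    have e8 := mul_le_mul_of_nonneg_right e1 (by positivity : (0 : ℝ) ≤ 16 * D)
    have e9 : Real.exp (l * B) * P * (16 * D) ≤ 1 := e8.trans e2
    have e10 := mul_le_mul_of_nonneg_right e9 (by positivity : (0 : ℝ) ≤ s / 8)
    linarith
  -- the gradient lemma
  obtain ⟨u, hu⟩ : ∃ u, u = Cv * s / l := ⟨_, rfl⟩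
  have hu0 : 0 < u := by rw [hu]; positivity
  obtain ⟨n, hn⟩ : ∃ n, n = Ns ρ (fP l B) (chi B) N V p u := ⟨_, rfl⟩
  have hn0 : 0 ≤ n := by rw [hn]; exact Ns0 hWP hV u
  have k6 : T - CD * l * n - (B + 1) / u * Nt1' ≤ Em + CD * l * Ntm := by
    have e1 := hD l B hl0 hl1 hB0 N V V p p (fun _ => 0) u u hV hV measurable_const
      (fun _ => le_rfl) ⟨0, fun _ => le_rfl⟩ (fun y y₁ => by
        have := hV.conv y₁ y
        rw [sub_zero]
        exact this) hu0 hu0.le le_rfl
    rw [← hNt, ← hNtm, ← hn, ← hEm, ← hT] at e1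
    have e2 : Nt1' + u - u = Nt1' := by ring
    rw [e2] at e1
    exact e1
  have k7 : (B + 1) / u * Nt1' ≤ s / 8 := by
    have e1 : cK * l * Nt1' ≤ B := by
      have : l * (cK * l * Nt1') ≤ l * B := by
        have e2 : 0 ≤ Real.log g := Real.log_nonneg hg1
        have e3 : l * (cK * l * Nt1') = cK * l ^ 2 * Nt1' := by ring
        rw [e3]
        linarith
      exact le_of_mul_le_mul_left this hl0
    have e3 : Nt1' ≤ B / (cK * l) := by
      rw [le_div_iff₀ (by positivity)]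
      linarith
    have e4 : (B + 1) / u ≤ 3 * D * s / u :=
      div_le_div_of_nonneg_right (by rw [hB]; linarith) hu0.le
    have e5 : (B + 1) / u * Nt1' ≤ 3 * D * s / u * (B / (cK * l)) :=
      mul_le_mul e4 e3 hNt0 (by positivity)
    refine e5.trans (le_of_eq ?_)
    rw [hu, hB, hCv]
    field_simp
    ring
  obtain ⟨w, hw⟩ : ∃ w, w = s / K := ⟨_, rfl⟩
  have hwK : K * w = s := by rw [hw]; field_simp
  have hwl : l * w = Lg := by
    have : K * (l * w) = K * Lg := by
      rw [← hls, ← hwK]; ring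
    exact mul_left_cancel₀ hK0.ne' this
  have hw0 : 0 < w := by rw [hw]; positivity
  have k8 : s - 2 * w ≤ E / l := by
    rw [le_div_iff₀ hl0]
    have e1 : 0 ≤ cK * l ^ 2 * Nt1' := by positivity
    have e2 : (s - 2 * w) * l = (K - 2) * Lg := by
      rw [← hwl, ← hwK]; ring
    rw [e2]
    linarith
  have k9 : Em ≤ 2 * w := by
    have e1 : 0 ≤ cK * l ^ 2 * Ntm := by positivity
    have e2 : l * Em ≤ l * (2 * w) := by
      have : l * (2 * w) = 2 * Lg := by rw [← hwl]; ring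
      rw [this]
      linarith
    exact le_of_mul_le_mul_left e2 hl0
  have k10 : CD * l * Ntm ≤ 2 * CD / cK * w := by
    have e1 : cK * l ^ 2 * Ntm ≤ 2 * Lg := by
      have : 0 ≤ l * Em := by positivity
      linarith
    have e2 : l * (cK * l * Ntm) ≤ l * (2 * w) := by
      have : l * (2 * w) = 2 * Lg := by rw [← hwl]; ring
      rw [this]
      linarith
    have e3 := le_of_mul_le_mul_left e2 hl0
    have e4 := mul_le_mul_of_nonneg_left e3 (by positivity : 0 ≤ CD / cK)
    have e5 : CD / cK * (cK * l * Ntm) = CD * l * Ntm := by field_simp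
    have e6 : CD / cK * (2 * w) = 2 * CD / cK * w := by ring
    rw [e5, e6] at e4
    exact e4
  have k11 : s / 4 ≤ CD * l * n := by
    have e1 : (4 + 2 * CD / cK) * w ≤ 3 / 8 * s := by
      have : (8 / 3) * (4 + 2 * CD / cK) * w ≤ K * w :=
        mul_le_mul_of_nonneg_right (by linarith) hw0.le
      rw [hwK] at this
      linarith
    linarith
  -- the upgrade
  have k12 := hG l B hl0 hl1 hB0 N V p V (fun _ => 0) (t * l) (D * s) u hV hV.meas hV.nonneg
    ⟨V 0 + β, grow hβ.le hV⟩ measurable_const (fun _ => le_rfl) ⟨0, fun _ => le_rfl⟩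
    (fun y y₂ _ => by
      have e1 := hV.conv y y₂
      have e2 := hV.nonneg y
      linarith) (by positivity) htl1 (by positivity) hu0.le
  have e0 : Ef ρ (fP l B) V (fun _ => 0) = 0 := by
    unfold Ef
    simp
  rw [e0, zero_add, ← hn, ← hg] at k12
  have k13 : 3 * D * s ≤ cG * (t * l) * n := by
    have e1 : cG * (t * l) * n = 12 * D * (CD * l * n) := by
      rw [ht]
      field_simp
    rw [e1]
    have e2 := mul_le_mul_of_nonneg_left k11 (by positivity : (0 : ℝ) ≤ 12 * D)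
    linarith
  have k14 : Real.exp (l * B) / g * Real.exp (CG * (t * l) ^ 2 * u) *
      (∫ y, (max (V y - D * s) 0) ^ (4 / 3 : ℝ) ∂PN ρ N) ^ (3 / 4 : ℝ) ≤ s := by
    have hVI := sq_intV hρ hβ.le hV
    have e1 := tail (ρ := ρ) hV.meas hV.nonneg hVI (x₀ := D * s) (by positivity)
    rw [← hP] at e1
    have e2 : (∫ y, V y ^ 2 ∂PN ρ N) ^ (1 / 2 : ℝ) ≤ s / q := by
      have e3 : (∫ y, V y ^ 2 ∂PN ρ N) ^ (1 / 2 : ℝ) ≤ ((s / q) ^ 2) ^ (1 / 2 : ℝ) :=
        Real.rpow_le_rpow (integral_nonneg fun y => sq_nonneg _) hV2 (by norm_num)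
      rw [← Real.sqrt_eq_rpow, ← Real.sqrt_eq_rpow, Real.sqrt_sq (by positivity)] at e3
      rw [← Real.sqrt_eq_rpow]
      exact e3
    have e4 : P ^ (1 / 4 : ℝ) ≤ Real.exp (-(C * Lg / 4)) := by
      have e5 := Real.rpow_le_rpow (z := (1 / 4 : ℝ)) hP0 hPexp (by norm_num)
      rw [← Real.exp_mul] at e5
      refine e5.trans (le_of_eq ?_)
      congr 1
      ring
    have e6 : (∫ y, (max (V y - D * s) 0) ^ (4 / 3 : ℝ) ∂PN ρ N) ^ (3 / 4 : ℝ) ≤
        s / q * Real.exp (-(C * Lg / 4)) :=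
      e1.trans (mul_le_mul e2 e4 (Real.rpow_nonneg hP0 _) (by positivity))
    have e7 : s / q = s * Real.exp Lg := by
      rw [hqexp, Real.exp_neg]
      field_simp
    have e8 : Real.exp (l * B) / g ≤ Real.exp (l * B) := div_le_self (Real.exp_pos _).le hg1
    have e9 : CG * (t * l) ^ 2 * u = CG * t ^ 2 * Cv * K * Lg := by
      rw [hu]
      have : CG * (t * l) ^ 2 * (Cv * s / l) = CG * t ^ 2 * Cv * (l * s) := by
        field_simp
      rw [this, hls]
      ring
    rw [e9]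
    have e10 : Real.exp (l * B) / g * Real.exp (CG * t ^ 2 * Cv * K * Lg) ≤
        Real.exp (l * B) * Real.exp (CG * t ^ 2 * Cv * K * Lg) :=
      mul_le_mul_of_nonneg_right e8 (Real.exp_pos _).le
    have e11 : 0 ≤ (∫ y, (max (V y - D * s) 0) ^ (4 / 3 : ℝ) ∂PN ρ N) ^ (3 / 4 : ℝ) :=
      Real.rpow_nonneg (integral_nonneg fun y => Real.rpow_nonneg (le_max_right _ _) _) _
    have e12 := mul_le_mul e10 e6 e11 (by positivity)
    refine e12.trans ?_
    rw [e7, hlB]
    have e13 : Real.exp (2 * D * K * Lg) * Real.exp (CG * t ^ 2 * Cv * K * Lg) *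
        (s * Real.exp Lg * Real.exp (-(C * Lg / 4))) =
        s * Real.exp (2 * D * K * Lg + CG * t ^ 2 * Cv * K * Lg + Lg + -(C * Lg / 4)) := by
      rw [Real.exp_add, Real.exp_add, Real.exp_add]
      ring
    rw [e13]
    have e14 : Real.exp (2 * D * K * Lg + CG * t ^ 2 * Cv * K * Lg + Lg + -(C * Lg / 4)) ≤ 1 := by
      rw [← Real.exp_zero]
      apply Real.exp_le_exp.mpr
      have : 4 * (1 + 2 * D * K + CG * t ^ 2 * Cv * K) * Lg ≤ C * Lg :=
        mul_le_mul_of_nonneg_right (by rw [hC]; linarith) hLg0.le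
      linarith
    exact mul_le_of_le_one_right hs0.le e14
  linarith

end Pool.Agent.W_7d29a1_AM
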