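import Pool.Agent.W_7d29a1_AM.AmpC94

/-!
Amplification for every law, with any bound of the upper tail in place of the second moment:
`ampH94` (a Hölder type bound of the last term as a hypothesis) and the `7 / 5` moment.
-/

set_option autoImplicit false

namespace Pool.Agent.W_7d29a1_AM

open MeasureTheory ProbabilityTheory Filter Topology Pool.Agent.W_MP_7d29a1_pr
  Pool.Agent.W_7d29a1_h46 Pool.Agent.W_7d29a1_h46u Pool.Agent.W_7d29a1_D2.B35
  Pool.Agent.W_7d29a1_Q29 Pool.Agent.W_7d29a1_R34 Pool.Agent.W_7d29a1_SP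

variable {ρ : Measure ℝ} {β : ℝ} {N : ℕ}

/-- Amplification in the class; `H`: any bound of the `4 / 3` moment above `D s`. -/
theorem ampH94 [IsProbabilityMeasure ρ] (hβ : 0 < β) (h0 : WtP) (hD' : LemD ρ β)
    (hK' : LemK ρ β) (hG' : LemG ρ β) {γ : ℝ} (hγ : 0 < γ) :
    ∀ D : ℝ, 1 ≤ D → ∃ C : ℝ, 1 ≤ C ∧ ∀ (N : ℕ) (V : (Fin N → ℝ) → ℝ)
      (p : Fin N → (Fin N → ℝ) → ℝ), Cls β V p → ∀ q s : ℝ, 0 < q → q ≤ 1 / 2 →
      C * (1 + Real.log (1 / q)) ≤ s → q ≤ (PN ρ N).real {y | V y ≤ Real.log 2} →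
      q ≤ (PN ρ N).real {y | s ≤ V y} →
      (∫ y, (max (V y - D * s) 0) ^ (4 / 3 : ℝ) ∂PN ρ N) ^ (3 / 4 : ℝ) ≤
        s / q * ((PN ρ N).real {y | D * s ≤ V y}) ^ γ →
      q ^ C ≤ (PN ρ N).real {y | D * s ≤ V y} := by
  intro D hD
  obtain ⟨cK, hcK, hK⟩ := hK'
  obtain ⟨CD, hCD, hLD⟩ := hD'
  obtain ⟨cG, CG, hcG, hCG, hLG⟩ := hG'
  have hD0 : 0 < D := by linarith
  obtain ⟨K, hKd⟩ : ∃ K : ℝ, K = (8 / 3) * (4 + 2 * CD / cK) + 2 := ⟨_, rfl⟩
  have hr0 : 0 < 2 * CD / cK := by positivity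
  have hK2 : 12 ≤ K := by linarith
  have hK0 : 0 < K := by linarith
  obtain ⟨Cv, hCvd⟩ : ∃ Cv : ℝ, Cv = 48 * D ^ 2 / cK := ⟨_, rfl⟩
  have hCv0 : 0 < Cv := by rw [hCvd]; positivity
  obtain ⟨t, htd⟩ : ∃ t : ℝ, t = 12 * CD * D / cG := ⟨_, rfl⟩
  have ht0 : 0 < t := by rw [htd]; positivity
  have hb1 : 0 < t * K := by positivity
  have hb2 : 0 < 2 * D * K := by positivity
  have hb3 : 0 < CG * t ^ 2 * Cv * K := by positivity
  have hb4 : 0 < 1 / γ * (1 + 2 * D * K + CG * t ^ 2 * Cv * K) := by positivity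
  obtain ⟨C, hCd⟩ : ∃ C : ℝ, C = 8 + K + t * K + 2 * D * K + 32 * D +
    1 / γ * (1 + 2 * D * K + CG * t ^ 2 * Cv * K) := ⟨_, rfl⟩
  have hγC : 1 + 2 * D * K + CG * t ^ 2 * Cv * K ≤ γ * C := by
    have h1 : γ * (1 / γ * (1 + 2 * D * K + CG * t ^ 2 * Cv * K)) =
        1 + 2 * D * K + CG * t ^ 2 * Cv * K := by
      field_simp
    have h2 : 1 / γ * (1 + 2 * D * K + CG * t ^ 2 * Cv * K) ≤ C := by linarith
    have h3 := mul_le_mul_of_nonneg_left h2 hγ.le
    linarith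
  refine ⟨C, by linarith, fun N V p hV q s hq hq2 hs hlow hup hH => ?_⟩
  by_contra hcon
  rw [not_le] at hcon
  haveI : IsProbabilityMeasure (PN ρ N) := by unfold PN; infer_instance
  -- the logarithm
  obtain ⟨Lg, hLgd⟩ : ∃ Lg : ℝ, Lg = Real.log (1 / q) := ⟨_, rfl⟩
  have hqe : q = Real.exp (-Lg) := by
    rw [hLgd, one_div, Real.log_inv, neg_neg, Real.exp_log hq]
  have hLg2 : Real.log 2 ≤ Lg := by
    rw [hLgd]
    refine Real.log_le_log two_pos ?_
    rw [le_div_iff₀ hq]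
    linarith
  have hl2a : (1 : ℝ) / 2 ≤ Real.log 2 := by linarith [Real.log_two_gt_d9]
  have hl2b : Real.log 2 ≤ 1 := by linarith [Real.log_two_lt_d9]
  have hLg0 : 0 < Lg := by linarith
  rw [← hLgd] at hs
  have hC0 : 0 < C := by linarith
  have hCL : 0 < C * Lg := mul_pos hC0 hLg0
  have hsC : C * (1 + Lg) = C + C * Lg := by ring
  rw [hsC] at hs
  have hC8 : 8 ≤ C := by linarith
  have hs8 : 8 ≤ s := by linarith
  have hs0 : 0 < s := by linarith
  have hCLs : C * Lg ≤ s := by linarith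
  have hKLs : K * Lg ≤ s := (mul_le_mul_of_nonneg_right (by linarith) hLg0.le).trans hCLs
  have htKLs : t * K * Lg ≤ s := (mul_le_mul_of_nonneg_right (by linarith) hLg0.le).trans hCLs
  -- the parameters
  obtain ⟨l, hld⟩ : ∃ l : ℝ, l = K * Lg / s := ⟨_, rfl⟩
  have hl0 : 0 < l := by rw [hld]; positivity
  have hl1 : l ≤ 1 := by
    rw [hld, div_le_one hs0]
    exact hKLs
  have hls : l * s = K * Lg := by
    rw [hld]
    field_simp
  obtain ⟨B, hBd⟩ : ∃ B : ℝ, B = 2 * D * s := ⟨_, rfl⟩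
  have hDs : s ≤ D * s := le_mul_of_one_le_left hs0.le hD
  have hB0 : 0 ≤ B := by rw [hBd]; positivity
  have hBs : 2 * s ≤ B := by rw [hBd]; linarith
  have hlB : l * B = 2 * D * K * Lg := by
    rw [hBd]
    calc l * (2 * D * s) = 2 * D * (l * s) := by ring
      _ = _ := by rw [hls]; ring
  obtain ⟨hP, hM⟩ := h0 l B hl0 hl1 hB0
  -- the upper weight
  obtain ⟨g, hgd⟩ : ∃ g : ℝ, g = gf ρ (fP l B) V := ⟨_, rfl⟩
  obtain ⟨EU, hEUd⟩ : ∃ EU : ℝ, EU = Ef ρ (fP l B) V (fun y => Uf B (V y)) := ⟨_, rfl⟩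
  obtain ⟨Ec, hEcd⟩ : ∃ Ec : ℝ, Ec = Ef ρ (fP l B) V (fun y => chi B (V y) * V y) := ⟨_, rfl⟩
  obtain ⟨nt, hntd⟩ : ∃ nt : ℝ, nt = Nt ρ (fP l B) (chi B) N V p := ⟨_, rfl⟩
  have hnt0 : 0 ≤ nt := by rw [hntd]; exact Nt0 hP hV
  have hg1 : Real.exp ((K - 1) * Lg) / 2 ≤ g := by
    have h1 := gfP_low94 (ρ := ρ) hl0 hl1 (by linarith : (1 : ℝ) ≤ s) hBs hP hV hup
    rw [← hgd, hls] at h1
    refine le_trans (le_of_eq ?_) h1
    rw [hqe, ← mul_div_assoc, ← Real.exp_add]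
    congr 2
    ring
  have hge : 1 ≤ g := by
    refine le_trans ?_ hg1
    rw [le_div_iff₀ two_pos, one_mul]
    calc (2 : ℝ) = Real.exp (Real.log 2) := (Real.exp_log two_pos).symm
      _ ≤ _ := Real.exp_le_exp.2 (hLg2.trans (le_mul_of_one_le_left hLg0.le (by linarith)))
  have hg0 : 0 < g := by linarith
  have hlogg : (K - 1) * Lg - Real.log 2 ≤ Real.log g := by
    have h1 := Real.log_le_log (by positivity) hg1
    rwa [Real.log_div (Real.exp_pos _).ne' two_ne_zero, Real.log_exp] at h1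
  have hlogg0 : 0 ≤ Real.log g := Real.log_nonneg hge
  have hKp := hK l 1 (fP l B) (chi B) hl0 hl1 (Or.inl rfl) hP N V p hV
  rw [log_fP94, ← hEUd, ← hgd, ← hntd] at hKp
  have hEUB : EU ≤ B := by rw [hEUd]; exact EfU_le94 hl0 hB0 hP hV
  have hcl : 0 < cK * l ^ 2 := by positivity
  have hEU : s * (1 - 2 / K) ≤ EU := by
    have h1 : 0 ≤ cK * l ^ 2 * nt := mul_nonneg hcl.le hnt0
    have h2 : l * (s * (1 - 2 / K)) = (K - 2) * Lg := by
      rw [← mul_assoc, hls]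
      field_simp
    have h3 : l * (s * (1 - 2 / K)) ≤ l * EU := by
      rw [h2]
      linarith
    exact le_of_mul_le_mul_left h3 hl0
  have hnt1 : nt * (cK * l) ≤ B := by
    have h1 : l * (nt * (cK * l)) ≤ l * B := by
      have h2 : l * EU ≤ l * B := mul_le_mul_of_nonneg_left hEUB hl0.le
      have h3 : l * (nt * (cK * l)) = cK * l ^ 2 * nt := by ring
      rw [h3]
      linarith
    exact le_of_mul_le_mul_left h1 hl0
  -- the mass above `D s`
  obtain ⟨P, hPd⟩ : ∃ P : ℝ, P = (PN ρ N).real {y | D * s ≤ V y} := ⟨_, rfl⟩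
  have hP0 : 0 ≤ P := by rw [hPd]; exact measureReal_nonneg
  have hPC : P ≤ Real.exp (-(C * Lg)) := by
    rw [hPd]
    refine hcon.le.trans (le_of_eq ?_)
    rw [hqe, ← Real.exp_mul]
    congr 1
    ring
  have hEc : s * (1 - 2 / K) - 1 - s / 8 ≤ Ec := by
    have h1 := chi_Ef94 (ρ := ρ) (x₀ := D * s) hl0 hB0 (by rw [hBd]; linarith) hP hV
    rw [← hEUd, ← hEcd, ← hgd, ← hPd, hlB] at h1
    have h2 : B * (Real.exp (2 * D * K * Lg) * P / g) ≤ s / 8 := by
      have h3 : Real.exp (2 * D * K * Lg) * P / g ≤ Real.exp (2 * D * K * Lg) * P :=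
        div_le_self (mul_nonneg (Real.exp_pos _).le hP0) hge
      have h4 : Real.exp (2 * D * K * Lg) * P ≤ Real.exp (-(16 * D)) := by
        refine (mul_le_mul_of_nonneg_left hPC (Real.exp_pos _).le).trans ?_
        rw [← Real.exp_add, Real.exp_le_exp]
        have h5 : 32 * D * Lg + 2 * D * K * Lg ≤ C * Lg := by
          have : 32 * D + 2 * D * K ≤ C := by linarith
          have := mul_le_mul_of_nonneg_right this hLg0.le
          linarith
        have h6 : 16 * D ≤ 32 * D * Lg := by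
          have := mul_le_mul_of_nonneg_left (hl2a.trans hLg2) (by positivity : (0 : ℝ) ≤ 32 * D)
          linarith
        linarith
      have h7 : Real.exp (-(16 * D)) ≤ 1 / (16 * D) := by
        rw [Real.exp_neg, one_div]
        refine inv_anti₀ (by positivity) ?_
        linarith [Real.add_one_le_exp (16 * D)]
      calc B * (Real.exp (2 * D * K * Lg) * P / g) ≤ B * (1 / (16 * D)) :=
            mul_le_mul_of_nonneg_left (h3.trans (h4.trans h7)) hB0
        _ = s / 8 := by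
            rw [hBd]
            field_simp
            norm_num
    linarith
  -- the lower weight
  obtain ⟨Em, hEmd⟩ : ∃ Em : ℝ, Em = Ef ρ (fM l) V V := ⟨_, rfl⟩
  obtain ⟨nm, hnmd⟩ : ∃ nm : ℝ, nm = Nt ρ (fM l) (fun _ => 1) N V p := ⟨_, rfl⟩
  have hnm0 : 0 ≤ nm := by rw [hnmd]; exact Nt0 hM hV
  have hEm0 : 0 ≤ Em := by
    rw [hEmd]
    unfold Ef
    refine div_nonneg (integral_nonneg fun y => ?_) (gf_pos (ρ := ρ) hM hV).le
    exact mul_nonneg (hV.nonneg y) (hM.pos _).le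
  have hminus : l * Em + cK * l ^ 2 * nm ≤ 2 * Lg := by
    have h1 := minus94 (ρ := ρ) hl0 hl1 hM hV (c := cK) hq
      (hK l (-1) (fM l) (fun _ => 1) hl0 hl1 (Or.inr rfl) hM N V p hV) hlow
    rw [← hEmd, ← hnmd, ← hLgd] at h1
    linarith
  have hEm : Em ≤ 2 * s / K := by
    have h1 : l * Em ≤ l * (2 * s / K) := by
      have h2 : l * (2 * s / K) = 2 * (l * s) / K := by ring
      rw [h2, hls]
      have h3 : 2 * (K * Lg) / K = 2 * Lg := by
        field_simp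
      rw [h3]
      have := mul_nonneg hcl.le hnm0
      linarith
    exact le_of_mul_le_mul_left h1 hl0
  have hnm : CD * l * nm ≤ 2 * CD / cK * (s / K) := by
    have h1 : cK * l ^ 2 * nm ≤ 2 * Lg := by
      have := mul_nonneg hl0.le hEm0
      linarith
    have h2 : l * (l * nm) ≤ l * (2 / cK * (s / K)) := by
      have h3 : l * (2 / cK * (s / K)) = 2 * (l * s) / (cK * K) := by
        field_simp
      rw [h3, hls]
      have h4 : 2 * (K * Lg) / (cK * K) = 2 * Lg / cK := by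
        field_simp
      rw [h4, le_div_iff₀ hcK]
      calc l * (l * nm) * cK = cK * l ^ 2 * nm := by ring
        _ ≤ _ := h1
    have h5 := le_of_mul_le_mul_left h2 hl0
    calc CD * l * nm = CD * (l * nm) := by ring
      _ ≤ CD * (2 / cK * (s / K)) := mul_le_mul_of_nonneg_left h5 hCD.le
      _ = _ := by ring
  -- the gradient
  obtain ⟨u, hud⟩ : ∃ u : ℝ, u = Cv * s / l := ⟨_, rfl⟩
  have hu0 : 0 < u := by rw [hud]; positivity
  obtain ⟨ns, hnsd⟩ : ∃ ns : ℝ, ns = Ns ρ (fP l B) (chi B) N V p u := ⟨_, rfl⟩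
  have hns0 : 0 ≤ ns := by rw [hnsd]; exact Ns0 hP hV u
  have hLD1 := hLD l B hl0 hl1 hB0 N V V p p (fun _ => 0) u u hV hV measurable_const
    (fun _ => le_rfl) ⟨0, fun _ => le_rfl⟩
    (fun y y₁ => by
      have := hV.conv y₁ y
      linarith) hu0 hu0.le le_rfl
  simp only [sub_zero] at hLD1
  rw [← hEcd, ← hnsd, ← hntd, ← hEmd, ← hnmd, add_sub_cancel_right] at hLD1
  have hterm : (B + 1) / u * nt ≤ s / 8 := by
    rw [div_mul_eq_mul_div, div_le_iff₀ hu0]
    have hB3 : B + 1 ≤ 3 * D * s := by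
      rw [hBd]
      linarith
    have h1 : (B + 1) * (nt * (cK * l)) ≤ 3 * D * s * (2 * D * s) := by
      refine mul_le_mul hB3 ?_ (by positivity) (by positivity)
      rw [← hBd]
      exact hnt1
    have h2 : s / 8 * u * (cK * l) = 3 * D * s * (2 * D * s) := by
      rw [hud, hCvd]
      field_simp
      norm_num
    have h3 : (B + 1) * nt * (cK * l) ≤ s / 8 * u * (cK * l) := by
      rw [h2]
      calc (B + 1) * nt * (cK * l) = (B + 1) * (nt * (cK * l)) := by ring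
        _ ≤ _ := h1
    exact le_of_mul_le_mul_right h3 (by positivity)
  have hKf : (4 + 2 * CD / cK) / K ≤ 3 / 8 := by
    rw [div_le_iff₀ hK0, hKd]
    linarith
  have hns : s / 4 ≤ CD * l * ns := by
    have h1 : s * (1 - 2 / K) - 2 * s / K - 2 * CD / cK * (s / K) =
        s * (1 - (4 + 2 * CD / cK) / K) := by
      field_simp
      ring
    have h2 : s * (1 - 3 / 8) ≤ s * (1 - (4 + 2 * CD / cK) / K) :=
      mul_le_mul_of_nonneg_left (by linarith) hs0.le
    linarith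
  -- the upgrade
  obtain ⟨θ, hθd⟩ : ∃ θ : ℝ, θ = t * l := ⟨_, rfl⟩
  have hθ0 : 0 ≤ θ := by rw [hθd]; positivity
  have hθ1 : θ ≤ 1 := by
    have h1 : θ * s ≤ 1 * s := by
      rw [hθd, mul_assoc, hls, one_mul, ← mul_assoc]
      exact htKLs
    exact le_of_mul_le_mul_right h1 hs0
  have hLG1 := hLG l B hl0 hl1 hB0 N V p V (fun _ => 0) θ (D * s) u hV hV.meas hV.nonneg
    ⟨V 0 + β, fun y => by
      have h1 := cls_growth94 hβ hV y
      have h2 : 0 ≤ ∑ i, |y i| := Finset.sum_nonneg fun i _ => abs_nonneg _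
      have h3 := hV.nonneg 0
      have h4 := mul_nonneg h3 h2
      have h5 : (V 0 + β) * (1 + ∑ i, |y i|) =
          V 0 + β * ∑ i, |y i| + (V 0 * ∑ i, |y i| + β) := by ring
      rw [h5]
      exact h1.trans (le_add_of_nonneg_right (add_nonneg h4 hβ.le))⟩ measurable_const (fun _ => le_rfl)
    ⟨0, fun _ => le_rfl⟩
    (fun y y₂ _ => by
      have h1 := hV.conv y y₂
      have h2 := hV.nonneg y
      linarith) hθ0 hθ1 (by positivity) hu0.le
  rw [Ef_const94 hP hV, zero_add, ← hnsd, ← hgd, hlB] at hLG1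
  rw [← hPd] at hH
  obtain ⟨H, hHd⟩ : ∃ H : ℝ, H = (∫ y, (max (V y - D * s) 0) ^ (4 / 3 : ℝ) ∂PN ρ N) ^ (3 / 4 : ℝ) :=
    ⟨_, rfl⟩
  rw [← hHd] at hH hLG1
  have hH2 : H ≤ s * Real.exp (Lg - γ * C * Lg) := by
    refine hH.trans ?_
    have h3 : P ^ γ ≤ Real.exp (-(γ * C * Lg)) := by
      calc P ^ γ ≤ (Real.exp (-(C * Lg))) ^ γ := Real.rpow_le_rpow hP0 hPC hγ.le
        _ = _ := by
            rw [← Real.exp_mul]
            congr 1
            ring
    have h4 : s / q = s * Real.exp Lg := by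
      rw [hqe, Real.exp_neg]
      field_simp
    calc s / q * P ^ γ ≤ (s * Real.exp Lg) * Real.exp (-(γ * C * Lg)) := by
          rw [← h4]
          exact mul_le_mul_of_nonneg_left h3 (by positivity)
      _ = _ := by
          rw [mul_assoc, ← Real.exp_add]
          congr 2
  have hH0 : 0 ≤ H := by
    rw [hHd]
    exact Real.rpow_nonneg (integral_nonneg fun y => Real.rpow_nonneg (le_max_right _ _) _) _
  have hθu : θ ^ 2 * u = t ^ 2 * Cv * K * Lg := by
    rw [hθd, hud]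
    calc (t * l) ^ 2 * (Cv * s / l) = t ^ 2 * Cv * (l * s) := by
          field_simp
      _ = _ := by rw [hls]; ring
  have hlast : Real.exp (2 * D * K * Lg) / g * Real.exp (CG * θ ^ 2 * u) * H ≤ s := by
    have h1 : Real.exp (2 * D * K * Lg) / g ≤ Real.exp (2 * D * K * Lg) :=
      div_le_self (Real.exp_pos _).le hge
    have h2 : CG * θ ^ 2 * u = CG * t ^ 2 * Cv * K * Lg := by
      calc CG * θ ^ 2 * u = CG * (θ ^ 2 * u) := by ring
        _ = _ := by rw [hθu]; ring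
    rw [h2]
    calc Real.exp (2 * D * K * Lg) / g * Real.exp (CG * t ^ 2 * Cv * K * Lg) * H
        ≤ Real.exp (2 * D * K * Lg) * Real.exp (CG * t ^ 2 * Cv * K * Lg) *
            (s * Real.exp (Lg - γ * C * Lg)) := by
          refine mul_le_mul (mul_le_mul_of_nonneg_right h1 (Real.exp_pos _).le) hH2 hH0
            (by positivity)
      _ = s * Real.exp (2 * D * K * Lg + CG * t ^ 2 * Cv * K * Lg + (Lg - γ * C * Lg)) := by
          rw [Real.exp_add, Real.exp_add]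
          ring
      _ ≤ s * 1 := by
          refine mul_le_mul_of_nonneg_left ?_ hs0.le
          rw [Real.exp_le_one_iff]
          have h4 := mul_le_mul_of_nonneg_right hγC hLg0.le
          linarith
      _ = s := mul_one s
  have hleft : 3 * (D * s) ≤ cG * θ * ns := by
    have h1 : cG * θ * ns = 12 * D * (CD * l * ns) := by
      rw [hθd, htd]
      field_simp
    rw [h1]
    have := mul_le_mul_of_nonneg_left hns (by positivity : (0 : ℝ) ≤ 12 * D)
    linarith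
  linarith

/-- Hölder's inequality with a support, the exponent `7 / 5`. -/
lemma hold7_94 {α : Type*} [MeasurableSpace α] {μ : Measure α} [IsProbabilityMeasure μ]
    {W : α → ℝ} (hW : Measurable W) (h0 : ∀ a, 0 ≤ W a)
    (hi : Integrable (fun a => W a ^ (7 / 5 : ℝ)) μ) {S : Set α}
    (hS : MeasurableSet S) (hWS : ∀ a, a ∉ S → W a = 0) :
    (∫ a, W a ^ (4 / 3 : ℝ) ∂μ) ^ (3 / 4 : ℝ) ≤
      (∫ a, W a ^ (7 / 5 : ℝ) ∂μ) ^ (5 / 7 : ℝ) * (μ.real S) ^ (1 / 28 : ℝ) := by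
  have hpq : (21 / 20 : ℝ).HolderConjugate 21 := by
    rw [Real.holderConjugate_iff]
    norm_num
  have hf0 : ∀ a, 0 ≤ W a ^ (4 / 3 : ℝ) := fun a => Real.rpow_nonneg (h0 a) _
  have hfm : Measurable fun a => W a ^ (4 / 3 : ℝ) := hW.pow_const _
  have hfp : ∀ a, (W a ^ (4 / 3 : ℝ)) ^ (21 / 20 : ℝ) = W a ^ (7 / 5 : ℝ) := by
    intro a
    rw [← Real.rpow_mul (h0 a)]
    norm_num
  have h1 : MemLp (fun a => W a ^ (4 / 3 : ℝ)) (ENNReal.ofReal (21 / 20)) μ := by
    rw [← integrable_norm_rpow_iff hfm.aestronglyMeasurable (by simp) (by simp)]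
    rw [ENNReal.toReal_ofReal (by norm_num)]
    refine hi.congr (Eventually.of_forall fun a => ?_)
    show W a ^ (7 / 5 : ℝ) = ‖W a ^ (4 / 3 : ℝ)‖ ^ (21 / 20 : ℝ)
    rw [Real.norm_eq_abs, abs_of_nonneg (hf0 a), hfp a]
  have hgm : Measurable (S.indicator fun _ => (1 : ℝ)) := measurable_const.indicator hS
  have hg0 : ∀ a, 0 ≤ S.indicator (fun _ => (1 : ℝ)) a := fun a =>
    Set.indicator_nonneg (fun _ _ => zero_le_one) _
  have h2 : MemLp (S.indicator fun _ => (1 : ℝ)) (ENNReal.ofReal 21) μ :=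
    MemLp.of_bound hgm.aestronglyMeasurable 1 (Eventually.of_forall fun a => by
      rw [Real.norm_eq_abs, abs_of_nonneg (hg0 a)]
      exact Set.indicator_le_self' (fun _ _ => zero_le_one) a |>.trans le_rfl)
  have h3 := integral_mul_le_Lp_mul_Lq_of_nonneg hpq (Eventually.of_forall hf0)
    (Eventually.of_forall hg0) h1 h2
  have h4 : ∀ a, W a ^ (4 / 3 : ℝ) * S.indicator (fun _ => (1 : ℝ)) a = W a ^ (4 / 3 : ℝ) := by
    intro a
    by_cases ha : a ∈ S
    · rw [Set.indicator_of_mem ha, mul_one]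
    · rw [hWS a ha, Real.zero_rpow (by norm_num), zero_mul]
  have h5 : ∀ a, S.indicator (fun _ => (1 : ℝ)) a ^ (21 : ℝ) =
      S.indicator (fun _ => (1 : ℝ)) a := by
    intro a
    by_cases ha : a ∈ S
    · rw [Set.indicator_of_mem ha, Real.one_rpow]
    · rw [Set.indicator_of_notMem ha, Real.zero_rpow (by norm_num)]
  simp_rw [h4, h5, hfp] at h3
  rw [integral_indicator_const _ hS, smul_eq_mul, mul_one] at h3
  have hI0 : 0 ≤ ∫ a, W a ^ (4 / 3 : ℝ) ∂μ := integral_nonneg hf0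
  have hJ0 : 0 ≤ ∫ a, W a ^ (7 / 5 : ℝ) ∂μ := integral_nonneg fun a => Real.rpow_nonneg (h0 a) _
  have h6 := Real.rpow_le_rpow hI0 h3 (by norm_num : (0 : ℝ) ≤ 3 / 4)
  refine h6.trans (le_of_eq ?_)
  rw [Real.mul_rpow (Real.rpow_nonneg hJ0 _) (Real.rpow_nonneg measureReal_nonneg _),
    ← Real.rpow_mul hJ0, ← Real.rpow_mul measureReal_nonneg]
  norm_num

lemma rpow75_le94 {x : ℝ} (hx : 0 ≤ x) : x ^ (7 / 5 : ℝ) ≤ 1 + x ^ 2 := by
  rcases le_total x 1 with h | h
  · have := Real.rpow_le_one hx h (by norm_num : (0 : ℝ) ≤ 7 / 5)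
    nlinarith [sq_nonneg x]
  · have h1 := Real.rpow_le_rpow_of_exponent_le h (by norm_num : (7 / 5 : ℝ) ≤ 2)
    have h2 : x ^ (2 : ℝ) = x ^ 2 := by norm_cast
    rw [h2] at h1
    linarith

/-- Amplification in the class with the `7 / 5` moment. -/
theorem ampC7_94 [IsProbabilityMeasure ρ] (hρ : EM ρ) (hβ : 0 < β) (h0 : WtP) (hD' : LemD ρ β)
    (hK' : LemK ρ β) (hG' : LemG ρ β) :
    ∀ D : ℝ, 1 ≤ D → ∃ C : ℝ, 1 ≤ C ∧ ∀ (N : ℕ) (V : (Fin N → ℝ) → ℝ)
      (p : Fin N → (Fin N → ℝ) → ℝ), Cls β V p → ∀ q s : ℝ, 0 < q → q ≤ 1 / 2 →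
      C * (1 + Real.log (1 / q)) ≤ s → q ≤ (PN ρ N).real {y | V y ≤ Real.log 2} →
      q ≤ (PN ρ N).real {y | s ≤ V y} →
      ∫ y, V y ^ (7 / 5 : ℝ) ∂PN ρ N ≤ (s / q) ^ (7 / 5 : ℝ) →
      q ^ C ≤ (PN ρ N).real {y | D * s ≤ V y} := by
  intro D hD
  obtain ⟨C, hC1, hC⟩ := ampH94 (ρ := ρ) hβ h0 hD' hK' hG' (γ := 1 / 28) (by norm_num) D hD
  refine ⟨C, hC1, fun N V p hV q s hq hq2 hs hlow hup hV7 => hC N V p hV q s hq hq2 hs hlow hup ?_⟩
  haveI : IsProbabilityMeasure (PN ρ N) := by unfold PN; infer_instance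
  have hlq : 0 ≤ Real.log (1 / q) := Real.log_nonneg (by rw [le_div_iff₀ hq]; linarith)
  have hs0 : 0 < s := by nlinarith
  have hx : 0 ≤ D * s := by positivity
  have hV2 := cls_int_sq94 hρ hβ hV
  have hWm : Measurable fun y => max (V y - D * s) 0 := (hV.meas.sub_const _).max measurable_const
  have hV7i : Integrable (fun y => V y ^ (7 / 5 : ℝ)) (PN ρ N) :=
    ((integrable_const (1 : ℝ)).add hV2).mono' (hV.meas.pow_const _).aestronglyMeasurable
      (Eventually.of_forall fun y => by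
        rw [Real.norm_eq_abs, abs_of_nonneg (Real.rpow_nonneg (hV.nonneg y) _)]
        exact rpow75_le94 (hV.nonneg y))
  have hle : ∀ y, (max (V y - D * s) 0) ^ (7 / 5 : ℝ) ≤ V y ^ (7 / 5 : ℝ) := fun y =>
    Real.rpow_le_rpow (le_max_right _ _) (max_le (by linarith) (hV.nonneg y)) (by norm_num)
  have hWi : Integrable (fun y => (max (V y - D * s) 0) ^ (7 / 5 : ℝ)) (PN ρ N) :=
    hV7i.mono' (hWm.pow_const _).aestronglyMeasurable (Eventually.of_forall fun y => by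
      rw [Real.norm_eq_abs, abs_of_nonneg (Real.rpow_nonneg (le_max_right _ _) _)]
      exact hle y)
  have h1 := hold7_94 (μ := PN ρ N) hWm (fun y => le_max_right _ _) hWi
    (S := {y | D * s ≤ V y}) (measurableSet_le measurable_const hV.meas) (fun y hy => by
      have : V y < D * s := not_le.1 hy
      exact max_eq_right (by linarith))
  refine h1.trans (mul_le_mul_of_nonneg_right ?_ (Real.rpow_nonneg measureReal_nonneg _))
  have h2 : (0 : ℝ) ≤ s / q := by positivity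
  calc (∫ y, (max (V y - D * s) 0) ^ (7 / 5 : ℝ) ∂PN ρ N) ^ (5 / 7 : ℝ)
      ≤ ((s / q) ^ (7 / 5 : ℝ)) ^ (5 / 7 : ℝ) :=
        Real.rpow_le_rpow (integral_nonneg fun y => Real.rpow_nonneg (le_max_right _ _) _)
          ((integral_mono hWi hV7i hle).trans hV7) (by norm_num)
    _ = s / q := by
        rw [← Real.rpow_mul h2]
        norm_num

end Pool.Agent.W_7d29a1_AM
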