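import Pool.Agent.W_7d29a1_AM.Base73

/-!
Leaf A6 of the amplification for every law, first part: the estimates of the two tilted means,
of the moment of the excess and of the entropy (helper27).
-/

namespace Pool.Agent.W_7d29a1_AM

open MeasureTheory ProbabilityTheory Filter Topology Pool.Agent.W_MP_7d29a1_pr
  Pool.Agent.W_7d29a1_h46 Pool.Agent.W_7d29a1_h46u

namespace A27

variable {ρ : Measure ℝ} [IsProbabilityMeasure ρ] {β l : ℝ} {N : ℕ} {V : (Fin N → ℝ) → ℝ}
  {p : Fin N → (Fin N → ℝ) → ℝ}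

lemma uB (B v : ℝ) : Uf B v ≤ B := by
  unfold Uf
  have h : v - B ≤ Real.log (1 + Real.exp (v - B)) := by
    rw [Real.le_log_iff_exp_le (by positivity)]
    linarith
  linarith

lemma uv (B v : ℝ) : Uf B v ≤ v := by
  unfold Uf
  have h : 0 ≤ Real.log (1 + Real.exp (v - B)) :=
    Real.log_nonneg (by linarith [Real.exp_pos (v - B)])
  linarith

lemma us {B s v : ℝ} (h1 : s ≤ v) (h2 : s ≤ B) : s - Real.log 2 ≤ Uf B v := by
  unfold Uf
  have h : Real.log (1 + Real.exp (v - B)) ≤ (v - s) + Real.log 2 := by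
    rw [Real.log_le_iff_le_exp (by positivity), Real.exp_add, Real.exp_log (by norm_num)]
    have a1 : Real.exp (v - B) ≤ Real.exp (v - s) := Real.exp_le_exp.2 (by linarith)
    have a2 : 1 ≤ Real.exp (v - s) := Real.one_le_exp (by linarith)
    linarith
  linarith

lemma chi0 (B v : ℝ) : 0 ≤ chi B v := by unfold chi; positivity

lemma chi1 (B v : ℝ) : chi B v ≤ 1 := by
  unfold chi
  rw [div_le_one (by positivity)]
  linarith [Real.exp_pos (v - B)]

lemma chi2 {B v : ℝ} (h : v ≤ B) : 1 / 2 ≤ chi B v := by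
  unfold chi
  have h1 : Real.exp (v - B) ≤ 1 := Real.exp_le_one_iff.2 (by linarith)
  exact one_div_le_one_div_of_le (by positivity) (by linarith)

lemma fPB (hl : 0 < l) (B v : ℝ) : fP l B v ≤ Real.exp (l * B) := by
  unfold fP
  exact Real.exp_le_exp.2 (mul_le_mul_of_nonneg_left (uB B v) hl.le)

lemma fPv (hl : 0 < l) (B v : ℝ) : fP l B v ≤ Real.exp (l * v) := by
  unfold fP
  exact Real.exp_le_exp.2 (mul_le_mul_of_nonneg_left (uv B v) hl.le)

lemma fP0 (B v : ℝ) : 0 < fP l B v := Real.exp_pos _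

lemma fM0 (v : ℝ) : 0 < fM l v := Real.exp_pos _

lemma fPs (hl : 0 < l) (hl1 : l ≤ 1) {B s v : ℝ} (h1 : s ≤ v) (h2 : s ≤ B) :
    Real.exp (l * s) / 2 ≤ fP l B v := by
  unfold fP
  have h3 : l * s - Real.log 2 ≤ l * Uf B v := by
    have h4 := mul_le_mul_of_nonneg_left (us h1 h2) hl.le
    have h5 : 0 ≤ Real.log 2 := Real.log_nonneg (by norm_num)
    nlinarith
  have h6 := Real.exp_le_exp.2 h3
  rwa [Real.exp_sub, Real.exp_log (by norm_num)] at h6

/-- Growth of a function of the class. -/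
lemma vle (hβ : 0 < β) (h : Cls β V p) (y : Fin N → ℝ) : V y ≤ V 0 + β * ∑ i, |y i| := by
  have h1 := h.conv y 0
  have h2 : ∑ i, y i * p i y ≤ ∑ i, |y i| := Finset.sum_le_sum fun i _ => by
    calc y i * p i y ≤ |y i| * p i y := mul_le_mul_of_nonneg_right (le_abs_self _) (h.p0 i y)
      _ ≤ |y i| * 1 := mul_le_mul_of_nonneg_left (h.p1 i y) (abs_nonneg _)
      _ = |y i| := mul_one _
  have h3 : ∑ i, ((0 : Fin N → ℝ) i - y i) * p i y = -∑ i, y i * p i y := by
    rw [← Finset.sum_neg_distrib]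
    exact Finset.sum_congr rfl fun i _ => by simp
  rw [h3] at h1
  nlinarith

omit [IsProbabilityMeasure ρ] in
lemma sq2 (hρ : EM ρ) : MemLp (fun t : ℝ => t) 2 ρ := by
  rw [memLp_two_iff_integrable_sq (by fun_prop)]
  have h1 := (hρ 1).add (hρ (-1))
  refine (h1.const_mul 2).mono' (by fun_prop) (Eventually.of_forall fun t => ?_)
  rw [Real.norm_eq_abs, abs_of_nonneg (sq_nonneg t)]
  have h2 := Real.quadratic_le_exp_of_nonneg (abs_nonneg t)
  have h3 : Real.exp |t| ≤ Real.exp (1 * t) + Real.exp (-1 * t) := by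
    rcases abs_cases t with ⟨h4, _⟩ | ⟨h4, _⟩ <;> rw [h4]
    · rw [one_mul]
      linarith [Real.exp_pos (-1 * t)]
    · rw [show -1 * t = -t by ring]
      linarith [Real.exp_pos (1 * t)]
  rw [sq_abs] at h2
  simp only [Pi.add_apply]
  nlinarith [abs_nonneg t]

lemma mem2a (hρ : EM ρ) (i : Fin N) : MemLp (fun y : Fin N → ℝ => |y i|) 2 (PN ρ N) := by
  have h2 : MeasurePreserving (Function.eval i) (PN ρ N) ρ := by
    unfold PN
    exact measurePreserving_eval (fun _ : Fin N => ρ) i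
  have h3 : MemLp ((fun t : ℝ => t) ∘ Function.eval i) 2 (PN ρ N) :=
    (sq2 hρ).comp_measurePreserving h2
  exact h3.norm

lemma mem2b (hρ : EM ρ) : MemLp (fun y : Fin N → ℝ => ∑ i, |y i|) 2 (PN ρ N) :=
  memLp_finsetSum _ fun i _ => mem2a hρ i

lemma mem2c (hρ : EM ρ) (c : ℝ) : MemLp (fun y : Fin N → ℝ => c + β * ∑ i, |y i|) 2 (PN ρ N) :=
  (memLp_const c).add ((mem2b hρ).const_mul β)

lemma mem2 (hρ : EM ρ) (hβ : 0 < β) (h : Cls β V p) : MemLp V 2 (PN ρ N) := by
  refine (mem2c (β := β) hρ (V 0)).mono h.meas.aestronglyMeasurable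
    (Eventually.of_forall fun y => ?_)
  rw [Real.norm_eq_abs, Real.norm_eq_abs, abs_of_nonneg (h.nonneg y)]
  exact (vle hβ h y).trans (le_abs_self _)

lemma pt {v ε : ℝ} (hv : 0 ≤ v) (hε : 0 < ε) :
    v ^ (4 / 3 : ℝ) ≤ ε * v ^ 2 + 1 / ε ^ 2 := by
  set w := v ^ (1 / 3 : ℝ) with hw
  have hw0 : 0 ≤ w := Real.rpow_nonneg hv _
  have h1 : v = w ^ 3 := by
    rw [hw, ← Real.rpow_natCast, ← Real.rpow_mul hv]
    norm_num
  have h2 : v ^ (4 / 3 : ℝ) = w ^ 4 := by
    rw [hw, ← Real.rpow_natCast, ← Real.rpow_mul hv]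
    norm_num
  rw [h2, h1]
  have h5 : 0 ≤ 1 / ε ^ 2 := by positivity
  rcases le_total 1 (ε * w ^ 2) with h3 | h3
  · have h4 : w ^ 4 * 1 ≤ w ^ 4 * (ε * w ^ 2) := mul_le_mul_of_nonneg_left h3 (by positivity)
    nlinarith
  · have h6 : w ^ 4 ≤ 1 / ε ^ 2 := by
      rw [le_div_iff₀ (by positivity)]
      have h7 : (ε * w ^ 2) ^ 2 ≤ 1 := by
        have h8 : 0 ≤ ε * w ^ 2 := by positivity
        nlinarith
      nlinarith
    have h9 : 0 ≤ ε * (w ^ 3) ^ 2 := by positivity
    linarith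

/-- The moment of the excess. -/
lemma hol (hm : Measurable V) (hV : MemLp V 2 (PN ρ N)) (h0 : ∀ y, 0 ≤ V y) {a T P : ℝ}
    (ha : 0 ≤ a) (hT : 0 < T) (hP : 0 < P) (h2 : ∫ y, V y ^ 2 ∂PN ρ N ≤ T ^ 2)
    (h3 : (PN ρ N).real {y | a ≤ V y} ≤ P ^ 4) :
    (∫ y, (max (V y - a) 0) ^ (4 / 3 : ℝ) ∂PN ρ N) ^ (3 / 4 : ℝ) ≤ 8 * T * P := by
  set t := T ^ (1 / 3 : ℝ) with ht
  set r := P ^ (1 / 3 : ℝ) with hr
  have ht0 : 0 < t := Real.rpow_pos_of_pos hT _
  have hr0 : 0 < r := Real.rpow_pos_of_pos hP _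
  have hT3 : T = t ^ 3 := by
    rw [ht, ← Real.rpow_natCast, ← Real.rpow_mul hT.le]
    norm_num
  have hP3 : P = r ^ 3 := by
    rw [hr, ← Real.rpow_natCast, ← Real.rpow_mul hP.le]
    norm_num
  set ε := r ^ 4 / t ^ 2 with hε
  have hε0 : 0 < ε := by positivity
  have hS : MeasurableSet {y : Fin N → ℝ | a ≤ V y} := measurableSet_le measurable_const hm
  have hI1 : Integrable (fun y => ε * V y ^ 2) (PN ρ N) := hV.integrable_sq.const_mul ε
  have hI2 : Integrable (fun y => {y : Fin N → ℝ | a ≤ V y}.indicator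
      (fun _ => 1 / ε ^ 2) y) (PN ρ N) := (integrable_const _).indicator hS
  have h5 : ∫ y, (max (V y - a) 0) ^ (4 / 3 : ℝ) ∂PN ρ N ≤ 16 * (r ^ 4 * t ^ 4) := by
    have h6 : ∫ y, (max (V y - a) 0) ^ (4 / 3 : ℝ) ∂PN ρ N ≤
        ∫ y, (ε * V y ^ 2 + {y : Fin N → ℝ | a ≤ V y}.indicator (fun _ => 1 / ε ^ 2) y)
          ∂PN ρ N := by
      refine integral_mono_of_nonneg (Eventually.of_forall fun y =>
        Real.rpow_nonneg (le_max_right _ _) _) (hI1.add hI2) (Eventually.of_forall fun y => ?_)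
      simp only
      by_cases hy : a ≤ V y
      · rw [Set.indicator_of_mem (by exact hy), max_eq_left (by linarith)]
        exact (Real.rpow_le_rpow (by linarith) (by linarith) (by norm_num)).trans
          (pt (h0 y) hε0)
      · rw [Set.indicator_of_notMem (by exact hy), max_eq_right (by linarith),
          Real.zero_rpow (by norm_num), add_zero]
        positivity
    rw [integral_add hI1 hI2, integral_const_mul, integral_indicator_const _ hS] at h6
    have h7 : ε * ∫ y, V y ^ 2 ∂PN ρ N ≤ r ^ 4 * t ^ 4 := by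
      refine (mul_le_mul_of_nonneg_left h2 hε0.le).trans (le_of_eq ?_)
      rw [hε, hT3]
      field_simp
    have h8 : (PN ρ N).real {y | a ≤ V y} • (1 / ε ^ 2) ≤ r ^ 4 * t ^ 4 := by
      rw [smul_eq_mul]
      refine (mul_le_mul_of_nonneg_right h3 (by positivity)).trans (le_of_eq ?_)
      rw [hε, hP3]
      field_simp
    have h9 : 0 ≤ r ^ 4 * t ^ 4 := by positivity
    linarith
  have h10 : 0 ≤ ∫ y, (max (V y - a) 0) ^ (4 / 3 : ℝ) ∂PN ρ N :=
    integral_nonneg fun y => Real.rpow_nonneg (le_max_right _ _) _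
  have h11 : 16 * (r ^ 4 * t ^ 4) = (2 * r * t) ^ 4 := by ring
  have h12 : ((2 * r * t) ^ 4) ^ (3 / 4 : ℝ) = (2 * r * t) ^ 3 := by
    rw [← Real.rpow_natCast, ← Real.rpow_mul (by positivity), ← Real.rpow_natCast]
    norm_num
  calc _ ≤ (16 * (r ^ 4 * t ^ 4)) ^ (3 / 4 : ℝ) := Real.rpow_le_rpow h10 h5 (by norm_num)
    _ = (2 * r * t) ^ 3 := by rw [h11, h12]
    _ = 8 * T * P := by rw [hT3, hP3]; ring

/-- A lower bound of an integral. -/
lemma mk {F : (Fin N → ℝ) → ℝ} (hF : Integrable F (PN ρ N)) (h0 : ∀ y, 0 ≤ F y)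
    {S : Set (Fin N → ℝ)} (hS : MeasurableSet S) {c q : ℝ} (hc0 : 0 ≤ c)
    (hc : ∀ y ∈ S, c ≤ F y) (hq : q ≤ (PN ρ N).real S) : q * c ≤ ∫ y, F y ∂PN ρ N := by
  have h1 : ∫ y, S.indicator (fun _ => c) y ∂PN ρ N ≤ ∫ y, F y ∂PN ρ N := by
    refine integral_mono ((integrable_const _).indicator hS) hF fun y => ?_
    by_cases hy : y ∈ S
    · rw [Set.indicator_of_mem hy]
      exact hc y hy
    · rw [Set.indicator_of_notMem hy]
      exact h0 y
  rw [integral_indicator_const _ hS, smul_eq_mul] at h1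
  exact (mul_le_mul_of_nonneg_right hq hc0).trans h1

lemma gp_lo (hl : 0 < l) (hl1 : l ≤ 1) {B s q : ℝ} (hW : Wt l 1 (fP l B) (chi B))
    (h : Cls β V p) (h2 : s ≤ B) (hq : q ≤ (PN ρ N).real {y | s ≤ V y}) :
    q * (Real.exp (l * s) / 2) ≤ gf ρ (fP l B) V :=
  mk (int_f hW h) (fun _ => (fP0 B _).le) (measurableSet_le measurable_const h.meas)
    (by positivity) (fun _ hy => fPs hl hl1 hy h2) hq

lemma gm_lo (hl1 : l ≤ 1) {q : ℝ} (hW : Wt l (-1) (fM l) (fun _ => 1))
    (h : Cls β V p) (hq : q ≤ (PN ρ N).real {y | V y ≤ Real.log 2}) :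
    q * (1 / 2) ≤ gf ρ (fM l) V := by
  refine mk (int_f hW h) (fun _ => (fM0 _).le) (measurableSet_le h.meas measurable_const)
    (by norm_num) (fun y hy => ?_) hq
  have h1 : V y ≤ Real.log 2 := hy
  unfold fM
  have h2 : -Real.log 2 ≤ -(l * V y) := by nlinarith [h.nonneg y]
  have h3 := Real.exp_le_exp.2 h2
  rw [Real.exp_neg, Real.exp_log (by norm_num)] at h3
  linarith

/-- The mean under the upper tilt. -/
lemma up_lo (hρ : EM ρ) (hβ : 0 < β) (hl : 0 < l) {B s : ℝ} (hW : Wt l 1 (fP l B) (chi B))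
    (h : Cls β V p) (hs : 0 < s) :
    s / 4 * (gf ρ (fP l B) V - Real.exp (l * (s / 2)) -
      Real.exp (l * B) * (PN ρ N).real {y | B ≤ V y}) ≤
      ∫ y, chi B (V y) * (V y - 0) * fP l B (V y) ∂PN ρ N := by
  have hS : MeasurableSet {y : Fin N → ℝ | B ≤ V y} := measurableSet_le measurable_const h.meas
  have hV1 : Integrable V (PN ρ N) := (mem2 hρ hβ h).integrable (by norm_num)
  have hI : Integrable (fun y => chi B (V y) * (V y - 0) * fP l B (V y)) (PN ρ N) := by
    refine (hV1.const_mul (Real.exp (l * B))).mono' ?_ (Eventually.of_forall fun y => ?_)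
    · exact ((((hW.measx.comp h.meas).mul (h.meas.sub measurable_const)).mul
        (hW.measf.comp h.meas))).aestronglyMeasurable
    · have e1 := chi0 B (V y)
      have e2 := chi1 B (V y)
      have e3 := h.nonneg y
      have e4 := (fP0 (l := l) B (V y)).le
      have e5 := fPB hl B (V y)
      rw [Real.norm_eq_abs, sub_zero, abs_of_nonneg (by positivity)]
      calc chi B (V y) * V y * fP l B (V y) ≤ 1 * V y * Real.exp (l * B) := by gcongr
        _ = _ := by ring
  have hI1 : Integrable (fun y => fP l B (V y)) (PN ρ N) := int_f hW h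
  have hI2 : Integrable (fun y => {y : Fin N → ℝ | B ≤ V y}.indicator
      (fun _ => Real.exp (l * B)) y) (PN ρ N) := (integrable_const _).indicator hS
  have h5 : ∫ y, s / 4 * (fP l B (V y) - Real.exp (l * (s / 2)) -
      {y : Fin N → ℝ | B ≤ V y}.indicator (fun _ => Real.exp (l * B)) y) ∂PN ρ N ≤
        ∫ y, chi B (V y) * (V y - 0) * fP l B (V y) ∂PN ρ N := by
    refine integral_mono (((hI1.sub (integrable_const _)).sub hI2).const_mul _) hI fun y => ?_
    simp only
    have e1 := chi0 B (V y)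
    have e3 := h.nonneg y
    have e4 := (fP0 (l := l) B (V y)).le
    have e5 := fPB hl B (V y)
    have e6 := fPv hl B (V y)
    have e7 : 0 ≤ chi B (V y) * (V y - 0) * fP l B (V y) := by
      rw [sub_zero]
      positivity
    by_cases hy : B ≤ V y
    · rw [Set.indicator_of_mem (by exact hy)]
      refine le_trans ?_ e7
      have e8 := Real.exp_pos (l * (s / 2))
      nlinarith
    · rw [Set.indicator_of_notMem (by exact hy), sub_zero]
      push Not at hy
      have e8 := Real.exp_pos (l * (s / 2))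
      rcases le_total (V y) (s / 2) with hy2 | hy2
      · refine le_trans ?_ e7
        have e9 : Real.exp (l * V y) ≤ Real.exp (l * (s / 2)) :=
          Real.exp_le_exp.2 (mul_le_mul_of_nonneg_left hy2 hl.le)
        nlinarith
      · have e10 := chi2 hy.le
        have e11 : 1 / 2 * (s / 2) ≤ chi B (V y) * V y :=
          mul_le_mul e10 hy2 (by positivity) e1
        rw [sub_zero]
        have e12 := mul_le_mul_of_nonneg_right e11 e4
        nlinarith
  refine le_trans (le_of_eq ?_) h5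
  have h6 : Integrable (fun y => fP l B (V y) - Real.exp (l * (s / 2))) (PN ρ N) :=
    hI1.sub (integrable_const _)
  rw [integral_const_mul, integral_sub h6 hI2,
    integral_sub hI1 (integrable_const _), integral_const, integral_indicator_const _ hS]
  simp only [gf, probReal_univ, smul_eq_mul, one_mul]
  ring

/-- The mean under the lower tilt. -/
lemma lo_up (hρ : EM ρ) (hβ : 0 < β) (hl : 0 < l) {s : ℝ} (hW : Wt l (-1) (fM l) (fun _ => 1))
    (h : Cls β V p) (hs : 0 < s) :
    ∫ y, V y * fM l (V y) ∂PN ρ N ≤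
      s / 32 * gf ρ (fM l) V + 2 / l * Real.exp (-(l * s / 64)) := by
  have hV1 : Integrable V (PN ρ N) := (mem2 hρ hβ h).integrable (by norm_num)
  have hI1 : Integrable (fun y => fM l (V y)) (PN ρ N) := int_f hW h
  have h5 : ∫ y, V y * fM l (V y) ∂PN ρ N ≤
      ∫ y, (s / 32 * fM l (V y) + 2 / l * Real.exp (-(l * s / 64))) ∂PN ρ N := by
    refine integral_mono_of_nonneg (Eventually.of_forall fun y =>
      mul_nonneg (h.nonneg y) (fM0 _).le) ((hI1.const_mul _).add (integrable_const _))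
      (Eventually.of_forall fun y => ?_)
    simp only
    have e3 := h.nonneg y
    have e4 := (fM0 (l := l) (V y)).le
    have e5 : 0 ≤ 2 / l * Real.exp (-(l * s / 64)) := by positivity
    rcases le_total (V y) (s / 32) with hy | hy
    · have := mul_le_mul_of_nonneg_right hy e4
      linarith
    · have e6 : fM l (V y) = Real.exp (-(l * V y / 2)) * Real.exp (-(l * V y / 2)) := by
        rw [← Real.exp_add]
        unfold fM
        congr 1
        ring
      have e7 : V y * Real.exp (-(l * V y / 2)) ≤ 2 / l := by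
        have e8 : l * V y / 2 ≤ Real.exp (l * V y / 2) := by
          linarith [Real.add_one_le_exp (l * V y / 2)]
        rw [Real.exp_neg, ← div_eq_mul_inv, div_le_div_iff₀ (Real.exp_pos _) hl]
        linarith
      have e9 : Real.exp (-(l * V y / 2)) ≤ Real.exp (-(l * s / 64)) :=
        Real.exp_le_exp.2 (by nlinarith)
      have e10 : V y * fM l (V y) ≤ 2 / l * Real.exp (-(l * s / 64)) := by
        rw [e6, ← mul_assoc]
        exact mul_le_mul e7 e9 (Real.exp_pos _).le (by positivity)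
      have e11 : 0 ≤ s / 32 * fM l (V y) := by positivity
      linarith
  refine h5.trans (le_of_eq ?_)
  rw [integral_add (hI1.const_mul _) (integrable_const _), integral_const_mul, integral_const]
  simp only [gf, probReal_univ, smul_eq_mul, one_mul]

/-- An upper bound of the entropy. -/
lemma ent_le {σ : ℝ} {f x : ℝ → ℝ} (hW : Wt l σ f x) (h : Cls β V p) {a : ℝ} (ha : 0 ≤ a)
    (hf : ∀ v, 0 ≤ v → Real.log (f v) ≤ a) :
    Ef ρ f V (fun y => Real.log (f (V y))) ≤ a := by
  unfold Ef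
  rw [div_le_iff₀ (gf_pos hW h)]
  have hI1 : Integrable (fun y => f (V y)) (PN ρ N) := int_f hW h
  by_cases hI : Integrable (fun y => Real.log (f (V y)) * f (V y)) (PN ρ N)
  · calc _ ≤ ∫ y, a * f (V y) ∂PN ρ N := integral_mono hI (hI1.const_mul a) fun y =>
          mul_le_mul_of_nonneg_right (hf _ (h.nonneg y)) (hW.pos _).le
      _ = a * gf ρ f V := by rw [integral_const_mul]; rfl
  · rw [integral_undef hI]
    exact mul_nonneg ha (gf_pos hW h).le

end A27

end Pool.Agent.W_7d29a1_AM
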