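import Pool.Agent.W_7d29a1_AM.Deep5

/-!
Amplification of the upper deviations in the class, every law, without any moment (helper5).
-/

namespace Pool.Agent.W_7d29a1_AM

open MeasureTheory ProbabilityTheory Filter Topology

/-- Amplification in the class, no moment. -/
def AmpCN (ρ : Measure ℝ) (β : ℝ) : Prop := ∀ D : ℝ, 1 ≤ D → ∃ C : ℝ, 1 ≤ C ∧ ∀ (N : ℕ)
  (V : (Fin N → ℝ) → ℝ) (p : Fin N → (Fin N → ℝ) → ℝ), Cls β V p → ∀ q s : ℝ, 0 < q →
    q ≤ 1 / 2 → C * (1 + Real.log (1 / q)) ≤ s → q ≤ (PN ρ N).real {y | V y ≤ Real.log 2} →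
    q ≤ (PN ρ N).real {y | s ≤ V y} → q ^ C ≤ (PN ρ N).real {y | D * s ≤ V y}

variable {ρ : Measure ℝ} {β : ℝ} {N : ℕ}

/-- One step of the amplification. -/
theorem stepN5 [IsProbabilityMeasure ρ] (h0 : WtP) (hD' : LemD2 ρ β) (hK' : LemK ρ β) :
    ∃ C δ : ℝ, 1 ≤ C ∧ 0 < δ ∧ ∀ (N : ℕ) (V : (Fin N → ℝ) → ℝ)
      (p : Fin N → (Fin N → ℝ) → ℝ), Cls β V p → ∀ q s : ℝ, 0 < q → q ≤ 1 / 2 →
      C * (1 + Real.log (1 / q)) ≤ s → q ≤ (PN ρ N).real {y | V y ≤ Real.log 2} →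
      q ≤ (PN ρ N).real {y | s ≤ V y} → q ^ C ≤ (PN ρ N).real {y | (1 + δ) * s ≤ V y} := by
  obtain ⟨cK, hcK, hK⟩ := hK'
  obtain ⟨C0, hC0, hLD⟩ := hD'
  have hr : 0 ≤ C0 / cK := by positivity
  obtain ⟨E, hE⟩ : ∃ E : ℝ, E = 1 + 20 * (C0 / cK) := ⟨_, rfl⟩
  have hE1 : 1 ≤ E := by linarith
  have hE0 : 0 < E := by linarith
  refine ⟨80 * E, 1 / E, by linarith, by positivity, ?_⟩
  intro N V p h q s hq hq2 hs hlow hup
  by_contra hcon
  rw [not_le] at hcon
  obtain ⟨L, hL⟩ : ∃ L : ℝ, L = Real.log (1 / q) := ⟨_, rfl⟩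
  have hL2 : 0.69 ≤ L := by
    have h1 : Real.log 2 ≤ Real.log (1 / q) := by
      apply Real.log_le_log (by norm_num)
      rw [le_div_iff₀ hq]
      linarith
    have h2 := Real.log_two_gt_d9
    rw [hL]
    linarith
  have hqe : q = Real.exp (-L) := by
    rw [hL, one_div, Real.log_inv, neg_neg, Real.exp_log hq]
  obtain ⟨Λ, hΛ⟩ : ∃ Λ : ℝ, Λ = 1 + L := ⟨_, rfl⟩
  rw [← hL, ← hΛ] at hs
  have hΛ1 : 1 ≤ Λ := by linarith
  have hΛ0 : 0 < Λ := by linarith
  obtain ⟨a, ha⟩ : ∃ a : ℝ, a = s / E := ⟨_, rfl⟩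
  have hsE : s = E * a := by rw [ha]; field_simp
  have haΛ : 80 * Λ ≤ a := by
    rw [ha, le_div_iff₀ hE0]
    linarith
  have ha0 : 0 < a := by linarith
  have hsa : a ≤ s := by rw [hsE]; nlinarith
  have hs0 : 0 < s := by linarith
  have hsΛ : 16 * Λ ≤ s := by linarith
  -- the parameters
  obtain ⟨l, hl⟩ : ∃ l : ℝ, l = 20 * Λ / a := ⟨_, rfl⟩
  obtain ⟨l', hl'⟩ : ∃ l' : ℝ, l' = 16 * Λ / s := ⟨_, rfl⟩
  obtain ⟨α, hα⟩ : ∃ α : ℝ, α = Λ / a := ⟨_, rfl⟩
  obtain ⟨B, hB⟩ : ∃ B : ℝ, B = s + a := ⟨_, rfl⟩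
  have hl0 : 0 < l := by rw [hl]; positivity
  have hl1 : l ≤ 1 := by rw [hl, div_le_one ha0]; linarith
  have hl0' : 0 < l' := by rw [hl']; positivity
  have hl1' : l' ≤ 1 := by rw [hl', div_le_one hs0]; exact hsΛ
  have hα0 : 0 < α := by rw [hα]; positivity
  have hB0 : 0 ≤ B := by linarith
  obtain ⟨hP, -⟩ := h0 l B hl0 hl1 hB0
  obtain ⟨-, hM⟩ := h0 l' B hl0' hl1' hB0
  have hla : l * a = 20 * Λ := by rw [hl]; field_simp
  have hls : 20 * Λ ≤ l * s := by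
    rw [← hla]
    exact mul_le_mul_of_nonneg_left hsa hl0.le
  have hlB : l * B = l * s + 20 * Λ := by rw [hB, mul_add, hla]
  have hBe : (1 + 1 / E) * s = B := by
    rw [hB, ha]
    field_simp
  -- the upper law
  obtain ⟨g, hg⟩ : ∃ g : ℝ, g = gf ρ (fP l B) V := ⟨_, rfl⟩
  have hglow : Real.exp (l * s - L) / 2 ≤ g := by
    have h1 := gf_low5 (ρ := ρ) hl0 hl1 (by linarith : s + 1 ≤ B) hP h hup
    rw [hg]
    refine le_trans (le_of_eq ?_) h1
    rw [hqe, sub_eq_add_neg, Real.exp_add]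
    ring
  have hg0 : 0 < g := lt_of_lt_of_le (by positivity) hglow
  have e3 : Real.exp (-3) ≤ 1 / 16 := by
    have h1 : Real.exp (-3) = Real.exp (-1) ^ 3 := by
      rw [← Real.exp_nat_mul]
      norm_num
    have h2 := Real.exp_neg_one_lt_d9
    have h3 := Real.exp_pos (-1)
    rw [h1]
    calc Real.exp (-1) ^ 3 ≤ (0.3678794413 : ℝ) ^ 3 := pow_le_pow_left₀ h3.le (by linarith) 3
      _ ≤ 1 / 16 := by norm_num
  have hm1 : Real.exp (l * (3 * s / 4)) / gf ρ (fP l B) V ≤ 1 / 8 := by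
    rw [← hg, div_le_iff₀ hg0]
    have h1 : Real.exp (l * (3 * s / 4)) = Real.exp (l * s - L) *
        Real.exp (L - l * s / 4) := by
      rw [← Real.exp_add]
      congr 1
      ring
    have h2 : Real.exp (L - l * s / 4) ≤ Real.exp (-3) := Real.exp_le_exp.2 (by linarith)
    rw [h1]
    have h3 := mul_le_mul_of_nonneg_left (h2.trans e3) (Real.exp_pos (l * s - L)).le
    linarith
  have hm2 : Real.exp (l * B) * (PN ρ N).real {y | B < V y} / gf ρ (fP l B) V ≤ 1 / 8 := by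
    rw [← hg, div_le_iff₀ hg0, hlB]
    have h1 : (PN ρ N).real {y | B < V y} ≤ Real.exp (-(80 * L)) := by
      have h2 : (PN ρ N).real {y | B < V y} ≤ (PN ρ N).real {y | (1 + 1 / E) * s ≤ V y} := by
        refine measureReal_mono fun y (hy : B < V y) => ?_
        show (1 + 1 / E) * s ≤ V y
        rw [hBe]
        exact hy.le
      have h3 : q ^ (80 * E) ≤ Real.exp (-(80 * L)) := by
        rw [hqe, ← Real.exp_mul]
        apply Real.exp_le_exp.2
        nlinarith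
      exact h2.trans (hcon.le.trans h3)
    have h4 := mul_le_mul_of_nonneg_left h1 (Real.exp_pos (l * s + 20 * Λ)).le
    refine h4.trans ?_
    have h5 : Real.exp (l * s + 20 * Λ) * Real.exp (-(80 * L)) = Real.exp (l * s - L) *
        Real.exp (20 * Λ - 79 * L) := by
      rw [← Real.exp_add, ← Real.exp_add]
      congr 1
      ring
    have h6 : Real.exp (20 * Λ - 79 * L) ≤ Real.exp (-3) := Real.exp_le_exp.2 (by
      rw [hΛ]
      linarith)
    rw [h5]
    have h7 := mul_le_mul_of_nonneg_left (h6.trans e3) (Real.exp_pos (l * s - L)).le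
    linarith
  have hchi := chi_mean5 (ρ := ρ) hl0 hs0.le (by linarith : s ≤ B) hP h hm1 hm2
  -- the entropies
  have hKu := hK l 1 (fP l B) (chi B) hl0 hl1 (Or.inl rfl) hP N V p h
  rw [log_fP94] at hKu
  have hEU : Ef ρ (fP l B) V (fun y => Uf B (V y)) ≤ B := by
    have hfle : ∀ y, fP l B (V y) ≤ Real.exp (l * B) := fun y =>
      Real.exp_le_exp.2 (mul_le_mul_of_nonneg_left (Uf_le94 B _) hl0.le)
    have hU : Integrable (fun y => Uf B (V y) * fP l B (V y)) (PN ρ N) :=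
      int_Ff hP h ((Uf_meas94 B).comp h.meas) (M := (B + 1) * Real.exp (l * B)) fun y => by
        rw [abs_mul, abs_of_pos (hP.pos _)]
        exact mul_le_mul (Uf_abs94 hB0 (h.nonneg y)) (hfle y) (hP.pos _).le (by linarith)
    refine (Ef_mono94 (G := fun _ => B) hP h hU ((int_f hP h).const_mul B)
      fun y => Uf_le94 B _).trans (le_of_eq ?_)
    exact Ef_const94 hP h B
  have hlogg : l * s - L - 1 ≤ Real.log (gf ρ (fP l B) V) := by
    rw [← hg]
    have h1 := Real.log_le_log (by positivity) hglow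
    rw [Real.log_div (Real.exp_pos _).ne' (by norm_num), Real.log_exp] at h1
    have h2 := Real.log_two_lt_d9
    linarith
  obtain ⟨n, hn⟩ : ∃ n : ℝ, n = Nt ρ (fP l B) (chi B) N V p := ⟨_, rfl⟩
  obtain ⟨n', hn'⟩ : ∃ n' : ℝ, n' = Nt ρ (fM l') (fun _ => 1) N V p := ⟨_, rfl⟩
  have hn0' : 0 ≤ n' := by rw [hn']; exact Nt0 hM h
  rw [← hn] at hKu
  have hNt : cK * (l ^ 2 * n) ≤ 22 * Λ := by
    have h1 := mul_le_mul_of_nonneg_left hEU hl0.le
    rw [hlB] at h1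
    have h2 : cK * (l ^ 2 * n) = cK * l ^ 2 * n := by ring
    rw [h2]
    linarith
  have hKl := hK l' (-1) (fM l') (fun _ => 1) hl0' hl1' (Or.inr rfl) hM N V p h
  have hmi := minus94 (ρ := ρ) hl0' hl1' hM h hq hKl hlow
  rw [← hn'] at hmi
  have hlog2 : Real.log 2 ≤ 1 := by
    have := Real.log_two_lt_d9
    linarith
  have hmi' : l' * Ef ρ (fM l') V V + cK * l' ^ 2 * n' ≤ Λ := by linarith
  have hEf0 : 0 ≤ Ef ρ (fM l') V V := by
    unfold Ef
    exact div_nonneg (integral_nonneg fun y => mul_nonneg (h.nonneg y) (hM.pos _).le)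
      (gf_pos hM h).le
  have hEf : Ef ρ (fM l') V V ≤ s / 16 := by
    have h1 : l' * Ef ρ (fM l') V V ≤ Λ := by
      have : 0 ≤ cK * l' ^ 2 * n' := by positivity
      linarith
    obtain ⟨e, he⟩ : ∃ e : ℝ, e = Ef ρ (fM l') V V := ⟨_, rfl⟩
    rw [← he] at h1 ⊢
    rw [hl', div_mul_eq_mul_div, div_le_iff₀ hs0] at h1
    have h2 : Λ * (16 * e) ≤ Λ * s := by linarith
    have h3 := le_of_mul_le_mul_left h2 hΛ0
    linarith
  have hn'2 : cK * (l' ^ 2 * n') ≤ Λ := by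
    have h1 : 0 ≤ l' * Ef ρ (fM l') V V := mul_nonneg hl0'.le hEf0
    have h2 : cK * (l' ^ 2 * n') = cK * l' ^ 2 * n' := by ring
    rw [h2]
    linarith
  -- the drift
  have hdr := hLD l l' B α hl0 hl1 hl0' hl1' hB0 hα0 N V V p p (fun _ => 0) h h measurable_const
    (fun _ => le_rfl) ⟨0, fun _ => le_rfl⟩ (fun y y₁ => by
      rw [sub_zero]
      exact h.conv y₁ y)
  simp only [sub_zero] at hdr
  rw [← hn, ← hn'] at hdr
  have hup2 : C0 * (l + α) * n ≤ C0 / cK * (1.2 * a) := by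
    have h1 : cK * n ≤ 22 * a ^ 2 / (400 * Λ) := by
      have h2 : l ^ 2 = 400 * Λ ^ 2 / a ^ 2 := by
        rw [hl, div_pow, mul_pow]
        norm_num
      rw [h2] at hNt
      rw [le_div_iff₀ (by positivity)]
      have h3 : cK * (400 * Λ ^ 2 / a ^ 2 * n) = (cK * n * (400 * Λ)) * Λ / a ^ 2 := by
        field_simp
      rw [h3, div_le_iff₀ (by positivity)] at hNt
      have h4 : Λ * (cK * n * (400 * Λ)) ≤ Λ * (22 * a ^ 2) := by linarith
      exact le_of_mul_le_mul_left h4 hΛ0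
    have h2 : (l + α) * (22 * a ^ 2 / (400 * Λ)) = 22 * 21 / 400 * a := by
      rw [hl, hα]
      field_simp
      ring
    have h3 : C0 * (l + α) * n = C0 / cK * ((l + α) * (cK * n)) := by
      field_simp
    rw [h3]
    refine mul_le_mul_of_nonneg_left ?_ hr
    have h4 := mul_le_mul_of_nonneg_left h1 (by positivity : 0 ≤ l + α)
    rw [h2] at h4
    linarith
  have hlo2 : C0 * (l' ^ 2 / α) * n' ≤ C0 / cK * a := by
    have h1 : C0 * (l' ^ 2 / α) * n' = C0 / cK * ((cK * (l' ^ 2 * n')) / α) := by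
      field_simp
    rw [h1]
    refine mul_le_mul_of_nonneg_left ?_ hr
    rw [div_le_iff₀ hα0]
    have h2 : a * α = Λ := by
      rw [hα]
      field_simp
    rw [h2]
    exact hn'2
  have hfin : s * (3 / 16) ≤ C0 / cK * (2.2 * a) := by
    have h1 : C0 / cK * (2.2 * a) = C0 / cK * (1.2 * a) + C0 / cK * a := by ring
    rw [h1]
    linarith
  have h6 : s = a + 20 * (C0 / cK * a) := by
    rw [hsE, hE]
    ring
  have h7 : 0 ≤ C0 / cK * a := by positivity
  linarith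

/-- The iteration. -/
theorem iterN5 [IsProbabilityMeasure ρ] (h0 : WtP) (hD' : LemD2 ρ β) (hK' : LemK ρ β) :
    ∃ δ : ℝ, 0 < δ ∧ ∀ k : ℕ, ∃ C : ℝ, 1 ≤ C ∧ ∀ (N : ℕ) (V : (Fin N → ℝ) → ℝ)
      (p : Fin N → (Fin N → ℝ) → ℝ), Cls β V p → ∀ q s : ℝ, 0 < q → q ≤ 1 / 2 →
      C * (1 + Real.log (1 / q)) ≤ s → q ≤ (PN ρ N).real {y | V y ≤ Real.log 2} →
      q ≤ (PN ρ N).real {y | s ≤ V y} →
        q ^ C ≤ (PN ρ N).real {y | (1 + δ) ^ k * s ≤ V y} := by
  obtain ⟨C, δ, hC1, hδ, hC⟩ := stepN5 (ρ := ρ) (β := β) h0 hD' hK'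
  refine ⟨δ, hδ, fun k => ?_⟩
  induction k with
  | zero =>
    refine ⟨1, le_rfl, fun N V p _ q s hq _ _ _ hup => ?_⟩
    rw [Real.rpow_one, pow_zero]
    simpa using hup
  | succ k ih =>
    obtain ⟨Ck, hCk1, hCk⟩ := ih
    refine ⟨C * Ck, by nlinarith, fun N V p h q s hq hq2 hs hlow hup => ?_⟩
    have hlq : 0 ≤ Real.log (1 / q) := Real.log_nonneg (by rw [le_div_iff₀ hq]; linarith)
    have hΛ : 0 ≤ 1 + Real.log (1 / q) := by linarith
    have hs1 : Ck * (1 + Real.log (1 / q)) ≤ s := by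
      refine le_trans ?_ hs
      refine mul_le_mul_of_nonneg_right ?_ hΛ
      nlinarith
    have hk := hCk N V p h q s hq hq2 hs1 hlow hup
    have hs0 : 0 ≤ s := le_trans (by positivity) hs1
    have hq1 : q ≤ 1 := by linarith
    have hqk : q ^ Ck ≤ q := by
      have := Real.rpow_le_rpow_of_exponent_ge hq hq1 hCk1
      rwa [Real.rpow_one] at this
    have hqk0 : 0 < q ^ Ck := Real.rpow_pos_of_pos hq _
    have hlogk : Real.log (1 / q ^ Ck) = Ck * Real.log (1 / q) := by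
      rw [one_div, one_div, Real.log_inv, Real.log_inv, Real.log_rpow hq]
      ring
    have hsk : s ≤ (1 + δ) ^ k * s := by
      have h1 : 1 ≤ (1 + δ) ^ k := one_le_pow₀ (by linarith)
      nlinarith
    have key := hC N V p h (q ^ Ck) ((1 + δ) ^ k * s) hqk0 (hqk.trans hq2) (by
      rw [hlogk]
      refine le_trans ?_ hsk
      refine le_trans ?_ hs
      have h1 : C * (1 + Ck * Real.log (1 / q)) ≤ C * (Ck * (1 + Real.log (1 / q))) := by
        refine mul_le_mul_of_nonneg_left ?_ (by linarith)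
        rw [mul_add, mul_one]
        linarith
      linarith) (hqk.trans hlow) hk
    have e1 : (1 + δ) * ((1 + δ) ^ k * s) = (1 + δ) ^ (k + 1) * s := by ring
    rw [e1] at key
    refine le_trans (le_of_eq ?_) key
    rw [← Real.rpow_mul hq.le]
    congr 1
    ring

/-- **Amplification in the class, no moment.** -/
theorem ampCN5 [IsProbabilityMeasure ρ] (h0 : WtP) (hD' : LemD2 ρ β) (hK' : LemK ρ β) :
    AmpCN ρ β := by
  intro D hD
  obtain ⟨δ, hδ, hk⟩ := iterN5 (ρ := ρ) (β := β) h0 hD' hK'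
  obtain ⟨k, hkD⟩ := pow_unbounded_of_one_lt D (by linarith : 1 < 1 + δ)
  obtain ⟨C, hC1, hC⟩ := hk k
  refine ⟨C, hC1, fun N V p h q s hq hq2 hs hlow hup => ?_⟩
  refine (hC N V p h q s hq hq2 hs hlow hup).trans ?_
  have hlq : 0 ≤ Real.log (1 / q) := Real.log_nonneg (by rw [le_div_iff₀ hq]; linarith)
  have hs0 : 0 ≤ s := le_trans (by positivity) hs
  refine measureReal_mono fun y (hy : (1 + δ) ^ k * s ≤ V y) => ?_
  show D * s ≤ V y
  exact (mul_le_mul_of_nonneg_right hkD.le hs0).trans hy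

end Pool.Agent.W_7d29a1_AM
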