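import Pool.Agent.W_7d29a1_AM.Cls5
import Pool.Agent.W_7d29a1_R34.Tail13

/-!
A7, second half: from the class to the free energy of the polymer (helper5).
-/

namespace Pool.Agent.W_7d29a1_AM

open MeasureTheory ProbabilityTheory Filter Topology Set Pool.Agent.W_MP_7d29a1_pr
  Pool.Agent.W_7d29a1_h46 Pool.Agent.W_7d29a1_h46u Pool.Agent.W_7d29a1_D2.B35
  Pool.Agent.W_7d29a1_Q29 Pool.Agent.W_7d29a1_R34

namespace U5

variable {d : ℕ}

/-- the sites of the walks of length `m` -/
noncomputable def Is (d m : ℕ) : Finset (ℕ × Pool.Agent.W_MP_7d29a1_pr.Site d) := Finset.range (m + 1) ×ˢ boxF d m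

/-- the number of the sites -/
noncomputable def Nn (d m : ℕ) : ℕ := Fintype.card (Is d m)

/-- the numbering of the sites -/
noncomputable def eq (d m : ℕ) : Is d m ≃ Fin (Nn d m) := Fintype.equivFin _

/-- the values of the environment at the sites -/
noncomputable def pr (d m : ℕ) (η : Env d) : Fin (Nn d m) → ℝ := fun i =>
  η ((eq d m).symm i : ℕ × Pool.Agent.W_MP_7d29a1_pr.Site d)

lemma mem_Is {m : ℕ} (s : Fin m → Step d) (i : Fin m) :
    (((i : ℕ) + 1, pos s (i + 1)) : ℕ × Pool.Agent.W_MP_7d29a1_pr.Site d) ∈ Is d m := by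
  unfold Is
  rw [Finset.mem_product]
  exact ⟨Finset.mem_range.2 (by have := i.2; show (i : ℕ) + 1 < m + 1; omega), pos_mem_box s _⟩

/-- the number of the site of the walk at a time -/
noncomputable def st {m : ℕ} (s : Fin m → Step d) (i : Fin m) : Fin (Nn d m) :=
  eq d m ⟨((i : ℕ) + 1, pos s (i + 1)), mem_Is s i⟩

lemma st_inj {m : ℕ} (s : Fin m → Step d) : Function.Injective (st s) := fun i j h => by
  have h1 := (eq d m).injective h
  have h2 : (i : ℕ) + 1 = (j : ℕ) + 1 := congrArg (fun z : Is d m => (z : ℕ × Pool.Agent.W_MP_7d29a1_pr.Site d).1) h1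
  exact Fin.ext (by omega)

/-- the sites of a walk -/
noncomputable def At {m : ℕ} (s : Fin m → Step d) : Finset (Fin (Nn d m)) :=
  Finset.univ.map ⟨st s, st_inj s⟩

lemma sum_At {m : ℕ} (s : Fin m → Step d) (η : Env d) : ∑ i ∈ At s, pr d m η i = energy η s := by
  unfold At energy
  rw [Finset.sum_map]
  refine Finset.sum_congr rfl fun i _ => ?_
  show η ((eq d m).symm (eq d m _) : ℕ × Pool.Agent.W_MP_7d29a1_pr.Site d) = _
  rw [Equiv.symm_apply_apply]

/-- the weights -/
noncomputable def cw (h : Vec d) (m : ℕ) (s : Fin m → Step d) : ℝ := Real.exp (inner ℝ h (emb (pos s m)))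

lemma Z_pr (β : ℝ) (h : Vec d) (m : ℕ) (η : Env d) :
    C5.Z β (cw h m) At (pr d m η) = Z β h η m := by
  unfold C5.Z C5.T Z ZT wgt cw
  simp only [Set.mem_univ, if_true]
  refine Finset.sum_congr rfl fun s _ => ?_
  rw [sum_At, Real.exp_add]

lemma law_pr {ρ : Measure ℝ} [IsProbabilityMeasure ρ] (m : ℕ) :
    (law d ρ).map (pr d m) = PN ρ (Nn d m) := by
  have h1 : (law d ρ).map (Is d m).restrict = Measure.pi fun _ : Is d m => ρ :=
    Measure.infinitePi_map_restrict _
  have h2 := Measure.pi_map_piCongrLeft (eq d m) (β := fun _ => ℝ) (fun _ => ρ)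
  have h3 : pr d m = (MeasurableEquiv.piCongrLeft (fun _ => ℝ) (eq d m)) ∘
      ((Is d m).restrict (π := fun _ => ℝ)) := by
    funext η i
    obtain ⟨j, rfl⟩ := (eq d m).surjective i
    show η ((eq d m).symm (eq d m j) : ℕ × Pool.Agent.W_MP_7d29a1_pr.Site d) =
      (Equiv.piCongrLeft (fun _ => ℝ) (eq d m)) ((Is d m).restrict η) (eq d m j)
    rw [Equiv.symm_apply_apply, Equiv.piCongrLeft_apply_apply]
    rfl
  have h4 : Measure.map ((MeasurableEquiv.piCongrLeft (fun _ => ℝ) (eq d m)) ∘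
      ((Is d m).restrict (π := fun _ => ℝ))) (law d ρ) =
      Measure.map (MeasurableEquiv.piCongrLeft (fun _ => ℝ) (eq d m))
        (Measure.map ((Is d m).restrict (π := fun _ => ℝ)) (law d ρ)) :=
    (Measure.map_map (MeasurableEquiv.measurable _) (Finset.measurable_restrict _)).symm
  rw [h3, h4, h1]
  exact h2

lemma meas_pr (m : ℕ) : Measurable (pr d m) := by
  unfold pr
  exact measurable_pi_lambda _ fun i => measurable_pi_apply _

/-- the function of the class on the environments -/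
lemma V_pr (hd : 0 < d) (β : ℝ) (h : Vec d) (m : ℕ) (s₀ : ℝ) (η : Env d) :
    C5.V β (cw h m) At s₀ (pr d m η) = Real.log (1 + Real.exp (X β h η m - s₀)) := by
  unfold C5.V C5.Dn
  rw [Z_pr, sub_eq_add_neg, Real.exp_add]
  unfold X
  rw [Real.exp_log (Z_pos hd β h η m)]

lemma log_le (x : ℝ) : Real.log (1 + Real.exp x) ≤ Real.log 2 + max x 0 := by
  have h1 : (1 : ℝ) + Real.exp x ≤ 2 * Real.exp (max x 0) := by
    have h2 : (1 : ℝ) ≤ Real.exp (max x 0) := Real.one_le_exp (le_max_right _ _)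
    have h3 : Real.exp x ≤ Real.exp (max x 0) := Real.exp_le_exp.2 (le_max_left _ _)
    linarith
  have h4 := Real.log_le_log (by positivity) h1
  rwa [Real.log_mul (by norm_num) (Real.exp_pos _).ne', Real.log_exp] at h4

/-- the second moment -/
lemma mom {ρ : Measure ℝ} [IsProbabilityMeasure ρ] (hd : 0 < d) (hρ : EM ρ) (β : ℝ) (h : Vec d)
    (m : ℕ) {s₀ q : ℝ} (hq : 0 < q) (hq2 : q ≤ 1)
    (h0 : q ≤ (law d ρ).real {η | X β h η m ≤ s₀}) :
    ∫ η, Real.log (1 + Real.exp (X β h η m - s₀)) ^ 2 ∂(law d ρ) ≤ 1 + 8 * (Va ρ β h m / q) := by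
  set a := A ρ β h m with ha
  have hI := integrable_cen13 hd hρ β h m
  have hV0 : 0 ≤ Va ρ β h m := integral_nonneg fun η => sq_nonneg _
  have h1 : (max (a - s₀) 0) ^ 2 ≤ Va ρ β h m / q := by
    rcases le_total a s₀ with hh | hh
    · rw [max_eq_right (by linarith)]
      have := div_nonneg hV0 hq.le
      simpa using this
    · rw [max_eq_left (by linarith), le_div_iff₀ hq]
      have h2 := mul_meas_ge_le_integral_of_nonneg (μ := law d ρ)
        (f := fun η => (X β h η m - A ρ β h m) ^ 2) (Eventually.of_forall fun η => sq_nonneg _)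
        hI ((a - s₀) ^ 2)
      have h3 : (law d ρ).real {η | X β h η m ≤ s₀} ≤
          (law d ρ).real {η | (a - s₀) ^ 2 ≤ (X β h η m - A ρ β h m) ^ 2} := by
        refine measureReal_mono fun η (hη : X β h η m ≤ s₀) => ?_
        show (a - s₀) ^ 2 ≤ (X β h η m - a) ^ 2
        nlinarith
      calc (a - s₀) ^ 2 * q ≤ (a - s₀) ^ 2 *
            (law d ρ).real {η | (a - s₀) ^ 2 ≤ (X β h η m - A ρ β h m) ^ 2} :=
            mul_le_mul_of_nonneg_left (h0.trans h3) (sq_nonneg _)
        _ ≤ _ := h2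
  have hl2 : 0 ≤ Real.log 2 := Real.log_nonneg (by norm_num)
  have hl2' : Real.log 2 < 0.7 := by
    have := Real.log_two_lt_d9
    linarith
  have h4 : ∀ η : Env d, Real.log (1 + Real.exp (X β h η m - s₀)) ^ 2 ≤
      (1 + 4 * (max (a - s₀) 0) ^ 2) + 4 * (X β h η m - A ρ β h m) ^ 2 := fun η => by
    have h5 := log_le (X β h η m - s₀)
    have h6 : 0 ≤ Real.log (1 + Real.exp (X β h η m - s₀)) :=
      Real.log_nonneg (by have := Real.exp_pos (X β h η m - s₀); linarith)
    have h7 : max (X β h η m - s₀) 0 ≤ |X β h η m - a| + max (a - s₀) 0 := by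
      refine max_le ?_ (add_nonneg (abs_nonneg _) (le_max_right _ _))
      have := le_abs_self (X β h η m - a)
      have := le_max_left (a - s₀) 0
      linarith
    have h8 := sq_abs (X β h η m - a)
    have h9 := abs_nonneg (X β h η m - a)
    have h10 := le_max_right (a - s₀) 0
    set u := |X β h η m - a|
    set v := max (a - s₀) 0
    have h11 : Real.log (1 + Real.exp (X β h η m - s₀)) ^ 2 ≤ (Real.log 2 + (u + v)) ^ 2 :=
      pow_le_pow_left₀ h6 (by linarith) 2
    rw [← ha, ← h8]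
    nlinarith [sq_nonneg (Real.log 2 - (u + v)), sq_nonneg (u - v), sq_nonneg (Real.log 2)]
  have h12 : ∫ η, Real.log (1 + Real.exp (X β h η m - s₀)) ^ 2 ∂(law d ρ) ≤
      ∫ η, ((1 + 4 * (max (a - s₀) 0) ^ 2) + 4 * (X β h η m - A ρ β h m) ^ 2) ∂(law d ρ) :=
    integral_mono_of_nonneg (Eventually.of_forall fun η => sq_nonneg _)
      ((integrable_const _).add (hI.const_mul 4)) (Eventually.of_forall h4)
  rw [integral_add (integrable_const _) (hI.const_mul 4), integral_const, probReal_univ, one_smul,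
    integral_const_mul] at h12
  have h13 : ∫ η, (X β h η m - A ρ β h m) ^ 2 ∂(law d ρ) = Va ρ β h m := rfl
  rw [h13] at h12
  have h14 : Va ρ β h m ≤ Va ρ β h m / q := by
    rw [le_div_iff₀ hq]
    nlinarith
  linarith

end U5

open U5 in
/-- **A7**: amplification of the upper deviations of the free energy, every law. -/
theorem ampU5 {d : ℕ} (hd : 0 < d) {ρ : Measure ℝ} [IsProbabilityMeasure ρ] (hρ : EM ρ) {β : ℝ}
    (hβ : 0 ≤ β) (hA : AmpC ρ β) : AmpU ρ β d := by
  intro t ht
  obtain ⟨C, hC1, hC⟩ := hA (t + 3) (by linarith)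
  refine ⟨3 * C, by linarith, fun h m s₀ s₁ q hq hq2 hs hVa h0 h1 => ?_⟩
  set s := s₁ - s₀ with hs'
  have hlq : 0 ≤ Real.log (1 / q) := Real.log_nonneg (by rw [le_div_iff₀ hq]; linarith)
  have hs3 : 3 ≤ s := by nlinarith
  have hc : ∀ k, 0 ≤ cw h m k := fun k => (Real.exp_pos _).le
  have mX := measurable_X (d := d) β h m
  have mV := (cls5 hβ hc At s₀).meas
  have hV := V_pr hd β h m s₀
  have hlaw : ∀ T : Set ℝ, MeasurableSet T → (PN ρ (Nn d m)).real {y | C5.V β (cw h m) At s₀ y ∈ T} =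
      (law d ρ).real {η | Real.log (1 + Real.exp (X β h η m - s₀)) ∈ T} := fun T hT => by
    have mS : MeasurableSet {y | C5.V β (cw h m) At s₀ y ∈ T} := mV hT
    rw [← law_pr, map_measureReal_apply (meas_pr m) mS]
    congr 1
    ext η
    show C5.V β (cw h m) At s₀ (pr d m η) ∈ T ↔ Real.log (1 + Real.exp (X β h η m - s₀)) ∈ T
    rw [hV]
  have e0 := hlaw (Iic (Real.log 2)) measurableSet_Iic
  have e1 := hlaw (Ici s) measurableSet_Ici
  have e2 := hlaw (Ici ((t + 3) * s)) measurableSet_Ici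
  simp only [mem_Iic, mem_Ici] at e0 e1 e2
  have hlog4 : Real.log 4 ≤ 2 := by
    have h2 := Real.log_two_lt_d9
    have h3 : Real.log 4 = 2 * Real.log 2 := by
      rw [show (4 : ℝ) = 2 ^ 2 by norm_num, Real.log_pow]
      norm_num
    linarith
  have key := hC (Nn d m) (C5.V β (cw h m) At s₀) (C5.P β (cw h m) At s₀) (cls5 hβ hc At s₀)
    (q / 4) s (by positivity) (by linarith) ?_ ?_ ?_ ?_
  · have h2 : (q / 4) ^ C ≤ (law d ρ).real {η | s₁ + t * s < X β h η m} := by
      refine key.trans ?_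
      rw [e2]
      refine measureReal_mono fun η (hη : (t + 3) * s ≤ Real.log (1 + Real.exp (X β h η m - s₀))) => ?_
      show s₁ + t * s < X β h η m
      have h3 := log_le (X β h η m - s₀)
      have h4 := Real.log_two_lt_d9
      have h5 : (t + 3) * s - 1 < max (X β h η m - s₀) 0 := by linarith
      rcases le_total (X β h η m - s₀) 0 with h6 | h6
      · rw [max_eq_right h6] at h5
        nlinarith
      · rw [max_eq_left h6] at h5
        nlinarith
    refine le_trans ?_ h2
    have h3 : q ^ (3 : ℝ) ≤ q / 4 := by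
      rw [show (3 : ℝ) = ((3 : ℕ) : ℝ) by norm_num, Real.rpow_natCast]
      have h4 : q ^ 2 ≤ 1 / 4 := by nlinarith
      nlinarith
    calc q ^ (3 * C) = (q ^ (3 : ℝ)) ^ C := by rw [← Real.rpow_mul hq.le]
      _ ≤ (q / 4) ^ C := Real.rpow_le_rpow (by positivity) h3 (by linarith)
  · have h2 : Real.log (1 / (q / 4)) = Real.log 4 + Real.log (1 / q) := by
      rw [show 1 / (q / 4) = 4 * (1 / q) by field_simp, Real.log_mul (by norm_num) (by positivity)]
    rw [h2]
    nlinarith
  · rw [e0]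
    refine (by linarith : q / 4 ≤ q).trans (h0.trans ?_)
    refine measureReal_mono fun η (hη : X β h η m ≤ s₀) => ?_
    show Real.log (1 + Real.exp (X β h η m - s₀)) ≤ Real.log 2
    apply Real.log_le_log (by positivity)
    have : Real.exp (X β h η m - s₀) ≤ 1 := Real.exp_le_one_iff.2 (by linarith)
    linarith
  · rw [e1]
    refine (by linarith : q / 4 ≤ q).trans (h1.trans ?_)
    refine measureReal_mono fun η (hη : s₁ < X β h η m) => ?_
    show s ≤ Real.log (1 + Real.exp (X β h η m - s₀))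
    rw [Real.le_log_iff_exp_le (by positivity)]
    have : Real.exp s ≤ Real.exp (X β h η m - s₀) := Real.exp_le_exp.2 (by rw [hs']; linarith)
    linarith
  · have h2 : ∫ y, C5.V β (cw h m) At s₀ y ^ 2 ∂PN ρ (Nn d m) =
        ∫ η, Real.log (1 + Real.exp (X β h η m - s₀)) ^ 2 ∂(law d ρ) := by
      rw [← law_pr, integral_map (meas_pr m).aemeasurable
        ((mV.pow_const 2).aestronglyMeasurable)]
      simp only [hV]
    rw [h2]
    have h3 := mom hd hρ β h m hq (by linarith) h0
    have h4 : Va ρ β h m / q ≤ (s / q) ^ 2 := by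
      rw [div_pow, div_le_div_iff₀ hq (by positivity)]
      have := mul_le_mul_of_nonneg_right hVa (by positivity : 0 ≤ q ^ 2)
      calc Va ρ β h m * q ^ 2 ≤ s ^ 2 / q * q ^ 2 := this
        _ = s ^ 2 * q := by field_simp
    have h5 : 1 ≤ (s / q) ^ 2 := by
      have : 1 ≤ s / q := by rw [le_div_iff₀ hq]; linarith
      nlinarith
    have h6 : (s / (q / 4)) ^ 2 = 16 * (s / q) ^ 2 := by
      field_simp
      ring
    rw [h6]
    linarith

end Pool.Agent.W_7d29a1_AM
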