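import Pool.Agent.W_7d29a1_AM.AmpN5
import Pool.Agent.W_7d29a1_AM.AmpU5
import Pool.Agent.W_7d29a1_AM.LemK44
import Pool.Agent.W_7d29a1_AM.SiteP86
import Pool.Agent.W_7d29a1_AM.Con73
import Pool.Agent.W_7d29a1_AM.Wt64

/-!
Amplification of the upper deviations of the free energy, every law, every dimension, without any
moment; the growth that it gives (helper5).
-/

namespace Pool.Agent.W_7d29a1_AM

open MeasureTheory ProbabilityTheory Filter Topology Set Pool.Agent.W_MP_7d29a1_pr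
  Pool.Agent.W_7d29a1_h46 Pool.Agent.W_7d29a1_h46u Pool.Agent.W_7d29a1_D2.B35
  Pool.Agent.W_7d29a1_Q29 Pool.Agent.W_7d29a1_R34 Pool.Agent.W_7d29a1_SP

/-- Amplification of the upper deviations of the free energy, no moment. -/
def AmpN (ρ : Measure ℝ) (β : ℝ) (d : ℕ) : Prop := ∀ t : ℝ, 1 ≤ t → ∃ C : ℝ, 1 ≤ C ∧
  ∀ (h : Vec d) (m : ℕ) (s₀ s₁ q : ℝ), 0 < q → q ≤ 1 / 2 →
    C * (1 + Real.log (1 / q)) ≤ s₁ - s₀ → q ≤ (law d ρ).real {η | X β h η m ≤ s₀} →
    q ≤ (law d ρ).real {η | s₁ < X β h η m} →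
      q ^ C ≤ (law d ρ).real {η | s₁ + t * (s₁ - s₀) < X β h η m}

/-- GROW, every law, no moment. -/
def GrowN (d : ℕ) (ρ : Measure ℝ) (β : ℝ) : Prop := ∀ c₀ D : ℝ, 0 < c₀ → 1 ≤ D →
  ∃ C : ℝ, 1 ≤ C ∧ ∀ h : Vec d, Loc1 ρ β h c₀ → ∀ (m T : ℕ) (s₀ s₁ q Φ : ℝ), 1 ≤ m → 0 < q →
    q ≤ 1 / 2 → C * (1 + Real.log (1 / q)) ≤ s₁ - s₀ → A ρ β h m ≤ s₁ →
    q ≤ (law d ρ).real {η | X β h η m ≤ s₀} → q ≤ (law d ρ).real {η | s₁ < X β h η m} →
    C * m * (1 / q) ^ C ≤ T →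
    (∀ k : ℕ, k ≤ T → En ρ β h k ≤ Φ ∧ Fn ρ β h k ≤ Φ) → D * (s₁ - s₀) ≤ Φ + 1

open U5 in
/-- **Amplification of the upper deviations of the free energy, every law, no moment.** -/
theorem ampN5 {d : ℕ} (hd : 0 < d) {ρ : Measure ℝ} [IsProbabilityMeasure ρ] {β : ℝ}
    (hβ : 0 ≤ β) (hA : AmpCN ρ β) : AmpN ρ β d := by
  intro t ht
  obtain ⟨C, hC1, hC⟩ := hA (t + 3) (by linarith)
  refine ⟨3 * C, by linarith, fun h m s₀ s₁ q hq hq2 hs h0 h1 => ?_⟩
  set s := s₁ - s₀ with hs'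
  have hlq : 0 ≤ Real.log (1 / q) := Real.log_nonneg (by rw [le_div_iff₀ hq]; linarith)
  have hs3 : 3 ≤ s := by nlinarith
  have hc : ∀ k, 0 ≤ cw h m k := fun k => (Real.exp_pos _).le
  have mX := measurable_X (d := d) β h m
  have mV := (cls5 hβ hc At s₀).meas
  have hV := V_pr hd β h m s₀
  have hlaw : ∀ T : Set ℝ, MeasurableSet T → (PN ρ (Nn d m)).real {y | C5.V β (cw h m) At s₀ y ∈ T} =
      (law d ρ).real {η | Real.log (1 + Real.exp (X β h η m - s₀)) ∈ T} := fun T hT => by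
    have mS : MeasurableSet {y | C5.V β (cw h m) At s₀ y ∈ T} := mV hT
    rw [← law_pr, map_measureReal_apply (meas_pr m) mS]
    congr 1
    ext η
    show C5.V β (cw h m) At s₀ (pr d m η) ∈ T ↔ Real.log (1 + Real.exp (X β h η m - s₀)) ∈ T
    rw [hV]
  have e0 := hlaw (Iic (Real.log 2)) measurableSet_Iic
  have e1 := hlaw (Ici s) measurableSet_Ici
  have e2 := hlaw (Ici ((t + 3) * s)) measurableSet_Ici
  simp only [mem_Iic, mem_Ici] at e0 e1 e2
  have hCs : C * (1 + Real.log (1 / q)) ≤ s := by nlinarith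
  have key := hC (Nn d m) (C5.V β (cw h m) At s₀) (C5.P β (cw h m) At s₀) (cls5 hβ hc At s₀)
    q s hq hq2 hCs ?_ ?_
  · have h2 : q ^ C ≤ (law d ρ).real {η | s₁ + t * s < X β h η m} := by
      refine key.trans ?_
      rw [e2]
      refine measureReal_mono fun η (hη : (t + 3) * s ≤ Real.log (1 + Real.exp (X β h η m - s₀))) => ?_
      show s₁ + t * s < X β h η m
      have h3 := log_le (X β h η m - s₀)
      have h4 := Real.log_two_lt_d9
      have h5 : (t + 3) * s - 1 < max (X β h η m - s₀) 0 := by linarith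
      rcases le_total (X β h η m - s₀) 0 with h6 | h6
      · rw [max_eq_right h6] at h5
        nlinarith
      · rw [max_eq_left h6] at h5
        nlinarith
    refine le_trans ?_ h2
    exact Real.rpow_le_rpow_of_exponent_ge hq (by linarith) (by linarith)
  · rw [e0]
    refine h0.trans ?_
    refine measureReal_mono fun η (hη : X β h η m ≤ s₀) => ?_
    show Real.log (1 + Real.exp (X β h η m - s₀)) ≤ Real.log 2
    apply Real.log_le_log (by positivity)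
    have : Real.exp (X β h η m - s₀) ≤ 1 := Real.exp_le_one_iff.2 (by linarith)
    linarith
  · rw [e1]
    refine h1.trans ?_
    refine measureReal_mono fun η (hη : s₁ < X β h η m) => ?_
    show s ≤ Real.log (1 + Real.exp (X β h η m - s₀))
    rw [Real.le_log_iff_exp_le (by positivity)]
    have : Real.exp s ≤ Real.exp (X β h η m - s₀) := Real.exp_le_exp.2 (by rw [hs']; linarith)
    linarith

/-- The amplification in the class, every law, no hypothesis left. -/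
theorem ampCNAll5 {ρ : Measure ℝ} [IsProbabilityMeasure ρ] (hρ : EM ρ)
    (hnc : ∀ c : ℝ, ρ {c} ≠ 1) {β : ℝ} (hβ : 0 < β) : AmpCN ρ β := by
  have h1 : SiteP ρ β := siteP86 hβ
  have h2 : ConP ρ β := conP73 hρ hnc hβ
  exact ampCN5 wt64 (lemD5 hβ wt64 h1 (couP5 hρ hβ h2)) (lemK44 h1 h2)

/-- The amplification of the free energy, every law, no hypothesis left. -/
theorem ampNAll5 {d : ℕ} (hd : 0 < d) {ρ : Measure ℝ} [IsProbabilityMeasure ρ] (hρ : EM ρ)
    (hnc : ∀ c : ℝ, ρ {c} ≠ 1) {β : ℝ} (hβ : 0 < β) : AmpN ρ β d :=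
  ampN5 hd hβ.le (ampCNAll5 hρ hnc hβ)

/-- GROW for every law, no moment. -/
theorem growN5 {d : ℕ} {ρ : Measure ℝ} [IsProbabilityMeasure ρ] {β : ℝ} (hC : CntP d ρ β)
    (hA : AmpN ρ β d) : GrowN d ρ β := by
  intro c₀ D hc hD
  obtain ⟨C1, h1, hcnt⟩ := hC c₀ hc
  have hC1 : 0 < C1 := by linarith
  have hDC : 1 ≤ D * C1 := one_le_mul_of_one_le_of_one_le hD h1
  obtain ⟨C2, h2, hamp⟩ := hA (D * C1) hDC
  refine ⟨max C1 C2, h1.trans (le_max_left _ _), ?_⟩
  intro h hL m T s₀ s₁ q Φ hm hq hq1 hs hAm hp0 hp1 hT hk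
  obtain ⟨C, hCdef⟩ : ∃ C, C = max C1 C2 := ⟨_, rfl⟩
  rw [← hCdef] at hs hT
  have hCa : C1 ≤ C := by
    rw [hCdef]
    exact le_max_left _ _
  have hCb : C2 ≤ C := by
    rw [hCdef]
    exact le_max_right _ _
  have h8 : 1 ≤ 1 / q := by
    rw [le_div_iff₀ hq]
    linarith
  have hl : 0 ≤ Real.log (1 / q) := Real.log_nonneg h8
  have hs2 : C2 * (1 + Real.log (1 / q)) ≤ s₁ - s₀ :=
    (mul_le_mul_of_nonneg_right hCb (by linarith)).trans hs
  have hs0 : 0 ≤ s₁ - s₀ := by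
    have : 0 ≤ C2 * (1 + Real.log (1 / q)) := by positivity
    linarith
  have h3 := hamp h m s₀ s₁ q hq hq1 hs2 hp0 hp1
  have hqC : 0 < q ^ C2 := Real.rpow_pos_of_pos hq _
  have h4 : q ^ C2 ≤ (law d ρ).real {η | A ρ β h m + D * C1 * (s₁ - s₀) ≤ X β h η m} := by
    refine h3.trans (measureReal_mono ?_ (measure_ne_top _ _))
    intro η hη
    have h5 : s₁ + D * C1 * (s₁ - s₀) < X β h η m := hη
    show A ρ β h m + D * C1 * (s₁ - s₀) ≤ X β h η m
    linarith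
  have hmp : (1 : ℝ) ≤ m := by exact_mod_cast hm
  have h5 : C1 * m / (q ^ C2) ≤ T := by
    refine le_trans ?_ hT
    have h6 : q ^ C2 = (1 / q) ^ (-C2) := by
      rw [one_div, Real.inv_rpow hq.le, Real.rpow_neg hq.le, inv_inv]
    have h7 : C1 * m / (q ^ C2) = C1 * m * (1 / q) ^ C2 := by
      rw [h6, Real.rpow_neg (by positivity)]
      field_simp
    rw [h7]
    have h9 : (1 / q) ^ C2 ≤ (1 / q) ^ C := Real.rpow_le_rpow_of_exponent_le h8 hCb
    have h10 : C1 * m ≤ C * m := mul_le_mul_of_nonneg_right hCa (by linarith)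
    exact mul_le_mul h10 h9 (Real.rpow_nonneg (by positivity) _)
      (mul_nonneg (by linarith) (by linarith))
  have h6 := hcnt h hL m T (D * C1 * (s₁ - s₀)) (q ^ C2) Φ hm hqC h4 h5 hk
  have h7 : C1 * (D * (s₁ - s₀)) ≤ C1 * (Φ + 1) := by
    calc C1 * (D * (s₁ - s₀)) = D * C1 * (s₁ - s₀) := by ring
      _ ≤ _ := h6
  exact le_of_mul_le_mul_left h7 hC1

end Pool.Agent.W_7d29a1_AM
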