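import Pool.Agent.W_7d29a1_AM.DefsAM

/-!
Amplification with two parameters: small excesses over a level of positive probability. Frozen
statements (helper73).
-/

namespace Pool.Agent.W_7d29a1_AM

open MeasureTheory ProbabilityTheory Filter Topology Pool.Agent.W_MP_7d29a1_pr
  Pool.Agent.W_7d29a1_h46 Pool.Agent.W_7d29a1_h46u Pool.Agent.W_7d29a1_D2.B35
  Pool.Agent.W_7d29a1_Q29 Pool.Agent.W_7d29a1_R34 Pool.Agent.W_7d29a1_SP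

section Leaves

variable (ρ : Measure ℝ) (β : ℝ)

/-- T1: the coupling inequality with two parameters and a general bound of the gradient. -/
def CouT : Prop := ∀ C₁ : ℝ, 1 ≤ C₁ → ∃ C : ℝ, 0 < C ∧
  ∀ (l l' m : ℝ) (G K G' K' a b : ℝ → ℝ), 0 < l → l ≤ 1 → 0 < l' → l' ≤ 1 → 0 ≤ m →
  Site l β 1 G K → Site l' β (-1) G' K' → Measurable a → Measurable b → (∀ w, 0 ≤ a w) →
  (∃ M, ∀ w, |b w| ≤ M) → (∃ M, ∀ w, a w * G' w ≤ M) →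
  (∀ w w₁, w ≤ w₁ → b w₁ - β * (w₁ - w) * (C₁ * Real.exp (C₁ * |w₁|) * m) ≤ a w) →
    (∫ w, b w * G w ∂ρ) / (∫ w, G w ∂ρ) ≤ (∫ w, a w * G' w ∂ρ) / (∫ w, G' w ∂ρ) +
      C * m * (l * ((∫ z, K z ∂ρ) / ∫ z, G z ∂ρ) + l' * ((∫ z, K' z ∂ρ) / ∫ z, G' z ∂ρ))

/-- T2: the weights with another cut off. -/
def KmP : Prop := ∃ (c R C : ℝ) (L H : Set ℝ), LHs ρ c R L H ∧ 1 ≤ C ∧
  ∀ l B B' : ℝ, 0 < l → l ≤ 1 → 0 ≤ B → 0 ≤ B' →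
  ∀ (N : ℕ) (V : (Fin (N + 1) → ℝ) → ℝ) (p : Fin (N + 1) → (Fin (N + 1) → ℝ) → ℝ), Cls β V p →
    (∀ w, Kf ρ (fP l B) (chi B') V p w / gf ρ (fP l B) (fx V w) ≤
      C * Real.exp (C * |w|) * pif ρ (fP l B) (chi B') V p) ∧
    (∀ w ∈ L, c * pif ρ (fP l B) (chi B') V p ≤
      Kf ρ (fP l B) (chi B') V p w / gf ρ (fP l B) V)

/-- T3: the gradient is large, two parameters. -/
def LemDT : Prop := ∃ C : ℝ, 0 < C ∧ ∀ l B B' l' η : ℝ, 0 < l → l ≤ 1 → 0 ≤ B → B ≤ B' →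
  0 < l' → l' ≤ 1 → 0 < η →
  ∀ (N : ℕ) (Vm V : (Fin N → ℝ) → ℝ) (pm p : Fin N → (Fin N → ℝ) → ℝ) (c : (Fin N → ℝ) → ℝ)
    (u v : ℝ), Cls β Vm pm → Cls β V p → Measurable c → (∀ y, 0 ≤ c y) → (∃ M, ∀ y, c y ≤ M) →
    (∀ y y₁, V y₁ - c y₁ + β * ∑ i, (y i - y₁ i) * p i y₁ ≤ Vm y) → 1 < u → 0 ≤ v → v ≤ u →
      Ef ρ (fP l B) V (fun y => chi B' (V y) * (V y - c y)) -
          C * η * Ns ρ (fP l B) (chi B') N V p v -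
          (B' + 1) / (u - 1) * (Ns ρ (fP l B) (chi B') N V p v + u - v) ≤
        Ef ρ (fM l') Vm Vm + C / η * (l ^ 2 * Nt ρ (fP l B) (chi B) N V p +
          l' ^ 2 * Nt ρ (fM l') (fun _ => 1) N Vm pm)

/-- T4: the upgrade with another cut off. -/
def LemGT : Prop := ∃ c C : ℝ, 0 < c ∧ 0 < C ∧ ∀ l B B' : ℝ, 0 < l → l ≤ 1 → 0 ≤ B → 0 ≤ B' →
  ∀ (N : ℕ) (V : (Fin N → ℝ) → ℝ) (p : Fin N → (Fin N → ℝ) → ℝ) (Y e : (Fin N → ℝ) → ℝ)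
    (θ x₀ v : ℝ), Cls β V p → Measurable Y → (∀ y, 0 ≤ Y y) →
    (∃ M, ∀ y, Y y ≤ M * (1 + ∑ i, |y i|)) → Measurable e → (∀ y, 0 ≤ e y) →
    (∃ M, ∀ y, e y ≤ M) →
    (∀ y y₂ : Fin N → ℝ, (∀ i, y i ≤ y₂ i) → e y + β * ∑ i, (y₂ i - y i) * p i y ≤ Y y₂) →
    0 ≤ θ → θ ≤ 1 → 0 ≤ x₀ → 0 ≤ v →
      Ef ρ (fP l B) V e + c * θ * Ns ρ (fP l B) (chi B') N V p v ≤
        x₀ + Real.exp (l * B) / gf ρ (fP l B) V * Real.exp (C * θ ^ 2 * v) *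
          (∫ y, (max (Y y - x₀) 0) ^ (4 / 3 : ℝ) ∂PN ρ N) ^ (3 / 4 : ℝ)

/-- T5: small excesses over a level of positive probability. -/
def AmpT : Prop := ∀ A : ℝ, 1 ≤ A → ∃ C c : ℝ, 1 ≤ C ∧ 0 < c ∧ ∀ (N : ℕ)
  (V : (Fin N → ℝ) → ℝ) (p : Fin N → (Fin N → ℝ) → ℝ), Cls β V p → ∀ q s y : ℝ, 0 < q →
    q ≤ 1 / 2 → C * (1 + Real.log (1 / q)) ≤ s → C ≤ y → y ≤ s →
    y ^ 2 * (1 + Real.log (1 / q)) ≤ A * s ^ 2 → q ≤ (PN ρ N).real {z | V z ≤ Real.log 2} →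
    3 / 4 ≤ (PN ρ N).real {z | s ≤ V z} → ∫ z, (max (V z - s) 0) ^ 2 ∂PN ρ N ≤ A * y ^ 2 →
      c ≤ (PN ρ N).real {z | s + y ≤ V z}

end Leaves

end Pool.Agent.W_7d29a1_AM
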