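import Pool.Agent.W_7d29a1_AM.Base73
import Pool.Agent.W_7d29a1_AM.DefsAT

/-!
Base lemmas for a weight which is not the derivative of the density (helper73).
-/

namespace Pool.Agent.W_7d29a1_AM

open MeasureTheory ProbabilityTheory Filter Topology

/-- The properties of a pair which are used without the one site calculus. -/
structure W0 (f x : ℝ → ℝ) : Prop where
  measf : Measurable f
  measx : Measurable x
  pos : ∀ v, 0 < f v
  x0 : ∀ v, 0 ≤ x v
  x1 : ∀ v, x v ≤ 1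
  bdd : ∃ C, ∀ v, 0 ≤ v → f v ≤ C

lemma w0P (l B B' : ℝ) (hl : 0 < l) : W0 (fP l B) (chi B') where
  measf := by unfold fP Uf; fun_prop
  measx := by unfold chi; fun_prop
  pos v := by unfold fP; positivity
  x0 v := by unfold chi; positivity
  x1 v := by
    unfold chi
    rw [div_le_one (by positivity)]
    linarith [Real.exp_pos (v - B')]
  bdd := ⟨Real.exp (l * B), fun v _ => by
    unfold fP Uf
    refine Real.exp_le_exp.2 (mul_le_mul_of_nonneg_left ?_ hl.le)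
    have h1 : v - B ≤ Real.log (1 + Real.exp (v - B)) := by
      rw [Real.le_log_iff_exp_le (by positivity)]
      linarith
    linarith⟩

namespace T0

variable {ρ : Measure ℝ} [IsProbabilityMeasure ρ] {β : ℝ} {f x : ℝ → ℝ} {N : ℕ}

lemma abs_f (hW : W0 f x) : ∃ C, ∀ v, 0 ≤ v → |f v| ≤ C := by
  obtain ⟨C, hC⟩ := hW.bdd
  exact ⟨C, fun v hv => by rw [abs_of_pos (hW.pos v)]; exact hC v hv⟩

lemma int_f (hW : W0 f x) {V : (Fin N → ℝ) → ℝ} {p : Fin N → (Fin N → ℝ) → ℝ}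
    (h : Cls β V p) : Integrable (fun y => f (V y)) (PN ρ N) := by
  obtain ⟨C, hC⟩ := abs_f hW
  exact Integrable.of_bound (hW.measf.comp h.meas).aestronglyMeasurable C
    (Eventually.of_forall fun y => by rw [Real.norm_eq_abs]; exact hC _ (h.nonneg y))

/-- Bounded against the weight. -/
lemma int_Ff (hW : W0 f x) {V F : (Fin N → ℝ) → ℝ} {p : Fin N → (Fin N → ℝ) → ℝ}
    (h : Cls β V p) (hF : Measurable F) {M : ℝ} (hM : ∀ y, |F y * f (V y)| ≤ M) :
    Integrable (fun y => F y * f (V y)) (PN ρ N) :=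
  Integrable.of_bound (hF.mul (hW.measf.comp h.meas)).aestronglyMeasurable M
    (Eventually.of_forall fun y => by rw [Real.norm_eq_abs]; exact hM y)

lemma gf_pos (hW : W0 f x) {V : (Fin N → ℝ) → ℝ} {p : Fin N → (Fin N → ℝ) → ℝ}
    (h : Cls β V p) : 0 < gf ρ f V := by
  unfold gf
  rw [integral_pos_iff_support_of_nonneg (fun y => (hW.pos _).le) (int_f hW h)]
  have : Function.support (fun y => f (V y)) = Set.univ := by
    ext y
    simp [(hW.pos (V y)).ne']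
  rw [this]
  simp

lemma gf_peel (hW : W0 f x) {V : (Fin (N + 1) → ℝ) → ℝ}
    {p : Fin (N + 1) → (Fin (N + 1) → ℝ) → ℝ} (h : Cls β V p) :
    gf ρ f V = ∫ w, gf ρ f (fx V w) ∂ρ := by
  unfold gf
  rw [peel (int_f hW h)]
  rfl

lemma gf_fx_pos (hW : W0 f x) {V : (Fin (N + 1) → ℝ) → ℝ}
    {p : Fin (N + 1) → (Fin (N + 1) → ℝ) → ℝ} (h : Cls β V p) (w : ℝ) : 0 < gf ρ f (fx V w) :=
  gf_pos hW (cls_fx h w)

/-- Means under the tilted law, peeled. -/
lemma Ef_peel (hW : W0 f x) {V F : (Fin (N + 1) → ℝ) → ℝ}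
    {p : Fin (N + 1) → (Fin (N + 1) → ℝ) → ℝ} (h : Cls β V p) (hF : Measurable F) {M : ℝ}
    (hM : ∀ y, |F y * f (V y)| ≤ M) :
    Ef ρ f V F = ∫ w, rf ρ f V w * Ef ρ f (fx V w) (fx F w) ∂ρ := by
  unfold Ef
  rw [peel (int_Ff hW h hF hM), ← integral_div]
  refine integral_congr_ae (Eventually.of_forall fun w => ?_)
  have h1 := (gf_fx_pos (ρ := ρ) hW h w).ne'
  unfold rf
  simp only [fx] at h1 ⊢
  field_simp

lemma pif_peel (hW : W0 f x) {V : (Fin (N + 1) → ℝ) → ℝ}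
    {p : Fin (N + 1) → (Fin (N + 1) → ℝ) → ℝ} (h : Cls β V p) :
    pif ρ f x V p = (∫ w, Kf ρ f x V p w ∂ρ) / (∫ w, gf ρ f (fx V w) ∂ρ) := by
  obtain ⟨C, hC⟩ := abs_f hW
  unfold pif Ef
  have hI : Integrable (fun y => (p 0 y * x (V y)) * f (V y)) (PN ρ (N + 1)) := by
    refine int_Ff hW h (F := fun y => p 0 y * x (V y)) ((h.measp 0).mul (hW.measx.comp h.meas))
      (M := C) ?_
    intro y
    have h1 : |p 0 y * x (V y)| ≤ 1 := by
      rw [abs_of_nonneg (mul_nonneg (h.p0 _ _) (hW.x0 _))]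
      exact mul_le_one₀ (h.p1 _ _) (hW.x0 _) (hW.x1 _)
    rw [abs_mul]
    calc |p 0 y * x (V y)| * |f (V y)| ≤ 1 * |f (V y)| :=
          mul_le_mul_of_nonneg_right h1 (abs_nonneg _)
      _ ≤ C := by rw [one_mul]; exact hC _ (h.nonneg y)
  rw [gf_peel hW h, peel hI]
  rfl

lemma pif0 (hW : W0 f x) {V : (Fin (N + 1) → ℝ) → ℝ}
    {p : Fin (N + 1) → (Fin (N + 1) → ℝ) → ℝ} (h : Cls β V p) : 0 ≤ pif ρ f x V p := by
  unfold pif Ef
  refine div_nonneg (integral_nonneg fun y => ?_) (gf_pos hW h).le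
  exact mul_nonneg (mul_nonneg (h.p0 _ _) (hW.x0 _)) (hW.pos _).le

lemma pif1 (hW : W0 f x) {V : (Fin (N + 1) → ℝ) → ℝ}
    {p : Fin (N + 1) → (Fin (N + 1) → ℝ) → ℝ} (h : Cls β V p) : pif ρ f x V p ≤ 1 := by
  unfold pif Ef
  rw [div_le_one (gf_pos hW h)]
  unfold gf
  refine integral_mono_of_nonneg (Eventually.of_forall fun y => ?_) (int_f hW h)
    (Eventually.of_forall fun y => ?_)
  · exact mul_nonneg (mul_nonneg (h.p0 _ _) (hW.x0 _)) (hW.pos _).le
  · have h1 : p 0 y * x (V y) ≤ 1 := mul_le_one₀ (h.p1 _ _) (hW.x0 _) (hW.x1 _)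
    have := mul_le_mul_of_nonneg_right h1 (hW.pos (V y)).le
    simpa using this

lemma rf_nonneg (hW : W0 f x) {V : (Fin (N + 1) → ℝ) → ℝ}
    {p : Fin (N + 1) → (Fin (N + 1) → ℝ) → ℝ} (h : Cls β V p) (w : ℝ) : 0 ≤ rf ρ f V w :=
  div_nonneg (gf_fx_pos hW h w).le (gf_pos hW h).le

section Fix

variable {V F : (Fin (N + 1) → ℝ) → ℝ} {p : Fin (N + 1) → (Fin (N + 1) → ℝ) → ℝ}

lemma rf_int (hW : W0 f x) (h : Cls β V p) : Integrable (rf ρ f V) ρ ∧
    ∫ w, rf ρ f V w ∂ρ = 1 := by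
  obtain ⟨C, hC⟩ := abs_f hW
  have hb : ∀ w, |gf ρ f (fx V w)| ≤ C := by
    intro w
    unfold gf
    rw [← Real.norm_eq_abs]
    have := norm_integral_le_of_norm_le_const (μ := PN ρ N) (f := fun y => f (fx V w y)) (C := C)
      (Eventually.of_forall fun y => by rw [Real.norm_eq_abs]; exact hC _ (h.nonneg _))
    simpa using this
  have hi : Integrable (fun w => gf ρ f (fx V w)) ρ :=
    Integrable.of_bound (meas_gf hW.measf h.meas).aestronglyMeasurable C
      (Eventually.of_forall fun w => by rw [Real.norm_eq_abs]; exact hb w)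
  refine ⟨hi.div_const _, ?_⟩
  unfold rf
  rw [integral_div, ← gf_peel hW h, div_self (gf_pos hW h).ne']

/-- A bounded function against the density. -/
lemma rf_mul_int (hW : W0 f x) (h : Cls β V p) {g : ℝ → ℝ} (hg : Measurable g) {M : ℝ}
    (hM : ∀ w, |g w| ≤ M) : Integrable (fun w => rf ρ f V w * g w) ρ := by
  have h1 := (rf_int (ρ := ρ) hW h).1
  refine (h1.mul_const M).mono' (h1.1.mul hg.aestronglyMeasurable) (Eventually.of_forall fun w => ?_)
  have h2 := rf_nonneg (ρ := ρ) hW h w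
  rw [norm_mul, Real.norm_eq_abs, Real.norm_eq_abs, abs_of_nonneg h2]
  exact mul_le_mul_of_nonneg_left (hM w) h2

end Fix

lemma Nt01 (hW : W0 f x) : ∀ (N : ℕ) {V : (Fin N → ℝ) → ℝ} {p : Fin N → (Fin N → ℝ) → ℝ},
    Cls β V p → 0 ≤ Nt ρ f x N V p ∧ Nt ρ f x N V p ≤ N := by
  intro N
  induction N with
  | zero => intro V p h; simp [Nt]
  | succ N ih =>
    intro V p h
    simp only [Nt]
    have h1 := pif0 (ρ := ρ) hW h
    have h2 := pif1 (ρ := ρ) hW h
    have h3 := rf_int (ρ := ρ) hW h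
    have h4 : ∀ w, |Nt ρ f x N (fx V w) (fq p w)| ≤ N := fun w => by
      rw [abs_of_nonneg (ih (cls_fx h w)).1]
      exact (ih (cls_fx h w)).2
    have h5 := rf_mul_int (ρ := ρ) hW h (meas_Nt hW.measf hW.measx h.meas h.measp) h4
    constructor
    · refine add_nonneg (sq_nonneg _) (integral_nonneg fun w => ?_)
      exact mul_nonneg (rf_nonneg hW h w) (ih (cls_fx h w)).1
    · have h6 : ∫ w, rf ρ f V w * Nt ρ f x N (fx V w) (fq p w) ∂ρ ≤ ∫ w, rf ρ f V w * N ∂ρ :=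
        integral_mono h5 (h3.1.mul_const _) fun w =>
          mul_le_mul_of_nonneg_left (ih (cls_fx h w)).2 (rf_nonneg hW h w)
      rw [integral_mul_const, h3.2, one_mul] at h6
      have h7 : pif ρ f x V p ^ 2 ≤ 1 := by nlinarith
      push_cast
      linarith

lemma Ns01 (hW : W0 f x) : ∀ (N : ℕ) {V : (Fin N → ℝ) → ℝ} {p : Fin N → (Fin N → ℝ) → ℝ}
    (v : ℝ), Cls β V p → 0 ≤ Ns ρ f x N V p v ∧ Ns ρ f x N V p v ≤ N := by
  intro N
  induction N with
  | zero => intro V p v h; simp [Ns]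
  | succ N ih =>
    intro V p v h
    simp only [Ns]
    have h1 := pif0 (ρ := ρ) hW h
    have h2 := pif1 (ρ := ρ) hW h
    have h3 := rf_int (ρ := ρ) hW h
    split_ifs with hc
    · obtain ⟨v', hv'⟩ : ∃ v', v' = v - pif ρ f x V p ^ 2 := ⟨_, rfl⟩
      rw [← hv']
      have h4 : ∀ w, |Ns ρ f x N (fx V w) (fq p w) v'| ≤ N := fun w => by
        rw [abs_of_nonneg (ih v' (cls_fx h w)).1]
        exact (ih v' (cls_fx h w)).2
      have h5 := rf_mul_int (ρ := ρ) hW h (meas_Ns hW.measf hW.measx h.meas h.measp v') h4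
      constructor
      · refine add_nonneg (sq_nonneg _) (integral_nonneg fun w => ?_)
        exact mul_nonneg (rf_nonneg hW h w) (ih v' (cls_fx h w)).1
      · have h6 : ∫ w, rf ρ f V w * Ns ρ f x N (fx V w) (fq p w) v' ∂ρ ≤ ∫ w, rf ρ f V w * N ∂ρ :=
          integral_mono h5 (h3.1.mul_const _) fun w =>
            mul_le_mul_of_nonneg_left (ih v' (cls_fx h w)).2 (rf_nonneg hW h w)
        rw [integral_mul_const, h3.2, one_mul] at h6
        have h7 : pif ρ f x V p ^ 2 ≤ 1 := by nlinarith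
        push_cast
        linarith
    · constructor
      · exact le_rfl
      · positivity

lemma Nt0 (hW : W0 f x) {V : (Fin N → ℝ) → ℝ} {p : Fin N → (Fin N → ℝ) → ℝ}
    (h : Cls β V p) : 0 ≤ Nt ρ f x N V p := (Nt01 hW N h).1

lemma Nt1 (hW : W0 f x) {V : (Fin N → ℝ) → ℝ} {p : Fin N → (Fin N → ℝ) → ℝ}
    (h : Cls β V p) : Nt ρ f x N V p ≤ N := (Nt01 hW N h).2

lemma Ns0 (hW : W0 f x) {V : (Fin N → ℝ) → ℝ} {p : Fin N → (Fin N → ℝ) → ℝ}
    (h : Cls β V p) (v : ℝ) : 0 ≤ Ns ρ f x N V p v := (Ns01 hW N v h).1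

lemma Ns1 (hW : W0 f x) {V : (Fin N → ℝ) → ℝ} {p : Fin N → (Fin N → ℝ) → ℝ}
    (h : Cls β V p) (v : ℝ) : Ns ρ f x N V p v ≤ N := (Ns01 hW N v h).2

end T0

end Pool.Agent.W_7d29a1_AM
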