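import Pool.Agent.W_7d29a1_AM.AmpC27
import Pool.Agent.W_7d29a1_AM.BaseT73

/-!
Leaf T5: small excesses over a level of positive probability (helper27).
-/

namespace Pool.Agent.W_7d29a1_AM

open MeasureTheory ProbabilityTheory Filter Topology Pool.Agent.W_MP_7d29a1_pr
  Pool.Agent.W_7d29a1_h46 Pool.Agent.W_7d29a1_h46u

namespace T27

variable {ρ : Measure ℝ} [IsProbabilityMeasure ρ] {β : ℝ} {N : ℕ} {V : (Fin N → ℝ) → ℝ}
  {p : Fin N → (Fin N → ℝ) → ℝ}

lemma te (t : ℝ) : t * Real.exp (-t) ≤ 1 / 2 := by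
  rcases le_total t 0 with h | h
  · have h2 := mul_nonpos_of_nonpos_of_nonneg h (Real.exp_pos (-t)).le
    linarith
  · have h1 := Real.quadratic_le_exp_of_nonneg h
    rw [Real.exp_neg, ← div_eq_mul_inv, div_le_iff₀ (Real.exp_pos t)]
    nlinarith [sq_nonneg (t - 1)]

lemma ptw (s v : ℝ) :
    s * fP 1 s v - Real.exp s / 2 ≤ min v s * fP 1 s v := by
  have h0 := (A27.fP0 (l := 1) s v).le
  rcases le_total s v with h | h
  · rw [min_eq_right h]
    linarith [Real.exp_pos s]
  · rw [min_eq_left h]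
    have h1 : fP 1 s v ≤ Real.exp v := by
      have := A27.fPv one_pos s v
      rwa [one_mul] at this
    have h2 : (s - v) * fP 1 s v ≤ Real.exp s / 2 := by
      calc (s - v) * fP 1 s v ≤ (s - v) * Real.exp v :=
            mul_le_mul_of_nonneg_left h1 (by linarith)
        _ = Real.exp s * ((s - v) * Real.exp (-(s - v))) := by
            rw [show Real.exp s * ((s - v) * Real.exp (-(s - v))) =
              (s - v) * (Real.exp s * Real.exp (-(s - v))) by ring, ← Real.exp_add]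
            congr 2
            ring
        _ ≤ Real.exp s * (1 / 2) := mul_le_mul_of_nonneg_left (te _) (Real.exp_pos s).le
        _ = Real.exp s / 2 := by ring
    linarith

lemma fs {s v : ℝ} : fP 1 s v ≤ Real.exp s := by
  have := A27.fPB (l := 1) one_pos s v
  rwa [one_mul] at this

lemma int_min {s : ℝ} (hs : 0 < s) (h : Cls β V p) :
    Integrable (fun z => min (V z) s * fP 1 s (V z)) (PN ρ N) := by
  refine T0.int_Ff (w0P 1 s (3 * s) one_pos) h (h.meas.min measurable_const)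
    (M := s * Real.exp s) fun z => ?_
  have h1 : 0 ≤ min (V z) s := le_min (h.nonneg z) hs.le
  have h0 := (A27.fP0 (l := 1) s (V z)).le
  rw [abs_of_nonneg (mul_nonneg h1 h0)]
  exact mul_le_mul (min_le_right _ _) fs h0 hs.le

/-- The mean of the truncation. -/
lemma ef_min {s : ℝ} (hs : 0 < s) (h : Cls β V p)
    (hg : 3 / 8 * Real.exp s ≤ gf ρ (fP 1 s) V) :
    s - 4 / 3 ≤ Ef ρ (fP 1 s) V (fun z => min (V z) s) := by
  have hg0 : 0 < gf ρ (fP 1 s) V := lt_of_lt_of_le (by positivity) hg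
  have hI : Integrable (fun z => fP 1 s (V z)) (PN ρ N) := T0.int_f (w0P 1 s (3 * s) one_pos) h
  have h1 : ∫ z, (s * fP 1 s (V z) - Real.exp s / 2) ∂PN ρ N ≤
      ∫ z, min (V z) s * fP 1 s (V z) ∂PN ρ N :=
    integral_mono ((hI.const_mul s).sub (integrable_const _)) (int_min hs h)
      fun z => ptw s (V z)
  rw [integral_sub (hI.const_mul s) (integrable_const _), integral_const_mul,
    integral_const, probReal_univ, one_smul] at h1
  unfold Ef
  rw [le_div_iff₀ hg0]
  have h2 : ∫ z, fP 1 s (V z) ∂PN ρ N = gf ρ (fP 1 s) V := rfl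
  rw [h2] at h1
  linarith

lemma chi16 {s v : ℝ} (hs : 3 ≤ s) (hv : v ≤ 2 * s) : 15 / 16 ≤ chi (3 * s) v := by
  unfold chi
  have h1 : Real.exp (v - 3 * s) ≤ Real.exp (-3) := Real.exp_le_exp.2 (by linarith)
  have h2 : Real.exp (-3) ≤ 1 / 16 := by
    rw [Real.exp_neg, ← one_div]
    exact one_div_le_one_div_of_le (by norm_num) (A27.e16 le_rfl)
  rw [le_div_iff₀ (by positivity)]
  linarith

/-- The mean of the gradient. -/
lemma ef_chi (hρ : EM ρ) (hβ : 0 < β) {s : ℝ} (hs : 8 ≤ s) (h : Cls β V p)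
    (hg : 3 / 8 * Real.exp s ≤ gf ρ (fP 1 s) V)
    (hP : (PN ρ N).real {z | 2 * s ≤ V z} ≤ 1 / 100) :
    3 * s / 4 ≤ Ef ρ (fP 1 s) V (fun z => chi (3 * s) (V z) * (V z - 0)) := by
  have hs0 : 0 < s := by linarith
  have hg0 : 0 < gf ρ (fP 1 s) V := lt_of_lt_of_le (by positivity) hg
  have hI : Integrable (fun z => fP 1 s (V z)) (PN ρ N) := T0.int_f (w0P 1 s (3 * s) one_pos) h
  have hS : MeasurableSet {z : Fin N → ℝ | 2 * s ≤ V z} :=
    measurableSet_le measurable_const h.meas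
  have hI2 : Integrable (fun z => {z : Fin N → ℝ | 2 * s ≤ V z}.indicator
      (fun _ => s * Real.exp s) z) (PN ρ N) := (integrable_const _).indicator hS
  have hV1 : Integrable V (PN ρ N) := (A27.mem2 hρ hβ h).integrable (by norm_num)
  have hI3 : Integrable (fun z => chi (3 * s) (V z) * (V z - 0) * fP 1 s (V z)) (PN ρ N) := by
    have hW := w0P 1 s (3 * s) one_pos
    refine (hV1.const_mul (Real.exp s)).mono' ?_ (Eventually.of_forall fun z => ?_)
    · exact ((((hW.measx.comp h.meas).mul (h.meas.sub measurable_const)).mul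
        (hW.measf.comp h.meas))).aestronglyMeasurable
    · have e1 := A27.chi0 (3 * s) (V z)
      have e2 := A27.chi1 (3 * s) (V z)
      have e3 := h.nonneg z
      have e4 := (A27.fP0 (l := 1) s (V z)).le
      rw [Real.norm_eq_abs, sub_zero, abs_of_nonneg (by positivity)]
      calc chi (3 * s) (V z) * V z * fP 1 s (V z) ≤ 1 * V z * Real.exp s :=
            mul_le_mul (mul_le_mul_of_nonneg_right e2 e3) fs e4 (by positivity)
        _ = _ := by ring
  have h6 : Integrable (fun z => s * fP 1 s (V z) - Real.exp s / 2) (PN ρ N) :=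
    (hI.const_mul s).sub (integrable_const _)
  have h1 : ∫ z, 15 / 16 * (s * fP 1 s (V z) - Real.exp s / 2 -
      {z : Fin N → ℝ | 2 * s ≤ V z}.indicator (fun _ => s * Real.exp s) z) ∂PN ρ N ≤
      ∫ z, chi (3 * s) (V z) * (V z - 0) * fP 1 s (V z) ∂PN ρ N := by
    refine integral_mono ((h6.sub hI2).const_mul _) hI3 fun z => ?_
    simp only
    have e1 := A27.chi0 (3 * s) (V z)
    have e3 := h.nonneg z
    have e4 := (A27.fP0 (l := 1) s (V z)).le
    have e5 : fP 1 s (V z) ≤ Real.exp s := fs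
    have e6 := Real.exp_pos s
    rw [sub_zero]
    by_cases hz : 2 * s ≤ V z
    · rw [Set.indicator_of_mem (by exact hz)]
      have e7 : 0 ≤ chi (3 * s) (V z) * V z * fP 1 s (V z) := by positivity
      have e8 := mul_le_mul_of_nonneg_left e5 hs0.le
      linarith
    · rw [Set.indicator_of_notMem (by exact hz), sub_zero]
      push Not at hz
      have e7 := chi16 (s := s) (v := V z) (by linarith) hz.le
      have e8 := ptw s (V z)
      have e9 : min (V z) s * fP 1 s (V z) ≤ V z * fP 1 s (V z) :=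
        mul_le_mul_of_nonneg_right (min_le_left _ _) e4
      have e10 : 15 / 16 * (V z * fP 1 s (V z)) ≤ chi (3 * s) (V z) * (V z * fP 1 s (V z)) :=
        mul_le_mul_of_nonneg_right e7 (mul_nonneg e3 e4)
      rw [mul_assoc]
      linarith
  rw [integral_const_mul, integral_sub h6 hI2, integral_sub (hI.const_mul s)
    (integrable_const _), integral_const_mul, integral_const, probReal_univ, one_smul,
    integral_indicator_const _ hS, smul_eq_mul] at h1
  have h2 : ∫ z, fP 1 s (V z) ∂PN ρ N = gf ρ (fP 1 s) V := rfl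
  rw [h2] at h1
  unfold Ef
  rw [le_div_iff₀ hg0]
  refine le_trans ?_ h1
  set g := gf ρ (fP 1 s) V with hgd
  have h3 : (PN ρ N).real {z | 2 * s ≤ V z} * (s * Real.exp s) ≤ 1 / 100 * (s * Real.exp s) :=
    mul_le_mul_of_nonneg_right hP (by positivity)
  have h4 : s * (3 / 8 * Real.exp s) ≤ s * g := mul_le_mul_of_nonneg_left hg hs0.le
  have h5 : 8 * g ≤ s * g := mul_le_mul_of_nonneg_right hs hg0.le
  linarith

/-- The contradiction, with free numbers. -/
theorem coreT (hρ : EM ρ) (hβ : 0 < β) (hW : WtP) {CD cK cG CG : ℝ} (hCD : 0 < CD)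
    (hcK : 0 < cK) (hcG : 0 < cG) (hCG : 0 < CG) {A K J Θ P L s y q : ℝ} (hA : 1 ≤ A)
    (hK : K = 32 * CD / cK) (hJ : J = 2 * (CD * K + 4)) (hΘ : Θ = 3 * J / cG)
    (hPd : P = 1 / (50 * A * Real.exp (CG * (2 * A * Θ ^ 2)))) (hL : 1 ≤ L)
    (hs8 : 8 ≤ s) (hLs : 16 * L ≤ s) (hΘs : Θ * L ≤ s) (hy : 4 / 3 ≤ y) (hys : y ≤ s)
    (hyL : y ^ 2 * L ≤ A * s ^ 2) (hq : 0 < q) (hqL : Real.exp (-L) ≤ q)
    (h : Cls β V p) (h1 : q ≤ (PN ρ N).real {z | V z ≤ Real.log 2})
    (h2 : 3 / 4 ≤ (PN ρ N).real {z | s ≤ V z})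
    (h3 : ∫ z, (max (V z - s) 0) ^ 2 ∂PN ρ N ≤ A * y ^ 2)
    (h4 : (PN ρ N).real {z | s + y ≤ V z} ≤ P ^ 4)
    (HD : ∀ l' η u : ℝ, 0 < l' → l' ≤ 1 → 0 < η → 1 < u →
      Ef ρ (fP 1 s) V (fun z => chi (3 * s) (V z) * (V z - 0)) -
          CD * η * Ns ρ (fP 1 s) (chi (3 * s)) N V p u -
          (3 * s + 1) / (u - 1) * (Ns ρ (fP 1 s) (chi (3 * s)) N V p u + u - u) ≤
        Ef ρ (fM l') V V + CD / η * (1 ^ 2 * Nt ρ (fP 1 s) (chi s) N V p +
          l' ^ 2 * Nt ρ (fM l') (fun _ => 1) N V p))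
    (HK : ∀ (l σ : ℝ) (f x : ℝ → ℝ), 0 < l → l ≤ 1 → (σ = 1 ∨ σ = -1) → Wt l σ f x →
      cK * l ^ 2 * Nt ρ f x N V p ≤ Ef ρ f V (fun z => Real.log (f (V z))) - Real.log (gf ρ f V))
    (HG : ∀ θ x₀ v : ℝ, 0 ≤ θ → θ ≤ 1 → 0 ≤ x₀ → 0 ≤ v →
      Ef ρ (fP 1 s) V (fun z => min (V z) s) +
        cG * θ * Ns ρ (fP 1 s) (chi (3 * s)) N V p v ≤
        x₀ + Real.exp (1 * s) / gf ρ (fP 1 s) V * Real.exp (CG * θ ^ 2 * v) *
          (∫ z, (max (V z - x₀) 0) ^ (4 / 3 : ℝ) ∂PN ρ N) ^ (3 / 4 : ℝ)) : False := by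
  have hs : 0 < s := by linarith
  have hLp : 0 < L := by linarith
  have hK0 : 0 < K := by
    rw [hK]
    positivity
  have hJ0 : 0 < J := by
    rw [hJ]
    positivity
  have hΘ0 : 0 < Θ := by
    rw [hΘ]
    positivity
  have hy0 : 0 < y := by linarith
  have hA0 : 0 < A := by linarith
  have hP0 : 0 < P := by
    rw [hPd]
    positivity
  -- the normalisation

  obtain ⟨hWp, -⟩ := hW 1 s one_pos le_rfl hs.le
  have hg : 3 / 8 * Real.exp s ≤ gf ρ (fP 1 s) V := by
    have := A27.gp_lo (l := 1) one_pos le_rfl hWp h le_rfl h2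
    rw [one_mul] at this
    linarith
  have hg0 : 0 < gf ρ (fP 1 s) V := lt_of_lt_of_le (by positivity) hg
  have hE : 1 ≤ Real.exp (CG * (2 * A * Θ ^ 2)) := Real.one_le_exp (by positivity)
  have hP50 : P ≤ 1 / 50 := by
    rw [hPd]
    refine one_div_le_one_div_of_le (by norm_num) ?_
    have : 1 ≤ A * Real.exp (CG * (2 * A * Θ ^ 2)) := one_le_mul_of_one_le_of_one_le hA hE
    linarith
  have hP4 : P ^ 4 ≤ 1 / 100 := by
    have e1 : P ^ 4 ≤ (1 / 50) ^ 4 := pow_le_pow_left₀ hP0.le hP50 4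
    have e2 : ((1 : ℝ) / 50) ^ 4 ≤ 1 / 100 := by norm_num
    linarith
  have h5 : (PN ρ N).real {z | 2 * s ≤ V z} ≤ 1 / 100 := by
    refine le_trans (measureReal_mono ?_) (h4.trans hP4)
    intro z hz
    have hz' : 2 * s ≤ V z := hz
    change s + y ≤ V z
    linarith
  have x1 := ef_min hs h hg
  have x2 := ef_chi hρ hβ hs8 h hg h5
  -- the lower tilt

  set l' := 16 * L / s with hl'
  have hl0 : 0 < l' := by positivity
  have hl1 : l' ≤ 1 := by
    rw [hl', div_le_one hs]
    exact hLs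
  obtain ⟨-, hWm⟩ := hW l' 0 hl0 hl1 le_rfl
  have hgm1 : q * (1 / 2) ≤ gf ρ (fM l') V := A27.gm_lo (l := l') hl1 hWm h h1
  have hgm0 : 0 < gf ρ (fM l') V := gf_pos hWm h
  have k1 := HK l' (-1) (fM l') (fun _ => 1) hl0 hl1 (Or.inr rfl) hWm
  have k2 : -(2 * L) ≤ Real.log (gf ρ (fM l') V) := by
    rw [Real.le_log_iff_exp_le hgm0]
    refine le_trans ?_ hgm1
    have e4 : Real.exp (-(2 * L)) = Real.exp (-L) * Real.exp (-L) := by
      rw [← Real.exp_add]
      congr 1
      ring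
    rw [e4]
    refine mul_le_mul hqL ?_ (Real.exp_pos _).le hq.le
    have e5 : Real.exp (-L) ≤ Real.exp (-1) := Real.exp_le_exp.2 (by linarith)
    have e6 := Real.exp_one_gt_d9
    have e7 : Real.exp (-1) ≤ 1 / 2 := by
      rw [Real.exp_neg, ← one_div]
      exact one_div_le_one_div_of_le (by norm_num) (by linarith)
    linarith
  have k3 : Ef ρ (fM l') V (fun z => Real.log (fM l' (V z))) = -(l' * Ef ρ (fM l') V V) := by
    unfold Ef
    rw [← neg_mul, mul_div_assoc', ← integral_const_mul]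
    congr 2
    funext z
    unfold fM
    simp only [Real.log_exp]
    ring
  have k4 : 0 ≤ Nt ρ (fM l') (fun _ => 1) N V p := Nt0 hWm h
  have k5 : 0 ≤ Ef ρ (fM l') V V := div_nonneg (integral_nonneg fun z =>
    mul_nonneg (h.nonneg z) (A27.fM0 _).le) hgm0.le
  rw [k3] at k1
  have k6 : cK * l' ^ 2 * Nt ρ (fM l') (fun _ => 1) N V p ≤ 2 * L := by
    have := mul_nonneg hl0.le k5
    linarith
  have x3 : Ef ρ (fM l') V V ≤ s / 8 := by
    have e1 : l' * Ef ρ (fM l') V V ≤ 2 * L := by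
      have : 0 ≤ cK * l' ^ 2 * Nt ρ (fM l') (fun _ => 1) N V p := by positivity
      linarith
    have e2 : l' * (s / 8) = 2 * L := by
      rw [hl']
      field_simp
      norm_num
    rw [← e2] at e1
    exact le_of_mul_le_mul_left e1 hl0
  -- the entropy of the upper tilt

  have k7 := HK 1 1 (fP 1 s) (chi s) one_pos le_rfl (Or.inl rfl) hWp
  have k8 : Ef ρ (fP 1 s) V (fun z => Real.log (fP 1 s (V z))) ≤ s :=
    A27.ent_le hWp h hs.le fun v hv => by
      unfold fP
      rw [Real.log_exp, one_mul]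
      exact A27.uB s v
  have k9 : s - 1 ≤ Real.log (gf ρ (fP 1 s) V) := by
    rw [Real.le_log_iff_exp_le hg0]
    refine le_trans ?_ hg
    have e6 := Real.exp_one_gt_d9
    rw [Real.exp_sub, div_le_iff₀ (Real.exp_pos 1)]
    have e7 : Real.exp s * 1 ≤ Real.exp s * (3 / 8 * Real.exp 1) :=
      mul_le_mul_of_nonneg_left (by linarith) (Real.exp_pos s).le
    linarith
  have k10 : cK * Nt ρ (fP 1 s) (chi s) N V p ≤ 1 := by
    rw [one_pow, mul_one] at k7
    linarith
  -- the sum of squares is large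

  set u := 1 + s ^ 2 / L with hu
  have hu1 : 0 < s ^ 2 / L := by positivity
  have hη : 0 < K * L / s := by positivity
  have m1 := HD l' (K * L / s) u hl0 hl1 hη (by linarith)
  set n := Ns ρ (fP 1 s) (chi (3 * s)) N V p u with hn
  have hn0 : 0 ≤ n := T0.Ns0 (w0P 1 s (3 * s) one_pos) h u
  have m2 : CD / (K * L / s) * (1 ^ 2 * Nt ρ (fP 1 s) (chi s) N V p +
      l' ^ 2 * Nt ρ (fM l') (fun _ => 1) N V p) ≤ 3 * s / 32 := by
    have e1 : cK * (1 ^ 2 * Nt ρ (fP 1 s) (chi s) N V p +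
        l' ^ 2 * Nt ρ (fM l') (fun _ => 1) N V p) ≤ 3 * L := by
      have : cK * (l' ^ 2 * Nt ρ (fM l') (fun _ => 1) N V p) ≤ 2 * L := by
        rw [← mul_assoc]
        exact k6
      linarith
    set X := 1 ^ 2 * Nt ρ (fP 1 s) (chi s) N V p +
      l' ^ 2 * Nt ρ (fM l') (fun _ => 1) N V p with hX
    have e2 : CD / (K * L / s) = s * cK / (32 * L) := by
      rw [hK]
      field_simp
    rw [e2]
    have e3 := mul_le_mul_of_nonneg_left e1 (by positivity : 0 ≤ s / (32 * L))
    calc s * cK / (32 * L) * X = s / (32 * L) * (cK * X) := by ring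
      _ ≤ s / (32 * L) * (3 * L) := e3
      _ = 3 * s / 32 := by
          field_simp
  have m3 : (3 * s + 1) / (u - 1) ≤ 4 * L / s := by
    have e1 : u - 1 = s ^ 2 / L := by
      rw [hu]
      ring
    rw [e1, div_div_eq_mul_div, div_le_div_iff₀ (by positivity) hs]
    have e2 : (3 * s + 1) * L * s ≤ (4 * s) * L * s := by
      have : 0 ≤ L * s := by positivity
      have e3 := mul_le_mul_of_nonneg_right (by linarith : 3 * s + 1 ≤ 4 * s) this
      linarith
    linarith
  have m4 : s / 2 ≤ (CD * K + 4) * (L / s) * n := by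
    rw [add_sub_cancel_right] at m1
    have e1 := mul_le_mul_of_nonneg_right m3 hn0
    have e2 : (CD * K + 4) * (L / s) * n = CD * (K * L / s) * n + 4 * L / s * n := by ring
    rw [e2]
    linarith
  have m5 : s ^ 2 / L ≤ J * n := by
    have e1 := mul_le_mul_of_nonneg_left m4 (by positivity : 0 ≤ 2 * (s / L))
    have e2 : 2 * (s / L) * (s / 2) = s ^ 2 / L := by ring
    have e3 : 2 * (s / L) * ((CD * K + 4) * (L / s) * n) = J * n := by
      rw [hJ]
      field_simp
    rwa [e2, e3] at e1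
  -- the upgrade

  have t1 := HG (Θ * (y * L / s ^ 2)) (s + y) u (by positivity) (by
    have e1 : y * L / s ^ 2 ≤ L / s := by
      rw [div_le_div_iff₀ (by positivity) hs]
      have : y * (L * s) ≤ s * (L * s) := mul_le_mul_of_nonneg_right hys (by positivity)
      linarith
    calc Θ * (y * L / s ^ 2) ≤ Θ * (L / s) := mul_le_mul_of_nonneg_left e1 hΘ0.le
      _ = Θ * L / s := by ring
      _ ≤ 1 := by
        rw [div_le_one hs]
        exact hΘs) (by linarith) (by linarith)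
  have t2 : 3 * y ≤ cG * (Θ * (y * L / s ^ 2)) * n := by
    have e1 := mul_le_mul_of_nonneg_left m5 (by positivity : 0 ≤ 3 * (y * L / s ^ 2))
    have e2 : 3 * (y * L / s ^ 2) * (s ^ 2 / L) = 3 * y := by
      field_simp
    have e3 : cG * (Θ * (y * L / s ^ 2)) * n = 3 * (y * L / s ^ 2) * (J * n) := by
      rw [hΘ]
      field_simp
    rw [e3]
    linarith
  have t3 : CG * (Θ * (y * L / s ^ 2)) ^ 2 * u ≤ CG * (2 * A * Θ ^ 2) := by
    have e1 : y ^ 2 * L / s ^ 2 ≤ A := by
      rw [div_le_iff₀ (by positivity)]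
      exact hyL
    have e2 : L / s ^ 2 ≤ 1 := by
      rw [div_le_one (by positivity)]
      nlinarith
    have e3 : (y * L / s ^ 2) ^ 2 * u = y ^ 2 * L / s ^ 2 * (L / s ^ 2 + 1) := by
      rw [hu]
      field_simp
    have e4 : y ^ 2 * L / s ^ 2 * (L / s ^ 2 + 1) ≤ A * 2 :=
      mul_le_mul e1 (by linarith) (by positivity) (by positivity)
    have e5 : CG * (Θ * (y * L / s ^ 2)) ^ 2 * u = CG * Θ ^ 2 * ((y * L / s ^ 2) ^ 2 * u) := by
      ring
    rw [e5, e3]
    have e6 := mul_le_mul_of_nonneg_left e4 (by positivity : 0 ≤ CG * Θ ^ 2)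
    linarith
  have t4 : Real.exp (1 * s) / gf ρ (fP 1 s) V ≤ 8 / 3 := by
    rw [one_mul, div_le_iff₀ hg0]
    linarith
  have t5 : (∫ z, (max (V z - (s + y)) 0) ^ (4 / 3 : ℝ) ∂PN ρ N) ^ (3 / 4 : ℝ) ≤
      8 * (A * y) * P := by
    have e1 : ∀ z, max (V z - (s + y)) 0 = max (max (V z - s) 0 - y) 0 := by
      intro z
      rcases le_total (V z - s) 0 with hz | hz
      · rw [max_eq_right hz, max_eq_right (by linarith), max_eq_right (by linarith)]
      · rw [max_eq_left hz]
        congr 1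
        ring
    simp only [e1]
    have hmV := A27.mem2 hρ hβ h
    have hm2 : MemLp (fun z => max (V z - s) 0) 2 (PN ρ N) := by
      refine hmV.mono ((h.meas.sub measurable_const).max measurable_const).aestronglyMeasurable
        (Eventually.of_forall fun z => ?_)
      rw [Real.norm_eq_abs, Real.norm_eq_abs, abs_of_nonneg (le_max_right _ _),
        abs_of_nonneg (h.nonneg z)]
      exact max_le (by linarith) (h.nonneg z)
    refine A27.hol ((h.meas.sub measurable_const).max measurable_const) hm2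
      (fun z => le_max_right _ _) hy0.le (by positivity) hP0 (h3.trans ?_)
      (le_trans (measureReal_mono ?_) h4)
    · have e2 : A * 1 ≤ A * A := mul_le_mul_of_nonneg_left hA hA0.le
      have e3 := mul_le_mul_of_nonneg_right e2 (sq_nonneg y)
      linarith
    · intro z hz
      have hz' : y ≤ max (V z - s) 0 := hz
      change s + y ≤ V z
      rcases le_max_iff.1 hz' with e2 | e2 <;> linarith
  have t6 : Real.exp (1 * s) / gf ρ (fP 1 s) V *
      Real.exp (CG * (Θ * (y * L / s ^ 2)) ^ 2 * u) *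
      (∫ z, (max (V z - (s + y)) 0) ^ (4 / 3 : ℝ) ∂PN ρ N) ^ (3 / 4 : ℝ) ≤ y / 2 := by
    have e0 : 0 ≤ (∫ z, (max (V z - (s + y)) 0) ^ (4 / 3 : ℝ) ∂PN ρ N) ^ (3 / 4 : ℝ) :=
      Real.rpow_nonneg (integral_nonneg fun z => Real.rpow_nonneg (le_max_right _ _) _) _
    calc _ ≤ 8 / 3 * Real.exp (CG * (2 * A * Θ ^ 2)) * (8 * (A * y) * P) :=
          mul_le_mul (mul_le_mul t4 (Real.exp_le_exp.2 t3) (Real.exp_pos _).le (by norm_num))
            t5 e0 (by positivity)
      _ = 32 / 75 * y := by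
          rw [hPd]
          field_simp
          norm_num
      _ ≤ y / 2 := by linarith
  linarith

end T27

/-- T5: small excesses over a level of positive probability. -/
theorem ampT27 {ρ : Measure ℝ} [IsProbabilityMeasure ρ] {β : ℝ} (hρ : EM ρ) (hβ : 0 < β)
    (hW : WtP) (hK : LemK ρ β) (hD : LemDT ρ β) (hG : LemGT ρ β) : AmpT ρ β := by
  obtain ⟨CD, hCD, HD⟩ := hD
  obtain ⟨cK, hcK, HK⟩ := hK
  obtain ⟨cG, CG, hcG, hCG, HG⟩ := hG
  intro A hA
  set K := 32 * CD / cK with hKd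
  set J := 2 * (CD * K + 4) with hJd
  set Θ := 3 * J / cG with hΘd
  set P := 1 / (50 * A * Real.exp (CG * (2 * A * Θ ^ 2))) with hPd
  have hK0 : 0 < K := by positivity
  have hJ0 : 0 < J := by positivity
  have hΘ0 : 0 < Θ := by positivity
  have hP0 : 0 < P := by positivity
  refine ⟨16 + Θ, P ^ 4, by linarith, by positivity, ?_⟩
  intro N V p h q s y hq hq2 hs hy hys hyL h1 h2 h3
  by_contra hcon
  push Not at hcon
  set t := Real.log (1 / q) with ht
  have ht0 : 0 ≤ t := Real.log_nonneg (by rw [le_div_iff₀ hq]; linarith)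
  have hqt : q = Real.exp (-t) := by
    rw [ht, one_div, Real.log_inv, neg_neg, Real.exp_log hq]
  have m1 : 16 * (1 + t) ≤ (16 + Θ) * (1 + t) :=
    mul_le_mul_of_nonneg_right (by linarith) (by linarith)
  have m2 : Θ * (1 + t) ≤ (16 + Θ) * (1 + t) :=
    mul_le_mul_of_nonneg_right (by linarith) (by linarith)
  have m3 : 16 ≤ s := by linarith
  have hy0 : 0 ≤ y := by linarith
  refine T27.coreT (V := V) (p := p) hρ hβ hW hCD hcK hcG hCG hA hKd hJd hΘd hPd
    (by linarith : 1 ≤ 1 + t) (by linarith) (m1.trans hs) (m2.trans hs) (by linarith) hys hyL hq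
    ?_ h h1 h2 h3 hcon.le ?_ ?_ ?_
  · rw [hqt]
    exact Real.exp_le_exp.2 (by linarith)
  · intro l' η u hl hl1 hη hu
    exact HD 1 s (3 * s) l' η one_pos le_rfl (by linarith) (by linarith) hl hl1 hη N V V p p
      (fun _ => 0) u u h h measurable_const (fun _ => le_rfl) ⟨0, fun _ => le_rfl⟩
      (fun y y₁ => by
        rw [sub_zero]
        exact h.conv y₁ y) hu (by linarith) le_rfl
  · intro l σ f x hl hl1 hσ hf
    exact HK l σ f x hl hl1 hσ hf N V p h
  · intro θ x₀ v hθ hθ1 hx hv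
    exact HG 1 s (3 * s) one_pos le_rfl (by linarith) (by linarith) N V p V
      (fun z => min (V z) s) θ x₀ v h h.meas h.nonneg
      ⟨V 0 + β, fun z => by
        have e2 := A27.vle hβ h z
        have e3 := h.nonneg 0
        have e4 : 0 ≤ ∑ i, |z i| := Finset.sum_nonneg fun i _ => abs_nonneg _
        have e5 := mul_nonneg e3 e4
        linarith⟩ (h.meas.min measurable_const) (fun z => le_min (h.nonneg z) (by linarith))
      ⟨s, fun z => min_le_right _ _⟩
      (fun y y₂ _ => by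
        have e2 := h.conv y y₂
        have e3 := min_le_left (V y) s
        linarith) hθ hθ1 hx hv

end Pool.Agent.W_7d29a1_AM
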