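import Pool.Agent.W_7d29a1_AM.AmpH94
import Pool.Agent.W_7d29a1_AM.AmpU5

/-!
Amplification of the upper deviations of the free energy for every law, with the `7 / 5` moment of
the upper part in place of the variance.
-/

set_option autoImplicit false

namespace Pool.Agent.W_7d29a1_AM

open MeasureTheory ProbabilityTheory Filter Topology Set Pool.Agent.W_MP_7d29a1_pr
  Pool.Agent.W_7d29a1_h46 Pool.Agent.W_7d29a1_h46u Pool.Agent.W_7d29a1_D2.B35
  Pool.Agent.W_7d29a1_Q29 Pool.Agent.W_7d29a1_R34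

/-- Amplification of the upper deviations, every law, no variance: the `7 / 5` moment of the part
of the free energy above `s₀`. -/
def AmpX (ρ : Measure ℝ) (β : ℝ) (d : ℕ) : Prop := ∀ t : ℝ, 1 ≤ t → ∃ C : ℝ, 1 ≤ C ∧
  ∀ (h : Vec d) (m : ℕ) (s₀ s₁ q : ℝ), 0 < q → q ≤ 1 / 2 →
    C * (1 + Real.log (1 / q)) ≤ s₁ - s₀ →
    ∫ η, (max (X β h η m - s₀) 0) ^ (7 / 5 : ℝ) ∂(law d ρ) ≤ ((s₁ - s₀) / q) ^ (7 / 5 : ℝ) →
    q ≤ (law d ρ).real {η | X β h η m ≤ s₀} → q ≤ (law d ρ).real {η | s₁ < X β h η m} →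
      q ^ C ≤ (law d ρ).real {η | s₁ + t * (s₁ - s₀) < X β h η m}

open U5 in
/-- The amplification `AmpX`. -/
theorem ampX94 {d : ℕ} (hd : 0 < d) {ρ : Measure ℝ} [IsProbabilityMeasure ρ] (hρ : EM ρ) {β : ℝ}
    (hβ : 0 < β) (h0 : WtP) (hD' : LemD ρ β) (hK' : LemK ρ β) (hG' : LemG ρ β) :
    AmpX ρ β d := by
  intro t ht
  obtain ⟨C, hC1, hC⟩ := ampC7_94 hρ hβ h0 hD' hK' hG' (t + 3) (by linarith)
  refine ⟨3 * C, by linarith, fun h m s₀ s₁ q hq hq2 hs hmo h0 h1 => ?_⟩
  set s := s₁ - s₀ with hs'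
  have hlq : 0 ≤ Real.log (1 / q) := Real.log_nonneg (by rw [le_div_iff₀ hq]; linarith)
  have hs3 : 3 ≤ s := by nlinarith
  have hc : ∀ k, 0 ≤ cw h m k := fun k => (Real.exp_pos _).le
  have mX := measurable_X (d := d) β h m
  have mV := (cls5 hβ.le hc At s₀).meas
  have hV := V_pr hd β h m s₀
  have hlaw : ∀ T : Set ℝ, MeasurableSet T → (PN ρ (Nn d m)).real {y | C5.V β (cw h m) At s₀ y ∈ T} =
      (law d ρ).real {η | Real.log (1 + Real.exp (X β h η m - s₀)) ∈ T} := fun T hT => by
    have mS : MeasurableSet {y | C5.V β (cw h m) At s₀ y ∈ T} := mV hT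
    rw [← law_pr, map_measureReal_apply (meas_pr m) mS]
    congr 1
    ext η
    show C5.V β (cw h m) At s₀ (pr d m η) ∈ T ↔ Real.log (1 + Real.exp (X β h η m - s₀)) ∈ T
    rw [hV]
  have e0 := hlaw (Iic (Real.log 2)) measurableSet_Iic
  have e1 := hlaw (Ici s) measurableSet_Ici
  have e2 := hlaw (Ici ((t + 3) * s)) measurableSet_Ici
  simp only [mem_Iic, mem_Ici] at e0 e1 e2
  have hlog4 : Real.log 4 ≤ 2 := by
    have h2 := Real.log_two_lt_d9
    have h3 : Real.log 4 = 2 * Real.log 2 := by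
      rw [show (4 : ℝ) = 2 ^ 2 by norm_num, Real.log_pow]
      norm_num
    linarith
  have key := hC (Nn d m) (C5.V β (cw h m) At s₀) (C5.P β (cw h m) At s₀) (cls5 hβ.le hc At s₀)
    (q / 4) s (by positivity) (by linarith) ?_ ?_ ?_ ?_
  · have h2 : (q / 4) ^ C ≤ (law d ρ).real {η | s₁ + t * s < X β h η m} := by
      refine key.trans ?_
      rw [e2]
      refine measureReal_mono fun η (hη : (t + 3) * s ≤ Real.log (1 + Real.exp (X β h η m - s₀))) => ?_
      show s₁ + t * s < X β h η m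
      have h3 := log_le (X β h η m - s₀)
      have h4 := Real.log_two_lt_d9
      have h5 : (t + 3) * s - 1 < max (X β h η m - s₀) 0 := by linarith
      rcases le_total (X β h η m - s₀) 0 with h6 | h6
      · rw [max_eq_right h6] at h5
        nlinarith
      · rw [max_eq_left h6] at h5
        nlinarith
    refine le_trans ?_ h2
    have h3 : q ^ (3 : ℝ) ≤ q / 4 := by
      rw [show (3 : ℝ) = ((3 : ℕ) : ℝ) by norm_num, Real.rpow_natCast]
      have h4 : q ^ 2 ≤ 1 / 4 := by nlinarith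
      nlinarith
    calc q ^ (3 * C) = (q ^ (3 : ℝ)) ^ C := by rw [← Real.rpow_mul hq.le]
      _ ≤ (q / 4) ^ C := Real.rpow_le_rpow (by positivity) h3 (by linarith)
  · have h2 : Real.log (1 / (q / 4)) = Real.log 4 + Real.log (1 / q) := by
      rw [show 1 / (q / 4) = 4 * (1 / q) by field_simp, Real.log_mul (by norm_num) (by positivity)]
    rw [h2]
    nlinarith
  · rw [e0]
    refine (by linarith : q / 4 ≤ q).trans (h0.trans ?_)
    refine measureReal_mono fun η (hη : X β h η m ≤ s₀) => ?_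
    show Real.log (1 + Real.exp (X β h η m - s₀)) ≤ Real.log 2
    apply Real.log_le_log (by positivity)
    have : Real.exp (X β h η m - s₀) ≤ 1 := Real.exp_le_one_iff.2 (by linarith)
    linarith
  · rw [e1]
    refine (by linarith : q / 4 ≤ q).trans (h1.trans ?_)
    refine measureReal_mono fun η (hη : s₁ < X β h η m) => ?_
    show s ≤ Real.log (1 + Real.exp (X β h η m - s₀))
    rw [Real.le_log_iff_exp_le (by positivity)]
    have : Real.exp s ≤ Real.exp (X β h η m - s₀) := Real.exp_le_exp.2 (by rw [hs']; linarith)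
    linarith
  · have h2 : ∫ y, C5.V β (cw h m) At s₀ y ^ (7 / 5 : ℝ) ∂PN ρ (Nn d m) =
        ∫ η, Real.log (1 + Real.exp (X β h η m - s₀)) ^ (7 / 5 : ℝ) ∂(law d ρ) := by
      rw [← law_pr, integral_map (meas_pr m).aemeasurable
        ((mV.pow_const _).aestronglyMeasurable)]
      simp only [hV]
    rw [h2]
    -- the moment
    have hI := integrable_cen13 hd hρ β h m
    have hu : ∀ η : Env d, max (X β h η m - s₀) 0 ≤
        |X β h η m - A ρ β h m| + |A ρ β h m - s₀| := fun η => by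
      refine max_le ?_ (add_nonneg (abs_nonneg _) (abs_nonneg _))
      have h3 := le_abs_self (X β h η m - A ρ β h m)
      have h4 := le_abs_self (A ρ β h m - s₀)
      linarith
    have hx0 : ∀ η : Env d, 0 ≤ max (X β h η m - s₀) 0 := fun η => le_max_right _ _
    have hxm : Measurable fun η : Env d => max (X β h η m - s₀) 0 :=
      (mX.sub_const _).max measurable_const
    have hxi : Integrable (fun η : Env d => (max (X β h η m - s₀) 0) ^ (7 / 5 : ℝ)) (law d ρ) := by
      refine ((integrable_const (1 + 2 * |A ρ β h m - s₀| ^ 2)).add (hI.const_mul 2)).mono'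
        (hxm.pow_const _).aestronglyMeasurable (Eventually.of_forall fun η => ?_)
      rw [Real.norm_eq_abs, abs_of_nonneg (Real.rpow_nonneg (hx0 η) _)]
      refine (rpow75_le94 (hx0 η)).trans ?_
      have h3 := pow_le_pow_left₀ (hx0 η) (hu η) 2
      have h4 := sq_abs (X β h η m - A ρ β h m)
      simp only [Pi.add_apply]
      nlinarith [sq_nonneg (|X β h η m - A ρ β h m| - |A ρ β h m - s₀|)]
    have h2p : (0 : ℝ) < 2 ^ (7 / 5 : ℝ) := by positivity
    have hV7 : ∀ η : Env d, Real.log (1 + Real.exp (X β h η m - s₀)) ^ (7 / 5 : ℝ) ≤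
        2 ^ (7 / 5 : ℝ) * (1 + (max (X β h η m - s₀) 0) ^ (7 / 5 : ℝ)) := fun η => by
      have h3 := log_le (X β h η m - s₀)
      have h4 : 0 ≤ Real.log (1 + Real.exp (X β h η m - s₀)) :=
        Real.log_nonneg (by have := Real.exp_pos (X β h η m - s₀); linarith)
      have h5 : Real.log (1 + Real.exp (X β h η m - s₀)) ≤ 2 * max 1 (max (X β h η m - s₀) 0) := by
        have h6 := Real.log_two_lt_d9
        have h7 := le_max_left 1 (max (X β h η m - s₀) 0)
        have h8 := le_max_right 1 (max (X β h η m - s₀) 0)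
        linarith
      refine (Real.rpow_le_rpow h4 h5 (by norm_num)).trans ?_
      rw [Real.mul_rpow two_pos.le (le_max_of_le_left zero_le_one)]
      refine mul_le_mul_of_nonneg_left ?_ h2p.le
      have h9 := Real.rpow_nonneg (hx0 η) (7 / 5 : ℝ)
      rcases le_total 1 (max (X β h η m - s₀) 0) with h | h
      · rw [max_eq_right h]
        linarith
      · rw [max_eq_left h, Real.one_rpow]
        linarith
    have h3 : ∫ η, Real.log (1 + Real.exp (X β h η m - s₀)) ^ (7 / 5 : ℝ) ∂(law d ρ) ≤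
        ∫ η, 2 ^ (7 / 5 : ℝ) * (1 + (max (X β h η m - s₀) 0) ^ (7 / 5 : ℝ)) ∂(law d ρ) := by
      refine integral_mono_of_nonneg (Eventually.of_forall fun η => Real.rpow_nonneg
        (Real.log_nonneg (by have := Real.exp_pos (X β h η m - s₀); linarith)) _)
        (((integrable_const (1 : ℝ)).add hxi).const_mul _) (Eventually.of_forall hV7)
    rw [integral_const_mul, integral_add (integrable_const _) hxi, integral_const, probReal_univ,
      one_smul] at h3
    have h4 : (1 : ℝ) ≤ (s / q) ^ (7 / 5 : ℝ) := by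
      refine Real.one_le_rpow ?_ (by norm_num)
      rw [le_div_iff₀ hq]
      linarith
    have h5 : (s / (q / 4)) ^ (7 / 5 : ℝ) = 4 ^ (7 / 5 : ℝ) * (s / q) ^ (7 / 5 : ℝ) := by
      rw [← Real.mul_rpow (by norm_num) (by positivity)]
      congr 1
      field_simp
    have h6 : (4 : ℝ) ^ (7 / 5 : ℝ) = 2 ^ (7 / 5 : ℝ) * 2 ^ (7 / 5 : ℝ) := by
      rw [← Real.mul_rpow two_pos.le two_pos.le]
      norm_num
    have h7 : (2 : ℝ) ≤ 2 ^ (7 / 5 : ℝ) := by
      conv_lhs => rw [← Real.rpow_one 2]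
      exact Real.rpow_le_rpow_of_exponent_le (by norm_num) (by norm_num)
    rw [h5, h6]
    refine h3.trans ?_
    rw [mul_assoc]
    refine mul_le_mul_of_nonneg_left ?_ h2p.le
    have h8 := mul_le_mul_of_nonneg_right h7 (by linarith : (0 : ℝ) ≤ (s / q) ^ (7 / 5 : ℝ))
    linarith

end Pool.Agent.W_7d29a1_AM
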