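import Pool.Agent.W_7d29a1_AM.AmpX94
import Pool.Agent.W_7d29a1_AM.Wt64
import Pool.Agent.W_7d29a1_AM.SiteP86
import Pool.Agent.W_7d29a1_AM.Con73
import Pool.Agent.W_7d29a1_AM.Cou35
import Pool.Agent.W_7d29a1_AM.LemD73
import Pool.Agent.W_7d29a1_AM.LemK44
import Pool.Agent.W_7d29a1_AM.LemG66

/-!
Amplification of the upper deviations of the free energy for every law, `7 / 5` moment form,
without hypotheses.
-/

set_option autoImplicit false

namespace Pool.Agent.W_7d29a1_AM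

open MeasureTheory ProbabilityTheory Pool.Agent.W_MP_7d29a1_pr Pool.Agent.W_7d29a1_h46
  Pool.Agent.W_7d29a1_h46u

/-- **AMP for every law**, no variance: the `7 / 5` moment of the part above `s₀`. -/
theorem ampXAll94 {d : ℕ} (hd : 0 < d) {ρ : Measure ℝ} [IsProbabilityMeasure ρ] (hρ : EM ρ)
    (hnc : ∀ c : ℝ, ρ {c} ≠ 1) {β : ℝ} (hβ : 0 < β) : AmpX ρ β d := by
  have h1 : SiteP ρ β := siteP86 hβ
  have h2 : ConP ρ β := conP73 hρ hnc hβ
  have h3 : CouP ρ β := couP35 hρ hβ h2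
  exact ampX94 hd hρ hβ wt64 (lemD73 hβ wt64 h1 h3) (lemK44 h1 h2) (lemG66 hρ hβ wt64 h1 h2)

end Pool.Agent.W_7d29a1_AM
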