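import Pool.Agent.W_7d29a1_AM.DefsAM

/-!
Base of the amplification: peeling of the first coordinate, measurability and bounds (helper73).
-/

namespace Pool.Agent.W_7d29a1_AM

open MeasureTheory ProbabilityTheory Filter Topology

instance instPN (ρ : Measure ℝ) [IsProbabilityMeasure ρ] (N : ℕ) :
    IsProbabilityMeasure (PN ρ N) := by
  unfold PN; infer_instance

variable {ρ : Measure ℝ} [IsProbabilityMeasure ρ] {β l σ : ℝ} {f x : ℝ → ℝ} {N : ℕ}

lemma meas_consF : Measurable fun z : ℝ × (Fin N → ℝ) => (Fin.cons z.1 z.2 : Fin (N + 1) → ℝ) := by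
  refine measurable_pi_lambda _ fun i => ?_
  refine Fin.cases ?_ (fun j => ?_) i
  · exact measurable_fst
  · exact (measurable_pi_apply j).comp measurable_snd

lemma meas_cons2 {F : (Fin (N + 1) → ℝ) → ℝ} (hF : Measurable F) :
    Measurable fun z : ℝ × (Fin N → ℝ) => F (Fin.cons z.1 z.2) := hF.comp meas_consF

lemma meas_fx {F : (Fin (N + 1) → ℝ) → ℝ} (hF : Measurable F) (w : ℝ) : Measurable (fx F w) :=
  (meas_cons2 hF).comp measurable_prodMk_left

lemma cls_fx {V : (Fin (N + 1) → ℝ) → ℝ} {p : Fin (N + 1) → (Fin (N + 1) → ℝ) → ℝ}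
    (h : Cls β V p) (w : ℝ) : Cls β (fx V w) (fq p w) where
  meas := meas_fx h.meas w
  measp i := meas_fx (h.measp i.succ) w
  nonneg y := h.nonneg _
  p0 i y := h.p0 _ _
  p1 i y := h.p1 _ _
  conv y y' := by
    have h1 := h.conv (Fin.cons w y) (Fin.cons w y')
    rw [Fin.sum_univ_succ] at h1
    simpa [fx, fq] using h1
  rat i y y' hy := by
    have h1 := h.rat i.succ (Fin.cons w y) (Fin.cons w y') (by
      intro j
      refine Fin.cases ?_ (fun k => ?_) j
      · intro _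
        simp
      · intro hk
        have : k ≠ i := fun e => hk (by rw [e])
        simpa using hy k this)
    simpa [fx, fq] using h1

lemma mp_cons : MeasurePreserving (fun z : ℝ × (Fin N → ℝ) => (Fin.cons z.1 z.2 : Fin (N + 1) → ℝ))
    (ρ.prod (PN ρ N)) (PN ρ (N + 1)) := by
  have h1 := (measurePreserving_piFinSuccAbove (fun _ : Fin (N + 1) => ρ) 0).symm
  refine ⟨meas_consF, ?_⟩
  have h2 := h1.map_eq
  unfold PN
  rw [← h2]
  congr 1
  funext z
  ext i
  refine Fin.cases ?_ (fun j => ?_) i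
  · rfl
  · rfl

/-- Fubini. -/
lemma peel {F : (Fin (N + 1) → ℝ) → ℝ} (hF : Integrable F (PN ρ (N + 1))) :
    ∫ y, F y ∂PN ρ (N + 1) = ∫ w, ∫ y, fx F w y ∂PN ρ N ∂ρ := by
  have h1 := (mp_cons (ρ := ρ) (N := N))
  have h2 : Integrable (fun z : ℝ × (Fin N → ℝ) => F (Fin.cons z.1 z.2)) (ρ.prod (PN ρ N)) := by
    have := h1.integrable_comp_of_integrable hF
    exact this
  rw [← h1.map_eq] 
  rw [integral_map h1.measurable.aemeasurable (by rw [h1.map_eq]; exact hF.1), integral_prod _ h2]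
  rfl

lemma int_zero (F : (Fin 0 → ℝ) → ℝ) (y : Fin 0 → ℝ) : ∫ z, F z ∂PN ρ 0 = F y := by
  have : ∀ z : Fin 0 → ℝ, F z = F y := fun z => by rw [Subsingleton.elim z y]
  simp [this]

lemma abs_f (hW : Wt l σ f x) : ∃ C, ∀ v, 0 ≤ v → |f v| ≤ C := by
  obtain ⟨C, hC⟩ := hW.bdd
  exact ⟨C, fun v hv => by rw [abs_of_pos (hW.pos v)]; exact hC v hv⟩

lemma int_f (hW : Wt l σ f x) {V : (Fin N → ℝ) → ℝ} {p : Fin N → (Fin N → ℝ) → ℝ}
    (h : Cls β V p) : Integrable (fun y => f (V y)) (PN ρ N) := by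
  obtain ⟨C, hC⟩ := abs_f hW
  exact Integrable.of_bound (hW.measf.comp h.meas).aestronglyMeasurable C
    (Eventually.of_forall fun y => by rw [Real.norm_eq_abs]; exact hC _ (h.nonneg y))

/-- Bounded against the weight. -/
lemma int_Ff (hW : Wt l σ f x) {V F : (Fin N → ℝ) → ℝ} {p : Fin N → (Fin N → ℝ) → ℝ}
    (h : Cls β V p) (hF : Measurable F) {M : ℝ} (hM : ∀ y, |F y * f (V y)| ≤ M) :
    Integrable (fun y => F y * f (V y)) (PN ρ N) :=
  Integrable.of_bound (hF.mul (hW.measf.comp h.meas)).aestronglyMeasurable M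
    (Eventually.of_forall fun y => by rw [Real.norm_eq_abs]; exact hM y)

lemma gf_pos (hW : Wt l σ f x) {V : (Fin N → ℝ) → ℝ} {p : Fin N → (Fin N → ℝ) → ℝ}
    (h : Cls β V p) : 0 < gf ρ f V := by
  unfold gf
  rw [integral_pos_iff_support_of_nonneg (fun y => (hW.pos _).le) (int_f hW h)]
  have : Function.support (fun y => f (V y)) = Set.univ := by
    ext y
    simp [(hW.pos (V y)).ne']
  rw [this]
  simp

lemma gf_peel (hW : Wt l σ f x) {V : (Fin (N + 1) → ℝ) → ℝ}
    {p : Fin (N + 1) → (Fin (N + 1) → ℝ) → ℝ} (h : Cls β V p) :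
    gf ρ f V = ∫ w, gf ρ f (fx V w) ∂ρ := by
  unfold gf
  rw [peel (int_f hW h)]
  rfl

lemma gf_fx_pos (hW : Wt l σ f x) {V : (Fin (N + 1) → ℝ) → ℝ}
    {p : Fin (N + 1) → (Fin (N + 1) → ℝ) → ℝ} (h : Cls β V p) (w : ℝ) : 0 < gf ρ f (fx V w) :=
  gf_pos hW (cls_fx h w)

/-- Means under the tilted law, peeled. -/
lemma Ef_peel (hW : Wt l σ f x) {V F : (Fin (N + 1) → ℝ) → ℝ}
    {p : Fin (N + 1) → (Fin (N + 1) → ℝ) → ℝ} (h : Cls β V p) (hF : Measurable F) {M : ℝ}
    (hM : ∀ y, |F y * f (V y)| ≤ M) :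
    Ef ρ f V F = ∫ w, rf ρ f V w * Ef ρ f (fx V w) (fx F w) ∂ρ := by
  unfold Ef
  rw [peel (int_Ff hW h hF hM), ← integral_div]
  refine integral_congr_ae (Eventually.of_forall fun w => ?_)
  have h1 := (gf_fx_pos (ρ := ρ) hW h w).ne'
  unfold rf
  simp only [fx] at h1 ⊢
  field_simp

lemma pif_peel (hW : Wt l σ f x) {V : (Fin (N + 1) → ℝ) → ℝ}
    {p : Fin (N + 1) → (Fin (N + 1) → ℝ) → ℝ} (h : Cls β V p) :
    pif ρ f x V p = (∫ w, Kf ρ f x V p w ∂ρ) / (∫ w, gf ρ f (fx V w) ∂ρ) := by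
  obtain ⟨C, hC⟩ := abs_f hW
  unfold pif Ef
  have hI : Integrable (fun y => (p 0 y * x (V y)) * f (V y)) (PN ρ (N + 1)) := by
    refine int_Ff hW h (F := fun y => p 0 y * x (V y)) ((h.measp 0).mul (hW.measx.comp h.meas))
      (M := C) ?_
    intro y
    have h1 : |p 0 y * x (V y)| ≤ 1 := by
      rw [abs_of_nonneg (mul_nonneg (h.p0 _ _) (hW.x0 _))]
      exact mul_le_one₀ (h.p1 _ _) (hW.x0 _) (hW.x1 _)
    rw [abs_mul]
    calc |p 0 y * x (V y)| * |f (V y)| ≤ 1 * |f (V y)| :=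
          mul_le_mul_of_nonneg_right h1 (abs_nonneg _)
      _ ≤ C := by rw [one_mul]; exact hC _ (h.nonneg y)
  rw [gf_peel hW h, peel hI]
  rfl

lemma pif0 (hW : Wt l σ f x) {V : (Fin (N + 1) → ℝ) → ℝ}
    {p : Fin (N + 1) → (Fin (N + 1) → ℝ) → ℝ} (h : Cls β V p) : 0 ≤ pif ρ f x V p := by
  unfold pif Ef
  refine div_nonneg (integral_nonneg fun y => ?_) (gf_pos hW h).le
  exact mul_nonneg (mul_nonneg (h.p0 _ _) (hW.x0 _)) (hW.pos _).le

lemma pif1 (hW : Wt l σ f x) {V : (Fin (N + 1) → ℝ) → ℝ}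
    {p : Fin (N + 1) → (Fin (N + 1) → ℝ) → ℝ} (h : Cls β V p) : pif ρ f x V p ≤ 1 := by
  unfold pif Ef
  rw [div_le_one (gf_pos hW h)]
  unfold gf
  refine integral_mono_of_nonneg (Eventually.of_forall fun y => ?_) (int_f hW h)
    (Eventually.of_forall fun y => ?_)
  · exact mul_nonneg (mul_nonneg (h.p0 _ _) (hW.x0 _)) (hW.pos _).le
  · have h1 : p 0 y * x (V y) ≤ 1 := mul_le_one₀ (h.p1 _ _) (hW.x0 _) (hW.x1 _)
    have := mul_le_mul_of_nonneg_right h1 (hW.pos (V y)).le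
    simpa using this

lemma rf_nonneg (hW : Wt l σ f x) {V : (Fin (N + 1) → ℝ) → ℝ}
    {p : Fin (N + 1) → (Fin (N + 1) → ℝ) → ℝ} (h : Cls β V p) (w : ℝ) : 0 ≤ rf ρ f V w :=
  div_nonneg (gf_fx_pos hW h w).le (gf_pos hW h).le

/-! ### Measurability -/

section Meas

variable {α : Type} [MeasurableSpace α]

lemma meas_int {G : α → (Fin N → ℝ) → ℝ} (hG : Measurable (Function.uncurry G)) :
    Measurable fun a => ∫ y, G a y ∂PN ρ N :=
  (hG.stronglyMeasurable.integral_prod_right (ν := PN ρ N)).measurable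

lemma meas_intr {G : α → ℝ → ℝ} (hG : Measurable (Function.uncurry G)) :
    Measurable fun a => ∫ w, G a w ∂ρ :=
  (hG.stronglyMeasurable.integral_prod_right (ν := ρ)).measurable

/-- The family `(a, w) ↦ fx (V a) w`. -/
lemma meas_fxa {V : α → (Fin (N + 1) → ℝ) → ℝ} (hV : Measurable (Function.uncurry V)) :
    Measurable (Function.uncurry fun (z : α × ℝ) (y : Fin N → ℝ) => fx (V z.1) z.2 y) := by
  have h1 : Measurable fun z : (α × ℝ) × (Fin N → ℝ) =>
      (z.1.1, (Fin.cons z.1.2 z.2 : Fin (N + 1) → ℝ)) :=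
    (measurable_fst.comp measurable_fst).prodMk (meas_consF.comp
      ((measurable_snd.comp measurable_fst).prodMk measurable_snd))
  exact hV.comp h1

lemma meas_gfa (hf : Measurable f) {V : α → (Fin N → ℝ) → ℝ}
    (hV : Measurable (Function.uncurry V)) : Measurable fun a => gf ρ f (V a) :=
  meas_int (hf.comp hV)

lemma meas_Efa (hf : Measurable f) {V F : α → (Fin N → ℝ) → ℝ}
    (hV : Measurable (Function.uncurry V)) (hF : Measurable (Function.uncurry F)) :
    Measurable fun a => Ef ρ f (V a) (F a) :=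
  (meas_int (hF.mul (hf.comp hV))).div (meas_gfa hf hV)

lemma meas_pifa (hf : Measurable f) (hx : Measurable x) {V : α → (Fin (N + 1) → ℝ) → ℝ}
    {p : α → Fin (N + 1) → (Fin (N + 1) → ℝ) → ℝ} (hV : Measurable (Function.uncurry V))
    (hp : ∀ i, Measurable (Function.uncurry fun a => p a i)) :
    Measurable fun a => pif ρ f x (V a) (p a) :=
  meas_Efa hf hV ((hp 0).mul (hx.comp hV))

lemma meas_rfa (hf : Measurable f) {V : α → (Fin (N + 1) → ℝ) → ℝ}
    (hV : Measurable (Function.uncurry V)) :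
    Measurable fun z : α × ℝ => rf ρ f (V z.1) z.2 :=
  (meas_gfa hf (meas_fxa hV)).div ((meas_gfa hf hV).comp measurable_fst)

end Meas

lemma meas_Nta (hf : Measurable f) (hx : Measurable x) : ∀ (N : ℕ) {α : Type} [MeasurableSpace α]
    {V : α → (Fin N → ℝ) → ℝ} {p : α → Fin N → (Fin N → ℝ) → ℝ},
    Measurable (Function.uncurry V) → (∀ i, Measurable (Function.uncurry fun a => p a i)) →
    Measurable fun a => Nt ρ f x N (V a) (p a) := by
  intro N
  induction N with
  | zero =>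
    intro α _ V p _ _
    simp only [Nt]
    exact measurable_const
  | succ N ih =>
    intro α _ V p hV hp
    simp only [Nt]
    refine ((meas_pifa hf hx hV hp).pow_const 2).add (meas_intr ?_)
    refine (meas_rfa hf hV).mul ?_
    exact ih (V := fun z : α × ℝ => fx (V z.1) z.2) (p := fun z : α × ℝ => fq (p z.1) z.2)
      (meas_fxa hV) (fun i => meas_fxa (V := fun a => p a i.succ) (hp i.succ))

lemma meas_Nsa (hf : Measurable f) (hx : Measurable x) : ∀ (N : ℕ) {α : Type} [MeasurableSpace α]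
    {V : α → (Fin N → ℝ) → ℝ} {p : α → Fin N → (Fin N → ℝ) → ℝ} {v : α → ℝ},
    Measurable (Function.uncurry V) → (∀ i, Measurable (Function.uncurry fun a => p a i)) →
    Measurable v → Measurable fun a => Ns ρ f x N (V a) (p a) (v a) := by
  intro N
  induction N with
  | zero =>
    intro α _ V p v _ _ _
    simp only [Ns]
    exact measurable_const
  | succ N ih =>
    intro α _ V p v hV hp hv
    simp only [Ns]
    have h1 := (meas_pifa (ρ := ρ) hf hx hV hp).pow_const 2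
    refine Measurable.ite (measurableSet_le h1 hv) (h1.add (meas_intr ?_)) measurable_const
    refine (meas_rfa hf hV).mul ?_
    exact ih (V := fun z : α × ℝ => fx (V z.1) z.2) (p := fun z : α × ℝ => fq (p z.1) z.2)
      (v := fun z : α × ℝ => v z.1 - pif ρ f x (V z.1) (p z.1) ^ 2)
      (meas_fxa hV) (fun i => meas_fxa (V := fun a => p a i.succ) (hp i.succ))
      ((hv.sub h1).comp measurable_fst)

section Fix

variable {V F : (Fin (N + 1) → ℝ) → ℝ} {p : Fin (N + 1) → (Fin (N + 1) → ℝ) → ℝ}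

lemma meas_fxw (hV : Measurable V) :
    Measurable (Function.uncurry fun (w : ℝ) (y : Fin N → ℝ) => fx V w y) := meas_cons2 hV

lemma meas_gf (hf : Measurable f) (hV : Measurable V) : Measurable fun w => gf ρ f (fx V w) :=
  meas_gfa hf (meas_fxw hV)

lemma meas_Ef (hf : Measurable f) (hV : Measurable V) (hF : Measurable F) :
    Measurable fun w => Ef ρ f (fx V w) (fx F w) := meas_Efa hf (meas_fxw hV) (meas_fxw hF)

lemma meas_Kf (hf : Measurable f) (hx : Measurable x) (hV : Measurable V)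
    (hp : ∀ i, Measurable (p i)) : Measurable fun w => Kf ρ f x V p w :=
  meas_int (G := fun w y => p 0 (Fin.cons w y) * x (fx V w y) * f (fx V w y))
    (((meas_cons2 (hp 0)).mul (hx.comp (meas_cons2 hV))).mul (hf.comp (meas_cons2 hV)))

lemma meas_Nt (hf : Measurable f) (hx : Measurable x) (hV : Measurable V)
    (hp : ∀ i, Measurable (p i)) : Measurable fun w => Nt ρ f x N (fx V w) (fq p w) :=
  meas_Nta hf hx N (V := fun w => fx V w) (p := fun w => fq p w) (meas_fxw hV)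
    (fun i => meas_fxw (hp i.succ))

lemma meas_Ns (hf : Measurable f) (hx : Measurable x) (hV : Measurable V)
    (hp : ∀ i, Measurable (p i)) (v : ℝ) :
    Measurable fun w => Ns ρ f x N (fx V w) (fq p w) v :=
  meas_Nsa hf hx N (V := fun w => fx V w) (p := fun w => fq p w) (v := fun _ => v) (meas_fxw hV)
    (fun i => meas_fxw (hp i.succ)) measurable_const

lemma rf_int (hW : Wt l σ f x) (h : Cls β V p) : Integrable (rf ρ f V) ρ ∧
    ∫ w, rf ρ f V w ∂ρ = 1 := by
  obtain ⟨C, hC⟩ := abs_f hW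
  have hb : ∀ w, |gf ρ f (fx V w)| ≤ C := by
    intro w
    unfold gf
    rw [← Real.norm_eq_abs]
    have := norm_integral_le_of_norm_le_const (μ := PN ρ N) (f := fun y => f (fx V w y)) (C := C)
      (Eventually.of_forall fun y => by rw [Real.norm_eq_abs]; exact hC _ (h.nonneg _))
    simpa using this
  have hi : Integrable (fun w => gf ρ f (fx V w)) ρ :=
    Integrable.of_bound (meas_gf hW.measf h.meas).aestronglyMeasurable C
      (Eventually.of_forall fun w => by rw [Real.norm_eq_abs]; exact hb w)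
  refine ⟨hi.div_const _, ?_⟩
  unfold rf
  rw [integral_div, ← gf_peel hW h, div_self (gf_pos hW h).ne']

/-- A bounded function against the density. -/
lemma rf_mul_int (hW : Wt l σ f x) (h : Cls β V p) {g : ℝ → ℝ} (hg : Measurable g) {M : ℝ}
    (hM : ∀ w, |g w| ≤ M) : Integrable (fun w => rf ρ f V w * g w) ρ := by
  have h1 := (rf_int (ρ := ρ) hW h).1
  refine (h1.mul_const M).mono' (h1.1.mul hg.aestronglyMeasurable) (Eventually.of_forall fun w => ?_)
  have h2 := rf_nonneg (ρ := ρ) hW h w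
  rw [norm_mul, Real.norm_eq_abs, Real.norm_eq_abs, abs_of_nonneg h2]
  exact mul_le_mul_of_nonneg_left (hM w) h2

end Fix

lemma Nt01 (hW : Wt l σ f x) : ∀ (N : ℕ) {V : (Fin N → ℝ) → ℝ} {p : Fin N → (Fin N → ℝ) → ℝ},
    Cls β V p → 0 ≤ Nt ρ f x N V p ∧ Nt ρ f x N V p ≤ N := by
  intro N
  induction N with
  | zero => intro V p h; simp [Nt]
  | succ N ih =>
    intro V p h
    simp only [Nt]
    have h1 := pif0 (ρ := ρ) hW h
    have h2 := pif1 (ρ := ρ) hW h
    have h3 := rf_int (ρ := ρ) hW h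
    have h4 : ∀ w, |Nt ρ f x N (fx V w) (fq p w)| ≤ N := fun w => by
      rw [abs_of_nonneg (ih (cls_fx h w)).1]
      exact (ih (cls_fx h w)).2
    have h5 := rf_mul_int (ρ := ρ) hW h (meas_Nt hW.measf hW.measx h.meas h.measp) h4
    constructor
    · refine add_nonneg (sq_nonneg _) (integral_nonneg fun w => ?_)
      exact mul_nonneg (rf_nonneg hW h w) (ih (cls_fx h w)).1
    · have h6 : ∫ w, rf ρ f V w * Nt ρ f x N (fx V w) (fq p w) ∂ρ ≤ ∫ w, rf ρ f V w * N ∂ρ :=
        integral_mono h5 (h3.1.mul_const _) fun w =>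
          mul_le_mul_of_nonneg_left (ih (cls_fx h w)).2 (rf_nonneg hW h w)
      rw [integral_mul_const, h3.2, one_mul] at h6
      have h7 : pif ρ f x V p ^ 2 ≤ 1 := by nlinarith
      push_cast
      linarith

lemma Ns01 (hW : Wt l σ f x) : ∀ (N : ℕ) {V : (Fin N → ℝ) → ℝ} {p : Fin N → (Fin N → ℝ) → ℝ}
    (v : ℝ), Cls β V p → 0 ≤ Ns ρ f x N V p v ∧ Ns ρ f x N V p v ≤ N := by
  intro N
  induction N with
  | zero => intro V p v h; simp [Ns]
  | succ N ih =>
    intro V p v h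
    simp only [Ns]
    have h1 := pif0 (ρ := ρ) hW h
    have h2 := pif1 (ρ := ρ) hW h
    have h3 := rf_int (ρ := ρ) hW h
    split_ifs with hc
    · obtain ⟨v', hv'⟩ : ∃ v', v' = v - pif ρ f x V p ^ 2 := ⟨_, rfl⟩
      rw [← hv']
      have h4 : ∀ w, |Ns ρ f x N (fx V w) (fq p w) v'| ≤ N := fun w => by
        rw [abs_of_nonneg (ih v' (cls_fx h w)).1]
        exact (ih v' (cls_fx h w)).2
      have h5 := rf_mul_int (ρ := ρ) hW h (meas_Ns hW.measf hW.measx h.meas h.measp v') h4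
      constructor
      · refine add_nonneg (sq_nonneg _) (integral_nonneg fun w => ?_)
        exact mul_nonneg (rf_nonneg hW h w) (ih v' (cls_fx h w)).1
      · have h6 : ∫ w, rf ρ f V w * Ns ρ f x N (fx V w) (fq p w) v' ∂ρ ≤ ∫ w, rf ρ f V w * N ∂ρ :=
          integral_mono h5 (h3.1.mul_const _) fun w =>
            mul_le_mul_of_nonneg_left (ih v' (cls_fx h w)).2 (rf_nonneg hW h w)
        rw [integral_mul_const, h3.2, one_mul] at h6
        have h7 : pif ρ f x V p ^ 2 ≤ 1 := by nlinarith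
        push_cast
        linarith
    · constructor
      · exact le_rfl
      · positivity

lemma Nt0 (hW : Wt l σ f x) {V : (Fin N → ℝ) → ℝ} {p : Fin N → (Fin N → ℝ) → ℝ}
    (h : Cls β V p) : 0 ≤ Nt ρ f x N V p := (Nt01 hW N h).1

lemma Nt1 (hW : Wt l σ f x) {V : (Fin N → ℝ) → ℝ} {p : Fin N → (Fin N → ℝ) → ℝ}
    (h : Cls β V p) : Nt ρ f x N V p ≤ N := (Nt01 hW N h).2

lemma Ns0 (hW : Wt l σ f x) {V : (Fin N → ℝ) → ℝ} {p : Fin N → (Fin N → ℝ) → ℝ}
    (h : Cls β V p) (v : ℝ) : 0 ≤ Ns ρ f x N V p v := (Ns01 hW N v h).1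

lemma Ns1 (hW : Wt l σ f x) {V : (Fin N → ℝ) → ℝ} {p : Fin N → (Fin N → ℝ) → ℝ}
    (h : Cls β V p) (v : ℝ) : Ns ρ f x N V p v ≤ N := (Ns01 hW N v h).2

end Pool.Agent.W_7d29a1_AM
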