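import Pool.Agent.W_7d29a1_AM.DefsAM

/-!
The free energies of finite families of sets are in the class `Cls` (leaf A7, first half,
helper5).
-/

namespace Pool.Agent.W_7d29a1_AM

open MeasureTheory Finset

namespace C5

variable {κ : Type*} [Fintype κ] {N : ℕ}

/-- one term -/
noncomputable def T (β : ℝ) (c : κ → ℝ) (A : κ → Finset (Fin N)) (k : κ) (y : Fin N → ℝ) : ℝ :=
  c k * Real.exp (β * ∑ i ∈ A k, y i)

/-- the partition function -/
noncomputable def Z (β : ℝ) (c : κ → ℝ) (A : κ → Finset (Fin N)) (y : Fin N → ℝ) : ℝ :=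
  ∑ k, T β c A k y

/-- the denominator -/
noncomputable def Dn (β : ℝ) (c : κ → ℝ) (A : κ → Finset (Fin N)) (s₀ : ℝ) (y : Fin N → ℝ) : ℝ :=
  1 + Z β c A y * Real.exp (-s₀)

/-- the function of the class -/
noncomputable def V (β : ℝ) (c : κ → ℝ) (A : κ → Finset (Fin N)) (s₀ : ℝ) (y : Fin N → ℝ) : ℝ :=
  Real.log (Dn β c A s₀ y)

open Classical in
/-- the numerator of the weight of a site -/
noncomputable def Nm (β : ℝ) (c : κ → ℝ) (A : κ → Finset (Fin N)) (i : Fin N) (y : Fin N → ℝ) : ℝ :=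
  ∑ k, if i ∈ A k then T β c A k y else 0

/-- the weight of a site -/
noncomputable def P (β : ℝ) (c : κ → ℝ) (A : κ → Finset (Fin N)) (s₀ : ℝ) (i : Fin N)
    (y : Fin N → ℝ) : ℝ := Nm β c A i y * Real.exp (-s₀) / Dn β c A s₀ y

variable {β : ℝ} {c : κ → ℝ} {A : κ → Finset (Fin N)} {s₀ : ℝ}

lemma T0 (hc : ∀ k, 0 ≤ c k) (k : κ) (y : Fin N → ℝ) : 0 ≤ T β c A k y :=
  mul_nonneg (hc k) (Real.exp_pos _).le

lemma Z0 (hc : ∀ k, 0 ≤ c k) (y : Fin N → ℝ) : 0 ≤ Z β c A y :=
  Finset.sum_nonneg fun k _ => T0 hc k y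

lemma Dn1 (hc : ∀ k, 0 ≤ c k) (y : Fin N → ℝ) : 1 ≤ Dn β c A s₀ y := by
  have := mul_nonneg (Z0 (β := β) (A := A) hc y) (Real.exp_pos (-s₀)).le
  unfold Dn
  linarith

lemma Nm0 (hc : ∀ k, 0 ≤ c k) (i : Fin N) (y : Fin N → ℝ) : 0 ≤ Nm β c A i y := by
  unfold Nm
  refine Finset.sum_nonneg fun k _ => ?_
  split_ifs
  · exact T0 hc k y
  · exact le_rfl

lemma NmZ (hc : ∀ k, 0 ≤ c k) (i : Fin N) (y : Fin N → ℝ) : Nm β c A i y ≤ Z β c A y := by
  unfold Nm Z
  refine Finset.sum_le_sum fun k _ => ?_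
  split_ifs
  · exact le_rfl
  · exact T0 hc k y

lemma T_cont (k : κ) : Continuous (T β c A k) := by
  unfold T
  fun_prop

lemma Z_cont : Continuous (Z β c A) := by
  unfold Z
  exact continuous_finsetSum _ fun k _ => T_cont k

lemma Dn_cont : Continuous (Dn β c A s₀) := by
  unfold Dn
  exact continuous_const.add (Z_cont.mul continuous_const)

lemma V_cont (hc : ∀ k, 0 ≤ c k) : Continuous (V β c A s₀) := by
  unfold V
  exact Dn_cont.log fun y => (zero_lt_one.trans_le (Dn1 hc y)).ne'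

lemma Nm_cont (i : Fin N) : Continuous (Nm β c A i) := by
  unfold Nm
  refine continuous_finsetSum _ fun k _ => ?_
  by_cases h : i ∈ A k
  · simpa only [h, if_true] using T_cont k
  · simpa only [h, if_false] using continuous_const

lemma P_cont (hc : ∀ k, 0 ≤ c k) (i : Fin N) : Continuous (P β c A s₀ i) := by
  unfold P
  exact ((Nm_cont i).mul continuous_const).div Dn_cont
    fun y => (zero_lt_one.trans_le (Dn1 hc y)).ne'

/-- the sum of the increments against the weights -/
lemma lin (y y' : Fin N → ℝ) : ∑ i, (y' i - y i) * P β c A s₀ i y =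
    (∑ k, T β c A k y * ∑ i ∈ A k, (y' i - y i)) * Real.exp (-s₀) / Dn β c A s₀ y := by
  classical
  have h1 : ∑ i, (y' i - y i) * Nm β c A i y = ∑ k, T β c A k y * ∑ i ∈ A k, (y' i - y i) := by
    unfold Nm
    simp only [Finset.mul_sum]
    rw [Finset.sum_comm]
    refine Finset.sum_congr rfl fun k _ => ?_
    rw [← Finset.sum_filter_add_sum_filter_not univ (fun i => i ∈ A k)]
    have e1 : ∑ i ∈ univ.filter (fun i => ¬ i ∈ A k), (y' i - y i) *
        (if i ∈ A k then T β c A k y else 0) = 0 := by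
      refine Finset.sum_eq_zero fun i hi => ?_
      rw [if_neg (Finset.mem_filter.1 hi).2, mul_zero]
    rw [e1, add_zero]
    have e2 : univ.filter (fun i => i ∈ A k) = A k := by
      ext i
      simp
    rw [e2]
    refine Finset.sum_congr rfl fun i hi => ?_
    rw [if_pos hi]
    ring
  rw [← h1, Finset.sum_mul, Finset.sum_div]
  refine Finset.sum_congr rfl fun i _ => ?_
  unfold P
  ring

lemma T_ratio (k : κ) (y y' : Fin N → ℝ) :
    T β c A k y' = T β c A k y * Real.exp (β * ∑ i ∈ A k, (y' i - y i)) := by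
  unfold T
  rw [mul_assoc, ← Real.exp_add, Finset.sum_sub_distrib]
  congr 2
  ring

lemma conv (hc : ∀ k, 0 ≤ c k) (y y' : Fin N → ℝ) :
    V β c A s₀ y + β * ∑ i, (y' i - y i) * P β c A s₀ i y ≤ V β c A s₀ y' := by
  have hD := zero_lt_one.trans_le (Dn1 (β := β) (A := A) (s₀ := s₀) hc y)
  have hD' := zero_lt_one.trans_le (Dn1 (β := β) (A := A) (s₀ := s₀) hc y')
  set m := β * ∑ i, (y' i - y i) * P β c A s₀ i y with hm
  have hm2 : m * Dn β c A s₀ y =
      (∑ k, T β c A k y * (β * ∑ i ∈ A k, (y' i - y i))) * Real.exp (-s₀) := by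
    rw [hm, lin]
    have e1 : ∑ k, T β c A k y * (β * ∑ i ∈ A k, (y' i - y i)) =
        β * ∑ k, T β c A k y * ∑ i ∈ A k, (y' i - y i) := by
      rw [Finset.mul_sum]
      exact Finset.sum_congr rfl fun k _ => by ring
    rw [e1]
    field_simp
  have key : Real.exp m * Dn β c A s₀ y ≤ Dn β c A s₀ y' := by
    have h1 : ∀ t : ℝ, Real.exp m * (1 + (t - m)) ≤ Real.exp t := fun t => by
      have h2 := Real.add_one_le_exp (t - m)
      calc Real.exp m * (1 + (t - m)) ≤ Real.exp m * Real.exp (t - m) :=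
            mul_le_mul_of_nonneg_left (by linarith) (Real.exp_pos m).le
        _ = Real.exp t := by rw [← Real.exp_add]; congr 1; ring
    have h0 := h1 0
    rw [Real.exp_zero] at h0
    have h3 : ∑ k, T β c A k y * (Real.exp m * (1 + (β * ∑ i ∈ A k, (y' i - y i) - m))) ≤
        Z β c A y' := by
      unfold Z
      refine Finset.sum_le_sum fun k _ => ?_
      rw [T_ratio k y y']
      exact mul_le_mul_of_nonneg_left (h1 _) (T0 hc k y)
    have h4 : ∑ k, T β c A k y * (Real.exp m * (1 + (β * ∑ i ∈ A k, (y' i - y i) - m))) =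
        Real.exp m * (Z β c A y * (1 - m) +
          ∑ k, T β c A k y * (β * ∑ i ∈ A k, (y' i - y i))) := by
      unfold Z
      rw [Finset.sum_mul, ← Finset.sum_add_distrib, Finset.mul_sum]
      exact Finset.sum_congr rfl fun k _ => by ring
    rw [h4] at h3
    have h5 := mul_le_mul_of_nonneg_right h3 (Real.exp_pos (-s₀)).le
    have h6 : Real.exp m * Dn β c A s₀ y = Real.exp m * (1 + (0 - m)) +
        Real.exp m * (Z β c A y * (1 - m) +
          ∑ k, T β c A k y * (β * ∑ i ∈ A k, (y' i - y i))) * Real.exp (-s₀) := by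
      have e : Real.exp m * (Z β c A y * (1 - m) +
          ∑ k, T β c A k y * (β * ∑ i ∈ A k, (y' i - y i))) * Real.exp (-s₀) =
          Real.exp m * (Z β c A y * (1 - m) * Real.exp (-s₀) +
          (∑ k, T β c A k y * (β * ∑ i ∈ A k, (y' i - y i))) * Real.exp (-s₀)) := by ring
      rw [e, ← hm2]
      unfold Dn
      ring
    rw [h6]
    have h7 : Dn β c A s₀ y' = 1 + Z β c A y' * Real.exp (-s₀) := rfl
    rw [h7]
    linarith
  have h8 := Real.log_le_log (by positivity) key
  rw [Real.log_mul (Real.exp_pos m).ne' hD.ne', Real.log_exp] at h8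
  unfold V
  linarith

lemma rat (hβ : 0 ≤ β) (hc : ∀ k, 0 ≤ c k) (i : Fin N) (y y' : Fin N → ℝ)
    (h : ∀ j, j ≠ i → y' j = y j) :
    P β c A s₀ i y' ≤ Real.exp (β * |y' i - y i|) * P β c A s₀ i y := by
  classical
  have hD := zero_lt_one.trans_le (Dn1 (β := β) (A := A) (s₀ := s₀) hc y)
  have hD' := zero_lt_one.trans_le (Dn1 (β := β) (A := A) (s₀ := s₀) hc y')
  set u := β * (y' i - y i) with hu
  have hs : ∀ k, ∑ j ∈ A k, (y' j - y j) = if i ∈ A k then y' i - y i else 0 := fun k => by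
    by_cases hi : i ∈ A k
    · rw [if_pos hi]
      exact Finset.sum_eq_single_of_mem i hi fun j _ hj => by rw [h j hj, sub_self]
    · rw [if_neg hi]
      exact Finset.sum_eq_zero fun j hj => by
        rw [h j (fun e => hi (e ▸ hj)), sub_self]
  have hN : Nm β c A i y' = Real.exp u * Nm β c A i y := by
    unfold Nm
    rw [Finset.mul_sum]
    refine Finset.sum_congr rfl fun k _ => ?_
    by_cases hi : i ∈ A k
    · rw [if_pos hi, if_pos hi, T_ratio k y y', hs k, if_pos hi, mul_comm]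
    · rw [if_neg hi, if_neg hi, mul_zero]
  have hua : u ≤ β * |y' i - y i| := mul_le_mul_of_nonneg_left (le_abs_self _) hβ
  have hu0 : 0 ≤ β * |y' i - y i| := mul_nonneg hβ (abs_nonneg _)
  have hT : ∀ k, Real.exp (min u 0) * T β c A k y ≤ T β c A k y' := fun k => by
    rw [T_ratio k y y', hs k, mul_comm]
    refine mul_le_mul_of_nonneg_left (Real.exp_le_exp.2 ?_) (T0 hc k y)
    by_cases hi : i ∈ A k
    · rw [if_pos hi]
      exact min_le_left _ _
    · rw [if_neg hi, mul_zero]
      exact min_le_right _ _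
  have hZ : Real.exp (min u 0) * Z β c A y ≤ Z β c A y' := by
    unfold Z
    rw [Finset.mul_sum]
    exact Finset.sum_le_sum fun k _ => hT k
  have h1 : Real.exp (min u 0) ≤ 1 := Real.exp_le_one_iff.2 (min_le_right _ _)
  have hDD : Real.exp (min u 0) * Dn β c A s₀ y ≤ Dn β c A s₀ y' := by
    unfold Dn
    have := mul_le_mul_of_nonneg_right hZ (Real.exp_pos (-s₀)).le
    nlinarith
  have h2 : Real.exp u ≤ Real.exp (β * |y' i - y i|) * Real.exp (min u 0) := by
    rw [← Real.exp_add]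
    apply Real.exp_le_exp.2
    rcases le_total u 0 with h | h
    · rw [min_eq_left h]
      linarith
    · rw [min_eq_right h]
      linarith
  unfold P
  rw [hN, div_le_iff₀ hD']
  have hn : 0 ≤ Nm β c A i y * Real.exp (-s₀) := mul_nonneg (Nm0 hc i y) (Real.exp_pos _).le
  calc Real.exp u * Nm β c A i y * Real.exp (-s₀) =
        Real.exp u * (Nm β c A i y * Real.exp (-s₀)) := by ring
    _ ≤ Real.exp (β * |y' i - y i|) * Real.exp (min u 0) * (Nm β c A i y * Real.exp (-s₀)) :=
        mul_le_mul_of_nonneg_right h2 hn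
    _ = Real.exp (β * |y' i - y i|) * (Nm β c A i y * Real.exp (-s₀) / Dn β c A s₀ y) *
          (Real.exp (min u 0) * Dn β c A s₀ y) := by
        field_simp
    _ ≤ _ := mul_le_mul_of_nonneg_left hDD (by positivity)

end C5

/-- **A7, first half**: the free energy of a finite family of sets is in the class. -/
theorem cls5 {κ : Type*} [Fintype κ] {N : ℕ} {β : ℝ} (hβ : 0 ≤ β) {c : κ → ℝ} (hc : ∀ k, 0 ≤ c k)
    (A : κ → Finset (Fin N)) (s₀ : ℝ) : Cls β (C5.V β c A s₀) (C5.P β c A s₀) where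
  meas := (C5.V_cont hc).measurable
  measp := fun i => (C5.P_cont hc i).measurable
  nonneg := fun y => Real.log_nonneg (C5.Dn1 hc y)
  p0 := fun i y => div_nonneg (mul_nonneg (C5.Nm0 hc i y) (Real.exp_pos _).le)
    (zero_le_one.trans (C5.Dn1 hc y))
  p1 := fun i y => by
    unfold C5.P
    rw [div_le_one (zero_lt_one.trans_le (C5.Dn1 hc y))]
    have := mul_le_mul_of_nonneg_right (C5.NmZ (β := β) (A := A) hc i y) (Real.exp_pos (-s₀)).le
    unfold C5.Dn
    linarith
  conv := C5.conv hc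
  rat := C5.rat hβ hc

end Pool.Agent.W_7d29a1_AM
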