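import Pool.Agent.W_7d29a1_AM.DefsAM

/-!
Leaf A1': consequences of the one site calculus.
-/

namespace Pool.Agent.W_7d29a1_AM.C62

open MeasureTheory ProbabilityTheory Filter Topology Pool.Agent.W_MP_7d29a1_pr
  Pool.Agent.W_7d29a1_h46 Pool.Agent.W_7d29a1_h46u Pool.Agent.W_7d29a1_D2.B35
  Pool.Agent.W_7d29a1_Q29 Pool.Agent.W_7d29a1_R34 Pool.Agent.W_7d29a1_SP

lemma expAbs {ρ : Measure ℝ} (hρ : EM ρ) {a : ℝ} (_ha : 0 ≤ a) :
    Integrable (fun w : ℝ => Real.exp (a * |w|)) ρ := by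
  refine ((hρ a).add (hρ (-a))).mono (by fun_prop) (Eventually.of_forall fun w => ?_)
  rw [Real.norm_eq_abs, abs_of_pos (Real.exp_pos _), Real.norm_eq_abs]
  refine le_trans ?_ (le_abs_self _)
  show Real.exp (a * |w|) ≤ Real.exp (a * w) + Real.exp (-a * w)
  rcases le_total 0 w with h | h
  · rw [abs_of_nonneg h]
    linarith [Real.exp_pos (-a * w)]
  · rw [abs_of_nonpos h, show a * -w = -a * w by ring]
    linarith [Real.exp_pos (a * w)]

lemma intId {ρ : Measure ℝ} (hρ : EM ρ) : Integrable (fun w : ℝ => w) ρ := by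
  refine (expAbs hρ zero_le_one).mono (by fun_prop) (Eventually.of_forall fun w => ?_)
  rw [Real.norm_eq_abs, Real.norm_eq_abs, abs_of_pos (Real.exp_pos _), one_mul]
  linarith [Real.add_one_le_exp |w|]

/-- The two sets. -/
lemma sets {ρ : Measure ℝ} [IsProbabilityMeasure ρ] (hρ : EM ρ) (hnc : ∀ c : ℝ, ρ {c} ≠ 1) :
    ∃ (c R : ℝ) (L H : Set ℝ), LHs ρ c R L H ∧ 0 ≤ R := by
  set t := ∫ w, w ∂ρ with ht
  have hi : Integrable (fun w : ℝ => w - t) ρ := (intId hρ).sub (integrable_const _)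
  have h0 : ∫ w, (w - t) ∂ρ = 0 := by
    rw [integral_sub (intId hρ) (integrable_const _)]
    simp [ht]
  have hone : ¬ ∀ᵐ w ∂ρ, w = t := by
    intro h
    refine hnc t ?_
    have h2 : ρ ({t}ᶜ : Set ℝ) = 0 := h
    exact (prob_compl_eq_zero_iff (measurableSet_singleton t)).1 h2
  have hL : ∃ n : ℕ, 0 < ρ.real (Set.Icc (-(n : ℝ)) (t - 1 / (n + 1))) := by
    by_contra hcon
    push Not at hcon
    have h1 : ∀ n : ℕ, ρ (Set.Icc (-(n : ℝ)) (t - 1 / (n + 1))) = 0 := by
      intro n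
      have h2 : ρ.real (Set.Icc (-(n : ℝ)) (t - 1 / (n + 1))) = 0 :=
        le_antisymm (hcon n) measureReal_nonneg
      exact (measureReal_eq_zero_iff (by finiteness)).1 h2
    have h3 : ρ (⋃ n : ℕ, Set.Icc (-(n : ℝ)) (t - 1 / (n + 1))) = 0 := measure_iUnion_null h1
    have h4 : ∀ᵐ w ∂ρ, 0 ≤ w - t := by
      have h5 : ∀ᵐ w ∂ρ, w ∉ ⋃ n : ℕ, Set.Icc (-(n : ℝ)) (t - 1 / (n + 1)) :=
        measure_eq_zero_iff_ae_notMem.1 h3
      filter_upwards [h5] with w hw
      by_contra hneg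
      refine hw ?_
      rw [Set.mem_iUnion]
      obtain ⟨n, hn⟩ := exists_nat_gt (max (-w) (1 / (t - w)))
      have hn1 := (le_max_left _ _).trans_lt hn
      have hn2 := (le_max_right _ _).trans_lt hn
      have htw : 0 < t - w := by linarith [not_le.1 hneg]
      refine ⟨n, by linarith, ?_⟩
      have h6 : 1 / ((n : ℝ) + 1) ≤ t - w := by
        rw [div_le_iff₀ (by positivity)]
        rw [div_lt_iff₀ htw] at hn2
        nlinarith
      linarith
    have h7 := (integral_eq_zero_iff_of_nonneg_ae h4 hi).1 h0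
    refine hone ?_
    filter_upwards [h7] with w hw
    have : w - t = 0 := hw
    linarith
  have hH : ∃ n : ℕ, 0 < ρ.real (Set.Icc (t + 1 / (n + 1)) (n : ℝ)) := by
    by_contra hcon
    push Not at hcon
    have h1 : ∀ n : ℕ, ρ (Set.Icc (t + 1 / (n + 1)) (n : ℝ)) = 0 := by
      intro n
      have h2 : ρ.real (Set.Icc (t + 1 / (n + 1)) (n : ℝ)) = 0 :=
        le_antisymm (hcon n) measureReal_nonneg
      exact (measureReal_eq_zero_iff (by finiteness)).1 h2
    have h3 : ρ (⋃ n : ℕ, Set.Icc (t + 1 / (n + 1)) (n : ℝ)) = 0 := measure_iUnion_null h1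
    have h4 : ∀ᵐ w ∂ρ, 0 ≤ -(w - t) := by
      have h5 : ∀ᵐ w ∂ρ, w ∉ ⋃ n : ℕ, Set.Icc (t + 1 / (n + 1)) (n : ℝ) :=
        measure_eq_zero_iff_ae_notMem.1 h3
      filter_upwards [h5] with w hw
      by_contra hneg
      refine hw ?_
      rw [Set.mem_iUnion]
      obtain ⟨n, hn⟩ := exists_nat_gt (max w (1 / (w - t)))
      have hn1 := (le_max_left _ _).trans_lt hn
      have hn2 := (le_max_right _ _).trans_lt hn
      have htw : 0 < w - t := by linarith [not_le.1 hneg]
      refine ⟨n, ?_, by linarith⟩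
      have h6 : 1 / ((n : ℝ) + 1) ≤ w - t := by
        rw [div_le_iff₀ (by positivity)]
        rw [div_lt_iff₀ htw] at hn2
        nlinarith
      linarith
    have h0' : ∫ w, -(w - t) ∂ρ = 0 := by rw [integral_neg, h0, neg_zero]
    have h7 := (integral_eq_zero_iff_of_nonneg_ae h4 hi.neg).1 h0'
    refine hone ?_
    filter_upwards [h7] with w hw
    have : -(w - t) = 0 := hw
    linarith
  obtain ⟨n, hn⟩ := hL
  obtain ⟨m, hm⟩ := hH
  have hnp : (0 : ℝ) < 1 / ((n : ℝ) + 1) := by positivity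
  have hmp : (0 : ℝ) < 1 / ((m : ℝ) + 1) := by positivity
  refine ⟨min (min (ρ.real (Set.Icc (-(n : ℝ)) (t - 1 / (n + 1))))
    (ρ.real (Set.Icc (t + 1 / (m + 1)) (m : ℝ)))) (1 / ((n : ℝ) + 1)), n + m + |t|,
    Set.Icc (-(n : ℝ)) (t - 1 / (n + 1)), Set.Icc (t + 1 / (m + 1)) (m : ℝ),
    ⟨lt_min (lt_min hn hm) hnp, measurableSet_Icc, measurableSet_Icc,
      (min_le_left _ _).trans (min_le_left _ _), (min_le_left _ _).trans (min_le_right _ _),
      ?_, ?_, ?_⟩, by positivity⟩
  · intro l hl h hh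
    refine (min_le_right _ _).trans ?_
    linarith [hl.2, hh.1]
  · intro l hl
    have hm0 : (0 : ℝ) ≤ m := Nat.cast_nonneg m
    have hn0 : (0 : ℝ) ≤ n := Nat.cast_nonneg n
    rw [abs_le]
    constructor <;> linarith [hl.1, hl.2, le_abs_self t, abs_nonneg t]
  · intro l hl
    have hm0 : (0 : ℝ) ≤ m := Nat.cast_nonneg m
    have hn0 : (0 : ℝ) ≤ n := Nat.cast_nonneg n
    rw [abs_le]
    constructor <;> linarith [hl.1, hl.2, neg_abs_le t, abs_nonneg t]

/-- Integrate a comparison from above. -/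
lemma above {ρ : Measure ℝ} [IsProbabilityMeasure ρ] (hρ : EM ρ) {F : ℝ → ℝ} (hF : Integrable F ρ)
    {a y : ℝ} (ha : 0 ≤ a) (w : ℝ) (h : ∀ w', F w' ≤ Real.exp (a * |w' - w|) * y) (hy : 0 ≤ y) :
    ∫ z, F z ∂ρ ≤ (∫ z, Real.exp (a * |z|) ∂ρ) * (Real.exp (a * |w|) * y) := by
  rw [← integral_mul_const]
  refine integral_mono hF ((expAbs hρ ha).mul_const _) fun w' => ?_
  refine (h w').trans ?_
  have h1 : Real.exp (a * |w' - w|) ≤ Real.exp (a * |w'|) * Real.exp (a * |w|) := by
    rw [← Real.exp_add, Real.exp_le_exp]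
    have := abs_sub w' w
    nlinarith
  calc Real.exp (a * |w' - w|) * y ≤ Real.exp (a * |w'|) * Real.exp (a * |w|) * y := by gcongr
    _ = _ := by ring

/-- Integrate a comparison from below. -/
lemma below {ρ : Measure ℝ} [IsProbabilityMeasure ρ] {F : ℝ → ℝ} (hF : Integrable F ρ)
    {a y : ℝ} (ha : 0 ≤ a) (w : ℝ) (h : ∀ w', y ≤ Real.exp (a * |w - w'|) * F w')
    (h0 : ∀ w', 0 ≤ F w') :
    y * (∫ z, Real.exp (-(a * |z|)) ∂ρ) ≤ Real.exp (a * |w|) * ∫ z, F z ∂ρ := by
  have hi : Integrable (fun z : ℝ => Real.exp (-(a * |z|))) ρ := by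
    refine (integrable_const (1 : ℝ)).mono (by fun_prop) (Eventually.of_forall fun z => ?_)
    rw [Real.norm_eq_abs, abs_of_pos (Real.exp_pos _)]
    simp only [norm_one, Real.exp_le_one_iff]
    nlinarith [abs_nonneg z]
  rw [← integral_const_mul, ← integral_const_mul]
  refine integral_mono (hi.const_mul _) (hF.const_mul _) fun w' => ?_
  show y * Real.exp (-(a * |w'|)) ≤ Real.exp (a * |w|) * F w'
  have h1 : Real.exp (a * |w - w'|) ≤ Real.exp (a * |w|) * Real.exp (a * |w'|) := by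
    rw [← Real.exp_add, Real.exp_le_exp]
    have := abs_sub w w'
    nlinarith
  have h2 : y ≤ Real.exp (a * |w|) * Real.exp (a * |w'|) * F w' :=
    (h w').trans (by gcongr; exact h0 w')
  calc y * Real.exp (-(a * |w'|)) ≤
      Real.exp (a * |w|) * Real.exp (a * |w'|) * F w' * Real.exp (-(a * |w'|)) := by gcongr
    _ = Real.exp (a * |w|) * F w' * (Real.exp (a * |w'|) * Real.exp (-(a * |w'|))) := by ring
    _ = _ := by rw [← Real.exp_add]; simp

lemma expNeg_pos {ρ : Measure ℝ} [IsProbabilityMeasure ρ] {a : ℝ} (ha : 0 ≤ a) :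
    0 < ∫ z : ℝ, Real.exp (-(a * |z|)) ∂ρ := by
  have hi : Integrable (fun z : ℝ => Real.exp (-(a * |z|))) ρ := by
    refine (integrable_const (1 : ℝ)).mono (by fun_prop) (Eventually.of_forall fun z => ?_)
    rw [Real.norm_eq_abs, abs_of_pos (Real.exp_pos _)]
    simp only [norm_one, Real.exp_le_one_iff]
    nlinarith [abs_nonneg z]
  exact integral_exp_pos hi

lemma expAbs_one {ρ : Measure ℝ} [IsProbabilityMeasure ρ] (hρ : EM ρ) {a : ℝ} (ha : 0 ≤ a) :
    1 ≤ ∫ z : ℝ, Real.exp (a * |z|) ∂ρ := by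
  have h1 : ∫ _ : ℝ, (1 : ℝ) ∂ρ ≤ ∫ z : ℝ, Real.exp (a * |z|) ∂ρ :=
    integral_mono (integrable_const _) (expAbs hρ ha) fun z => by
      show (1 : ℝ) ≤ Real.exp (a * |z|)
      exact Real.one_le_exp (by positivity)
  simpa using h1

/-- The oscillation of `G`. -/
lemma osc {l β σ : ℝ} {G K : ℝ → ℝ} (hβ : 0 < β) (hl : 0 < l) (hσ : σ = 1 ∨ σ = -1)
    (hS : Site l β σ G K) (w w' : ℝ) : |G w' - G w| ≤ Real.exp (5 * β * |w' - w|) * (l * K w) := by
  -- the ordered form
  have key : ∀ u v : ℝ, u ≤ v → |G v - G u| ≤ l * Real.exp (3 * β * (v - u)) * K u := by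
    intro u v huv
    have h1 := hS.lo u v huv
    have h2 := hS.up u v huv
    have hD : 0 ≤ v - u := by linarith
    have h3 : 0 ≤ l * β * (v - u) * Real.exp (-(β * (v - u))) * K u := by
      have := hS.K0 u
      positivity
    have h4 : |G v - G u| = σ * (G v - G u) := by
      rcases hσ with h | h
      · rw [h, one_mul] at h1 ⊢
        exact abs_of_nonneg (h3.trans h1)
      · rw [h] at h1 ⊢
        rw [neg_one_mul] at h1 ⊢
        exact abs_of_nonpos (by linarith)
    rw [h4]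
    refine h2.trans ?_
    have h5 : β * (v - u) * Real.exp (2 * β * (v - u)) ≤ Real.exp (3 * β * (v - u)) := by
      have h6 : β * (v - u) ≤ Real.exp (β * (v - u)) := by
        linarith [Real.add_one_le_exp (β * (v - u))]
      calc β * (v - u) * Real.exp (2 * β * (v - u)) ≤
          Real.exp (β * (v - u)) * Real.exp (2 * β * (v - u)) := by gcongr
        _ = _ := by rw [← Real.exp_add]; ring_nf
    calc l * β * (v - u) * Real.exp (2 * β * (v - u)) * K u =
        l * (β * (v - u) * Real.exp (2 * β * (v - u))) * K u := by ring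
      _ ≤ l * Real.exp (3 * β * (v - u)) * K u := by
        have := hS.K0 u
        gcongr
  rcases le_total w w' with h | h
  · rw [abs_of_nonneg (show 0 ≤ w' - w by linarith)]
    refine (key w w' h).trans ?_
    have h1 : Real.exp (3 * β * (w' - w)) ≤ Real.exp (5 * β * (w' - w)) := by
      rw [Real.exp_le_exp]
      nlinarith
    have := hS.K0 w
    calc l * Real.exp (3 * β * (w' - w)) * K w ≤ l * Real.exp (5 * β * (w' - w)) * K w := by
          gcongr
      _ = _ := by ring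
  · rw [abs_sub_comm, abs_of_nonpos (show w' - w ≤ 0 by linarith)]
    refine (key w' w h).trans ?_
    have h1 := hS.rK w w'
    rw [abs_of_nonpos (show w' - w ≤ 0 by linarith)] at h1
    calc l * Real.exp (3 * β * (w - w')) * K w' ≤
        l * Real.exp (3 * β * (w - w')) * (Real.exp (2 * β * -(w' - w)) * K w) := by gcongr
      _ = Real.exp (3 * β * (w - w')) * Real.exp (2 * β * -(w' - w)) * (l * K w) := by ring
      _ = _ := by rw [← Real.exp_add]; ring_nf

end Pool.Agent.W_7d29a1_AM.C62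

namespace Pool.Agent.W_7d29a1_AM

open MeasureTheory ProbabilityTheory Filter Topology Pool.Agent.W_MP_7d29a1_pr
  Pool.Agent.W_7d29a1_h46 Pool.Agent.W_7d29a1_h46u Pool.Agent.W_7d29a1_D2.B35
  Pool.Agent.W_7d29a1_Q29 Pool.Agent.W_7d29a1_R34 Pool.Agent.W_7d29a1_SP

theorem conP62 {ρ : Measure ℝ} [IsProbabilityMeasure ρ] (hρ : EM ρ) (hnc : ∀ c : ℝ, ρ {c} ≠ 1)
    {β : ℝ} (hβ : 0 < β) : ConP ρ β := by
  obtain ⟨c₀, R, L, H, hLH, hR⟩ := C62.sets hρ hnc
  set M1 := ∫ z : ℝ, Real.exp (β * |z|) ∂ρ with hM1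
  set M2 := ∫ z : ℝ, Real.exp (2 * β * |z|) ∂ρ with hM2
  set M5 := ∫ z : ℝ, Real.exp (5 * β * |z|) ∂ρ with hM5
  set m1 := ∫ z : ℝ, Real.exp (-(β * |z|)) ∂ρ with hm1
  set m2 := ∫ z : ℝ, Real.exp (-(2 * β * |z|)) ∂ρ with hm2
  have M1p : 1 ≤ M1 := C62.expAbs_one hρ hβ.le
  have M2p : 1 ≤ M2 := C62.expAbs_one hρ (by positivity)
  have M5p : 1 ≤ M5 := C62.expAbs_one hρ (by positivity)
  have m1p : 0 < m1 := C62.expNeg_pos hβ.le
  have m2p : 0 < m2 := C62.expNeg_pos (by positivity)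
  have hc0 := hLH.c0
  set c1 := min (1 / (M2 * Real.exp (2 * β * R)))
    (β * c₀ * Real.exp (-(2 * β * R)) / (M2 * Real.exp (2 * β * R))) with hc1
  have hc1p : 0 < c1 := by
    rw [hc1]
    positivity
  set C := 1 + M5 / m2 + M1 / m2 + 7 * β + Real.exp (β * R) / m1 with hC
  have t1 : 0 < M5 / m2 := by positivity
  have t2 : 0 < M1 / m2 := by positivity
  have t3 : 0 < Real.exp (β * R) / m1 := by positivity
  refine ⟨min c₀ c1, R, C, L, H, ⟨lt_min hc0 hc1p, hLH.mL, hLH.mH,
    (min_le_left _ _).trans hLH.L0, (min_le_left _ _).trans hLH.H0,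
    fun x hx y hy => (min_le_left _ _).trans (hLH.sep x hx y hy), hLH.bL, hLH.bH⟩,
    by linarith, ?_⟩
  intro l σ G K hl hl1 hσ hS
  obtain ⟨CG, hCG⟩ := hS.bddG
  have iG : Integrable G ρ := by
    refine (integrable_const CG).mono hS.measG.aestronglyMeasurable
      (Eventually.of_forall fun w => ?_)
    rw [Real.norm_eq_abs, abs_of_pos (hS.G0 w), Real.norm_eq_abs]
    exact (hCG w).trans (le_abs_self _)
  have iK : Integrable K ρ := by
    refine iG.mono hS.measK.aestronglyMeasurable (Eventually.of_forall fun w => ?_)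
    rw [Real.norm_eq_abs, abs_of_nonneg (hS.K0 w), Real.norm_eq_abs]
    exact (hS.KG w).trans (le_abs_self _)
  set Gb := ∫ z, G z ∂ρ with hGb
  set Kb := ∫ z, K z ∂ρ with hKb
  -- the four comparisons
  have K1 : ∀ w, Kb ≤ M2 * (Real.exp (2 * β * |w|) * K w) := fun w =>
    C62.above hρ iK (by positivity) w (fun w' => hS.rK w w') (hS.K0 w)
  have K2 : ∀ w, K w * m2 ≤ Real.exp (2 * β * |w|) * Kb := fun w =>
    C62.below iK (by positivity) w (fun w' => hS.rK w' w) hS.K0
  have G1 : ∀ w, Gb ≤ M1 * (Real.exp (β * |w|) * G w) := fun w =>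
    C62.above hρ iG hβ.le w (fun w' => hS.rG w w') (hS.G0 w).le
  have G2 : ∀ w, G w * m1 ≤ Real.exp (β * |w|) * Gb := fun w =>
    C62.below iG hβ.le w (fun w' => hS.rG w' w) fun w => (hS.G0 w).le
  have Gbp : 0 < Gb := by
    have h1 := G2 0
    have h2 := mul_pos (hS.G0 0) m1p
    simp only [abs_zero, mul_zero, Real.exp_zero, one_mul] at h1
    linarith
  have Kb0 : 0 ≤ Kb := integral_nonneg hS.K0
  have hq0 : 0 ≤ Kb / Gb := by positivity
  have K2' : ∀ w, K w ≤ Real.exp (2 * β * |w|) * Kb / m2 := fun w => by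
    rw [le_div_iff₀ m2p]
    exact K2 w
  refine ⟨?_, ?_, ?_, ?_, ?_⟩
  · intro w
    have h1 : |Gb - G w| ≤ M5 * (Real.exp (5 * β * |w|) * (l * K w)) := by
      have h2 : Gb - G w = ∫ z, (G z - G w) ∂ρ := by
        rw [integral_sub iG (integrable_const _)]
        simp [hGb]
      rw [h2]
      refine (abs_integral_le_integral_abs).trans ?_
      refine C62.above hρ (iG.sub (integrable_const _)).abs (by positivity) w
        (fun w' => C62.osc hβ hl hσ hS w w') ?_
      have := hS.K0 w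
      positivity
    have h3 : G w / Gb - 1 = (G w - Gb) / Gb := by
      field_simp
    rw [h3, abs_div, abs_of_pos Gbp, abs_sub_comm, div_le_iff₀ Gbp]
    refine h1.trans ?_
    have h4 : M5 * (Real.exp (5 * β * |w|) * (l * K w)) ≤
        M5 * (Real.exp (5 * β * |w|) * (l * (Real.exp (2 * β * |w|) * Kb / m2))) := by
      gcongr
      exact K2' w
    refine h4.trans ?_
    have h5 : Real.exp (5 * β * |w|) * Real.exp (2 * β * |w|) ≤ Real.exp (C * |w|) := by
      rw [← Real.exp_add, Real.exp_le_exp]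
      have : 7 * β ≤ C := by linarith
      nlinarith [abs_nonneg w]
    have h6 : M5 / m2 ≤ C := by linarith
    calc M5 * (Real.exp (5 * β * |w|) * (l * (Real.exp (2 * β * |w|) * Kb / m2))) =
        l * (M5 / m2) * (Real.exp (5 * β * |w|) * Real.exp (2 * β * |w|)) * Kb := by ring
      _ ≤ l * C * Real.exp (C * |w|) * Kb := by gcongr
      _ = _ := by field_simp
  · intro w
    have hG := hS.G0 w
    have h1 : 1 / G w ≤ M1 * Real.exp (β * |w|) / Gb := by
      rw [div_le_div_iff₀ hG Gbp]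
      have := G1 w
      linarith
    calc K w / G w = K w * (1 / G w) := by ring
      _ ≤ (Real.exp (2 * β * |w|) * Kb / m2) * (M1 * Real.exp (β * |w|) / Gb) := by
        have := K2' w
        have h0 := hS.K0 w
        gcongr
      _ = (M1 / m2) * (Real.exp (2 * β * |w|) * Real.exp (β * |w|)) * (Kb / Gb) := by
        field_simp
      _ ≤ C * Real.exp (C * |w|) * (Kb / Gb) := by
        have h5 : Real.exp (2 * β * |w|) * Real.exp (β * |w|) ≤ Real.exp (C * |w|) := by
          rw [← Real.exp_add, Real.exp_le_exp]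
          have : 7 * β ≤ C := by linarith
          nlinarith [abs_nonneg w, mul_nonneg hβ.le (abs_nonneg w)]
        have h6 : M1 / m2 ≤ C := by linarith
        gcongr
  · intro w hw
    have hwR := hLH.bL w hw
    have h1 := K1 w
    have hK := hS.K0 w
    have h2 : Kb ≤ M2 * Real.exp (2 * β * R) * K w := by
      refine h1.trans ?_
      rw [← mul_assoc]
      gcongr
    have h3 : min c₀ c1 ≤ 1 / (M2 * Real.exp (2 * β * R)) :=
      (min_le_right _ _).trans (min_le_left _ _)
    rw [← mul_div_assoc]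
    gcongr
    calc min c₀ c1 * Kb ≤ 1 / (M2 * Real.exp (2 * β * R)) * (M2 * Real.exp (2 * β * R) * K w) := by
          gcongr
      _ = K w := by field_simp
  · intro w hw w' hw'
    have hwR := hLH.bL w hw
    have hwR' := hLH.bH w' hw'
    have hsep := hLH.sep w hw w' hw'
    have hle : w ≤ w' := by linarith
    have h1 := K1 w
    have hK := hS.K0 w
    have h2 : Kb ≤ M2 * Real.exp (2 * β * R) * K w := by
      refine h1.trans ?_
      rw [← mul_assoc]
      gcongr
    have h3 := hS.lo w w' hle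
    have h4 : Real.exp (-(2 * β * R)) ≤ Real.exp (-(β * (w' - w))) := by
      rw [Real.exp_le_exp]
      have : w' - w ≤ 2 * R := by linarith [le_abs_self w', neg_abs_le w]
      nlinarith
    have h5 : min c₀ c1 ≤ β * c₀ * Real.exp (-(2 * β * R)) / (M2 * Real.exp (2 * β * R)) :=
      (min_le_right _ _).trans (min_le_right _ _)
    have h6 : min c₀ c1 * l * Kb ≤ σ * (G w' - G w) := by
      refine le_trans ?_ h3
      calc min c₀ c1 * l * Kb ≤
          β * c₀ * Real.exp (-(2 * β * R)) / (M2 * Real.exp (2 * β * R)) * l *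
            (M2 * Real.exp (2 * β * R) * K w) := by
            have : 0 < min c₀ c1 := lt_min hc0 hc1p
            gcongr
        _ = l * β * c₀ * Real.exp (-(2 * β * R)) * K w := by field_simp
        _ ≤ l * β * (w' - w) * Real.exp (-(β * (w' - w))) * K w := by gcongr
    have h7 : σ * (G w' / Gb - G w / Gb) = σ * (G w' - G w) / Gb := by ring
    rw [h7, ← mul_div_assoc]
    gcongr
  · intro w hw
    have hwR : |w| ≤ R := by
      rcases hw with h | h
      · exact hLH.bL w h
      · exact hLH.bH w h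
    rw [div_le_iff₀ Gbp]
    have h1 := G2 w
    have h2 : G w ≤ Real.exp (β * |w|) * Gb / m1 := by
      rw [le_div_iff₀ m1p]
      exact h1
    refine h2.trans ?_
    have h3 : Real.exp (β * R) / m1 ≤ C := by linarith
    calc Real.exp (β * |w|) * Gb / m1 ≤ Real.exp (β * R) * Gb / m1 := by gcongr
      _ = Real.exp (β * R) / m1 * Gb := by ring
      _ ≤ C * Gb := by gcongr

end Pool.Agent.W_7d29a1_AM
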