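import Pool.Agent.W_7d29a1_AM.DefsAM

/-!
Leaf A1': consequences of the one site calculus.
-/

namespace Pool.Agent.W_7d29a1_AM

open MeasureTheory ProbabilityTheory Filter Topology Pool.Agent.W_7d29a1_h46u

namespace S86

variable {ρ : Measure ℝ}

/-- Two separated bounded sets of positive mass. -/
lemma two86 [IsProbabilityMeasure ρ] (hnc : ∀ c : ℝ, ρ {c} ≠ 1) :
    ∃ x y δ : ℝ, 0 < δ ∧ y = x + 3 * δ ∧ 0 < ρ.real (Set.Icc (x - δ) (x + δ)) ∧
      0 < ρ.real (Set.Icc (y - δ) (y + δ)) := by
  have hsup : ∀ z ∈ ρ.support, ∀ δ : ℝ, 0 < δ → 0 < ρ.real (Set.Icc (z - δ) (z + δ)) := by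
    intro z hz δ hδ
    have h1 : Set.Icc (z - δ) (z + δ) ∈ 𝓝 z := Icc_mem_nhds (by linarith) (by linarith)
    have h2 : 0 < ρ (Set.Icc (z - δ) (z + δ)) := by
      rw [Measure.mem_support_iff_forall] at hz
      exact hz _ h1
    exact ENNReal.toReal_pos h2.ne' (measure_ne_top _ _)
  have hne : ∃ x ∈ ρ.support, ∃ y ∈ ρ.support, x < y := by
    by_contra hcon
    push Not at hcon
    have h1 : ρ (ρ.support)ᶜ = 0 := by
      have := Measure.support_mem_ae (μ := ρ)
      rwa [mem_ae_iff] at this
    have h2 : (ρ.support).Nonempty := by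
      rw [Set.nonempty_iff_ne_empty]
      intro h
      rw [h, Set.compl_empty, measure_univ] at h1
      exact one_ne_zero h1
    obtain ⟨c, hc⟩ := h2
    have h3 : ρ.support ⊆ {c} := fun y hy =>
      le_antisymm (hcon c hc y hy) (hcon y hy c hc)
    have h4 : ρ ({c}ᶜ : Set ℝ) = 0 := measure_mono_null (Set.compl_subset_compl.2 h3) h1
    exact hnc c ((prob_compl_eq_zero_iff (measurableSet_singleton c)).1 h4)
  obtain ⟨x, hx, y, hy, hxy⟩ := hne
  refine ⟨x, y, (y - x) / 3, by linarith, by ring, hsup x hx _ (by linarith),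
    hsup y hy _ (by linarith)⟩

lemma expabs86 [IsProbabilityMeasure ρ] (hρ : EM ρ) (a : ℝ) :
    Integrable (fun z => Real.exp (a * |z|)) ρ := by
  refine ((hρ a).add (hρ (-a))).mono' (by fun_prop) (Eventually.of_forall fun z => ?_)
  rw [Real.norm_eq_abs, abs_of_pos (Real.exp_pos _)]
  show Real.exp (a * |z|) ≤ Real.exp (a * z) + Real.exp (-a * z)
  have h1 := Real.exp_pos (a * z)
  have h2 := Real.exp_pos (-a * z)
  rcases abs_choice z with h | h <;> rw [h]
  · linarith
  · rw [show a * -z = -a * z by ring]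
    linarith

lemma exppos86 [IsProbabilityMeasure ρ] (hρ : EM ρ) (a : ℝ) :
    0 < ∫ z, Real.exp (a * |z|) ∂ρ := integral_exp_pos (expabs86 hρ a)

/-- `|w' - w| ≤ |w'| + |w|` in exponentials. -/
lemma exptri86 {a : ℝ} (ha : 0 ≤ a) (w w' : ℝ) :
    Real.exp (a * |w' - w|) ≤ Real.exp (a * |w'|) * Real.exp (a * |w|) := by
  rw [← Real.exp_add]
  refine Real.exp_le_exp.2 ?_
  have h1 : |w' - w| ≤ |w'| + |w| := abs_sub _ _
  nlinarith

/-- Bounds of a function which changes slowly. -/
lemma slow86 [IsProbabilityMeasure ρ] (hρ : EM ρ) {F : ℝ → ℝ} {a : ℝ} (ha : 0 ≤ a)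
    (hF : Integrable F ρ) (h0 : ∀ w, 0 ≤ F w)
    (hr : ∀ w w', F w' ≤ Real.exp (a * |w' - w|) * F w) (w : ℝ) :
    ∫ z, F z ∂ρ ≤ (∫ z, Real.exp (a * |z|) ∂ρ) * Real.exp (a * |w|) * F w ∧
      F w * ∫ z, Real.exp (-a * |z|) ∂ρ ≤ Real.exp (a * |w|) * ∫ z, F z ∂ρ := by
  constructor
  · rw [mul_assoc, ← integral_mul_const]
    refine integral_mono hF ((expabs86 hρ a).mul_const _) fun z => ?_
    refine (hr w z).trans ?_
    have h1 := mul_le_mul_of_nonneg_right (exptri86 ha w z) (h0 w)
    linarith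
  · rw [← integral_const_mul, ← integral_const_mul]
    refine integral_mono ((expabs86 hρ (-a)).const_mul _) (hF.const_mul _) fun z => ?_
    have h1 := (hr z w).trans (mul_le_mul_of_nonneg_right (exptri86 ha z w) (h0 z))
    have h2 : Real.exp (-a * |z|) * Real.exp (a * |z|) = 1 := by
      rw [← Real.exp_add, neg_mul, neg_add_cancel, Real.exp_zero]
    show F w * Real.exp (-a * |z|) ≤ Real.exp (a * |w|) * F z
    have h3 := mul_le_mul_of_nonneg_right h1 (Real.exp_pos (-a * |z|)).le
    calc F w * Real.exp (-a * |z|) ≤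
        Real.exp (a * |w|) * Real.exp (a * |z|) * F z * Real.exp (-a * |z|) := h3
      _ = Real.exp (a * |w|) * F z * (Real.exp (-a * |z|) * Real.exp (a * |z|)) := by ring
      _ = Real.exp (a * |w|) * F z := by rw [h2, mul_one]

end S86

open S86

/-- **Leaf A1'.** -/
theorem conP86 {ρ : Measure ℝ} [IsProbabilityMeasure ρ] {β : ℝ} (hρ : EM ρ)
    (hnc : ∀ c : ℝ, ρ {c} ≠ 1) (hβ : 0 < β) : ConP ρ β := by
  obtain ⟨x, y, δ, hδ, hy, hL, hH⟩ := two86 hnc
  set L : Set ℝ := Set.Icc (x - δ) (x + δ) with hLd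
  set H : Set ℝ := Set.Icc (y - δ) (y + δ) with hHd
  set R : ℝ := |x| + |y| + δ with hR
  have hR0 : 0 < R := by positivity
  have bL : ∀ w ∈ L, |w| ≤ R := by
    intro w hw
    have h1 := neg_abs_le x
    have h2 := le_abs_self x
    have h3 := abs_nonneg y
    exact abs_le.2 ⟨by linarith [hw.1], by linarith [hw.2]⟩
  have bH : ∀ w ∈ H, |w| ≤ R := by
    intro w hw
    have h1 := neg_abs_le y
    have h2 := le_abs_self y
    have h3 := abs_nonneg x
    exact abs_le.2 ⟨by linarith [hw.1], by linarith [hw.2]⟩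
  have sepd : ∀ w ∈ L, ∀ w' ∈ H, δ ≤ w' - w := by
    intro w hw w' hw'
    have h1 := hw.2
    have h2 := hw'.1
    linarith
  set M1 : ℝ := ∫ z, Real.exp (β * |z|) ∂ρ with hM1
  set M2 : ℝ := ∫ z, Real.exp (2 * β * |z|) ∂ρ with hM2
  set M5 : ℝ := ∫ z, Real.exp (5 * β * |z|) ∂ρ with hM5
  set m1 : ℝ := ∫ z, Real.exp (-β * |z|) ∂ρ with hm1
  set m2 : ℝ := ∫ z, Real.exp (-(2 * β) * |z|) ∂ρ with hm2
  have hM10 : 0 < M1 := exppos86 hρ β
  have hM20 : 0 < M2 := exppos86 hρ (2 * β)
  have hM50 : 0 < M5 := exppos86 hρ (5 * β)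
  have hm10 : 0 < m1 := exppos86 hρ (-β)
  have hm20 : 0 < m2 := exppos86 hρ (-(2 * β))
  set c : ℝ := min (min δ (min (ρ.real L) (ρ.real H)))
    (min (Real.exp (-(2 * β * R)) / M2) (β * δ * Real.exp (-(4 * β * R)) / M2)) with hc
  have hc0 : 0 < c := lt_min (lt_min hδ (lt_min hL hH)) (lt_min (by positivity) (by positivity))
  have hcδ : c ≤ δ := (min_le_left _ _).trans (min_le_left _ _)
  have hcL : c ≤ ρ.real L := (min_le_left _ _).trans ((min_le_right _ _).trans (min_le_left _ _))
  have hcH : c ≤ ρ.real H := (min_le_left _ _).trans ((min_le_right _ _).trans (min_le_right _ _))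
  have hc1 : c ≤ Real.exp (-(2 * β * R)) / M2 := (min_le_right _ _).trans (min_le_left _ _)
  have hc2 : c ≤ β * δ * Real.exp (-(4 * β * R)) / M2 := (min_le_right _ _).trans (min_le_right _ _)
  set C : ℝ := max (max 1 (7 * β)) (max (max (M5 / m2) (M1 / m2)) (Real.exp (β * R) / m1)) with hC
  have hC1 : 1 ≤ C := (le_max_left _ _).trans (le_max_left _ _)
  have hCb : 7 * β ≤ C := (le_max_right _ _).trans (le_max_left _ _)
  have hCa : M5 / m2 ≤ C := (le_max_left _ _).trans ((le_max_left _ _).trans (le_max_right _ _))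
  have hCc : M1 / m2 ≤ C := (le_max_right _ _).trans ((le_max_left _ _).trans (le_max_right _ _))
  have hCe : Real.exp (β * R) / m1 ≤ C := (le_max_right _ _).trans (le_max_right _ _)
  refine ⟨c, R, C, L, H, ⟨hc0, measurableSet_Icc, measurableSet_Icc, hcL, hcH,
    fun w hw w' hw' => hcδ.trans (sepd w hw w' hw'), bL, bH⟩, hC1, ?_⟩
  intro l σ G K hl hl1 hσ hS
  obtain ⟨B, hB⟩ := hS.bddG
  have hGi : Integrable G ρ := Integrable.of_bound (C := B) hS.measG.aestronglyMeasurable
    (Eventually.of_forall fun w => by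
      rw [Real.norm_eq_abs, abs_of_pos (hS.G0 w)]
      exact hB w)
  have hKi : Integrable K ρ := Integrable.of_bound (C := B) hS.measK.aestronglyMeasurable
    (Eventually.of_forall fun w => by
      rw [Real.norm_eq_abs, abs_of_nonneg (hS.K0 w)]
      exact (hS.KG w).trans (hB w))
  set g : ℝ := ∫ z, G z ∂ρ with hg
  set k : ℝ := ∫ z, K z ∂ρ with hk
  have hg0 : 0 < g := by
    rw [hg, integral_pos_iff_support_of_nonneg (fun w => (hS.G0 w).le) hGi]
    have h2 : Function.support G = Set.univ := Set.eq_univ_of_forall fun w => (hS.G0 w).ne'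
    rw [h2, measure_univ]
    exact one_pos
  have hk0 : 0 ≤ k := integral_nonneg hS.K0
  have sK : ∀ w, k ≤ M2 * Real.exp (2 * β * |w|) * K w ∧ K w * m2 ≤ Real.exp (2 * β * |w|) * k :=
    fun w => slow86 hρ (by positivity) hKi hS.K0 hS.rK w
  have sG : ∀ w, g ≤ M1 * Real.exp (β * |w|) * G w ∧ G w * m1 ≤ Real.exp (β * |w|) * g :=
    fun w => slow86 hρ hβ.le hGi (fun w => (hS.G0 w).le) hS.rG w
  have hKlow : ∀ w, |w| ≤ R → Real.exp (-(2 * β * R)) / M2 * k ≤ K w := by
    intro w hw
    have h1 := (sK w).1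
    have h2 : Real.exp (2 * β * |w|) ≤ Real.exp (2 * β * R) :=
      Real.exp_le_exp.2 (mul_le_mul_of_nonneg_left hw (by positivity))
    have h3 : k ≤ M2 * Real.exp (2 * β * R) * K w :=
      h1.trans (mul_le_mul_of_nonneg_right (mul_le_mul_of_nonneg_left h2 hM20.le) (hS.K0 w))
    rw [div_mul_eq_mul_div, div_le_iff₀ hM20]
    have h4 := mul_le_mul_of_nonneg_left h3 (Real.exp_pos (-(2 * β * R))).le
    have h5 : Real.exp (-(2 * β * R)) * Real.exp (2 * β * R) = 1 := by
      rw [← Real.exp_add, neg_add_cancel, Real.exp_zero]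
    calc Real.exp (-(2 * β * R)) * k ≤
        Real.exp (-(2 * β * R)) * (M2 * Real.exp (2 * β * R) * K w) := h4
      _ = Real.exp (-(2 * β * R)) * Real.exp (2 * β * R) * (K w * M2) := by ring
      _ = K w * M2 := by rw [h5, one_mul]
  -- the increment of `G`
  have hdiff : ∀ w w' : ℝ, |G w - G w'| ≤ l * K w * Real.exp (5 * β * |w' - w|) := by
    have key : ∀ w w' : ℝ, w ≤ w' → |G w' - G w| ≤
        l * (β * (w' - w)) * Real.exp (2 * β * (w' - w)) * K w := by
      intro w w' hw
      have h1 := hS.lo w w' hw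
      have h2 := hS.up w w' hw
      have h3 : 0 ≤ l * β * (w' - w) * Real.exp (-(β * (w' - w))) * K w := by
        have := hS.K0 w
        have h4 : 0 ≤ w' - w := by linarith
        positivity
      have h5 : 0 ≤ σ * (G w' - G w) := h3.trans h1
      have h6 : |G w' - G w| = σ * (G w' - G w) := by
        rcases hσ with h | h
        · rw [h, one_mul] at h5 ⊢
          exact abs_of_nonneg h5
        · rw [h] at h5 ⊢
          rw [← abs_neg, abs_of_nonneg (by linarith)]
          ring
      rw [h6]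
      refine h2.trans (le_of_eq ?_)
      ring
    have hte : ∀ t : ℝ, 0 ≤ t → β * t * Real.exp (4 * β * t) ≤ Real.exp (5 * β * t) := by
      intro t ht
      have h1 : β * t ≤ Real.exp (β * t) := by
        have := Real.add_one_le_exp (β * t)
        linarith
      calc β * t * Real.exp (4 * β * t) ≤ Real.exp (β * t) * Real.exp (4 * β * t) :=
            mul_le_mul_of_nonneg_right h1 (Real.exp_pos _).le
        _ = _ := by
          rw [← Real.exp_add]
          congr 1
          ring
    intro w w'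
    rcases le_total w w' with h | h
    · have h0 : 0 ≤ w' - w := by linarith
      rw [abs_sub_comm, abs_of_nonneg h0]
      refine (key w w' h).trans ?_
      have h1 : Real.exp (2 * β * (w' - w)) ≤ Real.exp (4 * β * (w' - w)) :=
        Real.exp_le_exp.2 (by nlinarith)
      have h2 := hte (w' - w) h0
      have h3 : β * (w' - w) * Real.exp (2 * β * (w' - w)) ≤ Real.exp (5 * β * (w' - w)) :=
        (mul_le_mul_of_nonneg_left h1 (by positivity)).trans h2
      have h4 := mul_le_mul_of_nonneg_left h3 (mul_nonneg hl.le (hS.K0 w))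
      calc l * (β * (w' - w)) * Real.exp (2 * β * (w' - w)) * K w =
          l * K w * (β * (w' - w) * Real.exp (2 * β * (w' - w))) := by ring
        _ ≤ _ := h4
    · have h0 : 0 ≤ w - w' := by linarith
      rw [abs_sub_comm w' w, abs_of_nonneg h0]
      refine (key w' w h).trans ?_
      have hr := hS.rK w w'
      rw [abs_sub_comm, abs_of_nonneg h0] at hr
      have h2 := hte (w - w') h0
      have h5 : Real.exp (2 * β * (w - w')) * Real.exp (2 * β * (w - w')) =
          Real.exp (4 * β * (w - w')) := by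
        rw [← Real.exp_add]
        congr 1
        ring
      calc l * (β * (w - w')) * Real.exp (2 * β * (w - w')) * K w' ≤
          l * (β * (w - w')) * Real.exp (2 * β * (w - w')) *
            (Real.exp (2 * β * (w - w')) * K w) :=
            mul_le_mul_of_nonneg_left hr (by positivity)
        _ = l * K w * (β * (w - w') *
            (Real.exp (2 * β * (w - w')) * Real.exp (2 * β * (w - w')))) := by ring
        _ = l * K w * (β * (w - w') * Real.exp (4 * β * (w - w'))) := by rw [h5]
        _ ≤ _ := mul_le_mul_of_nonneg_left h2 (mul_nonneg hl.le (hS.K0 w))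
  have hdev : ∀ w, |G w - g| ≤ l * K w * (M5 * Real.exp (5 * β * |w|)) := by
    intro w
    have e1 : G w - g = ∫ z, (G w - G z) ∂ρ := by
      rw [integral_sub (integrable_const _) hGi, integral_const, probReal_univ, one_smul]
    rw [e1]
    refine (abs_integral_le_integral_abs).trans ?_
    rw [hM5, ← integral_mul_const, ← integral_const_mul]
    refine integral_mono (((integrable_const _).sub hGi).abs)
      (((expabs86 hρ (5 * β)).mul_const _).const_mul _) fun z => ?_
    refine (hdiff w z).trans ?_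
    exact mul_le_mul_of_nonneg_left (exptri86 (by positivity) w z)
      (mul_nonneg hl.le (hS.K0 w))
  have hKup : ∀ w, K w ≤ Real.exp (2 * β * |w|) * k / m2 := by
    intro w
    rw [le_div_iff₀ hm20]
    exact (sK w).2
  refine ⟨fun w => ?_, fun w => ?_, fun w hw => ?_, fun w hw w' hw' => ?_, fun w hw => ?_⟩
  · -- (a)
    have e1 : G w / g - 1 = (G w - g) / g := by
      field_simp
    rw [e1, abs_div, abs_of_pos hg0, div_le_iff₀ hg0]
    refine (hdev w).trans ?_
    have h1 := hKup w
    have h2 : l * K w * (M5 * Real.exp (5 * β * |w|)) ≤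
        l * (Real.exp (2 * β * |w|) * k / m2) * (M5 * Real.exp (5 * β * |w|)) :=
      mul_le_mul_of_nonneg_right (mul_le_mul_of_nonneg_left h1 hl.le) (by positivity)
    refine h2.trans ?_
    have h3 : Real.exp (2 * β * |w|) * Real.exp (5 * β * |w|) ≤ Real.exp (C * |w|) := by
      rw [← Real.exp_add]
      refine Real.exp_le_exp.2 ?_
      nlinarith [abs_nonneg w]
    have h4 : M5 / m2 * (Real.exp (2 * β * |w|) * Real.exp (5 * β * |w|)) ≤
        C * Real.exp (C * |w|) := mul_le_mul hCa h3 (by positivity) (by linarith)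
    calc l * (Real.exp (2 * β * |w|) * k / m2) * (M5 * Real.exp (5 * β * |w|)) =
        l * k * (M5 / m2 * (Real.exp (2 * β * |w|) * Real.exp (5 * β * |w|))) := by
          field_simp
      _ ≤ l * k * (C * Real.exp (C * |w|)) := mul_le_mul_of_nonneg_left h4 (by positivity)
      _ = l * C * Real.exp (C * |w|) * (k / g) * g := by
        field_simp
  · -- (b)
    have h1 := hKup w
    have h2 := (sG w).1
    rw [div_le_iff₀ (hS.G0 w)]
    refine h1.trans ?_
    have h3 : Real.exp (2 * β * |w|) * Real.exp (β * |w|) ≤ Real.exp (C * |w|) := by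
      rw [← Real.exp_add]
      refine Real.exp_le_exp.2 ?_
      nlinarith [abs_nonneg w]
    have h4 : M1 / m2 * (Real.exp (2 * β * |w|) * Real.exp (β * |w|)) ≤
        C * Real.exp (C * |w|) := mul_le_mul hCc h3 (by positivity) (by linarith)
    calc Real.exp (2 * β * |w|) * k / m2 =
        Real.exp (2 * β * |w|) * k / m2 / g * g := by
          field_simp
      _ ≤ Real.exp (2 * β * |w|) * k / m2 / g * (M1 * Real.exp (β * |w|) * G w) :=
          mul_le_mul_of_nonneg_left h2 (by positivity)
      _ = M1 / m2 * (Real.exp (2 * β * |w|) * Real.exp (β * |w|)) * (k / g) * G w := by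
        field_simp
      _ ≤ C * Real.exp (C * |w|) * (k / g) * G w :=
        mul_le_mul_of_nonneg_right (mul_le_mul_of_nonneg_right h4 (by positivity)) (hS.G0 w).le
  · -- (c)
    rw [← mul_div_assoc]
    refine div_le_div_of_nonneg_right ?_ hg0.le
    exact (mul_le_mul_of_nonneg_right hc1 hk0).trans (hKlow w (bL w hw))
  · -- (d)
    have h1 := hS.lo w w' (by linarith [sepd w hw w' hw'])
    have hd := sepd w hw w' hw'
    have hd2 : w' - w ≤ 2 * R := by
      have h2 := (abs_le.1 (bL w hw)).1
      have h3 := (abs_le.1 (bH w' hw')).2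
      linarith
    have h4 : Real.exp (-(2 * β * R)) ≤ Real.exp (-(β * (w' - w))) :=
      Real.exp_le_exp.2 (by nlinarith)
    have h5 : l * β * δ * Real.exp (-(2 * β * R)) * (Real.exp (-(2 * β * R)) / M2 * k) ≤
        l * β * (w' - w) * Real.exp (-(β * (w' - w))) * K w := by
      refine mul_le_mul ?_ (hKlow w (bL w hw)) (by positivity)
        (mul_nonneg (mul_nonneg (by positivity) (by linarith)) (Real.exp_pos _).le)
      exact mul_le_mul (mul_le_mul_of_nonneg_left hd (by positivity)) h4 (Real.exp_pos _).le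
        (mul_nonneg (by positivity) (by linarith))
    have h6 : c * l * k ≤ σ * (G w' - G w) := by
      refine le_trans ?_ (h5.trans h1)
      have h7 : Real.exp (-(2 * β * R)) * Real.exp (-(2 * β * R)) = Real.exp (-(4 * β * R)) := by
        rw [← Real.exp_add]
        congr 1
        ring
      calc c * l * k ≤ β * δ * Real.exp (-(4 * β * R)) / M2 * l * k :=
            mul_le_mul_of_nonneg_right (mul_le_mul_of_nonneg_right hc2 hl.le) hk0
        _ = l * β * δ * Real.exp (-(2 * β * R)) * (Real.exp (-(2 * β * R)) / M2 * k) := by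
          rw [← h7]
          field_simp
    calc c * l * (k / g) = c * l * k / g := by ring
      _ ≤ σ * (G w' - G w) / g := div_le_div_of_nonneg_right h6 hg0.le
      _ = _ := by ring
  · -- (e)
    have hwR : |w| ≤ R := by
      rcases hw with h | h
      · exact bL w h
      · exact bH w h
    rw [div_le_iff₀ hg0]
    have h1 := (sG w).2
    have h2 : Real.exp (β * |w|) ≤ Real.exp (β * R) :=
      Real.exp_le_exp.2 (mul_le_mul_of_nonneg_left hwR hβ.le)
    have h3 : G w ≤ Real.exp (β * R) / m1 * g := by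
      rw [div_mul_eq_mul_div, le_div_iff₀ hm10]
      exact h1.trans (mul_le_mul_of_nonneg_right h2 hg0.le)
    exact h3.trans (mul_le_mul_of_nonneg_right hCe hg0.le)

end Pool.Agent.W_7d29a1_AM
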