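import Pool.Agent.W_7d29a1_AM.DefsAM

/-!
AMP for every law, leaf A2: the coupling lemma (helper95).
-/

namespace Pool.Agent.W_7d29a1_AM.C95

open MeasureTheory Filter Topology Pool.Agent.W_7d29a1_h46u

lemma int_exp_abs {ρ : Measure ℝ} (hρ : EM ρ) (c : ℝ) :
    Integrable (fun w => Real.exp (c * |w|)) ρ := by
  refine ((hρ c).add (hρ (-c))).mono' (by fun_prop) (ae_of_all _ fun w => ?_)
  rw [Real.norm_eq_abs, abs_of_pos (Real.exp_pos _)]
  show _ ≤ Real.exp (c * w) + Real.exp (-c * w)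
  rcases abs_cases w with ⟨h, _⟩ | ⟨h, _⟩
  · rw [h]
    linarith [Real.exp_pos (-c * w)]
  · rw [h, show c * -w = -c * w by ring]
    linarith [Real.exp_pos (c * w)]

lemma int_e {ρ : Measure ℝ} (hρ : EM ρ) (c : ℝ) :
    Integrable (fun w => (1 + |w|) * Real.exp (c * |w|)) ρ := by
  refine (int_exp_abs hρ (c + 1)).mono' (by fun_prop) (ae_of_all _ fun w => ?_)
  have h1 : 0 ≤ (1 + |w|) * Real.exp (c * |w|) := by positivity
  rw [Real.norm_eq_abs, abs_of_nonneg h1, show (c + 1) * |w| = |w| + c * |w| by ring, Real.exp_add]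
  refine mul_le_mul_of_nonneg_right ?_ (Real.exp_pos _).le
  linarith [Real.add_one_le_exp |w|]

lemma ebd {C δ : ℝ} (hC : 0 ≤ C) (hδ : 0 ≤ δ) (w x : ℝ) (hx : x ≤ C * δ * Real.exp (C * |w|)) :
    x ≤ C * δ * ((1 + |w|) * Real.exp (2 * C * |w|)) := by
  have h1 : Real.exp (C * |w|) ≤ Real.exp (2 * C * |w|) := by
    apply Real.exp_le_exp.2
    have := abs_nonneg w
    nlinarith
  have h2 : Real.exp (2 * C * |w|) ≤ (1 + |w|) * Real.exp (2 * C * |w|) := by
    have := mul_nonneg (abs_nonneg w) (Real.exp_pos (2 * C * |w|)).le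
    linarith
  exact hx.trans (mul_le_mul_of_nonneg_left (h1.trans h2) (mul_nonneg hC hδ))

lemma ebd' {C δ : ℝ} (hC : 0 ≤ C) (hδ : 0 ≤ δ) (w x : ℝ) (hx0 : 0 ≤ x)
    (hx : x ≤ C * δ * Real.exp (C * |w|)) :
    |w * x| ≤ C * δ * ((1 + |w|) * Real.exp (2 * C * |w|)) := by
  rw [abs_mul, abs_of_nonneg hx0]
  have h1 : Real.exp (C * |w|) ≤ Real.exp (2 * C * |w|) := by
    apply Real.exp_le_exp.2
    have := abs_nonneg w
    nlinarith
  have h3 : |w| * x ≤ |w| * (C * δ * Real.exp (2 * C * |w|)) :=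
    mul_le_mul_of_nonneg_left (hx.trans (mul_le_mul_of_nonneg_left h1 (mul_nonneg hC hδ)))
      (abs_nonneg w)
  have h4 : 0 ≤ C * δ * Real.exp (2 * C * |w|) := mul_nonneg (mul_nonneg hC hδ) (Real.exp_pos _).le
  nlinarith

/-- The common part of two densities. -/
lemma common {ρ : Measure ℝ} {r s a b P Q : ℝ → ℝ} (PQ : ∀ w, r w - P w = s w - Q w)
    (Pr : ∀ w, P w ≤ r w) (hab : ∀ w, b w ≤ a w)
    (ibr : Integrable (fun w => b w * r w) ρ) (ibP : Integrable (fun w => b w * P w) ρ)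
    (ias : Integrable (fun w => a w * s w) ρ) (iaQ : Integrable (fun w => a w * Q w) ρ) :
    ∫ w, b w * r w ∂ρ - ∫ w, b w * P w ∂ρ ≤ ∫ w, a w * s w ∂ρ - ∫ w, a w * Q w ∂ρ := by
  rw [← integral_sub ibr ibP, ← integral_sub ias iaQ]
  refine integral_mono (ibr.sub ibP) (ias.sub iaQ) fun w => ?_
  show b w * r w - b w * P w ≤ a w * s w - a w * Q w
  have h1 : b w * r w - b w * P w = b w * (r w - P w) := by ring
  have h2 : a w * s w - a w * Q w = a w * (r w - P w) := by rw [PQ w]; ring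
  rw [h1, h2]
  exact mul_le_mul_of_nonneg_right (hab w) (by linarith [Pr w])

/-- The mass which moves is bounded below. -/
lemma mass_low {ρ : Measure ℝ} [IsFiniteMeasure ρ] {F : ℝ → ℝ} {S : Set ℝ} {c x : ℝ}
    (hx : 0 ≤ x) (iF : Integrable F ρ) (F0 : ∀ w, 0 ≤ F w) (hS : MeasurableSet S)
    (hcS : c ≤ ρ.real S) (hF : ∀ w ∈ S, x ≤ F w) : x * c ≤ ∫ w, F w ∂ρ := by
  calc x * c ≤ x * ρ.real S := mul_le_mul_of_nonneg_left hcS hx
    _ = ∫ w in S, x ∂ρ := by rw [setIntegral_const, smul_eq_mul, mul_comm]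
    _ ≤ ∫ w in S, F w ∂ρ := setIntegral_mono_on (integrable_const _).integrableOn
        iF.integrableOn hS hF
    _ ≤ ∫ w, F w ∂ρ := setIntegral_le_integral iF (ae_of_all _ F0)

/-- The cost of the moves. -/
lemma moves {ρ : Measure ℝ} {P Q a b κ : ℝ → ℝ} {β C δ π : ℝ} (hβ : 0 ≤ β) (hC : 0 ≤ C)
    (hδ : 0 ≤ δ) (hπ : 0 ≤ π) (P0 : ∀ w, 0 ≤ P w) (Q0 : ∀ w, 0 ≤ Q w) (mQ : Measurable Q)
    (iP : Integrable P ρ) (iQ : Integrable Q ρ) (hPQ : ∫ w, Q w ∂ρ = ∫ w, P w ∂ρ)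
    (Ple : ∀ w, P w ≤ C * δ * Real.exp (C * |w|)) (Qle : ∀ w, Q w ≤ C * δ * Real.exp (C * |w|))
    (κ0 : ∀ w, 0 ≤ κ w) (κle : ∀ w, κ w ≤ C * Real.exp (C * |w|) * π)
    (ie : Integrable (fun w => (1 + |w|) * Real.exp (2 * C * |w|)) ρ)
    (ibP : Integrable (fun w => b w * P w) ρ) (iaQ : Integrable (fun w => a w * Q w) ρ)
    (hab : ∀ w w₁, 0 < P w₁ → 0 < Q w → b w₁ - β * (w₁ - w) * κ w₁ ≤ a w) :
    (∫ w, P w ∂ρ) * (∫ w, b w * P w ∂ρ - ∫ w, a w * Q w ∂ρ) ≤
      β * C ^ 3 * π * δ ^ 2 * (∫ w, (1 + |w|) * Real.exp (2 * C * |w|) ∂ρ) ^ 2 := by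
  obtain ⟨M, hM⟩ : ∃ M, M = ∫ w, (1 + |w|) * Real.exp (2 * C * |w|) ∂ρ := ⟨_, rfl⟩
  obtain ⟨T, hT⟩ : ∃ T, T = ∫ w, P w ∂ρ := ⟨_, rfl⟩
  obtain ⟨A, hA⟩ : ∃ A, A = ∫ w, a w * Q w ∂ρ := ⟨_, rfl⟩
  obtain ⟨S, hS⟩ : ∃ S, S = ∫ w, w * Q w ∂ρ := ⟨_, rfl⟩
  have T0 : 0 ≤ T := by rw [hT]; exact integral_nonneg P0
  have M0 : 0 ≤ M := by rw [hM]; exact integral_nonneg fun w => by positivity
  have iwQ : Integrable (fun w => w * Q w) ρ :=
    (ie.const_mul (C * δ)).mono' (measurable_id.mul mQ).aestronglyMeasurable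
      (ae_of_all _ fun w => ebd' hC hδ w _ (Q0 w) (Qle w))
  have Sle : |S| ≤ C * δ * M := by
    rw [hS, hM, ← integral_const_mul]
    exact (abs_integral_le_integral_abs).trans (integral_mono iwQ.abs (ie.const_mul _) fun w =>
      ebd' hC hδ w _ (Q0 w) (Qle w))
  have Tle : T ≤ C * δ * M := by
    rw [hT, hM, ← integral_const_mul]
    exact integral_mono iP (ie.const_mul _) fun w => ebd hC hδ w _ (Ple w)
  rw [← hM, ← hT, ← hA]
  have hpt : ∀ w₁, T * (b w₁ * P w₁) ≤ A * P w₁ +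
      β * (C ^ 3 * π * δ ^ 2 * M) * ((1 + |w₁|) * Real.exp (2 * C * |w₁|)) := fun w₁ => by
    have cc : 0 ≤ β * (C ^ 3 * π * δ ^ 2 * M) := by positivity
    rcases (P0 w₁).eq_or_lt with hp | hp
    · rw [← hp, mul_zero, mul_zero, mul_zero, zero_add]
      positivity
    have hin : T * b w₁ - β * κ w₁ * (w₁ * T - S) ≤ A := by
      have e4 : ∫ w, (b w₁ * Q w - β * κ w₁ * (w₁ * Q w - w * Q w)) ∂ρ =
          T * b w₁ - β * κ w₁ * (w₁ * T - S) := by
        have i5 : Integrable (fun w => w₁ * Q w) ρ := iQ.const_mul w₁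
        have i6 : Integrable (fun w => w₁ * Q w - w * Q w) ρ := i5.sub iwQ
        have i7 : Integrable (fun w => β * κ w₁ * (w₁ * Q w - w * Q w)) ρ := i6.const_mul _
        have i8 : Integrable (fun w => b w₁ * Q w) ρ := iQ.const_mul _
        rw [integral_sub i8 i7, integral_const_mul, integral_const_mul, integral_sub i5 iwQ,
          integral_const_mul, hPQ, ← hS, ← hT]
        ring
      rw [← e4, hA]
      refine integral_mono ((iQ.const_mul _).sub (((iQ.const_mul _).sub iwQ).const_mul _)) iaQ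
        fun w => ?_
      show b w₁ * Q w - β * κ w₁ * (w₁ * Q w - w * Q w) ≤ a w * Q w
      rcases (Q0 w).eq_or_lt with hq | hq
      · rw [← hq]; simp
      have h5 := mul_le_mul_of_nonneg_right (hab w w₁ hp hq) hq.le
      calc b w₁ * Q w - β * κ w₁ * (w₁ * Q w - w * Q w)
          = (b w₁ - β * (w₁ - w) * κ w₁) * Q w := by ring
        _ ≤ a w * Q w := h5
    have hb1 : |w₁ * T - S| ≤ (1 + |w₁|) * (C * δ * M) := by
      have h6 : |w₁ * T - S| ≤ |w₁ * T| + |S| := abs_sub _ _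
      rw [abs_mul, abs_of_nonneg T0] at h6
      have h7 := mul_le_mul_of_nonneg_left Tle (abs_nonneg w₁)
      linarith
    have hb2 : β * κ w₁ * (w₁ * T - S) * P w₁ ≤
        β * (C ^ 3 * π * δ ^ 2 * M) * ((1 + |w₁|) * Real.exp (2 * C * |w₁|)) := by
      have k1 : 0 ≤ β * κ w₁ := mul_nonneg hβ (κ0 w₁)
      have k2 : β * κ w₁ ≤ β * (C * Real.exp (C * |w₁|) * π) :=
        mul_le_mul_of_nonneg_left (κle w₁) hβ
      have k3 : 0 ≤ (1 + |w₁|) * (C * δ * M) := by positivity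
      have k4 : β * κ w₁ * (w₁ * T - S) ≤
          β * (C * Real.exp (C * |w₁|) * π) * ((1 + |w₁|) * (C * δ * M)) :=
        (mul_le_mul_of_nonneg_left ((le_abs_self _).trans hb1) k1).trans
          (mul_le_mul_of_nonneg_right k2 k3)
      have k5 : 0 ≤ β * (C * Real.exp (C * |w₁|) * π) * ((1 + |w₁|) * (C * δ * M)) := by positivity
      calc β * κ w₁ * (w₁ * T - S) * P w₁
          ≤ β * (C * Real.exp (C * |w₁|) * π) * ((1 + |w₁|) * (C * δ * M)) * P w₁ :=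
            mul_le_mul_of_nonneg_right k4 (P0 w₁)
        _ ≤ β * (C * Real.exp (C * |w₁|) * π) * ((1 + |w₁|) * (C * δ * M)) *
              (C * δ * Real.exp (C * |w₁|)) := mul_le_mul_of_nonneg_left (Ple w₁) k5
        _ = _ := by
            rw [show 2 * C * |w₁| = C * |w₁| + C * |w₁| by ring, Real.exp_add]
            ring
    have h8 := mul_le_mul_of_nonneg_right hin (P0 w₁)
    have h9 : (T * b w₁ - β * κ w₁ * (w₁ * T - S)) * P w₁ =
        T * (b w₁ * P w₁) - β * κ w₁ * (w₁ * T - S) * P w₁ := by ring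
    rw [h9] at h8
    linarith
  have hint := integral_mono (ibP.const_mul T) ((iP.const_mul A).add (ie.const_mul
    (β * (C ^ 3 * π * δ ^ 2 * M)))) hpt
  rw [integral_const_mul] at hint
  have e1 : ∫ w, (fun w => A * P w) w + (fun w => β * (C ^ 3 * π * δ ^ 2 * M) *
      ((1 + |w|) * Real.exp (2 * C * |w|))) w ∂ρ = A * T + β * (C ^ 3 * π * δ ^ 2 * M) * M := by
    rw [integral_add (iP.const_mul _) (ie.const_mul _), integral_const_mul, integral_const_mul,
      ← hT, ← hM]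
  have hint2 : T * ∫ w, b w * P w ∂ρ ≤ A * T + β * (C ^ 3 * π * δ ^ 2 * M) * M := by
    rw [← e1]
    exact hint
  calc T * (∫ w, b w * P w ∂ρ - A) = T * ∫ w, b w * P w ∂ρ - A * T := by ring
    _ ≤ β * (C ^ 3 * π * δ ^ 2 * M) * M := by linarith
    _ = β * C ^ 3 * π * δ ^ 2 * M ^ 2 := by ring

/-- The coupling lemma for two densities. -/
lemma core {ρ : Measure ℝ} [IsProbabilityMeasure ρ] {r s a b κ : ℝ → ℝ} {L H : Set ℝ}
    {β C δ π c Mb Ma : ℝ} (hβ : 0 ≤ β) (hC : 0 ≤ C) (hδ : 0 ≤ δ) (hπ : 0 ≤ π) (hc : 0 < c)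
    (mL : MeasurableSet L) (mH : MeasurableSet H) (cL : c ≤ ρ.real L) (cH : c ≤ ρ.real H)
    (mr : Measurable r) (ms : Measurable s) (ma : Measurable a) (mb : Measurable b)
    (r0 : ∀ w, 0 ≤ r w) (s0 : ∀ w, 0 ≤ s w) (a0 : ∀ w, 0 ≤ a w) (κ0 : ∀ w, 0 ≤ κ w)
    (ir : Integrable r ρ) (is : Integrable s ρ) (r1 : ∫ w, r w ∂ρ = 1) (s1 : ∫ w, s w ∂ρ = 1)
    (dm : ∀ w w', w ≤ w' → r w - s w ≤ r w' - s w')
    (dle : ∀ w, |r w - s w| ≤ C * δ * Real.exp (C * |w|))
    (key : ∀ w ∈ L, ∀ w' ∈ H, c * δ ≤ (r w' - s w') - (r w - s w))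
    (κle : ∀ w, κ w ≤ C * Real.exp (C * |w|) * π)
    (ie : Integrable (fun w => (1 + |w|) * Real.exp (2 * C * |w|)) ρ)
    (hMb : ∀ w, |b w| ≤ Mb) (hMa : ∀ w, a w * s w ≤ Ma)
    (hab : ∀ w w₁, w ≤ w₁ → b w₁ - β * (w₁ - w) * κ w₁ ≤ a w) :
    ∫ w, b w * r w ∂ρ ≤ ∫ w, a w * s w ∂ρ +
      2 * β * C ^ 3 * (∫ w, (1 + |w|) * Real.exp (2 * C * |w|) ∂ρ) ^ 2 / c ^ 2 * (π * δ) := by
  obtain ⟨M, hM⟩ : ∃ M, M = ∫ w, (1 + |w|) * Real.exp (2 * C * |w|) ∂ρ := ⟨_, rfl⟩
  obtain ⟨P, hP⟩ : ∃ P : ℝ → ℝ, P = fun w => max (r w - s w) 0 := ⟨_, rfl⟩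
  obtain ⟨Q, hQ⟩ : ∃ Q : ℝ → ℝ, Q = fun w => max (-(r w - s w)) 0 := ⟨_, rfl⟩
  have mP : Measurable P := by rw [hP]; exact (mr.sub ms).max measurable_const
  have mQ : Measurable Q := by rw [hQ]; exact (mr.sub ms).neg.max measurable_const
  have P0 : ∀ w, 0 ≤ P w := fun w => by rw [hP]; exact le_max_right _ _
  have Q0 : ∀ w, 0 ≤ Q w := fun w => by rw [hQ]; exact le_max_right _ _
  have PQ : ∀ w, r w - P w = s w - Q w := fun w => by
    simp only [hP, hQ]
    rcases le_total (r w - s w) 0 with h | h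
    · rw [max_eq_right h, max_eq_left (by linarith)]; ring
    · rw [max_eq_left h, max_eq_right (by linarith)]; ring
  have Pr : ∀ w, P w ≤ r w := fun w => by
    rw [hP]; exact max_le (by linarith [s0 w]) (r0 w)
  have Qs : ∀ w, Q w ≤ s w := fun w => by
    rw [hQ]; exact max_le (by linarith [r0 w]) (s0 w)
  have iP : Integrable P ρ := ir.mono' mP.aestronglyMeasurable (ae_of_all _ fun w => by
    rw [Real.norm_eq_abs, abs_of_nonneg (P0 w)]; exact Pr w)
  have iQ : Integrable Q ρ := is.mono' mQ.aestronglyMeasurable (ae_of_all _ fun w => by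
    rw [Real.norm_eq_abs, abs_of_nonneg (Q0 w)]; exact Qs w)
  have TQ : ∫ w, Q w ∂ρ = ∫ w, P w ∂ρ := by
    have e1 : ∫ w, (r w - P w) ∂ρ = ∫ w, (s w - Q w) ∂ρ := integral_congr_ae (ae_of_all _ PQ)
    rw [integral_sub ir iP, integral_sub is iQ, r1, s1] at e1
    linarith
  have Ple : ∀ w, P w ≤ C * δ * Real.exp (C * |w|) := fun w => by
    rw [hP]
    exact max_le ((le_abs_self _).trans (dle w)) (by positivity)
  have Qle : ∀ w, Q w ≤ C * δ * Real.exp (C * |w|) := fun w => by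
    rw [hQ]
    exact max_le ((neg_le_abs _).trans (dle w)) (by positivity)
  have ibP : Integrable (fun w => b w * P w) ρ :=
    (iP.const_mul Mb).mono' (mb.mul mP).aestronglyMeasurable (ae_of_all _ fun w => by
      rw [Real.norm_eq_abs, abs_mul, abs_of_nonneg (P0 w)]
      exact mul_le_mul_of_nonneg_right (hMb w) (P0 w))
  have ibr : Integrable (fun w => b w * r w) ρ :=
    (ir.const_mul Mb).mono' (mb.mul mr).aestronglyMeasurable (ae_of_all _ fun w => by
      rw [Real.norm_eq_abs, abs_mul, abs_of_nonneg (r0 w)]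
      exact mul_le_mul_of_nonneg_right (hMb w) (r0 w))
  have ias : Integrable (fun w => a w * s w) ρ :=
    (integrable_const Ma).mono' (ma.mul ms).aestronglyMeasurable (ae_of_all _ fun w => by
      rw [Real.norm_eq_abs, abs_of_nonneg (mul_nonneg (a0 w) (s0 w))]
      exact hMa w)
  have iaQ : Integrable (fun w => a w * Q w) ρ :=
    ias.mono' (ma.mul mQ).aestronglyMeasurable (ae_of_all _ fun w => by
      rw [Real.norm_eq_abs, abs_of_nonneg (mul_nonneg (a0 w) (Q0 w))]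
      exact mul_le_mul_of_nonneg_left (Qs w) (a0 w))
  have hcom := common PQ Pr (fun w => by have := hab w w le_rfl; simpa using this) ibr ibP ias iaQ
  rw [← hM]
  rcases hδ.eq_or_lt with h0 | h0
  · have hP0 : ∀ w, P w = 0 := fun w => le_antisymm (by
      have := Ple w; rw [← h0] at this; simpa using this) (P0 w)
    have hQ0 : ∀ w, Q w = 0 := fun w => le_antisymm (by
      have := Qle w; rw [← h0] at this; simpa using this) (Q0 w)
    simp only [hP0, hQ0, mul_zero, integral_zero, sub_zero] at hcom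
    rw [← h0, mul_zero, mul_zero, add_zero]
    exact hcom
  have hTlow : c ^ 2 / 2 * δ ≤ ∫ w, P w ∂ρ := by
    by_cases hH : ∀ w' ∈ H, c * δ / 2 ≤ r w' - s w'
    · have := mass_low (x := c * δ / 2) (by positivity) iP P0 mH cH fun w hw => (hH w hw).trans (by
        rw [hP]; exact le_max_left _ _)
      calc c ^ 2 / 2 * δ = c * δ / 2 * c := by ring
        _ ≤ _ := this
    · push Not at hH
      obtain ⟨w', hw', hlt⟩ := hH
      rw [← TQ]
      have := mass_low (x := c * δ / 2) (by positivity) iQ Q0 mL cL fun w hw => by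
        have h1 := key w hw w' hw'
        have h2 : -(r w - s w) ≤ Q w := by rw [hQ]; exact le_max_left _ _
        linarith
      calc c ^ 2 / 2 * δ = c * δ / 2 * c := by ring
        _ ≤ _ := this
  have hmov := moves (ρ := ρ) (a := a) (b := b) hβ hC hδ hπ P0 Q0 mQ iP iQ TQ Ple Qle κ0 κle ie ibP
    iaQ (fun w w₁ hp hq => hab w w₁ (by
      by_contra hcon
      push Not at hcon
      have h1 := dm w₁ w hcon.le
      have h2 : 0 < r w₁ - s w₁ := by
        by_contra h; push Not at h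
        have : P w₁ = 0 := by rw [hP]; exact max_eq_right h
        linarith
      have h3 : r w - s w < 0 := by
        by_contra h; push Not at h
        have : Q w = 0 := by rw [hQ]; exact max_eq_right (by linarith)
        linarith
      linarith))
  rw [← hM] at hmov
  obtain ⟨T, hT⟩ : ∃ T, T = ∫ w, P w ∂ρ := ⟨_, rfl⟩
  rw [← hT] at hmov hTlow
  have Tpos : 0 < T := lt_of_lt_of_le (by positivity) hTlow
  have e7 : 0 ≤ 2 * β * C ^ 3 * M ^ 2 / c ^ 2 * (π * δ) := by positivity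
  have hfin : ∫ w, b w * P w ∂ρ - ∫ w, a w * Q w ∂ρ ≤ 2 * β * C ^ 3 * M ^ 2 / c ^ 2 * (π * δ) := by
    refine le_of_mul_le_mul_left (hmov.trans ?_) Tpos
    calc β * C ^ 3 * π * δ ^ 2 * M ^ 2
        = (c ^ 2 / 2 * δ) * (2 * β * C ^ 3 * M ^ 2 / c ^ 2 * (π * δ)) := by
          field_simp
      _ ≤ T * (2 * β * C ^ 3 * M ^ 2 / c ^ 2 * (π * δ)) := mul_le_mul_of_nonneg_right hTlow e7
  linarith

end C95

open MeasureTheory Filter Topology Pool.Agent.W_7d29a1_h46u C95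

theorem couP95 {ρ : Measure ℝ} [IsProbabilityMeasure ρ] (hρ : EM ρ) {β : ℝ} (hβ : 0 ≤ β)
    (hC : ConP ρ β) : CouP ρ β := by
  obtain ⟨c, R, C, L, H, hLH, hC1, hcon⟩ := hC
  have hc := hLH.c0
  refine ⟨2 * β * C ^ 3 * (∫ w, (1 + |w|) * Real.exp (2 * C * |w|) ∂ρ) ^ 2 / c ^ 2 + 1,
    by positivity, ?_⟩
  intro l G K G' K' a b hl hl1 hS hS' ma mb ha ⟨Mb, hMb⟩ ⟨Ma, hMa⟩ hab
  obtain ⟨h1, h2, -, h4, -⟩ := hcon l 1 G K hl hl1 (Or.inl rfl) hS
  obtain ⟨h1', -, -, h4', -⟩ := hcon l (-1) G' K' hl hl1 (Or.inr rfl) hS'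
  obtain ⟨BG, hBG⟩ := hS.bddG
  obtain ⟨BG', hBG'⟩ := hS'.bddG
  have iG : Integrable G ρ := (integrable_const BG).mono' hS.measG.aestronglyMeasurable
    (ae_of_all _ fun w => by rw [Real.norm_eq_abs, abs_of_pos (hS.G0 w)]; exact hBG w)
  have iG' : Integrable G' ρ := (integrable_const BG').mono' hS'.measG.aestronglyMeasurable
    (ae_of_all _ fun w => by rw [Real.norm_eq_abs, abs_of_pos (hS'.G0 w)]; exact hBG' w)
  have gpos : ∀ {F : ℝ → ℝ}, Integrable F ρ → (∀ w, 0 < F w) → 0 < ∫ w, F w ∂ρ := fun iF hF => by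
    rw [integral_pos_iff_support_of_nonneg (fun w => (hF w).le) iF]
    have : Function.support _ = (Set.univ : Set ℝ) := Set.eq_univ_of_forall fun w => (hF w).ne'
    rw [this, measure_univ]
    exact one_pos
  have g0 := gpos iG hS.G0
  have g0' := gpos iG' hS'.G0
  have K0 : 0 ≤ ∫ z, K z ∂ρ := integral_nonneg hS.K0
  have K0' : 0 ≤ ∫ z, K' z ∂ρ := integral_nonneg hS'.K0
  generalize (∫ z, K z ∂ρ) = k at *
  generalize (∫ z, K' z ∂ρ) = k' at *
  have e2 : (∫ w, b w * G w ∂ρ) / (∫ w, G w ∂ρ) = ∫ w, b w * (G w / ∫ w, G w ∂ρ) ∂ρ := by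
    rw [← integral_div]
    exact integral_congr_ae (ae_of_all _ fun w => mul_div_assoc _ _ _)
  have e3 : (∫ w, a w * G' w ∂ρ) / (∫ w, G' w ∂ρ) = ∫ w, a w * (G' w / ∫ w, G' w ∂ρ) ∂ρ := by
    rw [← integral_div]
    exact integral_congr_ae (ae_of_all _ fun w => mul_div_assoc _ _ _)
  have r1 : ∫ w, G w / (∫ w, G w ∂ρ) ∂ρ = 1 := by rw [integral_div, div_self g0.ne']
  have s1 : ∫ w, G' w / (∫ w, G' w ∂ρ) ∂ρ = 1 := by rw [integral_div, div_self g0'.ne']
  rw [e2, e3]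
  generalize (∫ w, G w ∂ρ) = g at *
  generalize (∫ w, G' w ∂ρ) = g' at *
  have π0 : 0 ≤ k / g := div_nonneg K0 g0.le
  have π0' : 0 ≤ k' / g' := div_nonneg K0' g0'.le
  have dm : ∀ w w', w ≤ w' → G w / g - G' w / g' ≤ G w' / g - G' w' / g' := fun w w' hw => by
    have a1 := hS.lo w w' hw
    have a2 := hS'.lo w w' hw
    have hw' : 0 ≤ w' - w := sub_nonneg.2 hw
    have a3 : 0 ≤ l * β * (w' - w) * Real.exp (-(β * (w' - w))) * K w :=
      mul_nonneg (by positivity) (hS.K0 w)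
    have a4 : 0 ≤ l * β * (w' - w) * Real.exp (-(β * (w' - w))) * K' w :=
      mul_nonneg (by positivity) (hS'.K0 w)
    have a5 : G w / g ≤ G w' / g := div_le_div_of_nonneg_right (by linarith) g0.le
    have a6 : G' w' / g' ≤ G' w / g' := div_le_div_of_nonneg_right (by linarith) g0'.le
    linarith
  have dle : ∀ w, |G w / g - G' w / g'| ≤ C * (l * (k / g + k' / g')) * Real.exp (C * |w|) :=
    fun w => by
      have a1 := h1 w
      have a2 := h1' w
      have a3 : |G w / g - G' w / g'| ≤ |G w / g - 1| + |G' w / g' - 1| := by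
        have : G w / g - G' w / g' = (G w / g - 1) - (G' w / g' - 1) := by ring
        rw [this]
        exact abs_sub _ _
      calc |G w / g - G' w / g'| ≤ |G w / g - 1| + |G' w / g' - 1| := a3
        _ ≤ l * C * Real.exp (C * |w|) * (k / g) + l * C * Real.exp (C * |w|) * (k' / g') :=
            add_le_add a1 a2
        _ = C * (l * (k / g + k' / g')) * Real.exp (C * |w|) := by ring
  have key : ∀ w ∈ L, ∀ w' ∈ H, c * (l * (k / g + k' / g')) ≤
      (G w' / g - G' w' / g') - (G w / g - G' w / g') := fun w hw w' hw' => by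
    have a1 := h4 w hw w' hw'
    have a2 := h4' w hw w' hw'
    have a3 : c * (l * (k / g + k' / g')) = c * l * (k / g) + c * l * (k' / g') := by ring
    rw [a3]
    linarith
  have hcore := core (ρ := ρ) (κ := fun w => K w / G w) (r := fun w => G w / g)
    (s := fun w => G' w / g') (a := a) (b := b) (Ma := Ma / g') hβ (by linarith : (0 : ℝ) ≤ C)
    (mul_nonneg hl.le (add_nonneg π0 π0')) π0 hc hLH.mL hLH.mH hLH.L0 hLH.H0
    (hS.measG.div_const g) (hS'.measG.div_const g') ma mb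
    (fun w => div_nonneg (hS.G0 w).le g0.le) (fun w => div_nonneg (hS'.G0 w).le g0'.le) ha
    (fun w => div_nonneg (hS.K0 w) (hS.G0 w).le) (iG.div_const g) (iG'.div_const g') r1 s1 dm dle
    key h2 (int_e hρ (2 * C)) hMb (fun w => by
      rw [← mul_div_assoc]
      exact div_le_div_of_nonneg_right (hMa w) g0'.le) hab
  refine hcore.trans ?_
  have h9 : 0 ≤ l * (k / g) * (k / g + k' / g') := by positivity
  have h10 : 2 * β * C ^ 3 * (∫ w, (1 + |w|) * Real.exp (2 * C * |w|) ∂ρ) ^ 2 / c ^ 2 *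
      (k / g * (l * (k / g + k' / g'))) = 2 * β * C ^ 3 *
      (∫ w, (1 + |w|) * Real.exp (2 * C * |w|) ∂ρ) ^ 2 / c ^ 2 *
        (l * (k / g) * (k / g + k' / g')) := by ring
  have h11 : (2 * β * C ^ 3 * (∫ w, (1 + |w|) * Real.exp (2 * C * |w|) ∂ρ) ^ 2 / c ^ 2 + 1) * l *
      (k / g) * (k / g + k' / g') = 2 * β * C ^ 3 *
      (∫ w, (1 + |w|) * Real.exp (2 * C * |w|) ∂ρ) ^ 2 / c ^ 2 *
        (l * (k / g) * (k / g + k' / g')) + l * (k / g) * (k / g + k' / g') := by ring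
  rw [h10, h11]
  linarith

end Pool.Agent.W_7d29a1_AM
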