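import Pool.Agent.W_7d29a1_AM.DefsAM

/-!
Amplification with a deep lower side: frozen statements of the leaves (helper96).
-/

namespace Pool.Agent.W_7d29a1_AM

open MeasureTheory ProbabilityTheory Filter Topology

section Leaves

variable (ρ : Measure ℝ) (β : ℝ)

/-- The coupling lemma with two parameters. -/
def CouT96 : Prop := ∃ C : ℝ, 0 < C ∧ ∀ (l l' : ℝ) (G K G' K' a b : ℝ → ℝ), 0 < l → l ≤ 1 →
  0 < l' → l' ≤ 1 → Site l β 1 G K → Site l' β (-1) G' K' → Measurable a → Measurable b →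
  (∀ w, 0 ≤ a w) → (∃ M, ∀ w, |b w| ≤ M) → (∃ M, ∀ w, a w * G' w ≤ M) →
  (∀ w w₁, w ≤ w₁ → b w₁ - β * (w₁ - w) * (K w₁ / G w₁) ≤ a w) →
    (∫ w, b w * G w ∂ρ) / (∫ w, G w ∂ρ) ≤ (∫ w, a w * G' w ∂ρ) / (∫ w, G' w ∂ρ) +
      C * ((∫ z, K z ∂ρ) / ∫ z, G z ∂ρ) *
        (l * ((∫ z, K z ∂ρ) / (∫ z, G z ∂ρ)) + l' * ((∫ z, K' z ∂ρ) / ∫ z, G' z ∂ρ))

/-- The gradient is large: two parameters, the stopped sum only. -/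
def LemDT96 : Prop := ∃ C : ℝ, 0 < C ∧ ∀ l l' B : ℝ, 0 < l → l ≤ l' → l' ≤ 1 → 0 ≤ B →
  ∀ (N : ℕ) (Vm V : (Fin N → ℝ) → ℝ) (pm p : Fin N → (Fin N → ℝ) → ℝ) (c : (Fin N → ℝ) → ℝ)
    (u v : ℝ), Cls β Vm pm → Cls β V p → Measurable c → (∀ y, 0 ≤ c y) → (∃ M, ∀ y, c y ≤ M) →
    (∀ y y₁, V y₁ - c y₁ + β * ∑ i, (y i - y₁ i) * p i y₁ ≤ Vm y) → 0 < u → 0 ≤ v → v ≤ u →
      Ef ρ (fP l B) V (fun y => chi B (V y) * (V y - c y)) -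
          C * l' * Ns ρ (fP l B) (chi B) N V p v -
          (B + 1) / u * (Ns ρ (fP l B) (chi B) N V p v + 1 + u - v) ≤
        Ef ρ (fM l') Vm Vm + C * l' * Nt ρ (fM l') (fun _ => 1) N Vm pm

/-- A deep lower side of polynomial probability forces deviations above the mean. -/
def DeepQ96 : Prop := ∀ Λ : ℝ, 1 ≤ Λ → ∃ K₀ S : ℝ, 1 ≤ S ∧ ∀ (N : ℕ) (V : (Fin N → ℝ) → ℝ)
  (p : Fin N → (Fin N → ℝ) → ℝ), Cls β V p → ∀ σ K : ℝ, S ≤ σ → K₀ ≤ K →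
    1 / (2 * K ^ 4) ≤ (PN ρ N).real {y | V y ≤ Real.log 2} → K * σ ≤ ∫ y, V y ∂PN ρ N →
    ∫ y, (V y - K * σ) ^ 2 ∂PN ρ N ≤ 4 * σ ^ 2 →
      1 / 65536 ≤ (PN ρ N).real {y | (K + Λ) * σ ≤ V y}

end Leaves

end Pool.Agent.W_7d29a1_AM
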