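import Pool.Agent.W_7d29a1_AM.DefsAT96
import Pool.Agent.W_7d29a1_AM.Cou35

/-!
The coupling inequality with two parameters (helper96, after helper35's couP35).
-/

set_option autoImplicit false

namespace Pool.Agent.W_7d29a1_AM

open MeasureTheory ProbabilityTheory Filter Topology Pool.Agent.W_MP_7d29a1_pr
  Pool.Agent.W_7d29a1_h46 Pool.Agent.W_7d29a1_h46u

open Cou35 in
/-- The coupling inequality with two parameters. -/
theorem couT96 {ρ : Measure ℝ} [IsProbabilityMeasure ρ] {β : ℝ} (hρ : EM ρ) (hβ : 0 < β)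
    (hCon : ConP ρ β) : CouT96 ρ β := by
  obtain ⟨c, R, C, L, H, hLH, hC1, hcon⟩ := hCon
  have hC0 : 0 < C := by linarith
  have hc := hLH.c0
  obtain ⟨M2, hM2⟩ : ∃ M2 : ℝ, M2 = ∫ w, (1 + |w|) * Real.exp (C * |w|) ∂ρ := ⟨_, rfl⟩
  obtain ⟨M3, hM3⟩ : ∃ M3 : ℝ, M3 = ∫ w, Real.exp ((2 * C + 1) * |w|) ∂ρ := ⟨_, rfl⟩
  have hM20 : 0 ≤ M2 := by
    rw [hM2]
    exact integral_nonneg fun w => mul_nonneg (by positivity) (Real.exp_pos _).le
  have hM30 : 0 ≤ M3 := by
    rw [hM3]
    exact integral_nonneg fun w => (Real.exp_pos _).le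
  have habs : ∀ w : ℝ, 1 + |w| ≤ Real.exp |w| := fun w => by
    have := Real.add_one_le_exp |w|
    linarith
  have i2 : Integrable (fun w => (1 + |w|) * Real.exp (C * |w|)) ρ := by
    refine (exp_abs hρ (C + 1)).mono' (by fun_prop) (Eventually.of_forall fun w => ?_)
    rw [Real.norm_of_nonneg (mul_nonneg (by positivity) (Real.exp_pos _).le)]
    have h1 : Real.exp ((C + 1) * |w|) = Real.exp |w| * Real.exp (C * |w|) := by
      rw [← Real.exp_add]
      congr 1
      ring
    rw [h1]
    exact mul_le_mul_of_nonneg_right (habs w) (Real.exp_pos _).le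
  refine ⟨2 * β * C ^ 3 * M2 * M3 / c ^ 3 + 1, by positivity, ?_⟩
  intro l l' G K G' K' a b hl0 hl1 hl0' hl1' hS hS' ham hbm ha0 hbb hab hcmp
  obtain ⟨Mb, hMb⟩ := hbb
  obtain ⟨Ma, hMa⟩ := hab
  obtain ⟨hGi, hGp, hπ0⟩ := site_int (ρ := ρ) hS
  obtain ⟨hGi', hGp', hπ0'⟩ := site_int (ρ := ρ) hS'
  obtain ⟨k1, k2, -, k4, -⟩ := hcon l 1 G K hl0 hl1 (Or.inl rfl) hS
  obtain ⟨k1', -, -, k4', -⟩ := hcon l' (-1) G' K' hl0' hl1' (Or.inr rfl) hS'
  obtain ⟨Gb, hGb⟩ : ∃ Gb : ℝ, Gb = ∫ w, G w ∂ρ := ⟨_, rfl⟩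
  obtain ⟨Gb', hGb'⟩ : ∃ Gb' : ℝ, Gb' = ∫ w, G' w ∂ρ := ⟨_, rfl⟩
  obtain ⟨π, hπ⟩ : ∃ π : ℝ, π = (∫ w, K w ∂ρ) / ∫ w, G w ∂ρ := ⟨_, rfl⟩
  obtain ⟨π', hπ'⟩ : ∃ π' : ℝ, π' = (∫ w, K' w ∂ρ) / ∫ w, G' w ∂ρ := ⟨_, rfl⟩
  rw [← hπ] at hπ0 k1 k2 k4 ⊢
  rw [← hπ'] at hπ0' k1' k4' ⊢
  rw [← hGb] at hGp k1 k4 ⊢
  rw [← hGb'] at hGp' k1' k4' ⊢
  obtain ⟨r, hr⟩ : ∃ r : ℝ → ℝ, r = fun w => G w / Gb := ⟨_, rfl⟩
  obtain ⟨r', hr'⟩ : ∃ r' : ℝ → ℝ, r' = fun w => G' w / Gb' := ⟨_, rfl⟩
  have hrw : ∀ w, G w / Gb = r w := fun w => by rw [hr]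
  have hrw' : ∀ w, G' w / Gb' = r' w := fun w => by rw [hr']
  simp only [hrw] at k1 k4
  simp only [hrw'] at k1' k4'
  have hr0 : ∀ w, 0 ≤ r w := fun w => by
    rw [← hrw]
    exact div_nonneg (hS.G0 w).le hGp.le
  have hr0' : ∀ w, 0 ≤ r' w := fun w => by
    rw [← hrw']
    exact div_nonneg (hS'.G0 w).le hGp'.le
  have hrm : Measurable r := by
    rw [hr]
    exact hS.measG.div_const _
  have hrm' : Measurable r' := by
    rw [hr']
    exact hS'.measG.div_const _
  have hri : Integrable r ρ := by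
    rw [hr]
    exact hGi.div_const _
  have hri' : Integrable r' ρ := by
    rw [hr']
    exact hGi'.div_const _
  have hrI : ∫ w, r w ∂ρ = 1 := by
    rw [hr]
    simp only
    rw [integral_div, ← hGb, div_self hGp.ne']
  have hrI' : ∫ w, r' w ∂ρ = 1 := by
    rw [hr']
    simp only
    rw [integral_div, ← hGb', div_self hGp'.ne']
  -- the difference is monotone
  have hmono : ∀ w w', w ≤ w' → r w - r' w ≤ r w' - r' w' := by
    intro w w' hw
    have e1 := hS.lo w w' hw
    have e2 := hS'.lo w w' hw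
    have n1 : 0 ≤ l * β * (w' - w) * Real.exp (-(β * (w' - w))) := by
      have : 0 ≤ w' - w := by linarith
      positivity
    have n1' : 0 ≤ l' * β * (w' - w) * Real.exp (-(β * (w' - w))) := by
      have : 0 ≤ w' - w := by linarith
      positivity
    have n2 := mul_nonneg n1 (hS.K0 w)
    have n3 := mul_nonneg n1' (hS'.K0 w)
    have e3 : r w ≤ r w' := by
      rw [← hrw, ← hrw]
      exact div_le_div_of_nonneg_right (by linarith) hGp.le
    have e4 : r' w' ≤ r' w := by
      rw [← hrw', ← hrw']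
      exact div_le_div_of_nonneg_right (by linarith) hGp'.le
    linarith
  obtain ⟨z, hz⟩ : ∃ z : ℝ, z = l * π + l' * π' := ⟨_, rfl⟩
  have hz0 : 0 ≤ z := by rw [hz]; positivity
  have hdabs : ∀ w, |r w - r' w| ≤ C * Real.exp (C * |w|) * z := by
    intro w
    have e1 : r w - r' w = (r w - 1) - (r' w - 1) := by ring
    rw [e1]
    refine (abs_sub _ _).trans ?_
    have e2 := k1 w
    have e3 := k1' w
    have e4 : C * Real.exp (C * |w|) * z = l * C * Real.exp (C * |w|) * π +
        l' * C * Real.exp (C * |w|) * π' := by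
      rw [hz]
      ring
    rw [e4]
    linarith
  obtain ⟨dp, hdp⟩ : ∃ dp : ℝ → ℝ, dp = fun w => max 0 (r w - r' w) := ⟨_, rfl⟩
  obtain ⟨dm, hdm⟩ : ∃ dm : ℝ → ℝ, dm = fun w => max 0 (r' w - r w) := ⟨_, rfl⟩
  obtain ⟨mn, hmn⟩ : ∃ mn : ℝ → ℝ, mn = fun w => min (r w) (r' w) := ⟨_, rfl⟩
  have dp0 : ∀ w, 0 ≤ dp w := fun w => by
    rw [hdp]
    exact le_max_left _ _
  have dm0 : ∀ w, 0 ≤ dm w := fun w => by
    rw [hdm]
    exact le_max_left _ _
  have mn0 : ∀ w, 0 ≤ mn w := fun w => by
    rw [hmn]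
    exact le_min (hr0 w) (hr0' w)
  have er : ∀ w, r w = mn w + dp w := fun w => by
    rw [hmn, hdp]
    simp only
    rcases le_total (r w) (r' w) with h | h
    · rw [min_eq_left h, max_eq_left (by linarith)]
      ring
    · rw [min_eq_right h, max_eq_right (by linarith)]
      ring
  have er' : ∀ w, r' w = mn w + dm w := fun w => by
    rw [hmn, hdm]
    simp only
    rcases le_total (r w) (r' w) with h | h
    · rw [min_eq_left h, max_eq_right (by linarith)]
      ring
    · rw [min_eq_right h, max_eq_left (by linarith)]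
      ring
  have dpm : Measurable dp := by
    rw [hdp]
    exact measurable_const.max (hrm.sub hrm')
  have dmm : Measurable dm := by
    rw [hdm]
    exact measurable_const.max (hrm'.sub hrm)
  have mnm : Measurable mn := by
    rw [hmn]
    exact hrm.min hrm'
  have dpi : Integrable dp ρ := by
    refine hri.mono' dpm.aestronglyMeasurable (Eventually.of_forall fun w => ?_)
    rw [Real.norm_of_nonneg (dp0 w), er w]
    linarith [mn0 w]
  have dmi : Integrable dm ρ := by
    refine hri'.mono' dmm.aestronglyMeasurable (Eventually.of_forall fun w => ?_)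
    rw [Real.norm_of_nonneg (dm0 w), er' w]
    linarith [mn0 w]
  have mni : Integrable mn ρ := by
    refine hri.mono' mnm.aestronglyMeasurable (Eventually.of_forall fun w => ?_)
    rw [Real.norm_of_nonneg (mn0 w), er w]
    linarith [dp0 w]
  obtain ⟨T, hT⟩ : ∃ T : ℝ, T = ∫ w, dm w ∂ρ := ⟨_, rfl⟩
  have hT0 : 0 ≤ T := by
    rw [hT]
    exact integral_nonneg dm0
  have hTp : ∫ w, dp w ∂ρ = T := by
    have e1 : ∫ w, r w ∂ρ = ∫ w, mn w ∂ρ + ∫ w, dp w ∂ρ := by
      simp only [er]
      exact integral_add mni dpi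
    have e2 : ∫ w, r' w ∂ρ = ∫ w, mn w ∂ρ + ∫ w, dm w ∂ρ := by
      simp only [er']
      exact integral_add mni dmi
    rw [hrI] at e1
    rw [hrI', ← hT] at e2
    linarith
  have hdple : ∀ w, dp w ≤ C * Real.exp (C * |w|) * z := fun w => by
    rw [hdp]
    exact max_le ((abs_nonneg _).trans (hdabs w)) ((le_abs_self _).trans (hdabs w))
  have hdmle : ∀ w, dm w ≤ C * Real.exp (C * |w|) * z := fun w => by
    have h1 := hdabs w
    rw [abs_sub_comm] at h1
    rw [hdm]
    exact max_le ((abs_nonneg _).trans h1) ((le_abs_self _).trans h1)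
  -- the lower bound of `T`
  have hTlow : c ^ 3 * z ≤ 2 * T := by
    have hd : ∀ w ∈ L, ∀ w' ∈ H, c * z + (r w - r' w) ≤ r w' - r' w' := by
      intro w hw w' hw'
      have e1 := k4 w hw w' hw'
      have e2 := k4' w hw w' hw'
      have e3 : c * z = c * l * π + c * l' * π' := by
        rw [hz]
        ring
      rw [e3]
      linarith
    have hdi : Integrable (fun w => r w - r' w) ρ := hri.sub hri'
    have hH : ∀ w ∈ L, ρ.real H * (c * z + (r w - r' w)) ≤ T := by
      intro w hw
      have e1 : ∫ w' in H, (c * z + (r w - r' w)) ∂ρ ≤ ∫ w' in H, dp w' ∂ρ := by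
        refine setIntegral_mono_on (integrable_const _).integrableOn dpi.integrableOn hLH.mH
          fun w' hw' => ?_
        refine (hd w hw w' hw').trans ?_
        rw [hdp]
        exact le_max_right _ _
      rw [setIntegral_const, smul_eq_mul] at e1
      refine e1.trans ?_
      rw [← hTp]
      exact setIntegral_le_integral dpi (Eventually.of_forall dp0)
    have e2 : ∫ w in L, (ρ.real H * (c * z) - ρ.real H * dm w) ∂ρ ≤
        ∫ w in L, T ∂ρ := by
      refine setIntegral_mono_on ((integrable_const _).sub (dmi.const_mul _)).integrableOn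
        (integrable_const _).integrableOn hLH.mL fun w hw => ?_
      refine le_trans ?_ (hH w hw)
      have e3 : -dm w ≤ r w - r' w := by
        have : r' w - r w ≤ dm w := by
          rw [hdm]
          exact le_max_right _ _
        linarith
      have e4 := mul_le_mul_of_nonneg_left e3 (measureReal_nonneg (μ := ρ) (s := H))
      rw [mul_add]
      linarith
    rw [integral_sub (integrable_const _).integrableOn (dmi.const_mul _).integrableOn,
      setIntegral_const, setIntegral_const, smul_eq_mul, smul_eq_mul, integral_const_mul] at e2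
    have e3 : ∫ w in L, dm w ∂ρ ≤ T := by
      rw [hT]
      exact setIntegral_le_integral dmi (Eventually.of_forall dm0)
    have hL1 : ρ.real L ≤ 1 := measureReal_le_one
    have hH1 : ρ.real H ≤ 1 := measureReal_le_one
    have hH0 : 0 ≤ ρ.real H := measureReal_nonneg
    have e4 : ρ.real H * ∫ w in L, dm w ∂ρ ≤ T := by
      have h5 := mul_le_mul_of_nonneg_left e3 hH0
      have h6 := mul_le_mul_of_nonneg_right hH1 hT0
      linarith
    have e5 : ρ.real L * T ≤ T := by
      have := mul_le_mul_of_nonneg_right hL1 hT0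
      linarith
    have e6 : c * c ≤ ρ.real L * ρ.real H := mul_le_mul hLH.L0 hLH.H0 hc.le (hc.le.trans hLH.L0)
    have e7 : 0 ≤ c * z := by positivity
    have e8 := mul_le_mul_of_nonneg_right e6 e7
    have e9 : c ^ 3 * z = c * c * (c * z) := by ring
    have e10 : ρ.real L * ρ.real H * (c * z) =
        ρ.real L * (ρ.real H * (c * z)) := by ring
    linarith
  -- the integrals
  have haR : ∀ w, a w * r' w ≤ Ma / Gb' := fun w => by
    have e1 : a w * r' w = a w * G' w / Gb' := by
      rw [← hrw']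
      ring
    rw [e1]
    exact div_le_div_of_nonneg_right (hMa w) hGp'.le
  have iam : Integrable (fun w => a w * mn w) ρ := by
    refine (integrable_const (Ma / Gb')).mono' (ham.mul mnm).aestronglyMeasurable
      (Eventually.of_forall fun w => ?_)
    rw [Real.norm_of_nonneg (mul_nonneg (ha0 w) (mn0 w))]
    refine le_trans ?_ (haR w)
    exact mul_le_mul_of_nonneg_left (by rw [er' w]; linarith [dm0 w]) (ha0 w)
  have iad : Integrable (fun w => a w * dm w) ρ := by
    refine (integrable_const (Ma / Gb')).mono' (ham.mul dmm).aestronglyMeasurable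
      (Eventually.of_forall fun w => ?_)
    rw [Real.norm_of_nonneg (mul_nonneg (ha0 w) (dm0 w))]
    refine le_trans ?_ (haR w)
    exact mul_le_mul_of_nonneg_left (by rw [er' w]; linarith [mn0 w]) (ha0 w)
  have ibm : Integrable (fun w => b w * mn w) ρ :=
    mni.bdd_mul (c := Mb) hbm.aestronglyMeasurable (Eventually.of_forall fun w => hMb w)
  have ibd : Integrable (fun w => b w * dp w) ρ :=
    dpi.bdd_mul (c := Mb) hbm.aestronglyMeasurable (Eventually.of_forall fun w => hMb w)
  have hba : ∀ w, b w ≤ a w := fun w => by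
    have := hcmp w w le_rfl
    simpa using this
  have E1 : (∫ w, b w * G w ∂ρ) / Gb = ∫ w, b w * mn w ∂ρ + ∫ w, b w * dp w ∂ρ := by
    rw [← integral_add ibm ibd, ← integral_div]
    refine integral_congr_ae (Eventually.of_forall fun w => ?_)
    simp only
    have e1 := er w
    rw [← hrw] at e1
    rw [← mul_add, ← e1, mul_div_assoc]
  have E2 : (∫ w, a w * G' w ∂ρ) / Gb' = ∫ w, a w * mn w ∂ρ + ∫ w, a w * dm w ∂ρ := by
    rw [← integral_add iam iad, ← integral_div]
    refine integral_congr_ae (Eventually.of_forall fun w => ?_)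
    simp only
    have e1 := er' w
    rw [← hrw'] at e1
    rw [← mul_add, ← e1, mul_div_assoc]
  have E3 : ∫ w, b w * mn w ∂ρ ≤ ∫ w, a w * mn w ∂ρ :=
    integral_mono ibm iam fun w => mul_le_mul_of_nonneg_right (hba w) (mn0 w)
  obtain ⟨A, hA⟩ : ∃ A : ℝ, A = ∫ w, a w * dm w ∂ρ := ⟨_, rfl⟩
  have hA0 : 0 ≤ A := by
    rw [hA]
    exact integral_nonneg fun w => mul_nonneg (ha0 w) (dm0 w)
  -- one point
  have hone : ∀ w₁, 0 < dp w₁ → b w₁ * T ≤ A + β * C ^ 2 * (z * π) * M2 *
      Real.exp ((C + 1) * |w₁|) := by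
    intro w₁ hw₁
    have hd1 : 0 < r w₁ - r' w₁ := by
      by_contra hcon
      rw [not_lt] at hcon
      rw [hdp] at hw₁
      simp only at hw₁
      rw [max_eq_left hcon] at hw₁
      exact lt_irrefl _ hw₁
    have hpt : ∀ w, b w₁ * dm w ≤ a w * dm w + β * C ^ 2 * (z * π) *
        Real.exp ((C + 1) * |w₁|) * ((1 + |w|) * Real.exp (C * |w|)) := by
      intro w
      rcases (dm0 w).eq_or_lt with h0 | h0
      · rw [← h0, mul_zero, mul_zero, zero_add]
        have : 0 ≤ 1 + |w| := by positivity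
        positivity
      · have hd2 : r w - r' w < 0 := by
          by_contra hcon
          rw [not_lt] at hcon
          rw [hdm] at h0
          simp only at h0
          rw [max_eq_left (by linarith)] at h0
          exact lt_irrefl _ h0
        have hww : w < w₁ := by
          by_contra hcon
          rw [not_lt] at hcon
          have := hmono w₁ w hcon
          linarith
        have e1 := hcmp w w₁ hww.le
        have e2 := k2 w₁
        have e3 : w₁ - w ≤ Real.exp |w₁| * (1 + |w|) := by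
          have f1 := habs w₁
          have f2 := le_abs_self w₁
          have f3 := neg_abs_le w
          have f4 := abs_nonneg w
          have f5 := abs_nonneg w₁
          nlinarith [Real.exp_pos |w₁|]
        have e4 : (w₁ - w) * (K w₁ / G w₁) ≤
            (Real.exp |w₁| * (1 + |w|)) * (C * Real.exp (C * |w₁|) * π) :=
          mul_le_mul e3 e2 (div_nonneg (hS.K0 _) (hS.G0 _).le)
            (mul_nonneg (Real.exp_pos _).le (by positivity))
        have e5 : b w₁ ≤ a w + β * ((Real.exp |w₁| * (1 + |w|)) *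
            (C * Real.exp (C * |w₁|) * π)) := by
          have e6 := mul_le_mul_of_nonneg_left e4 hβ.le
          have e7 : β * (w₁ - w) * (K w₁ / G w₁) = β * ((w₁ - w) * (K w₁ / G w₁)) := by ring
          linarith
        have e8 := mul_le_mul_of_nonneg_right e5 (dm0 w)
        refine e8.trans ?_
        rw [add_mul]
        refine add_le_add le_rfl ?_
        have e9 : Real.exp ((C + 1) * |w₁|) = Real.exp |w₁| * Real.exp (C * |w₁|) := by
          rw [← Real.exp_add]
          congr 1
          ring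
        rw [e9]
        have e10 : 0 ≤ β * ((Real.exp |w₁| * (1 + |w|)) * (C * Real.exp (C * |w₁|) * π)) := by
          have : 0 ≤ 1 + |w| := by positivity
          positivity
        refine (mul_le_mul_of_nonneg_left (hdmle w) e10).trans (le_of_eq ?_)
        ring
    have e1 := integral_mono (dmi.const_mul (b w₁)) (iad.add (i2.const_mul
      (β * C ^ 2 * (z * π) * Real.exp ((C + 1) * |w₁|)))) hpt
    have e2 := integral_add iad (i2.const_mul
      (β * C ^ 2 * (z * π) * Real.exp ((C + 1) * |w₁|)))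
    simp only [Pi.add_apply] at e1 e2
    rw [e2, integral_const_mul, integral_const_mul, ← hA, ← hT, ← hM2] at e1
    refine e1.trans (le_of_eq ?_)
    ring
  -- the sum
  have i3 : Integrable (fun w => Real.exp ((2 * C + 1) * |w|)) ρ := exp_abs hρ _
  have hall : ∀ w₁, T * (b w₁ * dp w₁) ≤ A * dp w₁ + β * C ^ 3 * (z * π) * z * M2 *
      Real.exp ((2 * C + 1) * |w₁|) := by
    intro w₁
    rcases (dp0 w₁).eq_or_lt with h0 | h0
    · rw [← h0, mul_zero, mul_zero, mul_zero, zero_add]
      positivity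
    · have e1 := mul_le_mul_of_nonneg_right (hone w₁ h0) h0.le
      have e2 : β * C ^ 2 * (z * π) * M2 * Real.exp ((C + 1) * |w₁|) * dp w₁ ≤
          β * C ^ 2 * (z * π) * M2 * Real.exp ((C + 1) * |w₁|) *
            (C * Real.exp (C * |w₁|) * z) :=
        mul_le_mul_of_nonneg_left (hdple w₁) (by positivity)
      have e3 : Real.exp ((2 * C + 1) * |w₁|) =
          Real.exp ((C + 1) * |w₁|) * Real.exp (C * |w₁|) := by
        rw [← Real.exp_add]
        congr 1
        ring
      rw [e3]
      have e4 : T * (b w₁ * dp w₁) = b w₁ * T * dp w₁ := by ring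
      rw [e4]
      refine e1.trans ?_
      rw [add_mul]
      refine add_le_add le_rfl (e2.trans (le_of_eq ?_))
      ring
  have hsum : T * ∫ w, b w * dp w ∂ρ ≤ A * T + β * C ^ 3 * (z * π) * z * M2 * M3 := by
    have e1 := integral_mono (ibd.const_mul T) ((dpi.const_mul A).add (i3.const_mul
      (β * C ^ 3 * (z * π) * z * M2))) hall
    have e2 := integral_add (dpi.const_mul A) (i3.const_mul
      (β * C ^ 3 * (z * π) * z * M2))
    simp only [Pi.add_apply] at e1 e2
    rw [e2, integral_const_mul, integral_const_mul, integral_const_mul, hTp, ← hM3] at e1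
    exact e1
  have hfin : ∫ w, b w * dp w ∂ρ ≤ A + (2 * β * C ^ 3 * M2 * M3 / c ^ 3 + 1) * (z * π) := by
    have n0 : 0 ≤ z * π := by positivity
    have n1 : 0 ≤ 2 * β * C ^ 3 * M2 * M3 / c ^ 3 := by positivity
    rcases hT0.eq_or_lt with h0 | h0
    · have e1 : ∫ w, b w * dp w ∂ρ ≤ 0 := by
        have e2 : ∫ w, b w * dp w ∂ρ ≤ ∫ w, Mb * dp w ∂ρ :=
          integral_mono ibd (dpi.const_mul _) fun w =>
            mul_le_mul_of_nonneg_right ((le_abs_self _).trans (hMb w)) (dp0 w)
        rw [integral_const_mul, hTp, ← h0, mul_zero] at e2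
        exact e2
      have := mul_nonneg (by linarith : 0 ≤ 2 * β * C ^ 3 * M2 * M3 / c ^ 3 + 1) n0
      linarith
    · have e1 : β * C ^ 3 * (z * π) * z * M2 * M3 ≤
          (2 * β * C ^ 3 * M2 * M3 / c ^ 3 * (z * π)) * T := by
        have e2 : z ≤ 2 * T / c ^ 3 := by
          rw [le_div_iff₀ (by positivity)]
          linarith
        have e3 : 0 ≤ β * C ^ 3 * (z * π) * M2 * M3 := by positivity
        have e4 := mul_le_mul_of_nonneg_left e2 e3
        have e5 : β * C ^ 3 * (z * π) * z * M2 * M3 =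
            β * C ^ 3 * (z * π) * M2 * M3 * z := by ring
        rw [e5]
        refine e4.trans (le_of_eq ?_)
        ring
      have e6 : T * ∫ w, b w * dp w ∂ρ ≤
          T * (A + 2 * β * C ^ 3 * M2 * M3 / c ^ 3 * (z * π)) := by
        rw [mul_add]
        linarith
      have e7 := le_of_mul_le_mul_left e6 h0
      rw [add_mul, one_mul]
      linarith
  rw [E1, E2, ← hA, ← hz]
  have e9 : (2 * β * C ^ 3 * M2 * M3 / c ^ 3 + 1) * π * z =
      (2 * β * C ^ 3 * M2 * M3 / c ^ 3 + 1) * (z * π) := by ring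
  rw [e9]
  linarith

end Pool.Agent.W_7d29a1_AM
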