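import Pool.Agent.W_7d29a1_AM.LemD5
import Pool.Agent.W_7d29a1_AM.AmpB94

/-!
Deep lower deviations, every law: the lower tail is at most Gaussian on the scale of the upper
deviations (helper5).
-/

namespace Pool.Agent.W_7d29a1_AM

open MeasureTheory ProbabilityTheory Filter Topology

/-- Deep lower deviations in the class. -/
def DeepC (ρ : Measure ℝ) (β : ℝ) : Prop := ∃ C c : ℝ, 1 ≤ C ∧ 0 < c ∧
  ∀ (N : ℕ) (V : (Fin N → ℝ) → ℝ) (p : Fin N → (Fin N → ℝ) → ℝ), Cls β V p →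
    ∀ q s a : ℝ, 0 < q → q ≤ 1 → C ≤ a → q ≤ (PN ρ N).real {y | V y ≤ Real.log 2} →
      1 / 4 ≤ (PN ρ N).real {y | s ≤ V y} → (PN ρ N).real {y | s + a < V y} ≤ c →
        s ≤ C * (a * Real.sqrt (1 + Real.log (1 / q)) + (1 + Real.log (1 / q)))

variable {ρ : Measure ℝ} {β : ℝ} {N : ℕ}

/-- The weight where `s ≤ v`. -/
lemma fP_ge5 {l B s v : ℝ} (hl : 0 < l) (hl1 : l ≤ 1) (hB : s + 1 ≤ B) (hv : s ≤ v) :
    Real.exp (l * s) / 2 ≤ fP l B v := by
  unfold fP
  have h1 : s - 1 / 2 ≤ Uf B v := by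
    refine le_trans ?_ (Uf_mono94 B hv)
    unfold Uf
    have h2 : Real.log (1 + Real.exp (s - B)) ≤ Real.exp (s - B) := by
      have := Real.log_le_sub_one_of_pos (show 0 < 1 + Real.exp (s - B) by positivity)
      linarith
    have h3 : Real.exp (s - B) ≤ Real.exp (-1) := Real.exp_le_exp.2 (by linarith)
    have h4 : Real.exp (-1) ≤ 1 / 2 := by
      have := Real.exp_neg_one_lt_half
      linarith
    linarith
  have h5 : l * s - 1 / 2 ≤ l * Uf B v := by nlinarith
  have h6 : (1 : ℝ) / 2 ≤ Real.exp (-(1 / 2)) := by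
    have := Real.add_one_le_exp (-(1 / 2 : ℝ))
    linarith
  calc Real.exp (l * s) / 2 = Real.exp (l * s) * (1 / 2) := by ring
    _ ≤ Real.exp (l * s) * Real.exp (-(1 / 2)) :=
        mul_le_mul_of_nonneg_left h6 (Real.exp_pos _).le
    _ = Real.exp (l * s - 1 / 2) := by
        rw [← Real.exp_add]
        congr 1
    _ ≤ _ := Real.exp_le_exp.2 h5

lemma gf_low5 [IsProbabilityMeasure ρ] {l B s q : ℝ} (hl : 0 < l) (hl1 : l ≤ 1)
    (hB : s + 1 ≤ B) (hP : Wt l 1 (fP l B) (chi B)) {V : (Fin N → ℝ) → ℝ}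
    {p : Fin N → (Fin N → ℝ) → ℝ} (h : Cls β V p)
    (hq : q ≤ (PN ρ N).real {y | s ≤ V y}) : q * (Real.exp (l * s) / 2) ≤ gf ρ (fP l B) V := by
  have hS : MeasurableSet {y | s ≤ V y} := measurableSet_le measurable_const h.meas
  have h3 : ∀ y, ({y | s ≤ V y}).indicator (fun _ => Real.exp (l * s) / 2) y ≤ fP l B (V y) := by
    intro y
    by_cases hy : s ≤ V y
    · rw [Set.indicator_of_mem (show y ∈ {y | s ≤ V y} from hy)]
      exact fP_ge5 hl hl1 hB hy
    · rw [Set.indicator_of_notMem (show y ∉ {y | s ≤ V y} from hy)]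
      exact (hP.pos _).le
  have h6 := integral_mono (μ := PN ρ N) ((integrable_const (Real.exp (l * s) / 2)).indicator hS)
    (int_f (ρ := ρ) hP h) h3
  rw [integral_indicator_const _ hS, smul_eq_mul] at h6
  refine le_trans ?_ h6
  exact mul_le_mul_of_nonneg_right hq (by positivity)

lemma int5 {μ : Measure (Fin N → ℝ)} {f1 f2 f3 : (Fin N → ℝ) → ℝ} (h1 : Integrable f1 μ)
    (h2 : Integrable f2 μ) (h3 : Integrable f3 μ) (c : ℝ) :
    ∫ w, (c * f1 w - c * f2 w - c * f3 w) ∂μ =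
      c * (∫ w, f1 w ∂μ) - c * (∫ w, f2 w ∂μ) - c * ∫ w, f3 w ∂μ := by
  have a1 : ∫ w, (c * f1 w - c * f2 w - c * f3 w) ∂μ =
      (∫ w, (c * f1 w - c * f2 w) ∂μ) - ∫ w, c * f3 w ∂μ :=
    integral_sub ((h1.const_mul c).sub (h2.const_mul c)) (h3.const_mul c)
  have a2 : ∫ w, (c * f1 w - c * f2 w) ∂μ = (∫ w, c * f1 w ∂μ) - ∫ w, c * f2 w ∂μ :=
    integral_sub (h1.const_mul c) (h2.const_mul c)
  rw [a1, a2, integral_const_mul, integral_const_mul, integral_const_mul]

/-- The mean of `chi V` under the upper law. -/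
lemma chi_mean5 [IsProbabilityMeasure ρ] {l B s : ℝ} (hl : 0 < l) (hs : 0 ≤ s) (hB : s ≤ B)
    (hP : Wt l 1 (fP l B) (chi B)) {V : (Fin N → ℝ) → ℝ} {p : Fin N → (Fin N → ℝ) → ℝ}
    (h : Cls β V p) (h1 : Real.exp (l * (3 * s / 4)) / gf ρ (fP l B) V ≤ 1 / 8)
    (h2 : Real.exp (l * B) * (PN ρ N).real {y | B < V y} / gf ρ (fP l B) V ≤ 1 / 8) :
    s / 4 ≤ Ef ρ (fP l B) V (fun y => chi B (V y) * V y) := by
  have hB0 : 0 ≤ B := hs.trans hB
  have hg := gf_pos (ρ := ρ) hP h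
  have mA : MeasurableSet {y | V y < 3 * s / 4} := measurableSet_lt h.meas measurable_const
  have mB : MeasurableSet {y | B < V y} := measurableSet_lt measurable_const h.meas
  have hfle : ∀ y, fP l B (V y) ≤ Real.exp (l * B) := fun y =>
    Real.exp_le_exp.2 (mul_le_mul_of_nonneg_left (Uf_le94 B _) hl.le)
  -- pointwise
  have hpt : ∀ y, (3 * s / 8) * fP l B (V y) - (3 * s / 8) *
      (({y | V y < 3 * s / 4}).indicator (fun _ => Real.exp (l * (3 * s / 4))) y) -
      (3 * s / 8) * (({y | B < V y}).indicator (fun _ => Real.exp (l * B)) y) ≤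
      chi B (V y) * V y * fP l B (V y) := by
    intro y
    have f0 : 0 < fP l B (V y) := hP.pos _
    have v0 := h.nonneg y
    have c0 := chi_pos73 B (V y)
    have r0 : 0 ≤ chi B (V y) * V y * fP l B (V y) :=
      mul_nonneg (mul_nonneg c0.le v0) f0.le
    by_cases hA : V y < 3 * s / 4
    · rw [Set.indicator_of_mem (show y ∈ {y | V y < 3 * s / 4} from hA)]
      have e1 : fP l B (V y) ≤ Real.exp (l * (3 * s / 4)) := by
        unfold fP
        exact Real.exp_le_exp.2 (mul_le_mul_of_nonneg_left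
          ((Uf_le_self94 B _).trans hA.le) hl.le)
      have e2 : 0 ≤ ({y | B < V y}).indicator (fun _ => Real.exp (l * B)) y :=
        Set.indicator_nonneg (fun _ _ => (Real.exp_pos _).le) _
      have e3 := mul_le_mul_of_nonneg_left e1 (by positivity : 0 ≤ 3 * s / 8)
      have e4 := mul_nonneg (by positivity : 0 ≤ 3 * s / 8) e2
      linarith
    · rw [Set.indicator_of_notMem (show y ∉ {y | V y < 3 * s / 4} from hA)]
      by_cases hB' : B < V y
      · rw [Set.indicator_of_mem (show y ∈ {y | B < V y} from hB')]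
        have e3 := mul_le_mul_of_nonneg_left (hfle y) (by positivity : 0 ≤ 3 * s / 8)
        linarith
      · rw [Set.indicator_of_notMem (show y ∉ {y | B < V y} from hB')]
        rw [not_lt] at hA hB'
        have e1 : 1 / 2 ≤ chi B (V y) := by
          unfold chi
          apply one_div_le_one_div_of_le (by positivity)
          have : Real.exp (V y - B) ≤ 1 := Real.exp_le_one_iff.2 (by linarith)
          linarith
        have e2 : 3 * s / 8 ≤ chi B (V y) * V y := by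
          calc 3 * s / 8 = 1 / 2 * (3 * s / 4) := by ring
            _ ≤ chi B (V y) * V y := mul_le_mul e1 hA (by positivity) c0.le
        have e3 := mul_le_mul_of_nonneg_right e2 f0.le
        linarith
  have i0 := int_f (ρ := ρ) hP h
  have i1 : Integrable (({y | V y < 3 * s / 4}).indicator
      (fun _ => Real.exp (l * (3 * s / 4)))) (PN ρ N) := (integrable_const _).indicator mA
  have i2 : Integrable (({y | B < V y}).indicator
      (fun _ => Real.exp (l * B))) (PN ρ N) := (integrable_const _).indicator mB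
  have i3 : Integrable (fun y => chi B (V y) * V y * fP l B (V y)) (PN ρ N) :=
    int_Ff hP h ((hP.measx.comp h.meas).mul h.meas) (M := (B + 1) * Real.exp (l * B)) fun y => by
      rw [abs_mul, abs_of_pos (hP.pos _), abs_of_nonneg (mul_nonneg (chi_pos73 B (V y)).le
        (h.nonneg y))]
      exact mul_le_mul (chi_mul73 hB0 _) (hfle y) (hP.pos _).le (by linarith)
  have hI := integral_mono ((((i0.const_mul (3 * s / 8)).sub (i1.const_mul (3 * s / 8))).sub
    (i2.const_mul (3 * s / 8)))) i3 hpt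
  have e0 : ∫ y, ((3 * s / 8) * fP l B (V y) - (3 * s / 8) *
      (({y | V y < 3 * s / 4}).indicator (fun _ => Real.exp (l * (3 * s / 4))) y) -
      (3 * s / 8) * (({y | B < V y}).indicator (fun _ => Real.exp (l * B)) y)) ∂PN ρ N =
      (3 * s / 8) * gf ρ (fP l B) V -
      (3 * s / 8) * ((PN ρ N).real {y | V y < 3 * s / 4} * Real.exp (l * (3 * s / 4))) -
      (3 * s / 8) * ((PN ρ N).real {y | B < V y} * Real.exp (l * B)) := by
    rw [int5 i0 i1 i2, integral_indicator_const _ mA, integral_indicator_const _ mB,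
      smul_eq_mul, smul_eq_mul]
    rfl
  have hI' : (3 * s / 8) * gf ρ (fP l B) V -
      (3 * s / 8) * ((PN ρ N).real {y | V y < 3 * s / 4} * Real.exp (l * (3 * s / 4))) -
      (3 * s / 8) * ((PN ρ N).real {y | B < V y} * Real.exp (l * B)) ≤
      ∫ y, chi B (V y) * V y * fP l B (V y) ∂PN ρ N := by
    rw [← e0]
    exact hI
  have j1 : (PN ρ N).real {y | V y < 3 * s / 4} * Real.exp (l * (3 * s / 4)) ≤
      1 / 8 * gf ρ (fP l B) V := by
    rw [div_le_iff₀ hg] at h1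
    refine le_trans ?_ h1
    have : (PN ρ N).real {y | V y < 3 * s / 4} ≤ 1 := measureReal_le_one
    nlinarith [Real.exp_pos (l * (3 * s / 4))]
  have j2 : (PN ρ N).real {y | B < V y} * Real.exp (l * B) ≤ 1 / 8 * gf ρ (fP l B) V := by
    rw [div_le_iff₀ hg] at h2
    linarith
  unfold Ef
  rw [le_div_iff₀ hg]
  have k1 := mul_le_mul_of_nonneg_left j1 (by positivity : 0 ≤ 3 * s / 8)
  have k2 := mul_le_mul_of_nonneg_left j2 (by positivity : 0 ≤ 3 * s / 8)
  have k3 : 0 ≤ s * gf ρ (fP l B) V := mul_nonneg hs hg.le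
  linarith

theorem deepC5 [IsProbabilityMeasure ρ] (h0 : WtP) (hD' : LemD2 ρ β) (hK' : LemK ρ β) :
    DeepC ρ β := by
  obtain ⟨cK, hcK, hK⟩ := hK'
  obtain ⟨C0, hC0, hLD⟩ := hD'
  refine ⟨20 + 12 * (C0 / cK), Real.exp (-20) / 64, ?_, by positivity, ?_⟩
  · have : 0 ≤ C0 / cK := by positivity
    linarith
  intro N V p h q s a hq hq1 ha hlow hup hc
  have hr : 0 ≤ C0 / cK := by positivity
  obtain ⟨Λ, hΛ⟩ : ∃ Λ : ℝ, Λ = 1 + Real.log (1 / q) := ⟨_, rfl⟩
  rw [← hΛ]
  have hlq : 0 ≤ Real.log (1 / q) := Real.log_nonneg (by rw [le_div_iff₀ hq]; linarith)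
  have hΛ1 : 1 ≤ Λ := by linarith
  have hsq : 1 ≤ Real.sqrt Λ := by
    rw [← Real.sqrt_one]
    exact Real.sqrt_le_sqrt hΛ1
  have ha20 : 20 ≤ a := by linarith
  have ha0 : 0 < a := by linarith
  have hasq : 0 < a * Real.sqrt Λ := by positivity
  by_cases hsa : s < a
  · have : a ≤ a * Real.sqrt Λ := by nlinarith
    nlinarith
  by_cases hsΛ : s < 16 * Λ
  · nlinarith
  rw [not_lt] at hsa hsΛ
  have hs0 : 0 < s := by linarith
  -- the parameters
  obtain ⟨l, hl⟩ : ∃ l : ℝ, l = 20 / a := ⟨_, rfl⟩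
  obtain ⟨l', hl'⟩ : ∃ l' : ℝ, l' = 16 * Λ / s := ⟨_, rfl⟩
  obtain ⟨α, hα⟩ : ∃ α : ℝ, α = Real.sqrt Λ / a := ⟨_, rfl⟩
  obtain ⟨B, hB⟩ : ∃ B : ℝ, B = s + a := ⟨_, rfl⟩
  have hl0 : 0 < l := by rw [hl]; positivity
  have hl1 : l ≤ 1 := by rw [hl, div_le_one ha0]; exact ha20
  have hl0' : 0 < l' := by rw [hl']; positivity
  have hl1' : l' ≤ 1 := by rw [hl', div_le_one hs0]; exact hsΛ
  have hα0 : 0 < α := by rw [hα]; positivity
  have hB0 : 0 ≤ B := by linarith
  obtain ⟨hP, -⟩ := h0 l B hl0 hl1 hB0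
  obtain ⟨-, hM⟩ := h0 l' B hl0' hl1' hB0
  have hla : l * a = 20 := by rw [hl]; field_simp
  have hls : 20 ≤ l * s := by
    rw [← hla]
    exact mul_le_mul_of_nonneg_left hsa hl0.le
  have hlB : l * B = l * s + 20 := by rw [hB, mul_add, hla]
  -- the upper law
  obtain ⟨g, hg⟩ : ∃ g : ℝ, g = gf ρ (fP l B) V := ⟨_, rfl⟩
  have hglow : Real.exp (l * s) / 8 ≤ g := by
    have := gf_low5 (ρ := ρ) hl0 hl1 (by linarith : s + 1 ≤ B) hP h hup
    rw [hg]
    linarith
  have hg0 : 0 < g := lt_of_lt_of_le (by positivity) hglow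
  have e20 : Real.exp (-5) ≤ 1 / 64 := by
    have h1 : Real.exp (-5) = Real.exp (-1) ^ 5 := by
      rw [← Real.exp_nat_mul]
      norm_num
    have h2 := Real.exp_neg_one_lt_d9
    have h3 := Real.exp_pos (-1)
    rw [h1]
    calc Real.exp (-1) ^ 5 ≤ (0.3678794413 : ℝ) ^ 5 := pow_le_pow_left₀ h3.le (by linarith) 5
      _ ≤ 1 / 64 := by norm_num
  have hm1 : Real.exp (l * (3 * s / 4)) / gf ρ (fP l B) V ≤ 1 / 8 := by
    rw [← hg, div_le_iff₀ hg0]
    have h1 : Real.exp (l * (3 * s / 4)) = Real.exp (l * s) * Real.exp (-(l * s / 4)) := by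
      rw [← Real.exp_add]
      congr 1
      ring
    have h2 : Real.exp (-(l * s / 4)) ≤ Real.exp (-5) := Real.exp_le_exp.2 (by linarith)
    rw [h1]
    have h3 := mul_le_mul_of_nonneg_left (h2.trans e20) (Real.exp_pos (l * s)).le
    linarith
  have hm2 : Real.exp (l * B) * (PN ρ N).real {y | B < V y} / gf ρ (fP l B) V ≤ 1 / 8 := by
    rw [← hg, div_le_iff₀ hg0, hlB, Real.exp_add, hB]
    have h1 := mul_le_mul_of_nonneg_left hc
      (by positivity : 0 ≤ Real.exp (l * s) * Real.exp 20)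
    have h2 : Real.exp (l * s) * Real.exp 20 * (Real.exp (-20) / 64) = Real.exp (l * s) / 64 := by
      rw [Real.exp_neg]
      have := (Real.exp_pos 20).ne'
      field_simp
    rw [h2] at h1
    linarith
  have hchi := chi_mean5 (ρ := ρ) hl0 hs0.le (by linarith : s ≤ B) hP h hm1 hm2
  -- the entropies
  have hKu := hK l 1 (fP l B) (chi B) hl0 hl1 (Or.inl rfl) hP N V p h
  rw [log_fP94] at hKu
  have hEU : Ef ρ (fP l B) V (fun y => Uf B (V y)) ≤ B := by
    have hfle : ∀ y, fP l B (V y) ≤ Real.exp (l * B) := fun y =>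
      Real.exp_le_exp.2 (mul_le_mul_of_nonneg_left (Uf_le94 B _) hl0.le)
    have hU : Integrable (fun y => Uf B (V y) * fP l B (V y)) (PN ρ N) :=
      int_Ff hP h ((Uf_meas94 B).comp h.meas) (M := (B + 1) * Real.exp (l * B)) fun y => by
        rw [abs_mul, abs_of_pos (hP.pos _)]
        exact mul_le_mul (Uf_abs94 hB0 (h.nonneg y)) (hfle y) (hP.pos _).le (by linarith)
    refine (Ef_mono94 (G := fun _ => B) hP h hU ((int_f hP h).const_mul B)
      fun y => Uf_le94 B _).trans (le_of_eq ?_)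
    exact Ef_const94 hP h B
  have hlogg : l * s - 3 ≤ Real.log (gf ρ (fP l B) V) := by
    rw [← hg]
    have h1 := Real.log_le_log (by positivity) hglow
    rw [Real.log_div (Real.exp_pos _).ne' (by norm_num), Real.log_exp] at h1
    have h2 : Real.log 8 ≤ 3 := by
      have h3 := Real.log_two_lt_d9
      have h4 : Real.log 8 = 3 * Real.log 2 := by
        rw [show (8 : ℝ) = 2 ^ 3 by norm_num, Real.log_pow]
        norm_num
      linarith
    linarith
  obtain ⟨n, hn⟩ : ∃ n : ℝ, n = Nt ρ (fP l B) (chi B) N V p := ⟨_, rfl⟩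
  obtain ⟨n', hn'⟩ : ∃ n' : ℝ, n' = Nt ρ (fM l') (fun _ => 1) N V p := ⟨_, rfl⟩
  have hn0' : 0 ≤ n' := by rw [hn']; exact Nt0 hM h
  rw [← hn] at hKu
  have hNt : cK * (l ^ 2 * n) ≤ 23 := by
    have h1 := mul_le_mul_of_nonneg_left hEU hl0.le
    rw [hlB] at h1
    have h2 : cK * (l ^ 2 * n) = cK * l ^ 2 * n := by ring
    rw [h2]
    linarith
  have hKl := hK l' (-1) (fM l') (fun _ => 1) hl0' hl1' (Or.inr rfl) hM N V p h
  have hmi := minus94 (ρ := ρ) hl0' hl1' hM h hq hKl hlow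
  rw [← hn'] at hmi
  have hlog2 : Real.log 2 ≤ 1 := by
    have := Real.log_two_lt_d9
    linarith
  have hmi' : l' * Ef ρ (fM l') V V + cK * l' ^ 2 * n' ≤ Λ := by linarith
  have hEf0 : 0 ≤ Ef ρ (fM l') V V := by
    unfold Ef
    exact div_nonneg (integral_nonneg fun y => mul_nonneg (h.nonneg y) (hM.pos _).le)
      (gf_pos hM h).le
  have hEf : Ef ρ (fM l') V V ≤ s / 16 := by
    have h1 : l' * Ef ρ (fM l') V V ≤ Λ := by
      have : 0 ≤ cK * l' ^ 2 * n' := by positivity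
      linarith
    obtain ⟨e, he⟩ : ∃ e : ℝ, e = Ef ρ (fM l') V V := ⟨_, rfl⟩
    rw [← he] at h1 ⊢
    rw [hl', div_mul_eq_mul_div, div_le_iff₀ hs0] at h1
    have h2 : Λ * (16 * e) ≤ Λ * s := by linarith
    have h3 := le_of_mul_le_mul_left h2 (by linarith : 0 < Λ)
    linarith
  have hn'2 : cK * (l' ^ 2 * n') ≤ Λ := by
    have h1 : 0 ≤ l' * Ef ρ (fM l') V V := mul_nonneg hl0'.le hEf0
    have h2 : cK * (l' ^ 2 * n') = cK * l' ^ 2 * n' := by ring
    rw [h2]
    linarith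
  -- the drift
  have hdr := hLD l l' B α hl0 hl1 hl0' hl1' hB0 hα0 N V V p p (fun _ => 0) h h measurable_const
    (fun _ => le_rfl) ⟨0, fun _ => le_rfl⟩ (fun y y₁ => by
      rw [sub_zero]
      exact h.conv y₁ y)
  simp only [sub_zero] at hdr
  rw [← hn, ← hn'] at hdr
  have hup2 : C0 * (l + α) * n ≤ C0 / cK * (1.21 * (a * Real.sqrt Λ)) := by
    have h1 : cK * n ≤ 23 * a ^ 2 / 400 := by
      have h2 : l ^ 2 = 400 / a ^ 2 := by
        rw [hl, div_pow]
        norm_num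
      rw [h2] at hNt
      rw [le_div_iff₀ (by norm_num)]
      have h3 : cK * (400 / a ^ 2 * n) = cK * n * 400 / a ^ 2 := by ring
      rw [h3, div_le_iff₀ (by positivity)] at hNt
      exact hNt
    have h2 : (l + α) * a ^ 2 = a * (20 + Real.sqrt Λ) := by
      rw [hl, hα]
      field_simp
    have h3 : C0 * (l + α) * n = C0 / cK * ((l + α) * (cK * n)) := by
      field_simp
    rw [h3]
    refine mul_le_mul_of_nonneg_left ?_ hr
    have h4 := mul_le_mul_of_nonneg_left h1 (by positivity : 0 ≤ l + α)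
    refine h4.trans ?_
    have h5 : (l + α) * (23 * a ^ 2 / 400) = 23 / 400 * (a * (20 + Real.sqrt Λ)) := by
      rw [← h2]
      ring
    rw [h5]
    nlinarith
  have hlo2 : C0 * (l' ^ 2 / α) * n' ≤ C0 / cK * (a * Real.sqrt Λ) := by
    have h1 : C0 * (l' ^ 2 / α) * n' = C0 / cK * ((cK * (l' ^ 2 * n')) / α) := by
      field_simp
    rw [h1]
    refine mul_le_mul_of_nonneg_left ?_ hr
    rw [div_le_iff₀ hα0]
    have h2 : a * Real.sqrt Λ * α = Λ := by
      rw [hα]
      have h3 := Real.mul_self_sqrt (by linarith : 0 ≤ Λ)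
      field_simp
      nlinarith
    rw [h2]
    exact hn'2
  have hfin : s * (3 / 16) ≤ C0 / cK * (2.21 * (a * Real.sqrt Λ)) := by
    have h1 : C0 / cK * (2.21 * (a * Real.sqrt Λ)) =
        C0 / cK * (1.21 * (a * Real.sqrt Λ)) + C0 / cK * (a * Real.sqrt Λ) := by ring
    rw [h1]
    linarith
  have h5 : s ≤ 12 * (C0 / cK) * (a * Real.sqrt Λ) := by
    have h6 : 0 ≤ C0 / cK * (a * Real.sqrt Λ) := by positivity
    nlinarith
  have h7 : (20 + 12 * (C0 / cK)) * (a * Real.sqrt Λ + Λ) =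
      12 * (C0 / cK) * (a * Real.sqrt Λ) + (20 * (a * Real.sqrt Λ) +
        (20 + 12 * (C0 / cK)) * Λ) := by ring
  rw [h7]
  have h8 : 0 ≤ 20 * (a * Real.sqrt Λ) + (20 + 12 * (C0 / cK)) * Λ := by positivity
  linarith

end Pool.Agent.W_7d29a1_AM
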