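import Pool.Agent.W_7d29a1_AM.DefsAT96
import Pool.Agent.W_7d29a1_AM.AmpC96

/-!
A deep lower side of polynomial probability forces deviations above the mean (helper96).
-/

set_option autoImplicit false

namespace Pool.Agent.W_7d29a1_AM

open MeasureTheory ProbabilityTheory Filter Topology Pool.Agent.W_MP_7d29a1_pr
  Pool.Agent.W_7d29a1_h46 Pool.Agent.W_7d29a1_h46u

namespace D96

open G96 C96

variable {ρ : Measure ℝ} {β : ℝ} {N : ℕ}

/-- The tail above a centre. -/
lemma tailC [IsProbabilityMeasure ρ] {V : (Fin N → ℝ) → ℝ} (hV : Measurable V) {s x₀ : ℝ}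
    (hI : Integrable (fun y => (V y - s) ^ 2) (PN ρ N)) (hx : s < x₀) :
    (∫ y, (max (V y - x₀) 0) ^ (4 / 3 : ℝ) ∂PN ρ N) ^ (3 / 4 : ℝ) ≤
      (∫ y, (V y - s) ^ 2 ∂PN ρ N) ^ (1 / 2 : ℝ) *
        ((PN ρ N).real {y | x₀ ≤ V y}) ^ (1 / 4 : ℝ) := by
  have hm : Measurable fun y => max (V y - s) 0 := (hV.sub_const _).max measurable_const
  have hle : ∀ y, (max (V y - s) 0) ^ 2 ≤ (V y - s) ^ 2 := fun y => by
    rcases le_total 0 (V y - s) with h | h
    · rw [max_eq_left h]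
    · rw [max_eq_right h]
      nlinarith [sq_nonneg (V y - s)]
  have hI' : Integrable (fun y => (max (V y - s) 0) ^ 2) (PN ρ N) :=
    hI.mono' (hm.pow_const _).aestronglyMeasurable (Eventually.of_forall fun y => by
      rw [Real.norm_of_nonneg (sq_nonneg _)]; exact hle y)
  have h1 := tail hm (fun y => le_max_right _ _) hI' (x₀ := x₀ - s) (by linarith)
  have e1 : ∀ y, max (max (V y - s) 0 - (x₀ - s)) 0 = max (V y - x₀) 0 := fun y => by
    rcases le_total 0 (V y - s) with h | h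
    · rw [max_eq_left h]
      congr 1
      ring
    · rw [max_eq_right h, max_eq_right (by linarith), max_eq_right (by linarith)]
  have e2 : {y | x₀ - s ≤ max (V y - s) 0} = {y | x₀ ≤ V y} := by
    ext y
    simp only [Set.mem_ofPred_eq]
    constructor
    · intro h
      rcases le_total 0 (V y - s) with h' | h'
      · rw [max_eq_left h'] at h
        linarith
      · rw [max_eq_right h'] at h
        linarith
    · intro h
      exact le_max_of_le_left (by linarith)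
  simp only [e1] at h1
  rw [e2] at h1
  refine h1.trans (mul_le_mul_of_nonneg_right ?_ (Real.rpow_nonneg measureReal_nonneg _))
  exact Real.rpow_le_rpow (integral_nonneg fun y => sq_nonneg _)
    (integral_mono hI' hI hle) (by norm_num)

/-- The mean under the nearly trivial tilt. -/
lemma Ef_low [IsProbabilityMeasure ρ] {l B : ℝ} (hl : 0 < l) (hB : 0 ≤ B)
    (hlB : l * (B + 1) ^ 2 ≤ 1) (hW : Wt l 1 (fP l B) (chi B)) {V F : (Fin N → ℝ) → ℝ}
    {p : Fin N → (Fin N → ℝ) → ℝ} (h : Cls β V p) (hF : Measurable F) (hF0 : ∀ y, 0 ≤ F y)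
    (hF1 : ∀ y, F y ≤ B + 1) :
    ∫ y, F y ∂PN ρ N - 1 ≤ Ef ρ (fP l B) V F ∧ Real.exp (-l) ≤ gf ρ (fP l B) V := by
  have hf1 : ∀ v, fP l B v ≤ Real.exp (l * B) := fun v => fP_le hl.le v
  have hf0 : ∀ v, 0 ≤ v → Real.exp (-l) ≤ fP l B v := fun v hv => by
    unfold fP
    have := mul_le_mul_of_nonneg_left (Uf_ge hB hv) hl.le
    exact Real.exp_le_exp.mpr (by linarith)
  have iF : Integrable F (PN ρ N) := Integrable.of_bound hF.aestronglyMeasurable (B + 1)
    (Eventually.of_forall fun y => by rw [Real.norm_of_nonneg (hF0 y)]; exact hF1 y)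
  have iFf : Integrable (fun y => F y * fP l B (V y)) (PN ρ N) :=
    int_Ff hW h hF (M := (B + 1) * Real.exp (l * B)) fun y => by
      rw [abs_of_nonneg (mul_nonneg (hF0 y) (hW.pos _).le)]
      exact mul_le_mul (hF1 y) (hf1 _) (hW.pos _).le (by linarith)
  have hg := gf_pos (ρ := ρ) hW h
  have hg1 : gf ρ (fP l B) V ≤ Real.exp (l * B) := by
    unfold gf
    have := integral_mono (int_f (ρ := ρ) hW h) (integrable_const (Real.exp (l * B)))
      fun y => hf1 (V y)
    simpa using this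
  have hg0 : Real.exp (-l) ≤ gf ρ (fP l B) V := by
    unfold gf
    have := integral_mono (integrable_const (Real.exp (-l))) (int_f (ρ := ρ) hW h)
      fun y => hf0 (V y) (h.nonneg y)
    simpa using this
  refine ⟨?_, hg0⟩
  have hI0 : 0 ≤ ∫ y, F y ∂PN ρ N := integral_nonneg hF0
  have hI1 : ∫ y, F y ∂PN ρ N ≤ B + 1 := by
    have := integral_mono iF (integrable_const (B + 1)) hF1
    simpa using this
  have h1 : Real.exp (-l) * ∫ y, F y ∂PN ρ N ≤ ∫ y, F y * fP l B (V y) ∂PN ρ N := by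
    rw [← integral_const_mul]
    refine integral_mono (iF.const_mul _) iFf fun y => ?_
    simp only
    rw [mul_comm]
    exact mul_le_mul_of_nonneg_left (hf0 _ (h.nonneg y)) (hF0 y)
  unfold Ef
  rw [le_div_iff₀ hg]
  obtain ⟨I, hI⟩ : ∃ I, I = ∫ y, F y ∂PN ρ N := ⟨_, rfl⟩
  rw [← hI] at hI0 hI1 h1 ⊢
  have h2 : l * (B + 1) ≤ 1 := by
    have : l * (B + 1) ≤ l * (B + 1) ^ 2 := by
      refine mul_le_mul_of_nonneg_left ?_ hl.le
      nlinarith
    linarith
  have h3 : I - 1 ≤ Real.exp (-(l * (B + 1))) * I := by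
    have e1 := Real.add_one_le_exp (-(l * (B + 1)))
    have e2 := mul_le_mul_of_nonneg_right e1 hI0
    have e3 : l * (B + 1) * I ≤ l * (B + 1) * (B + 1) :=
      mul_le_mul_of_nonneg_left hI1 (by positivity)
    nlinarith
  rcases le_total (I - 1) 0 with h4 | h4
  · have : (I - 1) * gf ρ (fP l B) V ≤ 0 := mul_nonpos_of_nonpos_of_nonneg h4 hg.le
    have h5 : 0 ≤ Real.exp (-l) * I := by positivity
    linarith
  · calc (I - 1) * gf ρ (fP l B) V ≤ (I - 1) * Real.exp (l * B) :=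
          mul_le_mul_of_nonneg_left hg1 h4
      _ ≤ Real.exp (-(l * (B + 1))) * I * Real.exp (l * B) :=
          mul_le_mul_of_nonneg_right h3 (Real.exp_pos _).le
      _ = Real.exp (-l) * I := by
          rw [mul_right_comm, ← Real.exp_add]
          congr 2
          ring
      _ ≤ _ := h1

/-- The truncated value near the centre. -/
lemma chi_c {s v : ℝ} (hs : 0 < s) (hv : 0 ≤ v) :
    v - 1 - 2 / s * (v - s) ^ 2 ≤ chi (4 * s) v * (v - 0) := by
  rw [sub_zero]
  have hc : 0 ≤ chi (4 * s) v * v := mul_nonneg (chi_pos _ _).le hv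
  rcases le_total (2 * s) v with h | h
  · have e1 : s * (v - s) ≤ (v - s) ^ 2 := by nlinarith
    have e2 : 2 / s * (s * (v - s)) ≤ 2 / s * (v - s) ^ 2 :=
      mul_le_mul_of_nonneg_left e1 (by positivity)
    have e3 : 2 / s * (s * (v - s)) = 2 * (v - s) := by field_simp
    linarith
  · have e0 : 0 ≤ 2 / s * (v - s) ^ 2 := by positivity
    have e3 : v - 1 ≤ chi (4 * s) v * v := by
      unfold chi
      have hE := Real.exp_pos (v - 4 * s)
      obtain ⟨E, hEd⟩ : ∃ E, E = Real.exp (v - 4 * s) := ⟨_, rfl⟩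
      rw [← hEd] at hE ⊢
      rw [one_div, inv_mul_eq_div, le_div_iff₀ (by linarith)]
      have e4 : v * E ≤ 1 := by
        have e5 : E ≤ Real.exp (-v) := by
          rw [hEd]
          exact Real.exp_le_exp.mpr (by linarith)
        have e6 : v * Real.exp (-v) ≤ 1 := by
          have e7 := Real.add_one_le_exp v
          have e8 : Real.exp v * Real.exp (-v) = 1 := by rw [← Real.exp_add]; simp
          have e9 := Real.exp_pos (-v)
          nlinarith
        exact (mul_le_mul_of_nonneg_left e5 hv).trans e6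
      nlinarith
    linarith

lemma min_c {s v : ℝ} (hs : 0 < s) : v - 1 / s * (v - s) ^ 2 ≤ min v (4 * s) := by
  refine le_min ?_ ?_
  · have : 0 ≤ 1 / s * (v - s) ^ 2 := by positivity
    linarith
  · rcases le_total v (4 * s) with h | h
    · have : 0 ≤ 1 / s * (v - s) ^ 2 := by positivity
      linarith
    · have e1 : s * (v - s) ≤ (v - s) ^ 2 := by nlinarith
      have e2 : 1 / s * (s * (v - s)) ≤ 1 / s * (v - s) ^ 2 :=
        mul_le_mul_of_nonneg_left e1 (by positivity)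
      have e3 : 1 / s * (s * (v - s)) = v - s := by field_simp
      linarith

/-- The logarithm of the inverse probability. -/
lemma log_K {K : ℝ} (hK : 16 ≤ K) : Real.log (2 * K ^ 4) ≤ K ∧ 1 ≤ Real.log (2 * K ^ 4) := by
  have hK0 : 0 < K := by linarith
  constructor
  · rw [Real.log_mul (by norm_num) (by positivity), Real.log_pow]
    have e1 : Real.log K = Real.log 16 + Real.log (K / 16) := by
      rw [← Real.log_mul (by norm_num) (by positivity)]
      congr 1
      ring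
    have e2 := Real.log_le_sub_one_of_pos (show 0 < K / 16 by positivity)
    have e3 : Real.log 16 = 4 * Real.log 2 := by
      rw [show (16 : ℝ) = 2 ^ 4 by norm_num, Real.log_pow]
      norm_num
    have e4 := Real.log_two_lt_d9
    rw [e1, e3]
    push_cast
    linarith
  · rw [Real.le_log_iff_exp_le (by positivity)]
    have e1 := Real.exp_one_lt_d9
    have e2 : (16 : ℝ) ^ 4 ≤ K ^ 4 := pow_le_pow_left₀ (by norm_num) hK 4
    linarith

lemma exp11 : Real.exp 1 * Real.exp 1 ≤ 8 := by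
  have e5 := Real.exp_one_lt_d9
  have e6 := Real.exp_pos 1
  nlinarith

end D96

open D96 C96 G96 in
/-- The class form. -/
theorem deepC96 {ρ : Measure ℝ} [IsProbabilityMeasure ρ] {β : ℝ} (hρ : EM ρ) (hβ : 0 < β)
    (h0 : WtP) (hD' : LemDT96 ρ β) (hK' : LemK ρ β) (hG' : LemG ρ β) : DeepQ96 ρ β := by
  obtain ⟨CD, hCD, hD⟩ := hD'
  obtain ⟨cK, hcK, hK⟩ := hK'
  obtain ⟨cG, CG, hcG, hCG, hG⟩ := hG'
  intro Λ hΛ
  obtain ⟨K2, hK2⟩ : ∃ K2, K2 = 8 * (1 + CD / cK) := ⟨_, rfl⟩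
  have hK20 : 0 < K2 := by rw [hK2]; positivity
  obtain ⟨c1, hc1⟩ : ∃ c1, c1 = 1 / (4 * (CD * K2 + 5)) := ⟨_, rfl⟩
  have hc10 : 0 < c1 := by rw [hc1]; positivity
  obtain ⟨g1, hg1⟩ : ∃ g1, g1 = cG * c1 := ⟨_, rfl⟩
  have hg10 : 0 < g1 := by rw [hg1]; positivity
  have m1 : 0 ≤ (Λ + 2) / g1 := by positivity
  have m2 : 0 ≤ CG * (Λ + 2) ^ 2 / g1 ^ 2 := by positivity
  refine ⟨16 + (Λ + 2) / g1 + CG * (Λ + 2) ^ 2 / g1 ^ 2, 2 + K2, by linarith, ?_⟩
  intro N V p hV σ K hσ hK0' hlow hmean hvar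
  have hK16 : 16 ≤ K := by linarith
  have hKa : (Λ + 2) / g1 ≤ K := by linarith
  have hKb : CG * (Λ + 2) ^ 2 / g1 ^ 2 ≤ K := by linarith
  have hσ2 : 2 ≤ σ := by linarith
  have hσK : K2 ≤ σ := by linarith
  have hσ0 : 0 < σ := by linarith
  have hKp : 0 < K := by linarith
  obtain ⟨hL1, hL2⟩ := log_K hK16
  obtain ⟨Lg, hLg⟩ : ∃ Lg, Lg = Real.log (2 * K ^ 4) := ⟨_, rfl⟩
  rw [← hLg] at hL1 hL2
  have hLg0 : 0 < Lg := by linarith
  obtain ⟨s, hs⟩ : ∃ s, s = K * σ := ⟨_, rfl⟩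
  rw [← hs] at hmean hvar
  have hs0 : 0 < s := by rw [hs]; positivity
  have hs32 : 32 ≤ s := by
    have := mul_le_mul hK16 hσ2 (by norm_num) hKp.le
    linarith
  have hsK : K ≤ s := by
    rw [hs]
    exact le_mul_of_one_le_right hKp.le (by linarith)
  obtain ⟨q, hq⟩ : ∃ q, q = 1 / (2 * K ^ 4) := ⟨_, rfl⟩
  rw [← hq] at hlow
  have hqexp : q = Real.exp (-Lg) := by
    rw [hq, hLg, Real.exp_neg, Real.exp_log (by positivity), one_div]
  obtain ⟨l', hl'⟩ : ∃ l', l' = K2 * Lg / s := ⟨_, rfl⟩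
  have hls : l' * s = K2 * Lg := by rw [hl']; field_simp
  have hl'0 : 0 < l' := by rw [hl']; positivity
  have hl'1 : l' ≤ 1 := by
    rw [hl', div_le_one hs0, hs]
    calc K2 * Lg ≤ σ * K := mul_le_mul hσK hL1 hLg0.le hσ0.le
      _ = K * σ := mul_comm _ _
  obtain ⟨B, hB⟩ : ∃ B, B = 4 * s := ⟨_, rfl⟩
  have hB0 : 0 ≤ B := by rw [hB]; positivity
  obtain ⟨l, hl⟩ : ∃ l, l = l' / (B + 1) ^ 2 := ⟨_, rfl⟩
  have hl0 : 0 < l := by rw [hl]; positivity
  have hlB2 : l * (B + 1) ^ 2 = l' := by rw [hl]; field_simp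
  have hlB2' : l * (B + 1) ^ 2 ≤ 1 := by rw [hlB2]; exact hl'1
  have hB1 : 1 ≤ (B + 1) ^ 2 := one_le_pow₀ (by linarith)
  have hll : l ≤ l' := by
    rw [hl]
    exact div_le_self hl'0.le hB1
  have hl1 : l ≤ 1 := hll.trans hl'1
  have hlB1 : l * (B + 1) ≤ 1 := by
    have e1 : B + 1 ≤ (B + 1) ^ 2 := le_self_pow₀ (by linarith) (by norm_num)
    exact (mul_le_mul_of_nonneg_left e1 hl0.le).trans hlB2'
  obtain ⟨hWP, -⟩ := h0 l B hl0 hl1 hB0
  obtain ⟨-, hWM⟩ := h0 l' B hl'0 hl'1 hB0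
  -- the lower side
  obtain ⟨gm, hgm⟩ : ∃ gm, gm = gf ρ (fM l') V := ⟨_, rfl⟩
  have hgm0 : 0 < gm := by rw [hgm]; exact gf_pos hWM hV
  have hlog2 : Real.log 2 ≤ 1 := by
    have := Real.log_two_lt_d9
    linarith
  have hlog20 : 0 ≤ Real.log 2 := Real.log_nonneg (by norm_num)
  have hgmlow : -(2 * Lg) ≤ Real.log gm := by
    have e1 : q * Real.exp (-(l' * Real.log 2)) ≤ gm := by
      rw [hgm]
      refine gf_ge hWM hV (A := {y | V y ≤ Real.log 2}) (measurableSet_le hV.meas measurable_const)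
        (Real.exp_pos _).le hlow ?_
      intro y hy
      unfold fM
      exact Real.exp_le_exp.mpr (neg_le_neg (mul_le_mul_of_nonneg_left hy hl'0.le))
    rw [Real.le_log_iff_exp_le hgm0]
    refine le_trans ?_ e1
    rw [hqexp, ← Real.exp_add]
    apply Real.exp_le_exp.mpr
    have : l' * Real.log 2 ≤ 1 * Real.log 2 := mul_le_mul_of_nonneg_right hl'1 hlog20
    linarith
  obtain ⟨Ntm, hNtm⟩ : ∃ n, n = Nt ρ (fM l') (fun _ => 1) N V p := ⟨_, rfl⟩
  have hNtm0 : 0 ≤ Ntm := by rw [hNtm]; exact Nt0 hWM hV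
  obtain ⟨Em, hEm⟩ : ∃ Em, Em = Ef ρ (fM l') V V := ⟨_, rfl⟩
  have k2 : cK * l' ^ 2 * Ntm ≤ -(l' * Em) - Real.log gm := by
    have e1 := hK l' (-1) (fM l') (fun _ => 1) hl'0 hl'1 (Or.inr rfl) hWM N V p hV
    have e2 : Ef ρ (fM l') V (fun y => Real.log (fM l' (V y))) = -(l' * Em) := by
      rw [hEm]
      unfold Ef
      have e3 : (fun y => Real.log (fM l' (V y)) * fM l' (V y)) =
          fun y => (-l') * (V y * fM l' (V y)) := by
        funext y
        have : Real.log (fM l' (V y)) = -(l' * V y) := by unfold fM; rw [Real.log_exp]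
        rw [this]
        ring
      rw [e3, integral_const_mul]
      ring
    rw [e2, ← hNtm, ← hgm] at e1
    exact e1
  have hEm0 : 0 ≤ Em := by
    rw [hEm]
    unfold Ef
    exact div_nonneg (integral_nonneg fun y => mul_nonneg (hV.nonneg y) (hWM.pos _).le)
      (gf_pos hWM hV).le
  obtain ⟨w, hw⟩ : ∃ w, w = s / K2 := ⟨_, rfl⟩
  have hwK : K2 * w = s := by rw [hw]; field_simp
  have hwl : l' * w = Lg := by
    have : K2 * (l' * w) = K2 * Lg := by
      rw [← hls, ← hwK]; ring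
    exact mul_left_cancel₀ hK20.ne' this
  have hw0 : 0 < w := by rw [hw]; positivity
  have k9 : Em ≤ 2 * w := by
    have e1 : 0 ≤ cK * l' ^ 2 * Ntm := by positivity
    have e2 : l' * Em ≤ l' * (2 * w) := by
      have : l' * (2 * w) = 2 * Lg := by rw [← hwl]; ring
      rw [this]
      linarith
    exact le_of_mul_le_mul_left e2 hl'0
  have k10 : CD * l' * Ntm ≤ 2 * CD / cK * w := by
    have e1 : cK * l' ^ 2 * Ntm ≤ 2 * Lg := by
      have : 0 ≤ l' * Em := by positivity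
      linarith
    have e2 : l' * (cK * l' * Ntm) ≤ l' * (2 * w) := by
      have : l' * (2 * w) = 2 * Lg := by rw [← hwl]; ring
      rw [this]
      linarith
    have e3 := le_of_mul_le_mul_left e2 hl'0
    have e4 := mul_le_mul_of_nonneg_left e3 (by positivity : 0 ≤ CD / cK)
    have e5 : CD / cK * (cK * l' * Ntm) = CD * l' * Ntm := by field_simp
    have e6 : CD / cK * (2 * w) = 2 * CD / cK * w := by ring
    rw [e5, e6] at e4
    exact e4
  have k11 : Em + CD * l' * Ntm ≤ s / 4 := by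
    have e1 : 2 * w + 2 * CD / cK * w = (K2 * w) / 4 := by rw [hK2]; ring
    rw [hwK] at e1
    linarith
  -- integrability
  have iV2 := sq_intV hρ hβ.le hV
  have iV : Integrable V (PN ρ N) := by
    refine (iV2.add (integrable_const 1)).mono' hV.meas.aestronglyMeasurable
      (Eventually.of_forall fun y => ?_)
    rw [Real.norm_of_nonneg (hV.nonneg y)]
    simp only [Pi.add_apply]
    have e1 := sq_nonneg (V y - 1)
    have e2 := hV.nonneg y
    have e3 : (V y - 1) ^ 2 = V y ^ 2 - 2 * V y + 1 := by ring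
    linarith
  have iVs : Integrable (fun y => (V y - s) ^ 2) (PN ρ N) := by
    have e1 : (fun y => (V y - s) ^ 2) = fun y => V y ^ 2 + (-(2 * s)) * V y + s ^ 2 := by
      funext y; ring
    rw [e1]
    exact (iV2.add (iV.const_mul _)).add (integrable_const _)
  have hσs : 8 * σ ^ 2 / s ≤ s / 32 := by
    rw [div_le_iff₀ hs0, hs]
    have e1 : (16 : ℝ) ^ 2 ≤ K ^ 2 := pow_le_pow_left₀ (by norm_num) hK16 2
    have e2 := mul_le_mul_of_nonneg_right e1 (sq_nonneg σ)
    have e3 : K * σ / 32 * (K * σ) = K ^ 2 * σ ^ 2 / 32 := by ring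
    rw [e3]
    linarith
  have hσs' : 4 * σ ^ 2 / s ≤ σ / 4 := by
    rw [div_le_iff₀ hs0, hs]
    have e2 := mul_le_mul_of_nonneg_right hK16 (sq_nonneg σ)
    have e3 : σ / 4 * (K * σ) = K * σ ^ 2 / 4 := by ring
    rw [e3]
    linarith
  -- the upper side
  obtain ⟨T, hT⟩ : ∃ T, T = Ef ρ (fP l B) V (fun y => chi B (V y) * (V y - 0)) := ⟨_, rfl⟩
  obtain ⟨hTlow, hglow⟩ := Ef_low (ρ := ρ) hl0 hB0 hlB2' hWP hV
    (F := fun y => chi B (V y) * (V y - 0)) ((hWP.measx.comp hV.meas).mul (hV.meas.sub_const _))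
    (fun y => mul_nonneg (chi_pos _ _).le (by have := hV.nonneg y; linarith))
    (fun y => by rw [sub_zero]; exact chi_mul96 hB0 (hV.nonneg y))
  rw [← hT] at hTlow
  have k3 : 3 * s / 4 ≤ T := by
    have iC : Integrable (fun y => chi B (V y) * (V y - 0)) (PN ρ N) :=
      Integrable.of_bound ((hWP.measx.comp hV.meas).mul (hV.meas.sub_const _)).aestronglyMeasurable
        (B + 1) (Eventually.of_forall fun y => by
          rw [sub_zero, Real.norm_of_nonneg (mul_nonneg (chi_pos _ _).le (hV.nonneg y))]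
          exact chi_mul96 hB0 (hV.nonneg y))
    have i1 : Integrable (fun y => V y - 1) (PN ρ N) := iV.sub (integrable_const _)
    have i2 : Integrable (fun y => 2 / s * (V y - s) ^ 2) (PN ρ N) := iVs.const_mul _
    have e1 : ∫ y, (V y - 1 - 2 / s * (V y - s) ^ 2) ∂PN ρ N ≤
        ∫ y, chi B (V y) * (V y - 0) ∂PN ρ N := by
      refine integral_mono (i1.sub i2) iC fun y => ?_
      simp only
      rw [hB]
      exact chi_c hs0 (hV.nonneg y)
    rw [integral_sub i1 i2, integral_sub iV (integrable_const _), integral_const_mul] at e1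
    simp only [integral_const, probReal_univ, smul_eq_mul, mul_one] at e1
    have e2 : 2 / s * ∫ y, (V y - s) ^ 2 ∂PN ρ N ≤ 2 / s * (4 * σ ^ 2) :=
      mul_le_mul_of_nonneg_left hvar (by positivity)
    have e3 : 2 / s * (4 * σ ^ 2) = 8 * σ ^ 2 / s := by ring
    linarith
  -- the gradient
  obtain ⟨u, hu⟩ : ∃ u, u = s ^ 2 / Lg := ⟨_, rfl⟩
  have hu0 : 0 < u := by rw [hu]; positivity
  obtain ⟨n, hn⟩ : ∃ n, n = Ns ρ (fP l B) (chi B) N V p u := ⟨_, rfl⟩
  have hn0 : 0 ≤ n := by rw [hn]; exact Ns0 hWP hV u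
  have k6 : T - CD * l' * n - (B + 1) / u * (n + 1) ≤ Em + CD * l' * Ntm := by
    have e1 := hD l l' B hl0 hll hl'1 hB0 N V V p p (fun _ => 0) u u hV hV measurable_const
      (fun _ => le_rfl) ⟨0, fun _ => le_rfl⟩ (fun y y₁ => by
        have := hV.conv y₁ y
        rw [sub_zero]
        exact this) hu0 hu0.le le_rfl
    rw [← hNtm, ← hn, ← hEm, ← hT] at e1
    have e2 : n + 1 + u - u = n + 1 := by ring
    rw [e2] at e1
    exact e1
  have k7 : c1 * u ≤ n := by
    have e1 : (B + 1) / u ≤ 5 * Lg / s := by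
      rw [hu, hB, div_le_div_iff₀ (by positivity) hs0]
      have e11 : 5 * Lg * (s ^ 2 / Lg) = 5 * s ^ 2 := by field_simp
      have e12 : s ≤ s ^ 2 := le_self_pow₀ (by linarith) (by norm_num)
      have e13 : (4 * s + 1) * s = 4 * s ^ 2 + s := by ring
      rw [e11, e13]
      linarith
    have e2 : 5 * Lg / s ≤ s / 8 := by
      rw [div_le_iff₀ hs0]
      have e11 : 32 * s ≤ s * s := mul_le_mul_of_nonneg_right hs32 hs0.le
      have e12 : s / 8 * s = s * s / 8 := by ring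
      have e13 : 2 * K ≤ s := by
        rw [hs]
        have := mul_le_mul_of_nonneg_left hσ2 hKp.le
        linarith
      rw [e12]
      linarith
    have e3 : (B + 1) / u * (n + 1) ≤ 5 * Lg / s * n + s / 8 := by
      have := mul_le_mul_of_nonneg_right e1 (by linarith : 0 ≤ n + 1)
      linarith
    have e4 : CD * l' * n = CD * K2 * (Lg / s) * n := by rw [hl']; ring
    have e5 : s / 4 ≤ (CD * K2 + 5) * (Lg / s) * n := by
      have : 5 * Lg / s * n = 5 * (Lg / s) * n := by ring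
      linarith
    rw [hc1, hu]
    have e6 : (CD * K2 + 5) * (Lg / s) * n = (CD * K2 + 5) * n * Lg / s := by ring
    rw [e6, le_div_iff₀ hs0] at e5
    have e7 : 1 / (4 * (CD * K2 + 5)) * (s ^ 2 / Lg) = s ^ 2 / (4 * (CD * K2 + 5) * Lg) := by
      field_simp
    rw [e7, div_le_iff₀ (by positivity)]
    linarith
  -- the upgrade
  obtain ⟨θ, hθ⟩ : ∃ θ, θ = (Λ + 2) * σ / (g1 * u) := ⟨_, rfl⟩
  have hθ0 : 0 ≤ θ := by rw [hθ]; positivity
  have hθu : θ * (g1 * u) = (Λ + 2) * σ := by rw [hθ]; field_simp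
  have huK : σ ^ 2 * K ≤ u := by
    rw [hu, le_div_iff₀ hLg0, hs]
    have : σ ^ 2 * K * Lg ≤ σ ^ 2 * K * K := mul_le_mul_of_nonneg_left hL1 (by positivity)
    linarith
  have hθ1 : θ ≤ 1 := by
    rw [hθ, div_le_one (by positivity)]
    rw [div_le_iff₀ hg10] at hKa
    have e1 : (Λ + 2) * σ ≤ K * g1 * σ := mul_le_mul_of_nonneg_right hKa hσ0.le
    have e2 : K * g1 * σ ≤ K * g1 * σ ^ 2 :=
      mul_le_mul_of_nonneg_left (le_self_pow₀ (by linarith) (by norm_num)) (by positivity)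
    have e3 : g1 * (σ ^ 2 * K) ≤ g1 * u := mul_le_mul_of_nonneg_left huK hg10.le
    linarith
  have hcost : CG * θ ^ 2 * u ≤ 1 := by
    rw [div_le_iff₀ (by positivity)] at hKb
    have e1 : CG * θ ^ 2 * u * (g1 ^ 2 * u) = CG * (Λ + 2) ^ 2 * σ ^ 2 := by
      have : CG * θ ^ 2 * u * (g1 ^ 2 * u) = CG * (θ * (g1 * u)) ^ 2 := by ring
      rw [this, hθu]
      ring
    have e2 : CG * (Λ + 2) ^ 2 * σ ^ 2 ≤ 1 * (g1 ^ 2 * u) := by
      have e3 := mul_le_mul_of_nonneg_right hKb (sq_nonneg σ)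
      have e4 := mul_le_mul_of_nonneg_left huK (sq_nonneg g1)
      linarith
    rw [← e1] at e2
    exact le_of_mul_le_mul_right e2 (by positivity)
  have k12 := hG l B hl0 hl1 hB0 N V p V (fun y => min (V y) B) θ ((K + Λ) * σ) u hV hV.meas
    hV.nonneg ⟨V 0 + β, grow hβ.le hV⟩ (hV.meas.min measurable_const)
    (fun y => le_min (hV.nonneg y) hB0) ⟨B, fun y => min_le_right _ _⟩
    (fun y y₂ _ => by
      have e1 := hV.conv y y₂
      have e2 := min_le_left (V y) B
      linarith) hθ0 hθ1 (by positivity) hu0.le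
  obtain ⟨hElow, -⟩ := Ef_low (ρ := ρ) hl0 hB0 hlB2' hWP hV
    (F := fun y => min (V y) B) (hV.meas.min measurable_const)
    (fun y => le_min (hV.nonneg y) hB0) (fun y => (min_le_right _ _).trans (by linarith))
  have k13 : s - σ ≤ Ef ρ (fP l B) V (fun y => min (V y) B) := by
    have iM : Integrable (fun y => min (V y) B) (PN ρ N) :=
      Integrable.of_bound (hV.meas.min measurable_const).aestronglyMeasurable B
        (Eventually.of_forall fun y => by
          rw [Real.norm_of_nonneg (le_min (hV.nonneg y) hB0)]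
          exact min_le_right _ _)
    have i2 : Integrable (fun y => 1 / s * (V y - s) ^ 2) (PN ρ N) := iVs.const_mul _
    have e1 : ∫ y, (V y - 1 / s * (V y - s) ^ 2) ∂PN ρ N ≤ ∫ y, min (V y) B ∂PN ρ N := by
      refine integral_mono (iV.sub i2) iM fun y => ?_
      simp only
      rw [hB]
      exact min_c hs0
    rw [integral_sub iV i2, integral_const_mul] at e1
    have e2 : 1 / s * ∫ y, (V y - s) ^ 2 ∂PN ρ N ≤ 1 / s * (4 * σ ^ 2) :=
      mul_le_mul_of_nonneg_left hvar (by positivity)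
    have e3 : 1 / s * (4 * σ ^ 2) = 4 * σ ^ 2 / s := by ring
    linarith
  obtain ⟨J, hJ⟩ : ∃ J, J = (∫ y, (max (V y - (K + Λ) * σ) 0) ^ (4 / 3 : ℝ) ∂PN ρ N) ^
    (3 / 4 : ℝ) := ⟨_, rfl⟩
  have hJ0 : 0 ≤ J := by
    rw [hJ]
    exact Real.rpow_nonneg (integral_nonneg fun y => Real.rpow_nonneg (le_max_right _ _) _) _
  rw [← hJ, ← hn] at k12
  have k14 : Real.exp (l * B) / gf ρ (fP l B) V * Real.exp (CG * θ ^ 2 * u) * J ≤ 8 * J := by
    refine mul_le_mul_of_nonneg_right ?_ hJ0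
    have e1 : Real.exp (l * B) / gf ρ (fP l B) V ≤ Real.exp 1 := by
      rw [div_le_iff₀ (gf_pos hWP hV)]
      have e2 : Real.exp 1 * Real.exp (-l) ≤ Real.exp 1 * gf ρ (fP l B) V :=
        mul_le_mul_of_nonneg_left hglow (Real.exp_pos _).le
      refine le_trans ?_ e2
      rw [← Real.exp_add]
      exact Real.exp_le_exp.mpr (by linarith)
    have e3 : Real.exp (CG * θ ^ 2 * u) ≤ Real.exp 1 := Real.exp_le_exp.mpr hcost
    have e4 := mul_le_mul e1 e3 (Real.exp_pos _).le (Real.exp_pos _).le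
    exact e4.trans exp11
  have k15 : (Λ + 2) * σ ≤ cG * θ * n := by
    have e1 : cG * θ * (c1 * u) ≤ cG * θ * n := mul_le_mul_of_nonneg_left k7 (by positivity)
    have e2 : cG * θ * (c1 * u) = θ * (g1 * u) := by rw [hg1]; ring
    rw [e2, hθu] at e1
    exact e1
  have k16 : σ ≤ 8 * J := by
    have e1 : (K + Λ) * σ = s + Λ * σ := by rw [hs]; ring
    rw [e1] at k12
    linarith
  obtain ⟨P, hP⟩ : ∃ P, P = (PN ρ N).real {y | (K + Λ) * σ ≤ V y} := ⟨_, rfl⟩
  rw [← hP]
  have hP0 : 0 ≤ P := by rw [hP]; exact measureReal_nonneg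
  have k17 : J ≤ 2 * σ * P ^ (1 / 4 : ℝ) := by
    have e1 := tailC hV.meas iVs (x₀ := (K + Λ) * σ) (by
      rw [hs]
      have : 0 < Λ * σ := by positivity
      linarith)
    rw [← hJ, ← hP] at e1
    refine e1.trans (mul_le_mul_of_nonneg_right ?_ (Real.rpow_nonneg hP0 _))
    rw [← Real.sqrt_eq_rpow, Real.sqrt_le_left (by positivity)]
    linarith
  have k18 : 1 / 16 ≤ P ^ (1 / 4 : ℝ) := by
    have e1 : σ * 1 ≤ σ * (16 * P ^ (1 / 4 : ℝ)) := by linarith
    have e2 := le_of_mul_le_mul_left e1 hσ0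
    linarith
  have k19 : (1 / 16 : ℝ) ^ 4 ≤ (P ^ (1 / 4 : ℝ)) ^ 4 := pow_le_pow_left₀ (by norm_num) k18 4
  have k20 : (P ^ (1 / 4 : ℝ)) ^ 4 = P := by
    rw [← Real.rpow_natCast, ← Real.rpow_mul hP0]
    norm_num
  rw [k20] at k19
  norm_num at k19
  linarith

end Pool.Agent.W_7d29a1_AM
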