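import Pool.Agent.W_7d29a1_AM.DefsAT96
import Pool.Agent.W_7d29a1_AM.LemD73

/-!
The gradient is large: two parameters, the stopped sum only (helper96, after helper73's lemD73).
-/

set_option autoImplicit false

namespace Pool.Agent.W_7d29a1_AM

open MeasureTheory ProbabilityTheory Filter Topology

variable {ρ : Measure ℝ} [IsProbabilityMeasure ρ] {β : ℝ}

/-- The gradient is large, two parameters. -/
theorem lemDT96 (hβ : 0 < β) (h0 : WtP) (h1 : SiteP ρ β) (h2 : CouT96 ρ β) : LemDT96 ρ β := by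
  obtain ⟨C0, hC0, hcou⟩ := h2
  refine ⟨2 * C0, by positivity, fun l l' B hl hll hl1' hB => ?_⟩
  have hl' : 0 < l' := lt_of_lt_of_le hl hll
  have hl1 : l ≤ 1 := hll.trans hl1'
  obtain ⟨hP, -⟩ := h0 l B hl hl1 hB
  obtain ⟨-, hM⟩ := h0 l' B hl' hl1' hB
  intro N
  induction N with
  | zero =>
    intro Vm V pm p c u v hVm hV hc hc0 hcb hH hu hv hvu
    obtain ⟨y⟩ : Nonempty (Fin 0 → ℝ) := inferInstance
    rw [Ef_zero73 hP V _ y, Ef_zero73 hM Vm _ y]
    simp only [Ns, Nt, mul_zero, sub_zero, add_zero, zero_add]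
    have h3 := hH y y
    simp only [sub_self, zero_mul, Finset.sum_const_zero, mul_zero, add_zero] at h3
    have h4 := hVm.nonneg y
    have h5 : 0 ≤ (B + 1) / u * (1 + u - v) := mul_nonneg (by positivity) (by linarith)
    have h6 : chi B (V y) * (V y - c y) ≤ Vm y := by
      rcases le_total 0 (V y - c y) with h7 | h7
      · calc chi B (V y) * (V y - c y) ≤ 1 * (V y - c y) :=
              mul_le_mul_of_nonneg_right (chi_le73 _ _) h7
          _ ≤ Vm y := by linarith
      · have := mul_nonneg_of_nonpos_of_nonpos (neg_nonpos.2 (chi_pos73 B (V y)).le) h7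
        nlinarith
    linarith
  | succ N ih =>
    intro Vm V pm p c u v hVm hV hc hc0 hcb hH hu hv hvu
    obtain ⟨Mc, hMc⟩ := hcb
    have hMc0 : 0 ≤ Mc := (hc0 (fun _ => 0)).trans (hMc _)
    -- the function `chi (V - c)` is bounded
    have hF : ∀ y : Fin (N + 1) → ℝ, |chi B (V y) * (V y - c y)| ≤ B + 1 + Mc := by
      intro y
      have h3 := chi_mul73 hB (V y)
      have h4 := chi_pos73 B (V y)
      have h5 := chi_le73 B (V y)
      have h6 := mul_nonneg h4.le (hV.nonneg y)
      have h7 := mul_nonneg h4.le (hc0 y)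
      have h8 : chi B (V y) * c y ≤ Mc := by
        calc chi B (V y) * c y ≤ 1 * c y := mul_le_mul_of_nonneg_right h5 (hc0 y)
          _ ≤ Mc := by rw [one_mul]; exact hMc y
      rw [abs_le]
      constructor <;> nlinarith
    have hmF : Measurable fun y : Fin (N + 1) → ℝ => chi B (V y) * (V y - c y) :=
      (hP.measx.comp hV.meas).mul (hV.meas.sub hc)
    obtain ⟨P, hPd⟩ : ∃ P, P = pif ρ (fP l B) (chi B) V p := ⟨_, rfl⟩
    obtain ⟨P', hPd'⟩ : ∃ P', P' = pif ρ (fM l') (fun _ => 1) Vm pm := ⟨_, rfl⟩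
    obtain ⟨MP, hMP⟩ := abs_f hP
    have hMP0 : 0 ≤ MP := (abs_nonneg _).trans (hMP 0 le_rfl)
    have hFf : ∀ y : Fin (N + 1) → ℝ,
        |chi B (V y) * (V y - c y) * fP l B (V y)| ≤ (B + 1 + Mc) * MP := by
      intro y
      rw [abs_mul]
      exact mul_le_mul (hF y) (hMP _ (hV.nonneg y)) (abs_nonneg _) (by linarith)
    by_cases hcs : P ^ 2 ≤ v
    swap
    · -- stop
      have h3 : Ns ρ (fP l B) (chi B) (N + 1) V p v = 0 := by
        simp only [Ns]
        rw [if_neg (by rw [← hPd]; exact hcs)]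
      push Not at hcs
      have h41 : P ≤ 1 := by rw [hPd]; exact pif1 hP hV
      have h40 : 0 ≤ P := by rw [hPd]; exact pif0 hP hV
      have h4 : P ^ 2 ≤ 1 := pow_le_one₀ h40 h41
      have h5 : B + 1 ≤ (B + 1) / u * (0 + 1 + u - v) := by
        rw [div_mul_eq_mul_div, le_div_iff₀ hu]
        exact mul_le_mul_of_nonneg_left (by linarith) (by linarith)
      have h6 : Ef ρ (fP l B) V (fun y => chi B (V y) * (V y - c y)) ≤ B + 1 := by
        unfold Ef
        rw [div_le_iff₀ (gf_pos hP hV)]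
        unfold gf
        rw [← integral_const_mul]
        refine integral_mono (int_Ff hP hV hmF hFf) ((int_f hP hV).const_mul _) fun y => ?_
        refine mul_le_mul_of_nonneg_right ?_ (hP.pos _).le
        have h7 := chi_mul73 hB (V y)
        have h8 := mul_nonneg (chi_pos73 B (V y)).le (hc0 y)
        nlinarith
      have h7 : 0 ≤ Ef ρ (fM l') Vm Vm := by
        unfold Ef
        exact div_nonneg (integral_nonneg fun y => mul_nonneg (hVm.nonneg y) (hM.pos _).le)
          (gf_pos hM hVm).le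
      have h8 := Nt0 (ρ := ρ) hM hVm
      have h9 : 0 ≤ 2 * C0 * l' * Nt ρ (fM l') (fun _ => 1) (N + 1) Vm pm := by positivity
      rw [h3]
      linarith
    -- step
    have hP0 : 0 ≤ P := by rw [hPd]; exact pif0 hP hV
    have hP0' : 0 ≤ P' := by rw [hPd']; exact pif0 hM hVm
    obtain ⟨v', hv'⟩ : ∃ v', v' = v - P ^ 2 := ⟨_, rfl⟩
    have hv'0 : 0 ≤ v' := by rw [hv']; linarith
    have hv'u : v' ≤ u := by rw [hv']; nlinarith
    have S := h1 l 1 (fP l B) (chi B) hl hl1 hP N V p hV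
    have S' := h1 l' (-1) (fM l') (fun _ => 1) hl' hl1' hM N Vm pm hVm
    obtain ⟨a, ha⟩ : ∃ a : ℝ → ℝ, a = fun w => Ef ρ (fM l') (fx Vm w) (fx Vm w) +
      2 * C0 * l' * Nt ρ (fM l') (fun _ => 1) N (fx Vm w) (fq pm w) := ⟨_, rfl⟩
    obtain ⟨E, hE⟩ : ∃ E : ℝ → ℝ, E = fun w => Ef ρ (fP l B) (fx V w)
      (fx (fun y => chi B (V y) * (V y - c y)) w) := ⟨_, rfl⟩
    obtain ⟨b, hb⟩ : ∃ b : ℝ → ℝ, b = fun w => E w -
      2 * C0 * l' * Ns ρ (fP l B) (chi B) N (fx V w) (fq p w) v' -
      (B + 1) / u * (Ns ρ (fP l B) (chi B) N (fx V w) (fq p w) v' + 1 + u - v') := ⟨_, rfl⟩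
    have hEm : Measurable E := by rw [hE]; exact meas_Ef hP.measf hV.meas hmF
    have hEb : ∀ w, |E w| ≤ B + 1 + Mc := fun w => by
      rw [hE]
      exact Ef_abs73 hP (cls_fx hV w) fun y => hF _
    have mNs := meas_Ns (ρ := ρ) hP.measf hP.measx hV.meas hV.measp v'
    have mNt' := meas_Nt (ρ := ρ) hM.measf hM.measx hVm.meas hVm.measp
    have bNs : ∀ w, |Ns ρ (fP l B) (chi B) N (fx V w) (fq p w) v'| ≤ N := fun w => by
      rw [abs_of_nonneg (Ns0 hP (cls_fx hV w) _)]; exact Ns1 hP (cls_fx hV w) _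
    have bNt' : ∀ w, |Nt ρ (fM l') (fun _ => 1) N (fx Vm w) (fq pm w)| ≤ N := fun w => by
      rw [abs_of_nonneg (Nt0 hM (cls_fx hVm w))]; exact Nt1 hM (cls_fx hVm w)
    have hbm : Measurable b := by
      rw [hb]
      exact (hEm.sub (mNs.const_mul _)).sub
        ((((mNs.add_const 1).add_const u).sub_const v').const_mul _)
    have ham : Measurable a := by
      rw [ha]
      exact (meas_Ef hM.measf hVm.meas hVm.meas).add (mNt'.const_mul _)
    have ha0 : ∀ w, 0 ≤ a w := by
      intro w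
      rw [ha]
      refine add_nonneg ?_ (mul_nonneg (by positivity) (Nt0 hM (cls_fx hVm w)))
      unfold Ef
      exact div_nonneg (integral_nonneg fun y => mul_nonneg (hVm.nonneg _) (hM.pos _).le)
        (gf_fx_pos hM hVm w).le
    have hbb : ∃ M, ∀ w, |b w| ≤ M := by
      refine ⟨(B + 1 + Mc) + 2 * C0 * l' * N + (B + 1) / u * (N + |1 + u - v'|), fun w => ?_⟩
      rw [hb]
      have k1 : |2 * C0 * l' * Ns ρ (fP l B) (chi B) N (fx V w) (fq p w) v'| ≤ 2 * C0 * l' * N := by
        rw [abs_mul, abs_of_nonneg (by positivity : (0 : ℝ) ≤ 2 * C0 * l')]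
        exact mul_le_mul_of_nonneg_left (bNs w) (by positivity)
      have k2 : |(B + 1) / u * (Ns ρ (fP l B) (chi B) N (fx V w) (fq p w) v' + 1 + u - v')| ≤
          (B + 1) / u * (N + |1 + u - v'|) := by
        rw [abs_mul, abs_of_nonneg (by positivity : (0 : ℝ) ≤ (B + 1) / u), add_assoc,
          add_sub_assoc]
        exact mul_le_mul_of_nonneg_left ((abs_add_le _ _).trans (add_le_add (bNs w) le_rfl))
          (by positivity)
      exact (abs_sub _ _).trans (add_le_add ((abs_sub _ _).trans (add_le_add (hEb w) k1)) k2)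
    have haG : ∃ M, ∀ w, a w * gf ρ (fM l') (fx Vm w) ≤ M := by
      refine ⟨1 / l' + 2 * C0 * l' * N, fun w => ?_⟩
      have k0 := gf_fx_pos (ρ := ρ) hM hVm w
      have k1 : gf ρ (fM l') (fx Vm w) ≤ 1 := by
        unfold gf
        have := integral_mono (int_f (ρ := ρ) hM (cls_fx hVm w)) (integrable_const (1 : ℝ))
          fun y => fM_le73 hl'.le (hVm.nonneg _)
        simpa using this
      have k2 : Ef ρ (fM l') (fx Vm w) (fx Vm w) * gf ρ (fM l') (fx Vm w) ≤ 1 / l' := by
        unfold Ef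
        rw [div_mul_cancel₀ _ k0.ne']
        have : ∫ y, fx Vm w y * fM l' (fx Vm w y) ∂PN ρ N ≤ ∫ y, 1 / l' ∂PN ρ N := by
          refine integral_mono_of_nonneg (Eventually.of_forall fun y => mul_nonneg
            (hVm.nonneg _) (hM.pos _).le) (integrable_const _) (Eventually.of_forall fun y => ?_)
          exact mul_fM73 hl' _
        simpa using this
      rw [ha]
      have k3 : 2 * C0 * l' * Nt ρ (fM l') (fun _ => 1) N (fx Vm w) (fq pm w) *
          gf ρ (fM l') (fx Vm w) ≤ 2 * C0 * l' * N * 1 :=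
        mul_le_mul (mul_le_mul_of_nonneg_left (Nt1 hM (cls_fx hVm w)) (by positivity)) k1 k0.le
          (by positivity)
      calc _ = Ef ρ (fM l') (fx Vm w) (fx Vm w) * gf ρ (fM l') (fx Vm w) +
            2 * C0 * l' * Nt ρ (fM l') (fun _ => 1) N (fx Vm w) (fq pm w) *
              gf ρ (fM l') (fx Vm w) := by ring
        _ ≤ _ := by linarith
    have hab : ∀ w w₁, w ≤ w₁ → b w₁ - β * (w₁ - w) * (Kf ρ (fP l B) (chi B) V p w₁ /
        gf ρ (fP l B) (fx V w₁)) ≤ a w := by
      intro w w₁ hw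
      have hi := ih (fx Vm w) (fx V w₁) (fq pm w) (fq p w₁)
        (fun y => fx c w₁ y + β * (w₁ - w) * p 0 (Fin.cons w₁ y)) u v' (cls_fx hVm w)
        (cls_fx hV w₁) ((meas_fx hc w₁).add ((meas_fx (hV.measp 0) w₁).const_mul _))
        (fun y => add_nonneg (hc0 _) (mul_nonneg (mul_nonneg hβ.le (by linarith)) (hV.p0 _ _)))
        ⟨Mc + β * (w₁ - w), fun y => add_le_add (hMc _) (by
          have := mul_le_mul_of_nonneg_left (hV.p1 0 (Fin.cons w₁ y))
            (mul_nonneg hβ.le (by linarith : 0 ≤ w₁ - w))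
          linarith)⟩
        (by
          intro y y₁
          have k1 := hH (Fin.cons w y) (Fin.cons w₁ y₁)
          rw [Fin.sum_univ_succ] at k1
          simp only [Fin.cons_zero, Fin.cons_succ] at k1
          simp only [fx, fq]
          linarith) hu hv'0 hv'u
      have k0 := gf_fx_pos (ρ := ρ) hP hV w₁
      have hdec : Ef ρ (fP l B) (fx V w₁) (fun y => chi B (fx V w₁ y) *
          (fx V w₁ y - (fx c w₁ y + β * (w₁ - w) * p 0 (Fin.cons w₁ y)))) =
          E w₁ - β * (w₁ - w) * (Kf ρ (fP l B) (chi B) V p w₁ / gf ρ (fP l B) (fx V w₁)) := by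
        rw [hE]
        simp only
        unfold Ef Kf
        rw [← mul_div_assoc, ← sub_div, ← integral_const_mul, ← integral_sub]
        · congr 1
          refine integral_congr_ae (Eventually.of_forall fun y => ?_)
          simp only [fx]
          ring
        · exact int_Ff hP (cls_fx hV w₁) (meas_fx hmF w₁) (M := (B + 1 + Mc) * MP)
            fun y => hFf _
        · refine Integrable.const_mul ?_ _
          refine int_Ff (F := fun y => p 0 (Fin.cons w₁ y) * chi B (fx V w₁ y)) hP (cls_fx hV w₁)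
            ((meas_fx (hV.measp 0) w₁).mul (hP.measx.comp (meas_fx hV.meas w₁))) (M := 1 * MP)
            fun y => ?_
          rw [abs_mul]
          refine mul_le_mul ?_ (hMP _ (hV.nonneg _)) (abs_nonneg _) zero_le_one
          rw [abs_of_nonneg (mul_nonneg (hV.p0 _ _) (hP.x0 _))]
          exact mul_le_one₀ (hV.p1 _ _) (hP.x0 _) (hP.x1 _)
      rw [hdec] at hi
      rw [hb, ha]
      simp only
      linarith
    have hc1 := hcou l l' (fun w => gf ρ (fP l B) (fx V w)) (Kf ρ (fP l B) (chi B) V p)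
      (fun w => gf ρ (fM l') (fx Vm w)) (Kf ρ (fM l') (fun _ => 1) Vm pm) a b hl hl1 hl' hl1' S S' ham hbm
      ha0 hbb haG hab
    rw [← pif_peel hP hV, ← pif_peel hM hVm, ← hPd, ← hPd'] at hc1
    -- the two sides
    have rI := rf_int (ρ := ρ) hP hV
    have rI' := rf_int (ρ := ρ) hM hVm
    have e1 : (∫ w, b w * gf ρ (fP l B) (fx V w) ∂ρ) / (∫ w, gf ρ (fP l B) (fx V w) ∂ρ) =
        Ef ρ (fP l B) V (fun y => chi B (V y) * (V y - c y)) -
          2 * C0 * l' * (Ns ρ (fP l B) (chi B) (N + 1) V p v - P ^ 2) -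
          (B + 1) / u * (Ns ρ (fP l B) (chi B) (N + 1) V p v - P ^ 2 + 1 + u - v') := by
      have k1 : (∫ w, b w * gf ρ (fP l B) (fx V w) ∂ρ) / (∫ w, gf ρ (fP l B) (fx V w) ∂ρ) =
          ∫ w, (rf ρ (fP l B) V w * E w - 2 * C0 * l' * (rf ρ (fP l B) V w *
            Ns ρ (fP l B) (chi B) N (fx V w) (fq p w) v') - (B + 1) / u *
            (rf ρ (fP l B) V w * Ns ρ (fP l B) (chi B) N (fx V w) (fq p w) v' +
              (1 + u - v') * rf ρ (fP l B) V w)) ∂ρ := by
        rw [← gf_peel hP hV, ← integral_div]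
        refine integral_congr_ae (Eventually.of_forall fun w => ?_)
        rw [hb]
        unfold rf
        simp only
        ring
      have i1 := rf_mul_int (ρ := ρ) hP hV hEm hEb
      have i2 := rf_mul_int (ρ := ρ) hP hV mNs bNs
      rw [k1, int473 i1 i2 i2 rI.1 (2 * C0 * l') ((B + 1) / u) (1 + u - v'), rI.2]
      have k2 : Ns ρ (fP l B) (chi B) (N + 1) V p v - P ^ 2 = ∫ w, rf ρ (fP l B) V w *
          Ns ρ (fP l B) (chi B) N (fx V w) (fq p w) v' ∂ρ := by
        simp only [Ns]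
        rw [← hPd, if_pos hcs, ← hv']
        ring
      rw [k2, Ef_peel hP hV hmF hFf, hE]
      ring
    have e2 : (∫ w, a w * gf ρ (fM l') (fx Vm w) ∂ρ) / (∫ w, gf ρ (fM l') (fx Vm w) ∂ρ) =
        Ef ρ (fM l') Vm Vm + 2 * C0 * l' * (Nt ρ (fM l') (fun _ => 1) (N + 1) Vm pm - P' ^ 2) := by
      have hVf : ∀ y : Fin (N + 1) → ℝ, |Vm y * fM l' (Vm y)| ≤ 1 / l' := fun y => by
        rw [abs_of_nonneg (mul_nonneg (hVm.nonneg _) (hM.pos _).le)]
        exact mul_fM73 hl' _
      have k1 : (∫ w, a w * gf ρ (fM l') (fx Vm w) ∂ρ) / (∫ w, gf ρ (fM l') (fx Vm w) ∂ρ) =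
          ∫ w, (rf ρ (fM l') Vm w * Ef ρ (fM l') (fx Vm w) (fx Vm w) + 2 * C0 * l' *
            (rf ρ (fM l') Vm w * Nt ρ (fM l') (fun _ => 1) N (fx Vm w) (fq pm w))) ∂ρ := by
        rw [← gf_peel hM hVm, ← integral_div]
        refine integral_congr_ae (Eventually.of_forall fun w => ?_)
        rw [ha]
        unfold rf
        simp only
        ring
      have i2 := rf_mul_int (ρ := ρ) hM hVm mNt' bNt'
      have i1 : Integrable (fun w => rf ρ (fM l') Vm w * Ef ρ (fM l') (fx Vm w) (fx Vm w)) ρ := by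
        have hm : Measurable fun w => rf ρ (fM l') Vm w * Ef ρ (fM l') (fx Vm w) (fx Vm w) := by
          unfold rf
          exact ((meas_gf hM.measf hVm.meas).div_const _).mul
            (meas_Ef hM.measf hVm.meas hVm.meas)
        refine Integrable.of_bound hm.aestronglyMeasurable (1 / l' / gf ρ (fM l') Vm)
          (Eventually.of_forall fun w => ?_)
        have k0 := gf_fx_pos (ρ := ρ) hM hVm w
        have k00 := gf_pos (ρ := ρ) hM hVm
        have k2 : rf ρ (fM l') Vm w * Ef ρ (fM l') (fx Vm w) (fx Vm w) =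
            (∫ y, fx Vm w y * fM l' (fx Vm w y) ∂PN ρ N) / gf ρ (fM l') Vm := by
          unfold rf Ef
          field_simp
        have k3 : 0 ≤ ∫ y, fx Vm w y * fM l' (fx Vm w y) ∂PN ρ N :=
          integral_nonneg fun y => mul_nonneg (hVm.nonneg _) (hM.pos _).le
        have k4 : ∫ y, fx Vm w y * fM l' (fx Vm w y) ∂PN ρ N ≤ ∫ y, 1 / l' ∂PN ρ N := by
          refine integral_mono_of_nonneg (Eventually.of_forall fun y => mul_nonneg
            (hVm.nonneg _) (hM.pos _).le) (integrable_const _) (Eventually.of_forall fun y => ?_)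
          exact mul_fM73 hl' _
        simp only [integral_const, probReal_univ, smul_eq_mul, one_mul] at k4
        rw [k2, Real.norm_eq_abs, abs_of_nonneg (div_nonneg k3 k00.le)]
        exact div_le_div_of_nonneg_right k4 k00.le
      rw [k1, integral_add i1 (i2.const_mul _), integral_const_mul]
      have k3 : Nt ρ (fM l') (fun _ => 1) (N + 1) Vm pm - P' ^ 2 = ∫ w, rf ρ (fM l') Vm w *
          Nt ρ (fM l') (fun _ => 1) N (fx Vm w) (fq pm w) ∂ρ := by
        simp only [Nt]
        rw [← hPd']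
        ring
      rw [k3, Ef_peel hM hVm hVm.meas hVf]
    rw [e1, e2] at hc1
    have hv2 : Ns ρ (fP l B) (chi B) (N + 1) V p v - P ^ 2 + 1 + u - v' =
        Ns ρ (fP l B) (chi B) (N + 1) V p v + 1 + u - v := by rw [hv']; ring
    rw [hv2] at hc1
    have hfin : C0 * P * (l * P + l' * P') ≤ 2 * C0 * l' * P ^ 2 + 2 * C0 * l' * P' ^ 2 := by
      have q1 : P * (P + P') ≤ 2 * P ^ 2 + 2 * P' ^ 2 := by nlinarith [sq_nonneg (P - P')]
      have q2 := mul_le_mul_of_nonneg_left q1 (by positivity : 0 ≤ C0 * l')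
      have q3 : l * P ≤ l' * P := mul_le_mul_of_nonneg_right hll hP0
      have q4 : C0 * P * (l * P + l' * P') ≤ C0 * P * (l' * P + l' * P') :=
        mul_le_mul_of_nonneg_left (by linarith) (by positivity)
      have q5 : C0 * P * (l' * P + l' * P') = C0 * l' * (P * (P + P')) := by ring
      linarith
    linarith [hc1, hfin]

end Pool.Agent.W_7d29a1_AM
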