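import Pool.Agent.W_7d29a1_AM.DeepC96
import Pool.Agent.W_7d29a1_AM.LemDT96
import Pool.Agent.W_7d29a1_AM.CouT96
import Pool.Agent.W_7d29a1_AM.LemK44
import Pool.Agent.W_7d29a1_AM.Con73
import Pool.Agent.W_7d29a1_AM.SiteP86
import Pool.Agent.W_7d29a1_AM.AmpU5
import Pool.Agent.W_7d29a1_UC.AllV43

/-!
Deep lower deviations of the free energy with a polynomial probability force upper deviations of
the order of the standard deviation, every law (helper96).
-/

set_option autoImplicit false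

namespace Pool.Agent.W_7d29a1_AM

open MeasureTheory ProbabilityTheory Filter Topology Set Pool.Agent.W_MP_7d29a1_pr
  Pool.Agent.W_7d29a1_h46 Pool.Agent.W_7d29a1_h46u Pool.Agent.W_7d29a1_D2.B35
  Pool.Agent.W_7d29a1_Q29 Pool.Agent.W_7d29a1_R34

variable {d : ℕ} {ρ : Measure ℝ} [IsProbabilityMeasure ρ] {β : ℝ}

open U5 in
/-- From the class to the free energy. -/
theorem deepT96 (hd : 0 < d) (hρ : EM ρ) (hβ : 0 < β) (hA : DeepQ96 ρ β) : Pool.Agent.W_7d29a1_UC.DeepP d ρ β := by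
  intro Λ hΛ
  obtain ⟨K₀, S, hS1, hC⟩ := hA (Λ + 1) (by linarith)
  refine ⟨max K₀ 1, 1 / 65536, S ^ 2, by norm_num, fun h m K hS hK hp => ?_⟩
  have hK0 : K₀ ≤ K := (le_max_left _ _).trans hK
  have hK1 : 1 ≤ K := (le_max_right _ _).trans hK
  obtain ⟨σ, hσ⟩ : ∃ σ : ℝ, σ = Real.sqrt (Va ρ β h m) := ⟨_, rfl⟩
  have hσS : S ≤ σ := by rw [hσ]; exact Real.le_sqrt_of_sq_le hS
  have hσ1 : 1 ≤ σ := hS1.trans hσS
  have hσV : Va ρ β h m = σ ^ 2 := by
    rw [hσ, Real.sq_sqrt]
    exact (sq_nonneg S).trans hS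
  rw [← hσ] at hp ⊢
  obtain ⟨iY, iY2, hY0⟩ := Pool.Agent.W_7d29a1_UC.cen43 hd hρ β h m
  have hV2 : ∫ η, (X β h η m - A ρ β h m) ^ 2 ∂(law d ρ) = σ ^ 2 := by rw [← hσV]; rfl
  obtain ⟨a, ha⟩ : ∃ a, a = A ρ β h m := ⟨_, rfl⟩
  rw [← ha] at hp iY iY2 hY0 hV2 ⊢
  obtain ⟨s₀, hs₀⟩ : ∃ s₀, s₀ = a - K * σ := ⟨_, rfl⟩
  rw [← hs₀] at hp
  have hKσ : 0 ≤ K * σ := by positivity
  have hc : ∀ k, 0 ≤ cw h m k := fun k => (Real.exp_pos _).le
  have mX := measurable_X (d := d) β h m
  have mV := (cls5 hβ.le hc At s₀).meas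
  have hV := V_pr hd β h m s₀
  have hlog2 : Real.log 2 ≤ 1 := by
    have := Real.log_two_lt_d9
    linarith
  have hlog20 : 0 ≤ Real.log 2 := Real.log_nonneg (by norm_num)
  have hlaw : ∀ T : Set ℝ, MeasurableSet T → (PN ρ (Nn d m)).real {y | C5.V β (cw h m) At s₀ y ∈ T} =
      (law d ρ).real {η | Real.log (1 + Real.exp (X β h η m - s₀)) ∈ T} := fun T hT => by
    have mS : MeasurableSet {y | C5.V β (cw h m) At s₀ y ∈ T} := mV hT
    rw [← law_pr, map_measureReal_apply (meas_pr m) mS]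
    congr 1
    ext η
    show C5.V β (cw h m) At s₀ (pr d m η) ∈ T ↔ Real.log (1 + Real.exp (X β h η m - s₀)) ∈ T
    rw [hV]
  have e0 := hlaw (Iic (Real.log 2)) measurableSet_Iic
  have e2 := hlaw (Ici ((K + (Λ + 1)) * σ)) measurableSet_Ici
  simp only [mem_Iic, mem_Ici] at e0 e2
  -- the pointwise bounds
  have low : ∀ η : Env d, X β h η m - s₀ ≤ Real.log (1 + Real.exp (X β h η m - s₀)) := fun η => by
    rw [Real.le_log_iff_exp_le (by positivity)]
    linarith
  have lowa : ∀ η : Env d, |Real.log (1 + Real.exp (X β h η m - s₀)) - K * σ| ≤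
      |X β h η m - a| + Real.log 2 := fun η => by
    have h1 := low η
    have h2 := log_le (X β h η m - s₀)
    have h3 := le_abs_self (X β h η m - a)
    have h4 := neg_abs_le (X β h η m - a)
    have h5 := abs_nonneg (X β h η m - a)
    have h6 : max (X β h η m - s₀) 0 ≤ K * σ + |X β h η m - a| :=
      max_le (by rw [hs₀]; linarith) (by linarith)
    rw [abs_le]
    constructor
    · rw [hs₀] at h1 ⊢
      linarith
    · linarith
  have sq2 : ∀ η : Env d, (Real.log (1 + Real.exp (X β h η m - s₀)) - K * σ) ^ 2 ≤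
      2 * (X β h η m - a) ^ 2 + 2 := fun η => by
    have h1 := lowa η
    obtain ⟨t, ht⟩ : ∃ t, t = |X β h η m - a| := ⟨_, rfl⟩
    have h2 : (X β h η m - a) ^ 2 = t ^ 2 := by rw [ht, sq_abs]
    have h3 : 0 ≤ t := by rw [ht]; exact abs_nonneg _
    rw [← ht] at h1
    have h4 : (Real.log (1 + Real.exp (X β h η m - s₀)) - K * σ) ^ 2 ≤ (t + 1) ^ 2 := by
      rw [← sq_abs]
      exact pow_le_pow_left₀ (abs_nonneg _) (by linarith) 2
    rw [h2]
    nlinarith [sq_nonneg (t - 1)]
  have mF : Measurable fun η : Env d => Real.log (1 + Real.exp (X β h η m - s₀)) := by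
    have h1 : (fun η : Env d => Real.log (1 + Real.exp (X β h η m - s₀))) = fun η =>
        C5.V β (cw h m) At s₀ (pr d m η) := by
      funext η
      rw [hV]
    rw [h1]
    exact mV.comp (meas_pr m)
  have iF : Integrable (fun η : Env d => Real.log (1 + Real.exp (X β h η m - s₀))) (law d ρ) := by
    have h1 : Integrable (fun η : Env d => |X β h η m - a| + (1 + K * σ)) (law d ρ) :=
      iY.abs.add (integrable_const _)
    refine h1.mono' mF.aestronglyMeasurable (Eventually.of_forall fun η => ?_)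
    have h2 := lowa η
    have h3 := abs_sub_abs_le_abs_sub (Real.log (1 + Real.exp (X β h η m - s₀))) (K * σ)
    rw [abs_of_nonneg hKσ] at h3
    rw [Real.norm_eq_abs]
    linarith
  have key := hC (Nn d m) (C5.V β (cw h m) At s₀) (C5.P β (cw h m) At s₀) (cls5 hβ.le hc At s₀)
    σ K hσS hK0 ?_ ?_ ?_
  · rw [e2] at key
    refine key.trans (measureReal_mono fun η hη => ?_)
    have h1 : (K + (Λ + 1)) * σ ≤ Real.log (1 + Real.exp (X β h η m - s₀)) := hη
    show a + Λ * σ ≤ X β h η m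
    have h3 := log_le (X β h η m - s₀)
    have h4 : (K + (Λ + 1)) * σ = K * σ + Λ * σ + σ := by ring
    have h5 : 0 < Λ * σ := by positivity
    rw [h4] at h1
    rcases le_total (X β h η m - s₀) 0 with h6 | h6
    · rw [max_eq_right h6] at h3
      linarith
    · rw [max_eq_left h6, hs₀] at h3
      rw [hs₀] at h1
      linarith
  · rw [e0]
    refine hp.trans (measureReal_mono fun η hη => ?_)
    have h1 : X β h η m ≤ s₀ := hη
    show Real.log (1 + Real.exp (X β h η m - s₀)) ≤ Real.log 2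
    apply Real.log_le_log (by positivity)
    have : Real.exp (X β h η m - s₀) ≤ 1 := Real.exp_le_one_iff.2 (by linarith)
    linarith
  · have h2 : ∫ y, C5.V β (cw h m) At s₀ y ∂PN ρ (Nn d m) =
        ∫ η, Real.log (1 + Real.exp (X β h η m - s₀)) ∂(law d ρ) := by
      rw [← law_pr, integral_map (meas_pr m).aemeasurable mV.aestronglyMeasurable]
      simp only [hV]
    rw [h2]
    have h3 : ∫ η, ((X β h η m - a) + K * σ) ∂(law d ρ) = K * σ := by
      rw [integral_add iY (integrable_const _), hY0]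
      simp
    rw [← h3]
    refine integral_mono (iY.add (integrable_const _)) iF fun η => ?_
    have h4 := low η
    simp only
    rw [hs₀] at h4 ⊢
    linarith
  · have h2 : ∫ y, (C5.V β (cw h m) At s₀ y - K * σ) ^ 2 ∂PN ρ (Nn d m) =
        ∫ η, (Real.log (1 + Real.exp (X β h η m - s₀)) - K * σ) ^ 2 ∂(law d ρ) := by
      rw [← law_pr, integral_map (meas_pr m).aemeasurable
        (((mV.sub_const _).pow_const 2).aestronglyMeasurable)]
      simp only [hV]
    rw [h2]
    have h3 : ∫ η, (Real.log (1 + Real.exp (X β h η m - s₀)) - K * σ) ^ 2 ∂(law d ρ) ≤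
        ∫ η, (2 * (X β h η m - a) ^ 2 + 2) ∂(law d ρ) :=
      integral_mono_of_nonneg (Eventually.of_forall fun η => sq_nonneg _)
        ((iY2.const_mul 2).add (integrable_const _)) (Eventually.of_forall sq2)
    rw [integral_add (iY2.const_mul 2) (integrable_const _), integral_const_mul, hV2] at h3
    simp only [integral_const, probReal_univ, smul_eq_mul, one_mul] at h3
    nlinarith

/-- DEEP for every law. -/
theorem deepP96 (hd : 0 < d) (hρ : EM ρ) (hnc : ∀ c : ℝ, ρ {c} ≠ 1) (hβ : 0 < β) :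
    Pool.Agent.W_7d29a1_UC.DeepP d ρ β := by
  have hCon := conP73 hρ hnc hβ
  have hS := siteP86 (ρ := ρ) hβ
  exact deepT96 hd hρ hβ (deepC96 hρ hβ wt64 (lemDT96 hβ wt64 hS (couT96 hρ hβ hCon))
    (lemK44 hS hCon) (lemG96 hρ hβ wt64 hS hCon))

end Pool.Agent.W_7d29a1_AM
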