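import Pool.Agent.W_7d29a1_AM.Deep5
import Pool.Agent.W_7d29a1_AM.AmpU5
import Pool.Agent.W_7d29a1_AM.LemK44
import Pool.Agent.W_7d29a1_AM.SiteP86
import Pool.Agent.W_7d29a1_AM.Con73
import Pool.Agent.W_7d29a1_AM.Wt64

/-!
Deep lower deviations of the free energy, every law, every dimension (helper5).
-/

namespace Pool.Agent.W_7d29a1_AM

open MeasureTheory ProbabilityTheory Filter Topology Set Pool.Agent.W_MP_7d29a1_pr
  Pool.Agent.W_7d29a1_h46 Pool.Agent.W_7d29a1_h46u Pool.Agent.W_7d29a1_D2.B35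
  Pool.Agent.W_7d29a1_Q29 Pool.Agent.W_7d29a1_R34

open U5 in
/-- **The lower tail of the free energy is at most Gaussian on the scale of the upper
deviations**, every law: if `X ≤ s₀` has probability at least `q` and `s₁ < X` at least `1/4`, then
`s₁ - s₀ ≤ C (a √(1 + log (1/q)) + 1 + log (1/q))` unless `s₁ + a < X` has probability at
least `c`. -/
theorem deepU5 {d : ℕ} (hd : 0 < d) {ρ : Measure ℝ} [IsProbabilityMeasure ρ] {β : ℝ}
    (hβ : 0 ≤ β) (hA : DeepC ρ β) : ∃ C c : ℝ, 1 ≤ C ∧ 0 < c ∧ ∀ (h : Vec d) (m : ℕ)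
      (s₀ s₁ a q : ℝ), 0 < q → q ≤ 1 → C ≤ a → q ≤ (law d ρ).real {η | X β h η m ≤ s₀} →
      1 / 4 ≤ (law d ρ).real {η | s₁ < X β h η m} →
        s₁ - s₀ ≤ C * (a * Real.sqrt (1 + Real.log (1 / q)) + (1 + Real.log (1 / q))) ∨
          c ≤ (law d ρ).real {η | s₁ + a < X β h η m} := by
  obtain ⟨C, c, hC1, hc0, hC⟩ := hA
  refine ⟨2 * C, c, by linarith, hc0, fun h m s₀ s₁ a q hq hq1 ha h0 h1 => ?_⟩
  rw [or_iff_not_imp_right]
  intro hcon
  rw [not_le] at hcon
  obtain ⟨s, hs⟩ : ∃ s : ℝ, s = s₁ - s₀ := ⟨_, rfl⟩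
  rw [← hs]
  have hlq : 0 ≤ Real.log (1 / q) := Real.log_nonneg (by rw [le_div_iff₀ hq]; linarith)
  have hc : ∀ k, 0 ≤ cw h m k := fun k => (Real.exp_pos _).le
  have mV := (cls5 hβ hc At s₀).meas
  have hV := V_pr hd β h m s₀
  have hlaw : ∀ T : Set ℝ, MeasurableSet T → (PN ρ (Nn d m)).real {y | C5.V β (cw h m) At s₀ y ∈ T} =
      (law d ρ).real {η | Real.log (1 + Real.exp (X β h η m - s₀)) ∈ T} := fun T hT => by
    have mS : MeasurableSet {y | C5.V β (cw h m) At s₀ y ∈ T} := mV hT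
    rw [← law_pr, map_measureReal_apply (meas_pr m) mS]
    congr 1
    ext η
    show C5.V β (cw h m) At s₀ (pr d m η) ∈ T ↔ Real.log (1 + Real.exp (X β h η m - s₀)) ∈ T
    rw [hV]
  have e0 := hlaw (Iic (Real.log 2)) measurableSet_Iic
  have e1 := hlaw (Ici s) measurableSet_Ici
  have e2 := hlaw (Ioi (s + (a + 1))) measurableSet_Ioi
  simp only [mem_Iic, mem_Ici, mem_Ioi] at e0 e1 e2
  have ha1 : 1 ≤ a := by linarith
  by_cases hs0 : s < 0
  · have : 0 ≤ 2 * C * (a * Real.sqrt (1 + Real.log (1 / q)) + (1 + Real.log (1 / q))) := by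
      positivity
    linarith
  rw [not_lt] at hs0
  have key := hC (Nn d m) (C5.V β (cw h m) At s₀) (C5.P β (cw h m) At s₀) (cls5 hβ hc At s₀)
    q s (a + 1) hq hq1 (by linarith) ?_ ?_ ?_
  · refine key.trans ?_
    have h2 : 0 ≤ Real.sqrt (1 + Real.log (1 / q)) := Real.sqrt_nonneg _
    have h3 : (a + 1) * Real.sqrt (1 + Real.log (1 / q)) ≤
        2 * a * Real.sqrt (1 + Real.log (1 / q)) := mul_le_mul_of_nonneg_right (by linarith) h2
    have h4 : 2 * C * (a * Real.sqrt (1 + Real.log (1 / q)) + (1 + Real.log (1 / q))) =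
        C * (2 * a * Real.sqrt (1 + Real.log (1 / q)) + 2 * (1 + Real.log (1 / q))) := by ring
    rw [h4]
    exact mul_le_mul_of_nonneg_left (by linarith) (by linarith)
  · rw [e0]
    refine h0.trans ?_
    refine measureReal_mono fun η (hη : X β h η m ≤ s₀) => ?_
    show Real.log (1 + Real.exp (X β h η m - s₀)) ≤ Real.log 2
    apply Real.log_le_log (by positivity)
    have : Real.exp (X β h η m - s₀) ≤ 1 := Real.exp_le_one_iff.2 (by linarith)
    linarith
  · rw [e1]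
    refine h1.trans ?_
    refine measureReal_mono fun η (hη : s₁ < X β h η m) => ?_
    show s ≤ Real.log (1 + Real.exp (X β h η m - s₀))
    rw [Real.le_log_iff_exp_le (by positivity)]
    have : Real.exp s ≤ Real.exp (X β h η m - s₀) := Real.exp_le_exp.2 (by rw [hs]; linarith)
    linarith
  · rw [e2]
    refine le_trans (measureReal_mono fun η
      (hη : s + (a + 1) < Real.log (1 + Real.exp (X β h η m - s₀))) => ?_) hcon.le
    show s₁ + a < X β h η m
    have h3 := log_le (X β h η m - s₀)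
    have h4 := Real.log_two_lt_d9
    have h5 : s + a < max (X β h η m - s₀) 0 := by linarith
    rcases le_total (X β h η m - s₀) 0 with h6 | h6
    · rw [max_eq_right h6] at h5
      linarith
    · rw [max_eq_left h6] at h5
      linarith

/-- Deep lower deviations in the class, every law. -/
theorem deepCAll5 {ρ : Measure ℝ} [IsProbabilityMeasure ρ] (hρ : EM ρ)
    (hnc : ∀ c : ℝ, ρ {c} ≠ 1) {β : ℝ} (hβ : 0 < β) : DeepC ρ β := by
  have h1 : SiteP ρ β := siteP86 hβ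
  have h2 : ConP ρ β := conP73 hρ hnc hβ
  exact deepC5 wt64 (lemD5 hβ wt64 h1 (couP5 hρ hβ h2)) (lemK44 h1 h2)

/-- An inequality between powers. -/
lemma pow5 {x C Λ : ℝ} (hC : 1 ≤ C) (hΛ : 1 ≤ Λ) (hx : 100 * C * (Λ + 3) ≤ x) :
    C * ((Λ + 3) * (4 * x) + 10 * x ^ 2) < x ^ 4 - 2 := by
  have hx0 : 100 ≤ x := by nlinarith
  have h1 : C * ((Λ + 3) * (4 * x) + 10 * x ^ 2) = 4 * (C * (Λ + 3)) * x + 10 * C * x ^ 2 := by
    ring
  have h2 : C * (Λ + 3) ≤ x / 100 := by linarith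
  have h3 : C ≤ x / 100 := by nlinarith
  have h4 : 4 * (C * (Λ + 3)) * x ≤ 4 * (x / 100) * x := by
    have := mul_le_mul_of_nonneg_right h2 (by linarith : 0 ≤ x)
    linarith
  have h5 : 10 * C * x ^ 2 ≤ 10 * (x / 100) * x ^ 2 := by
    have := mul_le_mul_of_nonneg_right h3 (sq_nonneg x)
    linarith
  have h6 : x ^ 2 ≤ x ^ 3 / 100 := by
    have := mul_le_mul_of_nonneg_right hx0 (sq_nonneg x)
    have e : x * x ^ 2 = x ^ 3 := by ring
    linarith
  have h7 : x ^ 3 ≤ x ^ 4 / 100 := by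
    have h8 : 0 ≤ x ^ 3 := by positivity
    have := mul_le_mul_of_nonneg_right hx0 h8
    have e : x * x ^ 3 = x ^ 4 := by ring
    linarith
  have h9 : (100 : ℝ) ^ 4 ≤ x ^ 4 := pow_le_pow_left₀ (by norm_num) hx0 4
  have h10 : 4 * (x / 100) * x = 4 / 100 * x ^ 2 := by ring
  have h11 : 10 * (x / 100) * x ^ 2 = 1 / 10 * x ^ 3 := by ring
  rw [h1]
  norm_num at h9
  linarith

/-- **DeepP, every law**: deep lower deviations with a polynomial probability force upper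
deviations of the order of the standard deviation with a probability bounded below. -/
theorem deepP5 {d : ℕ} (hd : 0 < d) {ρ : Measure ℝ} [IsProbabilityMeasure ρ] (hρ : EM ρ)
    (hnc : ∀ c : ℝ, ρ {c} ≠ 1) {β : ℝ} (hβ : 0 < β) : ∀ Λ : ℝ, 1 ≤ Λ → ∃ K₀ c S : ℝ, 0 < c ∧
      ∀ (h : Vec d) (m : ℕ) (K : ℝ), S ≤ Va ρ β h m → K₀ ≤ K →
        1 / (2 * K ^ 4) ≤ (law d ρ).real
          {η | X β h η m ≤ A ρ β h m - K * Real.sqrt (Va ρ β h m)} →
          c ≤ (law d ρ).real {η | A ρ β h m + Λ * Real.sqrt (Va ρ β h m) ≤ X β h η m} := by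
  obtain ⟨C, c, hC1, hc0, hC⟩ := deepU5 hd hβ.le (deepCAll5 hρ hnc hβ)
  intro Λ hΛ
  refine ⟨(100 * C * (Λ + 3)) ^ 4, c, C ^ 2 + 1, hc0, fun h m K hS hK hlow => ?_⟩
  obtain ⟨σ, hσ⟩ : ∃ σ : ℝ, σ = Real.sqrt (Va ρ β h m) := ⟨_, rfl⟩
  rw [← hσ] at hlow ⊢
  have hV0 : 0 ≤ Va ρ β h m := by nlinarith [sq_nonneg C]
  have hσ2 : σ ^ 2 = Va ρ β h m := by rw [hσ]; exact Real.sq_sqrt hV0
  have hσC : C ≤ σ := by
    rw [hσ]
    apply Real.le_sqrt_of_sq_le
    linarith
  have hσ1 : 1 ≤ σ := hC1.trans hσC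
  -- the fourth root of `K`
  have hK0 : 0 < K := by
    have : 0 < (100 * C * (Λ + 3)) ^ 4 := by positivity
    linarith
  obtain ⟨x, hx⟩ : ∃ x : ℝ, x = Real.sqrt (Real.sqrt K) := ⟨_, rfl⟩
  have hx0 : 0 ≤ x := by rw [hx]; exact Real.sqrt_nonneg _
  have hx2 : x ^ 2 = Real.sqrt K := by rw [hx]; exact Real.sq_sqrt (Real.sqrt_nonneg _)
  have hx4 : x ^ 4 = K := by
    have : x ^ 4 = (x ^ 2) ^ 2 := by ring
    rw [this, hx2]
    exact Real.sq_sqrt hK0.le
  have hxlow : 100 * C * (Λ + 3) ≤ x := by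
    rw [← hx4] at hK
    exact le_of_pow_le_pow_left₀ (by norm_num) hx0 hK
  have hx1 : 1 ≤ x := by nlinarith
  have hK1 : 1 ≤ K := by rw [← hx4]; exact one_le_pow₀ hx1
  -- the logarithm
  obtain ⟨q, hq⟩ : ∃ q : ℝ, q = 1 / (2 * K ^ 4) := ⟨_, rfl⟩
  rw [← hq] at hlow
  have hq0 : 0 < q := by rw [hq]; positivity
  have hq1 : q ≤ 1 := by
    rw [hq, div_le_one (by positivity)]
    have : 1 ≤ K ^ 4 := one_le_pow₀ hK1
    linarith
  have hlog : 1 + Real.log (1 / q) ≤ 10 * x ^ 2 := by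
    have e1 : 1 / q = 2 * x ^ 16 := by
      rw [hq, one_div_one_div, ← hx4]
      ring
    rw [e1, Real.log_mul (by norm_num) (by positivity), Real.log_pow]
    have e2 := Real.log_two_lt_d9
    have e3 : Real.log x ≤ x - 1 := Real.log_le_sub_one_of_pos (by linarith)
    have e4 : 100 ≤ x := by nlinarith
    push_cast
    nlinarith
  have hlq : 0 ≤ Real.log (1 / q) := Real.log_nonneg (by rw [le_div_iff₀ hq0]; linarith)
  have hsqrt : Real.sqrt (1 + Real.log (1 / q)) ≤ 4 * x := by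
    refine (Real.sqrt_le_sqrt hlog).trans ?_
    rw [Real.sqrt_le_left (by positivity)]
    nlinarith
  -- Chebyshev
  have hup : 1 / 4 ≤ (law d ρ).real {η | A ρ β h m - 2 * σ < X β h η m} := by
    have h1 := cheb13 hd hρ β h m (s := 2 * σ) (by linarith)
    have h2 : Va ρ β h m / (2 * σ) ^ 2 = 1 / 4 := by
      rw [← hσ2]
      field_simp
      norm_num
    rw [h2] at h1
    have mX := measurable_X (d := d) β h m
    have h3 : (law d ρ).real {η | A ρ β h m - 2 * σ < X β h η m}ᶜ ≤ 1 / 4 := by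
      refine (measureReal_mono fun η hη => ?_).trans h1
      have h4 : X β h η m ≤ A ρ β h m - 2 * σ := not_lt.1 hη
      show 2 * σ ≤ |X β h η m - A ρ β h m|
      rw [abs_sub_comm]
      exact le_trans (by linarith) (le_abs_self _)
    rw [probReal_compl_eq_one_sub (measurableSet_lt measurable_const mX)] at h3
    linarith
  have hmain := hC h m (A ρ β h m - K * σ) (A ρ β h m - 2 * σ) ((Λ + 2) * σ) q hq0 hq1
    (by nlinarith) hlow hup
  rcases hmain with h1 | h1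
  · exfalso
    have h2 : A ρ β h m - 2 * σ - (A ρ β h m - K * σ) = (x ^ 4 - 2) * σ := by
      rw [hx4]
      ring
    rw [h2] at h1
    have h3 := pow5 hC1 hΛ hxlow
    have h4 : C * ((Λ + 2) * σ * Real.sqrt (1 + Real.log (1 / q)) + (1 + Real.log (1 / q))) ≤
        C * ((Λ + 3) * (4 * x) + 10 * x ^ 2) * σ := by
      have h5 : (Λ + 2) * σ * Real.sqrt (1 + Real.log (1 / q)) ≤ (Λ + 3) * (4 * x) * σ := by
        have h6 : (Λ + 2) * σ * Real.sqrt (1 + Real.log (1 / q)) ≤ (Λ + 2) * σ * (4 * x) :=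
          mul_le_mul_of_nonneg_left hsqrt (by positivity)
        have h7 : 0 ≤ σ * x := by positivity
        nlinarith
      have h8 : 1 + Real.log (1 / q) ≤ 10 * x ^ 2 * σ := by
        have : 10 * x ^ 2 * 1 ≤ 10 * x ^ 2 * σ := mul_le_mul_of_nonneg_left hσ1 (by positivity)
        linarith
      have h9 := mul_le_mul_of_nonneg_left (add_le_add h5 h8) (by linarith : 0 ≤ C)
      refine h9.trans (le_of_eq ?_)
      ring
    have h10 := mul_lt_mul_of_pos_right h3 (by linarith : 0 < σ)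
    linarith
  · refine h1.trans (measureReal_mono fun η (hη : A ρ β h m - 2 * σ + (Λ + 2) * σ <
      X β h η m) => ?_)
    show A ρ β h m + Λ * σ ≤ X β h η m
    nlinarith

end Pool.Agent.W_7d29a1_AM
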