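import Pool.Agent.W_7d29a1_SP.DefsSP2

/-!
Amplification of the upper deviations for every law with exponential moments: definitions and
frozen statements of the leaves (helper73).
-/

namespace Pool.Agent.W_7d29a1_AM

open MeasureTheory ProbabilityTheory Filter Topology Pool.Agent.W_MP_7d29a1_pr
  Pool.Agent.W_7d29a1_h46 Pool.Agent.W_7d29a1_h46u Pool.Agent.W_7d29a1_D2.B35
  Pool.Agent.W_7d29a1_Q29 Pool.Agent.W_7d29a1_R34 Pool.Agent.W_7d29a1_SP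

/-- The product measure. -/
noncomputable def PN (ρ : Measure ℝ) (N : ℕ) : Measure (Fin N → ℝ) := Measure.pi fun _ => ρ

/-- The class of functions. -/
structure Cls (β : ℝ) {N : ℕ} (V : (Fin N → ℝ) → ℝ) (p : Fin N → (Fin N → ℝ) → ℝ) : Prop where
  meas : Measurable V
  measp : ∀ i, Measurable (p i)
  nonneg : ∀ y, 0 ≤ V y
  p0 : ∀ i y, 0 ≤ p i y
  p1 : ∀ i y, p i y ≤ 1
  conv : ∀ y y', V y + β * ∑ i, (y' i - y i) * p i y ≤ V y'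
  rat : ∀ i y y', (∀ j, j ≠ i → y' j = y j) → p i y' ≤ Real.exp (β * |y' i - y i|) * p i y

/-- Fix the first coordinate of a function. -/
def fx {N : ℕ} (V : (Fin (N + 1) → ℝ) → ℝ) (w : ℝ) : (Fin N → ℝ) → ℝ := fun y =>
  V (Fin.cons w y)

/-- Fix the first coordinate of the weights. -/
def fq {N : ℕ} (p : Fin (N + 1) → (Fin (N + 1) → ℝ) → ℝ) (w : ℝ) : Fin N → (Fin N → ℝ) → ℝ :=
  fun i y => p i.succ (Fin.cons w y)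

/-- The truncation. -/
noncomputable def Uf (B v : ℝ) : ℝ := v - Real.log (1 + Real.exp (v - B))

/-- The derivative of the truncation. -/
noncomputable def chi (B v : ℝ) : ℝ := 1 / (1 + Real.exp (v - B))

/-- The upper weight. -/
noncomputable def fP (l B v : ℝ) : ℝ := Real.exp (l * Uf B v)

/-- The lower weight. -/
noncomputable def fM (l v : ℝ) : ℝ := Real.exp (-(l * v))

/-- The properties of a weight `f` with derivative `σ l x f`. -/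
structure Wt (l σ : ℝ) (f x : ℝ → ℝ) : Prop where
  measf : Measurable f
  measx : Measurable x
  pos : ∀ v, 0 < f v
  x0 : ∀ v, 0 ≤ x v
  x1 : ∀ v, x v ≤ 1
  bdd : ∃ C, ∀ v, 0 ≤ v → f v ≤ C
  bdl : ∃ C, ∀ v, 0 ≤ v → |Real.log (f v) * f v| ≤ C
  lo : ∀ v v', v ≤ v' → l * Real.exp (-(v' - v)) * (v' - v) * (x v * f v) ≤ σ * (f v' - f v)
  up : ∀ v v', v ≤ v' → σ * (f v' - f v) ≤ l * Real.exp (v' - v) * (v' - v) * (x v * f v)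
  rat : ∀ v v', x v' * f v' ≤ Real.exp |v' - v| * (x v * f v)
  ratf : ∀ v v', f v' ≤ Real.exp |v' - v| * f v

/-- The normalisation. -/
noncomputable def gf (ρ : Measure ℝ) (f : ℝ → ℝ) {N : ℕ} (V : (Fin N → ℝ) → ℝ) : ℝ :=
  ∫ y, f (V y) ∂PN ρ N

/-- The mean under the tilted law. -/
noncomputable def Ef (ρ : Measure ℝ) (f : ℝ → ℝ) {N : ℕ} (V F : (Fin N → ℝ) → ℝ) : ℝ :=
  (∫ y, F y * f (V y) ∂PN ρ N) / gf ρ f V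

/-- The integrated weight of the first coordinate. -/
noncomputable def Kf (ρ : Measure ℝ) (f x : ℝ → ℝ) {N : ℕ} (V : (Fin (N + 1) → ℝ) → ℝ)
    (p : Fin (N + 1) → (Fin (N + 1) → ℝ) → ℝ) (w : ℝ) : ℝ :=
  ∫ y, p 0 (Fin.cons w y) * x (fx V w y) * f (fx V w y) ∂PN ρ N

/-- The mean of the weight of the first coordinate. -/
noncomputable def pif (ρ : Measure ℝ) (f x : ℝ → ℝ) {N : ℕ} (V : (Fin (N + 1) → ℝ) → ℝ)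
    (p : Fin (N + 1) → (Fin (N + 1) → ℝ) → ℝ) : ℝ := Ef ρ f V fun y => p 0 y * x (V y)

/-- The density of the first coordinate under the tilted law. -/
noncomputable def rf (ρ : Measure ℝ) (f : ℝ → ℝ) {N : ℕ} (V : (Fin (N + 1) → ℝ) → ℝ) (w : ℝ) : ℝ :=
  gf ρ f (fx V w) / gf ρ f V

/-- The sum of squares. -/
noncomputable def Nt (ρ : Measure ℝ) (f x : ℝ → ℝ) : (N : ℕ) → ((Fin N → ℝ) → ℝ) →
    (Fin N → (Fin N → ℝ) → ℝ) → ℝ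
  | 0, _, _ => 0
  | (N + 1), V, p => pif ρ f x V p ^ 2 + ∫ w, rf ρ f V w * Nt ρ f x N (fx V w) (fq p w) ∂ρ

open Classical in
/-- The stopped sum of squares. -/
noncomputable def Ns (ρ : Measure ℝ) (f x : ℝ → ℝ) : (N : ℕ) → ((Fin N → ℝ) → ℝ) →
    (Fin N → (Fin N → ℝ) → ℝ) → ℝ → ℝ
  | 0, _, _, _ => 0
  | (N + 1), V, p, v => if pif ρ f x V p ^ 2 ≤ v then pif ρ f x V p ^ 2 +
      ∫ w, rf ρ f V w * Ns ρ f x N (fx V w) (fq p w) (v - pif ρ f x V p ^ 2) ∂ρ else 0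

/-- The one site calculus: `G` moves with the weight `K`. -/
structure Site (l β σ : ℝ) (G K : ℝ → ℝ) : Prop where
  measG : Measurable G
  measK : Measurable K
  bddG : ∃ C, ∀ w, G w ≤ C
  G0 : ∀ w, 0 < G w
  K0 : ∀ w, 0 ≤ K w
  KG : ∀ w, K w ≤ G w
  rK : ∀ w w', K w' ≤ Real.exp (2 * β * |w' - w|) * K w
  rG : ∀ w w', G w' ≤ Real.exp (β * |w' - w|) * G w
  lo : ∀ w w', w ≤ w' →
    l * β * (w' - w) * Real.exp (-(β * (w' - w))) * K w ≤ σ * (G w' - G w)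
  up : ∀ w w', w ≤ w' →
    σ * (G w' - G w) ≤ l * β * (w' - w) * Real.exp (2 * β * (w' - w)) * K w

/-- Two separated sets of positive mass. -/
structure LHs (ρ : Measure ℝ) (c R : ℝ) (L H : Set ℝ) : Prop where
  c0 : 0 < c
  mL : MeasurableSet L
  mH : MeasurableSet H
  L0 : c ≤ ρ.real L
  H0 : c ≤ ρ.real H
  sep : ∀ l ∈ L, ∀ h ∈ H, c ≤ h - l
  bL : ∀ l ∈ L, |l| ≤ R
  bH : ∀ h ∈ H, |h| ≤ R

section Leaves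

variable (ρ : Measure ℝ) (β : ℝ)

/-- A0: the two weights. -/
def WtP : Prop := ∀ l B : ℝ, 0 < l → l ≤ 1 → 0 ≤ B →
  Wt l 1 (fP l B) (chi B) ∧ Wt l (-1) (fM l) (fun _ => 1)

/-- A1: the one site calculus of a function of the class. -/
def SiteP : Prop := ∀ (l σ : ℝ) (f x : ℝ → ℝ), 0 < l → l ≤ 1 → Wt l σ f x →
  ∀ (N : ℕ) (V : (Fin (N + 1) → ℝ) → ℝ) (p : Fin (N + 1) → (Fin (N + 1) → ℝ) → ℝ), Cls β V p →
    Site l β σ (fun w => gf ρ f (fx V w)) (Kf ρ f x V p)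

/-- A1': consequences of the one site calculus. -/
def ConP : Prop := ∃ (c R C : ℝ) (L H : Set ℝ), LHs ρ c R L H ∧ 1 ≤ C ∧
  ∀ (l σ : ℝ) (G K : ℝ → ℝ), 0 < l → l ≤ 1 → (σ = 1 ∨ σ = -1) → Site l β σ G K →
    (∀ w, |G w / (∫ z, G z ∂ρ) - 1| ≤ l * C * Real.exp (C * |w|) *
      ((∫ z, K z ∂ρ) / ∫ z, G z ∂ρ)) ∧
    (∀ w, K w / G w ≤ C * Real.exp (C * |w|) * ((∫ z, K z ∂ρ) / ∫ z, G z ∂ρ)) ∧
    (∀ w ∈ L, c * ((∫ z, K z ∂ρ) / ∫ z, G z ∂ρ) ≤ K w / ∫ z, G z ∂ρ) ∧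
    (∀ w ∈ L, ∀ w' ∈ H, c * l * ((∫ z, K z ∂ρ) / ∫ z, G z ∂ρ) ≤
      σ * (G w' / (∫ z, G z ∂ρ) - G w / ∫ z, G z ∂ρ)) ∧
    (∀ w ∈ L ∪ H, G w / (∫ z, G z ∂ρ) ≤ C)

/-- A2: the coupling lemma. -/
def CouP : Prop := ∃ C : ℝ, 0 < C ∧ ∀ (l : ℝ) (G K G' K' a b : ℝ → ℝ), 0 < l → l ≤ 1 →
  Site l β 1 G K → Site l β (-1) G' K' → Measurable a → Measurable b → (∀ w, 0 ≤ a w) →
  (∃ M, ∀ w, |b w| ≤ M) → (∃ M, ∀ w, a w * G' w ≤ M) →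
  (∀ w w₁, w ≤ w₁ → b w₁ - β * (w₁ - w) * (K w₁ / G w₁) ≤ a w) →
    (∫ w, b w * G w ∂ρ) / (∫ w, G w ∂ρ) ≤ (∫ w, a w * G' w ∂ρ) / (∫ w, G' w ∂ρ) +
      C * l * ((∫ z, K z ∂ρ) / ∫ z, G z ∂ρ) *
        ((∫ z, K z ∂ρ) / (∫ z, G z ∂ρ) + (∫ z, K' z ∂ρ) / ∫ z, G' z ∂ρ)

/-- A3: the gradient is large. -/
def LemD : Prop := ∃ C : ℝ, 0 < C ∧ ∀ l B : ℝ, 0 < l → l ≤ 1 → 0 ≤ B →
  ∀ (N : ℕ) (Vm V : (Fin N → ℝ) → ℝ) (pm p : Fin N → (Fin N → ℝ) → ℝ) (c : (Fin N → ℝ) → ℝ)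
    (u v : ℝ), Cls β Vm pm → Cls β V p → Measurable c → (∀ y, 0 ≤ c y) → (∃ M, ∀ y, c y ≤ M) →
    (∀ y y₁, V y₁ - c y₁ + β * ∑ i, (y i - y₁ i) * p i y₁ ≤ Vm y) → 0 < u → 0 ≤ v → v ≤ u →
      Ef ρ (fP l B) V (fun y => chi B (V y) * (V y - c y)) -
          C * l * Ns ρ (fP l B) (chi B) N V p v -
          (B + 1) / u * (Nt ρ (fP l B) (chi B) N V p + u - v) ≤
        Ef ρ (fM l) Vm Vm + C * l * Nt ρ (fM l) (fun _ => 1) N Vm pm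

/-- A4: the entropy. -/
def LemK : Prop := ∃ c : ℝ, 0 < c ∧ ∀ (l σ : ℝ) (f x : ℝ → ℝ), 0 < l → l ≤ 1 →
  (σ = 1 ∨ σ = -1) → Wt l σ f x → ∀ (N : ℕ) (V : (Fin N → ℝ) → ℝ)
    (p : Fin N → (Fin N → ℝ) → ℝ), Cls β V p →
      c * l ^ 2 * Nt ρ f x N V p ≤ Ef ρ f V (fun y => Real.log (f (V y))) - Real.log (gf ρ f V)

/-- A5: the upgrade. -/
def LemG : Prop := ∃ c C : ℝ, 0 < c ∧ 0 < C ∧ ∀ l B : ℝ, 0 < l → l ≤ 1 → 0 ≤ B →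
  ∀ (N : ℕ) (V : (Fin N → ℝ) → ℝ) (p : Fin N → (Fin N → ℝ) → ℝ) (Y e : (Fin N → ℝ) → ℝ)
    (θ x₀ v : ℝ), Cls β V p → Measurable Y → (∀ y, 0 ≤ Y y) →
    (∃ M, ∀ y, Y y ≤ M * (1 + ∑ i, |y i|)) → Measurable e → (∀ y, 0 ≤ e y) →
    (∃ M, ∀ y, e y ≤ M) →
    (∀ y y₂ : Fin N → ℝ, (∀ i, y i ≤ y₂ i) → e y + β * ∑ i, (y₂ i - y i) * p i y ≤ Y y₂) →
    0 ≤ θ → θ ≤ 1 → 0 ≤ x₀ → 0 ≤ v →
      Ef ρ (fP l B) V e + c * θ * Ns ρ (fP l B) (chi B) N V p v ≤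
        x₀ + Real.exp (l * B) / gf ρ (fP l B) V * Real.exp (C * θ ^ 2 * v) *
          (∫ y, (max (Y y - x₀) 0) ^ (4 / 3 : ℝ) ∂PN ρ N) ^ (3 / 4 : ℝ)

/-- A6: amplification in the class. -/
def AmpC : Prop := ∀ D : ℝ, 1 ≤ D → ∃ C : ℝ, 1 ≤ C ∧ ∀ (N : ℕ) (V : (Fin N → ℝ) → ℝ)
  (p : Fin N → (Fin N → ℝ) → ℝ), Cls β V p → ∀ q s : ℝ, 0 < q → q ≤ 1 / 2 →
    C * (1 + Real.log (1 / q)) ≤ s → q ≤ (PN ρ N).real {y | V y ≤ Real.log 2} →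
    q ≤ (PN ρ N).real {y | s ≤ V y} → ∫ y, V y ^ 2 ∂PN ρ N ≤ (s / q) ^ 2 →
      q ^ C ≤ (PN ρ N).real {y | D * s ≤ V y}

/-- A7: amplification of the upper deviations of the free energy, every law. -/
def AmpU (d : ℕ) : Prop := ∀ t : ℝ, 1 ≤ t → ∃ C : ℝ, 1 ≤ C ∧ ∀ (h : Vec d) (m : ℕ)
  (s₀ s₁ q : ℝ), 0 < q → q ≤ 1 / 2 → C * (1 + Real.log (1 / q)) ≤ s₁ - s₀ →
    Va ρ β h m ≤ (s₁ - s₀) ^ 2 / q → q ≤ (law d ρ).real {η | X β h η m ≤ s₀} →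
    q ≤ (law d ρ).real {η | s₁ < X β h η m} →
      q ^ C ≤ (law d ρ).real {η | s₁ + t * (s₁ - s₀) < X β h η m}

end Leaves

end Pool.Agent.W_7d29a1_AM
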