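import Pool.Agent.W_7d29a1_AM.DefsAM

/-!
Growth and doubling with the amplification of every law: frozen statements (helper73).
-/

namespace Pool.Agent.W_7d29a1_AM

open MeasureTheory ProbabilityTheory Filter Topology Pool.Agent.W_MP_7d29a1_pr
  Pool.Agent.W_7d29a1_h46 Pool.Agent.W_7d29a1_h46u Pool.Agent.W_7d29a1_D2.B35
  Pool.Agent.W_7d29a1_Q29 Pool.Agent.W_7d29a1_R34 Pool.Agent.W_7d29a1_SP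

section Leaves

variable (d : ℕ) (ρ : Measure ℝ) (β : ℝ)

/-- GROW with the amplification of every law. -/
def GrowU : Prop := ∀ c₀ D : ℝ, 0 < c₀ → 1 ≤ D → ∃ C : ℝ, 1 ≤ C ∧ ∀ h : Vec d,
  Loc1 ρ β h c₀ → ∀ (m T : ℕ) (s₀ s₁ q Φ : ℝ), 1 ≤ m → 0 < q → q ≤ 1 / 2 →
    C * (1 + Real.log (1 / q)) ≤ s₁ - s₀ → Va ρ β h m ≤ (s₁ - s₀) ^ 2 / q →
    A ρ β h m ≤ s₁ → q ≤ (law d ρ).real {η | X β h η m ≤ s₀} →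
    q ≤ (law d ρ).real {η | s₁ < X β h η m} → C * m * (1 / q) ^ C ≤ T →
    (∀ k : ℕ, k ≤ T → En ρ β h k ≤ Φ ∧ Fn ρ β h k ≤ Φ) → D * (s₁ - s₀) ≤ Φ + 1

/-- STEP (`d = 2`) with the amplification of every law. -/
def StepU : Prop := ∀ g M : ℝ, 0 < g → 0 < M → ∃ Ca Cb : ℝ, 1 ≤ Ca ∧ 1 ≤ Cb ∧
  ∀ (h : Vec 2) (δ Q c R : ℝ), 0 < δ → 1 ≤ Q → 0 < c → c ≤ 1 → Pt ρ β h g M δ Q c R →
    ∃ Cs : ℝ, ∀ (n k : ℕ) (Ψ : ℝ), 1 ≤ n → k ≤ n → Cs * (1 + Real.sqrt (Real.log n)) ≤ Ψ →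
      (En ρ β h k = Ψ ∨ Fn ρ β h k = Ψ) → ∃ (T j : ℕ), n ≤ T ∧ j ≤ T ∧
        (2 * Ψ ≤ En ρ β h j ∨ 2 * Ψ ≤ Fn ρ β h j) ∧
        ∀ Φ : ℝ, (∀ i : ℕ, i ≤ T → En ρ β h i ≤ Φ ∧ Fn ρ β h i ≤ Φ) →
          (T : ℝ) ≤ Ca * n * (kap Q c (128 * T) * Φ) ^ Cb

end Leaves

end Pool.Agent.W_7d29a1_AM
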