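import Pool.Agent.W_7d29a1_AM.DefsAU

/-!
Amplification for every law and counting in time (text of helper15 over DefsAU).
-/

namespace Pool.Agent.W_7d29a1_AM

open MeasureTheory ProbabilityTheory Filter Topology Pool.Agent.W_MP_7d29a1_pr
  Pool.Agent.W_7d29a1_h46 Pool.Agent.W_7d29a1_h46u Pool.Agent.W_7d29a1_D2.B35
  Pool.Agent.W_7d29a1_Q29 Pool.Agent.W_7d29a1_R34 Pool.Agent.W_7d29a1_SP

/-- GROW for every law. -/
theorem growU78 {d : ℕ} {ρ : Measure ℝ} [IsProbabilityMeasure ρ] {β : ℝ} (hC : CntP d ρ β)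
    (hA : AmpU ρ β d) : GrowU d ρ β := by
  intro c₀ D hc hD
  obtain ⟨C1, h1, hcnt⟩ := hC c₀ hc
  have hC1 : 0 < C1 := by linarith
  have hDC : 1 ≤ D * C1 := one_le_mul_of_one_le_of_one_le hD h1
  obtain ⟨C2, h2, hamp⟩ := hA (D * C1) hDC
  refine ⟨max C1 C2, h1.trans (le_max_left _ _), ?_⟩
  intro h hL m T s₀ s₁ q Φ hm hq hq1 hs hVa hAm hp0 hp1 hT hk
  obtain ⟨C, hCdef⟩ : ∃ C, C = max C1 C2 := ⟨_, rfl⟩
  rw [← hCdef] at hs hT
  have hCa : C1 ≤ C := by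
    rw [hCdef]
    exact le_max_left _ _
  have hCb : C2 ≤ C := by
    rw [hCdef]
    exact le_max_right _ _
  have h8 : 1 ≤ 1 / q := by
    rw [le_div_iff₀ hq]
    linarith
  have hl : 0 ≤ Real.log (1 / q) := Real.log_nonneg h8
  have hs2 : C2 * (1 + Real.log (1 / q)) ≤ s₁ - s₀ :=
    (mul_le_mul_of_nonneg_right hCb (by linarith)).trans hs
  have hs0 : 0 ≤ s₁ - s₀ := by
    have : 0 ≤ C2 * (1 + Real.log (1 / q)) := by positivity
    linarith
  have h3 := hamp h m s₀ s₁ q hq hq1 hs2 hVa hp0 hp1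
  have hqC : 0 < q ^ C2 := Real.rpow_pos_of_pos hq _
  have h4 : q ^ C2 ≤ (law d ρ).real {η | A ρ β h m + D * C1 * (s₁ - s₀) ≤ X β h η m} := by
    refine h3.trans (measureReal_mono ?_ (measure_ne_top _ _))
    intro η hη
    have h5 : s₁ + D * C1 * (s₁ - s₀) < X β h η m := hη
    show A ρ β h m + D * C1 * (s₁ - s₀) ≤ X β h η m
    linarith
  have hmp : (1 : ℝ) ≤ m := by exact_mod_cast hm
  have h5 : C1 * m / (q ^ C2) ≤ T := by
    refine le_trans ?_ hT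
    have h6 : q ^ C2 = (1 / q) ^ (-C2) := by
      rw [one_div, Real.inv_rpow hq.le, Real.rpow_neg hq.le, inv_inv]
    have h7 : C1 * m / (q ^ C2) = C1 * m * (1 / q) ^ C2 := by
      rw [h6, Real.rpow_neg (by positivity)]
      field_simp
    rw [h7]
    have h9 : (1 / q) ^ C2 ≤ (1 / q) ^ C := Real.rpow_le_rpow_of_exponent_le h8 hCb
    have h10 : C1 * m ≤ C * m := mul_le_mul_of_nonneg_right hCa (by linarith)
    exact mul_le_mul h10 h9 (Real.rpow_nonneg (by positivity) _)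
      (mul_nonneg (by linarith) (by linarith))
  have h6 := hcnt h hL m T (D * C1 * (s₁ - s₀)) (q ^ C2) Φ hm hqC h4 h5 hk
  have h7 : C1 * (D * (s₁ - s₀)) ≤ C1 * (Φ + 1) := by
    calc C1 * (D * (s₁ - s₀)) = D * C1 * (s₁ - s₀) := by ring
      _ ≤ _ := h6
  exact le_of_mul_le_mul_left h7 hC1

end Pool.Agent.W_7d29a1_AM
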