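import Pool.Agent.W_7d29a1_AM.StepU73
import Pool.Agent.W_7d29a1_AM.PointU73
import Pool.Agent.W_7d29a1_AM.GrowU78
import Pool.Agent.W_7d29a1_AM.Wt64
import Pool.Agent.W_7d29a1_AM.SiteP86
import Pool.Agent.W_7d29a1_AM.Con73
import Pool.Agent.W_7d29a1_AM.Cou35
import Pool.Agent.W_7d29a1_AM.LemD73
import Pool.Agent.W_7d29a1_AM.LemK44
import Pool.Agent.W_7d29a1_AM.LemG66
import Pool.Agent.W_7d29a1_AM.AmpC94
import Pool.Agent.W_7d29a1_AM.AmpU5
import Pool.Agent.W_7d29a1_SP.Fin15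

/-!
The amplification of the upper deviations for every law with exponential moments, and the
superpolylogarithmic variance in two transversal dimensions for every such law (helper73).
-/

namespace Pool.Agent.W_7d29a1_AM

open MeasureTheory ProbabilityTheory Filter Topology Pool.Agent.W_MP_7d29a1_pr
  Pool.Agent.W_7d29a1_h46 Pool.Agent.W_7d29a1_h46u Pool.Agent.W_7d29a1_D2.B35
  Pool.Agent.W_7d29a1_Q29 Pool.Agent.W_7d29a1_R34 Pool.Agent.W_7d29a1_SP

variable {ρ : Measure ℝ} [IsProbabilityMeasure ρ]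

/-- AMP in the class, for every law which is not a point mass, with all exponential moments. -/
theorem ampC73 (hρ : EM ρ) (hnc : ∀ c : ℝ, ρ {c} ≠ 1) {β : ℝ} (hβ : 0 < β) : AmpC ρ β := by
  have hS : SiteP ρ β := siteP86 hβ
  have hC : ConP ρ β := conP73 hρ hnc hβ
  exact ampC94 hρ hβ wt64 (lemD73 hβ wt64 hS (couP35 hρ hβ hC)) (lemK44 hS hC)
    (lemG66 hρ hβ wt64 hS hC)

/-- **AMP** for every law, every dimension, every tilt. -/
theorem ampU73 {d : ℕ} (hd : 0 < d) (hρ : EM ρ) (hnc : ∀ c : ℝ, ρ {c} ≠ 1) {β : ℝ}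
    (hβ : 0 < β) : AmpU ρ β d :=
  ampU5 hd hρ hβ.le (ampC73 hρ hnc hβ)

/-- **Theorem G for every law.** -/
theorem mainGU73 (hρ : EM ρ) (hnc : ∀ c : ℝ, ρ {c} ≠ 1) {β : ℝ} (hβ : 0 < β) : MainG ρ β := by
  have hLoc : LocE 2 ρ β := Csy42.loc42 (by norm_num) hρ β
  have hLuck : LuckP ρ β :=
    luck93 hρ (leak34 hρ (box34 (by norm_num) hρ β) (tail13 (by norm_num) hρ β))
  have hLk : LkP ρ β := lk96 hρ hLuck (npb98 (by norm_num) hρ hnc hβ)
  have hGrow : GrowU 2 ρ β :=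
    growU78 (cnt79 (by norm_num) hρ β) (ampU73 (by norm_num) hρ hnc hβ)
  exact aeg78 hρ (pointU73 hρ (stepU73 hρ seqP69 hGrow hLk hLoc) (beta48 hρ β seqP69 hLk) iter83
    (gapQ72 (npf98 (by norm_num) hρ hnc hβ) hLoc (lowP85 (by norm_num) hρ β)))
    (Rate74.rateP74 hρ β) (curv13 hρ)

end Pool.Agent.W_7d29a1_AM
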