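import Pool.Agent.W_7d29a1_AM.BaseT73
import Pool.Agent.W_7d29a1_AM.Con73
import Pool.Agent.W_7d29a1_AM.SiteP86
import Pool.Agent.W_7d29a1_AM.Wt64

/-! Leaf T2: the weights with another cut off (helper44). -/

namespace Pool.Agent.W_7d29a1_AM

open MeasureTheory ProbabilityTheory Filter Topology Pool.Agent.W_MP_7d29a1_pr
  Pool.Agent.W_7d29a1_h46u Pool.Agent.W_7d29a1_AM.S86

variable {ρ : Measure ℝ} [IsProbabilityMeasure ρ] {β : ℝ}

lemma fP_mono44 {l B v v' : ℝ} (hl : 0 < l) (h : v ≤ v') : fP l B v ≤ fP l B v' :=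
  Real.exp_le_exp.2 (mul_le_mul_of_nonneg_left (Uf_mono B h) hl.le)

lemma fP_lip44 {l B v v' : ℝ} (hl : 0 < l) (hl1 : l ≤ 1) (h : v ≤ v') :
    fP l B v' ≤ Real.exp (v' - v) * fP l B v := by
  unfold fP
  rw [← Real.exp_add]
  refine Real.exp_le_exp.2 ?_
  have h1 := Uf_lip B h
  have h2 : 0 ≤ v' - v := by linarith
  nlinarith

lemma f_rat44 {l B : ℝ} (hl : 0 < l) (hl1 : l ≤ 1) (v v' : ℝ) :
    fP l B v' ≤ Real.exp |v' - v| * fP l B v := by
  rcases le_total v v' with h | h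
  · rw [abs_of_nonneg (by linarith)]; exact fP_lip44 hl hl1 h
  · have h1 := fP_mono44 (l := l) (B := B) hl h
    have h2 : (1 : ℝ) ≤ Real.exp |v' - v| := Real.one_le_exp (abs_nonneg _)
    have h3 : 0 < fP l B v := Real.exp_pos _
    nlinarith

lemma cf_rat44 {l B B' : ℝ} (hl : 0 < l) (hl1 : l ≤ 1) (v v' : ℝ) :
    chi B' v' * fP l B v' ≤ Real.exp |v' - v| * (chi B' v * fP l B v) := by
  rcases le_total v v' with h | h
  · rw [abs_of_nonneg (by linarith)]
    calc chi B' v' * fP l B v' ≤ chi B' v * (Real.exp (v' - v) * fP l B v) :=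
          mul_le_mul (chi_anti B' h) (fP_lip44 hl hl1 h) (Real.exp_pos _).le (chi_pos _ _).le
      _ = _ := by ring
  · rw [abs_of_nonpos (by linarith), neg_sub]
    calc chi B' v' * fP l B v' ≤ (Real.exp (v - v') * chi B' v) * fP l B v :=
          mul_le_mul (chi_rat B' h) (fP_mono44 hl h) (Real.exp_pos _).le
            (mul_nonneg (Real.exp_pos _).le (chi_pos _ _).le)
      _ = _ := by ring

/-- **Leaf T2.** -/
theorem kmP44 (hρ : EM ρ) (hnc : ∀ c : ℝ, ρ {c} ≠ 1) (hβ : 0 < β) : KmP ρ β := by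
  obtain ⟨c0, R, L, H, hL⟩ := lh73 hnc
  obtain ⟨M1, hM1⟩ : ∃ M, M = ∫ z, Real.exp (β * |z|) ∂ρ := ⟨_, rfl⟩
  obtain ⟨M2, hM2⟩ : ∃ M, M = ∫ z, Real.exp (2 * β * |z|) ∂ρ := ⟨_, rfl⟩
  obtain ⟨m2, hm2⟩ : ∃ M, M = ∫ z, Real.exp (-(2 * β * |z|)) ∂ρ := ⟨_, rfl⟩
  have hm2p : 0 < m2 := by rw [hm2]; exact em_neg_pos73 (by positivity)
  have hone : ∀ a : ℝ, 0 ≤ a → 1 ≤ ∫ z, Real.exp (a * |z|) ∂ρ := by
    intro a ha
    have := integral_mono (integrable_const (1 : ℝ)) (em_abs73 hρ ha) fun z => by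
      show (1 : ℝ) ≤ Real.exp (a * |z|)
      rw [Real.one_le_exp_iff]
      positivity
    simpa using this
  have hM1p : 1 ≤ M1 := by rw [hM1]; exact hone β hβ.le
  have hM2p : 1 ≤ M2 := by rw [hM2]; exact hone (2 * β) (by positivity)
  obtain ⟨C, hC⟩ : ∃ C, C = 1 + M1 / m2 + 3 * β := ⟨_, rfl⟩
  have q2 : 0 ≤ M1 / m2 := by positivity
  obtain ⟨c, hc⟩ : ∃ c, c = min c0 (1 / (M2 * Real.exp (2 * β * R))) := ⟨_, rfl⟩
  have hc0 := hL.c0
  have hcp : 0 < c := by
    rw [hc]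
    exact lt_min hc0 (by positivity)
  have hcc0 : c ≤ c0 := by rw [hc]; exact min_le_left _ _
  have hc1 : c ≤ 1 / (M2 * Real.exp (2 * β * R)) := by rw [hc]; exact min_le_right _ _
  refine ⟨c, R, C, L, H, ⟨hcp, hL.mL, hL.mH, hcc0.trans hL.L0, hcc0.trans hL.H0,
    fun l hl h hh => hcc0.trans (hL.sep l hl h hh), hL.bL, hL.bH⟩, by rw [hC]; linarith, ?_⟩
  intro l B B' hl hl1 hB hB' N V p h
  have hW := w0P l B B' hl
  have hf0 : ∀ v, 0 < fP l B v := hW.pos
  obtain ⟨CG, hCG⟩ := hW.bdd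
  set G : ℝ → ℝ := fun w => gf ρ (fP l B) (fx V w) with hGd
  set K : ℝ → ℝ := fun w => Kf ρ (fP l B) (chi B') V p w with hKd
  have hfi : ∀ w, Integrable (fun y => fP l B (fx V w y)) (PN ρ N) := fun w =>
    T0.int_f hW (cls_fx h w)
  have hki : ∀ w, Integrable (fun y => p 0 (Fin.cons w y) * chi B' (fx V w y) *
      fP l B (fx V w y)) (PN ρ N) := by
    intro w
    refine (hfi w).mono' ?_ (Eventually.of_forall fun y => ?_)
    · exact (((meas_fx86 (h.measp 0) w).mul (hW.measx.comp (meas_fx h.meas w))).mul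
        (hW.measf.comp (meas_fx h.meas w))).aestronglyMeasurable
    · have h1 : p 0 (Fin.cons w y) * chi B' (fx V w y) ≤ 1 :=
        mul_le_one₀ (h.p1 _ _) (hW.x0 _) (hW.x1 _)
      have h0 : 0 ≤ p 0 (Fin.cons w y) * chi B' (fx V w y) := mul_nonneg (h.p0 _ _) (hW.x0 _)
      rw [Real.norm_eq_abs, abs_of_nonneg (mul_nonneg h0 (hf0 _).le)]
      have := mul_le_mul_of_nonneg_right h1 (hf0 (fx V w y)).le
      linarith
  have G0 : ∀ w, 0 < G w := fun w => T0.gf_fx_pos hW h w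
  have K0 : ∀ w, 0 ≤ K w := fun w => integral_nonneg fun y =>
    mul_nonneg (mul_nonneg (h.p0 _ _) (hW.x0 _)) (hf0 _).le
  have KG : ∀ w, K w ≤ G w := by
    intro w
    refine integral_mono (hki w) (hfi w) fun y => ?_
    have h1 : p 0 (Fin.cons w y) * chi B' (fx V w y) ≤ 1 :=
      mul_le_one₀ (h.p1 _ _) (hW.x0 _) (hW.x1 _)
    have := mul_le_mul_of_nonneg_right h1 (hf0 (fx V w y)).le
    simpa using this
  have mG : Measurable G := meas_gf hW.measf h.meas
  have mK : Measurable K := meas_Kf hW.measf hW.measx h.meas h.measp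
  have GC : ∀ w, G w ≤ CG := by
    intro w
    have := integral_mono (hfi w) (integrable_const (μ := PN ρ N) CG) fun y =>
      hCG _ (h.nonneg (Fin.cons w y))
    rw [integral_const, probReal_univ, one_smul] at this
    exact this
  have iG : Integrable G ρ := Integrable.of_bound mG.aestronglyMeasurable CG
    (Eventually.of_forall fun w => by
      rw [Real.norm_eq_abs, abs_of_pos (G0 w)]; exact GC w)
  have iK : Integrable K ρ := iG.mono' mK.aestronglyMeasurable
    (Eventually.of_forall fun w => by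
      rw [Real.norm_eq_abs, abs_of_nonneg (K0 w)]; exact KG w)
  have hexpV : ∀ w w' y, Real.exp |fx V w' y - fx V w y| ≤ Real.exp (β * |w' - w|) :=
    fun w w' y => Real.exp_le_exp.2 (lip86 hβ h w w' y)
  have rG : ∀ w w', G w' ≤ Real.exp (β * |w' - w|) * G w := by
    intro w w'
    have h1 : ∫ y, fP l B (fx V w' y) ∂PN ρ N ≤
        ∫ y, Real.exp (β * |w' - w|) * fP l B (fx V w y) ∂PN ρ N := by
      refine integral_mono (hfi w') ((hfi w).const_mul _) fun y => ?_
      exact (f_rat44 hl hl1 (fx V w y) (fx V w' y)).trans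
        (mul_le_mul_of_nonneg_right (hexpV w w' y) (hf0 _).le)
    rwa [integral_const_mul] at h1
  have rK : ∀ w w', K w' ≤ Real.exp (2 * β * |w' - w|) * K w := by
    intro w w'
    have h1 : ∫ y, p 0 (Fin.cons w' y) * chi B' (fx V w' y) * fP l B (fx V w' y) ∂PN ρ N ≤
        ∫ y, Real.exp (2 * β * |w' - w|) *
          (p 0 (Fin.cons w y) * chi B' (fx V w y) * fP l B (fx V w y)) ∂PN ρ N := by
      refine integral_mono (hki w') ((hki w).const_mul _) fun y => ?_
      have e1 := rat86 h w w' y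
      have e2 := (cf_rat44 (B := B) (B' := B') hl hl1 (fx V w y) (fx V w' y)).trans
        (mul_le_mul_of_nonneg_right (hexpV w w' y)
          (mul_nonneg (hW.x0 _) (hf0 _).le))
      have e3 : 0 ≤ chi B' (fx V w' y) * fP l B (fx V w' y) := mul_nonneg (hW.x0 _) (hf0 _).le
      have e4 : 0 ≤ p 0 (Fin.cons w y) := h.p0 _ _
      calc p 0 (Fin.cons w' y) * chi B' (fx V w' y) * fP l B (fx V w' y) =
            p 0 (Fin.cons w' y) * (chi B' (fx V w' y) * fP l B (fx V w' y)) := by ring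
        _ ≤ (Real.exp (β * |w' - w|) * p 0 (Fin.cons w y)) *
            (Real.exp (β * |w' - w|) * (chi B' (fx V w y) * fP l B (fx V w y))) :=
            mul_le_mul e1 e2 e3 (mul_nonneg (Real.exp_pos _).le e4)
        _ = (Real.exp (β * |w' - w|) * Real.exp (β * |w' - w|)) *
            (p 0 (Fin.cons w y) * chi B' (fx V w y) * fP l B (fx V w y)) := by ring
        _ = _ := by
            rw [← Real.exp_add]
            congr 2
            ring
    rwa [integral_const_mul] at h1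
  have hG := har73 hρ hβ.le iG rG fun w => (G0 w).le
  have hK := har73 hρ (by positivity : 0 ≤ 2 * β) iK rK K0
  obtain ⟨Gb, hGb⟩ : ∃ g, g = ∫ z, G z ∂ρ := ⟨_, rfl⟩
  obtain ⟨Kb, hKb⟩ : ∃ g, g = ∫ z, K z ∂ρ := ⟨_, rfl⟩
  rw [← hM1, ← hGb] at hG
  rw [← hM2, ← hm2, ← hKb] at hK
  have hGV : gf ρ (fP l B) V = Gb := by rw [hGb]; exact T0.gf_peel hW h
  have hpi : pif ρ (fP l B) (chi B') V p = Kb / Gb := by
    rw [hGb, hKb]; exact T0.pif_peel hW h
  have hGbp : 0 < Gb := by rw [← hGV]; exact T0.gf_pos hW h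
  have hKbp : 0 ≤ Kb := by rw [hKb]; exact integral_nonneg K0
  have hπ : 0 ≤ Kb / Gb := by positivity
  rw [hpi, hGV]
  have hKw : ∀ w, K w ≤ Real.exp (2 * β * |w|) * Kb / m2 := fun w => by
    rw [le_div_iff₀ hm2p]
    exact (hK w).2
  refine ⟨fun w => ?_, fun w hw => ?_⟩
  · have hGw := G0 w
    change K w / G w ≤ _
    rw [div_le_iff₀ hGw]
    have h1 : 1 ≤ M1 * Real.exp (β * |w|) * G w / Gb := by
      rw [le_div_iff₀ hGbp, one_mul]
      exact (hG w).1
    calc K w ≤ Real.exp (2 * β * |w|) * Kb / m2 := hKw w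
      _ ≤ Real.exp (2 * β * |w|) * Kb / m2 * (M1 * Real.exp (β * |w|) * G w / Gb) :=
          le_mul_of_one_le_right (by positivity) h1
      _ = (M1 / m2) * (Real.exp (2 * β * |w|) * Real.exp (β * |w|)) * (Kb / Gb) * G w := by
          field_simp
      _ = (M1 / m2) * Real.exp (3 * β * |w|) * (Kb / Gb) * G w := by
          rw [← Real.exp_add]; congr 4; ring
      _ ≤ C * Real.exp (C * |w|) * (Kb / Gb) * G w := by
          refine mul_le_mul_of_nonneg_right (mul_le_mul_of_nonneg_right ?_ hπ) hGw.le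
          refine mul_le_mul (by rw [hC]; linarith) (Real.exp_le_exp.2
            (mul_le_mul_of_nonneg_right (by rw [hC]; linarith) (abs_nonneg w)))
            (Real.exp_pos _).le (by rw [hC]; positivity)
  · change c * (Kb / Gb) ≤ K w / Gb
    rw [← mul_div_assoc]
    refine div_le_div_of_nonneg_right ?_ hGbp.le
    have h1 := (hK w).1
    have h2 : Real.exp (2 * β * |w|) ≤ Real.exp (2 * β * R) :=
      Real.exp_le_exp.2 (mul_le_mul_of_nonneg_left (hL.bL w hw) (by positivity))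
    have h3 : Kb / (M2 * Real.exp (2 * β * R)) ≤ K w := by
      rw [div_le_iff₀ (by positivity)]
      calc Kb ≤ M2 * Real.exp (2 * β * |w|) * K w := h1
        _ ≤ M2 * Real.exp (2 * β * R) * K w :=
            mul_le_mul_of_nonneg_right (mul_le_mul_of_nonneg_left h2 (by linarith)) (K0 w)
        _ = _ := by ring
    refine le_trans ?_ h3
    calc c * Kb ≤ 1 / (M2 * Real.exp (2 * β * R)) * Kb := mul_le_mul_of_nonneg_right hc1 hKbp
      _ = _ := by ring

end Pool.Agent.W_7d29a1_AM
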