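import Pool.Agent.W_7d29a1_AM.BaseT73
import Pool.Agent.W_7d29a1_AM.SiteP86
import Pool.Agent.W_7d29a1_AM.ConP86
import Pool.Agent.W_7d29a1_AM.Wt64

/-!
Leaf T2: the weights with another cut off.
-/

namespace Pool.Agent.W_7d29a1_AM

open MeasureTheory ProbabilityTheory Filter Topology Pool.Agent.W_7d29a1_h46u

namespace K86

variable {ρ : Measure ℝ} {β : ℝ}

lemma chi_rat86 (B v v' : ℝ) : chi B v' ≤ Real.exp |v' - v| * chi B v := by
  rcases le_total v v' with h | h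
  · have h1 := chi_anti B h
    have h2 : (1 : ℝ) ≤ Real.exp |v' - v| := Real.one_le_exp (abs_nonneg _)
    have h3 := mul_le_mul_of_nonneg_right h2 (chi_pos B v).le
    linarith
  · have h1 := chi_rat B h
    rwa [abs_of_nonpos (by linarith), neg_sub]

/-- The constants for two given sets. -/
theorem kmG86 [IsProbabilityMeasure ρ] (hρ : EM ρ) (hβ : 0 < β) (hW : WtP) {c₀ R : ℝ}
    {L H : Set ℝ} (hL : LHs ρ c₀ R L H) :
    ∃ c C : ℝ, LHs ρ c R L H ∧ 1 ≤ C ∧
      ∀ l B B' : ℝ, 0 < l → l ≤ 1 → 0 ≤ B → 0 ≤ B' →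
      ∀ (N : ℕ) (V : (Fin (N + 1) → ℝ) → ℝ) (p : Fin (N + 1) → (Fin (N + 1) → ℝ) → ℝ),
        Cls β V p →
        (∀ w, Kf ρ (fP l B) (chi B') V p w / gf ρ (fP l B) (fx V w) ≤
          C * Real.exp (C * |w|) * pif ρ (fP l B) (chi B') V p) ∧
        (∀ w ∈ L, c * pif ρ (fP l B) (chi B') V p ≤
          Kf ρ (fP l B) (chi B') V p w / gf ρ (fP l B) V) := by
  set M1 : ℝ := ∫ z, Real.exp (β * |z|) ∂ρ with hM1
  set M3 : ℝ := ∫ z, Real.exp (3 * β * |z|) ∂ρ with hM3
  set m3 : ℝ := ∫ z, Real.exp (-(3 * β) * |z|) ∂ρ with hm3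
  have hM10 : 0 < M1 := S86.exppos86 hρ β
  have hM30 : 0 < M3 := S86.exppos86 hρ (3 * β)
  have hm30 : 0 < m3 := S86.exppos86 hρ (-(3 * β))
  set c : ℝ := min c₀ (Real.exp (-(3 * β * R)) / M3) with hc
  have hc0 : 0 < c := lt_min hL.c0 (by positivity)
  have hc1 : c ≤ c₀ := min_le_left _ _
  have hc2 : c ≤ Real.exp (-(3 * β * R)) / M3 := min_le_right _ _
  set C : ℝ := max (max 1 (4 * β)) (M1 / m3) with hC
  have hC1 : 1 ≤ C := (le_max_left _ _).trans (le_max_left _ _)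
  have hC2 : 4 * β ≤ C := (le_max_right _ _).trans (le_max_left _ _)
  have hC3 : M1 / m3 ≤ C := le_max_right _ _
  refine ⟨c, C, ⟨hc0, hL.mL, hL.mH, hc1.trans hL.L0, hc1.trans hL.H0,
    fun a ha b hb => hc1.trans (hL.sep a ha b hb), hL.bL, hL.bH⟩, hC1, ?_⟩
  intro l B B' hl hl1 hB hB' N V p h
  have := S86.inst86 ρ N
  have hWt := (hW l B hl hl1 hB).1
  have hW0 := w0P l B B' hl
  have hS := siteP86 (ρ := ρ) hβ l 1 (fP l B) (chi B) hl hl1 hWt N V p h
  obtain ⟨Mf, hMf⟩ := hW0.bdd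
  -- the function `K`
  set K : ℝ → ℝ := Kf ρ (fP l B) (chi B') V p with hK
  set G : ℝ → ℝ := fun w => gf ρ (fP l B) (fx V w) with hG
  have hmK : ∀ w, Measurable fun y : Fin N → ℝ =>
      p 0 (Fin.cons w y) * chi B' (fx V w y) * fP l B (fx V w y) := fun w =>
    ((meas_fx (h.measp 0) w).mul (hW0.measx.comp (meas_fx h.meas w))).mul
      (hW0.measf.comp (meas_fx h.meas w))
  have hK0' : ∀ w (y : Fin N → ℝ),
      0 ≤ p 0 (Fin.cons w y) * chi B' (fx V w y) * fP l B (fx V w y) :=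
    fun w y => mul_nonneg (mul_nonneg (h.p0 _ _) (hW0.x0 _)) (hW0.pos _).le
  have hKf : ∀ w (y : Fin N → ℝ),
      p 0 (Fin.cons w y) * chi B' (fx V w y) * fP l B (fx V w y) ≤ fP l B (fx V w y) :=
    fun w y => mul_le_of_le_one_left (hW0.pos _).le
      (mul_le_one₀ (h.p1 _ _) (hW0.x0 _) (hW0.x1 _))
  have hKi : ∀ w, Integrable (fun y : Fin N → ℝ =>
      p 0 (Fin.cons w y) * chi B' (fx V w y) * fP l B (fx V w y)) (PN ρ N) := fun w =>
    S86.int86 (hmK w) (hK0' w) (fun y => (hKf w y).trans (hMf _ (h.nonneg _)))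
  have hK0 : ∀ w, 0 ≤ K w := fun w => integral_nonneg (hK0' w)
  have hKM : ∀ w, K w ≤ Mf := fun w => by
    have h1 := integral_mono (hKi w) (integrable_const Mf)
      (fun y => (hKf w y).trans (hMf _ (h.nonneg _)))
    rw [integral_const, probReal_univ, one_smul] at h1
    exact h1
  have hKm : Measurable K := meas_Kf hW0.measf hW0.measx h.meas h.measp
  have hKint : Integrable K ρ := Integrable.of_bound (C := Mf) hKm.aestronglyMeasurable
    (Eventually.of_forall fun w => by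
      rw [Real.norm_eq_abs, abs_of_nonneg (hK0 w)]
      exact hKM w)
  have hr : ∀ w w', K w' ≤ Real.exp (3 * β * |w' - w|) * K w := by
    intro w w'
    show (∫ y, p 0 (Fin.cons w' y) * chi B' (fx V w' y) * fP l B (fx V w' y) ∂PN ρ N) ≤
      Real.exp (3 * β * |w' - w|) *
        ∫ y, p 0 (Fin.cons w y) * chi B' (fx V w y) * fP l B (fx V w y) ∂PN ρ N
    rw [← integral_const_mul]
    refine integral_mono (hKi w') ((hKi w).const_mul _) fun y => ?_
    have h1 := S86.rat86 h w w' y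
    have h3 := S86.lip86 hβ h w w' y
    have h4 : Real.exp |fx V w' y - fx V w y| ≤ Real.exp (β * |w' - w|) := Real.exp_le_exp.2 h3
    have h5 : chi B' (fx V w' y) ≤ Real.exp (β * |w' - w|) * chi B' (fx V w y) :=
      (chi_rat86 B' _ _).trans (mul_le_mul_of_nonneg_right h4 (hW0.x0 _))
    have h6 : fP l B (fx V w' y) ≤ Real.exp (β * |w' - w|) * fP l B (fx V w y) :=
      (hWt.ratf _ _).trans (mul_le_mul_of_nonneg_right h4 (hW0.pos _).le)
    have e : Real.exp (3 * β * |w' - w|) = Real.exp (β * |w' - w|) * Real.exp (β * |w' - w|) *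
        Real.exp (β * |w' - w|) := by
      rw [← Real.exp_add, ← Real.exp_add]
      congr 1
      ring
    show p 0 (Fin.cons w' y) * chi B' (fx V w' y) * fP l B (fx V w' y) ≤
      Real.exp (3 * β * |w' - w|) * (p 0 (Fin.cons w y) * chi B' (fx V w y) * fP l B (fx V w y))
    calc p 0 (Fin.cons w' y) * chi B' (fx V w' y) * fP l B (fx V w' y) ≤
        (Real.exp (β * |w' - w|) * p 0 (Fin.cons w y)) *
          (Real.exp (β * |w' - w|) * chi B' (fx V w y)) *
          (Real.exp (β * |w' - w|) * fP l B (fx V w y)) :=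
          mul_le_mul (mul_le_mul h1 h5 (hW0.x0 _)
            (mul_nonneg (Real.exp_pos _).le (h.p0 _ _))) h6 (hW0.pos _).le
            (mul_nonneg (mul_nonneg (Real.exp_pos _).le (h.p0 _ _))
              (mul_nonneg (Real.exp_pos _).le (hW0.x0 _)))
      _ = _ := by
        rw [e]
        ring
  have sK := fun w => S86.slow86 hρ (show (0 : ℝ) ≤ 3 * β by positivity) hKint hK0 hr w
  obtain ⟨Bg, hBg⟩ := hS.bddG
  have hGi : Integrable G ρ := Integrable.of_bound (C := Bg) hS.measG.aestronglyMeasurable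
    (Eventually.of_forall fun w => by
      rw [Real.norm_eq_abs, abs_of_pos (hS.G0 w)]
      exact hBg w)
  have sG := fun w => S86.slow86 hρ hβ.le hGi (fun w => (hS.G0 w).le) hS.rG w
  have hgp : gf ρ (fP l B) V = ∫ w, G w ∂ρ := gf_peel hWt h
  have hg0 : 0 < gf ρ (fP l B) V := gf_pos hWt h
  have hpi : pif ρ (fP l B) (chi B') V p = (∫ w, K w ∂ρ) / gf ρ (fP l B) V := by
    rw [T0.pif_peel hW0 h, hgp]
  have hk0 : 0 ≤ ∫ w, K w ∂ρ := integral_nonneg hK0
  rw [hpi]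
  refine ⟨fun w => ?_, fun w hw => ?_⟩
  · have h1 := (sK w).2
    have h2 := (sG w).1
    have hGw : 0 < G w := hS.G0 w
    show K w / G w ≤ _
    rw [div_le_iff₀ hGw]
    rw [← hgp] at h2
    have h3 : K w ≤ Real.exp (3 * β * |w|) * (∫ z, K z ∂ρ) / m3 := by
      rw [le_div_iff₀ hm30]
      exact h1
    refine h3.trans ?_
    have h4 : Real.exp (3 * β * |w|) * Real.exp (β * |w|) ≤ Real.exp (C * |w|) := by
      rw [← Real.exp_add]
      refine Real.exp_le_exp.2 ?_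
      nlinarith [abs_nonneg w]
    have h5 : M1 / m3 * (Real.exp (3 * β * |w|) * Real.exp (β * |w|)) ≤
        C * Real.exp (C * |w|) := mul_le_mul hC3 h4 (by positivity) (by linarith)
    calc Real.exp (3 * β * |w|) * (∫ z, K z ∂ρ) / m3 =
        Real.exp (3 * β * |w|) * (∫ z, K z ∂ρ) / m3 / gf ρ (fP l B) V * gf ρ (fP l B) V := by
          field_simp
      _ ≤ Real.exp (3 * β * |w|) * (∫ z, K z ∂ρ) / m3 / gf ρ (fP l B) V *
          (M1 * Real.exp (β * |w|) * G w) :=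
          mul_le_mul_of_nonneg_left h2 (by positivity)
      _ = M1 / m3 * (Real.exp (3 * β * |w|) * Real.exp (β * |w|)) *
          ((∫ z, K z ∂ρ) / gf ρ (fP l B) V) * G w := by
        field_simp
      _ ≤ C * Real.exp (C * |w|) * ((∫ z, K z ∂ρ) / gf ρ (fP l B) V) * G w :=
        mul_le_mul_of_nonneg_right (mul_le_mul_of_nonneg_right h5 (by positivity)) hGw.le
  · show _ ≤ K w / gf ρ (fP l B) V
    rw [← mul_div_assoc]
    refine div_le_div_of_nonneg_right ?_ hg0.le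
    have h1 := (sK w).1
    have h2 : Real.exp (3 * β * |w|) ≤ Real.exp (3 * β * R) :=
      Real.exp_le_exp.2 (mul_le_mul_of_nonneg_left (hL.bL w hw) (by positivity))
    have h3 : (∫ z, K z ∂ρ) ≤ M3 * Real.exp (3 * β * R) * K w :=
      h1.trans (mul_le_mul_of_nonneg_right (mul_le_mul_of_nonneg_left h2 hM30.le) (hK0 w))
    have h5 : Real.exp (-(3 * β * R)) * Real.exp (3 * β * R) = 1 := by
      rw [← Real.exp_add, neg_add_cancel, Real.exp_zero]
    calc c * (∫ z, K z ∂ρ) ≤ Real.exp (-(3 * β * R)) / M3 * (∫ z, K z ∂ρ) :=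
          mul_le_mul_of_nonneg_right hc2 hk0
      _ ≤ Real.exp (-(3 * β * R)) / M3 * (M3 * Real.exp (3 * β * R) * K w) :=
          mul_le_mul_of_nonneg_left h3 (by positivity)
      _ = (Real.exp (-(3 * β * R)) * Real.exp (3 * β * R)) * K w := by
        field_simp
      _ = K w := by rw [h5, one_mul]

end K86

/-- **Leaf T2.** -/
theorem kmP86 {ρ : Measure ℝ} [IsProbabilityMeasure ρ] {β : ℝ} (hρ : EM ρ)
    (hnc : ∀ c : ℝ, ρ {c} ≠ 1) (hβ : 0 < β) (hW : WtP) : KmP ρ β := by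
  obtain ⟨c₀, R, _, L, H, hL, _, _⟩ := conP86 hρ hnc hβ
  obtain ⟨c, C, h1, h2, h3⟩ := K86.kmG86 hρ hβ hW hL
  exact ⟨c, R, C, L, H, h1, h2, h3⟩

end Pool.Agent.W_7d29a1_AM
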