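import Pool.Agent.W_7d29a1_AM.Base73
import Pool.Agent.W_7d29a1_AM.Wt64

/-!
Amplification for every law, leaf A5: the upgrade, second text (helper96).
-/

set_option autoImplicit false

namespace Pool.Agent.W_7d29a1_AM

open MeasureTheory ProbabilityTheory Filter Topology Pool.Agent.W_MP_7d29a1_pr
  Pool.Agent.W_7d29a1_h46 Pool.Agent.W_7d29a1_h46u

namespace G96

variable {ρ : Measure ℝ} {β : ℝ} {N : ℕ}

/-- `x^(4/3) ≤ 1 + x²` for `x ≥ 0`. -/
lemma rpow43 {x : ℝ} (hx : 0 ≤ x) : x ^ (4 / 3 : ℝ) ≤ 1 + x ^ 2 := by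
  rcases le_total x 1 with h | h
  · have : x ^ (4 / 3 : ℝ) ≤ 1 := Real.rpow_le_one hx h (by norm_num)
    nlinarith [sq_nonneg x]
  · have h1 : x ^ (4 / 3 : ℝ) ≤ x ^ (2 : ℝ) := Real.rpow_le_rpow_of_exponent_le h (by norm_num)
    rw [Real.rpow_two] at h1
    linarith

lemma sq_int (hρ : EM ρ) [IsProbabilityMeasure ρ] : Integrable (fun w : ℝ => w ^ 2) ρ := by
  refine ((hρ 1).add (hρ (-1))).const_mul 2 |>.mono' (by fun_prop)
    (Eventually.of_forall fun w => ?_)
  rw [Real.norm_of_nonneg (sq_nonneg w)]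
  simp only [Pi.add_apply]
  have h1 : ∀ t : ℝ, 0 ≤ t → t ^ 2 ≤ 2 * Real.exp t := by
    intro t ht
    have := Real.quadratic_le_exp_of_nonneg ht
    nlinarith
  rcases le_total 0 w with h | h
  · have e1 := h1 w h
    have e2 := Real.exp_pos (-1 * w)
    rw [one_mul]
    nlinarith
  · have e1 := h1 (-w) (by linarith)
    have e2 := Real.exp_pos (1 * w)
    have e3 : -1 * w = -w := by ring
    rw [e3]
    nlinarith

lemma coord_int (hρ : EM ρ) [IsProbabilityMeasure ρ] (i : Fin N) :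
    Integrable (fun y : Fin N → ℝ => (y i) ^ 2) (PN ρ N) := by
  have h1 : MeasurePreserving (Function.eval i) (PN ρ N) ρ := by
    unfold PN
    exact measurePreserving_eval _ i
  exact h1.integrable_comp_of_integrable (sq_int hρ)

lemma sq_aux {a b n : ℝ} (hn : 0 ≤ n) (hb : 0 ≤ b) (h : a ^ 2 ≤ n * b) :
    (1 + a) ^ 2 ≤ (n + 1) * (1 + b) := by
  have e4 : 2 * a ≤ n + b := by
    by_contra hc
    push Not at hc
    have e5 : (n + b) ^ 2 < (2 * a) ^ 2 := pow_lt_pow_left₀ hc (by positivity) (by norm_num)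
    nlinarith [sq_nonneg (n - b)]
  nlinarith

/-- A function with linear growth has a moment. -/
lemma grow_int (hρ : EM ρ) [IsProbabilityMeasure ρ] {Y : (Fin N → ℝ) → ℝ} (hY : Measurable Y)
    (h0 : ∀ y, 0 ≤ Y y) {M : ℝ} (hM : ∀ y, Y y ≤ M * (1 + ∑ i, |y i|)) {x₀ : ℝ} (hx : 0 ≤ x₀) :
    Integrable (fun y => (max (Y y - x₀) 0) ^ (4 / 3 : ℝ)) (PN ρ N) := by
  have hi : Integrable (fun y : Fin N → ℝ => 1 + M ^ 2 * ((N + 1) * (1 + ∑ i, (y i) ^ 2)))
      (PN ρ N) :=
    (integrable_const _).add ((((integrable_const _).add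
      (integrable_finsetSum _ fun i _ => coord_int hρ i)).const_mul _).const_mul _)
  refine hi.mono' ((hY.sub_const _).max measurable_const |>.pow_const _).aestronglyMeasurable
    (Eventually.of_forall fun y => ?_)
  have h1 : 0 ≤ max (Y y - x₀) 0 := le_max_right _ _
  rw [Real.norm_of_nonneg (Real.rpow_nonneg h1 _)]
  have h2 : max (Y y - x₀) 0 ≤ Y y := max_le (by linarith) (h0 y)
  refine (rpow43 h1).trans ?_
  have h3 : (max (Y y - x₀) 0) ^ 2 ≤ (M * (1 + ∑ i, |y i|)) ^ 2 :=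
    pow_le_pow_left₀ h1 (h2.trans (hM y)) 2
  have h4 : (1 + ∑ i, |y i|) ^ 2 ≤ (N + 1) * (1 + ∑ i, (y i) ^ 2) := by
    have e2 : (∑ i, |y i|) ^ 2 ≤ N * ∑ i, (y i) ^ 2 := by
      have := sq_sum_le_card_mul_sum_sq (s := (Finset.univ : Finset (Fin N))) (f := fun i => |y i|)
      simpa [sq_abs] using this
    have e3 : 0 ≤ ∑ i, (y i) ^ 2 := Finset.sum_nonneg fun i _ => sq_nonneg _
    exact sq_aux (Nat.cast_nonneg N) e3 e2
  rw [mul_pow] at h3
  have h5 := mul_le_mul_of_nonneg_left h4 (sq_nonneg M)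
  linarith

/-- Hölder against a constant: the first moment is below the moment of order `4/3`. -/
lemma first_le [IsProbabilityMeasure ρ] {g : (Fin N → ℝ) → ℝ} (hg : Measurable g)
    (h0 : ∀ y, 0 ≤ g y) (hi : Integrable (fun y => g y ^ (4 / 3 : ℝ)) (PN ρ N)) :
    Integrable g (PN ρ N) ∧ ∫ y, g y ∂PN ρ N ≤ (∫ y, g y ^ (4 / 3 : ℝ) ∂PN ρ N) ^ (3 / 4 : ℝ) := by
  have hp : Real.HolderConjugate 4 (4 / 3) := by
    rw [Real.holderConjugate_iff]
    norm_num
  have hm : MemLp g (ENNReal.ofReal (4 / 3)) (PN ρ N) := by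
    rw [← integrable_norm_rpow_iff hg.aestronglyMeasurable (by simp) (by simp)]
    refine hi.congr (Eventually.of_forall fun y => ?_)
    simp only
    rw [Real.norm_of_nonneg (h0 y), ENNReal.toReal_ofReal (by norm_num)]
  have hm1 : MemLp (fun _ : Fin N → ℝ => (1 : ℝ)) (ENNReal.ofReal 4) (PN ρ N) := memLp_const 1
  constructor
  · exact hm.integrable (by rw [← ENNReal.ofReal_one]; exact ENNReal.ofReal_le_ofReal (by norm_num))
  · have := integral_mul_le_Lp_mul_Lq_of_nonneg hp (Eventually.of_forall fun _ => zero_le_one)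
      (Eventually.of_forall h0) hm1 hm
    simp only [one_mul, Real.one_rpow, integral_const, probReal_univ, smul_eq_mul, mul_one] at this
    refine this.trans (le_of_eq ?_)
    congr 1
    norm_num

/-- Hölder for the mixed mean. -/
lemma holder [IsProbabilityMeasure ρ] {m S : ℝ → ℝ} (hm : Measurable m) (hm0 : ∀ w, 0 ≤ m w)
    {M : ℝ} (hM : ∀ w, m w ≤ M) (hS : Measurable S) (hS0 : ∀ w, 0 ≤ S w)
    (hi : Integrable (fun w => S w ^ (4 / 3 : ℝ)) ρ) :
    Integrable S ρ ∧ ∫ w, m w * S w ∂ρ ≤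
      (∫ w, m w ^ 4 ∂ρ) ^ (1 / 4 : ℝ) * (∫ w, S w ^ (4 / 3 : ℝ) ∂ρ) ^ (3 / 4 : ℝ) := by
  have hp : Real.HolderConjugate 4 (4 / 3) := by
    rw [Real.holderConjugate_iff]
    norm_num
  have h1 : MemLp S (ENNReal.ofReal (4 / 3)) ρ := by
    rw [← integrable_norm_rpow_iff hS.aestronglyMeasurable (by simp) (by simp)]
    refine hi.congr (Eventually.of_forall fun y => ?_)
    simp only
    rw [Real.norm_of_nonneg (hS0 y), ENNReal.toReal_ofReal (by norm_num)]
  have h2 : MemLp m (ENNReal.ofReal 4) ρ :=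
    MemLp.of_bound hm.aestronglyMeasurable M (Eventually.of_forall fun w => by
      rw [Real.norm_of_nonneg (hm0 w)]; exact hM w)
  constructor
  · exact h1.integrable (by rw [← ENNReal.ofReal_one]; exact ENNReal.ofReal_le_ofReal (by norm_num))
  · have := integral_mul_le_Lp_mul_Lq_of_nonneg hp (Eventually.of_forall hm0)
      (Eventually.of_forall hS0) h2 h1
    refine this.trans (le_of_eq ?_)
    congr 2
    · refine integral_congr_ae (Eventually.of_forall fun w => ?_)
      simp only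
      rw [← Real.rpow_natCast (m w) 4]
      norm_num
    · norm_num

/-- The pairing. -/
lemma pairing [IsProbabilityMeasure ρ] {c R : ℝ} {L H : Set ℝ} (hLH : LHs ρ c R L H)
    (hβ : 0 ≤ β) {h k S : ℝ → ℝ} (hh : Integrable h ρ) (hS : Integrable S ρ)
    (_ : ∀ w, 0 ≤ k w) {κ : ℝ} (hκ : 0 ≤ κ) (hκL : ∀ w ∈ L, κ ≤ k w) {a : ℝ} (ha0 : 0 ≤ a)
    (ha1 : a ≤ 1) (hpair : ∀ w₁ w₂, w₁ ≤ w₂ → h w₁ + β * (w₂ - w₁) * k w₁ ≤ S w₂) :
    ∫ w, h w ∂ρ + a * (β * c * κ * ρ.real L) ≤
      ∫ w, (1 + a * (H.indicator (fun _ => ρ.real L / ρ.real H) w -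
        L.indicator (fun _ => 1) w)) * S w ∂ρ := by
  have hc := hLH.c0
  have hL0 : 0 < ρ.real L := lt_of_lt_of_le hc hLH.L0
  have hH0 : 0 < ρ.real H := lt_of_lt_of_le hc hLH.H0
  have hdiag : ∀ w, h w ≤ S w := fun w => by
    have := hpair w w le_rfl
    simpa using this
  -- the integral of the right side
  have e1 : ∫ w, (1 + a * (H.indicator (fun _ => ρ.real L / ρ.real H) w -
        L.indicator (fun _ => 1) w)) * S w ∂ρ =
      ∫ w, S w ∂ρ + a * ((ρ.real L / ρ.real H) * ∫ w in H, S w ∂ρ - ∫ w in L, S w ∂ρ) := by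
    have e2 : (fun w => (1 + a * (H.indicator (fun _ => ρ.real L / ρ.real H) w -
        L.indicator (fun _ => 1) w)) * S w) = fun w => S w + a * ((ρ.real L / ρ.real H) *
          H.indicator S w - L.indicator S w) := by
      funext w
      by_cases hw : w ∈ H <;> by_cases hw' : w ∈ L <;> simp [hw, hw'] <;> ring
    rw [e2]
    have i1 : Integrable (H.indicator S) ρ := hS.indicator hLH.mH
    have i2 : Integrable (L.indicator S) ρ := hS.indicator hLH.mL
    have i3 : Integrable (fun w => (ρ.real L / ρ.real H) * H.indicator S w) ρ := i1.const_mul _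
    have i4 : Integrable (fun w => (ρ.real L / ρ.real H) * H.indicator S w -
        L.indicator S w) ρ := i3.sub i2
    have i5 : Integrable (fun w => a * ((ρ.real L / ρ.real H) * H.indicator S w -
        L.indicator S w)) ρ := i4.const_mul a
    rw [integral_add hS i5, integral_const_mul, integral_sub i3 i2, integral_const_mul,
      integral_indicator hLH.mH, integral_indicator hLH.mL]
  rw [e1]
  -- on L
  have hLpt : ∀ w ∈ L, ρ.real H * (h w + β * c * κ) ≤ ∫ z in H, S z ∂ρ := by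
    intro w hw
    have i3 : ∫ z in H, (h w + β * c * κ) ∂ρ = ρ.real H * (h w + β * c * κ) := by
      rw [setIntegral_const, smul_eq_mul]
    rw [← i3]
    refine setIntegral_mono_on (integrable_const _).integrableOn hS.integrableOn hLH.mH ?_
    intro z hz
    have s1 := hLH.sep w hw z hz
    have s2 := hpair w z (by linarith)
    have s3 := hκL w hw
    have s4 : c * κ ≤ (z - w) * k w := mul_le_mul s1 s3 hκ (by linarith)
    have s5 := mul_le_mul_of_nonneg_left s4 hβ
    nlinarith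
  have hLint : ρ.real H * (∫ w in L, h w ∂ρ + β * c * κ * ρ.real L) ≤
      ρ.real L * ∫ z in H, S z ∂ρ := by
    have i4 : ∫ w in L, ρ.real H * (h w + β * c * κ) ∂ρ ≤ ∫ w in L, (∫ z in H, S z ∂ρ) ∂ρ := by
      refine setIntegral_mono_on ?_ (integrable_const _).integrableOn hLH.mL hLpt
      exact ((hh.add (integrable_const _)).const_mul _).integrableOn
    rw [setIntegral_const, smul_eq_mul, integral_const_mul,
      integral_add hh.integrableOn (integrable_const _).integrableOn, setIntegral_const,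
      smul_eq_mul] at i4
    nlinarith
  have hLdiv : ∫ w in L, h w ∂ρ + β * c * κ * ρ.real L ≤
      (ρ.real L / ρ.real H) * ∫ z in H, S z ∂ρ := by
    rw [div_mul_eq_mul_div, le_div_iff₀ hH0]
    linarith
  have hsplit : ∀ {g : ℝ → ℝ}, Integrable g ρ → ∫ w, g w ∂ρ =
      ∫ w in L, g w ∂ρ + ∫ w in Lᶜ, g w ∂ρ := fun {g} hg => (integral_add_compl hLH.mL hg).symm
  have j1 : ∫ w in Lᶜ, h w ∂ρ ≤ ∫ w in Lᶜ, S w ∂ρ :=
    setIntegral_mono_on hh.integrableOn hS.integrableOn hLH.mL.compl fun w _ => hdiag w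
  have j2 : ∫ w in L, h w ∂ρ ≤ ∫ w in L, S w ∂ρ :=
    setIntegral_mono_on hh.integrableOn hS.integrableOn hLH.mL fun w _ => hdiag w
  rw [hsplit hh, hsplit hS]
  have j3 := mul_le_mul_of_nonneg_left hLdiv ha0
  have j4 := mul_le_mul_of_nonneg_left j2 (by linarith : 0 ≤ 1 - a)
  nlinarith

/-- The fourth moment of the mixture. -/
lemma fourth [IsProbabilityMeasure ρ] {c R : ℝ} {L H : Set ℝ} (hLH : LHs ρ c R L H) {a : ℝ}
    (ha0 : 0 ≤ a) (ha1 : a ≤ 1) :
    (∀ w, 0 ≤ 1 + a * (H.indicator (fun _ => ρ.real L / ρ.real H) w -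
        L.indicator (fun _ => 1) w)) ∧
    (∀ w, 1 + a * (H.indicator (fun _ => ρ.real L / ρ.real H) w -
        L.indicator (fun _ => (1 : ℝ)) w) ≤ 1 + 1 / c) ∧
    (∫ w, (1 + a * (H.indicator (fun _ => ρ.real L / ρ.real H) w -
        L.indicator (fun _ => 1) w)) ^ 4 ∂ρ) ^ (1 / 4 : ℝ) ≤ Real.exp (11 / c ^ 4 * a ^ 2) := by
  have hc := hLH.c0
  have hL0 : 0 < ρ.real L := lt_of_lt_of_le hc hLH.L0
  have hH0 : 0 < ρ.real H := lt_of_lt_of_le hc hLH.H0
  have hL1 : ρ.real L ≤ 1 := measureReal_le_one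
  have hc1 : c ≤ 1 := hLH.L0.trans hL1
  have hq1 : 1 ≤ 1 / c := by rw [le_div_iff₀ hc]; linarith
  obtain ⟨q, hq⟩ : ∃ q, q = 1 / c := ⟨_, rfl⟩
  rw [← hq] at hq1
  have hdis : ∀ w, w ∈ L → w ∉ H := fun w h1 h2 => by
    have := hLH.sep w h1 w h2
    linarith
  have hr0 : 0 ≤ ρ.real L / ρ.real H := by positivity
  have hr1 : ρ.real L / ρ.real H ≤ q := by
    rw [hq]
    exact div_le_div₀ zero_le_one hL1 hc hLH.H0
  obtain ⟨k, hk⟩ : ∃ k : ℝ → ℝ, k = fun w => H.indicator (fun _ => ρ.real L / ρ.real H) w -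
        L.indicator (fun _ => (1 : ℝ)) w := ⟨_, rfl⟩
  have hkw : ∀ w, H.indicator (fun _ => ρ.real L / ρ.real H) w -
        L.indicator (fun _ => (1 : ℝ)) w = k w := fun w => by rw [hk]
  have hkm : Measurable k := by
    rw [hk]
    exact (measurable_const.indicator hLH.mH).sub (measurable_const.indicator hLH.mL)
  have hk1 : ∀ w, -1 ≤ k w := by
    intro w
    rw [hk]
    by_cases hw : w ∈ H <;> by_cases hw' : w ∈ L <;> simp [hw, hw'] <;> linarith
  have hk2 : ∀ w, k w ≤ q := by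
    intro w
    rw [hk]
    by_cases hw : w ∈ H <;> by_cases hw' : w ∈ L <;> simp [hw, hw'] <;> linarith
  have hkabs : ∀ w, |k w| ≤ q := fun w => abs_le.mpr ⟨by linarith [hk1 w], hk2 w⟩
  have hkint : ∫ w, k w ∂ρ = 0 := by
    rw [hk, integral_sub ((integrable_const _).indicator hLH.mH)
      ((integrable_const _).indicator hLH.mL), integral_indicator hLH.mH,
      integral_indicator hLH.mL, setIntegral_const, setIntegral_const, smul_eq_mul, smul_eq_mul]
    field_simp
    ring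
  simp only [hkw]
  rw [← hq]
  have hkI : Integrable k ρ := Integrable.of_bound hkm.aestronglyMeasurable q
    (Eventually.of_forall fun w => by rw [Real.norm_eq_abs]; exact hkabs w)
  refine ⟨fun w => ?_, fun w => ?_, ?_⟩
  · have := mul_le_mul_of_nonneg_left (hk1 w) ha0
    linarith
  · have := mul_le_mul_of_nonneg_left (hk2 w) ha0
    nlinarith
  · have hpt : ∀ w, (1 + a * k w) ^ 4 ≤ 1 + 4 * a * k w + 11 * q ^ 4 * a ^ 2 := by
      intro w
      have b0 := hkabs w
      have b1 : (k w) ^ 2 ≤ q ^ 2 := sq_le_sq' (by linarith [(abs_le.mp b0).1]) (abs_le.mp b0).2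
      have b2 : (k w) ^ 3 ≤ q ^ 3 := by
        have : |k w| ^ 3 ≤ q ^ 3 := pow_le_pow_left₀ (abs_nonneg _) b0 3
        rw [← abs_pow] at this
        exact (le_abs_self _).trans this
      have b3 : (k w) ^ 4 ≤ q ^ 4 := by
        have : |k w| ^ 4 ≤ q ^ 4 := pow_le_pow_left₀ (abs_nonneg _) b0 4
        rw [← abs_pow] at this
        exact (le_abs_self _).trans this
      have c1 : q ^ 2 ≤ q ^ 4 := pow_le_pow_right₀ hq1 (by norm_num)
      have c2 : q ^ 3 ≤ q ^ 4 := pow_le_pow_right₀ hq1 (by norm_num)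
      have c3 : a ^ 3 ≤ a ^ 2 := pow_le_pow_of_le_one ha0 ha1 (by norm_num)
      have c4 : a ^ 4 ≤ a ^ 2 := pow_le_pow_of_le_one ha0 ha1 (by norm_num)
      have d1 : a ^ 2 * (k w) ^ 2 ≤ a ^ 2 * q ^ 4 :=
        mul_le_mul_of_nonneg_left (b1.trans c1) (sq_nonneg a)
      have d2 : a ^ 3 * (k w) ^ 3 ≤ a ^ 2 * q ^ 4 := by
        have e1 : a ^ 3 * (k w) ^ 3 ≤ a ^ 3 * q ^ 4 :=
          mul_le_mul_of_nonneg_left (b2.trans c2) (by positivity)
        exact e1.trans (mul_le_mul_of_nonneg_right c3 (by positivity))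
      have d3 : a ^ 4 * (k w) ^ 4 ≤ a ^ 2 * q ^ 4 := by
        have e1 : a ^ 4 * (k w) ^ 4 ≤ a ^ 4 * q ^ 4 :=
          mul_le_mul_of_nonneg_left b3 (by positivity)
        exact e1.trans (mul_le_mul_of_nonneg_right c4 (by positivity))
      have d4 : (1 + a * k w) ^ 4 = 1 + 4 * a * k w + 6 * (a ^ 2 * (k w) ^ 2) +
          4 * (a ^ 3 * (k w) ^ 3) + a ^ 4 * (k w) ^ 4 := by ring
      rw [d4]
      linarith
    have h4 : ∫ w, (1 + a * k w) ^ 4 ∂ρ ≤ 1 + 11 * q ^ 4 * a ^ 2 := by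
      have i1 : Integrable (fun w => 1 + 4 * a * k w + 11 * q ^ 4 * a ^ 2) ρ :=
        ((integrable_const _).add (hkI.const_mul _)).add (integrable_const _)
      have i2 : Integrable (fun w => (1 + a * k w) ^ 4) ρ := by
        refine Integrable.of_bound (by fun_prop) ((1 + q) ^ 4) (Eventually.of_forall fun w => ?_)
        rw [norm_pow, Real.norm_eq_abs]
        refine pow_le_pow_left₀ (abs_nonneg _) ?_ 4
        refine (abs_add_le _ _).trans ?_
        rw [abs_one, abs_mul, abs_of_nonneg ha0]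
        have := mul_le_mul ha1 (hkabs w) (abs_nonneg _) zero_le_one
        linarith
      refine (integral_mono i2 i1 hpt).trans (le_of_eq ?_)
      have i3 : Integrable (fun w => 4 * a * k w) ρ := hkI.const_mul _
      have i4 : Integrable (fun w => 1 + 4 * a * k w) ρ := (integrable_const _).add i3
      rw [integral_add i4 (integrable_const _), integral_add (integrable_const _) i3,
        integral_const_mul, hkint]
      simp
    have h5 : 1 + 11 * q ^ 4 * a ^ 2 ≤ Real.exp (11 * q ^ 4 * a ^ 2) := by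
      have := Real.add_one_le_exp (11 * q ^ 4 * a ^ 2)
      linarith
    have h6 : (∫ w, (1 + a * k w) ^ 4 ∂ρ) ^ (1 / 4 : ℝ) ≤
        (Real.exp (11 * q ^ 4 * a ^ 2)) ^ (1 / 4 : ℝ) :=
      Real.rpow_le_rpow (integral_nonneg fun w => by positivity) (h4.trans h5) (by norm_num)
    refine h6.trans ?_
    rw [← Real.exp_mul, hq]
    apply Real.exp_le_exp.mpr
    have : 0 ≤ 11 * (1 / c) ^ 4 * a ^ 2 := by positivity
    have e9 : 11 / c ^ 4 * a ^ 2 = 11 * (1 / c) ^ 4 * a ^ 2 := by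
      rw [one_div, inv_pow]
      ring
    rw [e9]
    linarith

lemma chi0 (B v : ℝ) : 0 ≤ chi B v := (chi_pos B v).le

lemma fP_le {l B : ℝ} (hl : 0 ≤ l) (v : ℝ) : fP l B v ≤ Real.exp (l * B) := by
  unfold fP
  exact Real.exp_le_exp.mpr (mul_le_mul_of_nonneg_left (Uf_le B v) hl)

/-- Means are monotone. -/
lemma Ef_mono [IsProbabilityMeasure ρ] {l σ : ℝ} {f x : ℝ → ℝ} (hW : Wt l σ f x)
    {V F F' : (Fin N → ℝ) → ℝ} {p : Fin N → (Fin N → ℝ) → ℝ} (h : Cls β V p)
    (hF : Integrable (fun y => F y * f (V y)) (PN ρ N))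
    (hF' : Integrable (fun y => F' y * f (V y)) (PN ρ N)) (hle : ∀ y, F y ≤ F' y) :
    Ef ρ f V F ≤ Ef ρ f V F' := by
  unfold Ef
  refine div_le_div_of_nonneg_right (integral_mono hF hF' fun y => ?_) (gf_pos hW h).le
  exact mul_le_mul_of_nonneg_right (hle y) (hW.pos _).le

end G96

open G96 in
/-- A5: the upgrade. -/
theorem lemG96 {ρ : Measure ℝ} [IsProbabilityMeasure ρ] {β : ℝ} (hρ : EM ρ) (hβ : 0 < β)
    (h0 : WtP) (h1 : SiteP ρ β) (hCon : ConP ρ β) : LemG ρ β := by
  obtain ⟨c, R, C, L, H, hLH, hC1, hcon⟩ := hCon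
  have hc := hLH.c0
  have hL0 : 0 < ρ.real L := lt_of_lt_of_le hc hLH.L0
  refine ⟨β * c ^ 3, 11 / c ^ 4, by positivity, by positivity, ?_⟩
  intro l B hl hl1 hB N
  obtain ⟨hWP, _⟩ := h0 l B hl hl1 hB
  have hexpB : 1 ≤ Real.exp (l * B) := Real.one_le_exp (by positivity)
  induction N with
  | zero =>
    intro V p Y e θ x₀ v hV hYm hY0 _ hem he0 _ hYe hθ0 hθ1 hx0 hv0
    simp only [Ns, mul_zero, add_zero]
    obtain ⟨y0⟩ : Nonempty (Fin 0 → ℝ) := ⟨fun i => i.elim0⟩
    have hf := hWP.pos (V y0)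
    have e1 : Ef ρ (fP l B) V e = e y0 := by
      unfold Ef gf
      rw [int_zero (fun y => e y * fP l B (V y)) y0, int_zero (fun y => fP l B (V y)) y0]
      field_simp
    have e2 : gf ρ (fP l B) V = fP l B (V y0) := int_zero (fun y => fP l B (V y)) y0
    rw [e1, e2, int_zero (fun y => (max (Y y - x₀) 0) ^ (4 / 3 : ℝ)) y0]
    have hm0 : 0 ≤ max (Y y0 - x₀) 0 := le_max_right _ _
    rw [← Real.rpow_mul hm0]
    have e3 : (4 / 3 : ℝ) * (3 / 4) = 1 := by norm_num
    rw [e3, Real.rpow_one]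
    have e4 := hYe y0 y0 fun i => le_rfl
    have e5 : e y0 ≤ Y y0 := by simpa using e4
    have e6 : 1 ≤ Real.exp (l * B) / fP l B (V y0) := by
      rw [le_div_iff₀ hf, one_mul]
      exact fP_le hl.le _
    have e7 : 1 ≤ Real.exp (11 / c ^ 4 * θ ^ 2 * v) := Real.one_le_exp (by positivity)
    have e8 : 1 ≤ Real.exp (l * B) / fP l B (V y0) * Real.exp (11 / c ^ 4 * θ ^ 2 * v) :=
      one_le_mul_of_one_le_of_one_le e6 e7
    have e9 : Y y0 - x₀ ≤ max (Y y0 - x₀) 0 := le_max_left _ _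
    have e10 := mul_le_mul_of_nonneg_right e8 hm0
    linarith
  | succ N ih =>
    intro V p Y e θ x₀ v hV hYm hY0 hYb hem he0 heb hYe hθ0 hθ1 hx0 hv0
    obtain ⟨M, hM⟩ := hYb
    obtain ⟨Me, hMe⟩ := heb
    have hg := gf_pos (ρ := ρ) hWP hV
    have hYint := grow_int hρ hYm hY0 hM hx0
    have hSm : Measurable fun y => max (Y y - x₀) 0 := (hYm.sub_const _).max measurable_const
    obtain ⟨hY1, hY1'⟩ := first_le hSm (fun y => le_max_right _ _) hYint
    have heY : ∀ y, e y ≤ Y y := fun y => by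
      have := hYe y y fun i => le_rfl
      simpa using this
    have hMe0 : 0 ≤ Me := (he0 0).trans (hMe 0)
    have hfb : ∀ v, |fP l B v| ≤ Real.exp (l * B) := fun v => by
      rw [abs_of_pos (hWP.pos v)]
      exact fP_le hl.le v
    have hef : ∀ y, |e y * fP l B (V y)| ≤ Me * Real.exp (l * B) := fun y => by
      rw [abs_mul, abs_of_nonneg (he0 y)]
      exact mul_le_mul (hMe y) (hfb _) (abs_nonneg _) hMe0
    have heI := int_Ff (ρ := ρ) hWP hV hem hef
    obtain ⟨S, hS⟩ : ∃ S, S = (∫ y, (max (Y y - x₀) 0) ^ (4 / 3 : ℝ) ∂PN ρ (N + 1)) ^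
      (3 / 4 : ℝ) := ⟨_, rfl⟩
    have hS0 : 0 ≤ S := by
      rw [hS]
      exact Real.rpow_nonneg (integral_nonneg fun y => Real.rpow_nonneg (le_max_right _ _) _) _
    rw [← hS]
    simp only [Ns]
    split_ifs with hcase
    · -- the main case
      have hpi := pif_peel (ρ := ρ) hWP hV
      have hpi0 := pif0 (ρ := ρ) hWP hV
      have hpi1 := pif1 (ρ := ρ) hWP hV
      have hsite := h1 l 1 (fP l B) (chi B) hl hl1 hWP N V p hV
      obtain ⟨-, -, hcL, -, -⟩ := hcon l 1 _ _ hl hl1 (Or.inl rfl) hsite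
      rw [← hpi, ← gf_peel hWP hV] at hcL
      obtain ⟨π, hπ⟩ : ∃ π, π = pif ρ (fP l B) (chi B) V p := ⟨_, rfl⟩
      rw [← hπ] at hpi0 hpi1 hcL hcase ⊢
      obtain ⟨v', hv'⟩ : ∃ v', v' = v - π ^ 2 := ⟨_, rfl⟩
      rw [← hv']
      have hv'0 : 0 ≤ v' := by rw [hv']; linarith
      obtain ⟨g, hgd⟩ : ∃ g, g = gf ρ (fP l B) V := ⟨_, rfl⟩
      rw [← hgd] at hg ⊢
      obtain ⟨G, hG⟩ : ∃ G : ℝ → ℝ, G = fun w => gf ρ (fP l B) (fx V w) := ⟨_, rfl⟩
      have hGw : ∀ w, gf ρ (fP l B) (fx V w) = G w := fun w => by rw [hG]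
      have hGpos : ∀ w, 0 < G w := fun w => by rw [hG]; exact gf_fx_pos hWP hV w
      obtain ⟨K, hK⟩ : ∃ K : ℝ → ℝ, K = Kf ρ (fP l B) (chi B) V p := ⟨_, rfl⟩
      have hK0 : ∀ w, 0 ≤ K w := fun w => by
        rw [hK]
        exact hsite.K0 w
      have hrw : ∀ w, rf ρ (fP l B) V w = G w / g := fun w => by rw [hG, hgd]; rfl
      -- the fibre functions
      obtain ⟨S2, hS2⟩ : ∃ S2 : ℝ → ℝ, S2 = fun w => (∫ y, (max (fx Y w y - x₀) 0) ^
        (4 / 3 : ℝ) ∂PN ρ N) ^ (3 / 4 : ℝ) := ⟨_, rfl⟩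
      obtain ⟨E1, hE1⟩ : ∃ E1 : ℝ → ℝ, E1 = fun w => Ef ρ (fP l B) (fx V w) (fx e w) := ⟨_, rfl⟩
      obtain ⟨N1, hN1⟩ : ∃ N1 : ℝ → ℝ, N1 = fun w => Ns ρ (fP l B) (chi B) N (fx V w) (fq p w) v' :=
        ⟨_, rfl⟩
      have hE1m : Measurable E1 := by rw [hE1]; exact meas_Ef hWP.measf hV.meas hem
      have hN1m : Measurable N1 := by
        rw [hN1]; exact meas_Ns hWP.measf hWP.measx hV.meas hV.measp v'
      have hfib : ∀ w, (∀ y : Fin N → ℝ, fx Y w y ≤ (|M| * (1 + |w|)) * (1 + ∑ i, |y i|)) := by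
        intro w y
        have e1 := hM (Fin.cons w y)
        rw [Fin.sum_univ_succ] at e1
        simp only [Fin.cons_zero, Fin.cons_succ] at e1
        have e2 : 0 ≤ ∑ i, |y i| := Finset.sum_nonneg fun i _ => abs_nonneg _
        have e3 : M * (1 + (|w| + ∑ i, |y i|)) ≤ |M| * (1 + (|w| + ∑ i, |y i|)) :=
          mul_le_mul_of_nonneg_right (le_abs_self M) (by positivity)
        have e4 : |M| * (1 + (|w| + ∑ i, |y i|)) ≤ |M| * ((1 + |w|) * (1 + ∑ i, |y i|)) := by
          refine mul_le_mul_of_nonneg_left ?_ (abs_nonneg _)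
          have := mul_nonneg (abs_nonneg w) e2
          linarith
        unfold fx
        linarith
      have hfY0 : ∀ w y, 0 ≤ fx Y w y := fun w y => hY0 _
      have hfYI : ∀ w, Integrable (fun y => (max (fx Y w y - x₀) 0) ^ (4 / 3 : ℝ)) (PN ρ N) :=
        fun w => grow_int hρ (meas_fx hYm w) (hfY0 w) (hfib w) hx0
      have hfS0 : ∀ w, 0 ≤ ∫ y, (max (fx Y w y - x₀) 0) ^ (4 / 3 : ℝ) ∂PN ρ N := fun w =>
        integral_nonneg fun y => Real.rpow_nonneg (le_max_right _ _) _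
      have hS2m : Measurable S2 := by
        rw [hS2]
        refine Measurable.pow_const ?_ _
        exact meas_int (G := fun w y => (max (fx Y w y - x₀) 0) ^ (4 / 3 : ℝ))
          ((((meas_cons2 hYm).sub_const _).max measurable_const).pow_const _)
      have hS20 : ∀ w, 0 ≤ S2 w := fun w => by
        rw [hS2]
        exact Real.rpow_nonneg (hfS0 w) _
      have hS2p : ∀ w, S2 w ^ (4 / 3 : ℝ) = ∫ y, (max (fx Y w y - x₀) 0) ^ (4 / 3 : ℝ) ∂PN ρ N := by
        intro w
        rw [hS2]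
        simp only
        rw [← Real.rpow_mul (hfS0 w)]
        norm_num
      have hS2I : Integrable (fun w => S2 w ^ (4 / 3 : ℝ)) ρ := by
        simp only [hS2p]
        have e1 := (mp_cons (ρ := ρ) (N := N)).integrable_comp_of_integrable hYint
        exact e1.integral_prod_left
      have hS2S : (∫ w, S2 w ^ (4 / 3 : ℝ) ∂ρ) ^ (3 / 4 : ℝ) = S := by
        rw [hS, peel hYint]
        simp only [hS2p]
        rfl
      -- the induction for a pair
      have hpairIH : ∀ w₁ w₂, w₁ ≤ w₂ → E1 w₁ + β * (w₂ - w₁) * (K w₁ / G w₁) +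
          β * c ^ 3 * θ * N1 w₁ ≤ x₀ + Real.exp (l * B) / G w₁ *
            Real.exp (11 / c ^ 4 * θ ^ 2 * v') * S2 w₂ := by
        intro w₁ w₂ hw
        have hw' : 0 ≤ w₂ - w₁ := by linarith
        have hcl := cls_fx hV w₁
        have hpm : Measurable (fx (p 0) w₁) := meas_fx (hV.measp 0) w₁
        have key := ih (fx V w₁) (fq p w₁) (fx Y w₂)
          (fun y => fx e w₁ y + β * (w₂ - w₁) * fx (p 0) w₁ y) θ x₀ v' hcl
          (meas_fx hYm w₂) (hfY0 w₂) ⟨_, hfib w₂⟩
          ((meas_fx hem w₁).add (hpm.const_mul _))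
          (fun y => add_nonneg (he0 _) (mul_nonneg (mul_nonneg hβ.le hw') (hV.p0 _ _)))
          ⟨Me + β * (w₂ - w₁), fun y => add_le_add (hMe _)
            (mul_le_of_le_one_right (mul_nonneg hβ.le hw') (hV.p1 _ _))⟩ ?_ hθ0 hθ1 hx0 hv'0
        · have iA : Integrable (fun y => fx e w₁ y * fP l B (fx V w₁ y)) (PN ρ N) :=
            int_Ff hWP hcl (meas_fx hem w₁) (M := Me * Real.exp (l * B)) fun y => hef _
          have iB : Integrable (fun y => fx (p 0) w₁ y * fP l B (fx V w₁ y)) (PN ρ N) := by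
            refine int_Ff hWP hcl hpm (M := 1 * Real.exp (l * B)) fun y => ?_
            rw [abs_mul]
            refine mul_le_mul ?_ (hfb _) (abs_nonneg _) zero_le_one
            have hp0 : 0 ≤ fx (p 0) w₁ y := hV.p0 _ _
            rw [abs_of_nonneg hp0]
            exact hV.p1 _ _
          have iC : Integrable (fun y => fx (p 0) w₁ y * chi B (fx V w₁ y) *
              fP l B (fx V w₁ y)) (PN ρ N) := by
            refine int_Ff hWP hcl (F := fun y => fx (p 0) w₁ y * chi B (fx V w₁ y))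
              (hpm.mul (hWP.measx.comp hcl.meas)) (M := 1 * Real.exp (l * B)) fun y => ?_
            rw [abs_mul]
            refine mul_le_mul ?_ (hfb _) (abs_nonneg _) zero_le_one
            have hp0 : 0 ≤ fx (p 0) w₁ y := hV.p0 _ _
            have hp1 : fx (p 0) w₁ y ≤ 1 := hV.p1 _ _
            rw [abs_of_nonneg (mul_nonneg hp0 (chi0 _ _))]
            exact mul_le_one₀ hp1 (chi0 _ _) (chi_le_one _ _)
          have hKle : K w₁ ≤ ∫ y, fx (p 0) w₁ y * fP l B (fx V w₁ y) ∂PN ρ N := by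
            rw [hK]
            unfold Kf
            refine integral_mono iC iB fun y => ?_
            have e1 : fx (p 0) w₁ y * chi B (fx V w₁ y) ≤ fx (p 0) w₁ y * 1 :=
              mul_le_mul_of_nonneg_left (chi_le_one _ _) (hV.p0 _ _)
            rw [mul_one] at e1
            exact mul_le_mul_of_nonneg_right e1 (hWP.pos _).le
          have hsum : Ef ρ (fP l B) (fx V w₁) (fun y => fx e w₁ y +
              β * (w₂ - w₁) * fx (p 0) w₁ y) = E1 w₁ + β * (w₂ - w₁) *
                ((∫ y, fx (p 0) w₁ y * fP l B (fx V w₁ y) ∂PN ρ N) / G w₁) := by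
            rw [hE1]
            simp only
            unfold Ef
            rw [hGw]
            have e1 : (fun y => (fx e w₁ y + β * (w₂ - w₁) * fx (p 0) w₁ y) *
                fP l B (fx V w₁ y)) = fun y => fx e w₁ y * fP l B (fx V w₁ y) +
                  β * (w₂ - w₁) * (fx (p 0) w₁ y * fP l B (fx V w₁ y)) := by
              funext y; ring
            rw [e1, integral_add iA (iB.const_mul _), integral_const_mul, add_div, mul_div_assoc]
          rw [hsum, hGw] at key
          have e2 : β * (w₂ - w₁) * (K w₁ / G w₁) ≤ β * (w₂ - w₁) *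
              ((∫ y, fx (p 0) w₁ y * fP l B (fx V w₁ y) ∂PN ρ N) / G w₁) :=
            mul_le_mul_of_nonneg_left (div_le_div_of_nonneg_right hKle (hGpos w₁).le)
              (mul_nonneg hβ.le hw')
          have e3 : (∫ y, (max (fx Y w₂ y - x₀) 0) ^ (4 / 3 : ℝ) ∂PN ρ N) ^ (3 / 4 : ℝ) = S2 w₂ := by
            rw [hS2]
          rw [e3] at key
          have e4 : N1 w₁ = Ns ρ (fP l B) (chi B) N (fx V w₁) (fq p w₁) v' := by rw [hN1]
          rw [← e4] at key
          linarith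
        · intro y y₂ hy
          have e1 := hYe (Fin.cons w₁ y) (Fin.cons w₂ y₂) (by
            intro i
            refine Fin.cases ?_ (fun j => ?_) i
            · simpa using hw
            · simpa using hy j)
          rw [Fin.sum_univ_succ] at e1
          simp only [Fin.cons_zero, Fin.cons_succ] at e1
          simp only [fx, fq]
          linarith
      -- integrability
      have hE1b : ∀ w, |E1 w| ≤ Me := by
        intro w
        have e1 : Ef ρ (fP l B) (fx V w) (fx e w) ≤ Me := by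
          unfold Ef
          rw [div_le_iff₀ (gf_fx_pos hWP hV w)]
          unfold gf
          rw [← integral_const_mul]
          exact integral_mono (int_Ff hWP (cls_fx hV w) (meas_fx hem w) fun y => hef _)
            ((int_f hWP (cls_fx hV w)).const_mul _) fun y =>
              mul_le_mul_of_nonneg_right (hMe _) (hWP.pos _).le
        have e2 : 0 ≤ Ef ρ (fP l B) (fx V w) (fx e w) := by
          unfold Ef
          exact div_nonneg (integral_nonneg fun y => mul_nonneg (he0 _) (hWP.pos _).le)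
            (gf_fx_pos hWP hV w).le
        rw [hE1]
        simp only
        rw [abs_of_nonneg e2]
        exact e1
      have hN10 : ∀ w, 0 ≤ N1 w := fun w => by rw [hN1]; exact Ns0 hWP (cls_fx hV w) v'
      have hN1b : ∀ w, |N1 w| ≤ N := fun w => by
        rw [abs_of_nonneg (hN10 w), hN1]
        exact Ns1 hWP (cls_fx hV w) v'
      have iE := rf_mul_int (ρ := ρ) hWP hV hE1m hE1b
      have iN := rf_mul_int (ρ := ρ) hWP hV hN1m hN1b
      obtain ⟨ir, ir1⟩ := rf_int (ρ := ρ) hWP hV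
      obtain ⟨q, hq⟩ : ∃ q : ℝ, q = Real.exp (l * B) / g * Real.exp (11 / c ^ 4 * θ ^ 2 * v') :=
        ⟨_, rfl⟩
      have hq0 : 0 ≤ q := by rw [hq]; positivity
      obtain ⟨h, hh⟩ : ∃ h : ℝ → ℝ, h = fun w => rf ρ (fP l B) V w * E1 w +
        β * c ^ 3 * θ * (rf ρ (fP l B) V w * N1 w) - x₀ * rf ρ (fP l B) V w := ⟨_, rfl⟩
      have hhI : Integrable h ρ := by
        rw [hh]
        exact (iE.add (iN.const_mul _)).sub (ir.const_mul _)
      have hhint : ∫ w, h w ∂ρ = ∫ w, rf ρ (fP l B) V w * E1 w ∂ρ +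
          β * c ^ 3 * θ * ∫ w, rf ρ (fP l B) V w * N1 w ∂ρ - x₀ := by
        rw [hh]
        have iN' : Integrable (fun w => β * c ^ 3 * θ * (rf ρ (fP l B) V w * N1 w)) ρ :=
          iN.const_mul _
        have iEN : Integrable (fun w => rf ρ (fP l B) V w * E1 w +
          β * c ^ 3 * θ * (rf ρ (fP l B) V w * N1 w)) ρ := iE.add iN'
        have ir' : Integrable (fun w => x₀ * rf ρ (fP l B) V w) ρ := ir.const_mul _
        rw [integral_sub iEN ir', integral_add iE iN', integral_const_mul, integral_const_mul,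
          ir1, mul_one]
      have hpair : ∀ w₁ w₂, w₁ ≤ w₂ → h w₁ + β * (w₂ - w₁) * (K w₁ / g) ≤ q * S2 w₂ := by
        intro w₁ w₂ hw
        have e1 := hpairIH w₁ w₂ hw
        have e2 := mul_le_mul_of_nonneg_left e1 (div_nonneg (hGpos w₁).le hg.le)
        rw [hh]
        simp only
        rw [hrw]
        have hGne := (hGpos w₁).ne'
        have hgne := hg.ne'
        have e3 : G w₁ / g * (E1 w₁ + β * (w₂ - w₁) * (K w₁ / G w₁) +
            β * c ^ 3 * θ * N1 w₁) = G w₁ / g * E1 w₁ + β * c ^ 3 * θ * (G w₁ / g * N1 w₁) +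
              β * (w₂ - w₁) * (K w₁ / g) := by
          field_simp
          ring
        have e4 : G w₁ / g * (x₀ + Real.exp (l * B) / G w₁ *
            Real.exp (11 / c ^ 4 * θ ^ 2 * v') * S2 w₂) = x₀ * (G w₁ / g) + q * S2 w₂ := by
          rw [hq]
          field_simp
        rw [e3, e4] at e2
        linarith
      obtain ⟨m, hm⟩ : ∃ m : ℝ → ℝ, m = fun w => (1 + θ * π * (H.indicator
        (fun _ => ρ.real L / ρ.real H) w - L.indicator (fun _ => (1 : ℝ)) w)) := ⟨_, rfl⟩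
      have ha0 : 0 ≤ θ * π := mul_nonneg hθ0 hpi0
      have ha1 : θ * π ≤ 1 := mul_le_one₀ hθ1 hpi0 hpi1
      obtain ⟨f1, f2, f3⟩ := fourth hLH ha0 ha1
      have hmm : Measurable m := by
        rw [hm]
        exact measurable_const.add (((measurable_const.indicator hLH.mH).sub
          (measurable_const.indicator hLH.mL)).const_mul _)
      have hm0 : ∀ w, 0 ≤ m w := fun w => by rw [hm]; exact f1 w
      have hmM : ∀ w, m w ≤ 1 + 1 / c := fun w => by rw [hm]; exact f2 w
      obtain ⟨hS2i, hhol⟩ := holder hmm hm0 hmM hS2m hS20 hS2I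
      have hkey := pairing (β := β) hLH hβ.le hhI (hS2i.const_mul q)
        (k := fun w => K w / g) (fun w => div_nonneg (hK0 w) hg.le) (κ := c * π)
        (by positivity) (fun w hw => by rw [hK, hgd]; exact hcL w hw) ha0 ha1 hpair
      have e5 : ∫ w, (1 + θ * π * (H.indicator (fun _ => ρ.real L / ρ.real H) w -
          L.indicator (fun _ => 1) w)) * (q * S2 w) ∂ρ = q * ∫ w, m w * S2 w ∂ρ := by
        rw [← integral_const_mul]
        refine integral_congr_ae (Eventually.of_forall fun w => ?_)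
        rw [hm]
        simp only
        ring
      rw [e5, hhint] at hkey
      rw [hS2S] at hhol
      have e6 : (∫ w, m w ^ 4 ∂ρ) ^ (1 / 4 : ℝ) ≤ Real.exp (11 / c ^ 4 * (θ * π) ^ 2) := by
        rw [hm]
        exact f3
      have e7 : ∫ w, m w * S2 w ∂ρ ≤ Real.exp (11 / c ^ 4 * (θ * π) ^ 2) * S :=
        hhol.trans (mul_le_mul_of_nonneg_right e6 hS0)
      have e8 := mul_le_mul_of_nonneg_left e7 hq0
      have e9 : q * (Real.exp (11 / c ^ 4 * (θ * π) ^ 2) * S) =
          Real.exp (l * B) / g * Real.exp (11 / c ^ 4 * θ ^ 2 * v) * S := by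
        rw [hq, hv']
        have : Real.exp (11 / c ^ 4 * θ ^ 2 * v) = Real.exp (11 / c ^ 4 * θ ^ 2 * (v - π ^ 2)) *
            Real.exp (11 / c ^ 4 * (θ * π) ^ 2) := by
          rw [← Real.exp_add]
          congr 1
          ring
        rw [this]
        ring
      rw [e9] at e8
      have hL1 : c ≤ ρ.real L := hLH.L0
      have e10 : β * c ^ 3 * θ * π ^ 2 ≤ θ * π * (β * c * (c * π) * ρ.real L) := by
        have : θ * π * (β * c * (c * π) * ρ.real L) = β * c ^ 2 * θ * π ^ 2 * ρ.real L := by ring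
        rw [this]
        have e11 : β * c ^ 3 * θ * π ^ 2 = β * c ^ 2 * θ * π ^ 2 * c := by ring
        rw [e11]
        exact mul_le_mul_of_nonneg_left hL1 (by positivity)
      have hEf : Ef ρ (fP l B) V e = ∫ w, rf ρ (fP l B) V w * E1 w ∂ρ := by
        rw [Ef_peel hWP hV hem hef, hE1]
      have hNs : ∫ w, rf ρ (fP l B) V w * Ns ρ (fP l B) (chi B) N (fx V w) (fq p w) v' ∂ρ =
          ∫ w, rf ρ (fP l B) V w * N1 w ∂ρ := by rw [hN1]
      rw [hEf, hNs]
      linarith
    · -- the stopped case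
      rw [mul_zero, add_zero]
      have e1 : Ef ρ (fP l B) V e ≤ x₀ + Real.exp (l * B) / gf ρ (fP l B) V *
          ∫ y, max (Y y - x₀) 0 ∂PN ρ (N + 1) := by
        unfold Ef
        rw [div_le_iff₀ hg]
        have e2 : (x₀ + Real.exp (l * B) / gf ρ (fP l B) V *
            ∫ y, max (Y y - x₀) 0 ∂PN ρ (N + 1)) * gf ρ (fP l B) V =
            x₀ * gf ρ (fP l B) V + Real.exp (l * B) * ∫ y, max (Y y - x₀) 0 ∂PN ρ (N + 1) := by
          field_simp
        rw [e2]
        have e3 : ∫ y, (x₀ * fP l B (V y) + Real.exp (l * B) * max (Y y - x₀) 0) ∂PN ρ (N + 1) =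
            x₀ * gf ρ (fP l B) V + Real.exp (l * B) * ∫ y, max (Y y - x₀) 0 ∂PN ρ (N + 1) := by
          rw [integral_add ((int_f hWP hV).const_mul _) (hY1.const_mul _), integral_const_mul,
            integral_const_mul]
          rfl
        rw [← e3]
        refine integral_mono heI (((int_f hWP hV).const_mul _).add (hY1.const_mul _)) fun y => ?_
        have e4 : e y ≤ x₀ + max (Y y - x₀) 0 := by
          have := le_max_left (Y y - x₀) 0
          linarith [heY y]
        have e5 := mul_le_mul_of_nonneg_right e4 (hWP.pos (V y)).le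
        have e6 : max (Y y - x₀) 0 * fP l B (V y) ≤ Real.exp (l * B) * max (Y y - x₀) 0 := by
          rw [mul_comm]
          exact mul_le_mul_of_nonneg_right (fP_le hl.le _) (le_max_right _ _)
        linarith
      have e7 : 1 ≤ Real.exp (11 / c ^ 4 * θ ^ 2 * v) := Real.one_le_exp (by positivity)
      rw [← hS] at hY1'
      have e8 : Real.exp (l * B) / gf ρ (fP l B) V * ∫ y, max (Y y - x₀) 0 ∂PN ρ (N + 1) ≤
          Real.exp (l * B) / gf ρ (fP l B) V * Real.exp (11 / c ^ 4 * θ ^ 2 * v) * S := by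
        have e9 : 0 ≤ Real.exp (l * B) / gf ρ (fP l B) V := by positivity
        rw [mul_assoc]
        refine mul_le_mul_of_nonneg_left (hY1'.trans ?_) e9
        exact le_mul_of_one_le_left hS0 e7
      linarith

end Pool.Agent.W_7d29a1_AM
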