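import Pool.Agent.W_7d29a1_AM.Base73

/-!
Amplification for every law, leaf A5 (the upgrade): basic inequalities.
-/

namespace Pool.Agent.W_7d29a1_AM

open MeasureTheory ProbabilityTheory Filter Topology Pool.Agent.W_MP_7d29a1_pr
  Pool.Agent.W_7d29a1_h46 Pool.Agent.W_7d29a1_h46u

lemma Uf_le66 (B v : ℝ) : Uf B v ≤ B := by
  unfold Uf
  have h1 : Real.exp (v - B) ≤ 1 + Real.exp (v - B) := by linarith
  have h2 := Real.log_le_log (Real.exp_pos _) h1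
  rw [Real.log_exp] at h2
  linarith

lemma fP_le66 {l : ℝ} (hl : 0 < l) (B v : ℝ) : fP l B v ≤ Real.exp (l * B) := by
  unfold fP
  exact Real.exp_le_exp.2 (mul_le_mul_of_nonneg_left (Uf_le66 B v) hl.le)

lemma rpow43_le66 {z : ℝ} (hz : 0 ≤ z) : z ^ (4 / 3 : ℝ) ≤ 1 + z ^ 2 := by
  rcases le_total z 1 with h | h
  · have h1 : z ^ (4 / 3 : ℝ) ≤ 1 := Real.rpow_le_one hz h (by norm_num)
    nlinarith [sq_nonneg z]
  · have h1 : z ^ (4 / 3 : ℝ) ≤ z ^ (2 : ℝ) := Real.rpow_le_rpow_of_exponent_le h (by norm_num)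
    rw [Real.rpow_two] at h1
    linarith

lemma le_rpow43_66 {z : ℝ} (hz : 0 ≤ z) : z ≤ 1 + z ^ (4 / 3 : ℝ) := by
  rcases le_total z 1 with h | h
  · have h1 : 0 ≤ z ^ (4 / 3 : ℝ) := Real.rpow_nonneg hz _
    linarith
  · have h1 : z ^ (1 : ℝ) ≤ z ^ (4 / 3 : ℝ) := Real.rpow_le_rpow_of_exponent_le h (by norm_num)
    rw [Real.rpow_one] at h1
    linarith

lemma rpow34_66 {z : ℝ} (hz : 0 ≤ z) : (z ^ (3 / 4 : ℝ)) ^ (4 / 3 : ℝ) = z := by
  rw [← Real.rpow_mul hz]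
  norm_num

lemma rpow43_66 {z : ℝ} (hz : 0 ≤ z) : (z ^ (4 / 3 : ℝ)) ^ (3 / 4 : ℝ) = z := by
  rw [← Real.rpow_mul hz]
  norm_num

/-- Hölder. -/
lemma hol66 {Ω : Type*} [MeasurableSpace Ω] (μ : Measure Ω) [IsProbabilityMeasure μ]
    {m g : Ω → ℝ} (hm : Measurable m) (hg : Measurable g) (hm0 : ∀ x, 0 ≤ m x) {M : ℝ}
    (hM : ∀ x, m x ≤ M) (hg0 : ∀ x, 0 ≤ g x) (hi : Integrable (fun x => g x ^ (4 / 3 : ℝ)) μ) :
    ∫ x, m x * g x ∂μ ≤ (∫ x, m x ^ 4 ∂μ) ^ (1 / 4 : ℝ) *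
      (∫ x, g x ^ (4 / 3 : ℝ) ∂μ) ^ (3 / 4 : ℝ) := by
  have hpq : (4 : ℝ).HolderConjugate (4 / 3) := by
    rw [Real.holderConjugate_iff]
    norm_num
  have h1 : MemLp m (ENNReal.ofReal 4) μ :=
    MemLp.of_bound hm.aestronglyMeasurable M (Eventually.of_forall fun x => by
      rw [Real.norm_eq_abs, abs_of_nonneg (hm0 x)]
      exact hM x)
  have h2 : MemLp g (ENNReal.ofReal (4 / 3)) μ := by
    rw [← integrable_norm_rpow_iff hg.aestronglyMeasurable (by norm_num) (by norm_num)]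
    refine hi.congr (Eventually.of_forall fun x => ?_)
    show g x ^ (4 / 3 : ℝ) = ‖g x‖ ^ (ENNReal.ofReal (4 / 3)).toReal
    rw [Real.norm_eq_abs, abs_of_nonneg (hg0 x), ENNReal.toReal_ofReal (by norm_num)]
  have h3 := integral_mul_le_Lp_mul_Lq_of_nonneg hpq (Eventually.of_forall hm0)
    (Eventually.of_forall hg0) h1 h2
  have h4 : ∫ x, m x ^ (4 : ℝ) ∂μ = ∫ x, m x ^ 4 ∂μ := by
    refine integral_congr_ae (Eventually.of_forall fun x => ?_)
    show m x ^ (4 : ℝ) = m x ^ 4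
    exact Real.rpow_ofNat (m x) 4
  rw [h4] at h3
  rw [show (1 : ℝ) / (4 / 3) = 3 / 4 by norm_num] at h3
  exact h3

/-- Jensen. -/
lemma jen66 {Ω : Type*} [MeasurableSpace Ω] (μ : Measure Ω) [IsProbabilityMeasure μ]
    {g : Ω → ℝ} (hg : Measurable g) (hg0 : ∀ x, 0 ≤ g x)
    (hi : Integrable (fun x => g x ^ (4 / 3 : ℝ)) μ) :
    ∫ x, g x ∂μ ≤ (∫ x, g x ^ (4 / 3 : ℝ) ∂μ) ^ (3 / 4 : ℝ) := by
  have h := hol66 μ (m := fun _ => 1) measurable_const hg (fun _ => zero_le_one)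
    (M := 1) (fun _ => le_rfl) hg0 hi
  simpa using h

variable {ρ : Measure ℝ}

lemma sq_int66 (hρ : EM ρ) : Integrable (fun t : ℝ => t ^ 2) ρ := by
  have h1 : Integrable (fun t : ℝ => 2 * (Real.exp (1 * t) + Real.exp ((-1) * t))) ρ :=
    ((hρ 1).add (hρ (-1))).const_mul 2
  refine h1.mono' (measurable_id.pow_const 2).aestronglyMeasurable
    (Eventually.of_forall fun t => ?_)
  rw [Real.norm_eq_abs, abs_of_nonneg (sq_nonneg t)]
  have h2 : ∀ s : ℝ, 0 ≤ s → s ^ 2 ≤ 2 * Real.exp s := fun s hs => by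
    have := Real.quadratic_le_exp_of_nonneg hs
    nlinarith
  have e1 := Real.exp_pos (1 * t)
  have e2 := Real.exp_pos ((-1) * t)
  rcases le_total 0 t with h | h
  · have h3 := h2 t h
    rw [one_mul] at e1 ⊢
    linarith
  · have h3 := h2 (-t) (by linarith)
    rw [neg_sq] at h3
    rw [neg_one_mul] at e2 ⊢
    linarith

lemma sqN_int66 [IsProbabilityMeasure ρ] (hρ : EM ρ) {N : ℕ} (i : Fin N) :
    Integrable (fun y : Fin N → ℝ => y i ^ 2) (PN ρ N) := by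
  have h1 : MeasurePreserving (fun y : Fin N → ℝ => y i) (PN ρ N) ρ :=
    measurePreserving_eval (fun _ => ρ) i
  exact h1.integrable_comp_of_integrable (sq_int66 hρ)

/-- The positive part is integrable with the exponent `4 / 3`. -/
lemma gint66 [IsProbabilityMeasure ρ] (hρ : EM ρ) {N : ℕ} {Y : (Fin N → ℝ) → ℝ}
    (hY : Measurable Y) (hY0 : ∀ y, 0 ≤ Y y) {M : ℝ} (hM : ∀ y, Y y ≤ M * (1 + ∑ i, |y i|))
    {x₀ : ℝ} (hx : 0 ≤ x₀) :
    Integrable (fun y => (max (Y y - x₀) 0) ^ (4 / 3 : ℝ)) (PN ρ N) := by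
  have hb : Integrable (fun y : Fin N → ℝ => 1 + M ^ 2 * (2 + 2 * (N * ∑ i, y i ^ 2)))
      (PN ρ N) := by
    refine (integrable_const _).add (Integrable.const_mul ?_ _)
    refine (integrable_const _).add (Integrable.const_mul (Integrable.const_mul ?_ _) _)
    exact integrable_finsetSum _ fun i _ => sqN_int66 hρ i
  have hm : Measurable fun y => (max (Y y - x₀) 0) ^ (4 / 3 : ℝ) :=
    ((hY.sub_const x₀).max measurable_const).pow_const _
  refine hb.mono' hm.aestronglyMeasurable (Eventually.of_forall fun y => ?_)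
  have h0 : 0 ≤ max (Y y - x₀) 0 := le_max_right _ _
  rw [Real.norm_eq_abs, abs_of_nonneg (Real.rpow_nonneg h0 _)]
  refine (rpow43_le66 h0).trans ?_
  have h1 : max (Y y - x₀) 0 ≤ M * (1 + ∑ i, |y i|) :=
    max_le (by linarith [hM y]) ((hY0 y).trans (hM y))
  have h2 := pow_le_pow_left₀ h0 h1 2
  have h3 : (∑ i, |y i|) ^ 2 ≤ N * ∑ i, y i ^ 2 := by
    have h4 := sq_sum_le_card_mul_sum_sq (s := (Finset.univ : Finset (Fin N)))
      (f := fun i => |y i|)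
    simp only [Finset.card_univ, Fintype.card_fin, sq_abs] at h4
    exact h4
  have h5 : (1 + ∑ i, |y i|) ^ 2 ≤ 2 + 2 * (N * ∑ i, y i ^ 2) := by
    nlinarith [sq_nonneg (1 - ∑ i, |y i|)]
  rw [mul_pow] at h2
  have h6 := mul_le_mul_of_nonneg_left h5 (sq_nonneg M)
  linarith

end Pool.Agent.W_7d29a1_AM
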