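import Pool.Agent.W_7d29a1_AM.LemGa66

/-!
Amplification for every law, leaf A5 (the upgrade): one site.
-/

namespace Pool.Agent.W_7d29a1_AM

open MeasureTheory ProbabilityTheory Filter Topology Pool.Agent.W_MP_7d29a1_pr
  Pool.Agent.W_7d29a1_h46 Pool.Agent.W_7d29a1_h46u

variable {ρ : Measure ℝ} [IsProbabilityMeasure ρ] {c₀ R : ℝ} {L H : Set ℝ}

/-- The derivative of the density of the upgraded site. -/
noncomputable def kk66 (ρ : Measure ℝ) (L H : Set ℝ) (w : ℝ) : ℝ :=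
  H.indicator (fun _ => ρ.real L / ρ.real H) w - L.indicator (fun _ => (1 : ℝ)) w

lemma kk_meas66 (h : LHs ρ c₀ R L H) : Measurable (kk66 ρ L H) :=
  (measurable_const.indicator h.mH).sub (measurable_const.indicator h.mL)

lemma c0_le_one66 (h : LHs ρ c₀ R L H) : c₀ ≤ 1 := h.L0.trans measureReal_le_one

lemma kk_abs66 (h : LHs ρ c₀ R L H) (w : ℝ) : |kk66 ρ L H w| ≤ 1 / c₀ := by
  have hH : 0 < ρ.real H := h.c0.trans_le h.H0
  have hL1 : ρ.real L ≤ 1 := measureReal_le_one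
  have h1 : ρ.real L / ρ.real H ≤ 1 / c₀ :=
    div_le_div₀ zero_le_one hL1 h.c0 h.H0
  have h1' : 0 ≤ ρ.real L / ρ.real H := div_nonneg measureReal_nonneg hH.le
  have h2 : (1 : ℝ) ≤ 1 / c₀ := by
    rw [le_div_iff₀ h.c0]
    linarith [c0_le_one66 h]
  have h3 : H.indicator (fun _ => ρ.real L / ρ.real H) w ≤ 1 / c₀ ∧
      0 ≤ H.indicator (fun _ => ρ.real L / ρ.real H) w := by
    by_cases hw : w ∈ H
    · rw [Set.indicator_of_mem hw]
      exact ⟨h1, h1'⟩
    · rw [Set.indicator_of_notMem hw]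
      exact ⟨by linarith, le_rfl⟩
  have h4 : L.indicator (fun _ => (1 : ℝ)) w ≤ 1 ∧ 0 ≤ L.indicator (fun _ => (1 : ℝ)) w := by
    by_cases hw : w ∈ L
    · rw [Set.indicator_of_mem hw]
      exact ⟨le_rfl, zero_le_one⟩
    · rw [Set.indicator_of_notMem hw]
      exact ⟨zero_le_one, le_rfl⟩
  unfold kk66
  rw [abs_le]
  constructor <;> linarith [h3.1, h3.2, h4.1, h4.2]

lemma kk_int66 (h : LHs ρ c₀ R L H) : ∫ w, kk66 ρ L H w ∂ρ = 0 := by
  have hH : 0 < ρ.real H := h.c0.trans_le h.H0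
  unfold kk66
  rw [integral_sub ((integrable_const _).indicator h.mH) ((integrable_const _).indicator h.mL),
    integral_indicator_const _ h.mH, integral_indicator_const _ h.mL, smul_eq_mul, smul_eq_mul]
  field_simp
  ring

lemma kk_integrable66 (h : LHs ρ c₀ R L H) : Integrable (kk66 ρ L H) ρ :=
  ((integrable_const _).indicator h.mH).sub ((integrable_const _).indicator h.mL)

/-- The fourth moment of the density. -/
lemma m4_66 (h : LHs ρ c₀ R L H) {a : ℝ} (ha0 : 0 ≤ a) (ha1 : a ≤ 1) :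
    ∫ w, (1 + a * kk66 ρ L H w) ^ 4 ∂ρ ≤ Real.exp (11 * (1 / c₀) ^ 4 * a ^ 2) := by
  obtain ⟨K, hK⟩ : ∃ K : ℝ, K = 1 / c₀ := ⟨_, rfl⟩
  have hK1 : 1 ≤ K := by
    rw [hK, le_div_iff₀ h.c0]
    linarith [c0_le_one66 h]
  rw [← hK]
  have hpt : ∀ w, (1 + a * kk66 ρ L H w) ^ 4 ≤
      (1 + 11 * K ^ 4 * a ^ 2) + 4 * a * kk66 ρ L H w := by
    intro w
    have hk : |kk66 ρ L H w| ≤ K := by
      rw [hK]
      exact kk_abs66 h w
    obtain ⟨k, hk'⟩ : ∃ k : ℝ, k = kk66 ρ L H w := ⟨_, rfl⟩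
    rw [← hk'] at hk ⊢
    have hk2 : k ^ 2 ≤ K ^ 2 := by
      rw [← sq_abs k]
      exact pow_le_pow_left₀ (abs_nonneg k) hk 2
    have hk3 : k ^ 3 ≤ K ^ 3 := by
      refine (le_abs_self _).trans ?_
      rw [abs_pow]
      exact pow_le_pow_left₀ (abs_nonneg k) hk 3
    have hk4 : k ^ 4 ≤ K ^ 4 := by
      refine (le_abs_self _).trans ?_
      rw [abs_pow]
      exact pow_le_pow_left₀ (abs_nonneg k) hk 4
    have hK2 : K ^ 2 ≤ K ^ 4 := pow_le_pow_right₀ hK1 (by norm_num)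
    have hK3 : K ^ 3 ≤ K ^ 4 := pow_le_pow_right₀ hK1 (by norm_num)
    have hK4 : 0 ≤ K ^ 4 := by positivity
    have ha2 : 0 ≤ a ^ 2 := sq_nonneg a
    have ha3 : a ^ 3 ≤ a ^ 2 := pow_le_pow_of_le_one ha0 ha1 (by norm_num)
    have ha4 : a ^ 4 ≤ a ^ 2 := pow_le_pow_of_le_one ha0 ha1 (by norm_num)
    have e2 : a ^ 2 * k ^ 2 ≤ a ^ 2 * K ^ 4 := mul_le_mul_of_nonneg_left (hk2.trans hK2) ha2
    have e3 : a ^ 3 * k ^ 3 ≤ a ^ 2 * K ^ 4 :=
      (mul_le_mul_of_nonneg_left (hk3.trans hK3) (by positivity)).trans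
        (mul_le_mul_of_nonneg_right ha3 hK4)
    have e4 : a ^ 4 * k ^ 4 ≤ a ^ 2 * K ^ 4 :=
      (mul_le_mul_of_nonneg_left hk4 (by positivity)).trans
        (mul_le_mul_of_nonneg_right ha4 hK4)
    have e : (1 + a * k) ^ 4 = 1 + 4 * a * k + 6 * (a ^ 2 * k ^ 2) + 4 * (a ^ 3 * k ^ 3) +
        a ^ 4 * k ^ 4 := by ring
    rw [e]
    linarith
  have hb : Integrable (fun w => (1 + 11 * K ^ 4 * a ^ 2) + 4 * a * kk66 ρ L H w) ρ :=
    (integrable_const _).add ((kk_integrable66 h).const_mul _)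
  have h1 := integral_mono_of_nonneg (μ := ρ)
    (Eventually.of_forall fun w => (by positivity : 0 ≤ (1 + a * kk66 ρ L H w) ^ 4)) hb
    (Eventually.of_forall hpt)
  rw [integral_add (integrable_const _) ((kk_integrable66 h).const_mul _), integral_const_mul,
    kk_int66 h] at h1
  have h2 := Real.add_one_le_exp (11 * K ^ 4 * a ^ 2)
  simp only [integral_const, probReal_univ, smul_eq_mul, one_mul, mul_zero, add_zero] at h1
  linarith

/-- One site. -/
lemma step66 (h : LHs ρ c₀ R L H) {a κ γ : ℝ} (ha0 : 0 ≤ a) (ha1 : a ≤ 1) (hκ : 0 ≤ κ)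
    (hγ : 0 ≤ γ) {P s : ℝ → ℝ} (hP : Integrable P ρ) (hs : Measurable s) (hs0 : ∀ w, 0 ≤ s w)
    (hsi : Integrable (fun w => s w ^ (4 / 3 : ℝ)) ρ) (hdiag : ∀ w, P w ≤ κ * s w)
    (hoff : ∀ w₁ ∈ L, ∀ w₂ ∈ H, P w₁ + γ ≤ κ * s w₂) :
    ∫ w, P w ∂ρ + a * γ * c₀ ≤ κ * (Real.exp (11 / 4 * (1 / c₀) ^ 4 * a ^ 2) *
      (∫ w, s w ^ (4 / 3 : ℝ) ∂ρ) ^ (3 / 4 : ℝ)) := by
  have hH : 0 < ρ.real H := h.c0.trans_le h.H0
  have hsI : Integrable s ρ := by
    refine ((integrable_const (1 : ℝ)).add hsi).mono' hs.aestronglyMeasurable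
      (Eventually.of_forall fun w => ?_)
    rw [Real.norm_eq_abs, abs_of_nonneg (hs0 w)]
    exact le_rpow43_66 (hs0 w)
  obtain ⟨sH, hsH⟩ : ∃ sH : ℝ, sH = (∫ w in H, s w ∂ρ) / ρ.real H := ⟨_, rfl⟩
  -- the average over `H`
  have hav : ∀ w₁ ∈ L, P w₁ + γ ≤ κ * sH := by
    intro w₁ hw₁
    have h1 : ∫ w in H, (P w₁ + γ) ∂ρ ≤ ∫ w in H, κ * s w ∂ρ :=
      setIntegral_mono_on (integrable_const _).integrableOn
        (hsI.const_mul κ).integrableOn h.mH fun w hw => hoff w₁ hw₁ w hw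
    rw [setIntegral_const, integral_const_mul, smul_eq_mul] at h1
    rw [hsH, mul_div_assoc', le_div_iff₀ hH]
    linarith
  have hpt : ∀ w, P w + a * γ * L.indicator (fun _ => (1 : ℝ)) w ≤
      κ * s w - a * κ * L.indicator s w + a * κ * sH * L.indicator (fun _ => (1 : ℝ)) w := by
    intro w
    by_cases hw : w ∈ L
    · rw [Set.indicator_of_mem hw, Set.indicator_of_mem hw]
      have h1 := mul_le_mul_of_nonneg_left (hav w hw) ha0
      have h2 := mul_le_mul_of_nonneg_left (hdiag w) (by linarith : 0 ≤ 1 - a)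
      nlinarith
    · rw [Set.indicator_of_notMem hw, Set.indicator_of_notMem hw]
      linarith [hdiag w]
  have hiL : Integrable (L.indicator fun _ => (1 : ℝ)) ρ := (integrable_const _).indicator h.mL
  have hsL : Integrable (L.indicator s) ρ := hsI.indicator h.mL
  have hsHi : Integrable (H.indicator s) ρ := hsI.indicator h.mH
  have h1 := integral_mono (hP.add (hiL.const_mul (a * γ)))
    (((hsI.const_mul κ).sub (hsL.const_mul (a * κ))).add (hiL.const_mul (a * κ * sH))) hpt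
  have e1 : ∫ w, (P w + a * γ * L.indicator (fun _ => (1 : ℝ)) w) ∂ρ =
      ∫ w, P w ∂ρ + a * γ * ρ.real L := by
    rw [integral_add hP (hiL.const_mul (a * γ)), integral_const_mul,
      integral_indicator_const _ h.mL, smul_eq_mul, mul_one]
  have e2 : ∫ w, (κ * s w - a * κ * L.indicator s w + a * κ * sH *
      L.indicator (fun _ => (1 : ℝ)) w) ∂ρ =
      κ * ∫ w, s w ∂ρ - a * κ * ∫ w in L, s w ∂ρ + a * κ * sH * ρ.real L := by
    have i1 : Integrable (fun w => κ * s w - a * κ * L.indicator s w) ρ :=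
      (hsI.const_mul κ).sub (hsL.const_mul (a * κ))
    rw [integral_add i1
      (hiL.const_mul (a * κ * sH)), integral_sub (hsI.const_mul κ) (hsL.const_mul (a * κ)),
      integral_const_mul, integral_const_mul, integral_const_mul,
      integral_indicator_const _ h.mL, smul_eq_mul, mul_one, integral_indicator h.mL]
  have h2 : ∫ w, P w ∂ρ + a * γ * ρ.real L ≤
      κ * ∫ w, s w ∂ρ - a * κ * ∫ w in L, s w ∂ρ + a * κ * sH * ρ.real L := by
    rw [← e1, ← e2]
    exact h1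
  -- the density
  have e3 : ∫ w, (1 + a * kk66 ρ L H w) * s w ∂ρ = ∫ w, s w ∂ρ +
      a * (ρ.real L / ρ.real H * ∫ w in H, s w ∂ρ - ∫ w in L, s w ∂ρ) := by
    have h3 : ∀ w, (1 + a * kk66 ρ L H w) * s w = s w +
        a * (ρ.real L / ρ.real H * H.indicator s w - L.indicator s w) := by
      intro w
      unfold kk66
      by_cases hw : w ∈ H <;> by_cases hw' : w ∈ L <;>
        simp [Set.indicator, hw, hw'] <;> ring
    simp only [h3]
    have i2 : Integrable (fun w => ρ.real L / ρ.real H * H.indicator s w) ρ :=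
      hsHi.const_mul _
    have i3 : Integrable (fun w => ρ.real L / ρ.real H * H.indicator s w - L.indicator s w) ρ :=
      i2.sub hsL
    rw [integral_add hsI (i3.const_mul a), integral_const_mul,
      integral_sub i2 hsL, integral_const_mul, integral_indicator h.mH,
      integral_indicator h.mL]
  have h3 : κ * ∫ w, s w ∂ρ - a * κ * ∫ w in L, s w ∂ρ + a * κ * sH * ρ.real L =
      κ * ∫ w, (1 + a * kk66 ρ L H w) * s w ∂ρ := by
    rw [e3, hsH]
    field_simp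
    ring
  have hm0 : ∀ w, 0 ≤ 1 + a * kk66 ρ L H w := by
    intro w
    have h4 : -1 ≤ kk66 ρ L H w := by
      unfold kk66
      have h5 : 0 ≤ H.indicator (fun _ => ρ.real L / ρ.real H) w :=
        Set.indicator_nonneg (fun _ _ => div_nonneg measureReal_nonneg hH.le) w
      have h6 : L.indicator (fun _ => (1 : ℝ)) w ≤ 1 := by
        by_cases hw : w ∈ L
        · rw [Set.indicator_of_mem hw]
        · rw [Set.indicator_of_notMem hw]
          exact zero_le_one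
      linarith
    nlinarith
  have hmM : ∀ w, 1 + a * kk66 ρ L H w ≤ 1 + 1 / c₀ := by
    intro w
    have h4 := (le_abs_self _).trans (kk_abs66 h w)
    have h5 : 0 < 1 / c₀ := one_div_pos.2 h.c0
    nlinarith
  have h4 := hol66 ρ (m := fun w => 1 + a * kk66 ρ L H w)
    (((kk_meas66 h).const_mul a).const_add 1) hs hm0 hmM hs0 hsi
  have h5 := m4_66 h ha0 ha1
  have h6 : (∫ w, (1 + a * kk66 ρ L H w) ^ 4 ∂ρ) ^ (1 / 4 : ℝ) ≤
      Real.exp (11 / 4 * (1 / c₀) ^ 4 * a ^ 2) := by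
    have h7 := Real.rpow_le_rpow (integral_nonneg fun w => by positivity) h5
      (by norm_num : (0 : ℝ) ≤ 1 / 4)
    refine h7.trans (le_of_eq ?_)
    rw [← Real.exp_mul]
    congr 1
    ring
  have h7 : ∫ w, (1 + a * kk66 ρ L H w) * s w ∂ρ ≤ Real.exp (11 / 4 * (1 / c₀) ^ 4 * a ^ 2) *
      (∫ w, s w ^ (4 / 3 : ℝ) ∂ρ) ^ (3 / 4 : ℝ) :=
    h4.trans (mul_le_mul_of_nonneg_right h6 (Real.rpow_nonneg
      (integral_nonneg fun w => Real.rpow_nonneg (hs0 w) _) _))
  have h8 := mul_le_mul_of_nonneg_left h7 hκ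
  have h9 : a * γ * c₀ ≤ a * γ * ρ.real L :=
    mul_le_mul_of_nonneg_left h.L0 (mul_nonneg ha0 hγ)
  linarith

end Pool.Agent.W_7d29a1_AM
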