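import Pool.Agent.W_7d29a1_AM.Base73

/-!
Leaf A4 of the amplification for every law: the entropy dominates the sum of squares (helper56).
-/

namespace Pool.Agent.W_7d29a1_AM

open MeasureTheory ProbabilityTheory Filter Topology

namespace K56

/-- The entropy function is at least the square of the root. -/
lemma phi_ge {r : ℝ} (hr : 0 < r) : (Real.sqrt r - 1) ^ 2 ≤ r * Real.log r - r + 1 := by
  have hs : 0 < Real.sqrt r := Real.sqrt_pos.mpr hr
  have hss : Real.sqrt r * Real.sqrt r = r := Real.mul_self_sqrt hr.le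
  have h1 : 1 - (Real.sqrt r)⁻¹ ≤ Real.log (Real.sqrt r) :=
    Real.one_sub_inv_le_log_of_pos hs
  have h2 : Real.log r = 2 * Real.log (Real.sqrt r) := by
    rw [Real.log_sqrt hr.le]; ring
  have h3 : Real.sqrt r - 1 ≤ Real.sqrt r * Real.log (Real.sqrt r) := by
    have := mul_le_mul_of_nonneg_left h1 hs.le
    rwa [mul_sub, mul_one, mul_inv_cancel₀ hs.ne'] at this
  have h4 : Real.sqrt r * (Real.sqrt r - 1) ≤
      Real.sqrt r * (Real.sqrt r * Real.log (Real.sqrt r)) :=
    mul_le_mul_of_nonneg_left h3 hs.le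
  rw [h2]
  nlinarith

lemma phi_ge' {r C : ℝ} (hr : 0 < r) (hC : 1 ≤ C) (hrC : r ≤ C) :
    (r - 1) ^ 2 / (4 * C) ≤ r * Real.log r - r + 1 := by
  refine le_trans ?_ (phi_ge hr)
  have hs : 0 < Real.sqrt r := Real.sqrt_pos.mpr hr
  have hss : Real.sqrt r * Real.sqrt r = r := Real.mul_self_sqrt hr.le
  rw [div_le_iff₀ (by linarith)]
  have h1 : (Real.sqrt r + 1) ^ 2 ≤ 4 * C := by
    nlinarith [sq_nonneg (Real.sqrt r - 1)]
  have h2 : (r - 1) ^ 2 = (Real.sqrt r - 1) ^ 2 * (Real.sqrt r + 1) ^ 2 := by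
    rw [← mul_pow]
    congr 1
    nlinarith
  rw [h2]
  exact mul_le_mul_of_nonneg_left h1 (sq_nonneg _)

lemma phi_nonneg {r : ℝ} (hr : 0 < r) : 0 ≤ r * Real.log r - r + 1 :=
  le_trans (sq_nonneg _) (phi_ge hr)

lemma phi_le {r : ℝ} (hr : 0 < r) : r * Real.log r - r + 1 ≤ (r - 1) ^ 2 := by
  have h := mul_le_mul_of_nonneg_left (Real.log_le_sub_one_of_pos hr) hr.le
  nlinarith

variable {ρ : Measure ℝ} [IsProbabilityMeasure ρ]

/-- A positive bounded function of mean one: integrability. -/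
lemma int_r {r : ℝ → ℝ} (hm : Measurable r) (h0 : ∀ w, 0 < r w) {M : ℝ} (hM : ∀ w, r w ≤ M) :
    Integrable r ρ :=
  Integrable.of_bound hm.aestronglyMeasurable M (ae_of_all _ fun w => by
    rw [Real.norm_eq_abs, abs_of_pos (h0 w)]; exact hM w)

lemma int_phi {r : ℝ → ℝ} (hm : Measurable r) (h0 : ∀ w, 0 < r w) {M : ℝ} (hM : ∀ w, r w ≤ M) :
    Integrable (fun w => r w * Real.log (r w) - r w + 1) ρ := by
  have hme : Measurable (fun w => r w * Real.log (r w) - r w + 1) :=
    ((hm.mul (Real.measurable_log.comp hm)).sub hm).add_const 1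
  refine Integrable.of_bound hme.aestronglyMeasurable ((M + 1) ^ 2) (ae_of_all _ fun w => ?_)
  rw [Real.norm_eq_abs, abs_of_nonneg (phi_nonneg (h0 w))]
  refine (phi_le (h0 w)).trans ?_
  have h1 := h0 w
  have h2 := hM w
  nlinarith

lemma int_rlog {r : ℝ → ℝ} (hm : Measurable r) (h0 : ∀ w, 0 < r w) {M : ℝ} (hM : ∀ w, r w ≤ M) :
    Integrable (fun w => r w * Real.log (r w)) ρ := by
  have h := ((int_phi (ρ := ρ) hm h0 hM).add (int_r (ρ := ρ) hm h0 hM)).sub (integrable_const (1 : ℝ))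
  refine h.congr (ae_of_all _ fun w => ?_)
  simp only [Pi.add_apply, Pi.sub_apply]
  ring

/-- One site. -/
lemma site_ent {c R C l σ : ℝ} {L H : Set ℝ} (hLH : LHs ρ c R L H) (hC : 1 ≤ C) (hl : 0 < l)
    (hσ : σ = 1 ∨ σ = -1) {r : ℝ → ℝ} {π : ℝ} (hπ : 0 ≤ π) (hm : Measurable r)
    (h0 : ∀ w, 0 < r w) {M : ℝ} (hM : ∀ w, r w ≤ M) (h1 : ∫ w, r w ∂ρ = 1)
    (hd : ∀ w ∈ L, ∀ w' ∈ H, c * l * π ≤ σ * (r w' - r w)) (hb : ∀ w ∈ L ∪ H, r w ≤ C) :
    c ^ 3 / (16 * C) * l ^ 2 * π ^ 2 ≤ ∫ w, r w * Real.log (r w) ∂ρ := by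
  have hc := hLH.c0
  set a : ℝ := c * l * π / 2 with ha
  have ha0 : 0 ≤ a := by positivity
  -- on one of the two sets the density is far from one
  have key : ∃ S : Set ℝ, MeasurableSet S ∧ c ≤ ρ.real S ∧ (∀ w ∈ S, r w ≤ C) ∧
      ∀ w ∈ S, a ^ 2 ≤ (r w - 1) ^ 2 := by
    by_cases hA : ∀ w ∈ L, a ^ 2 ≤ (r w - 1) ^ 2
    · exact ⟨L, hLH.mL, hLH.L0, fun w hw => hb w (Or.inl hw), hA⟩
    · push Not at hA
      obtain ⟨w, hw, hlt⟩ := hA
      refine ⟨H, hLH.mH, hLH.H0, fun w' hw' => hb w' (Or.inr hw'), fun w' hw' => ?_⟩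
      have h2 : |r w - 1| < a := abs_lt_of_sq_lt_sq hlt ha0
      have h3 := hd w hw w' hw'
      have h4 : 2 * a ≤ |r w' - r w| := by
        have : 2 * a = c * l * π := by rw [ha]; ring
        rw [this]
        rcases hσ with hs | hs
        · rw [hs, one_mul] at h3; exact h3.trans (le_abs_self _)
        · rw [hs] at h3; exact h3.trans (by rw [neg_one_mul]; exact neg_le_abs _)
      have h5 : |r w' - r w| ≤ |r w' - 1| + |r w - 1| := by
        have := abs_sub (r w' - 1) (r w - 1)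
        have h6 : r w' - 1 - (r w - 1) = r w' - r w := by ring
        rwa [h6] at this
      have h7 : a ≤ |r w' - 1| := by linarith
      calc a ^ 2 ≤ |r w' - 1| ^ 2 := pow_le_pow_left₀ ha0 h7 2
        _ = (r w' - 1) ^ 2 := sq_abs _
  obtain ⟨S, hSm, hSc, hSC, hSa⟩ := key
  have hphi := int_phi (ρ := ρ) hm h0 hM
  have hI : ∫ w, r w * Real.log (r w) ∂ρ = ∫ w, (r w * Real.log (r w) - r w + 1) ∂ρ := by
    have e1 : ∫ w, (r w * Real.log (r w) - r w + 1) ∂ρ =
        ∫ w, r w * Real.log (r w) ∂ρ - ∫ w, r w ∂ρ + ∫ _w, (1 : ℝ) ∂ρ := by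
      have i1 := int_rlog (ρ := ρ) hm h0 hM
      have i2 := int_r (ρ := ρ) hm h0 hM
      have i3 : Integrable (fun w => r w * Real.log (r w) - r w) ρ := i1.sub i2
      rw [integral_add i3 (integrable_const _), integral_sub i1 i2]
    rw [e1, h1]
    simp
  rw [hI]
  have hK : (0 : ℝ) < 4 * C := by linarith
  calc c ^ 3 / (16 * C) * l ^ 2 * π ^ 2 = c * (a ^ 2 / (4 * C)) := by
        rw [ha]; field_simp; ring
    _ ≤ ρ.real S * (a ^ 2 / (4 * C)) := mul_le_mul_of_nonneg_right hSc (by positivity)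
    _ = ∫ _w in S, (a ^ 2 / (4 * C)) ∂ρ := by
        rw [setIntegral_const, smul_eq_mul]
    _ ≤ ∫ w in S, (r w * Real.log (r w) - r w + 1) ∂ρ := by
        refine setIntegral_mono_on (integrableOn_const (measure_ne_top _ _)) hphi.integrableOn hSm
          fun w hw => ?_
        refine le_trans ?_ (phi_ge' (h0 w) hC (hSC w hw))
        exact div_le_div_of_nonneg_right (hSa w hw) hK.le
    _ ≤ ∫ w, (r w * Real.log (r w) - r w + 1) ∂ρ :=
        setIntegral_le_integral hphi (ae_of_all _ fun w => phi_nonneg (h0 w))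

end K56

variable {ρ : Measure ℝ} [IsProbabilityMeasure ρ] {β : ℝ}

open K56 in
/-- **The entropy dominates the sum of squares.** -/
theorem lemK56 (hS : SiteP ρ β) (hCn : ConP ρ β) : LemK ρ β := by
  obtain ⟨c, R, C, L, H, hLH, hC1, hcon⟩ := hCn
  have hc := hLH.c0
  refine ⟨c ^ 3 / (16 * C), by positivity, ?_⟩
  intro l σ f x hl hl1 hσ hW N
  induction N with
  | zero =>
    intro V p hV
    have h1 : Nt ρ f x 0 V p = 0 := rfl
    rw [h1, mul_zero]
    unfold Ef gf
    rw [int_zero (ρ := ρ) (fun y => Real.log (f (V y)) * f (V y)) (fun _ => 0),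
      int_zero (ρ := ρ) (fun y => f (V y)) (fun _ => 0)]
    rw [mul_div_assoc, div_self (hW.pos _).ne', mul_one, sub_self]
  | succ N ih =>
    intro V p hV
    have hSi := hS l σ f x hl hl1 hW N V p hV
    obtain ⟨-, -, -, h4, h5⟩ := hcon l σ _ _ hl hl1 hσ hSi
    obtain ⟨MG, hMG⟩ := hSi.bddG
    have hg : 0 < gf ρ f V := gf_pos hW hV
    have hgp : gf ρ f V = ∫ w, gf ρ f (fx V w) ∂ρ := gf_peel hW hV
    have hpp : pif ρ f x V p = (∫ w, Kf ρ f x V p w ∂ρ) / (∫ w, gf ρ f (fx V w) ∂ρ) :=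
      pif_peel hW hV
    have hr0 : ∀ w, 0 < rf ρ f V w := fun w => div_pos (hSi.G0 w) hg
    have hrm : Measurable (rf ρ f V) := hSi.measG.div_const _
    have hrM : ∀ w, rf ρ f V w ≤ MG / gf ρ f V := fun w =>
      div_le_div_of_nonneg_right (hMG w) hg.le
    have hr1 : ∫ w, rf ρ f V w ∂ρ = 1 := (rf_int hW hV).2
    have hsite : c ^ 3 / (16 * C) * l ^ 2 * pif ρ f x V p ^ 2 ≤
        ∫ w, rf ρ f V w * Real.log (rf ρ f V w) ∂ρ := by
      refine site_ent hLH hC1 hl hσ (pif0 hW hV) hrm hr0 hrM hr1 ?_ ?_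
      · intro w hw w' hw'
        have := h4 w hw w' hw'
        rw [← hpp, ← hgp] at this
        exact this
      · intro w hw
        have := h5 w hw
        rw [← hgp] at this
        exact this
    -- the entropy, peeled
    have hlm : Measurable fun y => Real.log (f (V y)) :=
      Real.measurable_log.comp (hW.measf.comp hV.meas)
    obtain ⟨Cb, hCb⟩ := hW.bdl
    have hpe := Ef_peel hW hV (ρ := ρ) (F := fun y => Real.log (f (V y))) hlm (M := Cb)
      (fun y => hCb _ (hV.nonneg y))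
    have hNt1 : ∀ w, Nt ρ f x N (fx V w) (fq p w) ≤ N := fun w => Nt1 hW (cls_fx hV w)
    have hNt0 : ∀ w, 0 ≤ Nt ρ f x N (fx V w) (fq p w) := fun w => Nt0 hW (cls_fx hV w)
    have hNm : Measurable fun w => Nt ρ f x N (fx V w) (fq p w) :=
      meas_Nt hW.measf hW.measx hV.meas hV.measp
    have hMG0 : 0 ≤ MG := (hSi.G0 0).le.trans (hMG 0)
    have hiN : Integrable (fun w => rf ρ f V w * Nt ρ f x N (fx V w) (fq p w)) ρ := by
      refine Integrable.of_bound (hrm.mul hNm).aestronglyMeasurable (MG / gf ρ f V * N)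
        (ae_of_all _ fun w => ?_)
      rw [Real.norm_eq_abs, abs_of_nonneg (mul_nonneg (hr0 w).le (hNt0 w))]
      exact mul_le_mul (hrM w) (hNt1 w) (hNt0 w) (div_nonneg hMG0 hg.le)
    have hiR := int_rlog (ρ := ρ) hrm hr0 hrM
    have hir := int_r (ρ := ρ) hrm hr0 hrM
    have hiE : Integrable (fun w => rf ρ f V w * Ef ρ f (fx V w)
        (fx (fun y => Real.log (f (V y))) w)) ρ := by
      refine Integrable.of_bound (hrm.mul (meas_Ef hW.measf hV.meas hlm)).aestronglyMeasurable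
        (Cb / gf ρ f V) (ae_of_all _ fun w => ?_)
      have e1 : rf ρ f V w * Ef ρ f (fx V w) (fx (fun y => Real.log (f (V y))) w) =
          (∫ y, fx (fun y => Real.log (f (V y))) w y * f (fx V w y) ∂PN ρ N) / gf ρ f V := by
        unfold rf Ef
        have := (hSi.G0 w).ne'
        field_simp
      rw [e1, Real.norm_eq_abs, abs_div, abs_of_pos hg]
      refine div_le_div_of_nonneg_right ?_ hg.le
      have h6 := norm_integral_le_of_norm_le_const (μ := PN ρ N)
        (f := fun y => fx (fun y => Real.log (f (V y))) w y * f (fx V w y)) (C := Cb)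
        (ae_of_all _ fun y => by
          rw [Real.norm_eq_abs]
          exact hCb _ (hV.nonneg _))
      rw [Real.norm_eq_abs] at h6
      refine h6.trans ?_
      simp
    have hlow : ∫ w, (c ^ 3 / (16 * C) * l ^ 2 * (rf ρ f V w * Nt ρ f x N (fx V w) (fq p w)) +
        (rf ρ f V w * Real.log (rf ρ f V w) + Real.log (gf ρ f V) * rf ρ f V w)) ∂ρ ≤
        ∫ w, rf ρ f V w * Ef ρ f (fx V w) (fx (fun y => Real.log (f (V y))) w) ∂ρ := by
      refine integral_mono ((hiN.const_mul _).add (hiR.add (hir.const_mul _))) hiE fun w => ?_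
      have h6 := ih (fx V w) (fq p w) (cls_fx hV w)
      have h7 : Real.log (gf ρ f (fx V w)) =
          Real.log (rf ρ f V w) + Real.log (gf ρ f V) := by
        unfold rf
        rw [Real.log_div (hSi.G0 w).ne' hg.ne']
        ring
      rw [h7] at h6
      have h8 := mul_le_mul_of_nonneg_left h6 (hr0 w).le
      have h9 : Ef ρ f (fx V w) (fun y => Real.log (f (fx V w y))) =
          Ef ρ f (fx V w) (fx (fun y => Real.log (f (V y))) w) := rfl
      rw [h9] at h8
      simp only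
      nlinarith [h8]
    have i4 : Integrable (fun w => c ^ 3 / (16 * C) * l ^ 2 *
        (rf ρ f V w * Nt ρ f x N (fx V w) (fq p w))) ρ := hiN.const_mul _
    have i5 : Integrable (fun w => Real.log (gf ρ f V) * rf ρ f V w) ρ := hir.const_mul _
    have i6 : Integrable (fun w => rf ρ f V w * Real.log (rf ρ f V w) +
        Real.log (gf ρ f V) * rf ρ f V w) ρ := hiR.add i5
    rw [integral_add i4 i6, integral_add hiR i5, integral_const_mul, integral_const_mul, hr1,
      ← hpe] at hlow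
    have hNt : Nt ρ f x (N + 1) V p = pif ρ f x V p ^ 2 +
        ∫ w, rf ρ f V w * Nt ρ f x N (fx V w) (fq p w) ∂ρ := rfl
    rw [hNt]
    nlinarith [hlow, hsite]

end Pool.Agent.W_7d29a1_AM
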