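import Pool.Agent.W_7d29a1_AM.StepX15
import Pool.Agent.W_7d29a1_SW.DefsW

/-!
The main argument at one tilt, every law (helper15).
-/

namespace Pool.Agent.W_7d29a1_AM

open MeasureTheory ProbabilityTheory Filter Topology Pool.Agent.W_MP_7d29a1_pr
  Pool.Agent.W_7d29a1_h46 Pool.Agent.W_7d29a1_h46u Pool.Agent.W_7d29a1_D2.B35
  Pool.Agent.W_7d29a1_Q29 Pool.Agent.W_7d29a1_R34 Pool.Agent.W_7d29a1_SP
  Pool.Agent.W_7d29a1_SW

variable {ρ : Measure ℝ} [IsProbabilityMeasure ρ]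

/-- The fluctuation is larger than every multiple of `(log n) ^ (1/2)`. -/
lemma unbX15 (hρ : EM ρ) {β : ℝ} (hGap : GapQ 2 ρ β) {h : Vec 2} {g Q c : ℝ} (hg : 0 < g)
    (hgap : lam ρ β h + g ≤ Real.log (Phi h) + Real.log (∫ t, Real.exp (β * t) ∂ρ))
    (hQ : 1 ≤ Q) (hc : 0 < c) (hc1 : c ≤ 1) (hvar : ∀ t : ℕ, Va ρ β h t ≤ kap Q c t) (D : ℝ) :
    ∃ n₀ : ℕ, ∀ n : ℕ, n₀ ≤ n → ∀ Φ : ℝ, (∀ i : ℕ, i ≤ n → En ρ β h i ≤ Φ) →
      D * Real.sqrt (Real.log n) ≤ Φ := by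
  obtain ⟨a, C, ha, hC, hgp⟩ := hGap g hg
  have hl : Tendsto (fun n : ℕ => Real.sqrt (Real.log n)) atTop atTop :=
    Real.tendsto_sqrt_atTop.comp (Real.tendsto_log_atTop.comp tendsto_natCast_atTop_atTop)
  -- `a (log N - 2 - log Q - sqrt (log N)) - C ≥ 2 D sqrt (log N)` for large `N`
  obtain ⟨n₀, hn₀⟩ := eventually_atTop.1 (hl.eventually_ge_atTop
    (1 + (2 * |D| + a * (3 + Real.log Q) + C) / a))
  refine ⟨max n₀ 2, fun N hN Φ hΦ => ?_⟩
  obtain ⟨s, hs⟩ : ∃ s, s = Real.sqrt (Real.log (N : ℝ)) := ⟨_, rfl⟩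
  have hs1 := hn₀ N ((le_max_left _ _).trans hN)
  rw [← hs] at hs1 ⊢
  have hN2 : 2 ≤ N := (le_max_right _ _).trans hN
  obtain ⟨n, hn⟩ : ∃ n, n = N / 2 := ⟨_, rfl⟩
  have hn1 : 1 ≤ n := by omega
  have h2n : 2 * n ≤ N := by omega
  have h3n : N ≤ 3 * n := by omega
  have hn0 : (0 : ℝ) < n := by exact_mod_cast hn1
  have hN0 : (0 : ℝ) < N := by
    have : 0 < N := by omega
    exact_mod_cast this
  have hK1 : 1 ≤ kap Q c (2 * n) := one_le_kap15 hQ hc _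
  have h1 := hgp h hgap n hn1 (kap Q c (2 * n)) (by linarith) (hvar _)
  have h2 : 0 < ((Finset.range n).filter fun t => a * Real.log (n / kap Q c (2 * n)) ≤
      C + (A ρ β h (2 * n) - A ρ β h t - A ρ β h (2 * n - t))).card := by
    have : 0 < a * n := by positivity
    have h3 := this.trans_le h1
    exact_mod_cast h3
  obtain ⟨t, ht⟩ := Finset.card_pos.1 h2
  obtain ⟨ht1, ht2⟩ := Finset.mem_filter.1 ht
  rw [Finset.mem_range] at ht1
  have h3 : A ρ β h (2 * n) - A ρ β h t - A ρ β h (2 * n - t) =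
      En ρ β h t + En ρ β h (2 * n - t) - En ρ β h (2 * n) := by
    unfold En
    rw [Nat.cast_sub (by omega)]
    ring
  have h4 := En_nonneg15 (ρ := ρ) (d := 2) (by norm_num) hρ β h (2 * n)
  have h5 := hΦ t (by omega)
  have h6 := hΦ (2 * n - t) (by omega)
  have h7 : Real.log (n / kap Q c (2 * n)) =
      Real.log n - Real.log Q - c * Real.sqrt (Real.log ((2 * n : ℕ) : ℝ)) := by
    rw [Real.log_div hn0.ne' (by linarith)]
    unfold kap
    rw [Real.log_mul (by linarith) (Real.exp_pos _).ne', Real.log_exp]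
    ring
  have h8 : Real.sqrt (Real.log ((2 * n : ℕ) : ℝ)) ≤ s := by
    rw [hs]
    exact Real.sqrt_le_sqrt (log_mono15 h2n)
  have h9 : Real.log N ≤ Real.log n + 2 := by
    have e1 : Real.log (N : ℝ) ≤ Real.log (3 * n) := by
      refine Real.log_le_log hN0 ?_
      exact_mod_cast h3n
    rw [Real.log_mul (by norm_num) hn0.ne'] at e1
    have e2 : Real.log (3 : ℝ) ≤ 2 := by
      have := Real.log_le_sub_one_of_pos (show (0 : ℝ) < 3 by norm_num)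
      linarith
    linarith
  have h10 : Real.log N = s ^ 2 := by
    rw [hs, Real.sq_sqrt (Real.log_natCast_nonneg N)]
  have hs0 : 0 ≤ s := by
    rw [hs]
    exact Real.sqrt_nonneg _
  have h11 : c * Real.sqrt (Real.log ((2 * n : ℕ) : ℝ)) ≤ s := by
    have e1 : c * Real.sqrt (Real.log ((2 * n : ℕ) : ℝ)) ≤
        1 * Real.sqrt (Real.log ((2 * n : ℕ) : ℝ)) :=
      mul_le_mul_of_nonneg_right hc1 (Real.sqrt_nonneg _)
    linarith
  have h12 : s ^ 2 - 2 - Real.log Q - s ≤ Real.log (n / kap Q c (2 * n)) := by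
    rw [h7]
    linarith
  have h13 : a * (s ^ 2 - 2 - Real.log Q - s) ≤ C + 2 * Φ := by
    have := mul_le_mul_of_nonneg_left h12 ha.le
    linarith
  have hlQ : 0 ≤ Real.log Q := Real.log_nonneg hQ
  -- `a s (s - 1) ≥ (2 |D| + a (3 + log Q) + C) s`
  have h14 : 2 * |D| + a * (3 + Real.log Q) + C ≤ a * (s - 1) := by
    have e1 : (2 * |D| + a * (3 + Real.log Q) + C) / a ≤ s - 1 := by linarith
    rw [div_le_iff₀ ha] at e1
    linarith
  have h15 := mul_le_mul_of_nonneg_right h14 hs0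
  have hs2 : 1 ≤ s := by
    have : 0 ≤ (2 * |D| + a * (3 + Real.log Q) + C) / a := by positivity
    linarith
  have h16 : a * (3 + Real.log Q) ≤ a * (3 + Real.log Q) * s :=
    le_mul_of_one_le_right (by positivity) hs2
  have h17 : C ≤ C * s := le_mul_of_one_le_right hC hs2
  have h18 : D * s ≤ |D| * s := mul_le_mul_of_nonneg_right (le_abs_self D) hs0
  have h19 : (2 * |D| + a * (3 + Real.log Q) + C) * s =
      2 * (|D| * s) + a * (3 + Real.log Q) * s + C * s := by ring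
  have h20 : a * (s - 1) * s = a * (s ^ 2 - 2 - Real.log Q - s) + a * (2 + Real.log Q) := by ring
  have h21 : a * (3 + Real.log Q) = a * (2 + Real.log Q) + a := by ring
  linarith

/-- The main argument at one tilt. -/
theorem pointX15 (hρ : EM ρ) {β : ℝ} (hS : SeqP) (hIter : IterP) (hGap : GapQ 2 ρ β)
    {C c₂ : ℝ} (hC : 1 ≤ C) (hc₂ : 0 < c₂) (hc₂1 : c₂ ≤ 1 / 2) :
    ∃ c : ℝ, 0 < c ∧ c ≤ 1 ∧ ∀ (h : Vec 2) (g Q R : ℝ) (N₀ n₁ : ℕ), 0 < g → 1 ≤ Q →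
      1000 ≤ N₀ → lam ρ β h + g ≤ Real.log (Phi h) + Real.log (∫ t, Real.exp (β * t) ∂ρ) →
      GrX ρ β h C (10 ^ 5) → LkX ρ β h c₂ Q c N₀ → (∀ t : ℕ, Va ρ β h t ≤ kap Q c t) →
      (∀ n : ℕ, En ρ β h n ≤ R * (n : ℝ) ^ (49 / 100 : ℝ)) →
      (∀ n k : ℕ, n₁ ≤ n → k ≤ n → En ρ β h k ≤ Real.exp (5 * c * Real.sqrt (Real.log n))) →
      False := by
  have hCa : 1 ≤ CaX C c₂ := by
    unfold CaX
    have h1 : 0 ≤ C * 130 * (8 : ℝ) ^ C := by positivity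
    have h2 : 0 ≤ C * 64 * (2 / c₂) ^ C := by positivity
    linarith
  obtain ⟨c, hc, hc1, hit⟩ := hIter (CaX C c₂) (3 * C) hCa (by linarith)
  refine ⟨c, hc, hc1, fun h g Q R N₀ n₁ hg hQ hN₀ hgap hG hL hvar hrate hn₁ => ?_⟩
  obtain ⟨Cs, hCs⟩ := stepX15 hρ hS hC hc₂ hc₂1 hG hN₀ hL hQ hc hc1 hvar hrate
  choose j hj hmax using exmax15 ρ β h
  obtain ⟨f, hf⟩ : ∃ f : ℕ → ℝ, f = fun n => max (En ρ β h (j n)) (Fn ρ β h (j n)) := ⟨_, rfl⟩
  have hfE : ∀ n i : ℕ, i ≤ n → En ρ β h i ≤ f n := fun n i hi => by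
    rw [hf]
    exact (hmax n i hi).1
  have hfF : ∀ n i : ℕ, i ≤ n → Fn ρ β h i ≤ f n := fun n i hi => by
    rw [hf]
    exact (hmax n i hi).2
  obtain ⟨n₂, hn₂⟩ := unbX15 hρ hGap hg hgap hQ hc hc1 hvar (10 ^ 6 * C)
  have hl : Tendsto (fun n : ℕ => Real.sqrt (Real.log n)) atTop atTop :=
    Real.tendsto_sqrt_atTop.comp (Real.tendsto_log_atTop.comp tendsto_natCast_atTop_atTop)
  obtain ⟨n₃, hn₃⟩ := eventually_atTop.1
    (hl.eventually_ge_atTop (Real.log Q / (9 * c) + (|Cs| + 1)))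
  have hlQ : 0 ≤ Real.log Q / (9 * c) := by
    have := Real.log_nonneg hQ
    positivity
  have hfl : ∀ n : ℕ, max n₂ n₃ ≤ n → |Cs| + 1 ≤ f n := by
    intro n hn
    have h1 := hn₂ n (by omega) (f n) (hfE n)
    have h2 := hn₃ n (by omega)
    have h3 : 0 ≤ |Cs| := abs_nonneg _
    have h4 : Real.sqrt (Real.log n) ≤ 10 ^ 6 * C * Real.sqrt (Real.log n) :=
      le_mul_of_one_le_left (Real.sqrt_nonneg _) (by linarith)
    linarith
  refine hit Q f (max (max n₁ n₂) (max n₃ 1)) hQ (fun n hn => ?_) (fun n hn => ?_)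
    (fun n hn => ?_)
  · have h1 := hfl n (by omega)
    have h3 : 0 ≤ |Cs| := abs_nonneg _
    linarith
  · rw [hf]
    refine max_le (hn₁ n (j n) (by omega) (hj n)) ?_
    have h1 := Fn_sq15 (ρ := ρ) (d := 2) (by norm_num) hρ β h (j n)
    have h2 : Va ρ β h (j n) ≤ kap Q c n := (hvar _).trans (kap_mono15 hQ hc (hj n))
    have h3 : Real.log Q / (9 * c) ≤ Real.sqrt (Real.log n) := by
      have h4 := hn₃ n (by omega)
      have h5 : 0 ≤ |Cs| := abs_nonneg _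
      linarith
    have h4 : kap Q c n ≤ Real.exp (5 * c * Real.sqrt (Real.log n)) ^ 2 := by
      unfold kap
      have h5 : Q = Real.exp (Real.log Q) := (Real.exp_log (by linarith)).symm
      rw [← Real.exp_nat_mul, h5, ← Real.exp_add, Real.exp_le_exp]
      rw [div_le_iff₀ (by positivity)] at h3
      push_cast
      linarith
    exact (pow_le_pow_iff_left₀ (Fn_nonneg15 β h _) (Real.exp_pos _).le two_ne_zero).1
      ((h1.trans h2).trans h4)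
  · have h0 := hfl n (by omega)
    have h00 := hn₂ n (by omega) (f n) (hfE n)
    obtain ⟨T, i, hT, hi, h1, h2⟩ := hCs n (j n) (f n) (by omega) (hj n)
      (by
        have := le_abs_self Cs
        linarith) h00 (by
        rw [hf]
        rcases max_choice (En ρ β h (j n)) (Fn ρ β h (j n)) with h3 | h3
        · exact Or.inl h3.symm
        · exact Or.inr h3.symm)
    refine ⟨T, hT, ?_, ?_⟩
    · rcases h1 with h1 | h1
      · exact h1.trans (hfE T i hi)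
      · exact h1.trans (hfF T i hi)
    · have h3 := h2 (f T) fun i hi => ⟨hfE T i hi, hfF T i hi⟩
      have h4 : kap Q c (128 * T) = Q * Real.exp (c * Real.sqrt (Real.log (128 * T))) := by
        unfold kap
        push_cast
        rfl
      rwa [h4] at h3

/-- POINT of theorem G, every law. -/
theorem pointU15 (hρ : EM ρ) {β : ℝ} (hS : SeqP) (hG : GrowU 2 ρ β) (hL : LkP ρ β)
    (hBeta : BetaP ρ β) (hLoc : LocE 2 ρ β) (hIter : IterP) (hGap : GapQ 2 ρ β) :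
    PointP ρ β := by
  intro g M hg hM
  obtain ⟨c₀, hc₀, hLoc'⟩ := hLoc g hg
  obtain ⟨c₂, hc₂, hc₂1, hL'⟩ := hL g M hg hM
  obtain ⟨C, hC, hG'⟩ := hG c₀ (10 ^ 5) hc₀ (by norm_num)
  obtain ⟨c, hc, hc1, hX⟩ := pointX15 hρ hS hIter hGap hC hc₂ hc₂1
  refine ⟨c, hc, fun h δ Q₀ R hδ hP₀ => ?_⟩
  obtain ⟨Q, hQdef⟩ : ∃ Q, Q = max Q₀ 1 := ⟨_, rfl⟩
  have hQ : 1 ≤ Q := by
    rw [hQdef]
    exact le_max_right _ _
  have hP : Pt ρ β h g M δ Q c R := pt_mono15 (by rw [hQdef]; exact le_max_left _ _) hP₀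
  obtain ⟨N₀, hN₀, hLK⟩ := hL' h δ Q c R hδ hQ hc hc1 hP
  obtain ⟨n₁, hn₁⟩ := hBeta g M hg hM h δ Q c R hδ hQ hc hc1 hP
  exact hX h g Q R N₀ n₁ hg hQ hN₀ hP.gap (hG' h (hLoc' h hP.gap)) hLK hP.var hP.rate hn₁

/-- POINT of theorem W0, every law. -/
theorem pointGU15 (hρ : EM ρ) {β : ℝ} (hS : SeqP) (hG : GrowU 2 ρ β) (hL : LkG ρ β)
    (hBeta : BetaG ρ β) (hLoc : LocE 2 ρ β) (hIter : IterP) (hGap : GapQ 2 ρ β) :
    PointG ρ β := by
  intro g hg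
  obtain ⟨c₀, hc₀, hLoc'⟩ := hLoc g hg
  obtain ⟨c₂, hc₂, hc₂1, hL'⟩ := hL
  obtain ⟨C, hC, hG'⟩ := hG c₀ (10 ^ 5) hc₀ (by norm_num)
  obtain ⟨c, hc, hc1, hX⟩ := pointX15 hρ hS hIter hGap hC hc₂ hc₂1
  refine ⟨c, hc, hc1, fun h v Q R hQ hP => ?_⟩
  obtain ⟨n₁, hn₁⟩ := hBeta h v g Q c R hQ hc hc1 hP
  exact hX h g Q R 1000 n₁ hg hQ le_rfl hP.gap (hG' h (hLoc' h hP.gap))
    (fun N L e S hN he h1 h2 h3 h4 h5 => hL' h v g Q c R hQ hc hc1 hP N L e S hN he h1 h2 h3 h4 h5)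
    hP.var hP.rate hn₁

end Pool.Agent.W_7d29a1_AM
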