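import Pool.Agent.W_7d29a1_AM.GrowU15
import Pool.Agent.W_7d29a1_SP.Point15

/-!
Doubling of the fluctuation at one tilt, every law (helper15).
-/

namespace Pool.Agent.W_7d29a1_AM

open MeasureTheory ProbabilityTheory Filter Topology Pool.Agent.W_MP_7d29a1_pr
  Pool.Agent.W_7d29a1_h46 Pool.Agent.W_7d29a1_h46u Pool.Agent.W_7d29a1_D2.B35
  Pool.Agent.W_7d29a1_Q29 Pool.Agent.W_7d29a1_R34 Pool.Agent.W_7d29a1_SP

variable {ρ : Measure ℝ} [IsProbabilityMeasure ρ]

/-- The luck at one tilt. -/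
def LkX (ρ : Measure ℝ) (β : ℝ) (h : Vec 2) (c₂ Q c : ℝ) (N₀ : ℕ) : Prop :=
  ∀ (N L : ℕ) (e : ℝ) (S : Finset ℕ), N₀ ≤ N → 240 ≤ e →
    (∀ t : ℕ, t ≤ N → En ρ β h t ≤ 2 * e) → (∃ t : ℕ, t ≤ N ∧ e ≤ En ρ β h t) →
    (∀ k : ℕ, k ≤ 2 * N → Fn ρ β h k ≤ e / 1280) → (N : ℝ) / 200 ≤ S.card →
    (∀ t ∈ S, t ≤ L ∧ (N : ℝ) / 1000 ≤ t ∧ t ≤ N ∧ (N : ℝ) / 1000 ≤ (L - t : ℕ) ∧ L - t ≤ N ∧
      e / 20 ≤ En ρ β h t + En ρ β h (L - t) - En ρ β h L) →
    ∃ m : ℕ, 1 ≤ m ∧ m ≤ N ∧ c₂ / (kap Q c (2 * N) * (kap Q c (2 * N) ^ 2 + e)) ≤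
      (law 2 ρ).real {η | A ρ β h m + e / 80 < X β h η m}

/-- The constants of GROW at one tilt. -/
def GrX (ρ : Measure ℝ) (β : ℝ) (h : Vec 2) (C D : ℝ) : Prop :=
  ∀ (m T : ℕ) (s₀ s₁ q Φ : ℝ), 1 ≤ m → 0 < q →
    q ≤ 1 / 2 → C * (1 + Real.log (1 / q)) ≤ s₁ - s₀ → Va ρ β h m ≤ (s₁ - s₀) ^ 2 / q →
    A ρ β h m ≤ s₁ → q ≤ (law 2 ρ).real {η | X β h η m ≤ s₀} →
    q ≤ (law 2 ρ).real {η | s₁ < X β h η m} → C * m * (1 / q) ^ C ≤ T →
    (∀ k : ℕ, k ≤ T → En ρ β h k ≤ Φ ∧ Fn ρ β h k ≤ Φ) → D * (s₁ - s₀) ≤ Φ + 1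

/-- The constant of STEP. -/
noncomputable def CaX (C c₂ : ℝ) : ℝ :=
  130 + 2 + C * 130 * 8 ^ C + (64 + 2 + C * 64 * (2 / c₂) ^ C)

/-- The logarithm of `kap`. -/
lemma log_kapX {Q c : ℝ} (hQ : 1 ≤ Q) (hc : 0 < c) (hc1 : c ≤ 1) {n N : ℕ} (hn : 1 ≤ n)
    (hN : N ≤ 128 * n) : Real.log (kap Q c N) ≤ Real.log Q + 3 + Real.sqrt (Real.log n) := by
  unfold kap
  rw [Real.log_mul (by linarith) (Real.exp_pos _).ne', Real.log_exp]
  have hn0 : (0 : ℝ) < n := by exact_mod_cast hn
  have h1 : Real.log (N : ℝ) ≤ Real.log n + 9 := by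
    have h2 : Real.log (N : ℝ) ≤ Real.log ((128 * n : ℕ) : ℝ) := log_mono15 hN
    have h3 : Real.log ((128 * n : ℕ) : ℝ) = Real.log 128 + Real.log n := by
      push_cast
      rw [Real.log_mul (by norm_num) hn0.ne']
    have h4 : Real.log (128 : ℝ) ≤ 9 := by
      have h5 : (128 : ℝ) = 2 ^ (7 : ℕ) := by norm_num
      rw [h5, Real.log_pow]
      have := Real.log_two_lt_d9
      push_cast
      linarith
    linarith
  have hl0 : 0 ≤ Real.log (n : ℝ) := Real.log_natCast_nonneg n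
  have h6 : Real.sqrt (Real.log (N : ℝ)) ≤ Real.sqrt (Real.log n) + 3 := by
    refine (Real.sqrt_le_sqrt h1).trans ?_
    rw [Real.sqrt_le_left (by positivity)]
    have h7 := Real.sq_sqrt hl0
    have h8 := Real.sqrt_nonneg (Real.log (n : ℝ))
    nlinarith
  have h9 : 0 ≤ Real.sqrt (Real.log (N : ℝ)) := Real.sqrt_nonneg _
  have h10 : c * Real.sqrt (Real.log (N : ℝ)) ≤ Real.sqrt (Real.log (N : ℝ)) := by
    have := mul_le_mul_of_nonneg_right hc1 h9
    linarith
  linarith

/-- Doubling of the fluctuation at one tilt. -/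
theorem stepX15 (hρ : EM ρ) {β : ℝ} (hS : SeqP) {h : Vec 2} {C c₂ Q c R : ℝ} {N₀ : ℕ}
    (hC : 1 ≤ C) (hc₂ : 0 < c₂) (hc₂1 : c₂ ≤ 1 / 2) (hG' : GrX ρ β h C (10 ^ 5))
    (hN₀ : 1000 ≤ N₀) (hLK : LkX ρ β h c₂ Q c N₀) (hQ : 1 ≤ Q) (hc : 0 < c) (hc1 : c ≤ 1)
    (hvar : ∀ t : ℕ, Va ρ β h t ≤ kap Q c t)
    (hrate : ∀ n : ℕ, En ρ β h n ≤ R * (n : ℝ) ^ (49 / 100 : ℝ)) :
    ∃ Cs : ℝ, ∀ (n k : ℕ) (Ψ : ℝ), 1 ≤ n → k ≤ n → Cs ≤ Ψ →
      10 ^ 6 * C * Real.sqrt (Real.log n) ≤ Ψ →
      (En ρ β h k = Ψ ∨ Fn ρ β h k = Ψ) → ∃ (T j : ℕ), n ≤ T ∧ j ≤ T ∧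
        (2 * Ψ ≤ En ρ β h j ∨ 2 * Ψ ≤ Fn ρ β h j) ∧
        ∀ Φ : ℝ, (∀ i : ℕ, i ≤ T → En ρ β h i ≤ Φ ∧ Fn ρ β h i ≤ Φ) →
          (T : ℝ) ≤ CaX C c₂ * n * (kap Q c (128 * T) * Φ) ^ (3 * C) := by
  unfold CaX
  have hC0 : 0 < C := by linarith
  have hlQ : 0 ≤ Real.log Q := Real.log_nonneg hQ
  have hlc : 0 ≤ Real.log (1 / c₂) := Real.log_nonneg (by
    rw [le_div_iff₀ hc₂]
    linarith)
  refine ⟨5120 + 2 * (|R| * N₀) + 10 ^ 6 * C * (30 + Real.log Q + Real.log (1 / c₂)) +
      10 ^ 8 * C ^ 2, fun n k Ψ hn hk hΨ' hΨl hEF => ?_⟩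
  have hCs0 : 0 ≤ 10 ^ 6 * C * (30 + Real.log Q + Real.log (1 / c₂)) := by positivity
  have hCs2 : 0 ≤ 10 ^ 8 * C ^ 2 := by positivity
  have hΨ : 5120 + 2 * (|R| * N₀) ≤ Ψ := by linarith
  have hsl : 0 ≤ Real.sqrt (Real.log n) := Real.sqrt_nonneg _
  have hRN : 0 ≤ |R| * (N₀ : ℝ) := by positivity
  have hΨ1 : (5120 : ℝ) ≤ Ψ := by linarith
  have hn1 : (1 : ℝ) ≤ n := by exact_mod_cast hn
  have hA1 : 0 ≤ C * 130 * (8 : ℝ) ^ C := by positivity
  have hA2 : 0 ≤ C * 64 * (2 / c₂) ^ C := by positivity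
  by_cases hF : ∃ m : ℕ, m ≤ 128 * n ∧ Ψ / 5120 ≤ Fn ρ β h m
  · -- the random fluctuation
    obtain ⟨m, hm, hFm⟩ := hF
    have hF1 : 1 ≤ Fn ρ β h m := by linarith
    have hF0 : 0 < Fn ρ β h m := by linarith
    have hm1 : 1 ≤ m := by
      rcases Nat.eq_zero_or_pos m with h0 | h0
      · rw [h0, Fn_zero15] at hF0
        exact absurd hF0 (lt_irrefl _)
      · exact h0
    obtain ⟨K, hK⟩ : ∃ K, K = kap Q c (128 * n) := ⟨_, rfl⟩
    have hK1 : 1 ≤ K := by
      rw [hK]
      exact one_le_kap15 hQ hc _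
    have hV : Va ρ β h m ≤ K := by
      rw [hK]
      exact (hvar m).trans (kap_mono15 hQ hc hm)
    have hup := up15 (ρ := ρ) (d := 2) (by norm_num) hρ β h m hF0
    have hlo := low15 (ρ := ρ) (d := 2) (by norm_num) hρ β h m hF0
    obtain ⟨pu, hpu⟩ : ∃ p, p = (law 2 ρ).real
      {η | A ρ β h m + Fn ρ β h m / 8 < X β h η m} := ⟨_, rfl⟩
    obtain ⟨pl, hpl⟩ : ∃ p, p = (law 2 ρ).real
      {η | X β h η m ≤ A ρ β h m - Fn ρ β h m / 8} := ⟨_, rfl⟩
    rw [← hpu] at hup
    rw [← hpl] at hlo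
    have hpu0 : 0 ≤ pu := by
      rw [hpu]
      exact measureReal_nonneg
    have hpl0 : 0 ≤ pl := by
      rw [hpl]
      exact measureReal_nonneg
    have hF2 : 1 ≤ Fn ρ β h m ^ 2 := one_le_pow₀ hF1
    have hq1 : 1 / (8 * K) ≤ pu := by
      rw [div_le_iff₀ (by linarith)]
      have e1 := mul_le_mul_of_nonneg_right hV hpu0
      have e2 : pu * (8 * K) = 8 * (K * pu) := by ring
      linarith
    have hq2 : 1 / (8 * K) ≤ pl := by
      rw [div_le_iff₀ (by linarith)]
      have e1 := mul_le_mul_of_nonneg_right hV hpl0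
      have e2 : pl * (8 * K) = 8 * (K * pl) := by ring
      linarith
    obtain ⟨T, hT⟩ : ∃ T, T = max (130 * n + n) ⌈C * m * (8 * K) ^ C⌉₊ := ⟨_, rfl⟩
    have hT1 : 130 * n + n ≤ T := by
      rw [hT]
      exact le_max_left _ _
    have hT2 : C * m * (8 * K) ^ C ≤ T := by
      rw [hT]
      exact (Nat.le_ceil _).trans (by exact_mod_cast le_max_right _ _)
    obtain ⟨j, hj, hmax⟩ := exmax15 ρ β h T
    have hlK : Real.log K ≤ Real.log Q + 3 + Real.sqrt (Real.log n) := by
      rw [hK]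
      exact log_kapX hQ hc hc1 hn le_rfl
    have hl8 : Real.log (1 / (1 / (8 * K))) ≤ Real.log Q + 12 + Real.sqrt (Real.log n) := by
      rw [one_div_one_div, Real.log_mul (by norm_num) (by linarith)]
      have h5 : (8 : ℝ) = 2 ^ (3 : ℕ) := by norm_num
      rw [h5, Real.log_pow]
      have := Real.log_two_lt_d9
      push_cast
      linarith
    have hbig : C * (1 + Real.log (1 / (1 / (8 * K)))) ≤ Fn ρ β h m / 4 := by
      have e1 : C * (1 + Real.log (1 / (1 / (8 * K)))) ≤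
          C * (13 + Real.log Q + Real.sqrt (Real.log n)) :=
        mul_le_mul_of_nonneg_left (by linarith) hC0.le
      have e2 : 10 ^ 6 * C * (30 + Real.log Q) ≤ Ψ := by
        have : 10 ^ 6 * C * (30 + Real.log Q) ≤
            10 ^ 6 * C * (30 + Real.log Q + Real.log (1 / c₂)) :=
          mul_le_mul_of_nonneg_left (by linarith) (by positivity)
        have h7 : 0 ≤ |R| * (N₀ : ℝ) := by positivity
        linarith
      have e3 : C * (13 + Real.log Q + Real.sqrt (Real.log n)) =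
          C * (13 + Real.log Q) + C * Real.sqrt (Real.log n) := by ring
      have e4 : C * (13 + Real.log Q) ≤ Ψ / 10 ^ 6 := by
        rw [le_div_iff₀ (by norm_num)]
        have : C * (13 + Real.log Q) ≤ C * (30 + Real.log Q) :=
          mul_le_mul_of_nonneg_left (by linarith) hC0.le
        linarith
      have e5 : C * Real.sqrt (Real.log n) ≤ Ψ / 10 ^ 6 := by
        rw [le_div_iff₀ (by norm_num)]
        linarith
      linarith
    have hVq : Va ρ β h m ≤ (A ρ β h m + Fn ρ β h m / 8 - (A ρ β h m - Fn ρ β h m / 8)) ^ 2 /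
        (1 / (8 * K)) := by
      have e1 : (A ρ β h m + Fn ρ β h m / 8 - (A ρ β h m - Fn ρ β h m / 8)) ^ 2 /
          (1 / (8 * K)) = Fn ρ β h m ^ 2 * K / 2 := by
        have : K ≠ 0 := by linarith
        field_simp
        ring
      rw [e1]
      have e2 : 4 ≤ Fn ρ β h m := by
        have : C * (1 + Real.log (1 / (1 / (8 * K)))) ≥ 1 := by
          have h9 : 0 ≤ Real.log (1 / (1 / (8 * K))) := Real.log_nonneg (by
            rw [one_div_one_div]
            linarith)
          exact one_le_mul_of_one_le_of_one_le hC (by linarith)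
        linarith
      have e3 : 2 ≤ Fn ρ β h m ^ 2 := by
        have := pow_le_pow_left₀ (by norm_num) e2 2
        linarith
      have e4 : 2 * K ≤ Fn ρ β h m ^ 2 * K := mul_le_mul_of_nonneg_right e3 (by linarith)
      linarith
    have hgr := hG' m T (A ρ β h m - Fn ρ β h m / 8) (A ρ β h m + Fn ρ β h m / 8)
      (1 / (8 * K)) (max (En ρ β h j) (Fn ρ β h j)) hm1 (by positivity)
      (by
        rw [div_le_iff₀ (by linarith)]
        linarith) (by linarith) hVq (by linarith) (by rw [← hpl]; exact hq2)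
      (by rw [← hpu]; exact hq1) (by rw [one_div_one_div]; exact hT2) hmax
    refine ⟨T, j, by omega, hj, ?_, fun Φ hΦ => ?_⟩
    · rw [← le_max_iff]
      linarith
    · have hmT : m ≤ T := by omega
      have hΦ1 : 1 ≤ Φ := hF1.trans (hΦ m hmT).2
      have hkT : K ≤ kap Q c (128 * T) := by
        rw [hK]
        exact kap_mono15 hQ hc (by omega)
      obtain ⟨κ, hκ⟩ : ∃ κ, κ = kap Q c (128 * T) := ⟨_, rfl⟩
      rw [← hκ] at hkT ⊢
      have hy : K ≤ κ * Φ := hkT.trans (le_mul_of_one_le_right (by linarith) hΦ1)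
      have hy1 : 1 ≤ κ * Φ := by linarith
      have hy3 : κ * Φ ≤ (κ * Φ) ^ (3 : ℝ) := by
        have := Real.rpow_le_rpow_of_exponent_le hy1 (show (1 : ℝ) ≤ 3 by norm_num)
        rwa [Real.rpow_one] at this
      have ht := time15 (C := C) (a := 8) (y := κ * Φ) (b := 130) hC (by norm_num) hy1 hn
        (show m ≤ 130 * n by omega) (x := 8 * K) (by linarith) (by linarith)
      rw [← hT] at ht
      refine ht.trans ?_
      push_cast
      have h3 : 0 ≤ (n : ℝ) * (κ * Φ) ^ (3 * C) := by positivity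
      rw [mul_assoc, mul_assoc _ (n : ℝ)]
      refine mul_le_mul_of_nonneg_right ?_ h3
      linarith
  · -- the nonrandom fluctuation
    push Not at hF
    have hE : En ρ β h k = Ψ := by
      rcases hEF with h1 | h1
      · exact h1
      · have := hF k (by omega)
        rw [h1] at this
        linarith
    obtain ⟨N, e, hN, he, hN2, ⟨t, htN, het⟩, hEk, hNE, hgood⟩ := hS (fun i => En ρ β h i) R
      (En_zero15 β h) (En_nonneg15 (by norm_num) hρ β h) (En_add15 (by norm_num) hρ β h) hrate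
      n k hk (by
        show 0 < En ρ β h k
        rw [hE]
        linarith)
    beta_reduce at hN2 het hEk hNE hgood
    rw [hE] at hEk hNE
    have hN1 : (1 : ℝ) ≤ N := by exact_mod_cast hN
    by_cases hNn : 64 * n < N
    · -- a large scale
      have h1 : (64 : ℝ) * n ≤ N := by exact_mod_cast hNn.le
      have h2 : 64 * n * Ψ ^ 2 ≤ n * (2 * e) ^ 2 :=
        (mul_le_mul_of_nonneg_right h1 (sq_nonneg _)).trans hNE
      have h3 : (4 * Ψ) ^ 2 ≤ e ^ 2 := by
        have h4 : (n : ℝ) * (64 * Ψ ^ 2) ≤ n * (4 * e ^ 2) := by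
          have e1 : (n : ℝ) * (64 * Ψ ^ 2) = 64 * n * Ψ ^ 2 := by ring
          have e2 : (n : ℝ) * (4 * e ^ 2) = n * (2 * e) ^ 2 := by ring
          rw [e1, e2]
          exact h2
        have h5 := le_of_mul_le_mul_left h4 (by linarith)
        have e3 : (4 * Ψ) ^ 2 = 16 * Ψ ^ 2 := by ring
        linarith
      have h4 : 4 * Ψ ≤ e :=
        (pow_le_pow_iff_left₀ (by linarith) he.le two_ne_zero).1 h3
      refine ⟨N, t, by omega, htN, Or.inl (by linarith), fun Φ hΦ => ?_⟩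
      have heΦ : e ≤ Φ := het.trans (hΦ t htN).1
      have hΦ1 : 1 ≤ Φ := by linarith
      have hκ1 : 1 ≤ kap Q c (128 * N) := one_le_kap15 hQ hc _
      obtain ⟨κ, hκ⟩ : ∃ κ, κ = kap Q c (128 * N) := ⟨_, rfl⟩
      rw [← hκ] at hκ1 ⊢
      have hy : Φ ≤ κ * Φ := le_mul_of_one_le_left (by linarith) hκ1
      have hy1 : 1 ≤ κ * Φ := by linarith
      have hy2 : (κ * Φ) ^ (2 : ℕ) ≤ (κ * Φ) ^ (3 * C) := by
        rw [← Real.rpow_natCast]
        refine Real.rpow_le_rpow_of_exponent_le hy1 ?_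
        push_cast
        linarith
      have h5 : (N : ℝ) ≤ N * Ψ ^ 2 := by
        exact le_mul_of_one_le_right (by linarith) (one_le_pow₀ (by linarith))
      have h6 : (2 * e) ^ 2 ≤ 4 * (κ * Φ) ^ 2 := by
        have h8 : e ^ 2 ≤ (κ * Φ) ^ 2 := pow_le_pow_left₀ he.le (by linarith) 2
        have h9 : (2 * e) ^ 2 = 4 * e ^ 2 := by ring
        linarith
      have h7 : (N : ℝ) ≤ n * (4 * (κ * Φ) ^ (3 * C)) := by
        refine (h5.trans hNE).trans (mul_le_mul_of_nonneg_left ?_ (by linarith))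
        exact h6.trans (by linarith)
      refine h7.trans ?_
      have h3 : 0 ≤ (n : ℝ) * (κ * Φ) ^ (3 * C) := by positivity
      rw [mul_left_comm, mul_assoc]
      refine mul_le_mul_of_nonneg_right ?_ h3
      linarith
    · -- the luck
      rw [not_lt] at hNn
      have he2 : Ψ / 2 ≤ e := by linarith
      have hNN : N₀ ≤ N := by
        by_contra hcon
        rw [not_le] at hcon
        have h1 := hrate t
        have ht0 : 1 ≤ t := by
          rcases Nat.eq_zero_or_pos t with h0 | h0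
          · rw [h0, En_zero15] at het
            linarith
          · exact h0
        have h2 : (t : ℝ) ^ (49 / 100 : ℝ) ≤ N₀ := by
          have h3 : (1 : ℝ) ≤ t := by exact_mod_cast ht0
          have h4 : (t : ℝ) ^ (49 / 100 : ℝ) ≤ (t : ℝ) ^ (1 : ℝ) :=
            Real.rpow_le_rpow_of_exponent_le h3 (by norm_num)
          rw [Real.rpow_one] at h4
          refine h4.trans ?_
          exact_mod_cast (htN.trans hcon.le)
        have h3 : R * (t : ℝ) ^ (49 / 100 : ℝ) ≤ |R| * N₀ :=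
          mul_le_mul (le_abs_self R) h2 (by positivity) (abs_nonneg R)
        linarith
      obtain ⟨L, S, hcard, hSt⟩ := hgood (by omega)
      obtain ⟨m, hm1, hmN, hluck⟩ := hLK N L e S hNN (by linarith) hN2 ⟨t, htN, het⟩
        (fun i hi => by
          have := hF i (by omega)
          linarith) hcard hSt
      obtain ⟨K, hK⟩ : ∃ K, K = kap Q c (2 * N) := ⟨_, rfl⟩
      have hK1 : 1 ≤ K := by
        rw [hK]
        exact one_le_kap15 hQ hc _
      rw [← hK] at hluck
      have he1 : 1 ≤ e := by linarith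
      have hKe1 : 1 ≤ K * (K ^ 2 + e) :=
        one_le_mul_of_one_le_of_one_le hK1 (by
          have := sq_nonneg K
          linarith)
      have hKe0 : 0 < K * (K ^ 2 + e) := by linarith
      have hmk := mk15 (ρ := ρ) (d := 2) (by norm_num) hρ β h m (s := e / 320) (by positivity)
        (by
          have := hF m (by omega)
          linarith)
      have hq0 : 0 < c₂ / (K * (K ^ 2 + e)) := by positivity
      have hq1 : c₂ / (K * (K ^ 2 + e)) ≤ 1 / 2 := by
        rw [div_le_iff₀ hKe0]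
        linarith
      obtain ⟨T, hT⟩ : ∃ T, T = max (64 * n + n)
        ⌈C * m * ((K * (K ^ 2 + e)) / c₂) ^ C⌉₊ := ⟨_, rfl⟩
      have hT1 : 64 * n + n ≤ T := by
        rw [hT]
        exact le_max_left _ _
      have hT2 : C * m * ((K * (K ^ 2 + e)) / c₂) ^ C ≤ T := by
        rw [hT]
        exact (Nat.le_ceil _).trans (by exact_mod_cast le_max_right _ _)
      obtain ⟨j, hj, hmax⟩ := exmax15 ρ β h T
      have hlK : Real.log K ≤ Real.log Q + 3 + Real.sqrt (Real.log n) := by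
        rw [hK]
        exact log_kapX hQ hc hc1 hn (by omega)
      have hK2 : 1 ≤ K ^ 2 := one_le_pow₀ hK1
      have hKe2 : K * (K ^ 2 + e) ≤ 2 * (K ^ 3 * e) := by
        have e1 : K ^ 2 * 1 ≤ K ^ 2 * e := mul_le_mul_of_nonneg_left he1 (by linarith)
        have e2 : 1 * e ≤ K ^ 2 * e := mul_le_mul_of_nonneg_right hK2 he.le
        have e3 := mul_le_mul_of_nonneg_left (show K ^ 2 + e ≤ 2 * (K ^ 2 * e) by linarith)
          (show 0 ≤ K by linarith)
        have e4 : K * (2 * (K ^ 2 * e)) = 2 * (K ^ 3 * e) := by ring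
        linarith
      have hlq : Real.log (1 / (c₂ / (K * (K ^ 2 + e)))) ≤
          Real.log (1 / c₂) + 1 + 3 * Real.log K + Real.log e := by
        rw [one_div_div, div_eq_mul_one_div, Real.log_mul hKe0.ne' (by positivity)]
        have e1 : Real.log (K * (K ^ 2 + e)) ≤ Real.log (2 * (K ^ 3 * e)) :=
          Real.log_le_log hKe0 hKe2
        have hK3 : K ^ 3 ≠ 0 := pow_ne_zero 3 (by linarith)
        have e2 : Real.log (2 * (K ^ 3 * e)) = Real.log 2 + (3 * Real.log K + Real.log e) := by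
          rw [Real.log_mul two_ne_zero (mul_ne_zero hK3 he.ne'), Real.log_mul hK3 he.ne',
            Real.log_pow]
          norm_num
        have := Real.log_two_lt_d9
        rw [e2] at e1
        linarith
      have hle : C * Real.log e ≤ e / 1000 := by
        -- log e ≤ 2 sqrt e, and `e` is at least `10 ^ 7 * C ^ 2`
        have e1 : Real.log e ≤ 2 * Real.sqrt e := by
          have h5 := Real.log_le_sub_one_of_pos (Real.sqrt_pos.2 he)
          rw [Real.log_sqrt he.le] at h5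
          linarith
        have e2 : 5 * 10 ^ 7 * C ^ 2 ≤ e := by linarith
        have e3 : 5000 * C ≤ Real.sqrt e := by
          refine Real.le_sqrt_of_sq_le ?_
          have h5 : (5000 * C) ^ 2 = 25 * 10 ^ 6 * C ^ 2 := by ring
          have h6 := sq_nonneg C
          rw [h5]
          linarith
        have e4 := Real.mul_self_sqrt he.le
        have e5 := Real.sqrt_nonneg e
        have e6 : C * Real.log e ≤ C * (2 * Real.sqrt e) := mul_le_mul_of_nonneg_left e1 hC0.le
        have e7 := mul_le_mul_of_nonneg_right e3 e5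
        linarith
      have hbig : C * (1 + Real.log (1 / (c₂ / (K * (K ^ 2 + e))))) ≤
          A ρ β h m + e / 80 - (A ρ β h m + e / 320) := by
        have e1 : C * (1 + Real.log (1 / (c₂ / (K * (K ^ 2 + e))))) ≤
            C * (11 + 3 * Real.log Q + Real.log (1 / c₂) + 3 * Real.sqrt (Real.log n) +
              Real.log e) :=
          mul_le_mul_of_nonneg_left (by linarith) hC0.le
        have e3 : C * (11 + 3 * Real.log Q + Real.log (1 / c₂) + 3 * Real.sqrt (Real.log n) +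
            Real.log e) = C * (11 + 3 * Real.log Q + Real.log (1 / c₂)) +
            3 * (C * Real.sqrt (Real.log n)) + C * Real.log e := by ring
        have e4 : C * (11 + 3 * Real.log Q + Real.log (1 / c₂)) ≤ 3 * (Ψ / 10 ^ 6) := by
          have h5 : C * (11 + 3 * Real.log Q + Real.log (1 / c₂)) ≤
              3 * (C * (30 + Real.log Q + Real.log (1 / c₂))) := by
            have : C * (11 + 3 * Real.log Q + Real.log (1 / c₂)) ≤
                C * (3 * (30 + Real.log Q + Real.log (1 / c₂))) :=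
              mul_le_mul_of_nonneg_left (by linarith) hC0.le
            linarith
          have h7 : 0 ≤ |R| * (N₀ : ℝ) := by positivity
          have h8 : C * (30 + Real.log Q + Real.log (1 / c₂)) ≤ Ψ / 10 ^ 6 := by
            rw [le_div_iff₀ (by norm_num)]
            linarith
          linarith
        have e5 : C * Real.sqrt (Real.log n) ≤ Ψ / 10 ^ 6 := by
          rw [le_div_iff₀ (by norm_num)]
          linarith
        linarith
      have hVq : Va ρ β h m ≤ (A ρ β h m + e / 80 - (A ρ β h m + e / 320)) ^ 2 /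
          (c₂ / (K * (K ^ 2 + e))) := by
        have hVm : Va ρ β h m ≤ K := by
          rw [hK]
          exact (hvar m).trans (kap_mono15 hQ hc (by omega))
        have e1 : A ρ β h m + e / 80 - (A ρ β h m + e / 320) = 3 * e / 320 := by ring
        have e2 : 1 ≤ (3 * e / 320) ^ 2 := one_le_pow₀ (by
          have h7 : 0 ≤ |R| * (N₀ : ℝ) := by positivity
          linarith)
        rw [e1, le_div_iff₀ (by positivity)]
        have e3 : Va ρ β h m * (c₂ / (K * (K ^ 2 + e))) ≤ K * (c₂ / (K * (K ^ 2 + e))) :=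
          mul_le_mul_of_nonneg_right hVm hq0.le
        have e4 : K * (c₂ / (K * (K ^ 2 + e))) = c₂ / (K ^ 2 + e) := by
          have : K ≠ 0 := by linarith
          have h8 : K ^ 2 + e ≠ 0 := by positivity
          field_simp
        have e5 : c₂ / (K ^ 2 + e) ≤ 1 := by
          rw [div_le_one (by positivity)]
          linarith
        linarith
      have hgr := hG' m T (A ρ β h m + e / 320) (A ρ β h m + e / 80)
        (c₂ / (K * (K ^ 2 + e))) (max (En ρ β h j) (Fn ρ β h j)) hm1 hq0 hq1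
        hbig hVq (by linarith) (by linarith) hluck
        (by rw [one_div_div]; exact hT2) hmax
      refine ⟨T, j, by omega, hj, ?_, fun Φ hΦ => ?_⟩
      · rw [← le_max_iff]
        linarith
      · have heΦ : e ≤ Φ := het.trans (hΦ t (by omega)).1
        have hkT : K ≤ kap Q c (128 * T) := by
          rw [hK]
          exact kap_mono15 hQ hc (by omega)
        obtain ⟨κ, hκ⟩ : ∃ κ, κ = kap Q c (128 * T) := ⟨_, rfl⟩
        rw [← hκ] at hkT ⊢
        have hΦ1 : 1 ≤ Φ := by linarith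
        have hκ1 : 1 ≤ κ := hK1.trans hkT
        have hy1 : 1 ≤ κ * Φ := one_le_mul_of_one_le_of_one_le hκ1 hΦ1
        have hx : K * (K ^ 2 + e) / c₂ ≤ 2 / c₂ * (κ * Φ) ^ (3 : ℝ) := by
          have hK2 : 1 ≤ K ^ 2 := one_le_pow₀ hK1
          have h1 : K ^ 2 + e ≤ 2 * (K ^ 2 * e) := by
            have e1 : K ^ 2 * 1 ≤ K ^ 2 * e := mul_le_mul_of_nonneg_left he1 (by linarith)
            have e2 : 1 * e ≤ K ^ 2 * e := mul_le_mul_of_nonneg_right hK2 he.le
            linarith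
          have h2 : K * (K ^ 2 + e) ≤ 2 * (K ^ 3 * e) := by
            have e1 := mul_le_mul_of_nonneg_left h1 (show 0 ≤ K by linarith)
            have e2 : K * (2 * (K ^ 2 * e)) = 2 * (K ^ 3 * e) := by ring
            linarith
          have h3 : K ^ 3 * e ≤ (κ * Φ) ^ 3 := by
            rw [mul_pow]
            have h4 : K ^ 3 ≤ κ ^ 3 := pow_le_pow_left₀ (by linarith) hkT 3
            have h5 : e ≤ Φ ^ 3 := by
              have h6 : Φ ≤ Φ ^ 3 := le_self_pow₀ hΦ1 (by norm_num)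
              linarith
            exact mul_le_mul h4 h5 he.le (pow_nonneg (by linarith) 3)
          have h4 : (κ * Φ) ^ (3 : ℝ) = (κ * Φ) ^ (3 : ℕ) := by
            rw [← Real.rpow_natCast]
            norm_num
          rw [h4, div_le_iff₀ hc₂, mul_right_comm, div_mul_cancel₀ _ hc₂.ne']
          linarith
        have ha : 1 ≤ 2 / c₂ := by
          rw [le_div_iff₀ hc₂]
          linarith
        have ht := time15 (C := C) (a := 2 / c₂) (y := κ * Φ) (b := 64) hC ha hy1 hn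
          (show m ≤ 64 * n by omega) (x := K * (K ^ 2 + e) / c₂) (by positivity) hx
        rw [← hT] at ht
        refine ht.trans ?_
        push_cast
        have h3 : 0 ≤ (n : ℝ) * (κ * Φ) ^ (3 * C) := by positivity
        rw [mul_assoc, mul_assoc _ (n : ℝ)]
        refine mul_le_mul_of_nonneg_right ?_ h3
        linarith

end Pool.Agent.W_7d29a1_AM
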